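import Pool.Agent.H24.BaseTab

/-!
Every small number is the exact complexity of some function.
-/

namespace Pool.Agent.H24

open Pool.Agent.H87.PMCSP (Circuit gop Dep REx RO)
open Finset

set_option linter.unusedSectionVars false

/-- removing the first gate of an optimal circuit -/
theorem Cx.pred {n k : ℕ} {f : (Fin n → Bool) → Bool} (h : Cx f (k + 1)) :
    ∃ f' : (Fin (n + 1) → Bool) → Bool, Cx f' k := by
  obtain ⟨⟨c, hc, hev⟩, hmin⟩ := h
  cases c with
  | out w neg => simp [Circuit.size] at hc
  | gate conj a na b nb rest =>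
    have hsz : rest.size + 1 = k + 1 := hc
    refine ⟨rest.eval, ⟨rest, by omega, fun _ => rfl⟩, ?_⟩
    intro c' hc'
    have h1 := hmin (Circuit.gate conj a na b nb c') (fun x => by
      rw [← hev, eval_gate, eval_gate, hc'])
    have h2 : (Circuit.gate conj a na b nb c').size = c'.size + 1 := rfl
    omega

/-- further variables -/
theorem Cx.pad {n n' k : ℕ} (hn : 0 < n) (hnn : n ≤ n') {f : (Fin n → Bool) → Bool}
    (h : Cx f k) : ∃ f' : (Fin n' → Bool) → Bool, Cx f' k := by
  obtain ⟨⟨c, hc, hev⟩, hmin⟩ := h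
  refine ⟨fun x => f (x ∘ Fin.castLE hnn), ?_, ?_⟩
  · obtain ⟨c', hc', hev'⟩ := exists_ren c (Fin.castLE hnn) (fun _ => false)
    refine ⟨c', hc'.trans hc, fun x => ?_⟩
    rw [hev', hev]
    congr 1
    funext i
    simp
  · intro c' hc'
    obtain ⟨c'', hc'', hev''⟩ := exists_ren c'
      (fun i : Fin n' => if h : (i : ℕ) < n then (⟨i, h⟩ : Fin n) else ⟨0, hn⟩) (fun _ => false)
    rw [← hc'']
    apply hmin
    intro x
    rw [hev'', hc']
    show f ((fun i : Fin n' => xor (x (if h : (i : ℕ) < n then (⟨i, h⟩ : Fin n) else ⟨0, hn⟩)) false)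
      ∘ Fin.castLE hnn) = f x
    congr 1
    funext i
    simp

theorem Cx.down {j : ℕ} : ∀ {n k : ℕ} {f : (Fin n → Bool) → Bool}, Cx f (k + j) →
    ∃ f' : (Fin (n + j) → Bool) → Bool, Cx f' k := by
  induction j with
  | zero => intro n k f h; exact ⟨f, h⟩
  | succ j ih =>
    intro n k f h
    obtain ⟨f', hf'⟩ := Cx.pred (k := k + j) h
    have := ih hf'
    rwa [show n + (j + 1) = n + 1 + j by omega]

/-- changing one value costs at most `n + 2` gates -/
theorem hasCircuit_flip {n s : ℕ} (hn : 0 < n) {f : (Fin n → Bool) → Bool} (hf : HasCircuit f s)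
    (a : Fin n → Bool) (v : Bool) :
    HasCircuit (fun x => if x = a then v else f x) (s + (n + 2)) := by
  obtain ⟨L, hL, _, hlen, hw⟩ : Add (s + (1 + (n + 1))) ([] : List ((Fin n → Bool) → Bool))
      (fun L' => Wire L' (fun x => if x = a then v else f x)) := by
    have h0 : Add s ([] : List ((Fin n → Bool) → Bool)) (fun L' => Wire L' f) := by
      have := add_comp (n := n) (fun i => i) Gates.nil hf
      exact this
    refine h0.trans ?_
    intro L₁ hL₁ _ hf'
    -- a constant
    have h1 : Add 1 L₁ (fun L' => Wire L' (fun _ => true)) := by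
      let i : Fin n := ⟨0, hn⟩
      have h2 : Wire L₁ (fun x : Fin n → Bool => x i) := ⟨_, Or.inl ⟨i, rfl⟩, Or.inl rfl⟩
      refine (add_or hL₁ h2 h2.not).mono le_rfl ?_
      intro L' _ h
      have h3 : (fun x : Fin n → Bool => x i || !(x i)) = fun _ => true := by
        funext x
        cases x i <;> rfl
      rw [h3] at h
      exact h
    refine h1.trans ?_
    intro L₂ hL₂ hs₂ ht
    have hcube := add_cube (fun i : Fin n => i) a univ hL₂ ht
    rw [Finset.card_univ, Fintype.card_fin] at hcube
    refine hcube.trans ?_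
    intro L₃ hL₃ hs₃ hcu
    have hcu' : Wire L₃ (fun x : Fin n → Bool => decide (x = a)) := by
      have : (fun x : Fin n → Bool => decide (∀ i ∈ (univ : Finset (Fin n)), x i = a i)) =
          fun x => decide (x = a) := by
        funext x
        rw [decide_eq_decide]
        constructor
        · intro h
          funext i
          exact h i (mem_univ _)
        · rintro rfl i _
          rfl
      rw [this] at hcu
      exact hcu
    have hf3 : Wire L₃ f := hf'.mono (fun v hv => hs₃ v (hs₂ v hv))
    cases v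
    · refine (add_and hL₃ hcu'.not hf3).mono le_rfl ?_
      intro L' _ h
      convert h using 2
      rename_i x
      by_cases hx : x = a <;> simp [hx]
    · refine (add_or hL₃ hcu' hf3).mono le_rfl ?_
      intro L' _ h
      convert h using 2
      rename_i x
      by_cases hx : x = a <;> simp [hx]
  refine ⟨L, hL, ?_, hw⟩
  simp only [List.length_nil] at hlen
  omega

/-- the path from an easy function to a hard one -/
theorem exists_between_cx {n c : ℕ} (hn : 0 < n) {g f0 : (Fin n → Bool) → Bool}
    (h0 : HasCircuit f0 c) (hg : ¬ HasCircuit g c) :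
    ∃ f : (Fin n → Bool) → Bool, ¬ HasCircuit f c ∧ HasCircuit f (c + (n + 2)) := by
  classical
  have key : ∀ D : Finset (Fin n → Bool), ¬ HasCircuit (fun x => if x ∈ D then g x else f0 x) c →
      ∃ f : (Fin n → Bool) → Bool, ¬ HasCircuit f c ∧ HasCircuit f (c + (n + 2)) := by
    intro D
    induction D using Finset.induction_on with
    | empty =>
      intro h
      exact absurd (by simpa using h0) h
    | insert a D _ ih =>
      intro h
      by_cases hD : HasCircuit (fun x => if x ∈ D then g x else f0 x) c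
      · refine ⟨_, h, ?_⟩
        have h1 := hasCircuit_flip hn hD a (g a)
        convert h1 using 2
        rename_i x
        by_cases hx : x = a
        · subst hx
          simp
        · simp [hx]
      · exact ih hD
  apply key univ
  simpa using hg

/-- **Exact complexities.** -/
theorem exists_exact {d c : ℕ} (hd : 0 < d) (hc : (2 * d + 5) * (c + 1) < 2 ^ d) :
    ∃ f : (Fin (2 * d + 2) → Bool) → Bool, Cx f c := by
  classical
  -- a hard function
  obtain ⟨g, hg⟩ : ∃ g : (Fin d → Bool) → Bool, ¬ HasCircuit g c := by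
    by_contra hcon
    push Not at hcon
    have h1 : c + 1 ≤ 2 ^ d := by nlinarith
    have h2 := card_smallFns_le_pow h1
    have h3 : (univ : Finset ((Fin d → Bool) → Bool)).card ≤ (smallFns d c).card :=
      Finset.card_le_card (fun f _ => mem_smallFns.2 (hcon f))
    rw [Finset.card_univ, Fintype.card_fun, Fintype.card_fun, Fintype.card_bool,
      Fintype.card_fin] at h3
    have h4 := (Nat.pow_le_pow_iff_right (by norm_num : 1 < 2)).1 (h3.trans h2)
    omega
  have h0 : HasCircuit (fun x : Fin d → Bool => x ⟨0, hd⟩) c :=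
    ⟨[], Gates.nil, by simp, _, Or.inl ⟨_, rfl⟩, Or.inl rfl⟩
  obtain ⟨f, hf1, hf2⟩ := exists_between_cx hd h0 hg
  -- its exact complexity
  have hex : ∃ s, HasCircuit f s := ⟨_, hf2⟩
  set s := Nat.find hex with hs
  have hs1 : HasCircuit f s := Nat.find_spec hex
  have hs2 : ∀ s', HasCircuit f s' → s ≤ s' := fun s' h => Nat.find_min' hex h
  have hmono : ∀ {s s' : ℕ}, s ≤ s' → HasCircuit f s → HasCircuit f s' := by
    rintro s s' hss ⟨L, h1, h2, h3⟩
    exact ⟨L, h1, h2.trans hss, h3⟩
  have hcs : c < s := by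
    by_contra hcon
    exact hf1 (hmono (by omega) hs1)
  have hsc : s ≤ c + (d + 2) := hs2 _ hf2
  have hCx : Cx f s := by
    obtain ⟨c1, hc1, hev⟩ := (hasCircuit_iff f s).1 hs1
    have hge : ∀ c' : Circuit d, (∀ x, c'.eval x = f x) → s ≤ c'.size := fun c' hc' =>
      hs2 _ ((hasCircuit_iff f _).2 ⟨c', le_rfl, funext hc'⟩)
    have hev' : ∀ x, c1.eval x = f x := fun x => congrFun hev x
    exact ⟨⟨c1, le_antisymm hc1 (hge c1 hev'), hev'⟩, hge⟩
  obtain ⟨j, hj⟩ : ∃ j, s = c + j := ⟨s - c, by omega⟩
  rw [hj] at hCx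
  obtain ⟨f', hf'⟩ := Cx.down hCx
  exact hf'.pad (by omega) (by omega)

end Pool.Agent.H24
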