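import Pool.Agent.H24.TightNeg
import Pool.Agent.H24.ExactCx

/-!
The slices of Partial MCSP for all size parameters `1 ≤ s ≤ 2 ^ (n / C)` against circuits with at
most `min s n / C` NOT gates.
-/

namespace Pool.Agent.H24

open Finset
open Pool.Agent.H87.PMCSP (Circuit VT Zer One XT YT sgX sgY)

set_option linter.unusedSectionVars false

/-! ### The table of a system of pair constraints depends positively on all inputs -/

theorem tabA_pos {k m r nx : ℕ} (hm : 0 < m) (e : VT k m r ↪ Fin nx)
    (hcard : Fintype.card (VT k m r) = nx) (A : Ed k m → Bool) (i : Fin nx) :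
    ∃ x : Fin nx → Bool, x i = false ∧ tabA e A x = some false ∧
      tabA e A (Function.update x i true) = some true := by
  classical
  have hbij : Function.Bijective e :=
    (Fintype.bijective_iff_injective_and_card e).2 ⟨e.injective, by rw [hcard, Fintype.card_fin]⟩
  let E : VT k m r ≃ Fin nx := Equiv.ofBijective e hbij
  obtain ⟨v, rfl⟩ := hbij.2 i
  have hE : ∀ v', E.symm (e v') = v' := fun v' => E.symm_apply_apply v'
  have key : ∀ z z' : VT k m r → Bool, z v = false → Zer k m r z → One k m r (badOf A) z' →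
      (∀ v', v' ≠ v → z' v' = z v') → z' v = true →
      ∃ x : Fin nx → Bool, x (e v) = false ∧ tabA e A x = some false ∧
        tabA e A (Function.update x (e v) true) = some true := by
    intro z z' h0 h1 h2 h3 h4
    refine ⟨fun j => z (E.symm j), ?_, ?_, ?_⟩
    · change z (E.symm (e v)) = false
      rw [hE]
      exact h0
    · unfold tabA
      have h5 : (fun v' : VT k m r => z (E.symm (e v'))) = z := by
        funext v'
        rw [hE]
      change H87.PMCSP.tab k m r (badOf A) (fun v' : VT k m r => z (E.symm (e v'))) = some false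
      rw [h5]
      exact H87.PMCSP.tab_zer h1
    · unfold tabA
      have h5 : (fun v' : VT k m r => Function.update (fun j => z (E.symm j)) (e v) true (e v')) =
          z' := by
        funext v'
        by_cases hv : v' = v
        · subst hv
          rw [Function.update_self, h4]
        · rw [Function.update_of_ne (fun h => hv (e.injective h)), hE, h3 v' hv]
      rw [h5]
      exact H87.PMCSP.tab_one hm h2
  rcases v with u | a
  · refine key _ _ ?_ Zer.b (One.a u) ?_ ?_
    · rfl
    · rintro (v | v) hv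
      · simp only [Sum.elim_inl, sgX, decide_eq_false_iff_not]
        rintro rfl
        exact hv rfl
      · rfl
    · simp [sgX]
  · refine key _ _ ?_ Zer.a (One.b a) ?_ ?_
    · rfl
    · rintro (v | v) hv
      · rfl
      · simp only [Sum.elim_inr, sgY, decide_eq_false_iff_not]
        rintro rfl
        exact hv rfl
    · simp [sgY]

theorem baseT_source {k m r nx ny : ℕ} (e : VT k m r ↪ Fin nx) (h : (Fin ny → Bool) → Bool)
    (l : (Fin (nx + ny) → Bool) × Bool) :
    (∃ v, (fun A : Ed k m → Bool => enc (baseT h (tabA e A)) l) = fun A => A v) ∨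
      ∃ c : Bool, (fun A : Ed k m → Bool => enc (baseT h (tabA e A)) l) = fun _ => c := by
  by_cases h1 : h (l.1 ∘ Fin.natAdd nx) = true
  · have h2 : (fun A : Ed k m → Bool => enc (baseT h (tabA e A)) l) =
        fun A => enc (tabA e A) (l.1 ∘ Fin.castAdd ny, l.2) := by
      funext A
      rw [enc_baseT, if_pos h1]
    rw [h2]
    exact tabA_source e _
  · right
    refine ⟨l.2 == false, ?_⟩
    funext A
    rw [enc_baseT, if_neg h1]

/-- The lower bound with a base function. -/
theorem base_large {q m nx ny k : ℕ} (hq : 3000 ≤ q) (hqm : 2 ^ (16 * q) ≤ m)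
    (hms : 8 * m ≤ nx) {h : (Fin ny → Bool) → Bool} (hC : Cx h k) (hnc : ¬ ∃ b, ∀ y, h y = b)
    {t r : ℕ} (hr : 64 * r ≤ m)
    {L : List (((Fin (nx + ny) → Bool) × Bool → Bool) → Bool)}
    {F : ((Fin (nx + ny) → Bool) × Bool → Bool) → Bool}
    (hL : NegCircuit t r L) (hF : Source L F)
    (hFT : ∀ T : (Fin (nx + ny) → Bool) → Option Bool,
      F (enc T) = true ↔ PartialMCSP T (k + nx)) :
    2 ^ (m / 4 * (q / 1000 - 2)) ≤ t := by
  obtain ⟨ρ, hρ⟩ : ∃ ρ, nx = 4 * (2 ^ (16 * q) + m) + ρ :=
    ⟨nx - 4 * (2 ^ (16 * q) + m), by omega⟩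
  have hm : 0 < m := lt_of_lt_of_le (by positivity) hqm
  have hcard : Fintype.card (VT (16 * q) m ρ) = nx := by
    rw [H87.PMCSP.card_VT, hρ]
  obtain ⟨e⟩ : Nonempty (VT (16 * q) m ρ ↪ Fin nx) :=
    Function.Embedding.nonempty_of_card_le (by rw [hcard, Fintype.card_fin])
  obtain ⟨H, hH⟩ := csp_neg_lower hq hqm
  have hL1 := circuit_subst (fun A => enc (baseT h (tabA e A))) (baseT_source e h) hL
  have hF1 := source_subst (fun A => enc (baseT h (tabA e A))) (baseT_source e h) hF
  have hL2 := circuit_subst (mask H) (mask_source H) hL1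
  have hF2 := source_subst (mask H) (mask_source H) hF1
  have key : ∀ A : Ed (16 * q) m → Bool,
      F (enc (baseT h (tabA e (mask H A)))) = true ↔ SolH H A := by
    intro A
    rw [hFT, base_iff hC hnc (by omega) (fun i => tabA_pos hm e hcard _ i),
      sol_iff hm e _ (s := nx - 1) (by omega), sol_mask]
  refine hH t r _ _ hr hL2 hF2 ?_ ?_
  · intro A hA
    exact (key A).2 hA
  · intro A hA
    rw [← Bool.not_eq_true]
    exact fun h' => hA ((key A).1 h')

/-! ### Functions of large complexity are not constant -/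

theorem Cx.not_const {n k : ℕ} {h : (Fin n → Bool) → Bool} (hC : Cx h k) (hn : 0 < n)
    (hk : 2 ≤ k) : ¬ ∃ b, ∀ y, h y = b := by
  rintro ⟨b, hb⟩
  have h1 := hC.2 (Circuit.gate true ⟨0, hn⟩ false ⟨0, hn⟩ true (Circuit.out (Fin.last n) b))
    (by
      intro y
      rw [hb, eval_gate]
      simp [Circuit.eval, tg, H87.PMCSP.gop])
  have h2 : (Circuit.gate true ⟨0, hn⟩ false ⟨0, hn⟩ true
    (Circuit.out (Fin.last n) b)).size = 1 := rfl
  omega

end Pool.Agent.H24
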