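import Pool.Agent.H24.ParNum
import Pool.Agent.H24.LogAll

/-!
The slices of Partial MCSP against circuits with at most `(1 - ε) * min s n` NOT gates.
-/

namespace Pool.Agent.H24

open Finset

theorem hpow_aux : ∀ x : ℕ, 100 ≤ x → 32 * (2 * x + 1) ≤ 2 ^ x := by
  intro x hx
  induction x, hx using Nat.le_induction with
  | base => norm_num
  | succ x hx ih =>
    rw [pow_succ]
    omega

/-- The number of NOT gates fits. -/
theorem not_count {b r n V Z : ℕ} (hr : (b + 1) * r ≤ b * n)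
    (hZ : 4 * (b + 1) * V ≤ 4 * (b + 1) * Z + 3 * V) (hn : 4 * (b * n) ≤ 4 * (b * V) + V) :
    r ≤ Z := by
  by_contra hlt
  push Not at hlt
  have h1 : (b + 1) * (Z + 1) ≤ (b + 1) * r := Nat.mul_le_mul_left _ hlt
  have h2 : 4 * (b + 1) * V = 4 * (b * V) + 4 * V := by ring
  have h3 : 4 * (b + 1) * Z = 4 * ((b + 1) * Z) := by ring
  have h4 : (b + 1) * (Z + 1) = (b + 1) * Z + (b + 1) := by ring
  omega

theorem neg_all_lower (b : ℕ) : ∃ C : ℕ, 1 ≤ C ∧ ∀ n s : ℕ, 1 ≤ s → s ≤ 2 ^ (n / C) →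
    ∀ (t r : ℕ) (L : List (((Fin n → Bool) × Bool → Bool) → Bool))
      (F : ((Fin n → Bool) × Bool → Bool) → Bool), (b + 1) * r ≤ b * min s n →
      NegCircuit t r L → Source L F →
      (∀ T : (Fin n → Bool) → Option Bool, F (enc T) = true ↔ PartialMCSP T s) →
      2 ^ (n + min s n * Nat.log 2 n) ≤ (t + 2) ^ C := by
  obtain ⟨N0, C1, hpar⟩ := param_exists (b + 1) (by omega)
  obtain ⟨Y, hY⟩ : ∃ Y, Y = 2 * N0 + 1000 * (b + 1) + 1000 := ⟨_, rfl⟩
  obtain ⟨N1, hN1⟩ : ∃ N1, N1 = 2 ^ Y := ⟨_, rfl⟩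
  have hYN : Y ≤ N1 := by
    rw [hN1]
    exact (Nat.lt_two_pow_self (n := Y)).le
  have hN1b : 1000000 * (b + 1) ≤ N1 := by
    have e1 : 1000 * (b + 1) + 1 ≤ 2 ^ (1000 * (b + 1)) := Nat.lt_two_pow_self
    have e2 : 1001 ≤ 2 ^ 1000 := by
      have : 1000 + 1 ≤ 2 ^ 1000 := Nat.lt_two_pow_self
      exact this
    calc 1000000 * (b + 1) ≤ (1000 * (b + 1) + 1) * 1001 := by ring_nf; omega
      _ ≤ 2 ^ (1000 * (b + 1)) * 2 ^ 1000 := Nat.mul_le_mul e1 e2
      _ = 2 ^ (1000 * (b + 1) + 1000) := by rw [← pow_add]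
      _ ≤ N1 := by
          rw [hN1]
          apply Nat.pow_le_pow_right (by norm_num)
          omega
  refine ⟨N1 + N1 * N1 + 8 * C1 + 256 * (b + 1), by omega, ?_⟩
  obtain ⟨C, hC⟩ : ∃ C, C = N1 + N1 * N1 + 8 * C1 + 256 * (b + 1) := ⟨_, rfl⟩
  rw [← hC]
  intro n s hs hs2 t r L F hr hL hF hFT
  set ℓ := Nat.log 2 n with hℓ
  have hacc : ∀ T : (Fin n → Bool) → Option Bool, PartialMCSP T s → F (enc T) = true :=
    fun T h => (hFT T).2 h
  have hrej : ∀ T : (Fin n → Bool) → Option Bool, ¬ PartialMCSP T s → F (enc T) = false := by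
    intro T h
    rw [← Bool.not_eq_true]
    exact fun h' => h ((hFT T).1 h')
  by_cases hsmall : n < N1
  · -- few inputs
    have e1 : ℓ ≤ n := Nat.log_le_self 2 n
    have e2 : min s n * ℓ ≤ N1 * N1 :=
      Nat.mul_le_mul ((min_le_right _ _).trans hsmall.le) (e1.trans hsmall.le)
    have e3 : n + min s n * ℓ ≤ C := by omega
    exact (Nat.pow_le_pow_right (by norm_num) e3).trans (Nat.pow_le_pow_left (by omega) _)
  push Not at hsmall
  have hn0 : n ≠ 0 := by omega
  have hYℓ : Y ≤ ℓ := by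
    rw [hℓ]
    apply (Nat.le_log_iff_pow_le (by norm_num) hn0).2
    rw [← hN1]
    exact hsmall
  have hn : n < 2 ^ (ℓ + 1) := Nat.lt_pow_succ_log_self (by norm_num) n
  have hn' : 2 ^ ℓ ≤ n := Nat.pow_log_le_self 2 hn0
  have hfin : ∀ x : ℕ, 2 ^ x ≤ t → n + min s n * ℓ ≤ 8 * C1 * x →
      2 ^ (n + min s n * ℓ) ≤ (t + 2) ^ C := by
    intro x hx hle
    calc 2 ^ (n + min s n * ℓ) ≤ 2 ^ (x * (8 * C1)) := by
          apply Nat.pow_le_pow_right (by norm_num)
          rw [mul_comm x]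
          exact hle
      _ = (2 ^ x) ^ (8 * C1) := by rw [pow_mul]
      _ ≤ (t + 2) ^ (8 * C1) := Nat.pow_le_pow_left (by omega) _
      _ ≤ (t + 2) ^ C := Nat.pow_le_pow_right (by omega) (by omega)
  rcases Nat.lt_or_ge s n with hsn | hns
  · -- size parameter below the number of inputs
    rw [min_eq_left hsn.le] at hr hfin ⊢
    by_cases hlow : s * ℓ < n
    · -- the trivial bound
      have h1 : s * 2 ≤ s * ℓ := Nat.mul_le_mul_left _ (by omega)
      have h2 := neg_lower_trivial (by omega) (by omega) hL hF hacc hrej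
      have h3 : 2 ^ n ≤ (t + 2) ^ 2 := h2.trans (by nlinarith)
      calc 2 ^ (n + s * ℓ) ≤ 2 ^ (n * 2) := Nat.pow_le_pow_right (by norm_num) (by omega)
        _ = (2 ^ n) ^ 2 := by rw [pow_mul]
        _ ≤ ((t + 2) ^ 2) ^ 2 := Nat.pow_le_pow_left h3 2
        _ = (t + 2) ^ 4 := by rw [← pow_mul]
        _ ≤ (t + 2) ^ C := Nat.pow_le_pow_right (by omega) (by omega)
    · push Not at hlow
      obtain ⟨h, hh⟩ : ∃ h, h = ℓ / 2 := ⟨_, rfl⟩
      have h1 : 2 ^ h * 32 ≤ s := by
        have h2 : 2 ^ h * 2 ^ h ≤ n := by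
          rw [← pow_add]
          exact (Nat.pow_le_pow_right (by norm_num) (by omega)).trans hn'
        have h3 : 32 * ℓ ≤ 2 ^ h :=
          (by omega : 32 * ℓ ≤ 32 * (2 * h + 1)).trans (hpow_aux h (by omega))
        have h4 : (2 ^ h * 32) * 2 ^ h ≤ s * 2 ^ h := by
          calc (2 ^ h * 32) * 2 ^ h = (2 ^ h * 2 ^ h) * 32 := by ring
            _ ≤ n * 32 := Nat.mul_le_mul_right _ h2
            _ ≤ (s * ℓ) * 32 := Nat.mul_le_mul_right _ hlow
            _ = s * (32 * ℓ) := by ring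
            _ ≤ s * 2 ^ h := Nat.mul_le_mul_left _ h3
        exact Nat.le_of_mul_le_mul_right h4 (by positivity)
      have hh2 : h ≤ 2 ^ h := (Nat.lt_two_pow_self (n := h)).le
      obtain ⟨k, h', w, hP, hsz, hnot, hV⟩ := hpar (s + 1) (by omega)
      have hr' : r ≤ 2 * h' * (20 * (b + 1) - 5) := by
        apply not_count hr hnot
        have : b * (s + 1) = b * s + b := by ring
        omega
      have hmain := negD_large hP hsz hsn hr' hL hF hFT
      apply hfin _ hmain
      have hlog : h ≤ Nat.log 2 (s + 1) := by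
        apply (Nat.le_log_iff_pow_le (by norm_num) (by omega)).2
        omega
      have e1 : s * ℓ ≤ (s + 1) * (2 * Nat.log 2 (s + 1) + 1) :=
        Nat.mul_le_mul (by omega) (by omega)
      have e2 : 1 ≤ Nat.log 2 (s + 1) := by omega
      have e3 : (s + 1) * (2 * Nat.log 2 (s + 1) + 1) ≤ 3 * ((s + 1) * Nat.log 2 (s + 1)) := by
        nlinarith
      calc n + s * ℓ ≤ 2 * (s * ℓ) := by omega
        _ ≤ 2 * (3 * ((s + 1) * Nat.log 2 (s + 1))) := Nat.mul_le_mul_left _ (e1.trans e3)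
        _ ≤ 2 * (3 * (C1 * (h' * (w - 2 * (20 * (b + 1)))))) := by gcongr
        _ ≤ 8 * C1 * (h' * (w - 2 * (20 * (b + 1)))) := by
            have : 2 * (3 * (C1 * (h' * (w - 2 * (20 * (b + 1)))))) =
              6 * (C1 * (h' * (w - 2 * (20 * (b + 1))))) := by ring
            rw [this, mul_assoc]
            omega
  · -- size parameter at least the number of inputs
    rw [min_eq_right hns] at hr hfin ⊢
    obtain ⟨d, hd⟩ : ∃ d, d = n / (64 * (b + 1)) := ⟨_, rfl⟩
    have hd1 : 64 * (b + 1) * d ≤ n := by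
      rw [hd]
      exact Nat.mul_div_le _ _
    have hd2 : 10000 ≤ d := by
      rw [hd, Nat.le_div_iff_mul_le (by positivity)]
      refine le_trans ?_ hsmall
      refine le_trans ?_ hN1b
      have : 10000 * (64 * (b + 1)) = 640000 * (b + 1) := by ring
      omega
    have hd64 : 64 * d ≤ n := by
      have : 64 * d ≤ 64 * (b + 1) * d := by
        have : 64 * (b + 1) * d = 64 * d + 64 * (b * d) := by ring
        omega
      omega
    obtain ⟨nx, hnx⟩ : ∃ nx, n = nx + (2 * d + 2) := ⟨n - (2 * d + 2), by omega⟩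
    obtain ⟨c, hc⟩ : ∃ c, s = c + nx := ⟨s - nx, by omega⟩
    -- the base function
    have hnC : n / C ≤ d / 4 := by
      have e1 : n / C ≤ n / (64 * (b + 1) * 4) := by
        apply Nat.div_le_div_left _ (by positivity)
        have : 64 * (b + 1) * 4 = 256 * (b + 1) := by ring
        omega
      rw [← Nat.div_div_eq_div_mul, ← hd] at e1
      exact e1
    have hexact : (2 * d + 5) * (c + 1) < 2 ^ d := by
      have e1 : c + 1 ≤ 2 ^ (d / 4) := by
        have : c + 1 ≤ s := by omega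
        exact this.trans (hs2.trans (Nat.pow_le_pow_right (by norm_num) hnC))
      have e2 : 2 * d + 5 ≤ 2 ^ (d / 2) :=
        (by omega : 2 * d + 5 ≤ 32 * (2 * (d / 2) + 1)).trans (hpow_aux (d / 2) (by omega))
      calc (2 * d + 5) * (c + 1) ≤ 2 ^ (d / 2) * 2 ^ (d / 4) := Nat.mul_le_mul e2 e1
        _ = 2 ^ (d / 2 + d / 4) := by rw [← pow_add]
        _ < 2 ^ d := Nat.pow_lt_pow_right (by norm_num) (by omega)
    obtain ⟨g, hg⟩ := exists_exact (d := d) (c := c) (by omega) hexact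
    have hnc := hg.not_const (by omega) (by omega)
    obtain ⟨k, h', w, hP, hsz, hnot, hV⟩ := hpar nx (by omega)
    have hr' : r ≤ 2 * h' * (20 * (b + 1) - 5) := by
      apply not_count hr hnot
      have e1 : b * n = b * nx + b * (2 * d + 2) := by rw [hnx]; ring
      have e2 : 8 * (b * (2 * d + 2)) ≤ 64 * (b + 1) * d := by
        have e3 : 8 * (b * (2 * d + 2)) ≤ 8 * (b * (3 * d)) := by
          apply Nat.mul_le_mul_left
          apply Nat.mul_le_mul_left
          omega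
        have e4 : 64 * (b + 1) * d = 8 * (b * (3 * d)) + 40 * (b * d) + 64 * d := by ring
        omega
      omega
    subst hnx
    subst hc
    have hmain := baseD_large hP hsz hg hnc hr' hL hF hFT
    apply hfin _ hmain
    have hlog : ℓ ≤ Nat.log 2 nx + 1 := by
      have e1 : ℓ - 1 ≤ Nat.log 2 nx := by
        apply (Nat.le_log_iff_pow_le (by norm_num) (by omega)).2
        have e2 : 2 ^ (ℓ - 1) * 2 ≤ nx * 2 := by
          rw [← pow_succ]
          have e3 : ℓ - 1 + 1 = ℓ := by omega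
          rw [e3]
          omega
        omega
      omega
    have e2 : 1 ≤ Nat.log 2 nx := by omega
    have e1 : (nx + (2 * d + 2)) * ℓ ≤ (2 * nx) * (2 * Nat.log 2 nx) :=
      Nat.mul_le_mul (by omega) (by omega)
    have e3 : nx + (2 * d + 2) ≤ (nx + (2 * d + 2)) * ℓ := Nat.le_mul_of_pos_right _ (by omega)
    calc nx + (2 * d + 2) + (nx + (2 * d + 2)) * ℓ ≤ 2 * ((2 * nx) * (2 * Nat.log 2 nx)) := by
          omega
      _ = 8 * (nx * Nat.log 2 nx) := by ring
      _ ≤ 8 * (C1 * (h' * (w - 2 * (20 * (b + 1))))) := Nat.mul_le_mul_left _ hV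
      _ = 8 * C1 * (h' * (w - 2 * (20 * (b + 1)))) := by ring

end Pool.Agent.H24
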