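import Pool.Agent.H24.Elim

/-!
The structure of a circuit that computes a hard function after fixing the wires of a set `S` and
has only `|S|` gates more than necessary: the assignments of `S` for which it still computes the
hard function are those accepted by a read-once function on `S`.
-/

namespace Pool.Agent.H24

open Pool.Agent.H87.PMCSP (Circuit gop Dep REx RO snoc_update_castSucc)

set_option linter.unusedSectionVars false

/-- read-once on the old wires -/
theorem rex_down {n : ℕ} {S : Finset (Fin n)} {f : (Fin (n + 1) → Bool) → Bool}
    (h : REx (S.map Fin.castSuccEmb) f) (τ : Bool) : REx S (fun z => f (sn z τ)) := by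
  obtain ⟨r, hr⟩ := h
  have h1 := REx.subst hr (fun v => (Fin.lastCases (motive := fun _ => Finset (Fin n)) ∅
      (fun i => {i}) v)) (fun v z => sn z τ v) (by
    intro v hv
    obtain ⟨w, -, rfl⟩ := Finset.mem_map.1 hv
    have h2 := REx.lit w false
    simp only [Fin.coe_castSuccEmb, Fin.lastCases_castSucc, sn_castSucc]
    simpa using h2) (by
    intro v hv w hw hvw
    obtain ⟨v', -, rfl⟩ := Finset.mem_map.1 hv
    obtain ⟨w', -, rfl⟩ := Finset.mem_map.1 hw
    simp only [Fin.coe_castSuccEmb, Fin.lastCases_castSucc, Finset.disjoint_singleton]
    rintro rfl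
    exact hvw rfl)
  have h3 : (S.map Fin.castSuccEmb).biUnion (fun v => (Fin.lastCases
      (motive := fun _ => Finset (Fin n)) ∅ (fun i => {i}) v)) = S := by
    ext i
    rw [Finset.mem_biUnion]
    constructor
    · rintro ⟨v, hv, hi⟩
      obtain ⟨w, hw, rfl⟩ := Finset.mem_map.1 hv
      simp only [Fin.coe_castSuccEmb, Fin.lastCases_castSucc, Finset.mem_singleton] at hi
      exact hi ▸ hw
    · intro hi
      refine ⟨i.castSucc, mem_up.2 hi, ?_⟩
      simp
  rw [h3] at h1
  exact h1

/-- substitution of a gate with operands outside the rest for the last wire -/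
theorem rex_gate {n : ℕ} {S0 : Finset (Fin n)} {f : (Fin (n + 1) → Bool) → Bool}
    (h : REx (insert (Fin.last n) (S0.map Fin.castSuccEmb)) f) (conj : Bool) {a b : Fin n}
    (na nb : Bool) (hab : a ≠ b) (ha : a ∉ S0) (hb : b ∉ S0) :
    REx (insert a (insert b S0)) (fun z => f (sn z (tg conj a na b nb z))) := by
  obtain ⟨r, hr⟩ := h
  have h1 := REx.subst hr (fun v => (Fin.lastCases (motive := fun _ => Finset (Fin n)) {a, b}
      (fun i => {i}) v)) (fun v z => sn z (tg conj a na b nb z) v) (by
    intro v hv
    rcases Finset.mem_insert.1 hv with rfl | hv
    · simp only [Fin.lastCases_last, sn_last]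
      exact REx.node conj (f := fun x : Fin n → Bool => xor (x a) na)
        (g := fun x : Fin n → Bool => xor (x b) nb) (S := {a}) (T := {b})
        (by simpa using hab) (REx.lit a na) (REx.lit b nb)
    · obtain ⟨w, -, rfl⟩ := Finset.mem_map.1 hv
      have h2 := REx.lit w false
      simp only [Fin.coe_castSuccEmb, Fin.lastCases_castSucc, sn_castSucc]
      simpa using h2) (by
    intro v hv w hw hvw
    rcases Finset.mem_insert.1 hv with rfl | hv
    · rcases Finset.mem_insert.1 hw with rfl | hw
      · exact absurd rfl hvw
      · obtain ⟨w', hw', rfl⟩ := Finset.mem_map.1 hw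
        simp only [Fin.coe_castSuccEmb, Fin.lastCases_last, Fin.lastCases_castSucc,
          Finset.disjoint_singleton_right, Finset.mem_insert, Finset.mem_singleton, not_or]
        exact ⟨fun h => ha (h ▸ hw'), fun h => hb (h ▸ hw')⟩
    · obtain ⟨v', hv', rfl⟩ := Finset.mem_map.1 hv
      rcases Finset.mem_insert.1 hw with rfl | hw
      · simp only [Fin.coe_castSuccEmb, Fin.lastCases_last, Fin.lastCases_castSucc,
          Finset.disjoint_singleton_left, Finset.mem_insert, Finset.mem_singleton, not_or]
        exact ⟨fun h => ha (h ▸ hv'), fun h => hb (h ▸ hv')⟩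
      · obtain ⟨w', -, rfl⟩ := Finset.mem_map.1 hw
        simp only [Fin.coe_castSuccEmb, Fin.lastCases_castSucc, Finset.disjoint_singleton]
        rintro rfl
        exact hvw rfl)
  have h3 : (insert (Fin.last n) (S0.map Fin.castSuccEmb)).biUnion (fun v => (Fin.lastCases
      (motive := fun _ => Finset (Fin n)) {a, b} (fun i => {i}) v)) = insert a (insert b S0) := by
    ext i
    rw [Finset.mem_biUnion]
    constructor
    · rintro ⟨v, hv, hi⟩
      rcases Finset.mem_insert.1 hv with rfl | hv
      · simp only [Fin.lastCases_last, Finset.mem_insert, Finset.mem_singleton] at hi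
        rcases hi with rfl | rfl <;> simp
      · obtain ⟨w, hw, rfl⟩ := Finset.mem_map.1 hv
        simp only [Fin.coe_castSuccEmb, Fin.lastCases_castSucc, Finset.mem_singleton] at hi
        simp [hi, hw]
    · intro hi
      rcases Finset.mem_insert.1 hi with rfl | hi
      · exact ⟨Fin.last n, Finset.mem_insert_self _ _, by simp⟩
      · rcases Finset.mem_insert.1 hi with rfl | hi
        · exact ⟨Fin.last n, Finset.mem_insert_self _ _, by simp⟩
        · exact ⟨i.castSucc, Finset.mem_insert_of_mem (mem_up.2 hi), by simp⟩
  rw [h3] at h1
  exact h1

/-- substituting a constant for the last wire -/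
theorem sub_const {n : ℕ} (c : Circuit (n + 1)) (v : Fin n) (κ : Bool) :
    (∃ b, ∀ x, c.eval (sn x κ) = b) ∨
      ∃ c' : Circuit n, c'.size ≤ c.size ∧ (Dep c.eval (Fin.last n) → c'.size < c.size) ∧
        ∀ x, c'.eval x = c.eval (sn x κ) := by
  by_cases h : Dep c.eval (Fin.last n)
  · rcases elim c {Fin.last n} (sn (fun _ => false) κ) (by simpa using h) with
      ⟨b, hb⟩ | ⟨c', hc', hev⟩
    · left
      refine ⟨b, fun x => ?_⟩
      have h1 := ovr_sn_last ∅ (fun _ => false) x κ κ
      simp only [Finset.map_empty, insert_empty_eq] at h1
      rw [← hb (sn x κ), h1]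
      rfl
    · right
      obtain ⟨c'', hc'', hev'⟩ := sub_wire c' v false
      rw [Finset.card_singleton] at hc'
      refine ⟨c'', by omega, fun _ => by omega, fun x => ?_⟩
      rw [hev', hev]
      have h1 := ovr_sn_last ∅ (fun _ => false) x κ (xor (x v) false)
      simp only [Finset.map_empty, insert_empty_eq] at h1
      rw [h1]
      rfl
  · right
    obtain ⟨c'', hc'', hev'⟩ := sub_wire c v false
    refine ⟨c'', hc''.le, fun h' => absurd h' h, fun x => ?_⟩
    rw [hev']
    exact not_dep_last h _ _ _

/-- **Structure of a circuit with `|S|` gates more than the restricted function needs.** -/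
theorem struct_base {n : ℕ} (c : Circuit n) : ∀ (S : Finset (Fin n)) (x1 : Fin n → Bool) (k : ℕ),
    (∀ v ∈ S, Dep c.eval v) → c.size ≤ k + S.card →
    (¬ ∃ b, ∀ x, c.eval (ovr S x1 x) = b) →
    (∀ c' : Circuit n, (∀ x, c'.eval x = c.eval (ovr S x1 x)) → k ≤ c'.size) →
    ∃ Φ : (Fin n → Bool) → Bool, ((S = ∅ ∧ ∀ z, Φ z = true) ∨ REx S Φ) ∧
      (∀ z, Φ z = true → ∀ x, c.eval (ovr S z x) = c.eval (ovr S x1 x)) ∧
      (∀ z, Φ z = false → (∃ b, ∀ x, c.eval (ovr S z x) = b) ∨
        ∃ c' : Circuit n, c'.size < k ∧ ∀ x, c'.eval x = c.eval (ovr S z x)) := by
  induction c with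
  | @out n w neg =>
    intro S x1 k hS hsize hnc hk
    have hw : w ∉ S := by
      intro hw
      apply hnc
      refine ⟨xor (x1 w) neg, fun x => ?_⟩
      simp only [Circuit.eval, ovr_mem hw]
    have hS0 : S = ∅ := by
      rw [Finset.eq_empty_iff_forall_notMem]
      intro v hv
      obtain ⟨x, hx⟩ := hS v hv
      apply hx
      simp only [Circuit.eval]
      rw [Function.update_of_ne]
      rintro rfl
      exact hw hv
    refine ⟨fun _ => true, Or.inl ⟨hS0, fun _ => rfl⟩, ?_, fun z hz => by simp at hz⟩
    intro z _ x
    simp only [Circuit.eval, ovr_not_mem hw]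
  | @gate n conj a na b nb rest ih =>
    intro S x1 k hS hsize hnc hk
    have hsz : (Circuit.gate conj a na b nb rest).size = rest.size + 1 := rfl
    by_cases hlast : Dep rest.eval (Fin.last n)
    swap
    · -- a useless gate is impossible
      exfalso
      have hl := not_dep_last hlast
      have hup : ∀ v ∈ S.map Fin.castSuccEmb, Dep rest.eval v := by
        intro v hv
        obtain ⟨w, hw, rfl⟩ := Finset.mem_map.1 hv
        exact dep_rest' (hS w hw) hl
      have heq : ∀ x τ, rest.eval (ovr (S.map Fin.castSuccEmb) (sn x1 false) (sn x τ)) =
          (Circuit.gate conj a na b nb rest).eval (ovr S x1 x) := by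
        intro x τ
        rw [ovr_sn, eval_gate]
        exact hl _ _ _
      rcases elim rest (S.map Fin.castSuccEmb) (sn x1 false) hup with ⟨β, hβ⟩ | ⟨c'', hc'', hev⟩
      · exact hnc ⟨β, fun x => by rw [← heq x false, hβ]⟩
      · obtain ⟨c', hc', hev'⟩ := sub_wire c'' a false
        have := hk c' (fun x => by rw [hev', hev, heq])
        rw [card_up] at hc''
        omega
    set S0 := S0of rest.eval S with hS0
    have hup : ∀ v ∈ S0.map Fin.castSuccEmb, Dep rest.eval v := by
      intro v hv
      obtain ⟨w, hw, rfl⟩ := Finset.mem_map.1 hv
      exact (mem_S0of.1 hw).2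
    have hindep : ∀ (z x : Fin n → Bool) (τ : Bool),
        rest.eval (sn (ovr S z x) τ) = rest.eval (sn (ovr S0 z x) τ) := by
      intro z x τ
      apply ovr_indep S0of_sub
      intro v hv hv0 hd
      exact hv0 (mem_S0of.2 ⟨hv, hd⟩)
    have hsub : S \ S0 ⊆ S ∩ {a, b} := by
      intro v hv
      rw [Finset.mem_sdiff] at hv
      rw [Finset.mem_inter]
      refine ⟨hv.1, ?_⟩
      by_contra hab
      simp only [Finset.mem_insert, Finset.mem_singleton, not_or] at hab
      exact hv.2 (mem_S0of.2 ⟨hv.1, dep_rest (hS v hv.1) hab.1 hab.2⟩)
    have hcard : S.card ≤ S0.card + (S ∩ {a, b}).card := by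
      have h1 := Finset.card_sdiff_add_card_inter S S0
      have h2 := Finset.card_le_card hsub
      have h3 := Finset.card_le_card (Finset.inter_subset_right : S ∩ S0 ⊆ S0)
      omega
    have h2ab : (S ∩ {a, b}).card ≤ ({a, b} : Finset (Fin n)).card :=
      Finset.card_le_card Finset.inter_subset_right
    have h2ab' : ({a, b} : Finset (Fin n)).card ≤ 2 := Finset.card_le_two
    by_cases hab : a ∈ S ∨ b ∈ S
    · rcases gate_restrict conj a na b nb S x1 hab with ⟨κ, hκ⟩ | ⟨p, v, σ, κ, hp, hv, hpv, h1, h2⟩
      · -- the gate becomes constant
        have hup' : ∀ v ∈ insert (Fin.last n) (S0.map Fin.castSuccEmb), Dep rest.eval v := by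
          intro v hv
          rcases Finset.mem_insert.1 hv with rfl | hv
          · exact hlast
          · exact hup v hv
        have heq : ∀ x τ, rest.eval (ovr (insert (Fin.last n) (S0.map Fin.castSuccEmb))
            (sn x1 κ) (sn x τ)) = (Circuit.gate conj a na b nb rest).eval (ovr S x1 x) := by
          intro x τ
          rw [ovr_sn_last, eval_gate, hκ, hindep]
        -- counting
        have hcount : k + (S0.card + 1) ≤ rest.size := by
          rcases elim rest _ (sn x1 κ) hup' with ⟨β, hβ⟩ | ⟨c'', hc'', hev⟩
          · exact absurd ⟨β, fun x => by rw [← heq x false, hβ]⟩ hnc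
          · obtain ⟨c', hc', hev'⟩ := sub_wire c'' a false
            have := hk c' (fun x => by rw [hev', hev, heq])
            rw [card_up_last] at hc''
            omega
        have hcardS : S.card = S0.card + 2 := by omega
        have hinter : (S ∩ {a, b}).card = 2 := by omega
        have hab2 : ({a, b} : Finset (Fin n)).card = 2 := by omega
        have hne : a ≠ b := by
          rintro rfl
          simp at hab2
        have hinter' : S ∩ {a, b} = {a, b} :=
          Finset.eq_of_subset_of_card_le Finset.inter_subset_right (by omega)
        have haS : a ∈ S := by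
          have : a ∈ S ∩ {a, b} := by rw [hinter']; simp
          exact (Finset.mem_inter.1 this).1
        have hbS : b ∈ S := by
          have : b ∈ S ∩ {a, b} := by rw [hinter']; simp
          exact (Finset.mem_inter.1 this).1
        have hsdiff : (S \ S0).card = 2 := by
          have h3 := Finset.card_sdiff_add_card_inter S S0
          have h4 : S ∩ S0 = S0 := Finset.inter_eq_right.2 S0of_sub
          rw [h4] at h3
          omega
        have hsd : S \ S0 = {a, b} := by
          rw [← hinter']
          exact Finset.eq_of_subset_of_card_le hsub (by omega)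
        have ha0 : a ∉ S0 := by
          have : a ∈ S \ S0 := by rw [hsd]; simp
          exact (Finset.mem_sdiff.1 this).2
        have hb0 : b ∉ S0 := by
          have : b ∈ S \ S0 := by rw [hsd]; simp
          exact (Finset.mem_sdiff.1 this).2
        have hSins : S = insert a (insert b S0) := by
          ext v
          simp only [Finset.mem_insert]
          constructor
          · intro hv
            by_cases hv0 : v ∈ S0
            · exact Or.inr (Or.inr hv0)
            · have : v ∈ S \ S0 := Finset.mem_sdiff.2 ⟨hv, hv0⟩
              rw [hsd] at this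
              simp only [Finset.mem_insert, Finset.mem_singleton] at this
              tauto
          · rintro (rfl | rfl | hv)
            · exact haS
            · exact hbS
            · exact S0of_sub hv
        obtain ⟨Φ', hΦ1, hΦ2, hΦ3⟩ := ih (insert (Fin.last n) (S0.map Fin.castSuccEmb)) (sn x1 κ) k
          hup' (by rw [card_up_last]; omega)
          (by
            rintro ⟨β, hβ⟩
            exact hnc ⟨β, fun x => by rw [← heq x false, hβ]⟩)
          (by
            intro c'' hc''
            obtain ⟨c', hc', hev'⟩ := sub_wire c'' a false
            have := hk c' (fun x => by rw [hev', hc'', heq])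
            omega)
        have hrex : REx (insert (Fin.last n) (S0.map Fin.castSuccEmb)) Φ' := by
          rcases hΦ1 with ⟨h, -⟩ | h
          · exact absurd h (Finset.insert_ne_empty _ _)
          · exact h
        have htg : ∀ z x, tg conj a na b nb (ovr S z x) = tg conj a na b nb z := by
          intro z x
          simp only [tg, ovr_mem haS, ovr_mem hbS]
        have heqz : ∀ z x τ, rest.eval (ovr (insert (Fin.last n) (S0.map Fin.castSuccEmb))
            (sn z (tg conj a na b nb z)) (sn x τ)) =
            (Circuit.gate conj a na b nb rest).eval (ovr S z x) := by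
          intro z x τ
          rw [ovr_sn_last, eval_gate, htg, hindep]
        refine ⟨fun z => Φ' (sn z (tg conj a na b nb z)), Or.inr ?_, ?_, ?_⟩
        · rw [hSins]
          exact rex_gate hrex conj na nb hne ha0 hb0
        · intro z hz x
          rw [← heqz z x false, hΦ2 _ hz, heq]
        · intro z hz
          rcases hΦ3 _ hz with ⟨β, hβ⟩ | ⟨c'', hc'', hev⟩
          · left
            exact ⟨β, fun x => by rw [← heqz z x false, hβ]⟩
          · right
            obtain ⟨c', hc', hev'⟩ := sub_wire c'' a false
            exact ⟨c', by omega, fun x => by rw [hev', hev, heqz]⟩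
      · -- the gate becomes a wire
        have heq : ∀ x, rest.eval (ovr (S0.map Fin.castSuccEmb)
            (sn x1 false) (sn x (xor (x v) σ))) =
            (Circuit.gate conj a na b nb rest).eval (ovr S x1 x) := by
          intro x
          rw [ovr_sn, eval_gate, h1 x1 x rfl, hindep]
        have hcard1 : (S ∩ {a, b}) ⊆ {p} := by
          rw [hpv]
          intro w hw
          rw [Finset.mem_inter, Finset.mem_insert, Finset.mem_singleton] at hw
          rw [Finset.mem_singleton]
          rcases hw.2 with h | h
          · exact h
          · rw [h] at hw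
            exact absurd hw.1 hv
        have hcard2 : (S ∩ {a, b}).card ≤ 1 := (Finset.card_le_card hcard1).trans (by simp)
        have hcount : k + S0.card ≤ rest.size := by
          rcases elim rest _ (sn x1 false) hup with ⟨β, hβ⟩ | ⟨c'', hc'', hev⟩
          · exact absurd ⟨β, fun x => by rw [← heq x, hβ]⟩ hnc
          · obtain ⟨c', hc', hev'⟩ := sub_wire c'' v σ
            have := hk c' (fun x => by rw [hev', hev, heq])
            rw [card_up] at hc''
            omega
        have hcardS : S.card = S0.card + 1 := by omega
        have hsdiff : (S \ S0).card = 1 := by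
          have h3 := Finset.card_sdiff_add_card_inter S S0
          have h4 : S ∩ S0 = S0 := Finset.inter_eq_right.2 S0of_sub
          rw [h4] at h3
          omega
        have hsd : S \ S0 = {p} :=
          Finset.eq_of_subset_of_card_le (hsub.trans hcard1) (by rw [hsdiff]; simp)
        have hp0 : p ∉ S0 := by
          have : p ∈ S \ S0 := by rw [hsd]; simp
          exact (Finset.mem_sdiff.1 this).2
        have hSins : S = S0 ∪ {p} := by
          ext w
          simp only [Finset.mem_union, Finset.mem_singleton]
          constructor
          · intro hw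
            by_cases hw0 : w ∈ S0
            · exact Or.inl hw0
            · have : w ∈ S \ S0 := Finset.mem_sdiff.2 ⟨hw, hw0⟩
              rw [hsd, Finset.mem_singleton] at this
              exact Or.inr this
          · rintro (hw | rfl)
            · exact S0of_sub hw
            · exact hp
        obtain ⟨Φ', hΦ1, hΦ2, hΦ3⟩ := ih (S0.map Fin.castSuccEmb) (sn x1 false) k
          hup (by rw [card_up]; omega)
          (by
            rintro ⟨β, hβ⟩
            exact hnc ⟨β, fun x => by rw [← heq x, hβ]⟩)
          (by
            intro c'' hc''
            obtain ⟨c', hc', hev'⟩ := sub_wire c'' v σ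
            have := hk c' (fun x => by rw [hev', hc'', heq])
            omega)
        have heqz : ∀ z x, rest.eval (ovr (S0.map Fin.castSuccEmb)
            (sn z false) (sn x (tg conj a na b nb (ovr S z x)))) =
            (Circuit.gate conj a na b nb rest).eval (ovr S z x) := by
          intro z x
          rw [ovr_sn, eval_gate, hindep]
        refine ⟨fun z => Φ' (sn z false) && (xor (z p) (!(x1 p))), Or.inr ?_, ?_, ?_⟩
        · rw [hSins]
          rcases hΦ1 with ⟨h, h'⟩ | h
          · have hS00 : S0 = ∅ := by
              rw [Finset.map_eq_empty] at h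
              exact h
            rw [hS00, Finset.empty_union]
            have h3 := REx.lit p (!(x1 p))
            simp only [h', Bool.true_and]
            exact h3
          · exact REx.node true (Finset.disjoint_singleton_right.2 hp0) (rex_down h false)
              (REx.lit p (!(x1 p)))
        · intro z hz x
          rw [Bool.and_eq_true] at hz
          have hzp : z p = x1 p := by
            have h5 := hz.2
            revert h5
            cases z p <;> cases x1 p <;> decide
          rw [← heqz z x, h1 z x hzp, hΦ2 _ hz.1, heq]
        · intro z hz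
          rw [Bool.and_eq_false_iff] at hz
          -- a circuit for the restricted rest
          have hfin : ∀ (c'' : Circuit (n + 1)), (∀ X, c''.eval X =
              rest.eval (ovr (S0.map Fin.castSuccEmb) (sn z false) X)) →
              (c''.size < k ∨ (z p ≠ x1 p ∧ Dep c''.eval (Fin.last n) ∧ c''.size ≤ k)) →
              (∃ b_1, ∀ x, (Circuit.gate conj a na b nb rest).eval (ovr S z x) = b_1) ∨
                ∃ c' : Circuit n, c'.size < k ∧
                  ∀ x, c'.eval x = (Circuit.gate conj a na b nb rest).eval (ovr S z x) := by
            intro c'' hev hsz'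
            by_cases hzp : z p = x1 p
            · right
              obtain ⟨c', hc', hev'⟩ := sub_wire c'' v σ
              refine ⟨c', ?_, fun x => ?_⟩
              · rcases hsz' with h | h
                · omega
                · exact absurd hzp h.1
              · rw [hev', hev, ← heqz z x, h1 z x hzp]
            · rcases sub_const c'' v κ with ⟨β, hβ⟩ | ⟨c', hc', hc'2, hev'⟩
              · left
                refine ⟨β, fun x => ?_⟩
                rw [← heqz z x, h2 z x hzp, ← hev, hβ]
              · right
                refine ⟨c', ?_, fun x => ?_⟩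
                · rcases hsz' with h | h
                  · omega
                  · have := hc'2 h.2.1
                    omega
                · rw [hev', hev, ← heqz z x, h2 z x hzp]
          by_cases hΦz : Φ' (sn z false) = false
          · rcases hΦ3 _ hΦz with ⟨β, hβ⟩ | ⟨c'', hc'', hev⟩
            · left
              exact ⟨β, fun x => by rw [← heqz z x, hβ]⟩
            · exact hfin c'' hev (Or.inl hc'')
          · rw [Bool.not_eq_false] at hΦz
            have hzp : z p ≠ x1 p := by
              rcases hz with h | h
              · rw [hΦz] at h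
                exact Bool.noConfusion h
              · intro h'
                rw [h'] at h
                revert h
                cases x1 p <;> decide
            -- an optimal circuit for the restricted rest
            rcases elim rest _ (sn x1 false) hup with ⟨β, hβ⟩ | ⟨c'', hc'', hev⟩
            · exact absurd ⟨β, fun x => by rw [← heq x, hβ]⟩ hnc
            rw [card_up] at hc''
            refine hfin c'' (fun X => ?_) (Or.inr ⟨hzp, ?_, by omega⟩)
            · rw [hev, hΦ2 _ hΦz]
            · -- it depends on the last wire
              by_contra hnd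
              have hup' : ∀ v ∈ insert (Fin.last n) (S0.map Fin.castSuccEmb),
                  Dep rest.eval v := by
                intro v hv
                rcases Finset.mem_insert.1 hv with rfl | hv
                · exact hlast
                · exact hup v hv
              have heq2 : ∀ x τ, rest.eval (ovr (insert (Fin.last n) (S0.map Fin.castSuccEmb))
                  (sn x1 false) (sn x τ)) =
                  (Circuit.gate conj a na b nb rest).eval (ovr S x1 x) := by
                intro x τ
                rw [ovr_sn_last, ← heq x, ← hev, not_dep_last hnd x _ false, hev, ovr_sn]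
              rcases elim rest _ (sn x1 false) hup' with ⟨β, hβ⟩ | ⟨c₂, hc₂, hev₂⟩
              · exact hnc ⟨β, fun x => by rw [← heq2 x false, hβ]⟩
              · obtain ⟨c', hc', hev'⟩ := sub_wire c₂ a false
                have := hk c' (fun x => by rw [hev', hev₂, heq2])
                rw [card_up_last] at hc₂
                omega
    · -- the gate survives
      push Not at hab
      have hSab : (S ∩ {a, b}).card = 0 := by
        rw [Finset.card_eq_zero, Finset.eq_empty_iff_forall_notMem]
        intro v hv
        rw [Finset.mem_inter, Finset.mem_insert, Finset.mem_singleton] at hv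
        rcases hv.2 with h | h
        · exact hab.1 (h ▸ hv.1)
        · exact hab.2 (h ▸ hv.1)
      have hS00 : S0 = S := Finset.eq_of_subset_of_card_le S0of_sub (by omega)
      rw [hS00] at hup hindep
      have htg : ∀ z x, tg conj a na b nb (ovr S z x) = tg conj a na b nb x := by
        intro z x
        simp only [tg, ovr_not_mem hab.1, ovr_not_mem hab.2]
      have heq : ∀ z x, rest.eval (ovr (S.map Fin.castSuccEmb)
          (sn z false) (sn x (tg conj a na b nb x))) =
          (Circuit.gate conj a na b nb rest).eval (ovr S z x) := by
        intro z x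
        rw [ovr_sn, eval_gate, htg]
      have hlift : ∀ c'' : Circuit (n + 1), (∀ X, c''.eval X =
          rest.eval (ovr (S.map Fin.castSuccEmb) (sn x1 false) X)) → k ≤ c''.size + 1 := by
        intro c'' hc''
        have := hk (Circuit.gate conj a na b nb c'') (fun x => by rw [eval_gate, hc'', heq])
        exact this
      obtain ⟨k', rfl⟩ : ∃ k', k = k' + 1 := by
        rcases Nat.eq_zero_or_pos k with hk0 | hk0
        · exfalso
          rcases elim rest _ (sn x1 false) hup with ⟨β, hβ⟩ | ⟨c'', hc'', hev⟩
          · exact hnc ⟨β, fun x => by rw [← heq x1 x, hβ]⟩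
          · rw [card_up] at hc''
            omega
        · exact ⟨k - 1, by omega⟩
      obtain ⟨Φ', hΦ1, hΦ2, hΦ3⟩ := ih (S.map Fin.castSuccEmb) (sn x1 false) k'
        hup (by rw [card_up]; omega)
        (by
          rintro ⟨β, hβ⟩
          exact hnc ⟨β, fun x => by rw [← heq x1 x, hβ]⟩)
        (by
          intro c'' hc''
          have := hlift c'' hc''
          omega)
      refine ⟨fun z => Φ' (sn z false), ?_, ?_, ?_⟩
      · rcases hΦ1 with ⟨h, h'⟩ | h
        · left
          rw [Finset.map_eq_empty] at h
          exact ⟨h, fun z => h' _⟩
        · right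
          exact rex_down h false
      · intro z hz x
        rw [← heq z x, hΦ2 _ hz, heq]
      · intro z hz
        rcases hΦ3 _ hz with ⟨β, hβ⟩ | ⟨c'', hc'', hev⟩
        · left
          exact ⟨β, fun x => by rw [← heq z x, hβ]⟩
        · right
          refine ⟨Circuit.gate conj a na b nb c'', ?_, fun x => ?_⟩
          · have : (Circuit.gate conj a na b nb c'').size = c''.size + 1 := rfl
            omega
          · rw [eval_gate, hev, heq]

end Pool.Agent.H24
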