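import Pool.Agent.H24.Defs

/-!
Counting the functions computed by small circuits.
-/

namespace Pool.Agent.H24

open Finset

variable {n : ℕ}

open Classical in
/-- the wires available over a list of gates -/
noncomputable def wires (L : List ((Fin n → Bool) → Bool)) : Finset ((Fin n → Bool) → Bool) :=
  univ.filter (fun u => Wire L u)

theorem mem_wires {L : List ((Fin n → Bool) → Bool)} {u : (Fin n → Bool) → Bool} :
    u ∈ wires L ↔ Wire L u := by
  simp [wires]

theorem card_wires_le (L : List ((Fin n → Bool) → Bool)) : (wires L).card ≤ 2 * (n + L.length) := by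
  classical
  let base : Finset ((Fin n → Bool) → Bool) :=
    (univ.image (fun (i : Fin n) => fun x : Fin n → Bool => x i)) ∪ L.toFinset
  have hbase : base.card ≤ n + L.length := by
    refine (Finset.card_union_le _ _).trans ?_
    gcongr
    · refine Finset.card_image_le.trans ?_
      simp
    · exact List.toFinset_card_le _
  have hsub : wires L ⊆ base ∪ base.image (fun v => fun x => !(v x)) := by
    intro u hu
    rw [mem_wires] at hu
    obtain ⟨v, hv, huv⟩ := hu
    have hvb : v ∈ base := by
      rcases hv with ⟨i, rfl⟩ | hv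
      · exact Finset.mem_union_left _ (Finset.mem_image.2 ⟨i, mem_univ _, rfl⟩)
      · exact Finset.mem_union_right _ (List.mem_toFinset.2 hv)
    rcases huv with rfl | rfl
    · exact Finset.mem_union_left _ hvb
    · exact Finset.mem_union_right _ (Finset.mem_image.2 ⟨v, hvb, rfl⟩)
  refine (Finset.card_le_card hsub).trans ((Finset.card_union_le _ _).trans ?_)
  have := Finset.card_image_le (s := base) (f := fun v : (Fin n → Bool) → Bool => fun x => !(v x))
  omega

open Classical in
/-- all gate lists of a given length -/
noncomputable def chains (n : ℕ) : ℕ → Finset (List ((Fin n → Bool) → Bool))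
  | 0 => {[]}
  | j + 1 => (chains n j).biUnion (fun L =>
      ((wires L ×ˢ wires L).image (fun uv => (fun x => uv.1 x && uv.2 x) :: L)) ∪
      ((wires L ×ˢ wires L).image (fun uv => (fun x => uv.1 x || uv.2 x) :: L)))

theorem mem_chains {L : List ((Fin n → Bool) → Bool)} (hL : Gates L) : L ∈ chains n L.length := by
  classical
  induction hL with
  | nil => simp [chains]
  | @and L u v _ hu hv ih =>
    simp only [List.length_cons, chains, Finset.mem_biUnion]
    refine ⟨L, ih, Finset.mem_union_left _ (Finset.mem_image.2 ⟨(u, v), ?_, rfl⟩)⟩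
    exact Finset.mem_product.2 ⟨mem_wires.2 hu, mem_wires.2 hv⟩
  | @or L u v _ hu hv ih =>
    simp only [List.length_cons, chains, Finset.mem_biUnion]
    refine ⟨L, ih, Finset.mem_union_right _ (Finset.mem_image.2 ⟨(u, v), ?_, rfl⟩)⟩
    exact Finset.mem_product.2 ⟨mem_wires.2 hu, mem_wires.2 hv⟩

theorem length_of_mem_chains : ∀ (j : ℕ) {L : List ((Fin n → Bool) → Bool)},
    L ∈ chains n j → L.length = j := by
  classical
  intro j
  induction j with
  | zero =>
    intro L hL
    simp only [chains, Finset.mem_singleton] at hL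
    simp [hL]
  | succ j ih =>
    intro L hL
    simp only [chains, Finset.mem_biUnion, Finset.mem_union, Finset.mem_image] at hL
    obtain ⟨L', hL', h | h⟩ := hL
    · obtain ⟨uv, _, rfl⟩ := h
      simp [ih hL']
    · obtain ⟨uv, _, rfl⟩ := h
      simp [ih hL']

theorem card_chains_le (s : ℕ) : ∀ j, j ≤ s → (chains n j).card ≤ (8 * (n + s) ^ 2) ^ j := by
  classical
  intro j
  induction j with
  | zero =>
    intro _
    simp [chains]
  | succ j ih =>
    intro hj
    have h1 := ih (by omega)
    simp only [chains]
    refine (Finset.card_biUnion_le_card_mul _ _ (8 * (n + s) ^ 2) ?_).trans ?_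
    · intro L hL
      have hlen := length_of_mem_chains j hL
      have hw : (wires L).card ≤ 2 * (n + s) := by
        refine (card_wires_le L).trans ?_
        rw [hlen]
        omega
      refine (Finset.card_union_le _ _).trans ?_
      have h2 : (wires L ×ˢ wires L).card ≤ (2 * (n + s)) * (2 * (n + s)) := by
        rw [Finset.card_product]
        exact Nat.mul_le_mul hw hw
      have h3 := Finset.card_image_le (s := wires L ×ˢ wires L)
        (f := fun uv : ((Fin n → Bool) → Bool) × ((Fin n → Bool) → Bool) =>
          (fun x => uv.1 x && uv.2 x) :: L)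
      have h4 := Finset.card_image_le (s := wires L ×ˢ wires L)
        (f := fun uv : ((Fin n → Bool) → Bool) × ((Fin n → Bool) → Bool) =>
          (fun x => uv.1 x || uv.2 x) :: L)
      have h5 : 8 * (n + s) ^ 2 = (2 * (n + s)) * (2 * (n + s)) + (2 * (n + s)) * (2 * (n + s)) := by
        ring
      rw [h5]
      exact Nat.add_le_add (h3.trans h2) (h4.trans h2)
    · rw [pow_succ]
      exact Nat.mul_le_mul_right _ h1

open Classical in
/-- the functions with circuits of size at most `s` -/
noncomputable def smallFns (n s : ℕ) : Finset ((Fin n → Bool) → Bool) :=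
  univ.filter (fun f => HasCircuit f s)

theorem mem_smallFns {s : ℕ} {f : (Fin n → Bool) → Bool} : f ∈ smallFns n s ↔ HasCircuit f s := by
  simp [smallFns]

theorem card_smallFns_le (s : ℕ) :
    (smallFns n s).card ≤ (s + 1) * ((8 * (n + s) ^ 2) ^ s * (2 * (n + s))) := by
  classical
  have hsub : smallFns n s ⊆ (Finset.range (s + 1)).biUnion
      (fun j => (chains n j).biUnion (fun L => wires L)) := by
    intro f hf
    rw [mem_smallFns] at hf
    obtain ⟨L, hL, hlen, hf⟩ := hf
    rw [Finset.mem_biUnion]
    refine ⟨L.length, Finset.mem_range.2 (by omega), ?_⟩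
    rw [Finset.mem_biUnion]
    exact ⟨L, mem_chains hL, mem_wires.2 hf⟩
  rcases Nat.eq_zero_or_pos (n + s) with h0 | hpos
  · have hn : n = 0 := by omega
    have hs : s = 0 := by omega
    subst hn hs
    refine (Finset.card_le_card hsub).trans ?_
    refine (Finset.card_biUnion_le_card_mul _ _ 0 ?_).trans ?_
    · intro j hj
      simp only [zero_add, Finset.range_one, Finset.mem_singleton] at hj
      subst hj
      simp only [chains, Finset.singleton_biUnion]
      exact (card_wires_le _).trans (by simp)
    · simp
  · refine (Finset.card_le_card hsub).trans ?_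
    refine (Finset.card_biUnion_le_card_mul _ _ ((8 * (n + s) ^ 2) ^ s * (2 * (n + s))) ?_).trans ?_
    · intro j hj
      rw [Finset.mem_range] at hj
      refine (Finset.card_biUnion_le_card_mul _ _ (2 * (n + s)) ?_).trans ?_
      · intro L hL
        refine (card_wires_le L).trans ?_
        rw [length_of_mem_chains j hL]
        omega
      · refine Nat.mul_le_mul_right _ ?_
        refine (card_chains_le s j (by omega)).trans ?_
        exact Nat.pow_le_pow_right (by positivity) (by omega)
    · rw [Finset.card_range]

/-- A clean exponential form. -/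
theorem card_smallFns_le_pow {s : ℕ} (hs : s + 1 ≤ 2 ^ n) :
    (smallFns n s).card ≤ 2 ^ ((2 * n + 5) * (s + 1)) := by
  refine (card_smallFns_le s).trans ?_
  have hn : n < 2 ^ n := Nat.lt_two_pow_self
  have h1 : n + s ≤ 2 ^ (n + 1) := by rw [pow_succ]; omega
  have h2 : s + 1 ≤ 2 ^ (n + 1) := by rw [pow_succ]; omega
  have h3 : 8 * (n + s) ^ 2 ≤ 2 ^ (2 * n + 5) := by
    calc 8 * (n + s) ^ 2 ≤ 8 * (2 ^ (n + 1)) ^ 2 := by gcongr
      _ = 2 ^ (2 * n + 5) := by
          rw [← pow_mul, show (8:ℕ) = 2 ^ 3 by norm_num, ← pow_add]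
          congr 1
          ring
  have h4 : 2 * (n + s) ≤ 2 ^ (n + 2) := by
    calc 2 * (n + s) ≤ 2 * 2 ^ (n + 1) := by gcongr
      _ = 2 ^ (n + 2) := by rw [pow_succ]; ring
  calc (s + 1) * ((8 * (n + s) ^ 2) ^ s * (2 * (n + s)))
      ≤ 2 ^ (n + 1) * ((2 ^ (2 * n + 5)) ^ s * 2 ^ (n + 2)) := by gcongr
    _ = 2 ^ ((n + 1) + ((2 * n + 5) * s + (n + 2))) := by
        rw [← pow_mul, ← pow_add, ← pow_add]
    _ ≤ 2 ^ ((2 * n + 5) * (s + 1)) := by
        apply Nat.pow_le_pow_right (by norm_num)
        ring_nf
        omega

end Pool.Agent.H24
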