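import Pool.Agent.H24.Family

/-!
The `t`-wise independent family has circuits of size `O(t n^2)` when the coordinates are taken
with respect to a power basis.
-/

namespace Pool.Agent.H24

open Finset

set_option linter.unusedSectionVars false

section shift

variable {n' : ℕ} {F : Type} [Field F] [Fintype F] [Algebra (ZMod 2) F]
  (B : Module.Basis (Fin (n' + 1)) (ZMod 2) F) (θ : F) (hB : ∀ i, B i = θ ^ (i : ℕ))

include hB

theorem mul_theta (y : F) : θ * y = ∑ j : Fin n', B.repr y j.castSucc • B j.succ +
    B.repr y (Fin.last n') • θ ^ (n' + 1) := by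
  conv_lhs => rw [← B.sum_repr y]
  rw [Finset.mul_sum, Fin.sum_univ_castSucc]
  congr 1
  · apply Finset.sum_congr rfl
    intro j _
    rw [hB, hB, mul_smul_comm, ← pow_succ']
    simp
  · rw [hB, mul_smul_comm, ← pow_succ']
    simp

theorem repr_theta_zero (y : F) :
    B.repr (θ * y) 0 = B.repr y (Fin.last n') * B.repr (θ ^ (n' + 1)) 0 := by
  rw [mul_theta B θ hB y, map_add, Finsupp.add_apply, map_sum]
  simp only [map_smul, Module.Basis.repr_self, Finsupp.coe_finsetSum, Finset.sum_apply,
    Finsupp.smul_apply, smul_eq_mul]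
  rw [Finset.sum_eq_zero, zero_add]
  intro j _
  rw [Finsupp.single_eq_of_ne, mul_zero]
  exact (Fin.succ_ne_zero j).symm

theorem repr_theta_succ (y : F) (k : Fin n') :
    B.repr (θ * y) k.succ = B.repr y k.castSucc +
      B.repr y (Fin.last n') * B.repr (θ ^ (n' + 1)) k.succ := by
  rw [mul_theta B θ hB y, map_add, Finsupp.add_apply, map_sum]
  simp only [map_smul, Module.Basis.repr_self, Finsupp.coe_finsetSum, Finset.sum_apply,
    Finsupp.smul_apply, smul_eq_mul]
  rw [Finset.sum_eq_single k]
  · rw [Finsupp.single_eq_same, mul_one]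
  · intro j _ hj
    rw [Finsupp.single_eq_of_ne, mul_zero]
    exact fun h => hj (Fin.succ_injective _ h).symm
  · intro h
    exact absurd (mem_univ k) h

/-- multiplication by `θ` -/
theorem gadd_theta {L : List ((Fin (n' + 1) → Bool) → Bool)} (hL : Gates L)
    (h0 : W L (fun _ => 0)) {y : (Fin (n' + 1) → Bool) → F} (hy : WF B L y) :
    Add (3 * (n' + 1)) L (fun L' => WF B L' (fun x => θ * y x)) := by
  classical
  have h1 : Add (3 * (univ : Finset (Fin (n' + 1))).card) L
      (fun L' => ∀ k ∈ (univ : Finset (Fin (n' + 1))), W L' (fun x => B.repr (θ * y x) k)) := by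
    apply gadd_all
    · intro i L L' h hG
      exact hG.mono h
    · exact hL
    · intro k _ L' hL' hsub
      refine Fin.cases ?_ (fun k => ?_) k
      · rcases zmod2_cases (B.repr (θ ^ (n' + 1)) 0) with hc | hc
        · refine (Add.zero hL' (G := fun L' => W L' (fun x => B.repr (θ * y x) 0)) ?_).mono
            (by omega) (fun _ _ h => h)
          simp_rw [repr_theta_zero B θ hB, hc, mul_zero]
          exact h0.mono hsub
        · refine (Add.zero hL' (G := fun L' => W L' (fun x => B.repr (θ * y x) 0)) ?_).mono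
            (by omega) (fun _ _ h => h)
          simp_rw [repr_theta_zero B θ hB, hc, mul_one]
          exact (hy _).mono hsub
      · rcases zmod2_cases (B.repr (θ ^ (n' + 1)) k.succ) with hc | hc
        · refine (Add.zero hL' (G := fun L' => W L' (fun x => B.repr (θ * y x) k.succ)) ?_).mono
            (by omega) (fun _ _ h => h)
          simp_rw [repr_theta_succ B θ hB, hc, mul_zero, add_zero]
          exact (hy _).mono hsub
        · refine (gadd_add hL' ((hy k.castSucc).mono hsub) ((hy (Fin.last n')).mono hsub)).mono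
            le_rfl ?_
          intro L'' _ h
          simp_rw [repr_theta_succ B θ hB, hc, mul_one]
          exact h
  rw [Finset.card_univ, Fintype.card_fin] at h1
  exact h1.mono le_rfl (fun L' _ h k => h k (mem_univ _))

/-- adding the product with one input bit -/
theorem gadd_bit {L : List ((Fin (n' + 1) → Bool) → Bool)} (hL : Gates L)
    (i : Fin (n' + 1)) {y z : (Fin (n' + 1) → Bool) → F} (hy : WF B L y) (hz : WF B L z) :
    Add (4 * (n' + 1)) L (fun L' => WF B L'
      (fun x => z x + (if x i then (1 : ZMod 2) else 0) • y x)) := by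
  classical
  have h1 : Add (4 * (univ : Finset (Fin (n' + 1))).card) L
      (fun L' => ∀ k ∈ (univ : Finset (Fin (n' + 1))), W L'
        (fun x => B.repr (z x + (if x i then (1 : ZMod 2) else 0) • y x) k)) := by
    apply gadd_all
    · intro i L L' h hG
      exact hG.mono h
    · exact hL
    · intro k _ L' hL' hsub
      have h2 : Add (1 + 3) L' (fun L'' => W L''
          (fun x => B.repr (z x) k + (if x i then 1 else 0) * B.repr (y x) k)) :=
        (gadd_mul hL' (w_coord i) ((hy k).mono hsub)).trans
          (fun L'' hL'' hsub' hG => gadd_add hL'' ((hz k).mono (fun v hv => hsub' v (hsub v hv))) hG)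
      refine h2.mono le_rfl ?_
      intro L'' _ h
      simp only [map_add, map_smul, Finsupp.add_apply, Finsupp.smul_apply, smul_eq_mul]
      exact h
  rw [Finset.card_univ, Fintype.card_fin] at h1
  exact h1.mono le_rfl (fun L' _ h k => h k (mem_univ _))

/-- partial products -/
theorem gadd_mulx_aux {L : List ((Fin (n' + 1) → Bool) → Bool)} (hL : Gates L)
    (h0 : W L (fun _ => 0)) {y : (Fin (n' + 1) → Bool) → F} (hy : WF B L y) :
    ∀ m, m ≤ n' + 1 → Add (7 * (n' + 1) * m) L (fun L' => WF B L' (fun x => θ ^ m * y x) ∧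
      WF B L' (fun x => ∑ j ∈ (univ : Finset (Fin (n' + 1))).filter (fun j : Fin (n' + 1) => (j : ℕ) < m),
        (if x j then (1 : ZMod 2) else 0) • (θ ^ (j : ℕ) * y x))) := by
  intro m
  induction m with
  | zero =>
    intro _
    refine Add.zero hL ⟨by simpa using hy, ?_⟩
    intro i
    simpa using h0
  | succ m ih =>
    intro hm
    have hcost : 7 * (n' + 1) * (m + 1) = 7 * (n' + 1) * m + (4 * (n' + 1) + 3 * (n' + 1)) := by
      ring
    rw [hcost]
    refine (ih (by omega)).trans ?_
    rintro L' hL' hsub ⟨hz, hs⟩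
    let i : Fin (n' + 1) := ⟨m, by omega⟩
    refine (gadd_bit B θ hB hL' i hz hs).trans ?_
    intro L'' hL'' hsub' hs'
    refine (gadd_theta B θ hB hL'' (h0.mono (fun v hv => hsub' v (hsub v hv)))
      (hz.mono (B := B) hsub')).mono le_rfl ?_
    intro L₃ hsub₃ hz'
    refine ⟨?_, ?_⟩
    · have : (fun x => θ ^ (m + 1) * y x) = fun x => θ * (θ ^ m * y x) := by
        funext x
        ring
      rw [this]
      exact hz'
    · have hfil : (univ : Finset (Fin (n' + 1))).filter (fun j : Fin (n' + 1) => (j : ℕ) < m + 1) =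
          insert i ((univ : Finset (Fin (n' + 1))).filter (fun j : Fin (n' + 1) => (j : ℕ) < m)) := by
        ext j
        simp only [mem_filter, mem_univ, true_and, mem_insert, i, Fin.ext_iff]
        omega
      have hni : i ∉ (univ : Finset (Fin (n' + 1))).filter (fun j : Fin (n' + 1) => (j : ℕ) < m) := by
        simp [i]
      have : (fun x : Fin (n' + 1) → Bool =>
          ∑ j ∈ (univ : Finset (Fin (n' + 1))).filter (fun j : Fin (n' + 1) => (j : ℕ) < m + 1),
          (if x j then (1 : ZMod 2) else 0) • (θ ^ (j : ℕ) * y x)) = fun x =>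
          ∑ j ∈ (univ : Finset (Fin (n' + 1))).filter (fun j : Fin (n' + 1) => (j : ℕ) < m),
          (if x j then (1 : ZMod 2) else 0) • (θ ^ (j : ℕ) * y x) +
          (if x i then (1 : ZMod 2) else 0) • (θ ^ m * y x) := by
        funext x
        rw [hfil, Finset.sum_insert hni, add_comm]
      rw [this]
      exact hs'.mono (B := B) hsub₃

/-- multiplication by the input costs at most `7 n^2` gates -/
theorem gadd_mulx' {L : List ((Fin (n' + 1) → Bool) → Bool)} (hL : Gates L)
    (h0 : W L (fun _ => 0)) {y : (Fin (n' + 1) → Bool) → F} (hy : WF B L y) :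
    Add (7 * (n' + 1) ^ 2) L (fun L' => WF B L' (fun x => y x * elt B x)) := by
  refine (gadd_mulx_aux B θ hB hL h0 hy (n' + 1) le_rfl).mono (le_of_eq (by ring)) ?_
  rintro L' _ ⟨_, h⟩
  have : (fun x => y x * elt B x) = fun x : Fin (n' + 1) → Bool =>
      ∑ j ∈ (univ : Finset (Fin (n' + 1))).filter (fun j : Fin (n' + 1) => (j : ℕ) < n' + 1),
        (if x j then (1 : ZMod 2) else 0) • (θ ^ (j : ℕ) * y x) := by
    funext x
    have hfil : (univ : Finset (Fin (n' + 1))).filter (fun j : Fin (n' + 1) => (j : ℕ) < n' + 1) = univ := by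
      apply Finset.filter_true_of_mem
      intro j _
      exact j.2
    rw [hfil]
    unfold elt
    rw [Finset.mul_sum]
    apply Finset.sum_congr rfl
    intro j _
    rw [mul_smul_comm, hB, mul_comm (y x)]
  rw [this]
  exact h

/-- evaluation of a polynomial of degree less than `t` costs at most `7 n^2 t` gates -/
theorem gadd_poly' : ∀ (t : ℕ) (a : ℕ → F) {L : List ((Fin (n' + 1) → Bool) → Bool)},
    Gates L → W L (fun _ => 0) →
    Add (7 * (n' + 1) ^ 2 * t) L
      (fun L' => WF B L' (fun x => ∑ j ∈ range t, a j * elt B x ^ j)) := by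
  intro t
  induction t with
  | zero =>
    intro a L hL h0
    refine Add.zero hL ?_
    intro i
    simpa using h0
  | succ t ih =>
    intro a L hL h0
    rw [Nat.mul_add, Nat.mul_one]
    refine (ih (fun j => a (j + 1)) hL h0).trans ?_
    intro L' hL' hsub hG
    refine (gadd_mulx' B θ hB hL' (h0.mono hsub) hG).mono le_rfl ?_
    intro L'' _ h
    have h1 := WF.add_const B h (a 0)
    convert h1 using 2
    rename_i x
    rw [Finset.sum_range_succ', Finset.sum_mul]
    congr 1
    · apply Finset.sum_congr rfl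
      intro j _
      rw [pow_succ, mul_assoc]
    · simp

theorem hasCircuit_fam' (i₀ : Fin (n' + 1)) (t : ℕ) (a : Fin t → F) :
    HasCircuit (fam B i₀ t a) (7 * (n' + 1) ^ 2 * t + 1) := by
  obtain ⟨L, hL, _, hlen, hG⟩ := (gadd_zero (Nat.succ_pos n')).trans
    (d := 7 * (n' + 1) ^ 2 * t)
    (H := fun L' => WF B L' (fun x => ∑ j ∈ range t,
      (fun j : ℕ => if h : j < t then a ⟨j, h⟩ else 0) j * elt B x ^ j))
    (fun L' hL' _ h0 => gadd_poly' B θ hB t _ hL' h0)
  refine ⟨L, hL, ?_, ?_⟩
  · simp only [List.length_nil, zero_add] at hlen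
    omega
  · have h1 := hG i₀
    unfold W at h1
    have h2 : fam B i₀ t a = fun x => decide (B.repr (∑ j ∈ range t,
      (fun j : ℕ => if h : j < t then a ⟨j, h⟩ else 0) j * elt B x ^ j) i₀ = 1) := by
      funext x
      unfold fam
      have h3 : ∑ j : Fin t, a j * elt B x ^ (j : ℕ) = ∑ j ∈ range t,
          (fun j : ℕ => if h : j < t then a ⟨j, h⟩ else 0) j * elt B x ^ j := by
        rw [Finset.sum_range]
        apply Finset.sum_congr rfl
        intro j _
        simp
      rw [h3]
    rw [h2]
    exact h1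

end shift

/-- The family with all its properties, for every arity and every order of independence. -/
theorem exists_family {n : ℕ} (hn : 0 < n) (t : ℕ) :
    ∃ (A : Type) (_ : Fintype A) (_ : Nonempty A) (h : A → (Fin n → Bool) → Bool),
      (∀ a, HasCircuit (h a) (7 * n ^ 2 * t + 1)) ∧
      ∀ T : Finset ((Fin n → Bool) × Bool), T.card ≤ t → Cons T →
        pr (fun a : A => ∀ l ∈ T, h a l.1 = l.2) = (1 / 2) ^ T.card := by
  obtain ⟨n', rfl⟩ : ∃ n', n = n' + 1 := ⟨n - 1, by omega⟩
  let K := GaloisField 2 (n' + 1)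
  have : Fintype K := Fintype.ofFinite K
  have hfin : Module.finrank (ZMod 2) K = n' + 1 := GaloisField.finrank 2 (by omega)
  let pb : PowerBasis (ZMod 2) K := Field.powerBasisOfFiniteOfSeparable (ZMod 2) K
  have hdim : pb.dim = n' + 1 := pb.finrank.symm.trans hfin
  let B : Module.Basis (Fin (n' + 1)) (ZMod 2) K := pb.basis.reindex (finCongr hdim)
  have hB : ∀ i, B i = pb.gen ^ (i : ℕ) := by
    intro i
    simp [B, pb.basis_eq_pow]
  refine ⟨Fin t → K, inferInstance, inferInstance, fun a => fam B 0 t a, ?_, ?_⟩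
  · intro a
    exact hasCircuit_fam' B pb.gen hB 0 t a
  · intro T hT hC
    exact fam_indep B 0 t hC hT

end Pool.Agent.H24
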