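import Pool.Agent.H24.Levels
import Pool.Agent.H24.Count
import Pool.Agent.H24.Family2

/-!
A lower bound for Partial MCSP against circuits with few NOT gates.
-/

namespace Pool.Agent.H24

open Finset

set_option linter.unusedSectionVars false

section dual

variable {X : Type}

/-- the dual of a function of the allowed-value bits, as a function of the constraint bits -/
def dual (u : (X × Bool → Bool) → Bool) : (X × Bool → Bool) → Bool :=
  fun z => !(u (fun l => !(z (l.1, !l.2))))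

theorem source_dual {L : List ((X × Bool → Bool) → Bool)} {u : (X × Bool → Bool) → Bool}
    (h : Source L u) : Source (L.map dual) (dual u) := by
  rcases h with ⟨v, rfl⟩ | ⟨c, rfl⟩ | h
  · left
    exact ⟨(v.1, !v.2), by funext z; simp [dual]⟩
  · right; left
    exact ⟨!c, by funext z; simp [dual]⟩
  · right; right
    exact List.mem_map_of_mem h

theorem circuit_dual {t r : ℕ} {L : List ((X × Bool → Bool) → Bool)}
    (h : NegCircuit t r L) : NegCircuit t r (L.map dual) := by
  induction h with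
  | nil => exact NegCircuit.nil
  | @and t r L u v _ hu hv ih =>
    have := NegCircuit.or ih (source_dual hu) (source_dual hv)
    rw [List.map_cons]
    convert this using 2
    funext z
    simp [dual]
  | @or t r L u v _ hu hv ih =>
    have := NegCircuit.and ih (source_dual hu) (source_dual hv)
    rw [List.map_cons]
    convert this using 2
    funext z
    simp [dual]
  | @not t r L u _ hu ih =>
    rw [List.map_cons]
    exact NegCircuit.not ih (source_dual hu)

end dual

section tab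

variable {X : Type} [DecidableEq X]

/-- the partial table of a set of literals -/
def tab (S : Finset (X × Bool)) : X → Option Bool :=
  fun x => if (x, true) ∈ S then some true else if (x, false) ∈ S then some false else none

theorem tab_eq_some {S : Finset (X × Bool)} (hS : Cons S) (x : X) (b : Bool) :
    tab S x = some b ↔ (x, b) ∈ S := by
  unfold tab
  have := hS x
  cases b
  · by_cases h1 : (x, true) ∈ S <;> by_cases h2 : (x, false) ∈ S <;> simp_all
  · by_cases h1 : (x, true) ∈ S <;> by_cases h2 : (x, false) ∈ S <;> simp_all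

end tab

theorem ev_dual {n : ℕ} {S : Finset ((Fin n → Bool) × Bool)} (hS : Cons S)
    (F : ((Fin n → Bool) × Bool → Bool) → Bool) :
    ev (dual F) S = !(F (enc (tab S))) := by
  unfold ev dual
  congr 2
  funext l
  unfold enc
  congr 1
  exact decide_eq_decide.2 (tab_eq_some hS l.1 (!l.2)).symm

/-- `(1 - 1/x)^(x*e) ≤ 2^-e` -/
theorem one_sub_pow_le {x N e : ℕ} (hx : 0 < x) (hN : x * e ≤ N) :
    (1 - 1 / (x:ℝ)) ^ N ≤ (1 / 2) ^ e := by
  have hxr : (0:ℝ) < x := by exact_mod_cast hx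
  have hx1 : (1:ℝ) ≤ x := by exact_mod_cast hx
  have h0 : 0 ≤ 1 - 1 / (x:ℝ) := by
    rw [sub_nonneg, div_le_one hxr]
    exact hx1
  have h1 : 1 - 1 / (x:ℝ) ≤ 1 := by
    have : 0 ≤ 1 / (x:ℝ) := by positivity
    linarith
  have h2 : (1 - 1 / (x:ℝ)) ^ x ≤ 1 / 2 := by
    have h3 : 1 - 1 / (x:ℝ) ≤ Real.exp (-(1 / (x:ℝ))) := by
      have := Real.add_one_le_exp (-(1 / (x:ℝ)))
      linarith
    calc (1 - 1 / (x:ℝ)) ^ x ≤ (Real.exp (-(1 / (x:ℝ)))) ^ x := by gcongr
      _ = Real.exp (-1) := by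
          rw [← Real.exp_nat_mul]
          congr 1
          field_simp
      _ ≤ 1 / 2 := by
          rw [Real.exp_neg, ← one_div]
          apply one_div_le_one_div_of_le (by norm_num)
          have := Real.add_one_le_exp (1:ℝ)
          linarith
  calc (1 - 1 / (x:ℝ)) ^ N ≤ (1 - 1 / (x:ℝ)) ^ (x * e) := pow_le_pow_of_le_one h0 h1 hN
    _ = ((1 - 1 / (x:ℝ)) ^ x) ^ e := by rw [pow_mul]
    _ ≤ (1 / 2) ^ e := by gcongr

/-- The numerical estimate. -/
theorem numeric {n w r g t : ℕ} (hw : 1 ≤ w) (hg : 1 ≤ g) (ht : t < g ^ w)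
    (hrn : 2 ^ 20 * 2 ^ r * g ≤ 2 ^ n) {R : ℕ} (hR : R ≤ 3 * 2 ^ r) {e0 e1 β : ℝ}
    (he0 : e0 ≤ (1 / 2) ^ (w * (n + 2))) (he00 : 0 ≤ e0)
    (hβ0 : 0 ≤ β) (hβ : β ≤ 1 / (300 * 4 ^ r * g))
    (he1 : e1 = ((w:ℝ) + 1) ^ 2 * 2 ^ w * β ^ (w + 1)) :
    t * (R * (e0 + e1)) + ((r:ℝ) + 1) * (R * (2 * β)) < 1 / 2 := by
  have hRr : (R:ℝ) ≤ 3 * 2 ^ r := by exact_mod_cast hR
  have htr : (t:ℝ) ≤ (g:ℝ) ^ w := by exact_mod_cast ht.le
  have hgr : (1:ℝ) ≤ g := by exact_mod_cast hg
  have hg0 : (0:ℝ) < g := by linarith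
  have h2r : (0:ℝ) < 2 ^ r := by positivity
  have h4 : (4:ℝ) ^ r = 2 ^ r * 2 ^ r := by
    rw [← mul_pow]; norm_num
  have h1r : (1:ℝ) ≤ 2 ^ r := one_le_pow₀ (by norm_num)
  have hβ' : β ≤ 1 / (300 * 4 ^ r) := by
    refine hβ.trans ?_
    apply one_div_le_one_div_of_le (by positivity)
    have : (0:ℝ) < 300 * 4 ^ r := by positivity
    nlinarith
  -- NOT part
  have hr1 : ((r:ℝ) + 1) ≤ 2 ^ r := by
    have : r + 1 ≤ 2 ^ r := Nat.lt_two_pow_self
    exact_mod_cast this
  have hA : ((r:ℝ) + 1) * (R * (2 * β)) ≤ 1 / 50 := by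
    calc ((r:ℝ) + 1) * (R * (2 * β)) ≤ 2 ^ r * ((3 * 2 ^ r) * (2 * (1 / (300 * 4 ^ r)))) := by
          gcongr
      _ = 1 / 50 := by
          rw [h4]
          field_simp
          norm_num
  -- OR part
  have hB : t * (R * e0) ≤ 1 / 50 := by
    have e1' : (1 / 2 : ℝ) ^ (w * (n + 2)) ≤ ((1 / 2) ^ n) ^ w := by
      rw [← pow_mul]
      apply pow_le_pow_of_le_one (by norm_num) (by norm_num)
      nlinarith
    have hx : (g:ℝ) * (1 / 2) ^ n ≤ 1 / (2 ^ 20 * 2 ^ r) := by
      rw [one_div_pow, mul_one_div, div_le_div_iff₀ (by positivity) (by positivity), one_mul]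
      have : (2:ℝ) ^ 20 * 2 ^ r * g ≤ 2 ^ n := by exact_mod_cast hrn
      linarith
    have hx1 : (1:ℝ) / (2 ^ 20 * 2 ^ r) ≤ 1 := by
      rw [div_le_one (by positivity)]
      nlinarith
    have hxw : ((g:ℝ) * (1 / 2) ^ n) ^ w ≤ 1 / (2 ^ 20 * 2 ^ r) := by
      calc ((g:ℝ) * (1 / 2) ^ n) ^ w ≤ (1 / (2 ^ 20 * 2 ^ r)) ^ w := by gcongr
        _ ≤ (1 / (2 ^ 20 * 2 ^ r)) ^ 1 := pow_le_pow_of_le_one (by positivity) hx1 hw
        _ = 1 / (2 ^ 20 * 2 ^ r) := pow_one _
    calc t * (R * e0) ≤ (g:ℝ) ^ w * ((3 * 2 ^ r) * ((1 / 2) ^ n) ^ w) := by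
          gcongr
          exact he0.trans e1'
      _ = (3 * 2 ^ r) * ((g:ℝ) * (1 / 2) ^ n) ^ w := by rw [mul_pow]; ring
      _ ≤ (3 * 2 ^ r) * (1 / (2 ^ 20 * 2 ^ r)) := by gcongr
      _ = 3 / 2 ^ 20 := by field_simp
      _ ≤ 1 / 50 := by norm_num
  -- AND part
  have hC : t * (R * e1) ≤ 1 / 50 := by
    have hw1 : ((w:ℝ) + 1) ≤ 2 ^ w := by
      have : w + 1 ≤ 2 ^ w := Nat.lt_two_pow_self
      exact_mod_cast this
    rw [he1]
    calc t * (R * (((w:ℝ) + 1) ^ 2 * 2 ^ w * β ^ (w + 1)))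
        = t * (R * (((w:ℝ) + 1) ^ 2 * 2 ^ w * (β ^ w * β))) := by rw [pow_succ β w]
      _ ≤ (g:ℝ) ^ w * ((3 * 2 ^ r) * ((2 ^ w) ^ 2 * 2 ^ w *
            ((1 / (300 * 4 ^ r * g)) ^ w * (1 / (300 * 4 ^ r))))) := by
          gcongr
      _ = (8 * (g * (1 / (300 * 4 ^ r * g)))) ^ w * (3 * 2 ^ r * (1 / (300 * 4 ^ r))) := by
          rw [mul_pow 8, mul_pow (g:ℝ)]
          have : (8:ℝ) ^ w = 2 ^ w * 2 ^ w * 2 ^ w := by
            rw [← mul_pow, ← mul_pow]; norm_num
          rw [this]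
          ring
      _ ≤ 1 * (1 / 50) := by
          apply mul_le_mul _ _ (by positivity) (by norm_num)
          · apply pow_le_one₀ (by positivity)
            have h1 : (8:ℝ) * (g * (1 / (300 * 4 ^ r * g))) = 8 / (300 * 4 ^ r) := by
              field_simp
            rw [h1, div_le_one (by positivity)]
            have : (1:ℝ) ≤ 4 ^ r := one_le_pow₀ (by norm_num)
            linarith
          · rw [h4, mul_one_div, div_le_div_iff₀ (by positivity) (by norm_num)]
            nlinarith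
      _ = 1 / 50 := by norm_num
  calc t * (R * (e0 + e1)) + ((r:ℝ) + 1) * (R * (2 * β))
      = t * (R * e0) + t * (R * e1) + ((r:ℝ) + 1) * (R * (2 * β)) := by ring
    _ ≤ 1 / 50 + 1 / 50 + 1 / 50 := by linarith
    _ < 1 / 2 := by norm_num

/-- **Lower bound for Partial MCSP in negation-limited circuits.** There is a constant `C` such
that the following holds for all `n, w, b ≥ 1`, `g ≥ 2` and all `r, s, S` with `C w n³ ≤ s b` and
`C (C w² n 4^r g 2^b)^(3·2^r - 2) n (S + 1) ≤ 2^n`. Consider a circuit that reads a partial truth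
table of arity `n` through the `2^(n+1)` bits `value b is allowed at x` and has at most `r` NOT
gates. If it accepts every partial truth table with a consistent circuit of size at most `s` and
rejects every partial truth table without a consistent circuit of size at most `S`, then it has
at least `g^w` AND/OR gates. -/
theorem few_negations_lin :
    ∃ C : ℕ, ∀ n w r g b s S : ℕ, 1 ≤ n → 1 ≤ w → 2 ≤ g → 1 ≤ b →
      C * w * n ^ 3 ≤ s * b →
      C * (C * w ^ 2 * n * 4 ^ r * g * 2 ^ b) ^ (3 * 2 ^ r - 2) * n * (S + 1) ≤ 2 ^ n →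
      ∀ (t r' : ℕ) (L : List (((Fin n → Bool) × Bool → Bool) → Bool))
        (F : ((Fin n → Bool) × Bool → Bool) → Bool),
        NegCircuit t r' L → Source L F → r' ≤ r →
        (∀ T : (Fin n → Bool) → Option Bool, PartialMCSP T s → F (enc T) = true) →
        (∀ T : (Fin n → Bool) → Option Bool, ¬ PartialMCSP T S → F (enc T) = false) →
        g ^ w ≤ t := by
  refine ⟨2 ^ 27, ?_⟩
  intro n w r g b s S hn hw hg2 hb hs hN t r' L F hL hF hr' hacc hrej
  by_contra hcon
  push Not at hcon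
  -- parameters
  set k := 2 * (w * (n + 2)) with hk
  set e := (k + w) / b + 1 + w with he
  set M := 2 ^ 27 * w ^ 2 * n * 4 ^ r * g * 2 ^ b with hM
  set R := 3 * 2 ^ r - 2 with hR
  have hn3 : n + 2 ≤ 3 * n := by omega
  have h4r : 1 ≤ 4 ^ r := Nat.one_le_pow _ _ (by norm_num)
  have h2r : 1 ≤ 2 ^ r := Nat.one_le_pow _ _ (by norm_num)
  have h2b : 1 ≤ 2 ^ b := Nat.one_le_pow _ _ (by norm_num)
  have hg1 : 1 ≤ g := by omega
  have hMpos : 0 < M := by rw [hM]; positivity
  have hR1 : 1 ≤ R := by omega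
  have hRle : R ≤ 3 * 2 ^ r := by omega
  have hN' : 2 ^ 27 * M ^ R * n * (S + 1) ≤ 2 ^ n := hN
  have hMn : M ≤ 2 ^ n := by
    calc M ≤ M ^ R := Nat.le_self_pow (by omega) M
      _ = 1 * M ^ R * 1 * 1 := by ring
      _ ≤ 2 ^ 27 * M ^ R * n * (S + 1) := by
          gcongr
          · norm_num
          · omega
      _ ≤ 2 ^ n := hN'
  have hbn : b ≤ n := by
    have h1 : 2 ^ b ≤ 2 ^ n := by
      calc 2 ^ b = 1 * 2 ^ b := by ring
        _ ≤ (2 ^ 27 * w ^ 2 * n * 4 ^ r * g) * 2 ^ b := by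
            gcongr
            have : 0 < 2 ^ 27 * w ^ 2 * n * 4 ^ r * g := by positivity
            omega
        _ ≤ 2 ^ n := hMn
    exact (Nat.pow_le_pow_iff_right (by norm_num)).1 h1
  have hwe : w ≤ e := by
    rw [he]
    exact Nat.le_add_left _ _
  have hbe : k + w ≤ b * e := by
    have h1 : k + w < b * ((k + w) / b) + b := by
      have := Nat.lt_mul_div_succ (k + w) hb
      rw [Nat.mul_add, Nat.mul_one] at this
      exact this
    have h2 : b * e = b * ((k + w) / b) + b + b * w := by rw [he]; ring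
    omega
  have heb : e * b ≤ 9 * (w * n) := by
    have h1 : (k + w) / b * b ≤ k + w := Nat.div_mul_le_self _ _
    have h2 : e * b = (k + w) / b * b + b + w * b := by rw [he]; ring
    have h3 : k + w = 2 * (w * n) + 5 * w := by rw [hk]; ring
    have h4 : w * b ≤ w * n := Nat.mul_le_mul_left _ hbn
    have h5 : w ≤ w * n := Nat.le_mul_of_pos_right _ hn
    have h6 : n ≤ w * n := Nat.le_mul_of_pos_left _ hw
    omega
  have he9 : e ≤ 9 * (w * n) := by
    have : e ≤ e * b := Nat.le_mul_of_pos_right _ hb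
    omega
  -- the family
  obtain ⟨A, hAfin, hAne, h, hsz, hfam⟩ := exists_family hn (4 * e)
  have hεk : (w:ℝ) * (1 / 2 ^ b) ^ e ≤ (1 / 2) ^ k := by
    have h1 : ((1:ℝ) / 2 ^ b) ^ e = (1 / 2) ^ (b * e) := by
      rw [pow_mul]
      congr 1
      rw [one_div_pow]
    rw [h1]
    have h2 : (w:ℝ) ≤ 2 ^ w := by exact_mod_cast (Nat.lt_two_pow_self (n := w)).le
    calc (w:ℝ) * (1 / 2) ^ (b * e) ≤ 2 ^ w * (1 / 2) ^ (k + w) :=
          mul_le_mul h2 (pow_le_pow_of_le_one (by norm_num) (by norm_num) hbe) (by positivity)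
            (by positivity)
      _ = (1 / 2) ^ k := by
          rw [pow_add, mul_comm ((1 / 2 : ℝ) ^ k), ← mul_assoc, ← mul_pow]
          norm_num
  have hk2 : 1 ≤ k := by
    rw [hk]
    have : 0 < w * (n + 2) := by positivity
    omega
  have hεhalf : ((1:ℝ) / 2) ^ k ≤ 1 / 2 := by
    calc ((1:ℝ) / 2) ^ k ≤ (1 / 2) ^ 1 := pow_le_pow_of_le_one (by norm_num) (by norm_num) hk2
      _ = 1 / 2 := pow_one _
  have hM1 : 82944 * e * w * 2 ^ b ≤ M := by
    calc 82944 * e * w * 2 ^ b ≤ 82944 * (9 * (w * n)) * w * 2 ^ b := by gcongr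
      _ = 746496 * w ^ 2 * n * 1 * 1 * 2 ^ b := by ring
      _ ≤ 2 ^ 27 * w ^ 2 * n * 4 ^ r * g * 2 ^ b := by
          gcongr
          norm_num
  have hsc := sc_Ps (X := Fin n → Bool) h M R (w := w) (e := e) (b := b) hw hwe hM1 hfam
    hεk hεhalf
  have : Nonempty (Fin (M ^ R) × Bool) := ⟨(⟨0, by positivity⟩, true)⟩
  have : Nonempty (Smp A (Fin n → Bool) M R) := inferInstance
  -- size of the family circuits
  have hsize : ∀ a : A, HasCircuit (h a) s := by
    intro a
    obtain ⟨L₀, h1, h2, h3⟩ := hsz a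
    refine ⟨L₀, h1, h2.trans ?_, h3⟩
    have h4 : (7 * n ^ 2 * (4 * e) + 1) * b ≤ s * b := by
      refine le_trans ?_ hs
      calc (7 * n ^ 2 * (4 * e) + 1) * b = 28 * n ^ 2 * (e * b) + b := by ring
        _ ≤ 28 * n ^ 2 * (9 * (w * n)) + n := by gcongr
        _ = 252 * w * n ^ 3 + 1 * n := by ring
        _ ≤ 252 * w * n ^ 3 + 1 * (w * n ^ 3) := by
            gcongr
            exact (Nat.le_self_pow (by norm_num) n).trans (Nat.le_mul_of_pos_left _ hw)
        _ = 253 * w * n ^ 3 := by ring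
        _ ≤ 2 ^ 27 * w * n ^ 3 := by gcongr; norm_num
    exact Nat.le_of_mul_le_mul_right h4 hb
  -- rejecting side
  have hFP : ∀ i, i < R →
      pr (fun ω : Smp A (Fin n → Bool) M R => ev (dual F) (Ps h M R i ω) = true) ≤ 1 / 2 := by
    intro i _
    have h1 : pr (fun ω : Smp A (Fin n → Bool) M R => ev (dual F) (Ps h M R i ω) = true) ≤
        pr (fun _ : Smp A (Fin n → Bool) M R => False) := by
      apply pr_mono
      intro ω hω
      have hc : Cons (Ps h M R i ω) := (cons_Qs M R i ω).mono (Ps_sub h M R i ω)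
      rw [ev_dual hc] at hω
      have : PartialMCSP (tab (Ps h M R i ω)) s := by
        refine ⟨h ω.1, hsize ω.1, ?_⟩
        intro x b hxb
        rw [tab_eq_some hc] at hxb
        exact (Finset.mem_filter.1 hxb).2
      rw [hacc _ this] at hω
      simp at hω
    rw [pr_false] at h1
    linarith
  -- consequences of the main size condition
  have hS1 : S + 1 ≤ 2 ^ n := by
    refine le_trans ?_ hN'
    have : 0 < 2 ^ 27 * M ^ R * n := by positivity
    nlinarith
  have hrn : 2 ^ 20 * 2 ^ r * g ≤ 2 ^ n := by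
    refine le_trans ?_ hMn
    calc 2 ^ 20 * 2 ^ r * g ≤ 2 ^ 27 * 4 ^ r * g := by
          gcongr <;> norm_num
      _ = 2 ^ 27 * 1 * 1 * 4 ^ r * g * 1 := by ring
      _ ≤ 2 ^ 27 * w ^ 2 * n * 4 ^ r * g * 2 ^ b := by
          gcongr
          exact Nat.one_le_pow _ _ hw
  -- accepting side
  have hFQ : ∀ i, i < R →
      pr (fun ω : Smp A (Fin n → Bool) M R => ev (dual F) (Qs M R (i+1) ω) = false) ≤ 1 / 2 := by
    intro i hi
    set e' := (2 * n + 5) * (S + 1) + 1 with he'
    have h1 : pr (fun ω : Smp A (Fin n → Bool) M R => ev (dual F) (Qs M R (i+1) ω) = false) ≤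
        pr (fun ω : Smp A (Fin n → Bool) M R => ∃ f ∈ smallFns n S,
          ∀ l ∈ Qs M R (i+1) ω, f l.1 = l.2) := by
      apply pr_mono
      intro ω hω
      have hc := cons_Qs M R (i+1) ω
      rw [ev_dual hc] at hω
      have hF1 : F (enc (tab (Qs M R (i+1) ω))) = true := by simpa using hω
      have hP : PartialMCSP (tab (Qs M R (i+1) ω)) S := by
        by_contra hno
        rw [hrej _ hno] at hF1
        exact Bool.noConfusion hF1
      obtain ⟨f, hf, hfT⟩ := hP
      refine ⟨f, mem_smallFns.2 hf, ?_⟩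
      rintro ⟨x, b⟩ hl
      exact hfT x b ((tab_eq_some hc x b).2 hl)
    refine h1.trans ((pr_exists_le _ _).trans ?_)
    have h2 : ∀ f ∈ smallFns n S,
        pr (fun ω : Smp A (Fin n → Bool) M R => ∀ l ∈ Qs M R (i+1) ω, f l.1 = l.2) ≤
          (1 / 2) ^ e' := by
      intro f _
      rw [pr_agree M R hMpos (by omega : i + 1 ≤ R) f]
      have h3 := one_sub_pow_le (x := 2 * M ^ (i+1)) (N := Fintype.card (Fin n → Bool)) (e := e')
        (by positivity) (by
          rw [Fintype.card_fun, Fintype.card_bool, Fintype.card_fin]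
          refine le_trans ?_ hN'
          have h4 : M ^ (i+1) ≤ M ^ R := Nat.pow_le_pow_right hMpos (by omega)
          have h5 : e' ≤ 8 * (n * (S + 1)) := by
            rw [he']
            have h6 : 1 ≤ n * (S + 1) := Nat.mul_pos hn (Nat.succ_pos S)
            nlinarith
          calc 2 * M ^ (i+1) * e' ≤ 2 * M ^ R * (8 * (n * (S + 1))) := by gcongr
            _ = 16 * M ^ R * n * (S + 1) := by ring
            _ ≤ 2 ^ 27 * M ^ R * n * (S + 1) := by gcongr; norm_num)
      push_cast at h3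
      exact h3
    refine (Finset.sum_le_sum h2).trans ?_
    rw [Finset.sum_const, nsmul_eq_mul]
    have h7 : ((smallFns n S).card : ℝ) ≤ 2 ^ ((2 * n + 5) * (S + 1)) := by
      exact_mod_cast card_smallFns_le_pow hS1
    calc ((smallFns n S).card : ℝ) * (1 / 2) ^ e'
        ≤ 2 ^ ((2 * n + 5) * (S + 1)) * (1 / 2) ^ e' := by gcongr
      _ = 1 / 2 := by
          rw [he', pow_succ, ← mul_assoc, ← mul_pow]
          norm_num
  -- apply the abstract bound
  have habs := abstract_lower hsc (circuit_dual hL) (source_dual hF) hr' (by omega) hFP hFQ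
  -- numerical estimates
  have hMr : (0:ℝ) < M := by exact_mod_cast hMpos
  have hnum := numeric (n := n) (w := w) (r := r) (g := g) (t := t) hw hg1 hcon hrn (R := R) hRle
    (e0 := etaOr (GW (Fin n → Bool) w) ((1 / 2) ^ k))
    (e1 := ((w:ℝ) + 1) ^ 2 * 2 ^ w * (41472 * e * w * 2 ^ b / M) ^ (w + 1))
    (β := 41472 * e * w * 2 ^ b / M)
    (by
      unfold etaOr
      have h1 : ((AdmSets (GW (Fin n → Bool) w)).card : ℝ) ≤ 2 ^ (w * (n + 2)) := by
        have h2 := card_AdmSets_le (admPred_GW (X := Fin n → Bool) w)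
        rw [Fintype.card_fun, Fintype.card_bool, Fintype.card_fin] at h2
        have h3 : (2 * 2 ^ n + 1) ^ w ≤ 2 ^ (w * (n + 2)) := by
          rw [mul_comm w, pow_mul]
          apply Nat.pow_le_pow_left
          have : 1 ≤ 2 ^ n := Nat.one_le_two_pow
          rw [pow_add]
          omega
        exact_mod_cast h2.trans h3
      calc ((AdmSets (GW (Fin n → Bool) w)).card : ℝ) * (1 / 2) ^ k
          ≤ 2 ^ (w * (n + 2)) * (1 / 2) ^ k := by gcongr
        _ = (1 / 2) ^ (w * (n + 2)) := by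
            rw [hk, two_mul, pow_add, ← mul_assoc, ← mul_pow]
            norm_num)
    (etaOr_nonneg _ (by positivity)) (by positivity)
    (by
      rw [div_le_div_iff₀ hMr (by positivity), one_mul]
      have h1 : 41472 * e * w * 2 ^ b * (300 * 4 ^ r * g) ≤ M := by
        calc 41472 * e * w * 2 ^ b * (300 * 4 ^ r * g)
            ≤ 41472 * (9 * (w * n)) * w * 2 ^ b * (300 * 4 ^ r * g) := by gcongr
          _ = 111974400 * w ^ 2 * n * 4 ^ r * g * 2 ^ b := by ring
          _ ≤ 2 ^ 27 * w ^ 2 * n * 4 ^ r * g * 2 ^ b := by gcongr; norm_num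
      exact_mod_cast h1)
    rfl
  linarith

end Pool.Agent.H24
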