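import Pool.Agent.H24.FewNeg2

/-!
Adding redundant variables: the lower bound for arity `m` transfers to every arity `n ≥ m`.
-/

namespace Pool.Agent.H24

open Finset

/-- renaming the inputs of a circuit -/
theorem wire_comp {n n' : ℕ} (σ : Fin n → Fin n') {L : List ((Fin n → Bool) → Bool)}
    {u : (Fin n → Bool) → Bool} (h : Wire L u) :
    Wire (L.map (fun v => fun y : Fin n' → Bool => v (y ∘ σ))) (fun y => u (y ∘ σ)) := by
  obtain ⟨v, hv, huv⟩ := h
  refine ⟨fun y => v (y ∘ σ), ?_, ?_⟩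
  · rcases hv with ⟨i, rfl⟩ | hv
    · exact Or.inl ⟨σ i, rfl⟩
    · exact Or.inr (List.mem_map_of_mem (f := fun v => fun y : Fin n' → Bool => v (y ∘ σ)) hv)
  · rcases huv with rfl | rfl
    · exact Or.inl rfl
    · exact Or.inr rfl

theorem gates_comp {n n' : ℕ} (σ : Fin n → Fin n') {L : List ((Fin n → Bool) → Bool)}
    (h : Gates L) : Gates (L.map (fun v => fun y : Fin n' → Bool => v (y ∘ σ))) := by
  induction h with
  | nil => exact Gates.nil
  | and _ hu hv ih => exact Gates.and ih (wire_comp σ hu) (wire_comp σ hv)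
  | or _ hu hv ih => exact Gates.or ih (wire_comp σ hu) (wire_comp σ hv)

theorem hasCircuit_comp {n n' : ℕ} (σ : Fin n → Fin n') {f : (Fin n → Bool) → Bool} {s : ℕ}
    (h : HasCircuit f s) : HasCircuit (fun y : Fin n' → Bool => f (y ∘ σ)) s := by
  obtain ⟨L, hL, hlen, hf⟩ := h
  exact ⟨_, gates_comp σ hL, by simpa using hlen, wire_comp σ hf⟩

/-- substituting sources for the input bits -/
theorem source_subst {V V' : Type} (θ : (V → Bool) → (V' → Bool))
    (hθ : ∀ v', (∃ v, (fun a => θ a v') = fun a => a v) ∨ ∃ c : Bool, (fun a => θ a v') = fun _ => c)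
    {L : List ((V' → Bool) → Bool)} {u : (V' → Bool) → Bool} (h : Source L u) :
    Source (L.map (fun g => fun a => g (θ a))) (fun a => u (θ a)) := by
  rcases h with ⟨v', rfl⟩ | ⟨c, rfl⟩ | h
  · rcases hθ v' with ⟨v, hv⟩ | ⟨c, hc⟩
    · exact Or.inl ⟨v, hv⟩
    · exact Or.inr (Or.inl ⟨c, hc⟩)
  · exact Or.inr (Or.inl ⟨c, rfl⟩)
  · exact Or.inr (Or.inr (List.mem_map_of_mem (f := fun g => fun a => g (θ a)) h))

theorem circuit_subst {V V' : Type} (θ : (V → Bool) → (V' → Bool))
    (hθ : ∀ v', (∃ v, (fun a => θ a v') = fun a => a v) ∨ ∃ c : Bool, (fun a => θ a v') = fun _ => c)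
    {t r : ℕ} {L : List ((V' → Bool) → Bool)} (h : NegCircuit t r L) :
    NegCircuit t r (L.map (fun g => fun a => g (θ a))) := by
  induction h with
  | nil => exact NegCircuit.nil
  | and _ hu hv ih => exact NegCircuit.and ih (source_subst θ hθ hu) (source_subst θ hθ hv)
  | or _ hu hv ih => exact NegCircuit.or ih (source_subst θ hθ hu) (source_subst θ hθ hv)
  | not _ hu ih => exact NegCircuit.not ih (source_subst θ hθ hu)

section pad

variable {m n : ℕ} (σ : Fin n → Fin m) (j : Fin m → Fin n)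

/-- the padded table -/
def padT (T : (Fin m → Bool) → Option Bool) : (Fin n → Bool) → Option Bool :=
  fun x' => if x' = (x' ∘ j) ∘ σ then T (x' ∘ j) else none

theorem padT_iff (hσ : ∀ i, σ (j i) = i) (T : (Fin m → Bool) → Option Bool) (s : ℕ) :
    PartialMCSP (padT σ j T) s ↔ PartialMCSP T s := by
  constructor
  · rintro ⟨f', hf', hT⟩
    refine ⟨fun x => f' (x ∘ σ), hasCircuit_comp σ hf', ?_⟩
    intro x b hxb
    apply hT (x ∘ σ) b
    have h1 : (x ∘ σ) ∘ j = x := by
      funext i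
      simp [hσ]
    unfold padT
    rw [h1]
    simp [hxb]
  · rintro ⟨f, hf, hT⟩
    refine ⟨fun x' => f (x' ∘ j), hasCircuit_comp j hf, ?_⟩
    intro x' b hxb
    unfold padT at hxb
    split_ifs at hxb with h
    exact hT _ b hxb

/-- the substitution on encodings -/
def padA (a : (Fin m → Bool) × Bool → Bool) : (Fin n → Bool) × Bool → Bool :=
  fun l => if l.1 = (l.1 ∘ j) ∘ σ then a (l.1 ∘ j, l.2) else true

theorem padA_source (v' : (Fin n → Bool) × Bool) :
    (∃ v, (fun a => padA σ j a v') = fun a => a v) ∨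
      ∃ c : Bool, (fun a => padA σ j a v') = fun _ => c := by
  unfold padA
  by_cases h : v'.1 = (v'.1 ∘ j) ∘ σ
  · left
    refine ⟨(v'.1 ∘ j, v'.2), ?_⟩
    funext a
    rw [if_pos h]
  · right
    refine ⟨true, ?_⟩
    funext a
    rw [if_neg h]

theorem enc_padT (T : (Fin m → Bool) → Option Bool) : enc (padT σ j T) = padA σ j (enc T) := by
  funext l
  unfold enc padT padA
  by_cases h : l.1 = (l.1 ∘ j) ∘ σ
  · rw [if_pos h, if_pos h]
  · rw [if_neg h, if_neg h]
    simp

end pad

/-- The lower bound with redundant variables. -/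
theorem few_negations_lin_pad :
    ∃ C : ℕ, ∀ n m w r g b s S : ℕ, 1 ≤ m → m ≤ n → 1 ≤ w → 2 ≤ g → 1 ≤ b →
      C * w * m ^ 3 ≤ s * b →
      C * (C * w ^ 2 * m * 4 ^ r * g * 2 ^ b) ^ (3 * 2 ^ r - 2) * m * (S + 1) ≤ 2 ^ m →
      ∀ (t r' : ℕ) (L : List (((Fin n → Bool) × Bool → Bool) → Bool))
        (F : ((Fin n → Bool) × Bool → Bool) → Bool),
        NegCircuit t r' L → Source L F → r' ≤ r →
        (∀ T : (Fin n → Bool) → Option Bool, PartialMCSP T s → F (enc T) = true) →
        (∀ T : (Fin n → Bool) → Option Bool, ¬ PartialMCSP T S → F (enc T) = false) →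
        g ^ w ≤ t := by
  obtain ⟨C, hC⟩ := few_negations_lin
  refine ⟨C, ?_⟩
  intro n m w r g b s S hm hmn hw hg hb hs hN t r' L F hL hF hr hacc hrej
  let σ : Fin n → Fin m := fun i => if h : (i : ℕ) < m then ⟨i, h⟩ else ⟨0, hm⟩
  let j : Fin m → Fin n := Fin.castLE hmn
  have hσ : ∀ i, σ (j i) = i := by
    intro i
    simp [σ, j]
  refine hC m w r g b s S hm hw hg hb hs hN t r' _ _
    (circuit_subst (padA σ j) (padA_source σ j) hL) (source_subst (padA σ j) (padA_source σ j) hF)
    hr ?_ ?_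
  · intro T hT
    have := hacc (padT σ j T) ((padT_iff σ j hσ T s).2 hT)
    rwa [enc_padT] at this
  · intro T hT
    have := hrej (padT σ j T) (fun h => hT ((padT_iff σ j hσ T S).1 h))
    rwa [enc_padT] at this

end Pool.Agent.H24
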