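import Pool.Agent.H24.Split
import Pool.Agent.H24.Count
import Pool.Agent.H24.FewNeg2
import Pool.Agent.H24.Pad2

/-!
Partial truth tables on a domain split into `2 ^ a` parts, and the circuits of functions that are
given by one small circuit on every part.
-/

namespace Pool.Agent.H24

open Finset

set_option linter.unusedSectionVars false

/-! ### Circuits given by parts -/

section parts

variable {n : ℕ}

theorem gates_append {m : ℕ} (σ : Fin m → Fin n) {L : List ((Fin n → Bool) → Bool)}
    (hL : Gates L) {L₀ : List ((Fin m → Bool) → Bool)} (h₀ : Gates L₀) :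
    Gates (L₀.map (fun (g : (Fin m → Bool) → Bool) (x : Fin n → Bool) => g (x ∘ σ)) ++ L) := by
  induction h₀ with
  | nil => exact hL
  | and _ hu hv ih =>
    refine Gates.and ih ((wire_comp σ hu).mono ?_) ((wire_comp σ hv).mono ?_) <;>
      exact fun v hv => List.mem_append_left _ hv
  | or _ hu hv ih =>
    refine Gates.or ih ((wire_comp σ hu).mono ?_) ((wire_comp σ hv).mono ?_) <;>
      exact fun v hv => List.mem_append_left _ hv

theorem add_comp {m : ℕ} (σ : Fin m → Fin n) {L : List ((Fin n → Bool) → Bool)}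
    (hL : Gates L) {f : (Fin m → Bool) → Bool} {s : ℕ} (hf : HasCircuit f s) :
    Add s L (fun L' => Wire L' (fun x => f (x ∘ σ))) := by
  obtain ⟨L₀, h₀, hlen, hw⟩ := hf
  refine ⟨_, gates_append σ hL h₀, fun v hv => List.mem_append_right _ hv, ?_, ?_⟩
  · rw [List.length_append, List.length_map]
    omega
  · exact (wire_comp σ hw).mono (fun v hv => List.mem_append_left _ hv)

theorem add_and {L : List ((Fin n → Bool) → Bool)} (hL : Gates L)
    {u v : (Fin n → Bool) → Bool} (hu : Wire L u) (hv : Wire L v) :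
    Add 1 L (fun L' => Wire L' (fun x => u x && v x)) :=
  ⟨_, Gates.and hL hu hv, fun v hv => by simp [hv], by simp, wire_head _⟩

theorem add_or {L : List ((Fin n → Bool) → Bool)} (hL : Gates L)
    {u v : (Fin n → Bool) → Bool} (hu : Wire L u) (hv : Wire L v) :
    Add 1 L (fun L' => Wire L' (fun x => u x || v x)) :=
  ⟨_, Gates.or hL hu hv, fun v hv => by simp [hv], by simp, wire_head _⟩

/-- the indicator of a subcube -/
theorem add_cube {a : ℕ} (σ : Fin a → Fin n) (z : Fin a → Bool) (S : Finset (Fin a)) :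
    ∀ {L : List ((Fin n → Bool) → Bool)}, Gates L → Wire L (fun _ => true) →
      Add S.card L (fun L' => Wire L' (fun x => decide (∀ i ∈ S, x (σ i) = z i))) := by
  induction S using Finset.induction_on with
  | empty =>
    intro L hL h1
    exact Add.zero hL (by simpa using h1)
  | insert j S hj ih =>
    intro L hL h1
    rw [Finset.card_insert_of_notMem hj]
    refine (ih hL h1).trans ?_
    intro L' hL' _ hG
    have hlit : Wire L' (fun x => decide (x (σ j) = z j)) := by
      refine ⟨fun x => x (σ j), Or.inl ⟨σ j, rfl⟩, ?_⟩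
      cases hz : z j
      · right
        funext x
        change decide (x (σ j) = false) = !(x (σ j))
        cases x (σ j) <;> rfl
      · left
        funext x
        cases x (σ j) <;> rfl
    refine (add_and hL' hlit hG).mono le_rfl ?_
    intro L'' _ h
    convert h using 2
    rename_i x
    rw [Bool.eq_iff_iff]
    simp

/-- A function given by one circuit on every part. -/
theorem add_parts {a m : ℕ} (σ : Fin a → Fin n) (τ : Fin m → Fin n)
    (φ : (Fin a → Bool) → (Fin m → Bool) → Bool) {s : ℕ} (hφ : ∀ z, HasCircuit (φ z) s)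
    (S : Finset (Fin a → Bool)) :
    ∀ {L : List ((Fin n → Bool) → Bool)}, Gates L → Wire L (fun _ => false) →
      Add (S.card * (s + a + 2)) L
        (fun L' => Wire L' (fun x => decide (x ∘ σ ∈ S) && φ (x ∘ σ) (x ∘ τ))) := by
  classical
  induction S using Finset.induction_on with
  | empty =>
    intro L hL h0
    rw [Finset.card_empty, zero_mul]
    exact Add.zero hL (by simpa using h0)
  | insert z S hz ih =>
    intro L hL h0
    have hc : (insert z S).card * (s + a + 2) = S.card * (s + a + 2) + (s + (a + (1 + 1))) := by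
      rw [Finset.card_insert_of_notMem hz]
      ring
    rw [hc]
    refine (ih hL h0).trans ?_
    intro L₁ hL₁ hs₁ hG
    refine (add_comp τ hL₁ (hφ z)).trans ?_
    intro L₂ hL₂ hs₂ hf
    have ht : Wire L₂ (fun _ => true) := by
      have := (h0.mono (fun v hv => hs₂ v (hs₁ v hv))).not
      simpa using this
    have hcube := add_cube σ z univ hL₂ ht
    rw [Finset.card_univ, Fintype.card_fin] at hcube
    refine hcube.trans ?_
    intro L₃ hL₃ hs₃ hcu
    refine (add_and hL₃ hcu (hf.mono hs₃)).trans ?_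
    intro L₄ hL₄ hs₄ hand
    refine (add_or hL₄ hand (hG.mono (fun v hv => hs₄ v (hs₃ v (hs₂ v hv))))).mono le_rfl ?_
    intro L₅ _ h
    convert h using 2
    rename_i x
    rw [Bool.eq_iff_iff]
    simp only [Finset.mem_insert, Bool.and_eq_true, decide_eq_true_eq, Bool.or_eq_true,
      Finset.mem_univ, true_implies]
    constructor
    · rintro ⟨h1 | h1, h2⟩
      · left
        refine ⟨fun i => congrFun h1 i, ?_⟩
        rw [h1] at h2
        exact h2
      · exact Or.inr ⟨h1, h2⟩
    · rintro (⟨h1, h2⟩ | ⟨h1, h2⟩)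
      · have h3 : x ∘ σ = z := funext h1
        refine ⟨Or.inl h3, ?_⟩
        rw [h3]
        exact h2
      · exact ⟨Or.inr h1, h2⟩

theorem hasCircuit_parts {a m : ℕ} (hn : 0 < n) (σ : Fin a → Fin n) (τ : Fin m → Fin n)
    (φ : (Fin a → Bool) → (Fin m → Bool) → Bool) {s : ℕ} (hφ : ∀ z, HasCircuit (φ z) s) :
    HasCircuit (fun x => φ (x ∘ σ) (x ∘ τ)) (2 ^ a * (s + a + 2) + 1) := by
  classical
  have h0 : Add 1 ([] : List ((Fin n → Bool) → Bool)) (fun L' => Wire L' (fun _ => false)) := by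
    refine (gadd_zero hn).mono le_rfl ?_
    intro L' _ h
    unfold W at h
    have h2 : (fun _ : Fin n → Bool => false) = fun x => decide ((0 : ZMod 2) = 1) := by
      funext x
      decide
    rw [h2]
    exact h
  obtain ⟨L, hL, _, hlen, hG⟩ := h0.trans
    (d := 2 ^ a * (s + a + 2))
    (H := fun L' => Wire L' (fun x => φ (x ∘ σ) (x ∘ τ)))
    (fun L' hL' _ hz => by
      have := add_parts σ τ φ hφ univ hL' hz
      rw [Finset.card_univ, Fintype.card_fun, Fintype.card_bool, Fintype.card_fin] at this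
      refine this.mono le_rfl ?_
      intro L'' _ h
      simpa using h)
  refine ⟨L, hL, ?_, hG⟩
  simp only [List.length_nil, zero_add] at hlen
  omega

end parts

/-! ### The tables along the chain -/

section tables

variable {a m : ℕ}

/-- the number of a part -/
noncomputable def kap (a : ℕ) : (Fin a → Bool) ≃ Fin (2 ^ a) :=
  Fintype.equivFinOfCardEq (by simp)

/-- the constraint bits of a table of arity `a + m` in terms of the constraint bits of the parts -/
noncomputable def thS (z : (Fin (2 ^ a) × (Fin m → Bool)) × Bool → Bool) :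
    (Fin (a + m) → Bool) × Bool → Bool :=
  fun l => z ((kap a (l.1 ∘ Fin.castAdd m), l.1 ∘ Fin.natAdd a), l.2)

theorem thS_source (l : (Fin (a + m) → Bool) × Bool) :
    (∃ v, (fun z : (Fin (2 ^ a) × (Fin m → Bool)) × Bool → Bool => thS z l) = fun z => z v) ∨
      ∃ c : Bool, (fun z : (Fin (2 ^ a) × (Fin m → Bool)) × Bool → Bool => thS z l) =
        fun _ => c := Or.inl ⟨_, rfl⟩

variable {A : Type} [Fintype A] (h : A → (Fin m → Bool) → Bool) (M : ℕ)

/-- the table of `ZZ` -/
noncomputable def TZ (ω : OmS A (Fin m → Bool) M (2 ^ a)) (i : ℕ) :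
    (Fin (a + m) → Bool) → Option Bool :=
  fun x => if (kap a (x ∘ Fin.castAdd m) : ℕ) < i then
    some (h (ω (kap a (x ∘ Fin.castAdd m))).1 (x ∘ Fin.natAdd a)) else none

/-- the table of `YY` -/
noncomputable def TY (ω : OmS A (Fin m → Bool) M (2 ^ a)) (i : ℕ) :
    (Fin (a + m) → Bool) → Option Bool :=
  fun x => if (kap a (x ∘ Fin.castAdd m) : ℕ) < i then
    some (h (ω (kap a (x ∘ Fin.castAdd m))).1 (x ∘ Fin.natAdd a))
    else if (kap a (x ∘ Fin.castAdd m) : ℕ) = i then
      tab (Qs M 1 1 (ω (kap a (x ∘ Fin.castAdd m)))) (x ∘ Fin.natAdd a) else none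

theorem dual_ZZ (F : ((Fin (a + m) → Bool) × Bool → Bool) → Bool)
    (ω : OmS A (Fin m → Bool) M (2 ^ a)) (i : ℕ) :
    dual F (thS (ZZ h M ω i)) = !(F (enc (TZ h M ω i))) := by
  unfold dual
  congr 2
  funext l
  unfold enc
  congr 1
  simp only [thS, ZZ, TZ]
  by_cases h1 : (kap a (l.1 ∘ Fin.castAdd m) : ℕ) < i
  · simp [h1]
  · simp [h1]

theorem dual_YY (F : ((Fin (a + m) → Bool) × Bool → Bool) → Bool)
    (ω : OmS A (Fin m → Bool) M (2 ^ a)) (i : ℕ) :
    dual F (thS (YY h M ω i)) = !(F (enc (TY h M ω i))) := by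
  unfold dual
  congr 2
  funext l
  unfold enc
  congr 1
  rw [Bool.eq_iff_iff]
  simp only [thS, YY, ZZ, Bool.or_eq_true, decide_eq_true_eq]
  unfold TY
  by_cases h1 : (kap a (l.1 ∘ Fin.castAdd m) : ℕ) < i
  · have h2 : (kap a (l.1 ∘ Fin.castAdd m) : ℕ) ≠ i := by omega
    rw [if_pos h1, Option.some.injEq]
    constructor
    · rintro (⟨_, h⟩ | ⟨h, _⟩)
      · exact h
      · exact absurd h h2
    · exact fun h => Or.inl ⟨h1, h⟩
  · by_cases h2 : (kap a (l.1 ∘ Fin.castAdd m) : ℕ) = i
    · rw [if_neg h1, if_pos h2, tab_eq_some (cons_Qs M 1 1 _)]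
      constructor
      · rintro (⟨h, _⟩ | ⟨_, h⟩)
        · exact absurd h h1
        · exact h
      · exact fun h => Or.inr ⟨h2, h⟩
    · rw [if_neg h1, if_neg h2]
      constructor
      · rintro (⟨h, _⟩ | ⟨h, _⟩)
        · exact absurd h h1
        · exact absurd h h2
      · exact fun h => absurd h (by simp)

theorem mcsp_TZ (hn : 0 < a + m) {s s' : ℕ} (hsz : ∀ α, HasCircuit (h α) s')
    (hs : 2 ^ a * (s' + a + 2) + 1 ≤ s) (ω : OmS A (Fin m → Bool) M (2 ^ a)) (i : ℕ) :
    PartialMCSP (TZ h M ω i) s := by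
  obtain ⟨L, h1, h2, h3⟩ := hasCircuit_parts hn (Fin.castAdd m) (Fin.natAdd a)
    (fun z => h (ω (kap a z)).1) (fun z => hsz _)
  refine ⟨_, ⟨L, h1, h2.trans hs, h3⟩, ?_⟩
  intro x b hxb
  unfold TZ at hxb
  split_ifs at hxb
  simpa using hxb

theorem mcsp_TY {S : ℕ} (ω : OmS A (Fin m → Bool) M (2 ^ a)) (i : Fin (2 ^ a))
    (hT : PartialMCSP (TY h M ω i) S) :
    ∃ f ∈ smallFns (a + m) S, ∀ l ∈ Qs M 1 1 (ω i),
      f (Fin.append ((kap a).symm i) l.1) = l.2 := by
  obtain ⟨f, hf, hfT⟩ := hT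
  refine ⟨f, mem_smallFns.2 hf, ?_⟩
  rintro ⟨x, b⟩ hl
  apply hfT
  have h1 : (Fin.append ((kap a).symm i) x) ∘ Fin.castAdd m = (kap a).symm i := by
    funext j
    simp
  have h2 : (Fin.append ((kap a).symm i) x) ∘ Fin.natAdd a = x := by
    funext j
    simp
  unfold TY
  rw [h1, h2]
  simp only [Equiv.apply_symm_apply, lt_irrefl, if_false, if_true]
  exact (tab_eq_some (cons_Qs M 1 1 _) _ _).2 hl

/-- with high probability the sparse random constraints on one part have no small circuit -/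
theorem pr_TY_le [Nonempty A] (hM : 0 < M) {S e' : ℕ} (hS1 : S + 1 ≤ 2 ^ (a + m))
    (he' : (2 * (a + m) + 5) * (S + 1) + 3 ≤ e') (hM2 : 2 * M * e' ≤ 2 ^ m)
    (i : Fin (2 ^ a)) :
    pr (fun ω : OmS A (Fin m → Bool) M (2 ^ a) => PartialMCSP (TY h M ω i) S) ≤ 1 / 8 := by
  classical
  have : Nonempty (Fin (M ^ 1) × Bool) := ⟨(⟨0, by positivity⟩, true)⟩
  have h1 : pr (fun ω : OmS A (Fin m → Bool) M (2 ^ a) => PartialMCSP (TY h M ω i) S) ≤
      pr (fun ω : OmS A (Fin m → Bool) M (2 ^ a) => ∃ f ∈ smallFns (a + m) S,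
        ∀ l ∈ Qs M 1 1 (ω i), f (Fin.append ((kap a).symm i) l.1) = l.2) :=
    pr_mono (fun ω hω => mcsp_TY h M ω i hω)
  refine h1.trans ?_
  refine pr_coord_le i (fun p => ∃ f ∈ smallFns (a + m) S,
        ∀ l ∈ Qs M 1 1 p.1, f (Fin.append ((kap a).symm i) l.1) = l.2) (by norm_num) ?_
  intro _
  refine (pr_exists_le _ _).trans ?_
  have h2 : ∀ f ∈ smallFns (a + m) S,
      pr (fun y : Smp A (Fin m → Bool) M 1 =>
        ∀ l ∈ Qs M 1 1 y, f (Fin.append ((kap a).symm i) l.1) = l.2) ≤ (1 / 2) ^ e' := by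
    intro f _
    have h3 := pr_agree (A := A) M 1 hM (le_refl 1)
      (fun x : Fin m → Bool => f (Fin.append ((kap a).symm i) x))
    refine (le_of_eq h3).trans ?_
    have h4 := one_sub_pow_le (x := 2 * M) (N := Fintype.card (Fin m → Bool)) (e := e')
      (by positivity) (by
        rw [Fintype.card_fun, Fintype.card_bool, Fintype.card_fin]
        exact hM2)
    push_cast at h4
    rw [pow_one]
    exact h4
  refine (Finset.sum_le_sum h2).trans ?_
  rw [Finset.sum_const, nsmul_eq_mul]
  have h5 : ((smallFns (a + m) S).card : ℝ) ≤ 2 ^ ((2 * (a + m) + 5) * (S + 1)) := by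
    exact_mod_cast card_smallFns_le_pow hS1
  calc ((smallFns (a + m) S).card : ℝ) * (1 / 2) ^ e'
      ≤ 2 ^ ((2 * (a + m) + 5) * (S + 1)) * (1 / 2) ^ ((2 * (a + m) + 5) * (S + 1) + 3) := by
        gcongr ?_ * ?_
        exact pow_le_pow_of_le_one (by norm_num) (by norm_num) he'
    _ = 1 / 8 := by
        rw [pow_add, ← mul_assoc, ← mul_pow]
        norm_num

end tables

end Pool.Agent.H24
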