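import Pool.Agent.H24.Base
import Pool.Agent.H24.SplitTab

/-!
A partial truth table `T` on `nx` variables, combined by AND with a function `h` of exact
complexity `k` on further variables, is consistent with a circuit with `k + nx` gates iff `T` is
consistent with a circuit with `nx - 1` gates.
-/

namespace Pool.Agent.H24

open Pool.Agent.H87.PMCSP (Circuit gop Dep REx RO)

set_option linter.unusedSectionVars false

/-- `h` has exact complexity `k` -/
def Cx {n : ℕ} (h : (Fin n → Bool) → Bool) (k : ℕ) : Prop :=
  (∃ c : Circuit n, c.size = k ∧ ∀ x, c.eval x = h x) ∧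
    ∀ c : Circuit n, (∀ x, c.eval x = h x) → k ≤ c.size

/-- read-once functions have small circuits -/
theorem add_RO {n : ℕ} {r : Fin n → Bool} {S : Finset (Fin n)} {f : (Fin n → Bool) → Bool}
    (h : RO r S f) : ∀ {L : List ((Fin n → Bool) → Bool)}, Gates L →
      Add (S.card - 1) L (fun L' => Wire L' f) := by
  induction h with
  | lit v =>
    intro L hL
    refine Add.zero hL ?_
    exact wire_xor (Or.inl ⟨v, rfl⟩) (r v)
  | node c S T f g hd hf hg ihf ihg =>
    intro L hL
    have h1 : 1 ≤ S.card := hf.nonempty.card_pos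
    have h2 : 1 ≤ T.card := hg.nonempty.card_pos
    have h3 : (S ∪ T).card - 1 = (S.card - 1) + ((T.card - 1) + 1) := by
      rw [Finset.card_union_of_disjoint hd]
      omega
    rw [h3]
    refine (ihf hL).trans ?_
    intro L₁ hL₁ _ hf'
    refine (ihg hL₁).trans ?_
    intro L₂ hL₂ hs₂ hg'
    cases c
    · exact add_or hL₂ (hf'.mono hs₂) hg'
    · exact add_and hL₂ (hf'.mono hs₂) hg'

theorem hasCircuit_of_REx {n : ℕ} {S : Finset (Fin n)} {f : (Fin n → Bool) → Bool}
    (h : REx S f) : HasCircuit f (S.card - 1) := by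
  obtain ⟨r, hr⟩ := h
  obtain ⟨L, hL, _, hlen, hw⟩ := add_RO hr Gates.nil
  exact ⟨L, hL, by simpa using hlen, hw⟩

section base

variable {nx ny : ℕ}

/-- the table `T` on the first variables, combined by AND with `h` on the others -/
def baseT (h : (Fin ny → Bool) → Bool) (T : (Fin nx → Bool) → Option Bool) :
    (Fin (nx + ny) → Bool) → Option Bool :=
  fun w => if h (w ∘ Fin.natAdd nx) = true then T (w ∘ Fin.castAdd ny) else some false

/-- the wires of the first variables -/
def Sx (nx ny : ℕ) : Finset (Fin (nx + ny)) :=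
  Finset.univ.map ⟨Fin.castAdd ny, Fin.castAdd_injective nx ny⟩

theorem card_Sx : (Sx nx ny).card = nx := by
  simp [Sx]

theorem castAdd_mem_Sx (i : Fin nx) : Fin.castAdd ny i ∈ Sx nx ny :=
  Finset.mem_map.2 ⟨i, Finset.mem_univ _, rfl⟩

theorem natAdd_not_mem_Sx (j : Fin ny) : Fin.natAdd nx j ∉ Sx nx ny := by
  intro h
  obtain ⟨i, -, hi⟩ := Finset.mem_map.1 h
  have h1 : (Fin.castAdd ny i : Fin (nx + ny)) = Fin.natAdd nx j := hi
  have h2 := congrArg Fin.val h1
  simp at h2
  omega

theorem ovr_Sx (x : Fin nx → Bool) (y : Fin ny → Bool) (w : Fin (nx + ny) → Bool) :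
    ovr (Sx nx ny) (Fin.append x y) w = Fin.append x (w ∘ Fin.natAdd nx) := by
  funext i
  refine Fin.addCases (fun i => ?_) (fun j => ?_) i
  · rw [ovr_mem (castAdd_mem_Sx i), Fin.append_left, Fin.append_left]
  · rw [ovr_not_mem (natAdd_not_mem_Sx j), Fin.append_right]
    rfl

theorem baseT_append {h : (Fin ny → Bool) → Bool} {T : (Fin nx → Bool) → Option Bool}
    {x : Fin nx → Bool} {v : Bool} (hx : T x = some v) (y : Fin ny → Bool) :
    baseT h T (Fin.append x y) = some (v && h y) := by
  have h1 : (Fin.append x y) ∘ Fin.castAdd ny = x := by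
    funext j
    simp
  have h2 : (Fin.append x y) ∘ Fin.natAdd nx = y := by
    funext j
    simp
  unfold baseT
  rw [h1, h2, hx]
  cases h y <;> simp

/-- **The base-function reduction.** -/
theorem base_iff {h : (Fin ny → Bool) → Bool} {k : ℕ} (hC : Cx h k)
    (hnc : ¬ ∃ b, ∀ y, h y = b) {T : (Fin nx → Bool) → Option Bool} (hnx : 0 < nx)
    (hT : ∀ i : Fin nx, ∃ x : Fin nx → Bool, x i = false ∧ T x = some false ∧
      T (Function.update x i true) = some true) :
    PartialMCSP (baseT h T) (k + nx) ↔ PartialMCSP T (nx - 1) := by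
  constructor
  · intro hP
    rw [partialMCSP_iff] at hP
    obtain ⟨c, hsize, hc⟩ := hP
    have hval : ∀ (x : Fin nx → Bool) (v : Bool), T x = some v → ∀ y,
        c.eval (Fin.append x y) = (v && h y) :=
      fun x v hx y => hc _ _ (baseT_append hx y)
    obtain ⟨y1, hy1⟩ : ∃ y, h y = true := by
      by_contra hcon
      push Not at hcon
      exact hnc ⟨false, fun y => by simpa using hcon y⟩
    obtain ⟨x0, -, -, hx1⟩ := hT ⟨0, hnx⟩
    set x1 := Function.update x0 ⟨0, hnx⟩ true with hx1def
    have hres : ∀ w, c.eval (ovr (Sx nx ny) (Fin.append x1 y1) w) = h (w ∘ Fin.natAdd nx) := by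
      intro w
      rw [ovr_Sx, hval x1 true hx1, Bool.true_and]
    have happ : ∀ y : Fin ny → Bool, (Fin.append x1 y) ∘ Fin.natAdd nx = y := by
      intro y
      funext j
      simp
    -- circuits for `h` on all wires
    have hny : 0 < ny := by
      rcases Nat.eq_zero_or_pos ny with h0 | h0
      · exfalso
        subst h0
        exact hnc ⟨h Fin.elim0, fun y => congrArg h (Subsingleton.elim _ _)⟩
      · exact h0
    have hproj : ∀ c' : Circuit (nx + ny), (∀ w, c'.eval w = h (w ∘ Fin.natAdd nx)) →
        k ≤ c'.size := by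
      intro c' hc'
      obtain ⟨c'', hc'', hev⟩ := exists_ren c'
        (Fin.addCases (motive := fun _ => Fin ny) (fun _ => ⟨0, hny⟩) (fun j => j))
        (fun _ => false)
      rw [← hc'']
      apply hC.2
      intro y
      rw [hev, hc']
      congr 1
      funext j
      simp
    have hdep : ∀ v ∈ Sx nx ny, Dep c.eval v := by
      intro v hv
      obtain ⟨i, -, rfl⟩ := Finset.mem_map.1 hv
      obtain ⟨x, h1, h2, h3⟩ := hT i
      refine ⟨Fin.append x y1, ?_⟩
      have h4 : Function.update (Fin.append x y1) (Fin.castAdd ny i)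
          (!(Fin.append x y1 (Fin.castAdd ny i))) =
          Fin.append (Function.update x i true) y1 := by
        funext j
        refine Fin.addCases (fun j => ?_) (fun j => ?_) j
        · by_cases hj : j = i
          · subst hj
            rw [Function.update_self, Fin.append_left, Fin.append_left, Function.update_self, h1]
            rfl
          · rw [Function.update_of_ne (by simpa using hj), Fin.append_left, Fin.append_left,
              Function.update_of_ne hj]
        · rw [Function.update_of_ne, Fin.append_right, Fin.append_right]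
          intro h5
          have h6 := congrArg Fin.val h5
          simp at h6
          omega
      change c.eval _ ≠ c.eval (Function.update (Fin.append x y1) (Fin.castAdd ny i)
          (!(Fin.append x y1 (Fin.castAdd ny i))))
      rw [h4, hval _ _ h2, hval _ _ h3, hy1]
      simp
    obtain ⟨Φ, hΦ1, hΦ2, hΦ3⟩ := struct_base c (Sx nx ny) (Fin.append x1 y1) k hdep
      (by rw [card_Sx]; exact hsize)
      (by
        rintro ⟨b, hb⟩
        apply hnc
        refine ⟨b, fun y => ?_⟩
        rw [← hb (Fin.append x1 y), hres, happ])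
      (by
        intro c' hc'
        exact hproj c' (fun w => by rw [hc', hres]))
    have hrex : REx (Sx nx ny) Φ := by
      rcases hΦ1 with ⟨h1, -⟩ | h1
      · exfalso
        have := castAdd_mem_Sx (ny := ny) (⟨0, hnx⟩ : Fin nx)
        rw [h1] at this
        simp at this
      · exact h1
    obtain ⟨r, hr⟩ := hrex
    have h1 := REx.subst hr (fun v => (Fin.addCases (motive := fun _ => Finset (Fin nx))
        (fun i => {i}) (fun _ => ∅) v)) (fun v x => Fin.append x y1 v) (by
      intro v hv
      obtain ⟨i, -, rfl⟩ := Finset.mem_map.1 hv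
      have h2 := REx.lit i false
      simp only [Function.Embedding.coeFn_mk, Fin.addCases_left, Fin.append_left]
      simpa using h2) (by
      intro v hv w hw hvw
      obtain ⟨i, -, rfl⟩ := Finset.mem_map.1 hv
      obtain ⟨j, -, rfl⟩ := Finset.mem_map.1 hw
      simp only [Function.Embedding.coeFn_mk, Fin.addCases_left, Finset.disjoint_singleton]
      rintro rfl
      exact hvw rfl)
    have h2 : (Sx nx ny).biUnion (fun v => (Fin.addCases (motive := fun _ => Finset (Fin nx))
        (fun i => {i}) (fun _ => ∅) v)) = Finset.univ := by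
      ext i
      rw [Finset.mem_biUnion]
      refine ⟨fun _ => Finset.mem_univ _, fun _ => ⟨Fin.castAdd ny i, castAdd_mem_Sx i, by simp⟩⟩
    rw [h2] at h1
    have h3 := hasCircuit_of_REx h1
    rw [Finset.card_univ, Fintype.card_fin] at h3
    refine ⟨_, h3, ?_⟩
    intro x v hx
    have h4 : ∀ w, c.eval (ovr (Sx nx ny) (Fin.append x y1) w) =
        (v && h (w ∘ Fin.natAdd nx)) := by
      intro w
      rw [ovr_Sx, hval x v hx]
    change Φ (Fin.append x y1) = v
    cases v
    · by_contra hne
      rw [Bool.not_eq_false] at hne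
      apply hnc
      refine ⟨false, fun y => ?_⟩
      have h5 := hΦ2 _ hne (Fin.append x1 y)
      rw [h4, hres, happ] at h5
      simpa using h5.symm
    · by_contra hne
      rw [Bool.not_eq_true] at hne
      rcases hΦ3 _ hne with ⟨b, hb⟩ | ⟨c', hc', hev⟩
      · apply hnc
        refine ⟨b, fun y => ?_⟩
        have h5 := hb (Fin.append x1 y)
        rw [h4, happ] at h5
        simpa using h5
      · have := hproj c' (fun w => by rw [hev, h4, Bool.true_and])
        omega
  · rintro ⟨f, hf, hfT⟩
    obtain ⟨c, hc, hev⟩ := hC.1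
    have hh : HasCircuit h k := (hasCircuit_iff h k).2 ⟨c, hc.le, funext hev⟩
    obtain ⟨L, hL, _, hlen, hw⟩ : Add ((nx - 1) + (k + 1)) ([] : List ((Fin (nx + ny) → Bool) → Bool))
        (fun L' => Wire L' (fun w => f (w ∘ Fin.castAdd ny) && h (w ∘ Fin.natAdd nx))) := by
      refine (add_comp (Fin.castAdd ny) Gates.nil hf).trans ?_
      intro L₁ hL₁ _ hf'
      refine (add_comp (Fin.natAdd nx) hL₁ hh).trans ?_
      intro L₂ hL₂ hs₂ hh'
      exact add_and hL₂ (hf'.mono hs₂) hh'
    refine ⟨_, ⟨L, hL, ?_, hw⟩, ?_⟩
    · simp only [List.length_nil] at hlen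
      omega
    · intro w b hb
      unfold baseT at hb
      split_ifs at hb with h1
      · simp only [h1, Bool.and_true]
        exact hfT _ _ hb
      · simp only [Option.some.injEq] at hb
        rw [Bool.not_eq_true] at h1
        simp only [h1, Bool.and_false]
        exact hb

/-- the bits of `baseT h T` are bits of `T` or constants -/
theorem enc_baseT (h : (Fin ny → Bool) → Bool) (T : (Fin nx → Bool) → Option Bool)
    (l : (Fin (nx + ny) → Bool) × Bool) :
    enc (baseT h T) l = if h (l.1 ∘ Fin.natAdd nx) = true then enc T (l.1 ∘ Fin.castAdd ny, l.2)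
      else l.2 == false := by
  unfold enc baseT
  split_ifs with h1
  · rfl
  · cases l.2 <;> simp

end base

end Pool.Agent.H24
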