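import Pool.Agent.H24.Defs
import Pool.Agent.H87.PMCSP.Emb

/-!
The two definitions of circuits for partial truth tables agree.
-/

namespace Pool.Agent.H24

open Pool.Agent.H87.PMCSP (Circuit gop)

theorem wire_xor {n : ℕ} {L : List ((Fin n → Bool) → Bool)} {u : (Fin n → Bool) → Bool}
    (h : (∃ i : Fin n, u = fun x => x i) ∨ u ∈ L) (b : Bool) :
    Wire L (fun x => xor (u x) b) := by
  refine ⟨u, h, ?_⟩
  cases b
  · left
    funext x
    simp
  · right
    funext x
    simp

theorem circuit_to_gates {n : ℕ} : ∀ {N : ℕ} (c : Circuit N)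
    (wv : Fin N → (Fin n → Bool) → Bool) (L : List ((Fin n → Bool) → Bool)), Gates L →
    (∀ j, (∃ i : Fin n, wv j = fun x => x i) ∨ wv j ∈ L) →
    ∃ L', Gates L' ∧ L'.length ≤ L.length + c.size ∧
      Wire L' (fun x => c.eval (fun j => wv j x)) := by
  intro N c
  induction c with
  | out w neg =>
    intro wv L hL hwv
    refine ⟨L, hL, by simp [Circuit.size], ?_⟩
    exact wire_xor (hwv w) neg
  | @gate N conj a na b nb rest ih =>
    intro wv L hL hwv
    have hu := wire_xor (hwv a) na
    have hv := wire_xor (hwv b) nb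
    set g : (Fin n → Bool) → Bool := fun x => gop conj (xor (wv a x) na) (xor (wv b x) nb) with hg
    have hL1 : Gates (g :: L) := by
      cases conj
      · exact Gates.or hL hu hv
      · exact Gates.and hL hu hv
    obtain ⟨L', hL', hlen, hw⟩ := ih (Fin.snoc (α := fun _ => (Fin n → Bool) → Bool) wv g)
      (g :: L) hL1 (by
        intro j
        refine Fin.lastCases ?_ (fun j => ?_) j
        · right
          simp
        · rw [Fin.snoc_castSucc]
          rcases hwv j with h | h
          · exact Or.inl h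
          · exact Or.inr (List.mem_cons_of_mem _ h))
    refine ⟨L', hL', ?_, ?_⟩
    · simp only [Circuit.size, List.length_cons] at hlen ⊢
      omega
    · have h1 : (fun x => (Circuit.gate conj a na b nb rest).eval (fun j => wv j x)) =
          fun x => rest.eval (fun j =>
            (Fin.snoc (α := fun _ => (Fin n → Bool) → Bool) wv g : Fin (N + 1) → _) j x) := by
        funext x
        simp only [Circuit.eval]
        congr 1
        funext j
        refine Fin.lastCases ?_ (fun j => ?_) j
        · simp [hg]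
        · simp
      rw [h1]
      exact hw

theorem gates_to_circuit {n : ℕ} {L : List ((Fin n → Bool) → Bool)} (hL : Gates L) :
    ∃ wv : Fin (n + L.length) → (Fin n → Bool) → Bool,
      (∀ i : Fin n, ∃ j, wv j = fun x => x i) ∧ (∀ u ∈ L, ∃ j, wv j = u) ∧
      ∀ rest : Circuit (n + L.length), ∃ c : Circuit n, c.size = rest.size + L.length ∧
        ∀ x, c.eval x = rest.eval (fun j => wv j x) := by
  have key : ∀ {L : List ((Fin n → Bool) → Bool)} {u : (Fin n → Bool) → Bool}
      {wv : Fin (n + L.length) → (Fin n → Bool) → Bool}, Wire L u →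
      (∀ i : Fin n, ∃ j, wv j = fun x => x i) → (∀ u ∈ L, ∃ j, wv j = u) →
      ∃ j b, u = fun x => xor (wv j x) b := by
    intro L u wv hu h1 h2
    obtain ⟨v, hv, huv⟩ := hu
    have hj : ∃ j, wv j = v := by
      rcases hv with ⟨i, rfl⟩ | hv
      · exact h1 i
      · exact h2 v hv
    obtain ⟨j, hj⟩ := hj
    rcases huv with rfl | rfl
    · exact ⟨j, false, by funext x; simp [hj]⟩
    · exact ⟨j, true, by funext x; simp [hj]⟩
  have step : ∀ (conj : Bool) {L : List ((Fin n → Bool) → Bool)} {u v : (Fin n → Bool) → Bool},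
      Wire L u → Wire L v →
      (∃ wv : Fin (n + L.length) → (Fin n → Bool) → Bool,
        (∀ i : Fin n, ∃ j, wv j = fun x => x i) ∧ (∀ u ∈ L, ∃ j, wv j = u) ∧
        ∀ rest : Circuit (n + L.length), ∃ c : Circuit n, c.size = rest.size + L.length ∧
          ∀ x, c.eval x = rest.eval (fun j => wv j x)) →
      (∃ wv : Fin (n + (L.length + 1)) → (Fin n → Bool) → Bool,
        (∀ i : Fin n, ∃ j, wv j = fun x => x i) ∧
        (∀ w ∈ (fun x => gop conj (u x) (v x)) :: L, ∃ j, wv j = w) ∧
        ∀ rest : Circuit (n + (L.length + 1)), ∃ c : Circuit n,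
          c.size = rest.size + (L.length + 1) ∧ ∀ x, c.eval x = rest.eval (fun j => wv j x)) := by
    intro conj L u v hu hv h
    obtain ⟨wv, h1, h2, h3⟩ := h
    obtain ⟨ja, na, rfl⟩ := key hu h1 h2
    obtain ⟨jb, nb, rfl⟩ := key hv h1 h2
    set g : (Fin n → Bool) → Bool := fun x => gop conj (xor (wv ja x) na) (xor (wv jb x) nb)
      with hg
    let wv' : Fin (n + L.length + 1) → (Fin n → Bool) → Bool :=
      Fin.snoc (α := fun _ => (Fin n → Bool) → Bool) wv g
    refine ⟨wv', ?_, ?_, ?_⟩
    · intro i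
      obtain ⟨j, hj⟩ := h1 i
      exact ⟨(Fin.castSucc j : Fin (n + L.length + 1)), by simp [wv', hj]⟩
    · intro w hw
      rw [List.mem_cons] at hw
      rcases hw with rfl | hw
      · exact ⟨(Fin.last (n + L.length) : Fin (n + L.length + 1)), by simp [wv']⟩
      · obtain ⟨j, hj⟩ := h2 w hw
        exact ⟨(Fin.castSucc j : Fin (n + L.length + 1)), by simp [wv', hj]⟩
    · intro rest
      obtain ⟨c, hc, hev⟩ := h3 (Circuit.gate conj ja na jb nb rest)
      refine ⟨c, ?_, ?_⟩
      · rw [hc]
        simp only [Circuit.size]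
        omega
      · intro x
        rw [hev]
        simp only [Circuit.eval]
        congr 1
        funext j
        refine Fin.lastCases ?_ (fun j => ?_) j
        · simp [wv', hg]
        · simp [wv']
  induction hL with
  | nil =>
    refine ⟨fun j x => x j, fun i => ⟨i, rfl⟩, by simp, fun rest => ⟨rest, rfl, fun x => rfl⟩⟩
  | @and L u v _ hu hv ih => exact step true hu hv ih
  | @or L u v _ hu hv ih => exact step false hu hv ih

theorem hasCircuit_iff {n : ℕ} (f : (Fin n → Bool) → Bool) (s : ℕ) :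
    HasCircuit f s ↔ ∃ c : Circuit n, c.size ≤ s ∧ c.eval = f := by
  constructor
  · rintro ⟨L, hL, hlen, v, hv, hf⟩
    obtain ⟨wv, h1, h2, h3⟩ := gates_to_circuit hL
    have hj : ∃ j, wv j = v := by
      rcases hv with ⟨i, rfl⟩ | hv
      · exact h1 i
      · exact h2 v hv
    obtain ⟨j, hj⟩ := hj
    have hb : ∃ b, f = fun x => xor (v x) b := by
      rcases hf with rfl | rfl
      · exact ⟨false, by funext x; simp⟩
      · exact ⟨true, by funext x; simp⟩
    obtain ⟨b, hb⟩ := hb
    obtain ⟨c, hc, hev⟩ := h3 (Circuit.out j b)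
    refine ⟨c, ?_, ?_⟩
    · rw [hc]
      simp only [Circuit.size]
      omega
    · funext x
      rw [hev, hb, ← hj]
      rfl
  · rintro ⟨c, hc, rfl⟩
    obtain ⟨L', hL', hlen, hw⟩ := circuit_to_gates (n := n) c (fun j x => x j) [] Gates.nil
      (fun j => Or.inl ⟨j, rfl⟩)
    exact ⟨L', hL', by simpa using hlen.trans (by simpa using hc), hw⟩

theorem partialMCSP_iff {n : ℕ} (T : (Fin n → Bool) → Option Bool) (s : ℕ) :
    PartialMCSP T s ↔ ∃ c : Circuit n, c.size ≤ s ∧ ∀ x b, T x = some b → c.eval x = b := by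
  constructor
  · rintro ⟨f, hf, hT⟩
    obtain ⟨c, hc, rfl⟩ := (hasCircuit_iff f s).1 hf
    exact ⟨c, hc, hT⟩
  · rintro ⟨c, hc, hT⟩
    exact ⟨c.eval, (hasCircuit_iff _ s).2 ⟨c, hc, rfl⟩, hT⟩

end Pool.Agent.H24
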