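import Pool.Agent.H24.Pad2

/-!
A circuit with `r` NOT gates becomes a monotone circuit once the outputs of its NOT gates are
replaced by additional inputs. Consequence: along pairs of inputs at which every monotone circuit
changes its value at most once, it changes its value at most `2 ^ r (r + 1)` times.
-/

namespace Pool.Agent.H24

open Finset

set_option linter.unusedSectionVars false

variable {V : Type}

/-- the extended input -/
def ext {r : ℕ} (x : V → Bool) (b : Fin r → Bool) : V ⊕ Fin r → Bool := Sum.elim x b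

theorem neg_to_mono {t r : ℕ} {L : List ((V → Bool) → Bool)} (h : NegCircuit t r L) :
    ∃ (L' : List ((V ⊕ Fin r → Bool) → Bool)) (h' : Fin r → (V ⊕ Fin r → Bool) → Bool),
      NegCircuit t 0 L' ∧ (∀ j, Source L' (h' j)) ∧
      (∀ x : V → Bool, ∃ b : Fin r → Bool, ∀ j, b j = !(h' j (ext x b))) ∧
      ∀ u, Source L u → ∃ u', Source L' u' ∧
        ∀ x b, (∀ j, b j = !(h' j (ext x b))) → u x = u' (ext x b) := by
  induction h with
  | nil =>
    refine ⟨[], fun j => Fin.elim0 j, NegCircuit.nil, fun j => Fin.elim0 j,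
      fun x => ⟨fun j => Fin.elim0 j, fun j => Fin.elim0 j⟩, ?_⟩
    intro u hu
    rcases hu with ⟨v, rfl⟩ | ⟨c, rfl⟩ | hu
    · exact ⟨fun a => a (Sum.inl v), Or.inl ⟨_, rfl⟩, fun x b _ => rfl⟩
    · exact ⟨fun _ => c, Or.inr (Or.inl ⟨c, rfl⟩), fun x b _ => rfl⟩
    · simp at hu
  | @and t r L u v hL hu hv ih =>
    obtain ⟨L', h', hL', hh', hex, hsrc⟩ := ih
    obtain ⟨u', hu', huu⟩ := hsrc u hu
    obtain ⟨v', hv', hvv⟩ := hsrc v hv
    refine ⟨(fun a => u' a && v' a) :: L', h', NegCircuit.and hL' hu' hv', ?_, hex, ?_⟩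
    · intro j
      rcases hh' j with h | h | h
      · exact Or.inl h
      · exact Or.inr (Or.inl h)
      · exact Or.inr (Or.inr (List.mem_cons_of_mem _ h))
    · intro g hg
      rcases hg with ⟨w, rfl⟩ | ⟨c, rfl⟩ | hg
      · exact ⟨fun a => a (Sum.inl w), Or.inl ⟨_, rfl⟩, fun x b _ => rfl⟩
      · exact ⟨fun _ => c, Or.inr (Or.inl ⟨c, rfl⟩), fun x b _ => rfl⟩
      · rw [List.mem_cons] at hg
        rcases hg with rfl | hg
        · refine ⟨fun a => u' a && v' a, Or.inr (Or.inr (by simp)), fun x b hb => ?_⟩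
          simp only
          rw [huu x b hb, hvv x b hb]
        · obtain ⟨g', hg', hgg⟩ := hsrc g (Or.inr (Or.inr hg))
          refine ⟨g', ?_, hgg⟩
          rcases hg' with h | h | h
          · exact Or.inl h
          · exact Or.inr (Or.inl h)
          · exact Or.inr (Or.inr (List.mem_cons_of_mem _ h))
  | @or t r L u v hL hu hv ih =>
    obtain ⟨L', h', hL', hh', hex, hsrc⟩ := ih
    obtain ⟨u', hu', huu⟩ := hsrc u hu
    obtain ⟨v', hv', hvv⟩ := hsrc v hv
    refine ⟨(fun a => u' a || v' a) :: L', h', NegCircuit.or hL' hu' hv', ?_, hex, ?_⟩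
    · intro j
      rcases hh' j with h | h | h
      · exact Or.inl h
      · exact Or.inr (Or.inl h)
      · exact Or.inr (Or.inr (List.mem_cons_of_mem _ h))
    · intro g hg
      rcases hg with ⟨w, rfl⟩ | ⟨c, rfl⟩ | hg
      · exact ⟨fun a => a (Sum.inl w), Or.inl ⟨_, rfl⟩, fun x b _ => rfl⟩
      · exact ⟨fun _ => c, Or.inr (Or.inl ⟨c, rfl⟩), fun x b _ => rfl⟩
      · rw [List.mem_cons] at hg
        rcases hg with rfl | hg
        · refine ⟨fun a => u' a || v' a, Or.inr (Or.inr (by simp)), fun x b hb => ?_⟩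
          simp only
          rw [huu x b hb, hvv x b hb]
        · obtain ⟨g', hg', hgg⟩ := hsrc g (Or.inr (Or.inr hg))
          refine ⟨g', ?_, hgg⟩
          rcases hg' with h | h | h
          · exact Or.inl h
          · exact Or.inr (Or.inl h)
          · exact Or.inr (Or.inr (List.mem_cons_of_mem _ h))
  | @not t r L u hL hu ih =>
    obtain ⟨L', h', hL', hh', hex, hsrc⟩ := ih
    obtain ⟨u', hu', huu⟩ := hsrc u hu
    -- forget the last additional input
    let θ : (V ⊕ Fin (r + 1) → Bool) → (V ⊕ Fin r → Bool) :=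
      fun y => Sum.elim (fun v => y (Sum.inl v)) (fun j => y (Sum.inr (Fin.castSucc j)))
    have hθ : ∀ v', (∃ v, (fun a => θ a v') = fun a => a v) ∨
        ∃ c : Bool, (fun a => θ a v') = fun _ => c := by
      intro v'
      left
      rcases v' with v | j
      · exact ⟨Sum.inl v, rfl⟩
      · exact ⟨Sum.inr (Fin.castSucc j), rfl⟩
    have hθe : ∀ (x : V → Bool) (b : Fin (r + 1) → Bool),
        θ (ext x b) = ext x (fun j => b (Fin.castSucc j)) := by
      intro x b
      funext v'
      rcases v' with v | j <;> rfl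
    refine ⟨L'.map (fun g => fun a => g (θ a)),
      Fin.snoc (α := fun _ => (V ⊕ Fin (r + 1) → Bool) → Bool) (fun j a => h' j (θ a))
        (fun a => u' (θ a)), circuit_subst θ hθ hL', ?_, ?_, ?_⟩
    · intro j
      refine Fin.lastCases ?_ (fun j => ?_) j
      · rw [Fin.snoc_last]
        exact source_subst θ hθ hu'
      · rw [Fin.snoc_castSucc]
        exact source_subst θ hθ (hh' j)
    · intro x
      obtain ⟨b, hb⟩ := hex x
      refine ⟨Fin.snoc (α := fun _ => Bool) b (!(u' (ext x b))), ?_⟩
      have e1 : θ (ext x (Fin.snoc (α := fun _ => Bool) b (!(u' (ext x b))))) = ext x b := by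
        rw [hθe]
        congr 1
        funext j
        simp
      intro j
      refine Fin.lastCases ?_ (fun j => ?_) j
      · rw [Fin.snoc_last, Fin.snoc_last, e1]
      · rw [Fin.snoc_castSucc, Fin.snoc_castSucc, e1]
        exact hb j
    · intro g hg
      have hold : ∀ x (b : Fin (r + 1) → Bool), (∀ j, b j = !((Fin.snoc
          (α := fun _ => (V ⊕ Fin (r + 1) → Bool) → Bool) (fun j a => h' j (θ a))
          (fun a => u' (θ a)) : Fin (r + 1) → _) j (ext x b))) →
          (∀ j : Fin r, b (Fin.castSucc j) = !(h' j (ext x (fun j => b (Fin.castSucc j))))) ∧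
            b (Fin.last r) = !(u' (ext x (fun j => b (Fin.castSucc j)))) := by
        intro x b hb
        constructor
        · intro j
          have := hb (Fin.castSucc j)
          rw [Fin.snoc_castSucc, hθe] at this
          exact this
        · have := hb (Fin.last r)
          rw [Fin.snoc_last, hθe] at this
          exact this
      have hlift : ∀ g, Source L g → ∃ g', Source (L'.map (fun g => fun a => g (θ a))) g' ∧
          ∀ x (b : Fin (r + 1) → Bool), (∀ j, b j = !((Fin.snoc
            (α := fun _ => (V ⊕ Fin (r + 1) → Bool) → Bool) (fun j a => h' j (θ a))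
            (fun a => u' (θ a)) : Fin (r + 1) → _) j (ext x b))) → g x = g' (ext x b) := by
        intro g hg
        obtain ⟨g', hg', hgg⟩ := hsrc g hg
        refine ⟨fun a => g' (θ a), source_subst θ hθ hg', fun x b hb => ?_⟩
        rw [hgg x _ (hold x b hb).1]
        simp only [hθe]
      rcases hg with ⟨w, rfl⟩ | ⟨c, rfl⟩ | hg
      · exact hlift _ (Or.inl ⟨w, rfl⟩)
      · exact hlift _ (Or.inr (Or.inl ⟨c, rfl⟩))
      · rw [List.mem_cons] at hg
        rcases hg with rfl | hg
        · refine ⟨fun a => a (Sum.inr (Fin.last r)), Or.inl ⟨_, rfl⟩, fun x b hb => ?_⟩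
          obtain ⟨h1, h2⟩ := hold x b hb
          simp only
          rw [huu x _ h1, ← h2]
          rfl
        · exact hlift _ (Or.inr (Or.inr hg))

/-- The monotone circuits obtained by fixing the outputs of the NOT gates: a finite family of
functions of monotone circuits of the same size such that at any two inputs at which the function
of the original circuit differs, one of them differs. -/
theorem neg_family {t r : ℕ} {L : List ((V → Bool) → Bool)} (h : NegCircuit t r L)
    {F : (V → Bool) → Bool} (hF : Source L F) :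
    ∃ 𝒢 : (Fin r → Bool) → Option (Fin r) → (V → Bool) → Bool,
      (∀ b j, ∃ L' : List ((V → Bool) → Bool), NegCircuit t 0 L' ∧ Source L' (𝒢 b j)) ∧
      ∀ x y : V → Bool, F x ≠ F y → ∃ b j, 𝒢 b j x ≠ 𝒢 b j y := by
  obtain ⟨L', h', hL', hh', hex, hsrc⟩ := neg_to_mono h
  obtain ⟨F', hF', hFF⟩ := hsrc F hF
  have hθ : ∀ b : Fin r → Bool, ∀ v', (∃ v, (fun a : V → Bool => ext a b v') = fun a => a v) ∨
      ∃ c : Bool, (fun a : V → Bool => ext a b v') = fun _ => c := by
    intro b v'
    rcases v' with v | j
    · exact Or.inl ⟨v, rfl⟩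
    · exact Or.inr ⟨b j, rfl⟩
  refine ⟨fun b j x => match j with
    | none => F' (ext x b)
    | some j => h' j (ext x b), ?_, ?_⟩
  · intro b j
    refine ⟨_, circuit_subst (fun a => ext a b) (hθ b) hL', ?_⟩
    cases j with
    | none => exact source_subst (fun a => ext a b) (hθ b) hF'
    | some j => exact source_subst (fun a => ext a b) (hθ b) (hh' j)
  · intro x y hxy
    obtain ⟨b, hb⟩ := hex x
    by_cases hall : ∀ j, h' j (ext x b) = h' j (ext y b)
    · refine ⟨b, none, ?_⟩
      have h1 := hFF x b hb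
      have h2 := hFF y b (fun j => by rw [← hall j]; exact hb j)
      simp only
      rw [← h1, ← h2]
      exact hxy
    · push Not at hall
      obtain ⟨j, hj⟩ := hall
      exact ⟨b, some j, hj⟩

end Pool.Agent.H24
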