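import Pool.Agent.H24.CspH
import Pool.Agent.H24.NegMono

/-!
Circuits with few NOT gates on a chain of noise sets.
-/

namespace Pool.Agent.H24

open Finset

set_option linter.unusedSectionVars false

/-! ### Probability on products -/

theorem pr_fiber_le {A B : Type*} [Fintype A] [Fintype B] {E : A × B → Prop} {c : ℝ}
    (hc : 0 ≤ c) (h : ∀ b, pr (fun a => E (a, b)) ≤ c) : pr E ≤ c := by
  classical
  by_cases hA : Nonempty A
  swap
  · have : IsEmpty A := not_nonempty_iff.1 hA
    rw [pr_eq_card]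
    simpa using hc
  by_cases hB : Nonempty B
  swap
  · have : IsEmpty B := not_nonempty_iff.1 hB
    rw [pr_eq_card]
    simpa using hc
  have hA0 : (0:ℝ) < Fintype.card A := by exact_mod_cast Fintype.card_pos
  have hB0 : (0:ℝ) < Fintype.card B := by exact_mod_cast Fintype.card_pos
  rw [pr_eq_card, Fintype.card_prod, Nat.cast_mul, div_le_iff₀ (by positivity)]
  have h1 : (univ.filter E).card = ∑ b : B, (univ.filter (fun a : A => E (a, b))).card := by
    rw [Finset.card_eq_sum_card_fiberwise (f := Prod.snd) (t := univ) (by intro x _; simp)]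
    apply Finset.sum_congr rfl
    intro b _
    refine Finset.card_bij (fun p _ => p.1) ?_ ?_ ?_
    · rintro ⟨a, b'⟩ hp
      simp only [Finset.mem_filter, mem_univ, true_and] at hp ⊢
      obtain ⟨hp, rfl⟩ := hp
      exact hp
    · rintro ⟨a, b'⟩ hp ⟨a', b''⟩ hp' h
      simp only [Finset.mem_filter, mem_univ, true_and] at hp hp' h
      rw [hp.2, hp'.2, h]
    · intro a ha
      simp only [Finset.mem_filter, mem_univ, true_and] at ha
      exact ⟨(a, b), by simp [ha], rfl⟩
  rw [h1]
  push_cast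
  have h2 : ∀ b ∈ (univ : Finset B), ((univ.filter (fun a : A => E (a, b))).card : ℝ) ≤
      c * Fintype.card A := by
    intro b _
    have := h b
    rw [pr_eq_card, div_le_iff₀ hA0] at this
    exact this
  refine (Finset.sum_le_sum h2).trans (le_of_eq ?_)
  rw [Finset.sum_const, Finset.card_univ, nsmul_eq_mul]
  ring

theorem pr_equiv {A B : Type*} [Fintype A] [Fintype B] (e : A ≃ B) (E : B → Prop) :
    pr (fun a => E (e a)) = pr E := by
  classical
  rw [pr_eq_card, pr_eq_card, Fintype.card_congr e]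
  congr 2
  refine Finset.card_bij (fun a _ => e a) ?_ ?_ ?_
  · intro a ha
    simpa using ha
  · intro a _ a' _ h
    exact e.injective h
  · intro b hb
    exact ⟨e.symm b, by simpa using hb, by simp⟩

/-- Conditioning on all coordinates but one. -/
theorem pr_split_le {W Y : Type*} [Fintype W] [Fintype Y] {R : ℕ} (i : Fin R)
    (E : (W × Y) × ({j : Fin R // j ≠ i} → Y) → Prop) {c : ℝ} (hc : 0 ≤ c)
    (h : ∀ ρ, pr (fun p : W × Y => E (p, ρ)) ≤ c) :
    pr (fun ω : W × (Fin R → Y) => E ((ω.1, ω.2 i), fun j => ω.2 j)) ≤ c := by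
  classical
  let e1 : W × (Fin R → Y) ≃ (W × Y) × ({j : Fin R // j ≠ i} → Y) :=
    (Equiv.prodCongr (Equiv.refl _) (Equiv.funSplitAt i _)).trans (Equiv.prodAssoc _ _ _).symm
  have h1 := pr_equiv e1 E
  refine le_trans (le_of_eq ?_) ((le_of_eq h1).trans (pr_fiber_le hc h))
  rfl

theorem pr_second_le {W Y : Type*} [Fintype W] [Fintype Y] (E : Y → Prop) {c : ℝ} (hc : 0 ≤ c)
    (h : pr E ≤ c) : pr (fun ω : W × Y => E ω.2) ≤ c := by
  have h3 := pr_equiv (Equiv.prodComm W Y) (fun p => E p.1)
  exact le_trans (le_of_eq h3) (pr_fiber_le hc fun _ => h)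

/-! ### Monotonicity -/

theorem mono_of_source {V : Type} {t : ℕ} {L : List ((V → Bool) → Bool)}
    (h : NegCircuit t 0 L) {g : (V → Bool) → Bool} (hg : Source L g) {x y : V → Bool}
    (hxy : ∀ v, x v = true → y v = true) (hx : g x = true) : g y = true := by
  have key : ∀ {L : List ((V → Bool) → Bool)},
      (∀ u ∈ L, ∀ x y : V → Bool, (∀ v, x v = true → y v = true) → u x = true → u y = true) →
      ∀ u, Source L u → ∀ x y : V → Bool, (∀ v, x v = true → y v = true) → u x = true →
        u y = true := by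
    intro L hL u hu x y hxy hux
    rcases hu with ⟨v, rfl⟩ | ⟨c, rfl⟩ | hu
    · exact hxy v hux
    · exact hux
    · exact hL u hu x y hxy hux
  have main : ∀ {t r : ℕ} {L : List ((V → Bool) → Bool)}, NegCircuit t r L → r = 0 →
      ∀ u ∈ L, ∀ x y : V → Bool, (∀ v, x v = true → y v = true) → u x = true → u y = true := by
    intro t r L h
    induction h with
    | nil => intro _ u hu; simp at hu
    | and _ hu hv ih =>
      intro hr g hg x y hxy hgx
      rw [List.mem_cons] at hg
      rcases hg with rfl | hg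
      · rw [Bool.and_eq_true] at hgx ⊢
        exact ⟨key (ih hr) _ hu x y hxy hgx.1, key (ih hr) _ hv x y hxy hgx.2⟩
      · exact ih hr g hg x y hxy hgx
    | or _ hu hv ih =>
      intro hr g hg x y hxy hgx
      rw [List.mem_cons] at hg
      rcases hg with rfl | hg
      · rw [Bool.or_eq_true] at hgx ⊢
        exact hgx.imp (key (ih hr) _ hu x y hxy) (key (ih hr) _ hv x y hxy)
      · exact ih hr g hg x y hxy hgx
    | not _ hu ih => intro hr; omega
  exact key (main h rfl) g hg x y hxy hx

section chain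

variable {k m : ℕ} (H : Finset (Fin k × Fin k)) {M R : ℕ}

/-- one pair is noise -/
def nz (y : Ed k m → Fin (M ^ 1) × Bool) (e : Ed k m) : Bool :=
  decide (((y e).1 : ℕ) < M ^ (1 - 1) ∧ (y e).2 = true)

/-- the sample space of the chain -/
abbrev Om (k m M R : ℕ) : Type :=
  (Bool × Fin k → Wd m) × (Fin R → Ed k m → Fin (M ^ 1) × Bool)

/-- the union of the first `i` noise sets -/
def PP (ω : Om k m M R) (i : ℕ) (e : Ed k m) : Bool :=
  decide (∃ j : Fin R, (j : ℕ) < i ∧ nz (ω.2 j) e = true)

/-- this union together with the pairs of the random assignment -/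
def QQ (ω : Om k m M R) (i : ℕ) (e : Ed k m) : Bool :=
  PP ω i e || decide ((e, true) ∈ plH H ω.1)

theorem PP_mono (ω : Om k m M R) {i i' : ℕ} (h : i ≤ i') (e : Ed k m) (he : PP ω i e = true) :
    PP ω i' e = true := by
  simp only [PP, decide_eq_true_eq] at he ⊢
  obtain ⟨j, hj, hn⟩ := he
  exact ⟨j, hj.trans_le h, hn⟩

/-- A monotone function for which the noise dominates the assignment at every level changes its
value between `PP i` and `QQ i` for at most one `i`. -/
theorem flips_le_one {t : ℕ} {L : List ((Ed k m → Bool) → Bool)} (hL : NegCircuit t 0 L)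
    {g : (Ed k m → Bool) → Bool} (hg : Source L g) (ω : Om k m M R)
    (hω : ∀ i : Fin R, ¬ (g (QQ H ω i) = true ∧ g (PP ω (i + 1)) = false)) :
    (univ.filter (fun i : Fin R => g (PP ω i) ≠ g (QQ H ω i))).card ≤ 1 := by
  rw [Finset.card_le_one]
  have main : ∀ i i' : Fin R, g (PP ω i) ≠ g (QQ H ω i) → g (PP ω i') ≠ g (QQ H ω i') →
      ¬ (i : ℕ) < i' := by
    intro i i' hi hi' hlt
    have hle : ∀ j : Fin R, g (PP ω j) ≠ g (QQ H ω j) →
        g (PP ω j) = false ∧ g (QQ H ω j) = true := by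
      intro j hj
      have h1 : g (PP ω j) = true → g (QQ H ω j) = true := by
        apply mono_of_source hL hg
        intro e he
        simp [QQ, he]
      cases h2 : g (PP ω j)
      · cases h3 : g (QQ H ω j)
        · rw [h2, h3] at hj
          exact absurd rfl hj
        · exact ⟨rfl, rfl⟩
      · rw [h2, h1 h2] at hj
        exact absurd rfl hj
    have h1 := hle i hi
    have h2 := hle i' hi'
    have h3 : g (PP ω (i + 1)) = true := by
      cases h : g (PP ω ((i : ℕ) + 1))
      · exact absurd ⟨h1.2, h⟩ (hω i)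
      · rfl
    have h4 : g (PP ω i') = true :=
      mono_of_source hL hg (fun e he => PP_mono ω (show (i : ℕ) + 1 ≤ i' by omega) e he) h3
    rw [h2.1] at h4
    exact Bool.noConfusion h4
  intro i hi i' hi'
  rw [Finset.mem_filter] at hi hi'
  by_contra hne
  rcases Nat.lt_or_gt_of_ne (fun h => hne (Fin.ext h)) with h | h
  · exact main i i' hi.2 hi'.2 h
  · exact main i' i hi'.2 hi.2 h

/-- At every level the noise dominates the assignment with high probability. -/
theorem pr_level_le (hM : 0 < M) {G : Finset (Ed k m × Bool) → Prop} {w : ℕ} {ε η ζ : ℝ}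
    (hS : Sc (PD k m M) (QH H M) G w ε η ζ 1) {t : ℕ} {L : List ((Ed k m → Bool) → Bool)}
    (hL : NegCircuit t 0 L) {g : (Ed k m → Bool) → Bool} (hg : Source L g) (i : Fin R) :
    pr (fun ω : Om k m M R => g (QQ H ω i) = true ∧ g (PP ω (i + 1)) = false) ≤
      t * (etaOr G ε + η) + ζ := by
  classical
  have he0 := etaOr_nonneg G hS.ε0
  have hη0 := hS.η0
  have hζ0 := hS.ζ0
  -- split off the noise set number `i`
  let E : (Smp (Bool × Fin k → Wd m) (Ed k m) M 1) ×
      ({j : Fin R // j ≠ i} → (Ed k m → Fin (M ^ 1) × Bool)) → Prop := fun p =>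
    g (fun e => decide (∃ j : {j : Fin R // j ≠ i}, ((j : Fin R) : ℕ) < i ∧
      nz (p.2 j) e = true) || decide ((e, true) ∈ plH H p.1.1)) = true ∧
    g (fun e => decide (∃ j : {j : Fin R // j ≠ i}, ((j : Fin R) : ℕ) < i ∧
      nz (p.2 j) e = true) || nz p.1.2 e) = false
  have hback : ∀ ω : Om k m M R, ∀ e, PP ω i e =
      decide (∃ j : {j : Fin R // j ≠ i}, ((j : Fin R) : ℕ) < i ∧ nz (ω.2 j) e = true) := by
    intro ω e
    simp only [PP]
    congr 1
    apply propext
    constructor
    · rintro ⟨j, hj, hn⟩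
      refine ⟨⟨j, fun h => ?_⟩, hj, hn⟩
      rw [h] at hj
      omega
    · rintro ⟨j, hj, hn⟩
      exact ⟨j, hj, hn⟩
  have h1 : pr (fun ω : Om k m M R => g (QQ H ω i) = true ∧ g (PP ω (i + 1)) = false) =
      pr (fun ω : Om k m M R => E ((ω.1, ω.2 i), fun j => ω.2 j)) := by
    apply pr_congr
    intro ω
    have h2 : QQ H ω i = fun e => decide (∃ j : {j : Fin R // j ≠ i}, ((j : Fin R) : ℕ) < i ∧
        nz (ω.2 j) e = true) || decide ((e, true) ∈ plH H ω.1) := by
      funext e
      rw [QQ, hback ω]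
    have h3 : PP ω (i + 1) = fun e => decide (∃ j : {j : Fin R // j ≠ i}, ((j : Fin R) : ℕ) < i ∧
        nz (ω.2 j) e = true) || nz (ω.2 i) e := by
      funext e
      rw [← hback ω]
      rw [Bool.eq_iff_iff, Bool.or_eq_true]
      simp only [PP, decide_eq_true_eq]
      constructor
      · rintro ⟨j, hj, hn⟩
        rcases Nat.lt_succ_iff_lt_or_eq.1 hj with h | h
        · exact Or.inl ⟨j, h, hn⟩
        · have : j = i := Fin.ext h
          rw [this] at hn
          exact Or.inr hn
      · rintro (⟨j, hj, hn⟩ | h)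
        · exact ⟨j, by omega, hn⟩
        · exact ⟨i, by omega, h⟩
    rw [h2, h3]
  rw [h1]
  refine pr_split_le i E (by positivity) ?_
  intro ρ
  -- fixed background
  let B : Ed k m → Bool := fun e => decide (∃ j : {j : Fin R // j ≠ i},
    ((j : Fin R) : ℕ) < i ∧ nz (ρ j) e = true)
  let θ : (Ed k m → Bool) → (Ed k m → Bool) := fun x e => B e || x e
  have hθ : ∀ e, (∃ v, (fun a => θ a e) = fun a => a v) ∨
      ∃ c : Bool, (fun a => θ a e) = fun _ => c := by
    intro e
    by_cases hB : B e = true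
    · right
      exact ⟨true, by funext a; simp [θ, hB]⟩
    · left
      refine ⟨e, ?_⟩
      funext a
      rw [Bool.not_eq_true] at hB
      simp [θ, hB]
  have h4 := noise_dominates hM hS (circuit_subst θ hθ hL) (source_subst θ hθ hg)
  refine le_trans (le_of_eq (pr_congr ?_)) h4
  intro ω
  have h5 : ev (pos (fun a => g (θ a))) (QH H M 1 ω) =
      g (fun e => B e || decide ((e, true) ∈ plH H ω.1)) := by
    simp only [ev, pos, QH, one_ne_zero, if_false]
    rfl
  have h6 : ev (pos (fun a => g (θ a))) (PD k m M 0 ω) =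
      g (fun e => B e || nz ω.2 e) := by
    simp only [ev, pos, PD, if_true, mem_Qs]
    rfl
  rw [h5, h6]

/-- the number of pairs of an assignment -/
theorem card_plH (w : Bool × Fin k → Wd m) : (plH H w).card = H.card := by
  classical
  have h1 : plH H w = H.image
      (fun ij => (((ij.1, w (false, ij.1)), (ij.2, w (true, ij.2))), true)) := by
    ext ⟨⟨⟨a, p⟩, ⟨b, q⟩⟩, c⟩
    rw [plH, Finset.mem_filter, mem_planted]
    simp only [Finset.mem_image, Prod.mk.injEq, Prod.exists]
    constructor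
    · rintro ⟨⟨h1, h2, h3⟩, h4⟩
      exact ⟨a, b, h4, ⟨⟨rfl, h1⟩, ⟨rfl, h2⟩⟩, h3.symm⟩
    · rintro ⟨a', b', h4, ⟨⟨rfl, h1⟩, ⟨rfl, h2⟩⟩, h3⟩
      exact ⟨⟨h1, h2, h3.symm⟩, h4⟩
  rw [h1, Finset.card_image_of_injective]
  rintro ⟨a, b⟩ ⟨a', b'⟩ h
  simp only [Prod.mk.injEq] at h
  exact Prod.ext h.1.1.1 h.1.2.1

theorem pr_good (hM : 0 < M) : pr (fun z : Fin (M ^ 1) × Bool =>
    (z.1 : ℕ) < M ^ (1 - 1) ∧ z.2 = true) = 1 / (2 * (M:ℝ)) := by
  rw [pr_eq_card, card_level_label M 1 hM 1 true, card_pt]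
  push_cast
  rw [pow_one, mul_comm]
  simp

/-- The union of all noise sets contains the pairs of a given assignment with small
probability. -/
theorem pr_sol_le (hM : 0 < M) (w' : Bool × Fin k → Wd m) :
    pr (fun ω : Om k m M R => ∀ e, (e, true) ∈ plH H w' → PP ω R e = true) ≤
      ((R:ℝ) / (2 * M)) ^ H.card := by
  classical
  have hMr : (0:ℝ) < M := by exact_mod_cast hM
  have : Nonempty (Fin (M ^ 1) × Bool) := ⟨(⟨0, by positivity⟩, true)⟩
  -- exchange the two index sets
  have h1 : pr (fun y : Fin R → Ed k m → Fin (M ^ 1) × Bool =>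
      ∀ e, (e, true) ∈ plH H w' → ∃ j, nz (y j) e = true) ≤ ((R:ℝ) / (2 * M)) ^ H.card := by
    have h2 := pr_equiv (Equiv.piComm (fun (_ : Fin R) (_ : Ed k m) => Fin (M ^ 1) × Bool))
      (fun z : Ed k m → Fin R → Fin (M ^ 1) × Bool => ∀ e, (e, true) ∈ plH H w' →
        ∃ j, (((z e j).1 : ℕ) < M ^ (1 - 1) ∧ (z e j).2 = true))
    have h3 : pr (fun y : Fin R → Ed k m → Fin (M ^ 1) × Bool =>
        ∀ e, (e, true) ∈ plH H w' → ∃ j, nz (y j) e = true) =
        pr (fun z : Ed k m → Fin R → Fin (M ^ 1) × Bool => ∀ e, (e, true) ∈ plH H w' →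
          ∃ j, (((z e j).1 : ℕ) < M ^ (1 - 1) ∧ (z e j).2 = true)) := by
      rw [← h2]
      apply pr_congr
      intro y
      simp only [nz, decide_eq_true_eq]
      rfl
    rw [h3]
    rw [pr_pi (fun (e : Ed k m) (z : Fin R → Fin (M ^ 1) × Bool) => (e, true) ∈ plH H w' →
          ∃ j, (((z j).1 : ℕ) < M ^ (1 - 1) ∧ (z j).2 = true))]
    have h4 : ∀ e : Ed k m, pr (fun z : Fin R → Fin (M ^ 1) × Bool => (e, true) ∈ plH H w' →
          ∃ j, (((z j).1 : ℕ) < M ^ (1 - 1) ∧ (z j).2 = true)) ≤
          if e ∈ (plH H w').image Prod.fst then (R:ℝ) / (2 * M) else 1 := by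
      intro e
      by_cases he : (e, true) ∈ plH H w'
      · have he' : e ∈ (plH H w').image Prod.fst := Finset.mem_image.2 ⟨_, he, rfl⟩
        rw [if_pos he']
        have h5 : pr (fun z : Fin R → Fin (M ^ 1) × Bool => (e, true) ∈ plH H w' →
            ∃ j, (((z j).1 : ℕ) < M ^ (1 - 1) ∧ (z j).2 = true)) ≤
            pr (fun z : Fin R → Fin (M ^ 1) × Bool =>
              ∃ j ∈ (univ : Finset (Fin R)), (((z j).1 : ℕ) < M ^ (1 - 1) ∧ (z j).2 = true)) := by
          apply pr_mono
          intro z hz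
          obtain ⟨j, hj⟩ := hz he
          exact ⟨j, mem_univ _, hj⟩
        refine h5.trans ((pr_exists_le _ _).trans ?_)
        have h6 : ∀ j ∈ (univ : Finset (Fin R)), pr (fun z : Fin R → Fin (M ^ 1) × Bool =>
            (((z j).1 : ℕ) < M ^ (1 - 1) ∧ (z j).2 = true)) ≤ 1 / (2 * (M:ℝ)) := by
          intro j _
          have h7 := pr_pi (X := Fin R) (Y := Fin (M ^ 1) × Bool)
            (fun j' z => j' = j → ((z.1 : ℕ) < M ^ (1 - 1) ∧ z.2 = true))
          have h8 : pr (fun z : Fin R → Fin (M ^ 1) × Bool =>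
              (((z j).1 : ℕ) < M ^ (1 - 1) ∧ (z j).2 = true)) =
              pr (fun z : Fin R → Fin (M ^ 1) × Bool =>
                ∀ j', j' = j → (((z j').1 : ℕ) < M ^ (1 - 1) ∧ (z j').2 = true)) := by
            apply pr_congr
            intro z
            simp
          rw [h8, h7, ← Finset.mul_prod_erase univ _ (mem_univ j)]
          have h9 : pr (fun z : Fin (M ^ 1) × Bool =>
              j = j → ((z.1 : ℕ) < M ^ (1 - 1) ∧ z.2 = true)) = 1 / (2 * (M:ℝ)) := by
            rw [← pr_good hM]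
            apply pr_congr
            intro z
            simp
          rw [h9]
          have h10 : ∏ x ∈ univ.erase j, pr (fun z : Fin (M ^ 1) × Bool =>
              x = j → ((z.1 : ℕ) < M ^ (1 - 1) ∧ z.2 = true)) ≤ 1 := by
            apply Finset.prod_le_one
            · intro x _
              exact pr_nonneg _
            · intro x _
              exact pr_le_one _
          have h11 : (0:ℝ) ≤ 1 / (2 * (M:ℝ)) := by positivity
          nlinarith
        refine (Finset.sum_le_sum h6).trans (le_of_eq ?_)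
        rw [Finset.sum_const, Finset.card_univ, Fintype.card_fin, nsmul_eq_mul]
        ring
      · by_cases he' : e ∈ (plH H w').image Prod.fst
        · exfalso
          obtain ⟨⟨e', c⟩, hl, rfl⟩ := Finset.mem_image.1 he'
          have h5 := (mem_planted.1 (Finset.mem_filter.1 hl).1).2.2
          simp only at h5
          rw [h5] at hl
          exact he hl
        · rw [if_neg he']
          exact pr_le_one _
    refine (Finset.prod_le_prod (fun e _ => pr_nonneg _) (fun e _ => h4 e)).trans (le_of_eq ?_)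
    rw [Finset.prod_ite_mem, Finset.univ_inter, Finset.prod_const]
    congr 1
    rw [← card_plH H w']
    apply Finset.card_image_of_injOn
    rintro ⟨e, c⟩ hl ⟨e', c'⟩ hl' h
    have h5 := (mem_planted.1 (Finset.mem_filter.1 (Finset.mem_coe.1 hl)).1).2.2
    have h6 := (mem_planted.1 (Finset.mem_filter.1 (Finset.mem_coe.1 hl')).1).2.2
    simp only at h h5 h6
    rw [h, h5, h6]
  have h2 : ∀ ω : Om k m M R, (∀ e, (e, true) ∈ plH H w' → PP ω R e = true) ↔
      (∀ e, (e, true) ∈ plH H w' → ∃ j, nz (ω.2 j) e = true) := by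
    intro ω
    refine forall_congr' fun e => imp_congr_right fun _ => ?_
    simp only [PP, decide_eq_true_eq]
    constructor
    · rintro ⟨j, -, hn⟩
      exact ⟨j, hn⟩
    · rintro ⟨j, hn⟩
      exact ⟨j, j.2, hn⟩
  rw [pr_congr h2]
  exact pr_second_le (fun y : Fin R → Ed k m → Fin (M ^ 1) × Bool =>
    ∀ e, (e, true) ∈ plH H w' → ∃ j, nz (y j) e = true) (by positivity) h1

/-- The system with the allowed pairs `a` has a solution in the positions `H`. -/
def SolH (a : Ed k m → Bool) : Prop :=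
  ∃ w : Bool × Fin k → Wd m, ∀ e, (e, true) ∈ plH H w → a e = true

/-- **Lower bound along the chain.** -/
theorem chain_lower (hM : 0 < M) {G : Finset (Ed k m × Bool) → Prop} {w : ℕ} {ε η ζ : ℝ}
    (hS : Sc (PD k m M) (QH H M) G w ε η ζ 1) {t r : ℕ} {L : List ((Ed k m → Bool) → Bool)}
    (hL : NegCircuit t r L) {F : (Ed k m → Bool) → Bool} (hF : Source L F)
    (hacc : ∀ a, SolH H a → F a = true) (hrej : ∀ a, ¬ SolH H a → F a = false)
    (hR : 2 ^ r * (r + 1) < R) :
    1 ≤ (2 ^ r * (r + 1)) * (R * (t * (etaOr G ε + η) + ζ)) +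
      (2 ^ m) ^ (2 * k) * ((R:ℝ) / (2 * M)) ^ H.card := by
  classical
  have he0 := etaOr_nonneg G hS.ε0
  have hη0 := hS.η0
  have hζ0 := hS.ζ0
  have : Nonempty (Fin (M ^ 1) × Bool) := ⟨(⟨0, by positivity⟩, true)⟩
  have hne : Nonempty (Om k m M R) :=
    ⟨(fun _ _ => true, fun _ _ => (⟨0, by positivity⟩, true))⟩
  obtain ⟨𝒢, h𝒢, hdiff⟩ := neg_family hL hF
  by_contra hcon
  push Not at hcon
  -- the bad event
  have hbad : pr (fun ω : Om k m M R =>
      (∃ bj ∈ (univ : Finset ((Fin r → Bool) × Option (Fin r))), ∃ i ∈ (univ : Finset (Fin R)),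
        (𝒢 bj.1 bj.2 (QQ H ω i) = true ∧ 𝒢 bj.1 bj.2 (PP ω (i + 1)) = false)) ∨
      ∃ w' ∈ (univ : Finset (Bool × Fin k → Wd m)), ∀ e, (e, true) ∈ plH H w' →
        PP ω R e = true) < 1 := by
    refine lt_of_le_of_lt (pr_or_le _ _) (lt_of_le_of_lt (add_le_add ?_ ?_) hcon)
    · refine (pr_exists_le _ _).trans ?_
      have h1 : ∀ bj ∈ (univ : Finset ((Fin r → Bool) × Option (Fin r))),
          pr (fun ω : Om k m M R => ∃ i ∈ (univ : Finset (Fin R)),
            (𝒢 bj.1 bj.2 (QQ H ω i) = true ∧ 𝒢 bj.1 bj.2 (PP ω (i + 1)) = false)) ≤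
          R * (t * (etaOr G ε + η) + ζ) := by
        intro bj _
        obtain ⟨L', hL', hg'⟩ := h𝒢 bj.1 bj.2
        refine (pr_exists_le _ _).trans ?_
        refine (Finset.sum_le_sum (fun i _ => pr_level_le H hM hS hL' hg' i)).trans (le_of_eq ?_)
        rw [Finset.sum_const, Finset.card_univ, Fintype.card_fin, nsmul_eq_mul]
      refine (Finset.sum_le_sum h1).trans (le_of_eq ?_)
      rw [Finset.sum_const, Finset.card_univ, Fintype.card_prod, Fintype.card_fun,
        Fintype.card_bool, Fintype.card_option, Fintype.card_fin, nsmul_eq_mul]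
      push_cast
      ring
    · refine (pr_exists_le _ _).trans ?_
      refine (Finset.sum_le_sum (fun w' _ => pr_sol_le H hM w')).trans (le_of_eq ?_)
      rw [Finset.sum_const, Finset.card_univ, nsmul_eq_mul]
      have h3 : Fintype.card (Bool × Fin k → Wd m) = (2 ^ m) ^ (2 * k) := by
        rw [Fintype.card_fun]
        simp
      rw [h3]
      push_cast
      rfl
  obtain ⟨ω, hω⟩ := exists_not_of_pr_lt_one hbad
  push Not at hω
  obtain ⟨hω1, hω2⟩ := hω
  -- the value changes at every level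
  have hflip : ∀ i : Fin R, F (PP ω i) ≠ F (QQ H ω i) := by
    intro i
    have h1 : F (PP ω i) = false := by
      apply hrej
      rintro ⟨w', hw'⟩
      obtain ⟨e, he, hne⟩ := hω2 w' (mem_univ _)
      exact hne (PP_mono ω i.2.le e (hw' e he))
    have h2 : F (QQ H ω i) = true := by
      apply hacc
      refine ⟨ω.1, fun e he => ?_⟩
      simp [QQ, he]
    rw [h1, h2]
    simp
  have hcover : (univ : Finset (Fin R)) ⊆
      (univ : Finset ((Fin r → Bool) × Option (Fin r))).biUnion (fun bj =>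
        univ.filter (fun i : Fin R => 𝒢 bj.1 bj.2 (PP ω i) ≠ 𝒢 bj.1 bj.2 (QQ H ω i))) := by
    intro i _
    obtain ⟨b, j, hbj⟩ := hdiff _ _ (hflip i)
    rw [Finset.mem_biUnion]
    exact ⟨(b, j), mem_univ _, by simpa using hbj⟩
  have h1 := (Finset.card_le_card hcover).trans (Finset.card_biUnion_le_card_mul _ _ 1 (by
    intro bj _
    obtain ⟨L', hL', hg'⟩ := h𝒢 bj.1 bj.2
    apply flips_le_one H hL' hg' ω
    rintro i ⟨h2, h3⟩
    exact hω1 bj (mem_univ _) i (mem_univ _) h2 h3))
  rw [Finset.card_univ, Fintype.card_fin, Finset.card_univ, Fintype.card_prod, Fintype.card_fun,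
    Fintype.card_bool, Fintype.card_option, Fintype.card_fin, mul_one] at h1
  omega

end chain

end Pool.Agent.H24
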