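import Pool.Agent.H24.Mult
import Pool.Agent.H24.Chain

/-!
Circuits with NOT gates on a chain of noise sets: the expected number of changes of a monotone
function is at most one, up to a small error.
-/

namespace Pool.Agent.H24

open Finset

set_option linter.unusedSectionVars false

/-! ### Probability -/

theorem pr_prod_eq {A B : Type*} [Fintype A] [Fintype B] (E : A × B → Prop) :
    pr E = (∑ b, pr (fun a => E (a, b))) / (Fintype.card B : ℝ) := by
  unfold pr ex
  rw [← Finset.sum_div, div_div, Fintype.sum_prod_type_right, Fintype.card_prod, Nat.cast_mul]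

theorem pr_fiber_le2 {A B : Type*} [Fintype A] [Fintype B] {E E' : A × B → Prop} {c : ℝ}
    (hc : 0 ≤ c) (h : ∀ b, pr (fun a => E (a, b)) ≤ pr (fun a => E' (a, b)) + c) :
    pr E ≤ pr E' + c := by
  rw [pr_prod_eq E, pr_prod_eq E']
  have h1 : ∑ b, pr (fun a => E (a, b)) ≤
      ∑ b, pr (fun a => E' (a, b)) + (Fintype.card B : ℝ) * c := by
    refine (Finset.sum_le_sum (fun b _ => h b)).trans (le_of_eq ?_)
    rw [Finset.sum_add_distrib, Finset.sum_const, Finset.card_univ, nsmul_eq_mul]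
  rcases Nat.eq_zero_or_pos (Fintype.card B) with h0 | h0
  · rw [h0, Nat.cast_zero, div_zero, div_zero]
    linarith
  · have hB : (0:ℝ) < Fintype.card B := by exact_mod_cast h0
    rw [div_add' _ _ _ hB.ne', div_le_div_iff_of_pos_right hB]
    linarith

/-- Conditioning on all coordinates but one. -/
theorem pr_split_le2 {W Y : Type*} [Fintype W] [Fintype Y] {R : ℕ} (i : Fin R)
    (E E' : (W × Y) × ({j : Fin R // j ≠ i} → Y) → Prop) {c : ℝ} (hc : 0 ≤ c)
    (h : ∀ ρ, pr (fun p : W × Y => E (p, ρ)) ≤ pr (fun p : W × Y => E' (p, ρ)) + c) :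
    pr (fun ω : W × (Fin R → Y) => E ((ω.1, ω.2 i), fun j => ω.2 j)) ≤
      pr (fun ω : W × (Fin R → Y) => E' ((ω.1, ω.2 i), fun j => ω.2 j)) + c := by
  classical
  let e1 : W × (Fin R → Y) ≃ (W × Y) × ({j : Fin R // j ≠ i} → Y) :=
    (Equiv.prodCongr (Equiv.refl _) (Equiv.funSplitAt i _)).trans (Equiv.prodAssoc _ _ _).symm
  have h1 := pr_equiv e1 E
  have h2 := pr_equiv e1 E'
  have h3 : pr E ≤ pr E' + c := pr_fiber_le2 hc h
  rw [← h1, ← h2] at h3
  exact h3

theorem pr_add_le_of_disjoint {Ω : Type*} [Fintype Ω] {E E' E'' : Ω → Prop}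
    (h1 : ∀ ω, E ω → E'' ω) (h2 : ∀ ω, E' ω → E'' ω) (h3 : ∀ ω, E ω → ¬ E' ω) :
    pr E + pr E' ≤ pr E'' := by
  unfold pr
  rw [← ex_add]
  apply ex_mono
  intro ω
  by_cases hE : E ω
  · have := h3 ω hE
    have := h1 ω hE
    simp [*]
  · by_cases hE' : E' ω
    · have := h2 ω hE'
      simp [*]
    · simp only [hE, hE', if_false, add_zero]
      split_ifs <;> norm_num

/-! ### The abstract count of changes -/

section count

variable {V : Type} {Ω : Type*} [Fintype Ω] {R : ℕ}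

theorem tele_le (P : ℕ → Ω → V → Bool)
    (hPP : ∀ i ω v, P i ω v = true → P (i + 1) ω v = true) {t : ℕ}
    {L : List ((V → Bool) → Bool)} (hL : NegCircuit t 0 L) {g : (V → Bool) → Bool}
    (hg : Source L g) (n : ℕ) :
    ∑ i ∈ Finset.range n, pr (fun ω => g (P i ω) = false ∧ g (P (i + 1) ω) = true) ≤
      pr (fun ω => g (P n ω) = true) := by
  induction n with
  | zero =>
    rw [Finset.sum_range_zero]
    exact pr_nonneg _
  | succ n ih =>
    rw [Finset.sum_range_succ]
    refine (add_le_add ih (le_refl _)).trans (pr_add_le_of_disjoint ?_ ?_ ?_)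
    · intro ω h
      exact mono_of_source hL hg (fun v hv => hPP n ω v hv) h
    · intro ω h
      exact h.2
    · intro ω h h'
      rw [h] at h'
      exact Bool.noConfusion h'.1

theorem chain_count (P Q : ℕ → Ω → V → Bool)
    (hPQ : ∀ i ω v, P i ω v = true → Q i ω v = true)
    (hPP : ∀ i ω v, P i ω v = true → P (i + 1) ω v = true) {t r : ℕ} {c : ℝ}
    (hlev : ∀ i, i < R → ∀ (L : List ((V → Bool) → Bool)) (g : (V → Bool) → Bool),
      NegCircuit t 0 L → Source L g →
      pr (fun ω => g (P i ω) = false ∧ g (Q i ω) = true) ≤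
        pr (fun ω => g (P i ω) = false ∧ g (P (i + 1) ω) = true) + c)
    {L : List ((V → Bool) → Bool)} (hL : NegCircuit t r L) {F : (V → Bool) → Bool}
    (hF : Source L F) :
    ∑ i ∈ Finset.range R, pr (fun ω => F (P i ω) ≠ F (Q i ω)) ≤
      ((2 ^ r * (r + 1) : ℕ) : ℝ) * (1 + R * c) := by
  classical
  obtain ⟨𝒢, h𝒢, hdiff⟩ := neg_family hL hF
  have h1 : ∀ i ∈ Finset.range R, pr (fun ω => F (P i ω) ≠ F (Q i ω)) ≤
      ∑ bj : (Fin r → Bool) × Option (Fin r),
        pr (fun ω => 𝒢 bj.1 bj.2 (P i ω) = false ∧ 𝒢 bj.1 bj.2 (Q i ω) = true) := by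
    intro i _
    have h2 := pr_exists_le (univ : Finset ((Fin r → Bool) × Option (Fin r)))
      (fun bj (ω : Ω) => 𝒢 bj.1 bj.2 (P i ω) = false ∧ 𝒢 bj.1 bj.2 (Q i ω) = true)
    refine le_trans (pr_mono ?_) h2
    intro ω hω
    obtain ⟨b, j, hbj⟩ := hdiff _ _ hω
    refine ⟨(b, j), mem_univ _, ?_⟩
    obtain ⟨L', hL', hg'⟩ := h𝒢 b j
    have hmono : 𝒢 b j (P i ω) = true → 𝒢 b j (Q i ω) = true :=
      fun h => mono_of_source hL' hg' (fun v hv => hPQ i ω v hv) h
    change 𝒢 b j (P i ω) = false ∧ 𝒢 b j (Q i ω) = true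
    cases h3 : 𝒢 b j (P i ω)
    · refine ⟨rfl, ?_⟩
      cases h4 : 𝒢 b j (Q i ω)
      · rw [h3, h4] at hbj
        exact absurd rfl hbj
      · rfl
    · rw [h3, hmono h3] at hbj
      exact absurd rfl hbj
  refine (Finset.sum_le_sum h1).trans ?_
  rw [Finset.sum_comm]
  have h2 : ∀ bj ∈ (univ : Finset ((Fin r → Bool) × Option (Fin r))),
      ∑ i ∈ Finset.range R,
        pr (fun ω => 𝒢 bj.1 bj.2 (P i ω) = false ∧ 𝒢 bj.1 bj.2 (Q i ω) = true) ≤ 1 + R * c := by
    intro bj _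
    obtain ⟨L', hL', hg'⟩ := h𝒢 bj.1 bj.2
    have h3 : ∀ i ∈ Finset.range R,
        pr (fun ω => 𝒢 bj.1 bj.2 (P i ω) = false ∧ 𝒢 bj.1 bj.2 (Q i ω) = true) ≤
          pr (fun ω => 𝒢 bj.1 bj.2 (P i ω) = false ∧ 𝒢 bj.1 bj.2 (P (i + 1) ω) = true) + c :=
      fun i hi => hlev i (Finset.mem_range.1 hi) L' _ hL' hg'
    refine (Finset.sum_le_sum h3).trans ?_
    rw [Finset.sum_add_distrib, Finset.sum_const, Finset.card_range, nsmul_eq_mul]
    have h4 := (tele_le P hPP hL' hg' R).trans (pr_le_one _)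
    linarith
  refine (Finset.sum_le_sum h2).trans (le_of_eq ?_)
  rw [Finset.sum_const, Finset.card_univ, Fintype.card_prod, Fintype.card_fun,
    Fintype.card_bool, Fintype.card_option, Fintype.card_fin, nsmul_eq_mul]

end count

/-! ### Independent noise -/

section noise

variable {A X : Type} [Fintype A] [Nonempty A] [Fintype X] [DecidableEq X] {M R : ℕ}

/-- positive literals -/
def litp (S : Finset X) : Finset (X × Bool) := S.image (fun x => (x, true))

theorem mem_litp {S : Finset X} {x : X} {b : Bool} : (x, b) ∈ litp S ↔ x ∈ S ∧ b = true := by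
  simp only [litp, Finset.mem_image, Prod.mk.injEq]
  constructor
  · rintro ⟨y, hy, rfl, rfl⟩
    exact ⟨hy, rfl⟩
  · rintro ⟨h, rfl⟩
    exact ⟨x, h, rfl, rfl⟩

theorem cons_litp (S : Finset X) : Cons (litp S) := by
  intro x hx
  have := (mem_litp.1 hx.2).2
  simp at this

/-- one position is noise -/
def nzX (y : X → Fin (M ^ 1) × Bool) (x : X) : Bool :=
  decide (((y x).1 : ℕ) < M ^ (1 - 1) ∧ (y x).2 = true)

/-- the sample space of the chain -/
abbrev OmX (A X : Type) (M R : ℕ) : Type := A × (Fin R → X → Fin (M ^ 1) × Bool)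

/-- the union of the first `i` noise sets -/
def PPX (i : ℕ) (ω : OmX A X M R) (x : X) : Bool :=
  decide (∃ j : Fin R, (j : ℕ) < i ∧ nzX (ω.2 j) x = true)

variable (pl : A → Finset X)

/-- this union together with the planted set -/
def QQX (i : ℕ) (ω : OmX A X M R) (x : X) : Bool := PPX i ω x || decide (x ∈ pl ω.1)

theorem PPX_succ (i : ℕ) (ω : OmX A X M R) (x : X) (h : PPX i ω x = true) :
    PPX (i + 1) ω x = true := by
  simp only [PPX, decide_eq_true_eq] at h ⊢
  obtain ⟨j, hj, hn⟩ := h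
  exact ⟨j, by omega, hn⟩

theorem PPX_mono {i i' : ℕ} (hi : i ≤ i') (ω : OmX A X M R) (x : X) (h : PPX i ω x = true) :
    PPX i' ω x = true := by
  simp only [PPX, decide_eq_true_eq] at h ⊢
  obtain ⟨j, hj, hn⟩ := h
  exact ⟨j, by omega, hn⟩

/-- the dense sets -/
def PDX (A X : Type) [Fintype A] [Fintype X] [DecidableEq X] (M : ℕ) (i : ℕ)
    (ω : Smp A X M 1) : Finset (X × Bool) := if i = 0 then Qs M 1 1 ω else ∅

/-- the sparse sets -/
def QDX (M : ℕ) (i : ℕ) (ω : Smp A X M 1) : Finset (X × Bool) :=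
  if i = 0 then Qs M 1 1 ω else litp (pl ω.1)

/-- admissible sets: at most `w` positions of one planted set -/
def GS (w : ℕ) : Finset (X × Bool) → Prop := fun T => (∃ a, T ⊆ litp (pl a)) ∧ T.card ≤ w

theorem admPred_GS (w : ℕ) : AdmPred (GS pl w) w := by
  refine ⟨?_, ?_, ?_, ?_⟩
  · rintro S T h ⟨⟨a, ha⟩, hT⟩
    exact ⟨⟨a, h.trans ha⟩, (Finset.card_le_card h).trans hT⟩
  · rintro T ⟨⟨a, ha⟩, -⟩
    exact (cons_litp _).mono ha
  · rintro T ⟨-, hT⟩
    exact hT
  · exact ⟨⟨Classical.arbitrary A, Finset.empty_subset _⟩, by simp⟩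

/-- The data for spread planted sets. -/
theorem sc_spread {w e M g : ℕ} (hw : 1 ≤ w) (hwe : w ≤ e) (hM : 0 < M) {q : ℝ} (hq : 0 ≤ q)
    (hsp : ∀ T : Finset (X × Bool), (∃ a, T ⊆ litp (pl a)) → T.card ≤ 2 * w →
      pr (fun a => T ⊆ litp (pl a)) ≤ q ^ T.card)
    (hκq : 82944 * (e:ℝ) * w * M * q ≤ (1 / 2) ^ g) (hg : 3 ≤ g) {ε : ℝ}
    (hε : (w:ℝ) * (1 / 2) ^ e ≤ ε) (hε1 : ε < 1 / 2) :
    Sc (Ω := Smp A X M 1) (PDX A X M) (QDX pl M) (GS pl w) w ε
      (((w:ℝ) + 1) ^ 2 * 2 ^ w * ((1 / 2) ^ g) ^ (w + 1)) (1 / 2) 1 ∧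
    ∀ 𝒜 : Finset (Finset (X × Bool)), CF (PDX A X M 0) (GS pl w) ε 𝒜 →
      pr (fun ω : Smp A X M 1 => ∃ T ∈ 𝒜, T ⊆ QDX pl M 1 ω) ≤
        pr (fun ω => ∃ T ∈ 𝒜, T ⊆ PDX A X M 0 ω) := by
  have he0 : 0 < e := by omega
  have hMr : (0:ℝ) < M := by exact_mod_cast hM
  have hM1 : (1:ℝ) ≤ M := by exact_mod_cast hM
  have her : (0:ℝ) < e := by exact_mod_cast he0
  have her1 : (1:ℝ) ≤ e := by exact_mod_cast he0
  have hwr : (0:ℝ) < w := by exact_mod_cast (show 0 < w by omega)
  have hwr1 : (1:ℝ) ≤ w := by exact_mod_cast hw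
  have : Nonempty (Fin (M ^ 1) × Bool) := ⟨(⟨0, by positivity⟩, true)⟩
  have hε0 : 0 ≤ ε := le_trans (by positivity) hε
  set κ : ℝ := 82944 * e * w * M with hκdef
  have hκ0 : 0 < κ := by positivity
  have hrsp : RSP (fun ω : Smp A X M 1 => Qs M 1 1 ω) w ε κ := by
    intro 𝒯 hne r hr hrw hcard hcons hspread
    have h := robust_sunflower_hom (fun ω : Smp A X M 1 => Qs M 1 1 ω)
      (p := 1 / (2 * (M:ℝ))) (by positivity)
      (by rw [div_le_one (by positivity)]; linarith) (by omega) hwe (kInd_Qs hM _) 𝒯 hne hr hrw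
      hcard hcons (κ := κ) (β := 2) (by norm_num) ?_ hspread
    · exact h.trans hε
    · apply le_of_eq
      rw [hκdef]
      field_simp
      ring
  -- the bound on planted sets
  have hplant : ∀ T : Finset (X × Bool), T.card ≤ 2 * w →
      pr (fun ω : Smp A X M 1 => T ⊆ litp (pl ω.1)) ≤ q ^ T.card := by
    intro T hT
    by_cases hex : ∃ a, T ⊆ litp (pl a)
    · rw [pr_first hM (fun a => T ⊆ litp (pl a))]
      exact hsp T hex hT
    · have : pr (fun ω : Smp A X M 1 => T ⊆ litp (pl ω.1)) ≤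
          pr (fun _ : Smp A X M 1 => False) :=
        pr_mono (fun ω h => hex ⟨_, h⟩)
      rw [pr_false] at this
      exact this.trans (by positivity)
  have hg8 : ((1:ℝ) / 2) ^ g ≤ 1 / 8 := by
    calc ((1:ℝ) / 2) ^ g ≤ (1 / 2) ^ 3 := pow_le_pow_of_le_one (by norm_num) (by norm_num) hg
      _ = 1 / 8 := by norm_num
  have hκq8 : κ * q ≤ 1 / 8 := hκq.trans hg8
  have hqp : 4 * (q * (1 + κ * (1 / (2 * (M:ℝ))))) ≤ 1 / (2 * (M:ℝ)) := by
    have h1 : κ * (1 / (2 * (M:ℝ))) = 41472 * e * w := by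
      rw [hκdef]
      field_simp
      ring
    rw [h1, le_div_iff₀ (by positivity)]
    have h2 : (1:ℝ) ≤ e * w := one_le_mul_of_one_le_of_one_le her1 hwr1
    calc 4 * (q * (1 + 41472 * e * w)) * (2 * M) = 8 * (M * q) * (1 + 41472 * (e * w)) := by ring
      _ ≤ 8 * (M * q) * (e * w + 41472 * (e * w)) := by
          gcongr
      _ ≤ 8 * (82944 * e * w * M * q) := by
          have h3 : 0 ≤ (M:ℝ) * q * (e * w) := by positivity
          nlinarith
      _ ≤ 1 := by
          rw [hκdef] at hκq8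
          linarith
  have hPQ0 : PDX A X M 0 = fun ω => Qs M 1 1 ω := by
    funext ω
    simp [PDX]
  have hQ1 : QDX pl M (0 + 1) = fun ω : Smp A X M 1 => litp (pl ω.1) := by
    funext ω
    simp [QDX]
  have hκq4 : κ * q ≤ 1 / 4 := by linarith
  have hplG : ∀ T : Finset (X × Bool), GS pl w T → T ≠ ∅ →
      pr (fun ω : Smp A X M 1 => T ⊆ litp (pl ω.1)) ≤ q ^ T.card := by
    intro T hT _
    have h1 := hT.2
    exact hplant T (by omega)
  refine ⟨⟨admPred_GS pl w, ?_, hε0, by linarith, by positivity, by norm_num, ?_, ?_, ?_, ?_⟩, ?_⟩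
  · intro i ω
    unfold PDX QDX
    split_ifs
    · exact Finset.Subset.refl _
    · exact Finset.empty_subset _
  · intro i hi l
    have hi0 : i = 0 := by omega
    subst hi0
    have h1 : pr (fun ω : Smp A X M 1 => l ∈ Qs M 1 1 ω) =
        1 / (2 * (M:ℝ)) := pr_lit_le M 1 (le_refl 1) (kInd_Qs hM 1) l
    have h2 : pr (fun ω : Smp A X M 1 => l ∉ PDX A X M 0 ω) =
        1 - 1 / (2 * (M:ℝ)) := by
      rw [← h1, ← pr_compl]
      apply pr_congr
      intro ω
      simp [PDX]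
    rw [h2]
    have h3 : 1 / (2 * (M:ℝ)) ≤ 1 / 2 := by
      rw [div_le_div_iff₀ (by positivity) (by norm_num)]
      linarith
    linarith
  · intro l
    by_cases hl : ∃ a, l ∈ litp (pl a)
    · left
      obtain ⟨a, ha⟩ := hl
      exact ⟨⟨a, by simpa using ha⟩, by simpa using hw⟩
    · right
      intro i _ ω h
      simp only [QDX, Nat.add_eq_zero_iff, one_ne_zero, and_false, if_false] at h
      exact hl ⟨_, h⟩
  · intro i hi B C hB hC
    have hi0 : i = 0 := by omega
    subst hi0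
    rw [hPQ0] at hB hC
    rw [hQ1]
    refine and_error' (admPred_GS pl w) hκ0 hrsp hε0 hB hC (by positivity) ?_
    intro S T hS hT hST
    have hc1 : (S ∪ T).card ≤ 2 * w := by
      have := Finset.card_union_le S T
      have := hS.2
      have := hT.2
      omega
    by_cases hex : ∃ a, S ∪ T ⊆ litp (pl a)
    · have hc2 : w < (S ∪ T).card := by
        by_contra hle
        exact hST ⟨hex, by omega⟩
      refine (hplant _ hc1).trans ?_
      have h1 : q ^ (S ∪ T).card = (κ * q) ^ (S ∪ T).card * (κ⁻¹) ^ (S ∪ T).card := by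
        rw [← mul_pow]
        congr 1
        field_simp
      rw [h1]
      apply mul_le_mul_of_nonneg_right _ (by positivity)
      calc (κ * q) ^ (S ∪ T).card ≤ (κ * q) ^ (w + 1) :=
            pow_le_pow_of_le_one (by positivity) (by linarith) hc2
        _ ≤ ((1 / 2) ^ g) ^ (w + 1) := by gcongr
    · have : pr (fun ω : Smp A X M 1 => S ∪ T ⊆ litp (pl ω.1)) ≤
          pr (fun _ : Smp A X M 1 => False) :=
        pr_mono (fun ω h => hex ⟨_, h⟩)
      rw [pr_false] at this
      exact this.trans (by positivity)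
  · intro i hi 𝒜 h𝒜 hne
    have hi0 : i = 0 := by omega
    subst hi0
    rw [hPQ0] at h𝒜
    rw [hQ1]
    have h1 := pr_family_le (admPred_GS pl w) h𝒜.adm hne hplG
    have h2 : ∀ l ∈ Finset.range w,
        (((Mins 𝒜).filter (fun T => T.card = l + 1)).card : ℝ) * q ^ (l + 1) ≤
          (1 / 4) ^ (l + 1) :=
      fun l _ => card_mins_pow_le (admPred_GS pl w) hκ0 hrsp h𝒜 hq hκq4 (l + 1)
    have h3 := Finset.sum_le_sum h2
    have h4 := sum_quarter_le w
    linarith
  · intro 𝒜 h𝒜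
    rw [hPQ0] at h𝒜 ⊢
    have hQ1' : QDX pl M 1 = fun ω : Smp A X M 1 => litp (pl ω.1) := hQ1
    rw [hQ1']
    exact planted_le_noise (admPred_GS pl w) hκ0 hrsp (p := 1 / (2 * (M:ℝ))) (by positivity)
      (kInd_Qs hM _) h𝒜 hq hplG hqp

/-- **Every level of the chain.** -/
theorem pr_level_le2 (hM : 0 < M) {G : Finset (X × Bool) → Prop} {w : ℕ} {ε η : ℝ}
    (hS : Sc (Ω := Smp A X M 1) (PDX A X M) (QDX pl M) G w ε η (1 / 2) 1)
    (hfin : ∀ 𝒜 : Finset (Finset (X × Bool)), CF (PDX A X M 0) G ε 𝒜 →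
      pr (fun ω : Smp A X M 1 => ∃ T ∈ 𝒜, T ⊆ QDX pl M 1 ω) ≤
        pr (fun ω => ∃ T ∈ 𝒜, T ⊆ PDX A X M 0 ω))
    {t : ℕ} {L : List ((X → Bool) → Bool)} (hL : NegCircuit t 0 L) {g : (X → Bool) → Bool}
    (hg : Source L g) (i : Fin R) :
    pr (fun ω : OmX A X M R => g (PPX i ω) = false ∧ g (QQX pl i ω) = true) ≤
      pr (fun ω : OmX A X M R => g (PPX i ω) = false ∧ g (PPX (i + 1) ω) = true) +
        2 * (t * (etaOr G ε + η)) := by
  classical
  have he0 := etaOr_nonneg G hS.ε0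
  have hη0 := hS.η0
  have hne : Nonempty (Fin (M ^ 1) × Bool) := ⟨(⟨0, by positivity⟩, true)⟩
  -- split off the noise set number `i`
  let B : ({j : Fin R // j ≠ i} → (X → Fin (M ^ 1) × Bool)) → X → Bool := fun ρ x =>
    decide (∃ j : {j : Fin R // j ≠ i}, ((j : Fin R) : ℕ) < i ∧ nzX (ρ j) x = true)
  let E : (Smp A X M 1) × ({j : Fin R // j ≠ i} → (X → Fin (M ^ 1) × Bool)) → Prop := fun p =>
    g (B p.2) = false ∧ g (fun x => B p.2 x || decide (x ∈ pl p.1.1)) = true
  let E' : (Smp A X M 1) × ({j : Fin R // j ≠ i} → (X → Fin (M ^ 1) × Bool)) → Prop := fun p =>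
    g (B p.2) = false ∧ g (fun x => B p.2 x || nzX p.1.2 x) = true
  have hback : ∀ ω : OmX A X M R, PPX i ω = B (fun j => ω.2 j) := by
    intro ω
    funext x
    simp only [PPX, B]
    congr 1
    apply propext
    constructor
    · rintro ⟨j, hj, hn⟩
      refine ⟨⟨j, fun h => ?_⟩, hj, hn⟩
      rw [h] at hj
      omega
    · rintro ⟨j, hj, hn⟩
      exact ⟨j, hj, hn⟩
  have h1 : pr (fun ω : OmX A X M R => g (PPX i ω) = false ∧ g (QQX pl i ω) = true) =
      pr (fun ω : OmX A X M R => E ((ω.1, ω.2 i), fun j => ω.2 j)) := by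
    apply pr_congr
    intro ω
    have h2 : QQX pl i ω = fun x => B (fun j => ω.2 j) x || decide (x ∈ pl ω.1) := by
      funext x
      rw [QQX, hback ω]
    rw [h2, hback ω]
  have h1' : pr (fun ω : OmX A X M R => g (PPX i ω) = false ∧ g (PPX (i + 1) ω) = true) =
      pr (fun ω : OmX A X M R => E' ((ω.1, ω.2 i), fun j => ω.2 j)) := by
    apply pr_congr
    intro ω
    have h3 : PPX (i + 1) ω = fun x => B (fun j => ω.2 j) x || nzX (ω.2 i) x := by
      funext x
      rw [← hback ω, Bool.eq_iff_iff, Bool.or_eq_true]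
      simp only [PPX, decide_eq_true_eq]
      constructor
      · rintro ⟨j, hj, hn⟩
        rcases Nat.lt_succ_iff_lt_or_eq.1 hj with h | h
        · exact Or.inl ⟨j, h, hn⟩
        · have : j = i := Fin.ext h
          rw [this] at hn
          exact Or.inr hn
      · rintro (⟨j, hj, hn⟩ | h)
        · exact ⟨j, by omega, hn⟩
        · exact ⟨i, by omega, h⟩
    rw [h3, hback ω]
  rw [h1, h1']
  refine pr_split_le2 i E E' (by positivity) ?_
  intro ρ
  -- fixed background
  by_cases hgB : g (B ρ) = true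
  · have h4 : pr (fun p : Smp A X M 1 => E (p, ρ)) ≤ pr (fun _ : Smp A X M 1 => False) := by
      apply pr_mono
      rintro p ⟨h5, -⟩
      change g (B ρ) = false at h5
      rw [hgB] at h5
      exact Bool.noConfusion h5
    rw [pr_false] at h4
    have h5 : 0 ≤ pr (fun p : Smp A X M 1 => E' (p, ρ)) := pr_nonneg _
    have h6 : 0 ≤ 2 * (t * (etaOr G ε + η)) := by positivity
    linarith
  · rw [Bool.not_eq_true] at hgB
    let θ : (X → Bool) → (X → Bool) := fun x e => B ρ e || x e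
    have hθ : ∀ e, (∃ v, (fun a => θ a e) = fun a => a v) ∨
        ∃ c : Bool, (fun a => θ a e) = fun _ => c := by
      intro e
      by_cases hB : B ρ e = true
      · right
        exact ⟨true, by funext a; simp [θ, hB]⟩
      · left
        refine ⟨e, ?_⟩
        funext a
        rw [Bool.not_eq_true] at hB
        simp [θ, hB]
    have hL' := circuit_pos (circuit_subst θ hθ hL)
    have hF' := source_pos (source_subst θ hθ hg)
    have : Nonempty (Smp A X M 1) := inferInstance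
    have h4 := level_le hS hfin hL' hF'
    have h5 : pr (fun p : Smp A X M 1 => E (p, ρ)) =
        pr (fun ω => ev (pos (fun a => g (θ a))) (QDX pl M 1 ω) = true) := by
      apply pr_congr
      intro ω
      have h6 : ev (pos (fun a => g (θ a))) (QDX pl M 1 ω) =
          g (fun x => B ρ x || decide (x ∈ pl ω.1)) := by
        have h7 : QDX pl M 1 ω = litp (pl ω.1) := by simp [QDX]
        rw [h7]
        simp only [ev, pos, θ]
        congr 1
        funext x
        congr 1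
        rw [decide_eq_decide, mem_litp]
        simp
      rw [h6]
      change (g (B ρ) = false ∧ _) ↔ _
      rw [hgB]
      simp
    have h5' : pr (fun p : Smp A X M 1 => E' (p, ρ)) =
        pr (fun ω => ev (pos (fun a => g (θ a))) (PDX A X M 0 ω) = true) := by
      apply pr_congr
      intro ω
      have h6 : ev (pos (fun a => g (θ a))) (PDX A X M 0 ω) =
          g (fun e => B ρ e || nzX ω.2 e) := by
        simp only [ev, pos, PDX, if_true, mem_Qs]
        rfl
      rw [h6]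
      change (g (B ρ) = false ∧ _) ↔ _
      rw [hgB]
      simp
    rw [h5, h5']
    exact h4

/-- The union of all noise sets contains a given set with small probability. -/
theorem pr_sol_le2 (hM : 0 < M) (S : Finset X) :
    pr (fun ω : OmX A X M R => ∀ x ∈ S, PPX R ω x = true) ≤
      ((R:ℝ) / (2 * M)) ^ S.card := by
  classical
  have hMr : (0:ℝ) < M := by exact_mod_cast hM
  have : Nonempty (Fin (M ^ 1) × Bool) := ⟨(⟨0, by positivity⟩, true)⟩
  -- exchange the two index sets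
  have h1 : pr (fun y : Fin R → X → Fin (M ^ 1) × Bool =>
      ∀ x ∈ S, ∃ j, nzX (y j) x = true) ≤ ((R:ℝ) / (2 * M)) ^ S.card := by
    have h2 := pr_equiv (Equiv.piComm (fun (_ : Fin R) (_ : X) => Fin (M ^ 1) × Bool))
      (fun z : X → Fin R → Fin (M ^ 1) × Bool => ∀ x, x ∈ S →
        ∃ j, (((z x j).1 : ℕ) < M ^ (1 - 1) ∧ (z x j).2 = true))
    have h3 : pr (fun y : Fin R → X → Fin (M ^ 1) × Bool =>
        ∀ x ∈ S, ∃ j, nzX (y j) x = true) =
        pr (fun z : X → Fin R → Fin (M ^ 1) × Bool => ∀ x, x ∈ S →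
          ∃ j, (((z x j).1 : ℕ) < M ^ (1 - 1) ∧ (z x j).2 = true)) := by
      rw [← h2]
      apply pr_congr
      intro y
      simp only [nzX, decide_eq_true_eq]
      rfl
    rw [h3]
    rw [pr_pi (fun (x : X) (z : Fin R → Fin (M ^ 1) × Bool) => x ∈ S →
          ∃ j, (((z j).1 : ℕ) < M ^ (1 - 1) ∧ (z j).2 = true))]
    have h4 : ∀ x : X, pr (fun z : Fin R → Fin (M ^ 1) × Bool => x ∈ S →
          ∃ j, (((z j).1 : ℕ) < M ^ (1 - 1) ∧ (z j).2 = true)) ≤
          if x ∈ S then (R:ℝ) / (2 * M) else 1 := by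
      intro x
      by_cases hx : x ∈ S
      · rw [if_pos hx]
        have h5 : pr (fun z : Fin R → Fin (M ^ 1) × Bool => x ∈ S →
            ∃ j, (((z j).1 : ℕ) < M ^ (1 - 1) ∧ (z j).2 = true)) ≤
            pr (fun z : Fin R → Fin (M ^ 1) × Bool =>
              ∃ j ∈ (univ : Finset (Fin R)), (((z j).1 : ℕ) < M ^ (1 - 1) ∧ (z j).2 = true)) := by
          apply pr_mono
          intro z hz
          obtain ⟨j, hj⟩ := hz hx
          exact ⟨j, mem_univ _, hj⟩
        refine h5.trans ((pr_exists_le _ _).trans ?_)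
        have h6 : ∀ j ∈ (univ : Finset (Fin R)), pr (fun z : Fin R → Fin (M ^ 1) × Bool =>
            (((z j).1 : ℕ) < M ^ (1 - 1) ∧ (z j).2 = true)) ≤ 1 / (2 * (M:ℝ)) := by
          intro j _
          have h7 := pr_pi (X := Fin R) (Y := Fin (M ^ 1) × Bool)
            (fun j' z => j' = j → ((z.1 : ℕ) < M ^ (1 - 1) ∧ z.2 = true))
          have h8 : pr (fun z : Fin R → Fin (M ^ 1) × Bool =>
              (((z j).1 : ℕ) < M ^ (1 - 1) ∧ (z j).2 = true)) =
              pr (fun z : Fin R → Fin (M ^ 1) × Bool =>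
                ∀ j', j' = j → (((z j').1 : ℕ) < M ^ (1 - 1) ∧ (z j').2 = true)) := by
            apply pr_congr
            intro z
            simp
          rw [h8, h7, ← Finset.mul_prod_erase univ _ (mem_univ j)]
          have h9 : pr (fun z : Fin (M ^ 1) × Bool =>
              j = j → ((z.1 : ℕ) < M ^ (1 - 1) ∧ z.2 = true)) = 1 / (2 * (M:ℝ)) := by
            rw [← pr_good hM]
            apply pr_congr
            intro z
            simp
          rw [h9]
          have h10 : ∏ x ∈ univ.erase j, pr (fun z : Fin (M ^ 1) × Bool =>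
              x = j → ((z.1 : ℕ) < M ^ (1 - 1) ∧ z.2 = true)) ≤ 1 := by
            apply Finset.prod_le_one
            · intro x _
              exact pr_nonneg _
            · intro x _
              exact pr_le_one _
          have h11 : (0:ℝ) ≤ 1 / (2 * (M:ℝ)) := by positivity
          nlinarith
        refine (Finset.sum_le_sum h6).trans (le_of_eq ?_)
        rw [Finset.sum_const, Finset.card_univ, Fintype.card_fin, nsmul_eq_mul]
        ring
      · rw [if_neg hx]
        exact pr_le_one _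
    refine (Finset.prod_le_prod (fun x _ => pr_nonneg _) (fun x _ => h4 x)).trans (le_of_eq ?_)
    rw [Finset.prod_ite_mem, Finset.univ_inter, Finset.prod_const]
  have h2 : ∀ ω : OmX A X M R, (∀ x ∈ S, PPX R ω x = true) ↔
      (∀ x ∈ S, ∃ j, nzX (ω.2 j) x = true) := by
    intro ω
    refine forall_congr' fun x => imp_congr_right fun _ => ?_
    simp only [PPX, decide_eq_true_eq]
    constructor
    · rintro ⟨j, -, hn⟩
      exact ⟨j, hn⟩
    · rintro ⟨j, hn⟩
      exact ⟨j, j.2, hn⟩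
  rw [pr_congr h2]
  exact pr_second_le (fun y : Fin R → X → Fin (M ^ 1) × Bool =>
    ∀ x ∈ S, ∃ j, nzX (y j) x = true) (by positivity) h1

/-- **Lower bound for spread planted sets, circuits with NOT gates.** -/
theorem spread_lower {w e g h : ℕ} (hw : 1 ≤ w) (hwe : w ≤ e) (hM : 0 < M) {q : ℝ}
    (hq : 0 ≤ q)
    (hsp : ∀ T : Finset (X × Bool), (∃ a, T ⊆ litp (pl a)) → T.card ≤ 2 * w →
      pr (fun a => T ⊆ litp (pl a)) ≤ q ^ T.card)
    (hκq : 82944 * (e:ℝ) * w * M * q ≤ (1 / 2) ^ g) (hg : 3 ≤ g) {ε : ℝ}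
    (hε : (w:ℝ) * (1 / 2) ^ e ≤ ε) (hε1 : ε < 1 / 2)
    (hcard : ∀ a, h ≤ (pl a).card) (hRM : (R:ℝ) ≤ 2 * M)
    (hsol : (Fintype.card A : ℝ) * ((R:ℝ) / (2 * M)) ^ h ≤ 1 / 4)
    {t r : ℕ} (hR : 2 * (2 ^ r * (r + 1)) ≤ R) {L : List ((X → Bool) → Bool)}
    (hL : NegCircuit t r L) {F : (X → Bool) → Bool} (hF : Source L F)
    (hacc : ∀ a x, (∀ v ∈ pl a, x v = true) → F x = true)
    (hrej : ∀ x, (¬ ∃ a, ∀ v ∈ pl a, x v = true) → F x = false) :
    1 ≤ 8 * ((2 ^ r * (r + 1) : ℕ) : ℝ) * (t * (etaOr (GS pl w) ε +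
      ((w:ℝ) + 1) ^ 2 * 2 ^ w * ((1 / 2) ^ g) ^ (w + 1))) := by
  classical
  obtain ⟨hS, hfin⟩ := sc_spread pl hw hwe hM hq hsp hκq hg hε hε1
  set η : ℝ := ((w:ℝ) + 1) ^ 2 * 2 ^ w * ((1 / 2) ^ g) ^ (w + 1) with hη
  have he0 := etaOr_nonneg (GS pl w) hS.ε0
  have hη0 := hS.η0
  have hMr : (0:ℝ) < M := by exact_mod_cast hM
  have : Nonempty (Fin (M ^ 1) × Bool) := ⟨(⟨0, by positivity⟩, true)⟩
  have hne : Nonempty (OmX A X M R) := inferInstance
  have hcount := chain_count (R := R) (fun i (ω : OmX A X M R) => PPX i ω)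
    (fun i ω => QQX pl i ω) (fun i ω v hv => by simp [QQX, hv]) (fun i ω v hv => PPX_succ i ω v hv)
    (t := t) (r := r) (c := 2 * (t * (etaOr (GS pl w) ε + η)))
    (fun i hi L g hL hg => pr_level_le2 pl hM hS hfin hL hg ⟨i, hi⟩) hL hF
  -- the noise has no solution
  have hsol' : pr (fun ω : OmX A X M R => ∃ a ∈ (univ : Finset A),
      ∀ v ∈ pl a, PPX R ω v = true) ≤ 1 / 4 := by
    refine (pr_exists_le _ _).trans ?_
    have h1 : ∀ a ∈ (univ : Finset A), pr (fun ω : OmX A X M R =>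
        ∀ v ∈ pl a, PPX R ω v = true) ≤ ((R:ℝ) / (2 * M)) ^ h := by
      intro a _
      refine (pr_sol_le2 hM (pl a)).trans ?_
      apply pow_le_pow_of_le_one (by positivity) _ (hcard a)
      rw [div_le_one (by positivity)]
      exact hRM
    refine (Finset.sum_le_sum h1).trans ?_
    rw [Finset.sum_const, Finset.card_univ, nsmul_eq_mul]
    exact hsol
  have hflip : ∀ i ∈ Finset.range R, (3:ℝ) / 4 ≤
      pr (fun ω : OmX A X M R => F (PPX i ω) ≠ F (QQX pl i ω)) := by
    intro i hi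
    have h1 : pr (fun ω : OmX A X M R => ¬ ∃ a ∈ (univ : Finset A),
        ∀ v ∈ pl a, PPX R ω v = true) ≤
        pr (fun ω : OmX A X M R => F (PPX i ω) ≠ F (QQX pl i ω)) := by
      apply pr_mono
      intro ω hω
      have h2 : F (PPX i ω) = false := by
        apply hrej
        rintro ⟨a, ha⟩
        exact hω ⟨a, mem_univ _, fun v hv => PPX_mono (Finset.mem_range.1 hi).le ω v (ha v hv)⟩
      have h3 : F (QQX pl i ω) = true := by
        apply hacc ω.1
        intro v hv
        simp [QQX, hv]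
      rw [h2, h3]
      simp
    have h2 := pr_compl (fun ω : OmX A X M R => ∃ a ∈ (univ : Finset A),
        ∀ v ∈ pl a, PPX R ω v = true)
    rw [h2] at h1
    linarith
  have h1 : (R:ℝ) * (3 / 4) ≤ ((2 ^ r * (r + 1) : ℕ) : ℝ) *
      (1 + R * (2 * (t * (etaOr (GS pl w) ε + η)))) := by
    refine le_trans ?_ hcount
    have h2 := Finset.sum_le_sum hflip
    rw [Finset.sum_const, Finset.card_range, nsmul_eq_mul] at h2
    exact h2
  set K : ℝ := ((2 ^ r * (r + 1) : ℕ) : ℝ) with hK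
  have hRr : 2 * K ≤ R := by
    rw [hK]
    exact_mod_cast hR
  have hK1 : 1 ≤ K := by
    rw [hK]
    have : 1 ≤ 2 ^ r * (r + 1) := Nat.one_le_iff_ne_zero.2 (by positivity)
    exact_mod_cast this
  have hRpos : (0:ℝ) < R := by linarith
  have h2 : (R:ℝ) * (1 / 4) ≤ R * (2 * K * (t * (etaOr (GS pl w) ε + η))) := by
    have h3 : (R:ℝ) * (2 * K * (t * (etaOr (GS pl w) ε + η))) =
        K * (R * (2 * (t * (etaOr (GS pl w) ε + η)))) := by ring
    rw [h3]
    have h4 : K * (1 + R * (2 * (t * (etaOr (GS pl w) ε + η)))) =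
        K + K * (R * (2 * (t * (etaOr (GS pl w) ε + η)))) := by ring
    rw [h4] at h1
    linarith
  have h3 := le_of_mul_le_mul_left h2 hRpos
  calc (1:ℝ) ≤ 4 * (2 * K * (t * (etaOr (GS pl w) ε + η))) := by linarith
    _ = 8 * K * (t * (etaOr (GS pl w) ε + η)) := by ring

end noise

end Pool.Agent.H24
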