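import Pool.Agent.H24.Levels

/-!
A monotone circuit lower bound for systems of pair constraints between `k` words on the left and
`k` words on the right.
-/

namespace Pool.Agent.H24

open Finset

set_option linter.unusedSectionVars false

/-- probability of a product event on functions -/
theorem pr_pi {X Y : Type*} [Fintype X] [DecidableEq X] [Fintype Y] [Nonempty Y]
    (S : X → Y → Prop) :
    pr (fun f : X → Y => ∀ x, S x (f x)) = ∏ x, pr (S x) := by
  classical
  have h0 : ∀ x, pr (S x) = ((univ.filter (S x)).card : ℝ) / Fintype.card Y :=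
    fun x => pr_eq_card (S x)
  rw [Finset.prod_congr rfl (fun x _ => h0 x), pr_eq_card]
  have h1 : (univ.filter (fun f : X → Y => ∀ x, S x (f x))) =
      Fintype.piFinset (fun x => univ.filter (S x)) := by
    ext f
    simp [Fintype.mem_piFinset]
  rw [h1, Fintype.card_piFinset, Fintype.card_fun, Finset.prod_div_distrib]
  push_cast
  rw [Finset.prod_const, Finset.card_univ]

/-- probability that a random function takes prescribed values -/
theorem pr_values_le {X Y : Type*} [Fintype X] [DecidableEq X] [Fintype Y] [DecidableEq Y]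
    [Nonempty Y] (U : Finset (X × Y)) :
    pr (fun f : X → Y => ∀ v ∈ U, f v.1 = v.2) ≤ (1 / (Fintype.card Y : ℝ)) ^ U.card := by
  classical
  have hY : (0:ℝ) < Fintype.card Y := by exact_mod_cast Fintype.card_pos
  have h1 : pr (fun f : X → Y => ∀ v ∈ U, f v.1 = v.2) =
      pr (fun f : X → Y => ∀ x, (fun x y => ∀ y', (x, y') ∈ U → y = y') x (f x)) := by
    apply pr_congr
    intro f
    constructor
    · intro h x y' hxy
      exact h _ hxy
    · rintro h ⟨x, y⟩ hv
      exact h x y hv
  rw [h1, pr_pi (fun x y => ∀ y', (x, y') ∈ U → y = y')]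
  have hcard : U.card = ∑ x, (univ.filter (fun y => (x, y) ∈ U)).card := by
    rw [← Finset.card_sigma]
    refine Finset.card_bij (fun v _ => (⟨v.1, v.2⟩ : Σ _ : X, Y)) ?_ ?_ ?_
    · intro v hv
      simp [hv]
    · rintro ⟨x, y⟩ _ ⟨x', y'⟩ _ h
      simpa using h
    · rintro ⟨x, y⟩ h
      simp only [Finset.mem_sigma, mem_univ, Finset.mem_filter, true_and] at h
      exact ⟨(x, y), h, rfl⟩
  rw [hcard, ← Finset.prod_pow_eq_pow_sum]
  apply Finset.prod_le_prod
  · intro x _
    exact pr_nonneg _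
  · intro x _
    rcases Nat.lt_or_ge 1 (univ.filter (fun y => (x, y) ∈ U)).card with h | h
    · obtain ⟨a, ha, b, hb, hab⟩ := Finset.one_lt_card.1 h
      rw [Finset.mem_filter] at ha hb
      have : pr (fun y => ∀ y', (x, y') ∈ U → y = y') ≤ pr (fun _ : Y => False) := by
        apply pr_mono
        intro y hy
        exact hab ((hy a ha.2).symm.trans (hy b hb.2))
      rw [pr_false] at this
      exact this.trans (by positivity)
    · interval_cases hc : (univ.filter (fun y => (x, y) ∈ U)).card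
      · rw [pow_zero]
        exact pr_le_one _
      · obtain ⟨a, ha⟩ := Finset.card_eq_one.1 hc
        have haU : (x, a) ∈ U := by
          have : a ∈ univ.filter (fun y => (x, y) ∈ U) := by rw [ha]; simp
          exact (Finset.mem_filter.1 this).2
        rw [pow_one]
        refine (pr_mono (F := fun y => y = a) (fun y hy => hy a haU)).trans ?_
        rw [pr_eq_card]
        have : (univ.filter (fun y : Y => y = a)).card = 1 := by
          rw [Finset.card_eq_one]
          exact ⟨a, by ext y; simp⟩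
        rw [this]
        simp

section csp

variable {k m : ℕ}

/-- words -/
abbrev Wd (m : ℕ) : Type := Fin m → Bool

/-- possible pairs of choices on the left and on the right -/
abbrev Ed (k m : ℕ) : Type := (Fin k × Wd m) × (Fin k × Wd m)

/-- the literals satisfied by an assignment -/
def planted (w : Bool × Fin k → Wd m) : Finset (Ed k m × Bool) :=
  univ.filter (fun l => w (false, l.1.1.1) = l.1.1.2 ∧ w (true, l.1.2.1) = l.1.2.2 ∧ l.2 = true)

theorem mem_planted {w : Bool × Fin k → Wd m} {l : Ed k m × Bool} :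
    l ∈ planted w ↔ w (false, l.1.1.1) = l.1.1.2 ∧ w (true, l.1.2.1) = l.1.2.2 ∧ l.2 = true := by
  simp [planted]

/-- choices on the left occurring in a set of literals -/
def vL (T : Finset (Ed k m × Bool)) : Finset ((Bool × Fin k) × Wd m) :=
  T.image (fun l => ((false, l.1.1.1), l.1.1.2))

/-- choices on the right occurring in a set of literals -/
def vR (T : Finset (Ed k m × Bool)) : Finset ((Bool × Fin k) × Wd m) :=
  T.image (fun l => ((true, l.1.2.1), l.1.2.2))

theorem disj_vL_vR (S T : Finset (Ed k m × Bool)) : Disjoint (vL S) (vR T) := by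
  rw [Finset.disjoint_left]
  intro v hv hv'
  simp only [vL, vR, mem_image] at hv hv'
  obtain ⟨a, _, rfl⟩ := hv
  obtain ⟨b, _, hb⟩ := hv'
  simp at hb

/-- number of choices -/
def nv (T : Finset (Ed k m × Bool)) : ℕ := (vL T).card + (vR T).card

theorem nv_mono {S T : Finset (Ed k m × Bool)} (h : S ⊆ T) : nv S ≤ nv T :=
  Nat.add_le_add (Finset.card_le_card (Finset.image_subset_image h))
    (Finset.card_le_card (Finset.image_subset_image h))

theorem nv_union_le (S T : Finset (Ed k m × Bool)) : nv (S ∪ T) ≤ nv S + nv T := by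
  unfold nv vL vR
  rw [Finset.image_union, Finset.image_union]
  have h1 := Finset.card_union_le (S.image (fun l : Ed k m × Bool =>
    (((false, l.1.1.1), l.1.1.2) : (Bool × Fin k) × Wd m))) (T.image (fun l => ((false, l.1.1.1), l.1.1.2)))
  have h2 := Finset.card_union_le (S.image (fun l : Ed k m × Bool =>
    (((true, l.1.2.1), l.1.2.2) : (Bool × Fin k) × Wd m))) (T.image (fun l => ((true, l.1.2.1), l.1.2.2)))
  omega

theorem card_le_mul {T : Finset (Ed k m × Bool)} (hT : ∀ l ∈ T, l.2 = true) :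
    T.card ≤ (vL T).card * (vR T).card := by
  rw [← Finset.card_product]
  refine Finset.card_le_card_of_injOn
    (fun l => (((false, l.1.1.1), l.1.1.2), ((true, l.1.2.1), l.1.2.2))) ?_ ?_
  · intro l hl
    rw [Finset.mem_coe] at hl ⊢
    rw [Finset.mem_product]
    exact ⟨Finset.mem_image_of_mem _ hl, Finset.mem_image_of_mem _ hl⟩
  · rintro ⟨⟨⟨a, p⟩, ⟨b, q⟩⟩, c⟩ hl ⟨⟨⟨a', p'⟩, ⟨b', q'⟩⟩, c'⟩ hl' h
    rw [Finset.mem_coe] at hl hl'
    have h1 := hT _ hl
    have h2 := hT _ hl'
    simp only [Prod.mk.injEq, true_and] at h h1 h2 ⊢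
    exact ⟨⟨⟨h.1.1, h.1.2⟩, ⟨h.2.1, h.2.2⟩⟩, h1.trans h2.symm⟩

theorem card_le_nv {T : Finset (Ed k m × Bool)} (hT : ∀ l ∈ T, l.2 = true) {v : ℕ}
    (hv : nv T ≤ 2 * v) : T.card ≤ nv T * v := by
  refine (card_le_mul hT).trans ?_
  unfold nv at hv ⊢
  rcases Nat.le_total (vL T).card (vR T).card with h | h
  · have h1 : (vL T).card ≤ v := by omega
    calc (vL T).card * (vR T).card ≤ v * (vR T).card := Nat.mul_le_mul_right _ h1
      _ = (vR T).card * v := Nat.mul_comm _ _
      _ ≤ ((vL T).card + (vR T).card) * v := Nat.mul_le_mul_right _ (Nat.le_add_left _ _)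
  · have h1 : (vR T).card ≤ v := by omega
    calc (vL T).card * (vR T).card ≤ (vL T).card * v := Nat.mul_le_mul_left _ h1
      _ ≤ ((vL T).card + (vR T).card) * v := Nat.mul_le_mul_right _ (Nat.le_add_right _ _)

theorem pr_planted_le (T : Finset (Ed k m × Bool)) :
    pr (fun w : Bool × Fin k → Wd m => T ⊆ planted w) ≤ (1 / 2 ^ m) ^ nv T := by
  classical
  have h := pr_values_le (X := Bool × Fin k) (Y := Wd m) (vL T ∪ vR T)
  rw [Finset.card_union_of_disjoint (disj_vL_vR T T)] at h
  have hc : (Fintype.card (Wd m) : ℝ) = 2 ^ m := by simp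
  rw [hc] at h
  refine le_trans (pr_mono ?_) h
  intro w hw v hv
  rcases Finset.mem_union.1 hv with hv | hv
  · simp only [vL, mem_image] at hv
    obtain ⟨l, hl, rfl⟩ := hv
    exact (mem_planted.1 (hw hl)).1
  · simp only [vR, mem_image] at hv
    obtain ⟨l, hl, rfl⟩ := hv
    exact (mem_planted.1 (hw hl)).2.1

/-- admissible sets: positive literals with at most `v` choices -/
def GE (k m v : ℕ) : Finset (Ed k m × Bool) → Prop :=
  fun T => (∀ l ∈ T, l.2 = true) ∧ nv T ≤ v

theorem admPred_GE (v : ℕ) : AdmPred (GE k m v) (v ^ 2) := by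
  refine ⟨?_, ?_, ?_, ?_⟩
  · intro S T h hT
    exact ⟨fun l hl => hT.1 l (h hl), (nv_mono h).trans hT.2⟩
  · intro T hT x hx
    have := hT.1 _ hx.2
    simp at this
  · intro T hT
    refine (card_le_nv hT.1 (v := v) (by have := hT.2; omega)).trans ?_
    rw [sq]
    exact Nat.mul_le_mul_right _ hT.2
  · exact ⟨by simp, by simp [nv, vL, vR]⟩

/-- the dense sets: random pairs -/
def PD (k m M : ℕ) (i : ℕ) (ω : Smp (Bool × Fin k → Wd m) (Ed k m) M 1) :
    Finset (Ed k m × Bool) := if i = 0 then Qs M 1 1 ω else ∅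

/-- the sparse sets: the pairs of a random assignment -/
def QD (k m M : ℕ) (i : ℕ) (ω : Smp (Bool × Fin k → Wd m) (Ed k m) M 1) :
    Finset (Ed k m × Bool) := if i = 0 then Qs M 1 1 ω else planted ω.1

theorem kInd_Qs {A X : Type} [Fintype A] [Nonempty A] [Fintype X] [DecidableEq X] {M : ℕ}
    (hM : 0 < M) (m' : ℕ) :
    KInd (fun ω : Smp A X M 1 => Qs M 1 1 ω) (1 / (2 * (M:ℝ))) m' := by
  intro T _
  split_ifs with hC
  · refine (pr_true_first (A := A) M 1 hM (le_refl 1) hC).trans ?_
    rw [pow_one]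
  · have : pr (fun ω : Smp A X M 1 => T ⊆ Qs M 1 1 ω) ≤ pr (fun _ : Smp A X M 1 => False) := by
      apply pr_mono
      intro ω hsub
      exact hC ((cons_Qs M 1 1 ω).mono hsub)
    rw [pr_false] at this
    exact le_antisymm this (pr_nonneg _)

/-- events that depend only on the assignment -/
theorem pr_first {A X : Type} [Fintype A] [Nonempty A] [Fintype X] [DecidableEq X] {M : ℕ}
    (hM : 0 < M) (E : A → Prop) : pr (fun ω : Smp A X M 1 => E ω.1) = pr E := by
  have : Nonempty (Fin (M ^ 1) × Bool) := ⟨(⟨0, by positivity⟩, true)⟩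
  have h := pr_prod_pi (A := A) (X := X) (Y := Fin (M ^ 1) × Bool) E (fun _ _ => True)
  have h2 : ∏ x : X, pr ((fun _ _ => True : X → Fin (M ^ 1) × Bool → Prop) x) = 1 := by
    apply Finset.prod_eq_one
    intro x _
    exact pr_true
  rw [h2, mul_one] at h
  rw [← h]
  apply pr_congr
  simp

theorem sc_csp {v e M m' : ℕ} (hv : 2 ≤ v) (hve : v ^ 2 ≤ e) (hM : 0 < M)
    (hm : 2 * m' ≤ m) (hκ : (82944 * e * v ^ 2 * M) ^ v ≤ 2 ^ m')
    {ε : ℝ} (hε : ((v ^ 2 : ℕ) : ℝ) * (1 / 2) ^ e ≤ ε) (hε1 : ε < 1 / 2) :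
    Sc (Ω := Smp (Bool × Fin k → Wd m) (Ed k m) M 1) (PD k m M) (QD k m M) (GE k m v) (v ^ 2) ε
      ((((v ^ 2 : ℕ) : ℝ) + 1) ^ 2 * 2 ^ (v ^ 2) * (1 / 2) ^ (m' * v))
      ((v ^ 2 : ℕ) * (1 / 2) ^ m') 1 := by
  have hv0 : 0 < v ^ 2 := by positivity
  have he0 : 0 < e := by omega
  have hMr : (0:ℝ) < M := by exact_mod_cast hM
  have hM1 : (1:ℝ) ≤ M := by exact_mod_cast hM
  have her : (0:ℝ) < e := by exact_mod_cast he0
  have hvr : (0:ℝ) < ((v ^ 2 : ℕ) : ℝ) := by exact_mod_cast hv0
  have : Nonempty (Fin (M ^ 1) × Bool) := ⟨(⟨0, by positivity⟩, true)⟩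
  have hε0 : 0 ≤ ε := le_trans (by positivity) hε
  set κ : ℝ := 82944 * e * (v ^ 2 : ℕ) * M with hκdef
  have hκ0 : 0 < κ := by positivity
  have hκ1 : 1 ≤ κ := by
    have h1 : (1:ℝ) ≤ e := by exact_mod_cast he0
    have h2 : (1:ℝ) ≤ ((v ^ 2 : ℕ) : ℝ) := by exact_mod_cast hv0
    have h3 : (1:ℝ) ≤ e * (v ^ 2 : ℕ) * M := by
      have := one_le_mul_of_one_le_of_one_le (one_le_mul_of_one_le_of_one_le h1 h2) hM1
      exact this
    rw [hκdef]
    nlinarith
  have hκv : κ ^ v ≤ 2 ^ m' := by
    rw [hκdef]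
    exact_mod_cast hκ
  have hrsp : RSP (fun ω : Smp (Bool × Fin k → Wd m) (Ed k m) M 1 => Qs M 1 1 ω) (v ^ 2) ε κ := by
    intro 𝒯 hne r hr hrw hcard hcons hspread
    have h := robust_sunflower_hom (fun ω : Smp (Bool × Fin k → Wd m) (Ed k m) M 1 => Qs M 1 1 ω)
      (p := 1 / (2 * (M:ℝ))) (by positivity)
      (by rw [div_le_one (by positivity)]; linarith) hv0 hve (kInd_Qs hM _) 𝒯 hne hr hrw hcard
      hcons (κ := κ) (β := 2) (by norm_num) ?_ hspread
    · exact h.trans hε
    · apply le_of_eq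
      rw [hκdef]
      field_simp
      ring
  -- the bound on planted sets
  have hplant : ∀ T : Finset (Ed k m × Bool), (∀ l ∈ T, l.2 = true) → nv T ≤ 2 * v →
      pr (fun ω : Smp (Bool × Fin k → Wd m) (Ed k m) M 1 => T ⊆ planted ω.1) ≤
        (1 / 2) ^ (m' * nv T) * (κ⁻¹) ^ T.card := by
    intro T hT hnv
    rw [pr_first hM (fun w => T ⊆ planted w)]
    refine (pr_planted_le T).trans ?_
    have h1 : T.card ≤ v * nv T := by
      rw [Nat.mul_comm]
      exact card_le_nv hT hnv
    have h2 : κ ^ T.card ≤ 2 ^ (m' * nv T) := by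
      calc κ ^ T.card ≤ κ ^ (v * nv T) := pow_le_pow_right₀ hκ1 h1
        _ = (κ ^ v) ^ nv T := by rw [pow_mul]
        _ ≤ (2 ^ m') ^ nv T := by gcongr
        _ = 2 ^ (m' * nv T) := by rw [← pow_mul]
    have h3 : ((1:ℝ) / 2 ^ m) ^ nv T = (1 / 2) ^ (m * nv T) := by
      rw [pow_mul]
      congr 1
      rw [one_div_pow]
    rw [h3]
    have h4 : ((1:ℝ) / 2) ^ (m * nv T) ≤ (1 / 2) ^ (m' * nv T + m' * nv T) := by
      apply pow_le_pow_of_le_one (by norm_num) (by norm_num)
      calc m' * nv T + m' * nv T = (2 * m') * nv T := by ring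
        _ ≤ m * nv T := Nat.mul_le_mul_right _ hm
    refine h4.trans ?_
    rw [pow_add]
    gcongr
    rw [inv_pow, one_div, inv_pow]
    exact inv_anti₀ (by positivity) h2
  refine ⟨admPred_GE v, ?_, hε0, by linarith, by positivity, by positivity, ?_, ?_, ?_, ?_⟩
  · intro i ω
    unfold PD QD
    split_ifs
    · exact Finset.Subset.refl _
    · exact Finset.empty_subset _
  · intro i hi l
    have hi0 : i = 0 := by omega
    subst hi0
    have h1 : pr (fun ω : Smp (Bool × Fin k → Wd m) (Ed k m) M 1 => l ∈ Qs M 1 1 ω) =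
        1 / (2 * (M:ℝ)) := pr_lit_le M 1 (le_refl 1) (kInd_Qs hM 1) l
    have h2 : pr (fun ω : Smp (Bool × Fin k → Wd m) (Ed k m) M 1 => l ∉ PD k m M 0 ω) =
        1 - 1 / (2 * (M:ℝ)) := by
      rw [← h1, ← pr_compl]
      apply pr_congr
      intro ω
      simp [PD]
    rw [h2]
    have h3 : 1 / (2 * (M:ℝ)) ≤ 1 / 2 := by
      rw [div_le_div_iff₀ (by positivity) (by norm_num)]
      linarith
    linarith
  · rintro ⟨⟨⟨a, p⟩, ⟨b, q⟩⟩, c⟩
    cases c
    · right
      intro i _ ω h
      simp only [QD, Nat.add_eq_zero_iff, one_ne_zero, and_false, if_false] at h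
      have := (mem_planted.1 h).2.2
      simp at this
    · left
      refine ⟨by simp, ?_⟩
      simp only [nv, vL, vR, Finset.image_singleton, Finset.card_singleton]
      exact hv
  · intro i hi A B hA hB
    have hi0 : i = 0 := by omega
    subst hi0
    have hPQ : PD k m M 0 = fun ω => Qs M 1 1 ω := by
      funext ω
      simp [PD]
    rw [hPQ] at hA hB
    have hQ1 : QD k m M (0 + 1) = fun ω => planted ω.1 := by
      funext ω
      simp [QD]
    rw [hQ1]
    refine and_error' (admPred_GE v) hκ0 hrsp hε0 hA hB (by positivity) ?_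
    intro S T hS hT hST
    have hlab : ∀ l ∈ S ∪ T, l.2 = true := by
      intro l hl
      rcases Finset.mem_union.1 hl with hl | hl
      · exact hS.1 l hl
      · exact hT.1 l hl
    have hnv1 : nv (S ∪ T) ≤ 2 * v := by
      have h1 := nv_union_le S T
      have h2 := hS.2
      have h3 := hT.2
      omega
    have hnv2 : v < nv (S ∪ T) := by
      by_contra hle
      exact hST ⟨hlab, by omega⟩
    refine (hplant _ hlab hnv1).trans ?_
    apply mul_le_mul_of_nonneg_right _ (by positivity)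
    apply pow_le_pow_of_le_one (by norm_num) (by norm_num)
    exact Nat.mul_le_mul_left _ hnv2.le
  · intro i hi A hA hne
    have hi0 : i = 0 := by omega
    subst hi0
    have hPQ : PD k m M 0 = fun ω => Qs M 1 1 ω := by
      funext ω
      simp [PD]
    rw [hPQ] at hA
    have hQ1 : QD k m M (0 + 1) = fun ω => planted ω.1 := by
      funext ω
      simp [QD]
    rw [hQ1]
    refine (zeta_error' (admPred_GE v) hκ0 hrsp hA hne (f := fun _ => (1 / 2) ^ m')
      (fun _ => by positivity) ?_).trans ?_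
    · intro T hT hTne
      refine (hplant T hT.1 (by have := hT.2; omega)).trans ?_
      apply mul_le_mul_of_nonneg_right _ (by positivity)
      apply pow_le_pow_of_le_one (by norm_num) (by norm_num)
      have : 1 ≤ nv T := by
        obtain ⟨l, hl⟩ := Finset.nonempty_iff_ne_empty.2 hTne
        have : 0 < (vL T).card := Finset.card_pos.2 ⟨_, Finset.mem_image_of_mem _ hl⟩
        unfold nv
        omega
      exact Nat.le_mul_of_pos_right _ this
    · rw [Finset.sum_const, Finset.card_range, nsmul_eq_mul]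

end csp

end Pool.Agent.H24
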