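import Pool.Agent.H24.ExpGraph

/-!
Sparse hypergraphs: `D * k` hyperedges with one vertex in each of `D` classes of `k` vertices, such
that every small set `S` of hyperedges has at least `(D - 2) * |S|` vertices (union bound over
random functions).
-/

namespace Pool.Agent.H24

open Finset

set_option linter.unusedSectionVars false

section

variable {D E k : ℕ}

/-- the vertices of a set of hyperedges -/
def verts (f : Fin E × Fin D → Fin k) (S : Finset (Fin E)) : Finset (Fin D × Fin k) :=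
  (S ×ˢ (univ : Finset (Fin D))).image (fun x => (x.2, f x))

theorem verts_mono (f : Fin E × Fin D → Fin k) {S S' : Finset (Fin E)} (h : S ⊆ S') :
    verts f S ⊆ verts f S' :=
  Finset.image_subset_image (Finset.product_subset_product_left h)

theorem pr_verts_le (hk : 0 < k) (S : Finset (Fin E)) (U : Finset (Fin D × Fin k)) :
    pr (fun f : Fin E × Fin D → Fin k => verts f S ⊆ U) ≤
      ((U.card : ℝ) / k) ^ (S.card * D) := by
  classical
  have hne : Nonempty (Fin k) := ⟨⟨0, hk⟩⟩
  have hkr : (0:ℝ) < k := by exact_mod_cast hk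
  have h1 : pr (fun f : Fin E × Fin D → Fin k => verts f S ⊆ U) ≤
      pr (fun f : Fin E × Fin D → Fin k => ∀ x, x.1 ∈ S → (x.2, f x) ∈ U) := by
    apply pr_mono
    intro f hf x hx
    apply hf
    exact Finset.mem_image.2 ⟨x, Finset.mem_product.2 ⟨hx, mem_univ _⟩, rfl⟩
  refine h1.trans ?_
  rw [pr_pi (fun (x : Fin E × Fin D) (y : Fin k) => x.1 ∈ S → (x.2, y) ∈ U)]
  have h2 : ∀ x : Fin E × Fin D, pr (fun y : Fin k => x.1 ∈ S → (x.2, y) ∈ U) ≤
      if x ∈ S ×ˢ (univ : Finset (Fin D)) then (U.card : ℝ) / k else 1 := by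
    intro x
    by_cases hx : x.1 ∈ S
    · rw [if_pos (Finset.mem_product.2 ⟨hx, mem_univ _⟩), pr_eq_card, Fintype.card_fin]
      gcongr
      refine Finset.card_le_card_of_injOn (fun y => (x.2, y)) ?_ ?_
      · intro y hy
        simp only [Finset.coe_filter, Set.mem_ofPred_eq, mem_univ, true_and] at hy
        exact hy hx
      · intro y _ y' _ h
        simpa using h
    · split_ifs with h3
      · exact absurd (Finset.mem_product.1 h3).1 hx
      · exact pr_le_one _
  refine (Finset.prod_le_prod (fun x _ => pr_nonneg _) (fun x _ => h2 x)).trans (le_of_eq ?_)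
  rw [Finset.prod_ite_mem, Finset.univ_inter, Finset.prod_const, Finset.card_product,
    Finset.card_univ, Fintype.card_fin]

/-- **Sparse hypergraphs.** -/
theorem exists_hyper {s0 : ℕ} (hD : 2 < D) (hk : 0 < k)
    (hs : 2 * (3 * D) ^ (D + 1) * s0 ≤ k) :
    ∃ f : Fin (D * k) × Fin D → Fin k, ∀ S : Finset (Fin (D * k)), S.card ≤ s0 →
      (D - 2) * S.card ≤ (verts f S).card := by
  classical
  have hne : Nonempty (Fin k) := ⟨⟨0, hk⟩⟩
  have hkr : (0:ℝ) < k := by exact_mod_cast hk
  have hD0 : 0 < D := by omega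
  have hDr : (0:ℝ) < D := by exact_mod_cast hD0
  by_contra hcon
  push Not at hcon
  have hs0 : s0 ≤ k := by
    refine le_trans ?_ hs
    apply Nat.le_mul_of_pos_left
    positivity
  -- every function has a bad witness
  have h1 : (1:ℝ) ≤ pr (fun f : Fin (D * k) × Fin D → Fin k =>
      ∃ s ∈ Finset.Icc 1 s0, ∃ S ∈ Finset.powersetCard s (univ : Finset (Fin (D * k))),
        ∃ U ∈ Finset.powersetCard ((D - 2) * s) (univ : Finset (Fin D × Fin k)),
          verts f S ⊆ U) := by
    rw [← pr_true (Ω := Fin (D * k) × Fin D → Fin k)]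
    apply pr_mono
    intro f _
    obtain ⟨S, hS, hSv⟩ := hcon f
    obtain ⟨U, hU1, hU2⟩ := Finset.exists_superset_card_eq (n := (D - 2) * S.card) hSv.le (by
      rw [Fintype.card_prod, Fintype.card_fin, Fintype.card_fin]
      exact Nat.mul_le_mul (by omega) (hS.trans hs0))
    refine ⟨S.card, ?_, S, ?_, U, ?_, hU1⟩
    · rw [Finset.mem_Icc]
      refine ⟨?_, hS⟩
      by_contra h0
      have h0' : S.card = 0 := by omega
      rw [h0', mul_zero] at hSv
      exact absurd hSv (Nat.not_lt_zero _)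
    · rw [Finset.mem_powersetCard]
      exact ⟨Finset.subset_univ _, rfl⟩
    · rw [Finset.mem_powersetCard]
      exact ⟨Finset.subset_univ _, hU2⟩
  have h2 : pr (fun f : Fin (D * k) × Fin D → Fin k =>
      ∃ s ∈ Finset.Icc 1 s0, ∃ S ∈ Finset.powersetCard s (univ : Finset (Fin (D * k))),
        ∃ U ∈ Finset.powersetCard ((D - 2) * s) (univ : Finset (Fin D × Fin k)),
          verts f S ⊆ U) ≤
      ∑ s ∈ Finset.Icc 1 s0, (((D * k).choose s : ℕ) : ℝ) *
        ((((D * k).choose ((D - 2) * s) : ℕ) : ℝ) *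
          ((((D - 2) * s : ℕ) : ℝ) / k) ^ (s * D)) := by
    refine (pr_exists_le _ _).trans (Finset.sum_le_sum fun s _ => ?_)
    refine (pr_exists_le _ _).trans ?_
    have h3 : ∀ S ∈ Finset.powersetCard s (univ : Finset (Fin (D * k))),
        pr (fun f : Fin (D * k) × Fin D → Fin k =>
          ∃ U ∈ Finset.powersetCard ((D - 2) * s) (univ : Finset (Fin D × Fin k)),
            verts f S ⊆ U) ≤
          (((D * k).choose ((D - 2) * s) : ℕ) : ℝ) *
            ((((D - 2) * s : ℕ) : ℝ) / k) ^ (s * D) := by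
      intro S hS
      refine (pr_exists_le _ _).trans ?_
      have h4 : ∀ U ∈ Finset.powersetCard ((D - 2) * s) (univ : Finset (Fin D × Fin k)),
          pr (fun f : Fin (D * k) × Fin D → Fin k => verts f S ⊆ U) ≤
            ((((D - 2) * s : ℕ) : ℝ) / k) ^ (s * D) := by
        intro U hU
        rw [Finset.mem_powersetCard] at hS hU
        rw [← hS.2]
        have h5 := pr_verts_le (D := D) hk S U
        rw [hU.2, hS.2] at h5
        rw [hS.2]
        exact h5
      refine (Finset.sum_le_sum h4).trans (le_of_eq ?_)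
      rw [Finset.sum_const, Finset.card_powersetCard, nsmul_eq_mul, Finset.card_univ,
        Fintype.card_prod, Fintype.card_fin, Fintype.card_fin]
    refine (Finset.sum_le_sum h3).trans (le_of_eq ?_)
    rw [Finset.sum_const, Finset.card_powersetCard, nsmul_eq_mul, Finset.card_univ,
      Fintype.card_fin]
  have h3 : ∀ s ∈ Finset.Icc 1 s0, (((D * k).choose s : ℕ) : ℝ) *
        ((((D * k).choose ((D - 2) * s) : ℕ) : ℝ) *
          ((((D - 2) * s : ℕ) : ℝ) / k) ^ (s * D)) ≤ (1 / 2) ^ s := by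
    intro s hs1
    rw [Finset.mem_Icc] at hs1
    have hsr : (0:ℝ) < s := by exact_mod_cast hs1.1
    obtain ⟨d, hd⟩ : ∃ d, D = d + 2 := ⟨D - 2, by omega⟩
    have hd0 : 0 < d := by omega
    have hdr : (0:ℝ) < d := by exact_mod_cast hd0
    have hD2 : D - 2 = d := by omega
    rw [hD2]
    set u : ℕ := d * s with hu
    have hu0 : 0 < u := Nat.mul_pos hd0 hs1.1
    have hur : (0:ℝ) < u := by exact_mod_cast hu0
    have e1 := choose_mul_le (D * k) s
    have e2 := choose_mul_le (D * k) u
    -- divide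
    have e1' : (((D * k).choose s : ℕ) : ℝ) ≤ (3 * ((D * k : ℕ) : ℝ) / s) ^ s := by
      rw [div_pow, le_div_iff₀ (by positivity)]
      exact e1
    have e2' : (((D * k).choose u : ℕ) : ℝ) ≤ (3 * ((D * k : ℕ) : ℝ) / u) ^ u := by
      rw [div_pow, le_div_iff₀ (by positivity)]
      exact e2
    have e3 : ((u:ℝ) / k) ^ (s * D) = ((u:ℝ) / k) ^ u * (((u:ℝ) / k) ^ 2) ^ s := by
      rw [← pow_mul, ← pow_add]
      congr 1
      rw [hu, hd]
      ring
    have e4 : (3 * ((D * k : ℕ) : ℝ) / u) ^ u * ((u:ℝ) / k) ^ u = ((3 * (D:ℝ)) ^ d) ^ s := by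
      rw [← mul_pow, ← pow_mul, ← hu]
      congr 1
      push_cast
      field_simp
    calc (((D * k).choose s : ℕ) : ℝ) * ((((D * k).choose u : ℕ) : ℝ) *
          ((u : ℝ) / k) ^ (s * D))
        ≤ (3 * ((D * k : ℕ) : ℝ) / s) ^ s * ((3 * ((D * k : ℕ) : ℝ) / u) ^ u *
          ((u : ℝ) / k) ^ (s * D)) := by gcongr
      _ = (3 * ((D * k : ℕ) : ℝ) / s) ^ s * (((3 * (D:ℝ)) ^ d) ^ s * (((u:ℝ) / k) ^ 2) ^ s) := by
          rw [e3, ← mul_assoc ((3 * ((D * k : ℕ) : ℝ) / u) ^ u), e4]
      _ = ((3 * (D:ℝ)) ^ (d + 1) * (d:ℝ) ^ 2 * (s / k)) ^ s := by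
          rw [← mul_pow, ← mul_pow]
          congr 1
          rw [hu]
          push_cast
          field_simp
          ring
      _ ≤ (1 / 2) ^ s := by
          apply pow_le_pow_left₀ (by positivity)
          have h5 : (d:ℝ) ^ 2 ≤ (3 * (D:ℝ)) ^ 2 := by
            have : (d:ℝ) ≤ 3 * D := by
              have : (d:ℝ) ≤ D := by exact_mod_cast (by omega : d ≤ D)
              linarith
            gcongr
          have h6 : (2 * (3 * (D:ℝ)) ^ (D + 1)) * s ≤ k := by
            have h7 : 2 * (3 * D) ^ (D + 1) * s ≤ k :=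
              (Nat.mul_le_mul_left _ hs1.2).trans hs
            exact_mod_cast h7
          calc (3 * (D:ℝ)) ^ (d + 1) * (d:ℝ) ^ 2 * (s / k)
              ≤ (3 * (D:ℝ)) ^ (d + 1) * (3 * (D:ℝ)) ^ 2 * (s / k) := by gcongr
            _ = (3 * (D:ℝ)) ^ (D + 1) * s / k := by
                rw [← pow_add, hd, mul_div_assoc]
            _ ≤ 1 / 2 := by
                rw [div_le_div_iff₀ hkr (by norm_num)]
                linarith
  have h4 : ∑ s ∈ Finset.Icc 1 s0, ((1:ℝ) / 2) ^ s < 1 := by
    have h5 : ∀ N : ℕ, ∑ u ∈ Finset.Icc 1 N, ((1:ℝ) / 2) ^ u = 1 - (1 / 2) ^ N := by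
      intro N
      induction N with
      | zero => simp
      | succ N ih =>
        rw [Finset.sum_Icc_succ_top (by omega), ih, pow_succ]
        ring
    rw [h5]
    have : (0:ℝ) < (1 / 2) ^ s0 := by positivity
    linarith
  have h5 := h1.trans (h2.trans (Finset.sum_le_sum h3))
  linarith

end

end Pool.Agent.H24
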