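import Pool.Agent.H24.Chain2
import Pool.Agent.H24.HyperG

/-!
Systems of constraints on tuples of words, one tuple for every hyperedge of a sparse hypergraph:
lower bound for circuits with NOT gates.
-/

namespace Pool.Agent.H24

open Finset

set_option linter.unusedSectionVars false

section

variable {D E k : ℕ} {W : Type} [Fintype W] [DecidableEq W]

/-- positions: a hyperedge and a tuple of words -/
abbrev XD (D E : ℕ) (W : Type) : Type := Fin E × (Fin D → W)

/-- the tuples of an assignment -/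
def plD (f : Fin E × Fin D → Fin k) (a : Fin D × Fin k → W) : Finset (XD D E W) :=
  univ.image (fun j => (j, fun κ => a (κ, f (j, κ))))

theorem mem_plD {f : Fin E × Fin D → Fin k} {a : Fin D × Fin k → W} {x : XD D E W} :
    x ∈ plD f a ↔ ∀ κ, a (κ, f (x.1, κ)) = x.2 κ := by
  simp only [plD, Finset.mem_image, mem_univ, true_and]
  constructor
  · rintro ⟨j, rfl⟩ κ
    rfl
  · intro h
    exact ⟨x.1, Prod.ext rfl (funext h)⟩

theorem card_plD (f : Fin E × Fin D → Fin k) (a : Fin D × Fin k → W) :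
    (plD f a).card = E := by
  rw [plD, Finset.card_image_of_injective, Finset.card_univ, Fintype.card_fin]
  intro j j' h
  exact congrArg Prod.fst h

theorem pr_plD_le [Nonempty W] (f : Fin E × Fin D → Fin k) {w : ℕ}
    (hf : ∀ S : Finset (Fin E), S.card ≤ 2 * w → (D - 2) * S.card ≤ (verts f S).card)
    (T : Finset (XD D E W × Bool)) (hT : ∃ a, T ⊆ litp (plD f a)) (hc : T.card ≤ 2 * w) :
    pr (fun a : Fin D × Fin k → W => T ⊆ litp (plD f a)) ≤
      ((1 / (Fintype.card W : ℝ)) ^ (D - 2)) ^ T.card := by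
  classical
  obtain ⟨a0, ha0⟩ := hT
  set S := T.image (fun l : XD D E W × Bool => l.1.1) with hS
  have h1 : S.card = T.card := by
    apply Finset.card_image_of_injOn
    rintro ⟨⟨j, p⟩, b⟩ hl ⟨⟨j', p'⟩, b'⟩ hl' h
    have e1 := mem_litp.1 (ha0 (Finset.mem_coe.1 hl))
    have e2 := mem_litp.1 (ha0 (Finset.mem_coe.1 hl'))
    simp only at h
    subst h
    have e3 : p = p' := by
      funext κ
      exact (mem_plD.1 e1.1 κ).symm.trans (mem_plD.1 e2.1 κ)
    rw [e3, e1.2, e2.2]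
  set U := (verts f S).image (fun v => (v, a0 v)) with hU
  have h2 : U.card = (verts f S).card := by
    apply Finset.card_image_of_injective
    intro v v' h
    exact congrArg Prod.fst h
  have h3 : (D - 2) * T.card ≤ U.card := by
    rw [h2, ← h1]
    exact hf S (by rw [h1]; exact hc)
  have h4 := pr_values_le (X := Fin D × Fin k) (Y := W) U
  have hW1 : (1:ℝ) ≤ Fintype.card W := by exact_mod_cast Fintype.card_pos
  refine le_trans (pr_mono ?_) (h4.trans ?_)
  · rintro a ha ⟨v, y⟩ hv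
    rw [hU, Finset.mem_image] at hv
    obtain ⟨v', hv', he⟩ := hv
    simp only [Prod.mk.injEq] at he
    obtain ⟨rfl, rfl⟩ := he
    rw [verts, Finset.mem_image] at hv'
    obtain ⟨⟨j, κ⟩, hjκ, rfl⟩ := hv'
    rw [Finset.mem_product, hS, Finset.mem_image] at hjκ
    obtain ⟨⟨⟨⟨j', p⟩, b⟩, hl, hj'⟩, -⟩ := hjκ
    simp only at hj'
    subst hj'
    have e1 := mem_plD.1 (mem_litp.1 (ha0 hl)).1 κ
    have e2 := mem_plD.1 (mem_litp.1 (ha hl)).1 κ
    simp only at e1 e2 ⊢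
    rw [e1, e2]
  · rw [← pow_mul]
    apply pow_le_pow_of_le_one (by positivity) _ h3
    rw [div_le_one (by positivity)]
    exact hW1

/-- **Lower bound for systems of constraints on a sparse hypergraph.** -/
theorem cspD_neg_lower [Nonempty W] {h w : ℕ} (hD : 6 ≤ D) (hw : 1 ≤ w) (hk : 0 < k)
    (hW1 : 4 ^ h ≤ 2 * h * Fintype.card W) (hW2 : Fintype.card W ≤ 4 ^ h)
    (h3w : 3 * w ≤ h)
    (hN1 : 82944 * w ^ 2 * (h * (2 * D + 5)) * (2 * h) ^ (D - 2) ≤ 2 ^ h)
    (hN2 : D * k ≤ 2 ^ h)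
    (f : Fin (D * k) × Fin D → Fin k)
    (hf : ∀ S : Finset (Fin (D * k)), S.card ≤ 2 * w → (D - 2) * S.card ≤ (verts f S).card)
    {t r : ℕ} (hr : r ≤ 2 * h * (D - 5)) {L : List ((XD D (D * k) W → Bool) → Bool)}
    (hL : NegCircuit t r L) {F : (XD D (D * k) W → Bool) → Bool} (hF : Source L F)
    (hacc : ∀ (a : Fin D × Fin k → W) x, (∀ v ∈ plD f a, x v = true) → F x = true)
    (hrej : ∀ x, (¬ ∃ a : Fin D × Fin k → W, ∀ v ∈ plD f a, x v = true) → F x = false) :
    2 ^ (h * (w - 2 * D)) ≤ t := by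
  classical
  obtain ⟨d, hd⟩ : ∃ d, D = d + 5 := ⟨D - 5, by omega⟩
  have hd1 : 1 ≤ d := by omega
  have hh3 : 3 ≤ h := by omega
  have hDk : 1 ≤ D * k := Nat.mul_pos (by omega) hk
  have hcW : (0:ℝ) < Fintype.card W := by exact_mod_cast Fintype.card_pos
  have hD2 : D - 2 = d + 3 := by omega
  have hD5 : D - 5 = d := by omega
  have hhD : 2 * h * D + 1 ≤ 2 ^ h := by
    refine le_trans ?_ hN1
    have e1 : 1 ≤ w ^ 2 := Nat.one_le_pow _ _ hw
    have e2 : 1 ≤ (2 * h) ^ (D - 2) := Nat.one_le_pow _ _ (by omega)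
    have e3 : 1 ≤ w ^ 2 * (2 * h) ^ (D - 2) := Nat.one_le_iff_ne_zero.2 (by positivity)
    calc 2 * h * D + 1 ≤ h * (2 * D + 5) := by nlinarith
      _ ≤ 82944 * (h * (2 * D + 5)) * (w ^ 2 * (2 * h) ^ (D - 2)) := by
          have : h * (2 * D + 5) ≤ 82944 * (h * (2 * D + 5)) := by omega
          exact this.trans (Nat.le_mul_of_pos_right _ e3)
      _ = 82944 * w ^ 2 * (h * (2 * D + 5)) * (2 * h) ^ (D - 2) := by ring
  have hr1 : r + 1 ≤ 2 ^ h := by
    have : 2 * h * (D - 5) ≤ 2 * h * D := Nat.mul_le_mul_left _ (by omega)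
    omega
  -- the parameters
  set e := w * (h * (2 * D + 2) + 3) with he
  set M := 2 ^ (2 * h * (d + 2)) with hM
  set R := 2 ^ (2 * h * (d + 1) - 1) with hR
  have hd2 : 2 * h * (d + 1) - 1 = 2 * h * d + (2 * h - 1) := by
    have : 2 * h * (d + 1) = 2 * h * d + 2 * h := by ring
    omega
  have hwe : w ≤ e := by
    rw [he]
    exact Nat.le_mul_of_pos_right _ (by omega)
  set q : ℝ := (1 / (Fintype.card W : ℝ)) ^ (D - 2) with hq
  have hq0 : 0 ≤ q := by positivity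
  set ε : ℝ := (1 / 2) ^ (e - w) with hε
  have hεle : (w:ℝ) * (1 / 2) ^ e ≤ ε := by
    have h1 : ((w : ℕ) : ℝ) ≤ 2 ^ w := by
      exact_mod_cast (Nat.lt_two_pow_self (n := w)).le
    calc (w:ℝ) * (1 / 2) ^ e ≤ 2 ^ w * (1 / 2) ^ e := by gcongr
      _ = ε := by
          have h2 : e = w + (e - w) := by omega
          rw [hε]
          conv_lhs => rw [h2, pow_add, ← mul_assoc, ← mul_pow]
          norm_num
  have hew : w * (h * (2 * D + 2) + 2) = e - w := by
    rw [he]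
    have : w * (h * (2 * D + 2) + 3) = w * (h * (2 * D + 2) + 2) + w := by ring
    omega
  have hε1 : ε < 1 / 2 := by
    have h1 : 2 ≤ e - w := by
      rw [← hew]
      calc 2 = 1 * 2 := by ring
        _ ≤ w * (h * (2 * D + 2) + 2) := Nat.mul_le_mul hw (by omega)
    calc ε ≤ (1 / 2) ^ 2 := pow_le_pow_of_le_one (by norm_num) (by norm_num) h1
      _ < 1 / 2 := by norm_num
  have hκq : 82944 * (e:ℝ) * w * (M : ℕ) * q ≤ (1 / 2) ^ h := by
    have h1 : (4:ℝ) ^ h ≤ 2 * h * Fintype.card W := by exact_mod_cast hW1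
    have h2 : 1 / (Fintype.card W : ℝ) ≤ 2 * h / 4 ^ h := by
      rw [div_le_div_iff₀ hcW (by positivity)]
      linarith
    have h3 : q ≤ (2 * h / 4 ^ h) ^ (D - 2) := by
      rw [hq]
      gcongr
    have h4 : (e:ℝ) ≤ w * (h * (2 * D + 5)) := by
      have : e ≤ w * (h * (2 * D + 5)) := by
        rw [he]
        apply Nat.mul_le_mul_left
        nlinarith
      exact_mod_cast this
    have h5 : (82944:ℝ) * w ^ 2 * (h * (2 * D + 5)) * (2 * h) ^ (D - 2) ≤ 2 ^ h := by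
      exact_mod_cast hN1
    have h6 : (M:ℝ) * (1 / 4 ^ h) ^ (D - 2) = (1 / 2) ^ (2 * h) := by
      rw [hM, hD2]
      push_cast
      have h7 : (1 / (4:ℝ) ^ h) ^ (d + 3) = (1 / 2) ^ (2 * h * (d + 3)) := by
        have h44 : (4:ℝ) ^ h = 2 ^ (2 * h) := by
          rw [pow_mul]
          norm_num
        rw [h44, ← one_div_pow, ← pow_mul]
      rw [h7]
      have h8 : 2 * h * (d + 3) = 2 * h * (d + 2) + 2 * h := by ring
      rw [h8, pow_add, ← mul_assoc, ← mul_pow]
      norm_num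
    calc 82944 * (e:ℝ) * w * (M : ℕ) * q
        ≤ 82944 * (w * (h * (2 * D + 5))) * w * (M : ℕ) * (2 * h / 4 ^ h) ^ (D - 2) := by gcongr
      _ = (82944 * w ^ 2 * (h * (2 * D + 5)) * (2 * h) ^ (D - 2)) *
            ((M:ℝ) * (1 / 4 ^ h) ^ (D - 2)) := by
          rw [div_eq_mul_one_div, mul_pow]
          ring
      _ ≤ 2 ^ h * (1 / 2) ^ (2 * h) := by
          rw [h6]
          gcongr
      _ = (1 / 2) ^ h := by
          rw [two_mul, pow_add, ← mul_assoc, ← mul_pow]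
          norm_num
  have hRM : ((R : ℕ) : ℝ) / (2 * (M : ℕ)) = (1 / 2) ^ (2 * h + 2) := by
    rw [hR, hM, div_eq_iff (by positivity)]
    push_cast
    have h1 : 2 * h * (d + 2) = (2 * h * (d + 1) - 1) + (2 * h + 1) := by
      have : 2 * h * (d + 2) = 2 * h * (d + 1) + 2 * h := by ring
      have : 1 ≤ 2 * h * (d + 1) := Nat.one_le_iff_ne_zero.2 (by positivity)
      omega
    rw [h1, pow_add (2:ℝ) (2 * h * (d + 1) - 1)]
    have h2 : (1 / 2 : ℝ) ^ (2 * h + 2) * (2 * (2 ^ (2 * h * (d + 1) - 1) * 2 ^ (2 * h + 1))) =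
        2 ^ (2 * h * (d + 1) - 1) * ((1 / 2) ^ (2 * h + 2) * 2 ^ (2 * h + 2)) := by
      rw [pow_succ (2:ℝ) (2 * h + 1)]
      ring
    rw [h2, ← mul_pow]
    norm_num
  have hsol : (Fintype.card (Fin D × Fin k → W) : ℝ) * (((R : ℕ) : ℝ) / (2 * (M : ℕ))) ^ (D * k) ≤
      1 / 4 := by
    rw [hRM, Fintype.card_fun, Fintype.card_prod, Fintype.card_fin, Fintype.card_fin]
    push_cast
    have h1 : (Fintype.card W : ℝ) ≤ 2 ^ (2 * h) := by
      have : (Fintype.card W : ℝ) ≤ 4 ^ h := by exact_mod_cast hW2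
      refine this.trans (le_of_eq ?_)
      rw [pow_mul]
      norm_num
    calc (Fintype.card W : ℝ) ^ (D * k) * ((1 / 2) ^ (2 * h + 2)) ^ (D * k)
        ≤ (2 ^ (2 * h)) ^ (D * k) * ((1 / 2) ^ (2 * h + 2)) ^ (D * k) := by gcongr
      _ = (1 / 4) ^ (D * k) := by
          rw [← mul_pow]
          congr 1
          rw [pow_add, ← mul_assoc, ← mul_pow]
          norm_num
      _ ≤ (1 / 4) ^ 1 := pow_le_pow_of_le_one (by norm_num) (by norm_num) hDk
      _ = 1 / 4 := by norm_num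
  have hRle : ((R : ℕ) : ℝ) ≤ 2 * (M : ℕ) := by
    have h1 : R ≤ 2 * M := by
      rw [hR, hM, ← pow_succ']
      apply Nat.pow_le_pow_right (by norm_num)
      have : 2 * h * (d + 1) ≤ 2 * h * (d + 2) := Nat.mul_le_mul_left _ (by omega)
      omega
    exact_mod_cast h1
  have hK : 2 ^ r * (r + 1) ≤ 2 ^ (2 * h * d + h) := by
    calc 2 ^ r * (r + 1) ≤ 2 ^ (2 * h * d) * 2 ^ h := by
          apply Nat.mul_le_mul _ hr1
          apply Nat.pow_le_pow_right (by norm_num)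
          rw [hD5] at hr
          exact hr
      _ = 2 ^ (2 * h * d + h) := by rw [← pow_add]
  have hRK : 2 * (2 ^ r * (r + 1)) ≤ R := by
    calc 2 * (2 ^ r * (r + 1)) ≤ 2 * 2 ^ (2 * h * d + h) := Nat.mul_le_mul_left _ hK
      _ = 2 ^ (2 * h * d + h + 1) := by rw [pow_succ]; ring
      _ ≤ R := by
          rw [hR]
          apply Nat.pow_le_pow_right (by norm_num)
          omega
  have hmain := spread_lower (A := Fin D × Fin k → W) (R := R) (M := M) (plD f) (w := w) (e := e)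
    (g := h) (h := D * k) hw hwe
    (by positivity) hq0 (fun T hT hc => pr_plD_le f hf T hT hc) hκq hh3 hεle hε1
    (fun a => (card_plD f a).ge) hRle hsol hRK hL hF hacc hrej
  -- the errors
  have heta : etaOr (GS (plD (W := W) f) w) ε ≤ (1 / 2) ^ (h * w) := by
    unfold etaOr
    have h1 := card_AdmSets_le (admPred_GS (plD (W := W) f) w)
    have h2 : Fintype.card (XD D (D * k) W) ≤ 2 ^ (h * (2 * D + 1)) := by
      rw [Fintype.card_prod, Fintype.card_fin, Fintype.card_fun, Fintype.card_fin]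
      calc D * k * Fintype.card W ^ D ≤ 2 ^ h * (4 ^ h) ^ D := by gcongr
        _ = 2 ^ (h * (2 * D + 1)) := by
            rw [show (4:ℕ) = 2 ^ 2 by norm_num, ← pow_mul, ← pow_mul, ← pow_add]
            congr 1
            ring
    have h3 : (AdmSets (GS (plD (W := W) f) w)).card ≤ 2 ^ ((h * (2 * D + 1) + 2) * w) := by
      refine h1.trans ?_
      rw [pow_mul]
      apply Nat.pow_le_pow_left
      have : 1 ≤ 2 ^ (h * (2 * D + 1)) := Nat.one_le_two_pow
      rw [pow_add]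
      omega
    have h4 : ((AdmSets (GS (plD (W := W) f) w)).card : ℝ) ≤ 2 ^ ((h * (2 * D + 1) + 2) * w) := by
      exact_mod_cast h3
    have h5 : e - w = (h * (2 * D + 1) + 2) * w + h * w := by
      rw [← hew]
      ring
    calc ((AdmSets (GS (plD (W := W) f) w)).card : ℝ) * ε
        ≤ 2 ^ ((h * (2 * D + 1) + 2) * w) * (1 / 2) ^ ((h * (2 * D + 1) + 2) * w + h * w) := by
          rw [hε, h5]
          gcongr
      _ = (1 / 2) ^ (h * w) := by
          rw [pow_add, ← mul_assoc, ← mul_pow]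
          norm_num
  have hη : ((w:ℝ) + 1) ^ 2 * 2 ^ w * ((1 / 2) ^ h) ^ (w + 1) ≤ (1 / 2) ^ (h * w) := by
    have h1 : ((w:ℝ) + 1) ≤ 2 ^ w := by
      exact_mod_cast (Nat.lt_two_pow_self (n := w))
    have h2 : ((w:ℝ) + 1) ^ 2 * 2 ^ w ≤ 2 ^ h := by
      calc ((w:ℝ) + 1) ^ 2 * 2 ^ w ≤ (2 ^ w) ^ 2 * 2 ^ w := by gcongr
        _ = 2 ^ (3 * w) := by rw [← pow_mul, ← pow_add]; congr 1; ring
        _ ≤ 2 ^ h := pow_le_pow_right₀ (by norm_num) h3w
    calc ((w:ℝ) + 1) ^ 2 * 2 ^ w * ((1 / 2) ^ h) ^ (w + 1)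
        ≤ 2 ^ h * ((1 / 2) ^ h) ^ (w + 1) := by gcongr
      _ = (1 / 2) ^ (h * w) := by
          rw [pow_succ, ← pow_mul, mul_comm ((1 / 2 : ℝ) ^ (h * w)), ← mul_assoc, ← mul_pow]
          norm_num
  by_contra hlt
  push Not at hlt
  have htr : (t:ℝ) + 1 ≤ 2 ^ (h * (w - 2 * D)) := by exact_mod_cast hlt
  have hKr : ((2 ^ r * (r + 1) : ℕ) : ℝ) ≤ 2 ^ (2 * h * d + h) := by exact_mod_cast hK
  set errs : ℝ := etaOr (GS (plD (W := W) f) w) ε + ((w:ℝ) + 1) ^ 2 * 2 ^ w * ((1 / 2) ^ h) ^ (w + 1)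
    with herrs
  have herr : errs ≤ 2 * (1 / 2) ^ (h * w) := by linarith
  have herr0 : 0 ≤ errs := by
    have : 0 ≤ ε := by positivity
    have := etaOr_nonneg (GS (plD (W := W) f) w) this
    positivity
  rcases Nat.lt_or_ge w (2 * D) with hwD | hwD
  · -- the bound is trivial
    have h1 : w - 2 * D = 0 := by omega
    rw [h1, mul_zero, pow_zero] at hlt
    have ht0 : t = 0 := by omega
    subst ht0
    simp only [Nat.cast_zero, zero_mul, mul_zero] at hmain
    linarith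
  · have h1 : (8:ℝ) * ((2 ^ r * (r + 1) : ℕ) : ℝ) * (t * errs) ≤
        8 * 2 ^ (2 * h * d + h) * (2 ^ (h * (w - 2 * D)) * (2 * (1 / 2) ^ (h * w))) := by
      have : (t:ℝ) ≤ 2 ^ (h * (w - 2 * D)) := by linarith
      gcongr
    have h2 : (8:ℝ) * 2 ^ (2 * h * d + h) * (2 ^ (h * (w - 2 * D)) * (2 * (1 / 2) ^ (h * w))) =
        2 ^ (2 * h * d + h + 4 + h * (w - 2 * D)) * (1 / 2) ^ (h * w) := by
      rw [pow_add (2:ℝ) (2 * h * d + h + 4), pow_add (2:ℝ) (2 * h * d + h) 4]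
      ring
    have h3 : h * w = (2 * h * d + h + 4 + h * (w - 2 * D)) + (h * 9 - 4) := by
      obtain ⟨x, hx⟩ : ∃ x, w = 2 * D + x := ⟨w - 2 * D, by omega⟩
      have h4 : w - 2 * D = x := by omega
      rw [h4, hx, hd]
      have h5 : h * (2 * (d + 5) + x) = 2 * h * d + h * 10 + h * x := by ring
      rw [h5]
      omega
    have h4 : (2:ℝ) ^ (2 * h * d + h + 4 + h * (w - 2 * D)) * (1 / 2) ^ (h * w) < 1 := by
      rw [h3, pow_add (1 / 2 : ℝ) (2 * h * d + h + 4 + h * (w - 2 * D)), ← mul_assoc, ← mul_pow]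
      have h5 : ((1:ℝ) / 2) ^ (h * 9 - 4) < 1 :=
        pow_lt_one₀ (by norm_num) (by norm_num) (by omega)
      norm_num at h5 ⊢
      exact h5
    rw [h2] at h1
    linarith

end

end Pool.Agent.H24
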