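import Pool.Agent.H24.Csp

/-!
A bipartite graph with `16` edges at every left vertex in which small sets of edges span many
vertices (union bound over random functions).
-/

namespace Pool.Agent.H24

open Finset

set_option linter.unusedSectionVars false

theorem choose_mul_le (n r : ℕ) : ((n.choose r : ℕ) : ℝ) * (r:ℝ) ^ r ≤ (3 * n) ^ r := by
  have h1 : ((n.choose r : ℕ) : ℝ) ≤ (n:ℝ) ^ r / (r.factorial : ℝ) :=
    Nat.choose_le_pow_div r n
  have h2 : (r:ℝ) ^ r / (r.factorial : ℝ) ≤ 3 ^ r := by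
    refine (Real.pow_div_factorial_le_exp (r:ℝ) (Nat.cast_nonneg _) r).trans ?_
    have h3 : Real.exp (r:ℝ) = Real.exp 1 ^ r := by
      rw [← Real.exp_nat_mul, mul_one]
    rw [h3]
    have := Real.exp_one_lt_d9
    gcongr
    linarith
  have hf : (0:ℝ) < (r.factorial : ℝ) := by exact_mod_cast Nat.factorial_pos r
  calc ((n.choose r : ℕ) : ℝ) * (r:ℝ) ^ r ≤ (n:ℝ) ^ r / (r.factorial : ℝ) * (r:ℝ) ^ r := by
        gcongr
    _ = (n:ℝ) ^ r * ((r:ℝ) ^ r / (r.factorial : ℝ)) := by ring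
    _ ≤ (n:ℝ) ^ r * 3 ^ r := by gcongr
    _ = (3 * n) ^ r := by rw [← mul_pow, mul_comm]

section

variable (q : ℕ)

/-- left and right vertices -/
abbrev GV (q : ℕ) : Type := Fin (16 * q) ⊕ (Fin 16 × Fin q)

/-- pairs with both ends in `U` -/
def prs (U : Finset (GV q)) : Finset (Fin (16 * q) × (Fin 16 × Fin q)) :=
  univ.filter (fun p => Sum.inl p.1 ∈ U ∧ Sum.inr p.2 ∈ U)

theorem card_prs_le (U : Finset (GV q)) : (prs q U).card ≤ U.card ^ 2 := by
  rw [sq, ← Finset.card_product]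
  refine Finset.card_le_card_of_injOn (fun p => (Sum.inl p.1, Sum.inr p.2)) ?_ ?_
  · intro p hp
    rw [Finset.mem_coe, prs, Finset.mem_filter] at hp
    rw [Finset.mem_coe, Finset.mem_product]
    exact hp.2
  · intro p _ p' _ h
    simp only [Prod.mk.injEq, Sum.inl.injEq, Sum.inr.injEq] at h
    exact Prod.ext h.1 h.2

variable {q}

/-- the number of vertices spanned by a set of pairs -/
def nvI {A B : Type} [DecidableEq A] [DecidableEq B] (S : Finset (A × B)) : ℕ :=
  (S.image Prod.fst).card + (S.image Prod.snd).card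

theorem nvI_mono {A B : Type} [DecidableEq A] [DecidableEq B] {S T : Finset (A × B)}
    (h : S ⊆ T) : nvI S ≤ nvI T :=
  Nat.add_le_add (Finset.card_le_card (Finset.image_subset_image h))
    (Finset.card_le_card (Finset.image_subset_image h))

theorem pr_edges_le (hq : 0 < q) (S : Finset (Fin (16 * q) × (Fin 16 × Fin q))) :
    pr (fun f : Fin (16 * q) × Fin 16 → Fin q => ∀ p ∈ S, f (p.1, p.2.1) = p.2.2) ≤
      (1 / (q:ℝ)) ^ S.card := by
  classical
  have : Nonempty (Fin q) := ⟨⟨0, hq⟩⟩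
  have h := pr_values_le (X := Fin (16 * q) × Fin 16) (Y := Fin q)
    (S.image (fun p => ((p.1, p.2.1), p.2.2)))
  rw [Finset.card_image_of_injective _ (by
    rintro ⟨a, b, c⟩ ⟨a', b', c'⟩ h
    simp only [Prod.mk.injEq] at h ⊢
    exact ⟨h.1.1, h.1.2, h.2⟩), Fintype.card_fin] at h
  refine le_trans (pr_mono ?_) h
  intro f hf v hv
  obtain ⟨p, hp, rfl⟩ := Finset.mem_image.1 hv
  exact hf p hp

theorem exists_sparse_aux (hq : 0 < q) {U0 : ℕ} (hU : 500 * U0 ≤ q) :
    ∃ f : Fin (16 * q) × Fin 16 → Fin q, ∀ S : Finset (Fin (16 * q) × (Fin 16 × Fin q)),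
      (∀ p ∈ S, f (p.1, p.2.1) = p.2.2) → nvI S ≤ U0 → S.card ≤ 2 * nvI S := by
  classical
  have : Nonempty (Fin q) := ⟨⟨0, hq⟩⟩
  have hqr : (0:ℝ) < q := by exact_mod_cast hq
  by_contra hcon
  push Not at hcon
  -- every function has a bad witness
  have h1 : (1:ℝ) ≤ pr (fun f : Fin (16 * q) × Fin 16 → Fin q =>
      ∃ u ∈ Finset.Icc 1 U0, ∃ U ∈ Finset.powersetCard u (univ : Finset (GV q)),
        ∃ S ∈ Finset.powersetCard (2 * u) (prs q U), ∀ p ∈ S, f (p.1, p.2.1) = p.2.2) := by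
    rw [← pr_true (Ω := Fin (16 * q) × Fin 16 → Fin q)]
    apply pr_mono
    intro f _
    obtain ⟨S, hS, hSU, hScard⟩ := hcon f
    obtain ⟨S', hS'S, hS'card⟩ := Finset.exists_subset_card_eq (show 2 * nvI S ≤ S.card by omega)
    refine ⟨nvI S, ?_, (S.image Prod.fst).disjSum (S.image Prod.snd), ?_, S', ?_, ?_⟩
    · rw [Finset.mem_Icc]
      refine ⟨?_, hSU⟩
      have hne : S.Nonempty := Finset.card_pos.1 (by omega)
      have := Finset.card_pos.2 (hne.image Prod.fst)
      unfold nvI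
      omega
    · rw [Finset.mem_powersetCard]
      refine ⟨Finset.subset_univ _, ?_⟩
      rw [Finset.card_disjSum]
      rfl
    · rw [Finset.mem_powersetCard]
      refine ⟨?_, hS'card⟩
      intro p hp
      rw [prs, Finset.mem_filter, Finset.inl_mem_disjSum, Finset.inr_mem_disjSum]
      exact ⟨mem_univ _, Finset.mem_image_of_mem _ (hS'S hp), Finset.mem_image_of_mem _ (hS'S hp)⟩
    · intro p hp
      exact hS p (hS'S hp)
  have h2 : pr (fun f : Fin (16 * q) × Fin 16 → Fin q =>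
      ∃ u ∈ Finset.Icc 1 U0, ∃ U ∈ Finset.powersetCard u (univ : Finset (GV q)),
        ∃ S ∈ Finset.powersetCard (2 * u) (prs q U), ∀ p ∈ S, f (p.1, p.2.1) = p.2.2) ≤
      ∑ u ∈ Finset.Icc 1 U0, ((((32 * q).choose u : ℕ) : ℝ) * (((u ^ 2).choose (2 * u) : ℕ) : ℝ)) *
        (1 / (q:ℝ)) ^ (2 * u) := by
    refine (pr_exists_le _ _).trans (Finset.sum_le_sum fun u _ => ?_)
    refine (pr_exists_le _ _).trans ?_
    have h3 : ∀ U ∈ Finset.powersetCard u (univ : Finset (GV q)),
        pr (fun f : Fin (16 * q) × Fin 16 → Fin q =>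
          ∃ S ∈ Finset.powersetCard (2 * u) (prs q U), ∀ p ∈ S, f (p.1, p.2.1) = p.2.2) ≤
          (((u ^ 2).choose (2 * u) : ℕ) : ℝ) * (1 / (q:ℝ)) ^ (2 * u) := by
      intro U hU
      refine (pr_exists_le _ _).trans ?_
      have h4 : ∀ S ∈ Finset.powersetCard (2 * u) (prs q U),
          pr (fun f : Fin (16 * q) × Fin 16 → Fin q => ∀ p ∈ S, f (p.1, p.2.1) = p.2.2) ≤
            (1 / (q:ℝ)) ^ (2 * u) := by
        intro S hS
        rw [Finset.mem_powersetCard] at hS
        rw [← hS.2]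
        exact pr_edges_le hq S
      refine (Finset.sum_le_sum h4).trans ?_
      rw [Finset.sum_const, Finset.card_powersetCard, nsmul_eq_mul]
      rw [Finset.mem_powersetCard] at hU
      have h5 : (prs q U).card.choose (2 * u) ≤ (u ^ 2).choose (2 * u) := by
        apply Nat.choose_le_choose
        rw [← hU.2]
        exact card_prs_le q U
      have h6 : (((prs q U).card.choose (2 * u) : ℕ) : ℝ) ≤ (((u ^ 2).choose (2 * u) : ℕ) : ℝ) := by
        exact_mod_cast h5
      gcongr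
    refine (Finset.sum_le_sum h3).trans ?_
    rw [Finset.sum_const, Finset.card_powersetCard, nsmul_eq_mul, mul_assoc]
    apply le_of_eq
    congr 3
    rw [Finset.card_univ, Fintype.card_sum, Fintype.card_prod, Fintype.card_fin, Fintype.card_fin,
      Fintype.card_fin]
    ring
  have h3 : ∀ u ∈ Finset.Icc 1 U0,
      ((((32 * q).choose u : ℕ) : ℝ) * (((u ^ 2).choose (2 * u) : ℕ) : ℝ)) *
        (1 / (q:ℝ)) ^ (2 * u) ≤ (1 / 2) ^ u := by
    intro u hu
    rw [Finset.mem_Icc] at hu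
    have hur : (0:ℝ) < u := by exact_mod_cast hu.1
    have e1 := choose_mul_le (32 * q) u
    have e2 := choose_mul_le (u ^ 2) (2 * u)
    have e3 : (u:ℝ) ^ u * ((2 * u : ℕ) : ℝ) ^ (2 * u) = (4 * u ^ 3 : ℝ) ^ u := by
      push_cast
      rw [pow_mul, ← mul_pow]
      congr 1
      ring
    have e4 : ((((32 * q).choose u : ℕ) : ℝ) * (((u ^ 2).choose (2 * u) : ℕ) : ℝ)) *
        (4 * u ^ 3 : ℝ) ^ u ≤ (864 * q * u ^ 4) ^ u := by
      rw [← e3]
      calc ((((32 * q).choose u : ℕ) : ℝ) * (((u ^ 2).choose (2 * u) : ℕ) : ℝ)) *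
            ((u:ℝ) ^ u * ((2 * u : ℕ) : ℝ) ^ (2 * u))
          = ((((32 * q).choose u : ℕ) : ℝ) * (u:ℝ) ^ u) *
            ((((u ^ 2).choose (2 * u) : ℕ) : ℝ) * ((2 * u : ℕ) : ℝ) ^ (2 * u)) := by ring
        _ ≤ (3 * ((32 * q : ℕ) : ℝ)) ^ u * (3 * ((u ^ 2 : ℕ) : ℝ)) ^ (2 * u) := by
            gcongr
        _ = (864 * q * u ^ 4) ^ u := by
            rw [pow_mul, ← mul_pow]
            congr 1
            push_cast
            ring
    have e5 : (0:ℝ) < (4 * u ^ 3 : ℝ) ^ u := by positivity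
    have e6 : ((((32 * q).choose u : ℕ) : ℝ) * (((u ^ 2).choose (2 * u) : ℕ) : ℝ)) ≤
        (216 * q * u) ^ u := by
      rw [← mul_le_mul_iff_left₀ e5]
      refine e4.trans (le_of_eq ?_)
      rw [← mul_pow]
      congr 1
      ring
    have e7 : (1 / (q:ℝ)) ^ (2 * u) = (1 / (q:ℝ) ^ 2) ^ u := by
      rw [pow_mul]
      congr 1
      rw [one_div_pow]
    rw [e7]
    calc ((((32 * q).choose u : ℕ) : ℝ) * (((u ^ 2).choose (2 * u) : ℕ) : ℝ)) *
          (1 / (q:ℝ) ^ 2) ^ u ≤ (216 * (q:ℝ) * (u:ℝ)) ^ u * (1 / (q:ℝ) ^ 2) ^ u := by gcongr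
      _ = (216 * (u:ℝ) / (q:ℝ)) ^ u := by
          rw [← mul_pow]
          congr 1
          field_simp
      _ ≤ (1 / 2) ^ u := by
          apply pow_le_pow_left₀ (by positivity)
          rw [div_le_div_iff₀ hqr (by norm_num)]
          have h7 : 500 * (u:ℝ) ≤ q := by
            exact_mod_cast (Nat.mul_le_mul_left 500 hu.2).trans hU
          linarith
  have h4 : ∑ u ∈ Finset.Icc 1 U0, ((1:ℝ) / 2) ^ u < 1 := by
    have h5 : ∀ N : ℕ, ∑ u ∈ Finset.Icc 1 N, ((1:ℝ) / 2) ^ u = 1 - (1 / 2) ^ N := by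
      intro N
      induction N with
      | zero => simp
      | succ N ih =>
        rw [Finset.sum_Icc_succ_top (by omega), ih, pow_succ]
        ring
    rw [h5]
    have : (0:ℝ) < (1 / 2) ^ U0 := by positivity
    linarith
  have h5 := h1.trans (h2.trans (Finset.sum_le_sum h3))
  linarith

/-- **A sparse bipartite graph.** A relation between `Fin (16 q)` and `Fin (16 q)` with exactly
`16` pairs at every left vertex, such that every set `S` of pairs that spans at most `U0 ≤ q / 500`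
vertices has at most twice as many pairs as vertices. -/
theorem exists_sparse (hq : 0 < q) {U0 : ℕ} (hU : 500 * U0 ≤ q) :
    ∃ H : Finset (Fin (16 * q) × Fin (16 * q)), H.card = 16 * (16 * q) ∧
      ∀ S ⊆ H, nvI S ≤ U0 → S.card ≤ 2 * nvI S := by
  classical
  obtain ⟨f, hf⟩ := exists_sparse_aux hq hU
  let e : Fin 16 × Fin q ≃ Fin (16 * q) := finProdFinEquiv
  refine ⟨(univ : Finset (Fin (16 * q) × Fin 16)).image (fun ic => (ic.1, e (ic.2, f ic))), ?_, ?_⟩
  · rw [Finset.card_image_of_injective, Finset.card_univ, Fintype.card_prod, Fintype.card_fin,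
      Fintype.card_fin, Nat.mul_comm]
    rintro ⟨i, c⟩ ⟨i', c'⟩ h
    simp only [Prod.mk.injEq] at h
    have := e.injective h.2
    simp only [Prod.mk.injEq] at this
    exact Prod.ext h.1 this.1
  · intro S hS hnv
    set S' := S.image (fun p => (p.1, e.symm p.2)) with hS'
    have hinj : Function.Injective (fun p : Fin (16 * q) × Fin (16 * q) => (p.1, e.symm p.2)) := by
      intro p p' h
      simp only [Prod.mk.injEq] at h
      exact Prod.ext h.1 (e.symm.injective h.2)
    have h1 : S'.card = S.card := Finset.card_image_of_injective _ hinj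
    have h2 : nvI S' = nvI S := by
      unfold nvI
      rw [hS', Finset.image_image, Finset.image_image]
      congr 1
      have h3 : S.image (Prod.snd ∘ fun p => (p.1, e.symm p.2)) =
          (S.image Prod.snd).image e.symm := by
        rw [Finset.image_image]
        rfl
      rw [h3, Finset.card_image_of_injective _ e.symm.injective]
    have h3 := hf S' (by
      intro p hp
      obtain ⟨s, hs, rfl⟩ := Finset.mem_image.1 hp
      obtain ⟨ic, -, rfl⟩ := Finset.mem_image.1 (hS hs)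
      simp) (by rw [h2]; exact hnv)
    rw [h1, h2] at h3
    exact h3

end

end Pool.Agent.H24
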