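import Pool.Agent.H24.CspLower
import Pool.Agent.H24.ExpGraph

/-!
Systems of pair constraints on a sparse set `H` of pairs of words: the data for the approximation
argument, and the comparison of a random assignment with random noise for monotone circuits.
-/

namespace Pool.Agent.H24

open Finset

set_option linter.unusedSectionVars false

variable {k m : ℕ} (H : Finset (Fin k × Fin k))

/-- the pairs of an assignment in the positions `H` -/
def plH (w : Bool × Fin k → Wd m) : Finset (Ed k m × Bool) :=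
  (planted w).filter (fun l => (l.1.1.1, l.1.2.1) ∈ H)

/-- admissible sets -/
def GH (v : ℕ) : Finset (Ed k m × Bool) → Prop :=
  fun T => (∃ w, T ⊆ plH H w) ∧ nv T ≤ v

variable {H}

theorem card_le_of_plH {U0 : ℕ} (hH : ∀ S ⊆ H, nvI S ≤ U0 → S.card ≤ 2 * nvI S)
    {w : Bool × Fin k → Wd m} {T : Finset (Ed k m × Bool)} (hT : T ⊆ plH H w)
    (hnv : nv T ≤ U0) : T.card ≤ 2 * nv T := by
  classical
  set S := T.image (fun l : Ed k m × Bool => (l.1.1.1, l.1.2.1)) with hS
  have h1 : S.card = T.card := by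
    apply Finset.card_image_of_injOn
    rintro ⟨⟨⟨a, p⟩, ⟨b, q⟩⟩, c⟩ hl ⟨⟨⟨a', p'⟩, ⟨b', q'⟩⟩, c'⟩ hl' h
    obtain ⟨h1, h2, h3⟩ := mem_planted.1 (Finset.mem_filter.1 (hT (Finset.mem_coe.1 hl))).1
    obtain ⟨h1', h2', h3'⟩ := mem_planted.1 (Finset.mem_filter.1 (hT (Finset.mem_coe.1 hl'))).1
    simp only [Prod.mk.injEq] at h h1 h2 h3 h1' h2' h3' ⊢
    obtain ⟨rfl, rfl⟩ := h
    exact ⟨⟨⟨rfl, h1.symm.trans h1'⟩, ⟨rfl, h2.symm.trans h2'⟩⟩, h3.trans h3'.symm⟩
  have h2 : nvI S ≤ nv T := by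
    unfold nvI nv
    apply Nat.add_le_add
    · have : S.image Prod.fst = (vL T).image (fun x => x.1.2) := by
        rw [hS, vL, Finset.image_image, Finset.image_image]
        rfl
      rw [this]
      exact Finset.card_image_le
    · have : S.image Prod.snd = (vR T).image (fun x => x.1.2) := by
        rw [hS, vR, Finset.image_image, Finset.image_image]
        rfl
      rw [this]
      exact Finset.card_image_le
  have h3 : S ⊆ H := by
    intro s hs
    obtain ⟨l, hl, rfl⟩ := Finset.mem_image.1 hs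
    exact (Finset.mem_filter.1 (hT hl)).2
  have h4 := hH S h3 (h2.trans hnv)
  omega

theorem admPred_GH {U0 : ℕ} (hH : ∀ S ⊆ H, nvI S ≤ U0 → S.card ≤ 2 * nvI S) {v : ℕ}
    (hv : v ≤ U0) : AdmPred (GH (m := m) H v) (2 * v) := by
  refine ⟨?_, ?_, ?_, ?_⟩
  · rintro S T h ⟨⟨w, hw⟩, hT⟩
    exact ⟨⟨w, h.trans hw⟩, (nv_mono h).trans hT⟩
  · rintro T ⟨⟨w, hw⟩, -⟩
    exact (cons_planted w).mono (hw.trans (Finset.filter_subset _ _))
  · rintro T ⟨⟨w, hw⟩, hT⟩
    exact (card_le_of_plH hH hw (hT.trans hv)).trans (Nat.mul_le_mul_left 2 hT)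
  · exact ⟨⟨fun _ _ => true, by simp⟩, by simp [nv, vL, vR]⟩

variable (H)

/-- the sparse sets: the pairs of a random assignment in the positions `H` -/
def QH (M : ℕ) (i : ℕ) (ω : Smp (Bool × Fin k → Wd m) (Ed k m) M 1) :
    Finset (Ed k m × Bool) := if i = 0 then Qs M 1 1 ω else plH H ω.1

variable {H}

theorem sc_cspH {U0 : ℕ} (hH : ∀ S ⊆ H, nvI S ≤ U0 → S.card ≤ 2 * nvI S)
    {v e M m' m'' : ℕ} (hv : 2 ≤ v) (hvU : 2 * v ≤ U0) (hve : 2 * v ≤ e) (hM : 0 < M)
    (hm : m' + m'' ≤ m) (hκ : (82944 * e * (2 * v) * M) ^ 2 ≤ 2 ^ m'')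
    {ε : ℝ} (hε : ((2 * v : ℕ) : ℝ) * (1 / 2) ^ e ≤ ε) (hε1 : ε < 1 / 2) :
    Sc (Ω := Smp (Bool × Fin k → Wd m) (Ed k m) M 1) (PD k m M) (QH H M) (GH H v) (2 * v) ε
      ((((2 * v : ℕ) : ℝ) + 1) ^ 2 * 2 ^ (2 * v) * (1 / 2) ^ (m' * v))
      ((2 * v : ℕ) * (1 / 2) ^ m') 1 := by
  have hv0 : 0 < 2 * v := by omega
  have he0 : 0 < e := by omega
  have hMr : (0:ℝ) < M := by exact_mod_cast hM
  have hM1 : (1:ℝ) ≤ M := by exact_mod_cast hM
  have her : (0:ℝ) < e := by exact_mod_cast he0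
  have hvr : (0:ℝ) < ((2 * v : ℕ) : ℝ) := by exact_mod_cast hv0
  have : Nonempty (Fin (M ^ 1) × Bool) := ⟨(⟨0, by positivity⟩, true)⟩
  have hε0 : 0 ≤ ε := le_trans (by positivity) hε
  have hvU' : v ≤ U0 := by omega
  set κ : ℝ := 82944 * e * (2 * v : ℕ) * M with hκdef
  have hκ0 : 0 < κ := by positivity
  have hκ1 : 1 ≤ κ := by
    have h1 : (1:ℝ) ≤ e := by exact_mod_cast he0
    have h2 : (1:ℝ) ≤ ((2 * v : ℕ) : ℝ) := by exact_mod_cast hv0
    have h3 : (1:ℝ) ≤ e * (2 * v : ℕ) * M := by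
      have := one_le_mul_of_one_le_of_one_le (one_le_mul_of_one_le_of_one_le h1 h2) hM1
      exact this
    rw [hκdef]
    nlinarith
  have hκv : κ ^ 2 ≤ 2 ^ m'' := by
    rw [hκdef]
    exact_mod_cast hκ
  have hrsp : RSP (fun ω : Smp (Bool × Fin k → Wd m) (Ed k m) M 1 => Qs M 1 1 ω) (2 * v) ε κ := by
    intro 𝒯 hne r hr hrw hcard hcons hspread
    have h := robust_sunflower_hom (fun ω : Smp (Bool × Fin k → Wd m) (Ed k m) M 1 => Qs M 1 1 ω)
      (p := 1 / (2 * (M:ℝ))) (by positivity)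
      (by rw [div_le_one (by positivity)]; linarith) hv0 hve (kInd_Qs hM _) 𝒯 hne hr hrw hcard
      hcons (κ := κ) (β := 2) (by norm_num) ?_ hspread
    · exact h.trans hε
    · apply le_of_eq
      rw [hκdef]
      field_simp
      ring
  -- the bound on planted sets
  have hplant : ∀ T : Finset (Ed k m × Bool), (∃ w, T ⊆ plH H w) → nv T ≤ 2 * v →
      pr (fun ω : Smp (Bool × Fin k → Wd m) (Ed k m) M 1 => T ⊆ plH H ω.1) ≤
        (1 / 2) ^ (m' * nv T) * (κ⁻¹) ^ T.card := by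
    rintro T ⟨w, hw⟩ hnv
    rw [pr_first hM (fun w => T ⊆ plH H w)]
    have h0 : pr (fun w : Bool × Fin k → Wd m => T ⊆ plH H w) ≤
        pr (fun w : Bool × Fin k → Wd m => T ⊆ planted w) :=
      pr_mono (fun w hw => hw.trans (Finset.filter_subset _ _))
    refine (h0.trans (pr_planted_le T)).trans ?_
    have h1 : T.card ≤ 2 * nv T := card_le_of_plH hH hw (hnv.trans hvU)
    have h2 : κ ^ T.card ≤ 2 ^ (m'' * nv T) := by
      calc κ ^ T.card ≤ κ ^ (2 * nv T) := pow_le_pow_right₀ hκ1 h1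
        _ = (κ ^ 2) ^ nv T := by rw [pow_mul]
        _ ≤ (2 ^ m'') ^ nv T := by gcongr
        _ = 2 ^ (m'' * nv T) := by rw [← pow_mul]
    have h3 : ((1:ℝ) / 2 ^ m) ^ nv T = (1 / 2) ^ (m * nv T) := by
      rw [pow_mul]
      congr 1
      rw [one_div_pow]
    rw [h3]
    have h4 : ((1:ℝ) / 2) ^ (m * nv T) ≤ (1 / 2) ^ (m' * nv T + m'' * nv T) := by
      apply pow_le_pow_of_le_one (by norm_num) (by norm_num)
      rw [← Nat.add_mul]
      exact Nat.mul_le_mul_right _ hm
    refine h4.trans ?_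
    rw [pow_add]
    gcongr
    rw [inv_pow, one_div, inv_pow]
    exact inv_anti₀ (by positivity) h2
  refine ⟨admPred_GH hH hvU', ?_, hε0, by linarith, by positivity, by positivity, ?_, ?_, ?_, ?_⟩
  · intro i ω
    unfold PD QH
    split_ifs
    · exact Finset.Subset.refl _
    · exact Finset.empty_subset _
  · intro i hi l
    have hi0 : i = 0 := by omega
    subst hi0
    have h1 : pr (fun ω : Smp (Bool × Fin k → Wd m) (Ed k m) M 1 => l ∈ Qs M 1 1 ω) =
        1 / (2 * (M:ℝ)) := pr_lit_le M 1 (le_refl 1) (kInd_Qs hM 1) l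
    have h2 : pr (fun ω : Smp (Bool × Fin k → Wd m) (Ed k m) M 1 => l ∉ PD k m M 0 ω) =
        1 - 1 / (2 * (M:ℝ)) := by
      rw [← h1, ← pr_compl]
      apply pr_congr
      intro ω
      simp [PD]
    rw [h2]
    have h3 : 1 / (2 * (M:ℝ)) ≤ 1 / 2 := by
      rw [div_le_div_iff₀ (by positivity) (by norm_num)]
      linarith
    linarith
  · intro l
    by_cases hl : ∃ w, l ∈ plH H w
    · left
      obtain ⟨w, hw⟩ := hl
      refine ⟨⟨w, by simpa using hw⟩, ?_⟩
      simp only [nv, vL, vR, Finset.image_singleton, Finset.card_singleton]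
      exact hv
    · right
      intro i _ ω h
      simp only [QH, Nat.add_eq_zero_iff, one_ne_zero, and_false, if_false] at h
      exact hl ⟨_, h⟩
  · intro i hi A B hA hB
    have hi0 : i = 0 := by omega
    subst hi0
    have hPQ : PD k m M 0 = fun ω => Qs M 1 1 ω := by
      funext ω
      simp [PD]
    rw [hPQ] at hA hB
    have hQ1 : QH H M (0 + 1) = fun ω : Smp (Bool × Fin k → Wd m) (Ed k m) M 1 => plH H ω.1 := by
      funext ω
      simp [QH]
    rw [hQ1]
    refine and_error' (admPred_GH hH hvU') hκ0 hrsp hε0 hA hB (by positivity) ?_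
    intro S T hS hT hST
    have hnv1 : nv (S ∪ T) ≤ 2 * v := by
      have h1 := nv_union_le S T
      have h2 := hS.2
      have h3 := hT.2
      omega
    by_cases hex : ∃ w, S ∪ T ⊆ plH H w
    · have hnv2 : v < nv (S ∪ T) := by
        by_contra hle
        exact hST ⟨hex, by omega⟩
      refine (hplant _ hex hnv1).trans ?_
      apply mul_le_mul_of_nonneg_right _ (by positivity)
      apply pow_le_pow_of_le_one (by norm_num) (by norm_num)
      exact Nat.mul_le_mul_left _ hnv2.le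
    · have : pr (fun ω : Smp (Bool × Fin k → Wd m) (Ed k m) M 1 => S ∪ T ⊆ plH H ω.1) ≤
          pr (fun _ : Smp (Bool × Fin k → Wd m) (Ed k m) M 1 => False) :=
        pr_mono (fun ω h => hex ⟨_, h⟩)
      rw [pr_false] at this
      exact this.trans (by positivity)
  · intro i hi A hA hne
    have hi0 : i = 0 := by omega
    subst hi0
    have hPQ : PD k m M 0 = fun ω => Qs M 1 1 ω := by
      funext ω
      simp [PD]
    rw [hPQ] at hA
    have hQ1 : QH H M (0 + 1) = fun ω : Smp (Bool × Fin k → Wd m) (Ed k m) M 1 => plH H ω.1 := by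
      funext ω
      simp [QH]
    rw [hQ1]
    refine (zeta_error' (admPred_GH hH hvU') hκ0 hrsp hA hne (f := fun _ => (1 / 2) ^ m')
      (fun _ => by positivity) ?_).trans ?_
    · intro T hT hTne
      refine (hplant T hT.1 (by have := hT.2; omega)).trans ?_
      apply mul_le_mul_of_nonneg_right _ (by positivity)
      apply pow_le_pow_of_le_one (by norm_num) (by norm_num)
      have : 1 ≤ nv T := by
        obtain ⟨l, hl⟩ := Finset.nonempty_iff_ne_empty.2 hTne
        have : 0 < (vL T).card := Finset.card_pos.2 ⟨_, Finset.mem_image_of_mem _ hl⟩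
        unfold nv
        omega
      exact Nat.le_mul_of_pos_right _ this
    · rw [Finset.sum_const, Finset.card_range, nsmul_eq_mul]

/-- **Noise dominates a random assignment.** For a monotone circuit, the event that it accepts the
pairs of the random assignment but rejects the noise has small probability. -/
theorem noise_dominates {M : ℕ} (hM : 0 < M)
    {P Q : ℕ → Smp (Bool × Fin k → Wd m) (Ed k m) M 1 → Finset (Ed k m × Bool)}
    {G : Finset (Ed k m × Bool) → Prop} {w : ℕ} {ε η ζ : ℝ}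
    (hS : Sc P Q G w ε η ζ 1) {t : ℕ} {L : List ((Ed k m → Bool) → Bool)}
    {F : (Ed k m → Bool) → Bool} (hL : NegCircuit t 0 L) (hF : Source L F) :
    pr (fun ω => ev (pos F) (Q 1 ω) = true ∧ ev (pos F) (P 0 ω) = false) ≤
      t * (etaOr G ε + η) + ζ := by
  have : Nonempty (Fin (M ^ 1) × Bool) := ⟨(⟨0, by positivity⟩, true)⟩
  have : Nonempty (Smp (Bool × Fin k → Wd m) (Ed k m) M 1) := inferInstance
  have he0 := etaOr_nonneg G hS.ε0
  have hη0 := hS.η0
  have hζ0 := hS.ζ0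
  by_cases hbig : (1:ℝ) ≤ t * (etaOr G ε + η) + ζ
  · exact (pr_le_one _).trans hbig
  push Not at hbig
  obtain ⟨a, b, Bad, hab, hbR, hlen, hpr, hrep⟩ := sc_induction hS (circuit_pos hL) 0 (le_refl 0)
    (by norm_num) (by push_cast; linarith)
  have ha : a = 0 ∧ b = 1 := by simp at hlen; omega
  obtain ⟨rfl, rfl⟩ := ha
  obtain ⟨mm, hmm, hrepF⟩ := rp_of_source hS hbR Bad hrep (source_pos hF)
  obtain ⟨A, hA, hAω⟩ := hrepF 0 (le_refl _) (by norm_num)
  have hpr' : pr Bad ≤ t * (etaOr G ε + η) := by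
    refine hpr.trans (le_of_eq ?_)
    push_cast
    ring
  by_cases hne : ∅ ∈ A
  · have h1 : pr (fun ω => ev (pos F) (Q 1 ω) = true ∧ ev (pos F) (P 0 ω) = false) ≤ pr Bad := by
      apply pr_mono
      rintro ω ⟨-, h2⟩
      by_contra hω
      have := (hAω ω hω).2.2.1 ⟨∅, hne, Finset.empty_subset _⟩
      rw [h2] at this
      exact Bool.noConfusion this
    linarith
  · have h1 : pr (fun ω => ev (pos F) (Q 1 ω) = true ∧ ev (pos F) (P 0 ω) = false) ≤
        pr (fun ω => Bad ω ∨ ∃ T ∈ A, T ⊆ Q (0 + 1) ω) := by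
      apply pr_mono
      rintro ω ⟨h2, -⟩
      by_cases hω : Bad ω
      · exact Or.inl hω
      · exact Or.inr ((hAω ω hω).2.2.2 h2)
    refine h1.trans ((pr_or_le _ _).trans ?_)
    have := hS.zeta 0 (by norm_num) A hA hne
    linarith

end Pool.Agent.H24
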