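import Pool.Agent.H24.Csp

/-!
The monotone circuit lower bound for systems of pair constraints.
-/

namespace Pool.Agent.H24

open Finset

set_option linter.unusedSectionVars false

variable {k m : ℕ}

/-- positive reading of a function of the pair bits -/
def pos {V : Type} (u : (V → Bool) → Bool) : (V × Bool → Bool) → Bool :=
  fun z => u (fun e => z (e, true))

theorem source_pos {V : Type} {L : List ((V → Bool) → Bool)} {u : (V → Bool) → Bool}
    (h : Source L u) : Source (L.map pos) (pos u) := by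
  rcases h with ⟨v, rfl⟩ | ⟨c, rfl⟩ | h
  · exact Or.inl ⟨(v, true), rfl⟩
  · exact Or.inr (Or.inl ⟨c, rfl⟩)
  · exact Or.inr (Or.inr (List.mem_map_of_mem h))

theorem circuit_pos {V : Type} {t r : ℕ} {L : List ((V → Bool) → Bool)}
    (h : NegCircuit t r L) : NegCircuit t r (L.map pos) := by
  induction h with
  | nil => exact NegCircuit.nil
  | and _ hu hv ih => exact NegCircuit.and ih (source_pos hu) (source_pos hv)
  | or _ hu hv ih => exact NegCircuit.or ih (source_pos hu) (source_pos hv)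
  | not _ hu ih => exact NegCircuit.not ih (source_pos hu)

/-- The system of allowed pairs `a` has a solution. -/
def Sol (a : Ed k m → Bool) : Prop :=
  ∃ w : Bool × Fin k → Wd m, ∀ i j : Fin k, a ((i, w (false, i)), (j, w (true, j))) = true

theorem cons_planted (w : Bool × Fin k → Wd m) : Cons (planted w) := by
  intro x hx
  have := (mem_planted.1 hx.2).2.2
  simp at this

theorem card_planted (w : Bool × Fin k → Wd m) : (planted w).card = k * k := by
  classical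
  have h1 : planted w = (univ : Finset (Fin k × Fin k)).image
      (fun ij => (((ij.1, w (false, ij.1)), (ij.2, w (true, ij.2))), true)) := by
    ext ⟨⟨⟨a, p⟩, ⟨b, q⟩⟩, c⟩
    rw [mem_planted]
    simp only [mem_image, mem_univ, true_and, Prod.mk.injEq, Prod.exists]
    constructor
    · rintro ⟨h1, h2, h3⟩
      exact ⟨a, b, ⟨⟨rfl, h1⟩, ⟨rfl, h2⟩⟩, h3.symm⟩
    · rintro ⟨a', b', ⟨⟨rfl, h1⟩, ⟨rfl, h2⟩⟩, h3⟩
      exact ⟨h1, h2, h3.symm⟩
  rw [h1, Finset.card_image_of_injective]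
  · simp
  · rintro ⟨a, b⟩ ⟨a', b'⟩ h
    simp only [Prod.mk.injEq] at h
    exact Prod.ext h.1.1.1 h.1.2.1

theorem csp_lower_aux {v M m' : ℕ} (hv : 2 ≤ v) (hM : 0 < M)
    (hkm : k ≤ 2 ^ m) (hm : 2 * m' ≤ m) (hm' : 0 < m')
    (hκ : (82944 * ((8 * m + 5) * v ^ 2) * v ^ 2 * M) ^ v ≤ 2 ^ m')
    (hMk : 2 * (2 ^ m) ^ (2 * k) ≤ (2 * M) ^ (k * k))
    (hv2 : 16 * ((v ^ 2 + 1) ^ 2 * 2 ^ (v ^ 2)) ≤ 2 ^ m')
    {t : ℕ} {L : List ((Ed k m → Bool) → Bool)} {F : (Ed k m → Bool) → Bool}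
    (hL : NegCircuit t 0 L) (hF : Source L F)
    (hacc : ∀ a, Sol a → F a = true) (hrej : ∀ a, ¬ Sol a → F a = false) :
    2 ^ (m' * (v - 1)) ≤ t := by
  classical
  set K := 2 * ((4 * m + 2) * v ^ 2) with hK
  set e := (8 * m + 5) * v ^ 2 with he
  have heK : e = K + v ^ 2 := by rw [he, hK]; ring
  have hv2pos : 0 < v ^ 2 := by positivity
  have hMr : (0:ℝ) < M := by exact_mod_cast hM
  have hK2 : 2 ≤ K := by
    have : 0 < (4 * m + 2) * v ^ 2 := by positivity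
    omega
  have hve : v ^ 2 ≤ e := by omega
  have hε : ((v ^ 2 : ℕ) : ℝ) * (1 / 2) ^ e ≤ (1 / 2) ^ K := by
    have h2 : ((v ^ 2 : ℕ) : ℝ) ≤ 2 ^ (v ^ 2) := by
      exact_mod_cast (Nat.lt_two_pow_self (n := v ^ 2)).le
    calc ((v ^ 2 : ℕ) : ℝ) * (1 / 2) ^ e ≤ 2 ^ (v ^ 2) * (1 / 2) ^ e := by gcongr
      _ = (1 / 2) ^ K := by
          rw [heK, pow_add, mul_comm ((1 / 2 : ℝ) ^ K), ← mul_assoc, ← mul_pow]
          norm_num
  have hε1 : ((1:ℝ) / 2) ^ K < 1 / 2 := by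
    calc ((1:ℝ) / 2) ^ K ≤ (1 / 2) ^ 2 := pow_le_pow_of_le_one (by norm_num) (by norm_num) hK2
      _ < 1 / 2 := by norm_num
  have hsc := sc_csp (k := k) (m := m) hv hve hM hm hκ hε hε1
  have : Nonempty (Fin (M ^ 1) × Bool) := ⟨(⟨0, by positivity⟩, true)⟩
  have : Nonempty (Smp (Bool × Fin k → Wd m) (Ed k m) M 1) := inferInstance
  have habs := abstract_lower hsc (circuit_pos hL) (source_pos hF) (rmax := 0) (le_refl 0)
    (by norm_num) ?_ ?_
  · -- numerical part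
    have hor : etaOr (GE k m v) ((1 / 2) ^ K) ≤ (1 / 2) ^ ((4 * m + 2) * v ^ 2) := by
      unfold etaOr
      have h1 : ((AdmSets (GE k m v)).card : ℝ) ≤ 2 ^ ((4 * m + 2) * v ^ 2) := by
        have h2 := card_AdmSets_le (admPred_GE (k := k) (m := m) v)
        have h3 : Fintype.card (Ed k m) ≤ 2 ^ (4 * m) := by
          have : Fintype.card (Ed k m) = (k * 2 ^ m) * (k * 2 ^ m) := by
            simp [Fintype.card_prod]
          rw [this]
          calc (k * 2 ^ m) * (k * 2 ^ m) ≤ (2 ^ m * 2 ^ m) * (2 ^ m * 2 ^ m) := by gcongr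
            _ = 2 ^ (4 * m) := by rw [← pow_add, ← pow_add]; congr 1; ring
        have h4 : (2 * Fintype.card (Ed k m) + 1) ^ (v ^ 2) ≤ 2 ^ ((4 * m + 2) * v ^ 2) := by
          rw [pow_mul 2]
          apply Nat.pow_le_pow_left
          have : 1 ≤ 2 ^ (4 * m) := Nat.one_le_two_pow
          rw [pow_add]
          omega
        exact_mod_cast h2.trans h4
      calc ((AdmSets (GE k m v)).card : ℝ) * (1 / 2) ^ K
          ≤ 2 ^ ((4 * m + 2) * v ^ 2) * (1 / 2) ^ K := by gcongr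
        _ = (1 / 2) ^ ((4 * m + 2) * v ^ 2) := by
            rw [hK, two_mul, pow_add, ← mul_assoc, ← mul_pow]
            norm_num
    have hv2r : 16 * ((((v ^ 2 : ℕ) : ℝ) + 1) ^ 2 * 2 ^ (v ^ 2)) ≤ 2 ^ m' := by exact_mod_cast hv2
    have h2m' : (0:ℝ) < 2 ^ m' := by positivity
    have hexp : (1 / 2 : ℝ) ^ (m' * v) = (1 / 2) ^ (m' * (v - 1)) * (1 / 2) ^ m' := by
      rw [← pow_add]
      congr 1
      have : v = (v - 1) + 1 := by omega
      conv_lhs => rw [this]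
      ring
    have hη : (((v ^ 2 : ℕ) : ℝ) + 1) ^ 2 * 2 ^ (v ^ 2) * (1 / 2) ^ (m' * v) ≤
        (1 / 16) * (1 / 2) ^ (m' * (v - 1)) := by
      rw [hexp]
      have h3 : (((v ^ 2 : ℕ) : ℝ) + 1) ^ 2 * 2 ^ (v ^ 2) * (1 / 2) ^ m' ≤ 1 / 16 := by
        rw [one_div_pow, mul_one_div, div_le_iff₀ h2m']
        linarith
      calc (((v ^ 2 : ℕ) : ℝ) + 1) ^ 2 * 2 ^ (v ^ 2) * ((1 / 2) ^ (m' * (v - 1)) * (1 / 2) ^ m')
          = (((v ^ 2 : ℕ) : ℝ) + 1) ^ 2 * 2 ^ (v ^ 2) * (1 / 2) ^ m' *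
              (1 / 2) ^ (m' * (v - 1)) := by ring
        _ ≤ (1 / 16) * (1 / 2) ^ (m' * (v - 1)) := by gcongr
    have hζ : ((v ^ 2 : ℕ) : ℝ) * (1 / 2) ^ m' ≤ 1 / 16 := by
      have h3 : ((v ^ 2 : ℕ) : ℝ) ≤ (((v ^ 2 : ℕ) : ℝ) + 1) ^ 2 * 2 ^ (v ^ 2) := by
        have h4 : (1:ℝ) ≤ 2 ^ (v ^ 2) := one_le_pow₀ (by norm_num)
        have h5 : (0:ℝ) ≤ ((v ^ 2 : ℕ) : ℝ) := Nat.cast_nonneg _
        nlinarith
      rw [one_div_pow, mul_one_div, div_le_iff₀ h2m']
      linarith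
    have hor2 : (1 / 2 : ℝ) ^ ((4 * m + 2) * v ^ 2) ≤ (1 / 16) * (1 / 2) ^ (m' * (v - 1)) := by
      have h3 : m' * (v - 1) + 4 ≤ (4 * m + 2) * v ^ 2 := by
        have h4 : v - 1 ≤ v ^ 2 := (Nat.sub_le _ _).trans (Nat.le_self_pow (by norm_num) v)
        have h5 : 4 ≤ v ^ 2 := by nlinarith
        calc m' * (v - 1) + 4 ≤ m * v ^ 2 + v ^ 2 := by
              apply Nat.add_le_add _ h5
              exact Nat.mul_le_mul (by omega) h4
          _ ≤ (4 * m + 2) * v ^ 2 := by nlinarith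
      calc (1 / 2 : ℝ) ^ ((4 * m + 2) * v ^ 2) ≤ (1 / 2) ^ (m' * (v - 1) + 4) :=
            pow_le_pow_of_le_one (by norm_num) (by norm_num) h3
        _ = (1 / 16) * (1 / 2) ^ (m' * (v - 1)) := by rw [pow_add]; norm_num; ring
    have hfin : (1:ℝ) / 2 ≤ t * ((1 / 8) * (1 / 2) ^ (m' * (v - 1))) + 1 / 16 := by
      have h6 : ((1 : ℕ) : ℝ) * (etaOr (GE k m v) ((1 / 2) ^ K) +
          (((v ^ 2 : ℕ) : ℝ) + 1) ^ 2 * 2 ^ (v ^ 2) * (1 / 2) ^ (m' * v)) ≤
          (1 / 8) * (1 / 2) ^ (m' * (v - 1)) := by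
        push_cast at *
        linarith
      have h7 : (t:ℝ) * (((1 : ℕ) : ℝ) * (etaOr (GE k m v) ((1 / 2) ^ K) +
          (((v ^ 2 : ℕ) : ℝ) + 1) ^ 2 * 2 ^ (v ^ 2) * (1 / 2) ^ (m' * v))) ≤
          t * ((1 / 8) * (1 / 2) ^ (m' * (v - 1))) :=
        mul_le_mul_of_nonneg_left h6 (Nat.cast_nonneg _)
      push_cast at *
      linarith
    have h8 : (2:ℝ) ^ (m' * (v - 1)) ≤ t := by
      have h9 : (0:ℝ) < (1 / 2) ^ (m' * (v - 1)) := by positivity
      have h10 : (1:ℝ) ≤ t * (1 / 2) ^ (m' * (v - 1)) := by nlinarith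
      rw [one_div_pow, mul_one_div, le_div_iff₀ (by positivity), one_mul] at h10
      exact h10
    exact_mod_cast h8
  · -- dense side is rejected with probability at least one half
    intro i hi
    have hi0 : i = 0 := by omega
    subst hi0
    have h1 : pr (fun ω : Smp (Bool × Fin k → Wd m) (Ed k m) M 1 =>
        ev (pos F) (PD k m M 0 ω) = true) ≤
        pr (fun ω : Smp (Bool × Fin k → Wd m) (Ed k m) M 1 =>
          ∃ w ∈ (univ : Finset (Bool × Fin k → Wd m)), planted w ⊆ Qs M 1 1 ω) := by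
      apply pr_mono
      intro ω hω
      have hPD : PD k m M 0 ω = Qs M 1 1 ω := by simp [PD]
      rw [hPD] at hω
      by_contra hno
      have h2 : ¬ Sol (fun e : Ed k m => decide ((e, true) ∈ Qs M 1 1 ω)) := by
        rintro ⟨w, hw⟩
        apply hno
        refine ⟨w, mem_univ _, ?_⟩
        rintro ⟨⟨⟨a, p⟩, ⟨b, q⟩⟩, c⟩ hl
        obtain ⟨h3, h4, h5⟩ := mem_planted.1 hl
        simp only at h3 h4 h5
        have h6 := hw a b
        rw [h3, h4, decide_eq_true_eq] at h6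
        rw [h5]
        exact h6
      have h3 := hrej _ h2
      rw [ev, pos, h3] at hω
      exact Bool.noConfusion hω
    refine h1.trans ((pr_exists_le _ _).trans ?_)
    have h2 : ∀ w ∈ (univ : Finset (Bool × Fin k → Wd m)),
        pr (fun ω : Smp (Bool × Fin k → Wd m) (Ed k m) M 1 => planted w ⊆ Qs M 1 1 ω) ≤
          (1 / (2 * (M:ℝ))) ^ (k * k) := by
      intro w _
      have h3 := kInd_Qs (A := Bool × Fin k → Wd m) (X := Ed k m) hM (k * k) (planted w)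
        (card_planted w).le
      rw [if_pos (cons_planted w), card_planted] at h3
      exact h3.le
    refine (Finset.sum_le_sum h2).trans ?_
    rw [Finset.sum_const, nsmul_eq_mul, Finset.card_univ]
    have h3 : Fintype.card (Bool × Fin k → Wd m) = (2 ^ m) ^ (2 * k) := by
      rw [Fintype.card_fun]
      simp
    rw [h3]
    have h4 : (2:ℝ) * ((2 ^ m) ^ (2 * k)) ≤ (2 * M) ^ (k * k) := by exact_mod_cast hMk
    push_cast
    rw [one_div_pow, mul_one_div, div_le_iff₀ (by positivity)]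
    linarith
  · -- sparse side is accepted
    intro i hi
    have hi0 : i = 0 := by omega
    subst hi0
    have h1 : pr (fun ω : Smp (Bool × Fin k → Wd m) (Ed k m) M 1 =>
        ev (pos F) (QD k m M (0 + 1) ω) = false) ≤
        pr (fun _ : Smp (Bool × Fin k → Wd m) (Ed k m) M 1 => False) := by
      apply pr_mono
      intro ω hω
      have hQD : QD k m M (0 + 1) ω = planted ω.1 := by simp [QD]
      rw [hQD] at hω
      have h2 : Sol (fun e : Ed k m => decide ((e, true) ∈ planted ω.1)) := by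
        refine ⟨ω.1, fun i j => ?_⟩
        rw [decide_eq_true_eq]
        exact mem_planted.2 ⟨rfl, rfl, rfl⟩
      have h3 := hacc _ h2
      rw [ev, pos, h3] at hω
      exact Bool.noConfusion hω
    rw [pr_false] at h1
    linarith

/-- **Monotone lower bound for pair constraints.** -/
theorem csp_lower (hk : 64 ≤ k) (hkm : 2 ^ k ≤ m)
    {t : ℕ} {L : List ((Ed k m → Bool) → Bool)} {F : (Ed k m → Bool) → Bool}
    (hL : NegCircuit t 0 L) (hF : Source L F)
    (hacc : ∀ a, Sol a → F a = true) (hrej : ∀ a, ¬ Sol a → F a = false) :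
    2 ^ (m / 2 * (k / 16 - 1)) ≤ t := by
  have hk0 : 0 < k := by omega
  have hm0 : m ≠ 0 := by
    have : 0 < 2 ^ k := by positivity
    omega
  set v := k / 16 with hv
  have hv4 : 4 ≤ v := by omega
  have hvk : v * 16 ≤ k := Nat.div_mul_le_self _ _
  set μ := 2 * m / k + 1 with hμ
  set ℓ := Nat.log 2 m with hℓ
  have hkℓ : k ≤ ℓ := by
    rw [hℓ]
    exact (Nat.le_log_iff_pow_le (by norm_num) hm0).2 hkm
  have hmℓ : 2 ^ ℓ ≤ m := Nat.pow_log_le_self 2 hm0
  have hmℓ' : m < 2 ^ (ℓ + 1) := Nat.lt_pow_succ_log_self (by norm_num) m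
  have hℓ64 : 64 ≤ ℓ := by omega
  -- `4 ℓ^2 ≤ m`
  have hpow : ∀ x : ℕ, 16 ≤ x → 16 * x ^ 2 ≤ 2 ^ x := by
    intro x hx
    induction x, hx using Nat.le_induction with
    | base => norm_num
    | succ x hx ih =>
      rw [pow_succ 2 x]
      nlinarith
  have hℓm : 16 * ℓ ^ 2 ≤ m := (hpow ℓ (by omega)).trans hmℓ
  have hm2 : 2 * (m / 2) ≤ m := Nat.mul_div_le _ _
  have hm2' : m < 2 * (m / 2) + 2 := by omega
  have hmbig : 2 ^ 16 ≤ m := (Nat.pow_le_pow_right (by norm_num) (by omega)).trans hmℓ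
  have hvℓ : v * 16 ≤ ℓ := by omega
  refine csp_lower_aux (v := v) (M := 2 ^ μ) (m' := m / 2) (by omega) (by positivity) ?_ hm2
    (by omega) ?_ ?_ ?_ hL hF hacc hrej
  · exact (Nat.lt_two_pow_self (n := k)).le.trans (hkm.trans (Nat.lt_two_pow_self (n := m)).le)
  · -- the spread condition
    have h1 : 82944 * ((8 * m + 5) * v ^ 2) * v ^ 2 * 2 ^ μ ≤
        2 ^ 21 * 2 ^ (ℓ + 1) * (2 ^ v) ^ 4 * 2 ^ μ := by
      have h2 : v ≤ 2 ^ v := (Nat.lt_two_pow_self (n := v)).le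
      calc 82944 * ((8 * m + 5) * v ^ 2) * v ^ 2 * 2 ^ μ
          ≤ 82944 * ((13 * m) * v ^ 2) * v ^ 2 * 2 ^ μ := by
            gcongr
            omega
        _ = 1078272 * m * v ^ 4 * 2 ^ μ := by ring
        _ ≤ 2 ^ 21 * 2 ^ (ℓ + 1) * (2 ^ v) ^ 4 * 2 ^ μ := by
            gcongr
            norm_num
    have h3 : 2 ^ 21 * 2 ^ (ℓ + 1) * (2 ^ v) ^ 4 * 2 ^ μ = 2 ^ (21 + (ℓ + 1) + 4 * v + μ) := by
      rw [← pow_mul, ← pow_add, ← pow_add, ← pow_add]
      congr 1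
      ring
    rw [h3] at h1
    refine (Nat.pow_le_pow_left h1 v).trans ?_
    rw [← pow_mul]
    apply Nat.pow_le_pow_right (by norm_num)
    have h4 : μ * v ≤ m / 8 + v := by
      rw [hμ, Nat.add_mul, Nat.one_mul]
      apply Nat.add_le_add_right
      rw [Nat.le_div_iff_mul_le (by norm_num)]
      have h5 : 2 * m / k * k ≤ 2 * m := Nat.div_mul_le_self _ _
      have h6 : 2 * m / k * (v * 16) ≤ 2 * m / k * k := Nat.mul_le_mul_left _ hvk
      have h7 : 2 * m / k * v * 8 * 2 = 2 * m / k * (v * 16) := by ring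
      omega
    have h8 : (21 + (ℓ + 1) + 4 * v + μ) * v = (22 + ℓ + 4 * v) * v + μ * v := by ring
    rw [h8]
    have h9 : (22 + ℓ + 4 * v) * v * 16 ≤ 4 * ℓ ^ 2 := by
      calc (22 + ℓ + 4 * v) * v * 16 = (22 + ℓ + 4 * v) * (v * 16) := by rw [Nat.mul_assoc]
        _ ≤ (22 + ℓ + 4 * v) * ℓ := Nat.mul_le_mul_left _ hvℓ
        _ ≤ (4 * ℓ) * ℓ := Nat.mul_le_mul_right _ (by omega)
        _ = 4 * ℓ ^ 2 := by ring
    have h12 : ℓ ≤ ℓ ^ 2 := Nat.le_self_pow (by norm_num) ℓ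
    generalize hp : (22 + ℓ + 4 * v) * v = p at h9 ⊢
    generalize hq : ℓ ^ 2 = q at h9 hℓm h12
    generalize hr : μ * v = r at h4 ⊢
    omega
  · -- the density condition
    have h1 : 2 * m + 1 ≤ k * μ := by
      rw [hμ, Nat.mul_add, Nat.mul_one]
      have := Nat.lt_mul_div_succ (2 * m) hk0
      rw [Nat.mul_add, Nat.mul_one] at this
      omega
    calc 2 * (2 ^ m) ^ (2 * k) = 2 ^ (1 + m * (2 * k)) := by rw [pow_add, pow_one, ← pow_mul]
      _ ≤ 2 ^ ((μ + 1) * (k * k)) := by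
          apply Nat.pow_le_pow_right (by norm_num)
          calc 1 + m * (2 * k) ≤ k + m * (2 * k) := by omega
            _ = (2 * m + 1) * k := by ring
            _ ≤ (k * μ) * k := Nat.mul_le_mul_right _ h1
            _ ≤ (μ + 1) * (k * k) := by nlinarith
      _ = (2 * 2 ^ μ) ^ (k * k) := by
          rw [pow_mul]
          congr 1
          rw [pow_succ]
          ring
  · have h1 : v ^ 2 + 1 ≤ 2 ^ (v ^ 2) := Nat.lt_two_pow_self
    calc 16 * ((v ^ 2 + 1) ^ 2 * 2 ^ (v ^ 2)) ≤ 2 ^ 4 * ((2 ^ (v ^ 2)) ^ 2 * 2 ^ (v ^ 2)) := by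
          gcongr
          norm_num
      _ = 2 ^ (4 + 3 * v ^ 2) := by
          rw [← pow_mul, ← pow_add, ← pow_add]
          congr 1
          ring
      _ ≤ 2 ^ (m / 2) := by
          apply Nat.pow_le_pow_right (by norm_num)
          have h2 : v ^ 2 ≤ ℓ ^ 2 := Nat.pow_le_pow_left (by omega) 2
          have h3 : 1 ≤ ℓ ^ 2 := Nat.one_le_pow _ _ (by omega)
          omega

end Pool.Agent.H24
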