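import Pool.Agent.H24.Chain

/-!
The lower bound for systems of pair constraints against circuits with few NOT gates.
-/

namespace Pool.Agent.H24

open Finset

set_option linter.unusedSectionVars false

/-- The numerical part. -/
theorem numeric_neg {A t v m : ℕ} {eo x y : ℝ} (hv : 3 ≤ v)
    (hA : A ≤ 2 ^ (m / 16 + 2)) (ht : t < 2 ^ (m / 4 * (v - 2))) (hvm : 8 * (4 + 6 * v) ≤ m)
    (heo : eo ≤ (1 / 2) ^ ((4 * m + 2) * (2 * v))) (hx : x ≤ 1 / 4)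
    (hy : y = (((2 * v : ℕ) : ℝ) + 1) ^ 2 * 2 ^ (2 * v) * (1 / 2) ^ (m / 4 * v)) :
    (A:ℝ) * (t * (eo + y) + (2 * v : ℕ) * (1 / 2) ^ (m / 4)) + x < 1 := by
  set m' := m / 4 with hm'
  have hAr : (A:ℝ) ≤ 2 ^ (m / 16 + 2) := by exact_mod_cast hA
  have htr : (t:ℝ) ≤ 2 ^ (m' * (v - 2)) := by exact_mod_cast ht.le
  have hA0 : (0:ℝ) ≤ A := Nat.cast_nonneg _
  have ht0 : (0:ℝ) ≤ t := Nat.cast_nonneg _
  have hbase : 16 * ((((2 * v : ℕ) : ℝ) + 1) ^ 2 * 2 ^ (2 * v)) ≤ 2 ^ (m / 8) := by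
    have h1 : (((2 * v : ℕ) : ℝ) + 1) ≤ 2 ^ (2 * v) := by
      exact_mod_cast (Nat.lt_two_pow_self (n := 2 * v))
    calc 16 * ((((2 * v : ℕ) : ℝ) + 1) ^ 2 * 2 ^ (2 * v))
        ≤ 2 ^ 4 * ((2 ^ (2 * v)) ^ 2 * 2 ^ (2 * v)) := by
          have h16 : (16:ℝ) = 2 ^ 4 := by norm_num
          rw [h16]
          gcongr
      _ = 2 ^ (4 + 6 * v) := by
          rw [← pow_mul, ← pow_add, ← pow_add]
          congr 1
          ring
      _ ≤ 2 ^ (m / 8) := pow_le_pow_right₀ (by norm_num) (by omega)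
  have hm8 : (0:ℝ) < 2 ^ m' := by positivity
  have hexp : (1 / 2 : ℝ) ^ (m' * v) = (1 / 2) ^ (m' * (v - 1)) * (1 / 2) ^ m' := by
    rw [← pow_add]
    congr 1
    have : v = (v - 1) + 1 := by omega
    conv_lhs => rw [this]
    ring
  have h28 : (2:ℝ) ^ (m / 8) ≤ 2 ^ m' := pow_le_pow_right₀ (by norm_num) (by omega)
  have hyb : y ≤ (1 / 16) * (1 / 2) ^ (m' * (v - 1)) := by
    rw [hy, hexp]
    have h3 : (((2 * v : ℕ) : ℝ) + 1) ^ 2 * 2 ^ (2 * v) * (1 / 2) ^ m' ≤ 1 / 16 := by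
      rw [one_div_pow, mul_one_div, div_le_iff₀ hm8]
      linarith
    calc (((2 * v : ℕ) : ℝ) + 1) ^ 2 * 2 ^ (2 * v) * ((1 / 2) ^ (m' * (v - 1)) * (1 / 2) ^ m')
        = (((2 * v : ℕ) : ℝ) + 1) ^ 2 * 2 ^ (2 * v) * (1 / 2) ^ m' *
            (1 / 2) ^ (m' * (v - 1)) := by ring
      _ ≤ (1 / 16) * (1 / 2) ^ (m' * (v - 1)) := by gcongr
  have heb : eo ≤ (1 / 16) * (1 / 2) ^ (m' * (v - 1)) := by
    refine heo.trans ?_
    have h3 : m' * (v - 1) + 4 ≤ (4 * m + 2) * (2 * v) := by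
      calc m' * (v - 1) + 4 ≤ m * v + 2 * (2 * v) := by
            apply Nat.add_le_add _ (by omega)
            exact Nat.mul_le_mul (by omega) (by omega)
        _ ≤ (4 * m + 2) * (2 * v) := by nlinarith
    calc (1 / 2 : ℝ) ^ ((4 * m + 2) * (2 * v)) ≤ (1 / 2) ^ (m' * (v - 1) + 4) :=
          pow_le_pow_of_le_one (by norm_num) (by norm_num) h3
      _ = (1 / 16) * (1 / 2) ^ (m' * (v - 1)) := by rw [pow_add]; norm_num; ring
  have hcancel : (2:ℝ) ^ (m' * (v - 2)) * (1 / 2) ^ (m' * (v - 1)) = (1 / 2) ^ m' := by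
    have h1 : m' * (v - 1) = m' * (v - 2) + m' := by
      have : v - 1 = (v - 2) + 1 := by omega
      rw [this]
      ring
    rw [h1, pow_add, ← mul_assoc, ← mul_pow]
    norm_num
  have hAm : (2:ℝ) ^ (m / 16 + 2) * (1 / 2) ^ m' ≤ 1 := by
    rw [one_div_pow, mul_one_div, div_le_one hm8]
    exact pow_le_pow_right₀ (by norm_num) (by omega)
  have h1 : (t:ℝ) * (eo + y) ≤ (1 / 8) * (1 / 2) ^ m' := by
    have h2 : eo + y ≤ (1 / 8) * (1 / 2) ^ (m' * (v - 1)) := by linarith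
    calc (t:ℝ) * (eo + y) ≤ t * ((1 / 8) * (1 / 2) ^ (m' * (v - 1))) := by gcongr
      _ ≤ 2 ^ (m' * (v - 2)) * ((1 / 8) * (1 / 2) ^ (m' * (v - 1))) := by gcongr
      _ = (1 / 8) * (2 ^ (m' * (v - 2)) * (1 / 2) ^ (m' * (v - 1))) := by ring
      _ = (1 / 8) * (1 / 2) ^ m' := by rw [hcancel]
  have h2 : (A:ℝ) * (t * (eo + y)) ≤ 1 / 8 := by
    calc (A:ℝ) * (t * (eo + y)) ≤ A * ((1 / 8) * (1 / 2) ^ m') := by gcongr
      _ ≤ 2 ^ (m / 16 + 2) * ((1 / 8) * (1 / 2) ^ m') := by gcongr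
      _ = (1 / 8) * (2 ^ (m / 16 + 2) * (1 / 2) ^ m') := by ring
      _ ≤ (1 / 8) * 1 := by gcongr
      _ = 1 / 8 := by norm_num
  have h3 : (A:ℝ) * ((2 * v : ℕ) * (1 / 2) ^ m') ≤ 1 / 4 := by
    have h4 : ((2 * v : ℕ) : ℝ) ≤ 2 ^ (m / 8) / 16 := by
      have h5 : ((2 * v : ℕ) : ℝ) ≤ (((2 * v : ℕ) : ℝ) + 1) ^ 2 * 2 ^ (2 * v) := by
        have h6 : (1:ℝ) ≤ 2 ^ (2 * v) := one_le_pow₀ (by norm_num)
        have h7 : (0:ℝ) ≤ ((2 * v : ℕ) : ℝ) := Nat.cast_nonneg _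
        nlinarith
      linarith
    have h8 : (2:ℝ) ^ (m / 16 + 2) * 2 ^ (m / 8) * (1 / 2) ^ m' ≤ 4 := by
      rw [← pow_add, one_div_pow, mul_one_div, div_le_iff₀ hm8]
      have h9 : (4:ℝ) * 2 ^ m' = 2 ^ (2 + m') := by rw [pow_add]; norm_num
      rw [h9]
      exact pow_le_pow_right₀ (by norm_num) (by omega)
    calc (A:ℝ) * ((2 * v : ℕ) * (1 / 2) ^ m')
        ≤ 2 ^ (m / 16 + 2) * (2 ^ (m / 8) / 16 * (1 / 2) ^ m') := by gcongr
      _ = (1 / 16) * (2 ^ (m / 16 + 2) * 2 ^ (m / 8) * (1 / 2) ^ m') := by ring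
      _ ≤ (1 / 16) * 4 := by gcongr
      _ = 1 / 4 := by norm_num
  have h4 : (A:ℝ) * (t * (eo + y) + (2 * v : ℕ) * (1 / 2) ^ m') =
      A * (t * (eo + y)) + A * ((2 * v : ℕ) * (1 / 2) ^ m') := by ring
  rw [h4]
  linarith

/-- **Lower bound for sparse systems of pair constraints against circuits with NOT gates.** -/
theorem csp_neg_lower {q m : ℕ} (hq : 3000 ≤ q) (hqm : 2 ^ (16 * q) ≤ m) :
    ∃ H : Finset (Fin (16 * q) × Fin (16 * q)), ∀ (t r : ℕ)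
      (L : List ((Ed (16 * q) m → Bool) → Bool)) (F : (Ed (16 * q) m → Bool) → Bool),
      64 * r ≤ m → NegCircuit t r L → Source L F →
      (∀ a, SolH H a → F a = true) → (∀ a, ¬ SolH H a → F a = false) →
      2 ^ (m / 4 * (q / 1000 - 2)) ≤ t := by
  classical
  set v := q / 1000 with hv
  have hv3 : 3 ≤ v := by omega
  obtain ⟨H, hHcard, hH⟩ := exists_sparse (q := q) (U0 := 2 * v) (by omega) (by omega)
  refine ⟨H, ?_⟩
  intro t r L F hr hL hF hacc hrej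
  by_contra hlt
  push Not at hlt
  have hm0 : m ≠ 0 := by
    have : 0 < 2 ^ (16 * q) := by positivity
    omega
  set ℓ := Nat.log 2 m with hℓ
  have hkℓ : 16 * q ≤ ℓ := by
    rw [hℓ]
    exact (Nat.le_log_iff_pow_le (by norm_num) hm0).2 hqm
  have hmℓ : 2 ^ ℓ ≤ m := Nat.pow_log_le_self 2 hm0
  have hmℓ' : m < 2 ^ (ℓ + 1) := Nat.lt_pow_succ_log_self (by norm_num) m
  have hpow : ∀ x : ℕ, 16 ≤ x → 16 * x ^ 2 ≤ 2 ^ x := by
    intro x hx
    induction x, hx using Nat.le_induction with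
    | base => norm_num
    | succ x hx ih =>
      rw [pow_succ 2 x]
      nlinarith
  have hℓm0 : 16 * ℓ ^ 2 ≤ m := (hpow ℓ (by omega)).trans hmℓ
  have hℓm : 1000 * ℓ ≤ m := by nlinarith
  have hvℓ : 1000 * v ≤ ℓ := by omega
  -- the parameters
  set μ := m / 5 with hμ
  have hS := sc_cspH (k := 16 * q) (m := m) (H := H) hH (v := v)
    (e := (8 * m + 5) * (2 * v)) (M := 2 ^ μ) (m' := m / 4) (m'' := m / 2) (by omega)
    (le_refl _) ?_ (by positivity) (by omega) ?_ (ε := (1 / 2) ^ (2 * ((4 * m + 2) * (2 * v))))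
    ?_ ?_
  rotate_left
  · calc 2 * v = 1 * (2 * v) := by ring
      _ ≤ (8 * m + 5) * (2 * v) := Nat.mul_le_mul_right _ (by omega)
  · -- the spread condition
    have h1 : 82944 * ((8 * m + 5) * (2 * v)) * (2 * v) * 2 ^ μ ≤ 2 ^ (24 + ℓ + 2 * v + μ) := by
      have h2 : v ≤ 2 ^ v := (Nat.lt_two_pow_self (n := v)).le
      calc 82944 * ((8 * m + 5) * (2 * v)) * (2 * v) * 2 ^ μ
          ≤ 82944 * ((13 * m) * (2 * v)) * (2 * v) * 2 ^ μ := by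
            gcongr
            omega
        _ = 4313088 * m * v ^ 2 * 2 ^ μ := by ring
        _ ≤ 2 ^ 23 * 2 ^ (ℓ + 1) * (2 ^ v) ^ 2 * 2 ^ μ := by
            gcongr
            norm_num
        _ = 2 ^ (24 + ℓ + 2 * v + μ) := by
            rw [← pow_mul, ← pow_add, ← pow_add, ← pow_add]
            congr 1
            ring
    calc (82944 * ((8 * m + 5) * (2 * v)) * (2 * v) * 2 ^ μ) ^ 2
        ≤ (2 ^ (24 + ℓ + 2 * v + μ)) ^ 2 := Nat.pow_le_pow_left h1 2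
      _ = 2 ^ ((24 + ℓ + 2 * v + μ) * 2) := by rw [← pow_mul]
      _ ≤ 2 ^ (m / 2) := by
          apply Nat.pow_le_pow_right (by norm_num)
          omega
  · have h1 : ((2 * v : ℕ) : ℝ) ≤ 2 ^ (2 * v) := by
      exact_mod_cast (Nat.lt_two_pow_self (n := 2 * v)).le
    have h2 : (8 * m + 5) * (2 * v) = 2 * ((4 * m + 2) * (2 * v)) + 2 * v := by ring
    calc ((2 * v : ℕ) : ℝ) * (1 / 2) ^ ((8 * m + 5) * (2 * v))
        ≤ 2 ^ (2 * v) * (1 / 2) ^ ((8 * m + 5) * (2 * v)) := by gcongr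
      _ = (1 / 2) ^ (2 * ((4 * m + 2) * (2 * v))) := by
          rw [h2, pow_add, mul_comm ((1 / 2 : ℝ) ^ (2 * ((4 * m + 2) * (2 * v)))), ← mul_assoc,
            ← mul_pow]
          norm_num
  · have h2 : 2 ≤ 2 * ((4 * m + 2) * (2 * v)) := by
      have : 0 < (4 * m + 2) * (2 * v) := by positivity
      omega
    calc ((1:ℝ) / 2) ^ (2 * ((4 * m + 2) * (2 * v))) ≤ (1 / 2) ^ 2 :=
          pow_le_pow_of_le_one (by norm_num) (by norm_num) h2
      _ < 1 / 2 := by norm_num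
  -- the chain
  set R := 2 ^ r * (r + 1) + 1 with hR
  have hr2 : r + 1 ≤ 2 ^ r := Nat.lt_two_pow_self
  have hA1 : 2 ^ r * (r + 1) ≤ 2 ^ (2 * r) := by
    calc 2 ^ r * (r + 1) ≤ 2 ^ r * 2 ^ r := Nat.mul_le_mul_left _ hr2
      _ = 2 ^ (2 * r) := by rw [← pow_add]; congr 1; ring
  have hR1 : R ≤ 2 ^ (2 * r + 1) := by
    have : 1 ≤ 2 ^ (2 * r) := Nat.one_le_two_pow
    rw [pow_succ]
    omega
  have hchain := chain_lower H (R := R) (by positivity) hS hL hF hacc hrej (by omega)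
  have heo : etaOr (GH (m := m) H v) ((1 / 2) ^ (2 * ((4 * m + 2) * (2 * v)))) ≤
      (1 / 2) ^ ((4 * m + 2) * (2 * v)) := by
    unfold etaOr
    have h1 : ((AdmSets (GH (m := m) H v)).card : ℝ) ≤ 2 ^ ((4 * m + 2) * (2 * v)) := by
      have h2 := card_AdmSets_le (admPred_GH (m := m) hH (v := v) (by omega))
      have h3 : Fintype.card (Ed (16 * q) m) ≤ 2 ^ (4 * m) := by
        have : Fintype.card (Ed (16 * q) m) = (16 * q * 2 ^ m) * (16 * q * 2 ^ m) := by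
          simp [Fintype.card_prod]
        rw [this]
        have hk : 16 * q ≤ 2 ^ m := hkℓ.trans ((show ℓ ≤ m by omega).trans
          (Nat.lt_two_pow_self (n := m)).le)
        calc (16 * q * 2 ^ m) * (16 * q * 2 ^ m) ≤ (2 ^ m * 2 ^ m) * (2 ^ m * 2 ^ m) := by gcongr
          _ = 2 ^ (4 * m) := by rw [← pow_add, ← pow_add]; congr 1; ring
      have h4 : (2 * Fintype.card (Ed (16 * q) m) + 1) ^ (2 * v) ≤ 2 ^ ((4 * m + 2) * (2 * v)) := by
        rw [pow_mul 2 (4 * m + 2)]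
        apply Nat.pow_le_pow_left
        have : 1 ≤ 2 ^ (4 * m) := Nat.one_le_two_pow
        rw [pow_add]
        omega
      exact_mod_cast h2.trans h4
    calc ((AdmSets (GH (m := m) H v)).card : ℝ) * (1 / 2) ^ (2 * ((4 * m + 2) * (2 * v)))
        ≤ 2 ^ ((4 * m + 2) * (2 * v)) * (1 / 2) ^ (2 * ((4 * m + 2) * (2 * v))) := by gcongr
      _ = (1 / 2) ^ ((4 * m + 2) * (2 * v)) := by
          rw [two_mul ((4 * m + 2) * (2 * v)), pow_add, ← mul_assoc, ← mul_pow]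
          norm_num
  have hx : ((2:ℝ) ^ m) ^ (2 * (16 * q)) * ((R:ℝ) / (2 * ((2 ^ μ : ℕ) : ℝ))) ^ H.card ≤ 1 / 4 := by
    have h1 : (R:ℝ) / (2 * ((2 ^ μ : ℕ) : ℝ)) ≤ (1 / 2) ^ (m / 8 + 2) := by
      rw [div_le_iff₀ (by positivity)]
      have h2 : R * 2 ^ (m / 8 + 2) ≤ 2 * 2 ^ μ := by
        calc R * 2 ^ (m / 8 + 2) ≤ 2 ^ (2 * r + 1) * 2 ^ (m / 8 + 2) :=
              Nat.mul_le_mul_right _ hR1
          _ = 2 ^ (2 * r + 1 + (m / 8 + 2)) := by rw [← pow_add]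
          _ ≤ 2 ^ (μ + 1) := by
              apply Nat.pow_le_pow_right (by norm_num)
              omega
          _ = 2 * 2 ^ μ := by rw [pow_succ]; ring
      have h3 : (R:ℝ) * 2 ^ (m / 8 + 2) ≤ 2 * ((2 ^ μ : ℕ) : ℝ) := by exact_mod_cast h2
      have h4 : (0:ℝ) < 2 ^ (m / 8 + 2) := by positivity
      rw [one_div_pow, one_div, inv_mul_eq_div, le_div_iff₀ h4]
      exact h3
    have h5 : (0:ℝ) ≤ (R:ℝ) / (2 * ((2 ^ μ : ℕ) : ℝ)) := by positivity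
    rw [hHcard]
    calc ((2:ℝ) ^ m) ^ (2 * (16 * q)) * ((R:ℝ) / (2 * ((2 ^ μ : ℕ) : ℝ))) ^ (16 * (16 * q))
        ≤ ((2:ℝ) ^ m) ^ (2 * (16 * q)) * ((1 / 2) ^ (m / 8 + 2)) ^ (16 * (16 * q)) := by gcongr
      _ = 2 ^ (m * (2 * (16 * q))) * (1 / 2) ^ ((m / 8 + 2) * (16 * (16 * q))) := by
          rw [← pow_mul, ← pow_mul]
      _ ≤ 2 ^ (m * (2 * (16 * q))) * (1 / 2) ^ (m * (2 * (16 * q)) + 2) := by
          gcongr 2 ^ (m * (2 * (16 * q))) * ?_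
          apply pow_le_pow_of_le_one (by norm_num) (by norm_num)
          have h6 : m + 1 ≤ (m / 8 + 2) * 8 := by omega
          calc m * (2 * (16 * q)) + 2 ≤ (m + 1) * (2 * (16 * q)) := by nlinarith
            _ ≤ ((m / 8 + 2) * 8) * (2 * (16 * q)) := Nat.mul_le_mul_right _ h6
            _ = (m / 8 + 2) * (16 * (16 * q)) := by ring
      _ = 1 / 4 := by
          rw [pow_add, ← mul_assoc, ← mul_pow]
          norm_num
  have hfin := numeric_neg (A := (2 ^ r * (r + 1)) * R) (t := t) (v := v) (m := m) hv3 ?_ hlt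
    (by omega) heo hx rfl
  · refine absurd hchain (not_le.2 (lt_of_le_of_lt (le_of_eq ?_) hfin))
    push_cast
    ring
  · calc (2 ^ r * (r + 1)) * R ≤ 2 ^ (2 * r) * 2 ^ (2 * r + 1) := Nat.mul_le_mul hA1 hR1
      _ = 2 ^ (4 * r + 1) := by rw [← pow_add]; congr 1; ring
      _ ≤ 2 ^ (m / 16 + 2) := by
          apply Nat.pow_le_pow_right (by norm_num)
          omega

end Pool.Agent.H24
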