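import Mathlib

/-!
Definitions for the lower bound on Partial MCSP: Boolean circuits for partial truth tables
(AND/OR gates of fan-in two, free negations, no constants), and circuits with a counted number
of NOT gates that read an encoding of the truth table.
-/

namespace Pool.Agent.H24

/-- `Wire L u`: the function `u` on `n` bits can be read in a circuit whose gates compute the
functions in the list `L`, namely it is an input variable or the output of a gate, or the
negation of one of these (negations are free; no constant is available). -/
def Wire {n : ℕ} (L : List ((Fin n → Bool) → Bool)) (u : (Fin n → Bool) → Bool) : Prop :=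
  ∃ v : (Fin n → Bool) → Bool, ((∃ i : Fin n, v = fun x => x i) ∨ v ∈ L) ∧
    (u = v ∨ u = fun x => !(v x))

/-- `Gates L`: the list `L` (latest gate first) is the list of functions computed at the AND/OR
gates of fan-in two of a circuit on `n` inputs. -/
inductive Gates {n : ℕ} : List ((Fin n → Bool) → Bool) → Prop
  | nil : Gates []
  | and {L : List ((Fin n → Bool) → Bool)} {u v : (Fin n → Bool) → Bool} :
      Gates L → Wire L u → Wire L v → Gates ((fun x => u x && v x) :: L)
  | or {L : List ((Fin n → Bool) → Bool)} {u v : (Fin n → Bool) → Bool} :
      Gates L → Wire L u → Wire L v → Gates ((fun x => u x || v x) :: L)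

/-- `f` is computed by a circuit on `n` inputs with at most `s` AND/OR gates. -/
def HasCircuit {n : ℕ} (f : (Fin n → Bool) → Bool) (s : ℕ) : Prop :=
  ∃ L : List ((Fin n → Bool) → Bool), Gates L ∧ L.length ≤ s ∧ Wire L f

/-- The arity `n` slice of Partial MCSP: some circuit on `n` inputs with at most `s` AND/OR gates
is consistent with the partial truth table `T` (`none` stands for an undefined entry). -/
def PartialMCSP {n : ℕ} (T : (Fin n → Bool) → Option Bool) (s : ℕ) : Prop :=
  ∃ f : (Fin n → Bool) → Bool, HasCircuit f s ∧ ∀ x b, T x = some b → f x = b

/-- Encoding of a partial truth table by `2 * 2^n` bits: the bit at `(x, b)` says that the value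
`b` is allowed at `x`, i.e. `T x = *` or `T x = b`. -/
def enc {n : ℕ} (T : (Fin n → Bool) → Option Bool) : (Fin n → Bool) × Bool → Bool :=
  fun l => !decide (T l.1 = some (!l.2))

/-- `Source L u`: the function `u` of the bits `a : V → Bool` can be read in a circuit whose
gates compute the functions in `L`: it is an input bit, a constant or the output of a gate. -/
def Source {V : Type} (L : List ((V → Bool) → Bool)) (u : (V → Bool) → Bool) : Prop :=
  (∃ v : V, u = fun a => a v) ∨ (∃ c : Bool, u = fun _ => c) ∨ u ∈ L

/-- `NegCircuit t r L`: the list `L` (latest gate first) is the list of functions computed at the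
gates of a circuit with `t` AND/OR gates of fan-in two and `r` NOT gates. -/
inductive NegCircuit {V : Type} : ℕ → ℕ → List ((V → Bool) → Bool) → Prop
  | nil : NegCircuit 0 0 []
  | and {t r : ℕ} {L : List ((V → Bool) → Bool)} {u v : (V → Bool) → Bool} :
      NegCircuit t r L → Source L u → Source L v → NegCircuit (t + 1) r ((fun a => u a && v a) :: L)
  | or {t r : ℕ} {L : List ((V → Bool) → Bool)} {u v : (V → Bool) → Bool} :
      NegCircuit t r L → Source L u → Source L v → NegCircuit (t + 1) r ((fun a => u a || v a) :: L)
  | not {t r : ℕ} {L : List ((V → Bool) → Bool)} {u : (V → Bool) → Bool} :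
      NegCircuit t r L → Source L u → NegCircuit t (r + 1) ((fun a => !(u a)) :: L)

end Pool.Agent.H24
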