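import Pool.Agent.H24.Bridge

/-!
Gate elimination: fixing a set `S` of wires on which a circuit depends makes its function constant
or removes at least one gate for every wire of `S`.
-/

namespace Pool.Agent.H24

open Pool.Agent.H87.PMCSP (Circuit gop Dep REx RO snoc_update_castSucc)

set_option linter.unusedSectionVars false

/-- `x` with the values on `S` replaced by those of `z` -/
def ovr {n : ℕ} (S : Finset (Fin n)) (z x : Fin n → Bool) : Fin n → Bool :=
  fun i => if i ∈ S then z i else x i

theorem ovr_mem {n : ℕ} {S : Finset (Fin n)} {z x : Fin n → Bool} {i : Fin n} (h : i ∈ S) :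
    ovr S z x i = z i := if_pos h

theorem ovr_not_mem {n : ℕ} {S : Finset (Fin n)} {z x : Fin n → Bool} {i : Fin n} (h : i ∉ S) :
    ovr S z x i = x i := if_neg h

/-- extension of an assignment by one value -/
def sn {n : ℕ} (x : Fin n → Bool) (t : Bool) : Fin (n + 1) → Bool :=
  Fin.snoc (α := fun _ => Bool) x t

@[simp] theorem sn_last {n : ℕ} (x : Fin n → Bool) (t : Bool) : sn x t (Fin.last n) = t := by
  simp [sn]

@[simp] theorem sn_castSucc {n : ℕ} (x : Fin n → Bool) (t : Bool) (i : Fin n) :
    sn x t i.castSucc = x i := by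
  simp [sn]

/-- every assignment of `n + 1` wires is an extension -/
theorem sn_eta {n : ℕ} (X : Fin (n + 1) → Bool) :
    X = sn (fun i => X i.castSucc) (X (Fin.last n)) := by
  funext i
  refine Fin.lastCases ?_ (fun i => ?_) i <;> simp

theorem mem_up {n : ℕ} {S : Finset (Fin n)} {i : Fin n} :
    i.castSucc ∈ S.map Fin.castSuccEmb ↔ i ∈ S := by
  constructor
  · intro h
    obtain ⟨j, hj, hji⟩ := Finset.mem_map.1 h
    have : j = i := Fin.castSucc_injective n hji
    exact this ▸ hj
  · intro h
    exact Finset.mem_map.2 ⟨i, h, rfl⟩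

theorem ovr_sn {n : ℕ} (S : Finset (Fin n)) (z x : Fin n → Bool) (κ τ : Bool) :
    ovr (S.map Fin.castSuccEmb) (sn z κ) (sn x τ) = sn (ovr S z x) τ := by
  funext i
  refine Fin.lastCases ?_ (fun i => ?_) i
  · rw [sn_last, ovr_not_mem, sn_last]
    intro h
    obtain ⟨j, -, hj⟩ := Finset.mem_map.1 h
    exact absurd hj (Fin.castSucc_lt_last j).ne
  · rw [sn_castSucc]
    by_cases h : i ∈ S
    · rw [ovr_mem h, ovr_mem (mem_up.2 h), sn_castSucc]
    · rw [ovr_not_mem h, ovr_not_mem (fun h' => h (mem_up.1 h')), sn_castSucc]

theorem ovr_sn_last {n : ℕ} (S : Finset (Fin n)) (z x : Fin n → Bool) (κ τ : Bool) :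
    ovr (insert (Fin.last n) (S.map Fin.castSuccEmb)) (sn z κ) (sn x τ) = sn (ovr S z x) κ := by
  funext i
  refine Fin.lastCases ?_ (fun i => ?_) i
  · rw [sn_last, ovr_mem (Finset.mem_insert_self _ _), sn_last]
  · rw [sn_castSucc]
    by_cases h : i ∈ S
    · rw [ovr_mem h, ovr_mem (Finset.mem_insert_of_mem (mem_up.2 h)), sn_castSucc]
    · rw [ovr_not_mem h, ovr_not_mem, sn_castSucc]
      intro h'
      rcases Finset.mem_insert.1 h' with h' | h'
      · exact absurd h' (Fin.castSucc_lt_last i).ne
      · exact h (mem_up.1 h')

theorem card_up {n : ℕ} (S : Finset (Fin n)) : (S.map Fin.castSuccEmb).card = S.card :=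
  Finset.card_map _

theorem card_up_last {n : ℕ} (S : Finset (Fin n)) :
    (insert (Fin.last n) (S.map Fin.castSuccEmb)).card = S.card + 1 := by
  rw [Finset.card_insert_of_notMem, card_up]
  intro h
  obtain ⟨j, -, hj⟩ := Finset.mem_map.1 h
  exact absurd hj (Fin.castSucc_lt_last j).ne

/-- Signed renaming of the wires. -/
theorem exists_ren {n : ℕ} (c : Circuit n) : ∀ {m : ℕ} (ρ : Fin n → Fin m) (σ : Fin n → Bool),
    ∃ c' : Circuit m, c'.size = c.size ∧
      ∀ x, c'.eval x = c.eval (fun i => xor (x (ρ i)) (σ i)) := by
  induction c with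
  | out w neg =>
    intro m ρ σ
    refine ⟨Circuit.out (ρ w) (xor (σ w) neg), rfl, fun x => ?_⟩
    simp only [Circuit.eval]
    cases x (ρ w) <;> cases σ w <;> cases neg <;> rfl
  | @gate n conj a na b nb rest ih =>
    intro m ρ σ
    obtain ⟨c', hc, hev⟩ := ih (m := m + 1)
      (Fin.snoc (α := fun _ => Fin (m + 1)) (fun i => (ρ i).castSucc) (Fin.last m))
      (Fin.snoc (α := fun _ => Bool) σ false)
    refine ⟨Circuit.gate conj (ρ a) (xor (σ a) na) (ρ b) (xor (σ b) nb) c', ?_, fun x => ?_⟩
    · simp only [Circuit.size, hc]
    · simp only [Circuit.eval]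
      rw [hev]
      congr 1
      funext i
      refine Fin.lastCases ?_ (fun i => ?_) i
      · simp only [Fin.snoc_last, Bool.xor_false]
        congr 1 <;> simp
      · simp

/-- identification of the last wire with a signed wire -/
theorem sub_wire {n : ℕ} (c : Circuit (n + 1)) (v : Fin n) (σ : Bool) :
    ∃ c' : Circuit n, c'.size = c.size ∧ ∀ x, c'.eval x = c.eval (sn x (xor (x v) σ)) := by
  obtain ⟨c', hc, hev⟩ := exists_ren c
    (Fin.snoc (α := fun _ => Fin n) (fun i => i) v) (Fin.snoc (α := fun _ => Bool) (fun _ => false) σ)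
  refine ⟨c', hc, fun x => ?_⟩
  rw [hev]
  congr 1
  funext i
  refine Fin.lastCases ?_ (fun i => ?_) i <;> simp

/-- A function does not change when variables on which it does not depend are changed. -/
theorem indep_of {V : Type} [DecidableEq V] {g : (V → Bool) → Bool} (D : Finset V)
    (hD : ∀ v ∈ D, ¬ Dep g v) : ∀ x y : V → Bool, (∀ i, i ∉ D → x i = y i) → g x = g y := by
  induction D using Finset.induction_on with
  | empty =>
    intro x y h
    have : x = y := funext fun i => h i (by simp)
    rw [this]
  | insert v D _ ih =>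
    intro x y h
    have h1 : g x = g (Function.update x v (y v)) := by
      by_contra hne
      apply hD v (Finset.mem_insert_self _ _)
      refine ⟨x, ?_⟩
      by_cases hxy : x v = y v
      · exfalso
        apply hne
        rw [← hxy, Function.update_eq_self]
      · have : (!x v) = y v := by
          cases hx : x v <;> cases hy : y v <;> simp_all
        rw [this]
        exact hne
    rw [h1]
    apply ih (fun w hw => hD w (Finset.mem_insert_of_mem hw))
    intro i hi
    by_cases hiv : i = v
    · subst hiv
      simp
    · rw [Function.update_of_ne hiv]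
      exact h i (by simp [hiv, hi])

/-- the function of the first gate -/
def tg {n : ℕ} (conj : Bool) (a : Fin n) (na : Bool) (b : Fin n) (nb : Bool)
    (x : Fin n → Bool) : Bool := gop conj (xor (x a) na) (xor (x b) nb)

theorem eval_gate {n : ℕ} (conj : Bool) (a : Fin n) (na : Bool) (b : Fin n) (nb : Bool)
    (rest : Circuit (n + 1)) (x : Fin n → Bool) :
    (Circuit.gate conj a na b nb rest).eval x = rest.eval (sn x (tg conj a na b nb x)) := rfl

/-- The behaviour of a gate when one of its operands is fixed. -/
theorem gate_restrict {n : ℕ} (conj : Bool) (a : Fin n) (na : Bool) (b : Fin n) (nb : Bool)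
    (S : Finset (Fin n)) (x1 : Fin n → Bool) (h : a ∈ S ∨ b ∈ S) :
    (∃ κ, ∀ x, tg conj a na b nb (ovr S x1 x) = κ) ∨
    ∃ (p v : Fin n) (σ κ : Bool), p ∈ S ∧ v ∉ S ∧ ({a, b} : Finset (Fin n)) = {p, v} ∧
      (∀ z x, z p = x1 p → tg conj a na b nb (ovr S z x) = xor (x v) σ) ∧
      (∀ z x, z p ≠ x1 p → tg conj a na b nb (ovr S z x) = κ) := by
  by_cases ha : a ∈ S
  · by_cases hb : b ∈ S
    · left
      refine ⟨tg conj a na b nb x1, fun x => ?_⟩
      simp only [tg, ovr_mem ha, ovr_mem hb]
    · by_cases hc : xor (x1 a) na = conj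
      · right
        refine ⟨a, b, nb, !conj, ha, hb, rfl, ?_, ?_⟩
        · intro z x hz
          simp only [tg, ovr_mem ha, ovr_not_mem hb, hz, hc]
          cases conj <;> simp [gop]
        · intro z x hz
          have h1 : xor (z a) na = !conj := by
            rw [← hc]
            cases h2 : z a <;> cases h3 : x1 a <;> cases na <;> simp_all
          simp only [tg, ovr_mem ha, ovr_not_mem hb, h1]
          cases conj <;> simp [gop]
      · left
        refine ⟨!conj, fun x => ?_⟩
        have h1 : xor (x1 a) na = !conj := by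
          cases h2 : xor (x1 a) na <;> cases conj <;> simp_all
        simp only [tg, ovr_mem ha, ovr_not_mem hb, h1]
        cases conj <;> simp [gop]
  · have hb : b ∈ S := by tauto
    by_cases hc : xor (x1 b) nb = conj
    · right
      refine ⟨b, a, na, !conj, hb, ha, by rw [Finset.pair_comm], ?_, ?_⟩
      · intro z x hz
        simp only [tg, ovr_mem hb, ovr_not_mem ha, hz, hc]
        cases conj <;> simp [gop]
      · intro z x hz
        have h1 : xor (z b) nb = !conj := by
          rw [← hc]
          cases h2 : z b <;> cases h3 : x1 b <;> cases nb <;> simp_all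
        simp only [tg, ovr_mem hb, ovr_not_mem ha, h1]
        cases conj <;> simp [gop]
    · left
      refine ⟨!conj, fun x => ?_⟩
      have h1 : xor (x1 b) nb = !conj := by
        cases h2 : xor (x1 b) nb <;> cases conj <;> simp_all
      simp only [tg, ovr_mem hb, ovr_not_mem ha, h1]
      cases conj <;> simp [gop]

/-- dependence of the rest of the circuit on the wires that are not operands of the first gate -/
theorem dep_rest {n : ℕ} {conj : Bool} {a : Fin n} {na : Bool} {b : Fin n} {nb : Bool}
    {rest : Circuit (n + 1)} {v : Fin n}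
    (h : Dep (Circuit.gate conj a na b nb rest).eval v) (ha : v ≠ a) (hb : v ≠ b) :
    Dep rest.eval v.castSucc := by
  obtain ⟨x, hx⟩ := h
  refine ⟨sn x (tg conj a na b nb x), ?_⟩
  rw [eval_gate, eval_gate] at hx
  have h1 : tg conj a na b nb (Function.update x v (!x v)) = tg conj a na b nb x := by
    simp only [tg]
    rw [Function.update_of_ne (Ne.symm ha), Function.update_of_ne (Ne.symm hb)]
  rw [h1] at hx
  have h2 : sn (Function.update x v (!x v)) (tg conj a na b nb x) =
      Function.update (sn x (tg conj a na b nb x)) v.castSucc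
        (!(sn x (tg conj a na b nb x) v.castSucc)) := by
    rw [sn_castSucc]
    exact snoc_update_castSucc _ _ _ _
  rw [h2] at hx
  exact hx

theorem dep_rest' {n : ℕ} {conj : Bool} {a : Fin n} {na : Bool} {b : Fin n} {nb : Bool}
    {rest : Circuit (n + 1)} {v : Fin n}
    (h : Dep (Circuit.gate conj a na b nb rest).eval v)
    (hl : ∀ (y : Fin n → Bool) (t t' : Bool), rest.eval (sn y t) = rest.eval (sn y t')) :
    Dep rest.eval v.castSucc := by
  obtain ⟨x, hx⟩ := h
  refine ⟨sn x (tg conj a na b nb x), ?_⟩
  rw [eval_gate, eval_gate, hl (Function.update x v (!x v)) _ (tg conj a na b nb x)] at hx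
  have h2 : sn (Function.update x v (!x v)) (tg conj a na b nb x) =
      Function.update (sn x (tg conj a na b nb x)) v.castSucc
        (!(sn x (tg conj a na b nb x) v.castSucc)) := by
    rw [sn_castSucc]
    exact snoc_update_castSucc _ _ _ _
  rw [h2] at hx
  exact hx

theorem not_dep_last {n : ℕ} {f : (Fin (n + 1) → Bool) → Bool} (h : ¬ Dep f (Fin.last n))
    (y : Fin n → Bool) (t t' : Bool) : f (sn y t) = f (sn y t') := by
  apply indep_of {Fin.last n} (by simpa using h)
  intro i hi
  refine Fin.lastCases ?_ (fun i => ?_) i hi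
  · intro h
    simp at h
  · intro _
    simp

/-- changing the values on wires on which the rest does not depend -/
theorem ovr_indep {n : ℕ} {f : (Fin (n + 1) → Bool) → Bool} {S S0 : Finset (Fin n)}
    (hsub : S0 ⊆ S) (hS : ∀ v ∈ S, v ∉ S0 → ¬ Dep f v.castSucc) (z x : Fin n → Bool) (τ : Bool) :
    f (sn (ovr S z x) τ) = f (sn (ovr S0 z x) τ) := by
  apply indep_of ((S \ S0).map Fin.castSuccEmb)
  · intro v hv
    obtain ⟨w, hw, rfl⟩ := Finset.mem_map.1 hv
    rw [Finset.mem_sdiff] at hw
    exact hS w hw.1 hw.2
  · intro i
    refine Fin.lastCases ?_ (fun i => ?_) i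
    · intro _
      simp
    · intro hi
      rw [sn_castSucc, sn_castSucc]
      by_cases h1 : i ∈ S
      · by_cases h2 : i ∈ S0
        · rw [ovr_mem h1, ovr_mem h2]
        · exfalso
          exact hi (Finset.mem_map.2 ⟨i, Finset.mem_sdiff.2 ⟨h1, h2⟩, rfl⟩)
      · rw [ovr_not_mem h1, ovr_not_mem (fun h => h1 (hsub h))]

open Classical in
/-- the members of `S` on which the rest depends -/
noncomputable def S0of {n : ℕ} (f : (Fin (n + 1) → Bool) → Bool) (S : Finset (Fin n)) :
    Finset (Fin n) := S.filter (fun v => Dep f v.castSucc)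

theorem mem_S0of {n : ℕ} {f : (Fin (n + 1) → Bool) → Bool} {S : Finset (Fin n)} {v : Fin n} :
    v ∈ S0of f S ↔ v ∈ S ∧ Dep f v.castSucc := by
  classical
  simp only [S0of, Finset.mem_filter]

theorem S0of_sub {n : ℕ} {f : (Fin (n + 1) → Bool) → Bool} {S : Finset (Fin n)} :
    S0of f S ⊆ S := fun _ h => (mem_S0of.1 h).1

/-- **Gate elimination.** -/
theorem elim {n : ℕ} (c : Circuit n) : ∀ (S : Finset (Fin n)) (x1 : Fin n → Bool),
    (∀ v ∈ S, Dep c.eval v) →
    (∃ b, ∀ x, c.eval (ovr S x1 x) = b) ∨
      ∃ c' : Circuit n, c'.size + S.card ≤ c.size ∧ ∀ x, c'.eval x = c.eval (ovr S x1 x) := by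
  induction c with
  | @out n w neg =>
    intro S x1 hS
    by_cases hw : w ∈ S
    · left
      refine ⟨xor (x1 w) neg, fun x => ?_⟩
      simp only [Circuit.eval, ovr_mem hw]
    · right
      have hS0 : S = ∅ := by
        rw [Finset.eq_empty_iff_forall_notMem]
        intro v hv
        obtain ⟨x, hx⟩ := hS v hv
        apply hx
        simp only [Circuit.eval]
        rw [Function.update_of_ne]
        rintro rfl
        exact hw hv
      refine ⟨Circuit.out w neg, by simp [hS0], fun x => ?_⟩
      simp only [Circuit.eval, ovr_not_mem hw]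
  | @gate n conj a na b nb rest ih =>
    intro S x1 hS
    have hsz : (Circuit.gate conj a na b nb rest).size = rest.size + 1 := rfl
    by_cases hlast : Dep rest.eval (Fin.last n)
    · set S0 := S0of rest.eval S with hS0
      have hup : ∀ v ∈ S0.map Fin.castSuccEmb, Dep rest.eval v := by
        intro v hv
        obtain ⟨w, hw, rfl⟩ := Finset.mem_map.1 hv
        exact (mem_S0of.1 hw).2
      have hindep : ∀ (z x : Fin n → Bool) (τ : Bool),
          rest.eval (sn (ovr S z x) τ) = rest.eval (sn (ovr S0 z x) τ) := by
        intro z x τ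
        apply ovr_indep S0of_sub
        intro v hv hv0 hd
        exact hv0 (mem_S0of.2 ⟨hv, hd⟩)
      have hsub : S \ S0 ⊆ S ∩ {a, b} := by
        intro v hv
        rw [Finset.mem_sdiff] at hv
        rw [Finset.mem_inter]
        refine ⟨hv.1, ?_⟩
        by_contra hab
        simp only [Finset.mem_insert, Finset.mem_singleton, not_or] at hab
        exact hv.2 (mem_S0of.2 ⟨hv.1, dep_rest (hS v hv.1) hab.1 hab.2⟩)
      have hcard : S.card ≤ S0.card + (S ∩ {a, b}).card := by
        have h1 := Finset.card_sdiff_add_card_inter S S0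
        have h2 := Finset.card_le_card hsub
        have h3 := Finset.card_le_card (Finset.inter_subset_right : S ∩ S0 ⊆ S0)
        omega
      have h2ab : (S ∩ {a, b}).card ≤ 2 :=
        (Finset.card_le_card Finset.inter_subset_right).trans Finset.card_le_two
      by_cases hab : a ∈ S ∨ b ∈ S
      · rcases gate_restrict conj a na b nb S x1 hab with ⟨κ, hκ⟩ | ⟨p, v, σ, κ, hp, hv, hpv, h1, h2⟩
        · -- the gate becomes constant
          have hrec := ih (insert (Fin.last n) (S0.map Fin.castSuccEmb)) (sn x1 κ) (by
            intro v hv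
            rcases Finset.mem_insert.1 hv with rfl | hv
            · exact hlast
            · exact hup v hv)
          have heq : ∀ x τ, rest.eval (ovr (insert (Fin.last n) (S0.map Fin.castSuccEmb))
              (sn x1 κ) (sn x τ)) = (Circuit.gate conj a na b nb rest).eval (ovr S x1 x) := by
            intro x τ
            rw [ovr_sn_last, eval_gate, hκ, hindep]
          rcases hrec with ⟨β, hβ⟩ | ⟨c'', hc'', hev⟩
          · left
            exact ⟨β, fun x => by rw [← heq x false, hβ]⟩
          · right
            obtain ⟨c', hc', hev'⟩ := sub_wire c'' a false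
            refine ⟨c', ?_, fun x => ?_⟩
            · rw [card_up_last] at hc''
              omega
            · rw [hev', hev, heq]
        · -- the gate becomes a wire
          have hrec := ih (S0.map Fin.castSuccEmb) (sn x1 false) hup
          have heq : ∀ x, rest.eval (ovr (S0.map Fin.castSuccEmb)
              (sn x1 false) (sn x (xor (x v) σ))) =
              (Circuit.gate conj a na b nb rest).eval (ovr S x1 x) := by
            intro x
            rw [ovr_sn, eval_gate, h1 x1 x rfl, hindep]
          have hcard1 : (S ∩ {a, b}).card ≤ 1 := by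
            rw [hpv]
            have : S ∩ {p, v} ⊆ {p} := by
              intro w hw
              rw [Finset.mem_inter, Finset.mem_insert, Finset.mem_singleton] at hw
              rw [Finset.mem_singleton]
              rcases hw.2 with h | h
              · exact h
              · rw [h] at hw
                exact absurd hw.1 hv
            exact (Finset.card_le_card this).trans (by simp)
          rcases hrec with ⟨β, hβ⟩ | ⟨c'', hc'', hev⟩
          · left
            exact ⟨β, fun x => by rw [← heq x, hβ]⟩
          · right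
            obtain ⟨c', hc', hev'⟩ := sub_wire c'' v σ
            refine ⟨c', ?_, fun x => ?_⟩
            · rw [card_up] at hc''
              omega
            · rw [hev', hev, heq]
      · -- the gate survives
        push Not at hab
        have hS0S : (S ∩ {a, b}).card = 0 := by
          rw [Finset.card_eq_zero, Finset.eq_empty_iff_forall_notMem]
          intro v hv
          rw [Finset.mem_inter, Finset.mem_insert, Finset.mem_singleton] at hv
          rcases hv.2 with h | h
          · exact hab.1 (h ▸ hv.1)
          · exact hab.2 (h ▸ hv.1)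
        have htg : ∀ x, tg conj a na b nb (ovr S x1 x) = tg conj a na b nb x := by
          intro x
          simp only [tg, ovr_not_mem hab.1, ovr_not_mem hab.2]
        have heq : ∀ x, rest.eval (ovr (S0.map Fin.castSuccEmb)
            (sn x1 false) (sn x (tg conj a na b nb x))) =
            (Circuit.gate conj a na b nb rest).eval (ovr S x1 x) := by
          intro x
          rw [ovr_sn, eval_gate, htg, hindep]
        rcases ih (S0.map Fin.castSuccEmb) (sn x1 false) hup with ⟨β, hβ⟩ | ⟨c'', hc'', hev⟩
        · left
          exact ⟨β, fun x => by rw [← heq x, hβ]⟩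
        · right
          refine ⟨Circuit.gate conj a na b nb c'', ?_, fun x => ?_⟩
          · rw [card_up] at hc''
            have : (Circuit.gate conj a na b nb c'').size = c''.size + 1 := rfl
            omega
          · rw [eval_gate, hev, heq]
    · -- the gate is useless
      have hl := not_dep_last hlast
      have hup : ∀ v ∈ S.map Fin.castSuccEmb, Dep rest.eval v := by
        intro v hv
        obtain ⟨w, hw, rfl⟩ := Finset.mem_map.1 hv
        exact dep_rest' (hS w hw) hl
      have heq : ∀ x τ, rest.eval (ovr (S.map Fin.castSuccEmb) (sn x1 false) (sn x τ)) =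
          (Circuit.gate conj a na b nb rest).eval (ovr S x1 x) := by
        intro x τ
        rw [ovr_sn, eval_gate]
        exact hl _ _ _
      rcases ih (S.map Fin.castSuccEmb) (sn x1 false) hup with ⟨β, hβ⟩ | ⟨c'', hc'', hev⟩
      · left
        exact ⟨β, fun x => by rw [← heq x false, hβ]⟩
      · right
        obtain ⟨c', hc', hev'⟩ := sub_wire c'' a false
        refine ⟨c', ?_, fun x => ?_⟩
        · rw [card_up] at hc''
          omega
        · rw [hev', hev, heq]

end Pool.Agent.H24
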