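import Pool.Agent.H24.Moment

/-!
Closed families of admissible sets of literals (the approximators) and their error estimates.
The admissible sets are given by an arbitrary predicate `G` that is closed under subsets.
-/

namespace Pool.Agent.H24

open Finset

set_option linter.unusedSectionVars false

variable {X : Type*} [Fintype X] [DecidableEq X] {Ω : Type*} [Fintype Ω]

/-- The admissible sets are consistent, have at most `w` elements and are closed under subsets;
the empty set is admissible. -/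
structure AdmPred (G : Finset (X × Bool) → Prop) (w : ℕ) : Prop where
  down : ∀ S T, S ⊆ T → G T → G S
  cons : ∀ T, G T → Cons T
  card : ∀ T, G T → T.card ≤ w
  empty : G ∅

/-- A family of admissible sets is closed (with respect to the random set `P` and the error `ε`)
if it contains every admissible `K` such that `P ∪ K` contains a member of the family with
probability at least `1 - ε`. -/
structure CF (P : Ω → Finset (X × Bool)) (G : Finset (X × Bool) → Prop) (ε : ℝ)
    (A : Finset (Finset (X × Bool))) : Prop where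
  adm : ∀ T ∈ A, G T
  closed : ∀ K : Finset (X × Bool), G K →
    pr (fun ω => ∀ T ∈ A, ¬ T ⊆ P ω ∪ K) ≤ ε → K ∈ A

open Classical in
/-- all admissible sets -/
noncomputable def AdmSets (G : Finset (X × Bool) → Prop) : Finset (Finset (X × Bool)) :=
  univ.filter G

theorem mem_AdmSets {G : Finset (X × Bool) → Prop} {T : Finset (X × Bool)} :
    T ∈ AdmSets G ↔ G T := by
  simp [AdmSets]

section basic

variable {P : Ω → Finset (X × Bool)} {G : Finset (X × Bool) → Prop} {w : ℕ} {ε : ℝ}

theorem CF.up (hε : 0 ≤ ε) {A : Finset (Finset (X × Bool))} (hA : CF P G ε A)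
    {T T' : Finset (X × Bool)} (hT : T ∈ A) (h : T ⊆ T') (hG : G T') :
    T' ∈ A := by
  apply hA.closed T' hG
  have : pr (fun ω => ∀ S ∈ A, ¬ S ⊆ P ω ∪ T') ≤ pr (fun _ : Ω => False) := by
    apply pr_mono
    intro ω hω
    exact hω T hT (h.trans subset_union_right)
  rw [pr_false] at this
  exact this.trans hε

theorem CF.inter {A B : Finset (Finset (X × Bool))} (hA : CF P G ε A)
    (hB : CF P G ε B) : CF P G ε (A ∩ B) := by
  constructor
  · intro T hT
    exact hA.adm T (Finset.mem_inter.1 hT).1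
  · intro K hK hpr
    rw [Finset.mem_inter]
    constructor
    · apply hA.closed K hK
      refine le_trans (pr_mono ?_) hpr
      intro ω hω T hT
      exact hω T (Finset.mem_inter.1 hT).1
    · apply hB.closed K hK
      refine le_trans (pr_mono ?_) hpr
      intro ω hω T hT
      exact hω T (Finset.mem_inter.1 hT).2

theorem cf_AdmSets : CF P G ε (AdmSets G) := by
  constructor
  · intro T hT
    exact mem_AdmSets.1 hT
  · intro K hK _
    exact mem_AdmSets.2 hK

theorem cf_empty [Nonempty Ω] (hε : ε < 1) :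
    CF P G ε (∅ : Finset (Finset (X × Bool))) := by
  constructor
  · intro T hT
    simp at hT
  · intro K _ hpr
    exfalso
    have : pr (fun ω : Ω => ∀ T ∈ (∅ : Finset (Finset (X × Bool))), ¬ T ⊆ P ω ∪ K) = 1 := by
      rw [← pr_true (Ω := Ω)]
      apply pr_congr
      simp
    rw [this] at hpr
    linarith

/-- The family of a single literal is closed. -/
theorem cf_lit (v : X × Bool) (hv : ε < pr (fun ω => v ∉ P ω)) :
    CF P G ε ((AdmSets G).filter (fun T => v ∈ T)) := by
  constructor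
  · intro T hT
    exact mem_AdmSets.1 (Finset.mem_filter.1 hT).1
  · intro K hK hpr
    rw [Finset.mem_filter, mem_AdmSets]
    refine ⟨hK, ?_⟩
    by_contra hvK
    have h1 : pr (fun ω => v ∉ P ω) ≤
        pr (fun ω => ∀ T ∈ (AdmSets G).filter (fun T => v ∈ T), ¬ T ⊆ P ω ∪ K) := by
      apply pr_mono
      intro ω hω T hT hsub
      have h2 := hsub (Finset.mem_filter.1 hT).2
      rcases Finset.mem_union.1 h2 with h2 | h2
      · exact hω h2
      · exact hvK h2
    linarith

/-- Existence of a closed family above a given admissible family, with small error. -/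
theorem exists_cf (P : Ω → Finset (X × Bool)) (G : Finset (X × Bool) → Prop) {ε : ℝ}
    (hε : 0 ≤ ε) :
    ∀ (m : ℕ) (A : Finset (Finset (X × Bool))), A ⊆ AdmSets G → (AdmSets G \ A).card = m →
      ∃ A' : Finset (Finset (X × Bool)), A ⊆ A' ∧ CF P G ε A' ∧
        pr (fun ω => (∃ T ∈ A', T ⊆ P ω) ∧ ∀ T ∈ A, ¬ T ⊆ P ω) ≤ m * ε := by
  intro m
  induction m with
  | zero =>
    intro A hA hcard
    rw [Finset.card_eq_zero, Finset.sdiff_eq_empty_iff_subset] at hcard
    have hAA : A = AdmSets G := Finset.Subset.antisymm hA hcard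
    refine ⟨A, Finset.Subset.refl _, hAA ▸ cf_AdmSets, ?_⟩
    have : pr (fun ω => (∃ T ∈ A, T ⊆ P ω) ∧ ∀ T ∈ A, ¬ T ⊆ P ω) ≤ pr (fun _ : Ω => False) := by
      apply pr_mono
      rintro ω ⟨⟨T, hT, h⟩, h2⟩
      exact h2 T hT h
    rw [pr_false] at this
    simpa using this
  | succ m ih =>
    intro A hA hcard
    by_cases hcl : CF P G ε A
    · refine ⟨A, Finset.Subset.refl _, hcl, ?_⟩
      have : pr (fun ω => (∃ T ∈ A, T ⊆ P ω) ∧ ∀ T ∈ A, ¬ T ⊆ P ω) ≤
          pr (fun _ : Ω => False) := by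
        apply pr_mono
        rintro ω ⟨⟨T, hT, h⟩, h2⟩
        exact h2 T hT h
      rw [pr_false] at this
      exact this.trans (by positivity)
    · -- find a missing set
      have hK : ∃ K : Finset (X × Bool), G K ∧
          pr (fun ω => ∀ T ∈ A, ¬ T ⊆ P ω ∪ K) ≤ ε ∧ K ∉ A := by
        by_contra hno
        apply hcl
        constructor
        · intro T hT
          exact mem_AdmSets.1 (hA hT)
        · intro K hK hpr
          by_contra hKA
          exact hno ⟨K, hK, hpr, hKA⟩
      obtain ⟨K, hKG, hKpr, hKA⟩ := hK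
      have hKAdm : K ∈ AdmSets G := mem_AdmSets.2 hKG
      have hA' : insert K A ⊆ AdmSets G := Finset.insert_subset hKAdm hA
      have hcard' : (AdmSets G \ insert K A).card = m := by
        have hmem : K ∈ AdmSets G \ A := Finset.mem_sdiff.2 ⟨hKAdm, hKA⟩
        have : AdmSets G \ insert K A = (AdmSets G \ A).erase K := by
          ext T
          simp only [Finset.mem_sdiff, Finset.mem_insert, Finset.mem_erase]
          tauto
        rw [this, Finset.card_erase_of_mem hmem, hcard]
        rfl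
      obtain ⟨A', hsub, hcl', herr⟩ := ih (insert K A) hA' hcard'
      refine ⟨A', (Finset.subset_insert _ _).trans hsub, hcl', ?_⟩
      have hle : pr (fun ω => (∃ T ∈ A', T ⊆ P ω) ∧ ∀ T ∈ A, ¬ T ⊆ P ω) ≤
          pr (fun ω => (∃ T ∈ A', T ⊆ P ω) ∧ ∀ T ∈ insert K A, ¬ T ⊆ P ω) +
          pr (fun ω => ∀ T ∈ A, ¬ T ⊆ P ω ∪ K) := by
        refine le_trans (pr_mono ?_) (pr_or_le _ _)
        rintro ω ⟨h1, h2⟩
        by_cases hKω : K ⊆ P ω
        · right
          intro T hT
          rw [Finset.union_eq_left.2 hKω]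
          exact h2 T hT
        · left
          refine ⟨h1, ?_⟩
          intro T hT
          rcases Finset.mem_insert.1 hT with rfl | hT
          · exact hKω
          · exact h2 T hT
      push_cast
      rw [add_mul, one_mul]
      linarith

end basic

section minimal

/-- the minimal members of a family -/
def Mins (A : Finset (Finset (X × Bool))) : Finset (Finset (X × Bool)) :=
  A.filter (fun T => ∀ S ∈ A, S ⊆ T → S = T)

theorem exists_min_subset {A : Finset (Finset (X × Bool))} {T : Finset (X × Bool)}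
    (hT : T ∈ A) : ∃ S ∈ Mins A, S ⊆ T := by
  classical
  have hne : (A.filter (fun S => S ⊆ T)).Nonempty := ⟨T, by simp [hT]⟩
  obtain ⟨S, hS, hmin⟩ := Finset.exists_min_image (A.filter (fun S => S ⊆ T)) Finset.card hne
  rw [Finset.mem_filter] at hS
  refine ⟨S, ?_, hS.2⟩
  unfold Mins
  rw [Finset.mem_filter]
  refine ⟨hS.1, ?_⟩
  intro S' hS' hsub
  have h1 := hmin S' (by
    rw [Finset.mem_filter]
    exact ⟨hS', hsub.trans hS.2⟩)
  exact Finset.eq_of_subset_of_card_le hsub h1

/-- The robust sunflower property of the random set `P`: every `κ`-spread family of consistent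
sets of `r ≤ w` literals has a member inside `P` with probability at least `1 - ε`. -/
def RSP (P : Ω → Finset (X × Bool)) (w : ℕ) (ε κ : ℝ) : Prop :=
  ∀ (𝒯 : Finset (Finset (X × Bool))), 𝒯.Nonempty → ∀ r : ℕ, 1 ≤ r → r ≤ w →
    (∀ T ∈ 𝒯, T.card = r) → (∀ T ∈ 𝒯, Cons T) →
    (∀ J : Finset (X × Bool), ((𝒯.filter (fun T => J ⊆ T)).card : ℝ) * κ ^ J.card ≤ 𝒯.card) →
    pr (fun ω => ∀ T ∈ 𝒯, ¬ T ⊆ P ω) ≤ ε

variable {P : Ω → Finset (X × Bool)} {G : Finset (X × Bool) → Prop} {w : ℕ} {ε κ : ℝ}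

/-- The number of minimal members of size `l` containing a given set `J` is at most
`κ^(l-|J|)`. -/
theorem card_mins_le' (hG : AdmPred G w) (hκ0 : 0 < κ) (hR : RSP P w ε κ)
    {A : Finset (Finset (X × Bool))} (hA : CF P G ε A) (J : Finset (X × Bool)) (l : ℕ) :
    (((Mins A).filter (fun T => J ⊆ T ∧ T.card = l)).card : ℝ) * κ ^ J.card ≤ κ ^ l := by
  classical
  by_contra hcon
  push Not at hcon
  set 𝓜 := (Mins A).filter (fun T => J ⊆ T ∧ T.card = l) with h𝓜
  -- choose K maximising
  let f : Finset (X × Bool) → ℝ := fun K => ((𝓜.filter (fun T => K ⊆ T)).card : ℝ) * κ ^ K.card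
  obtain ⟨K, hK, hmax⟩ := Finset.exists_max_image
    ((univ : Finset (Finset (X × Bool))).filter (fun K => J ⊆ K)) f
    ⟨J, by simp⟩
  rw [Finset.mem_filter] at hK
  have hfJ : κ ^ l < f J := by
    have : 𝓜.filter (fun T => J ⊆ T) = 𝓜 := by
      apply Finset.filter_true_of_mem
      intro T hT
      rw [h𝓜, Finset.mem_filter] at hT
      exact hT.2.1
    simp only [f, this]
    exact hcon
  have hfK : κ ^ l < f K := lt_of_lt_of_le hfJ (hmax J (by simp))
  set 𝓜K := 𝓜.filter (fun T => K ⊆ T) with h𝓜K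
  have hne : 𝓜K.Nonempty := by
    rw [Finset.nonempty_iff_ne_empty]
    intro h
    have : f K = 0 := by simp [f, ← h𝓜K, h]
    rw [this] at hfK
    exact absurd hfK (not_lt.2 (by positivity))
  obtain ⟨T₀, hT₀⟩ := hne
  have hT₀' := hT₀
  rw [h𝓜K, Finset.mem_filter, h𝓜, Finset.mem_filter] at hT₀'
  obtain ⟨⟨hT₀min, hJT₀, hT₀card⟩, hKT₀⟩ := hT₀'
  have hKl : K.card ≤ l := hT₀card ▸ Finset.card_le_card hKT₀
  have hKlt : K.card < l := by
    rcases lt_or_eq_of_le hKl with h | h
    · exact h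
    · exfalso
      have hone : 𝓜K ⊆ {K} := by
        intro T hT
        rw [h𝓜K, Finset.mem_filter, h𝓜, Finset.mem_filter] at hT
        rw [Finset.mem_singleton]
        symm
        apply Finset.eq_of_subset_of_card_le hT.2
        rw [hT.1.2.2, h]
      have h1 : 𝓜K.card ≤ 1 := by simpa using Finset.card_le_card hone
      have h1' : (𝓜K.card : ℝ) ≤ 1 := by exact_mod_cast h1
      have : f K ≤ κ ^ l := by
        simp only [f, ← h𝓜K]
        rw [h]
        have hk' : 0 < κ ^ l := by positivity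
        nlinarith
      linarith
  -- the link
  set 𝒯 := 𝓜K.image (fun T => T \ K) with h𝒯
  have hinj : Set.InjOn (fun T : Finset (X × Bool) => T \ K) (𝓜K : Set (Finset (X × Bool))) := by
    intro S hS T hT hST
    simp only [Finset.mem_coe, h𝓜K, Finset.mem_filter] at hS hT
    simp only at hST
    rw [← Finset.sdiff_union_of_subset hS.2, ← Finset.sdiff_union_of_subset hT.2, hST]
  have h𝒯card : 𝒯.card = 𝓜K.card := Finset.card_image_of_injOn hinj
  have hTinfo : ∀ T ∈ 𝓜K, T ∈ A ∧ K ⊆ T ∧ T.card = l := by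
    intro T hT
    rw [h𝓜K, Finset.mem_filter, h𝓜, Finset.mem_filter] at hT
    exact ⟨(Finset.mem_filter.1 hT.1.1).1, hT.2, hT.1.2.2⟩
  have hspread : ∀ L : Finset (X × Bool),
      ((𝒯.filter (fun T => L ⊆ T)).card : ℝ) * κ ^ L.card ≤ 𝒯.card := by
    intro L
    by_cases hd : Disjoint L K
    · have hle : (𝒯.filter (fun T => L ⊆ T)).card ≤ (𝓜.filter (fun T => K ∪ L ⊆ T)).card := by
        have : 𝒯.filter (fun T => L ⊆ T) ⊆
            (𝓜.filter (fun T => K ∪ L ⊆ T)).image (fun T => T \ K) := by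
          intro T hT
          rw [Finset.mem_filter, h𝒯, Finset.mem_image] at hT
          obtain ⟨⟨S, hS, rfl⟩, hL⟩ := hT
          rw [Finset.mem_image]
          refine ⟨S, ?_, rfl⟩
          rw [h𝓜K, Finset.mem_filter] at hS
          rw [Finset.mem_filter]
          exact ⟨hS.1, Finset.union_subset hS.2 (hL.trans Finset.sdiff_subset)⟩
        exact (Finset.card_le_card this).trans Finset.card_image_le
      have hm := hmax (K ∪ L) (by
        rw [Finset.mem_filter]
        exact ⟨mem_univ _, hK.2.trans Finset.subset_union_left⟩)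
      simp only [f] at hm
      rw [Finset.card_union_of_disjoint hd.symm, pow_add] at hm
      have hKpos : 0 < κ ^ K.card := by positivity
      rw [h𝒯card]
      have h1 : ((𝓜.filter (fun T => K ∪ L ⊆ T)).card : ℝ) * κ ^ L.card ≤ 𝓜K.card := by
        have : (((𝓜.filter (fun T => K ∪ L ⊆ T)).card : ℝ) * κ ^ L.card) * κ ^ K.card ≤
            𝓜K.card * κ ^ K.card := by
          calc (((𝓜.filter (fun T => K ∪ L ⊆ T)).card : ℝ) * κ ^ L.card) * κ ^ K.card
              = ((𝓜.filter (fun T => K ∪ L ⊆ T)).card : ℝ) * (κ ^ K.card * κ ^ L.card) := by ring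
            _ ≤ _ := hm
        exact le_of_mul_le_mul_right this hKpos
      refine le_trans ?_ h1
      gcongr
    · have : 𝒯.filter (fun T => L ⊆ T) = ∅ := by
        rw [Finset.filter_eq_empty_iff]
        intro T hT hL
        rw [h𝒯, Finset.mem_image] at hT
        obtain ⟨S, _, rfl⟩ := hT
        apply hd
        rw [Finset.disjoint_left]
        intro a ha haK
        exact (Finset.mem_sdiff.1 (hL ha)).2 haK
      rw [this]
      simp
  have hlw : l ≤ w := by
    have := hG.card _ (hA.adm T₀ (hTinfo T₀ hT₀).1)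
    omega
  have hrob := hR 𝒯
    (by
      rw [h𝒯]
      exact ⟨_, Finset.mem_image_of_mem _ hT₀⟩)
    (l - K.card) (by omega) (by omega)
    (by
      intro T hT
      rw [h𝒯, Finset.mem_image] at hT
      obtain ⟨S, hS, rfl⟩ := hT
      have := hTinfo S hS
      rw [Finset.card_sdiff_of_subset this.2.1, this.2.2])
    (by
      intro T hT
      rw [h𝒯, Finset.mem_image] at hT
      obtain ⟨S, hS, rfl⟩ := hT
      exact (hG.cons _ (hA.adm S (hTinfo S hS).1)).mono Finset.sdiff_subset)
    hspread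
  have hKA : K ∈ A := by
    apply hA.closed K (hG.down _ _ hKT₀ (hA.adm T₀ (hTinfo T₀ hT₀).1))
    refine le_trans (pr_mono ?_) hrob
    intro ω hω T hT hsub
    rw [h𝒯, Finset.mem_image] at hT
    obtain ⟨S, hS, rfl⟩ := hT
    apply hω S (hTinfo S hS).1
    rw [← Finset.sdiff_union_of_subset (hTinfo S hS).2.1]
    exact Finset.union_subset_union_left hsub
  -- contradiction with minimality of T₀
  have h2 := (Finset.mem_filter.1 hT₀min).2 K hKA hKT₀
  rw [h2, hT₀card] at hKlt
  exact lt_irrefl _ hKlt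

/-- weighted count of minimal members above `J` -/
theorem sum_mins_le' (hG : AdmPred G w) (hκ0 : 0 < κ) (hR : RSP P w ε κ)
    {A : Finset (Finset (X × Bool))} (hA : CF P G ε A) (J : Finset (X × Bool)) :
    ∑ T ∈ (Mins A).filter (fun T => J ⊆ T), (κ⁻¹) ^ (T \ J).card ≤ w + 1 := by
  classical
  have hmaps : ∀ T ∈ (Mins A).filter (fun T => J ⊆ T), T.card ∈ Finset.range (w + 1) := by
    intro T hT
    have h1 := (Finset.mem_filter.1 (Finset.mem_filter.1 hT).1).1
    rw [Finset.mem_range]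
    have := hG.card _ (hA.adm T h1)
    omega
  rw [← Finset.sum_fiberwise_of_maps_to hmaps]
  calc ∑ l ∈ Finset.range (w + 1), ∑ T ∈ (Mins A).filter (fun T => J ⊆ T) with T.card = l,
        (κ⁻¹) ^ (T \ J).card
      ≤ ∑ l ∈ Finset.range (w + 1), (1:ℝ) := by
        apply Finset.sum_le_sum
        intro l _
        rw [Finset.filter_filter]
        have h1 : ∀ T ∈ (Mins A).filter (fun T => J ⊆ T ∧ T.card = l),
            (κ⁻¹) ^ (T \ J).card = κ ^ J.card * (κ ^ l)⁻¹ := by
          intro T hT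
          rw [Finset.mem_filter] at hT
          have h2 := Finset.card_le_card hT.2.1
          rw [Finset.card_sdiff_of_subset hT.2.1, hT.2.2]
          rw [hT.2.2] at h2
          rw [inv_pow]
          have : κ ^ l = κ ^ (l - J.card) * κ ^ J.card := by
            rw [← pow_add, Nat.sub_add_cancel h2]
          rw [this]
          field_simp
        rw [Finset.sum_congr rfl h1, Finset.sum_const, nsmul_eq_mul, ← mul_assoc,
          ← div_eq_mul_inv, div_le_one (by positivity)]
        exact card_mins_le' hG hκ0 hR hA J l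
    _ = w + 1 := by simp

end minimal

section errors

variable {P : Ω → Finset (X × Bool)} {G : Finset (X × Bool) → Prop} {w : ℕ} {ε κ : ℝ}

/-- Error of an AND gate on the sparse random sets `Q`: `η` bounds the probability that a
non-admissible union of two admissible sets lies in `Q`, relative to `κ^{-size}`. -/
theorem and_error' (hG : AdmPred G w) (hκ0 : 0 < κ) (hR : RSP P w ε κ) (hε : 0 ≤ ε)
    {A B : Finset (Finset (X × Bool))} (hA : CF P G ε A) (hB : CF P G ε B)
    {Q : Ω → Finset (X × Bool)} {η : ℝ} (hη0 : 0 ≤ η)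
    (hQ : ∀ S T : Finset (X × Bool), G S → G T → ¬ G (S ∪ T) →
      pr (fun ω => S ∪ T ⊆ Q ω) ≤ η * (κ⁻¹) ^ (S ∪ T).card) :
    pr (fun ω => (∃ S ∈ A, S ⊆ Q ω) ∧ (∃ T ∈ B, T ⊆ Q ω) ∧ ∀ T ∈ A ∩ B, ¬ T ⊆ Q ω) ≤
      ((w:ℝ) + 1) ^ 2 * 2 ^ w * η := by
  classical
  set pairs := (Mins A ×ˢ Mins B).filter (fun ST => ¬ G (ST.1 ∪ ST.2)) with hpairs
  have h1 : pr (fun ω => (∃ S ∈ A, S ⊆ Q ω) ∧ (∃ T ∈ B, T ⊆ Q ω) ∧ ∀ T ∈ A ∩ B, ¬ T ⊆ Q ω) ≤
      pr (fun ω => ∃ ST ∈ pairs, ST.1 ∪ ST.2 ⊆ Q ω) := by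
    apply pr_mono
    rintro ω ⟨⟨S, hS, hSQ⟩, ⟨T, hT, hTQ⟩, hno⟩
    obtain ⟨S', hS', hSS'⟩ := exists_min_subset hS
    obtain ⟨T', hT', hTT'⟩ := exists_min_subset hT
    have hsub : S' ∪ T' ⊆ Q ω := Finset.union_subset (hSS'.trans hSQ) (hTT'.trans hTQ)
    refine ⟨(S', T'), ?_, hsub⟩
    rw [hpairs, Finset.mem_filter, Finset.mem_product]
    refine ⟨⟨hS', hT'⟩, ?_⟩
    intro hGST
    have hSA : S' ∈ A := (Finset.mem_filter.1 hS').1
    have hTB : T' ∈ B := (Finset.mem_filter.1 hT').1
    exact hno (S' ∪ T') (Finset.mem_inter.2 ⟨hA.up hε hSA Finset.subset_union_left hGST,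
      hB.up hε hTB Finset.subset_union_right hGST⟩) hsub
  refine h1.trans ((pr_exists_le _ _).trans ?_)
  have h2 : ∀ ST ∈ pairs, pr (fun ω => ST.1 ∪ ST.2 ⊆ Q ω) ≤
      η * ((κ⁻¹) ^ ST.1.card * (κ⁻¹) ^ (ST.2 \ ST.1).card) := by
    intro ST hST
    rw [hpairs, Finset.mem_filter, Finset.mem_product] at hST
    refine (hQ _ _ (hA.adm _ (Finset.mem_filter.1 hST.1.1).1)
      (hB.adm _ (Finset.mem_filter.1 hST.1.2).1) hST.2).trans ?_
    have e1 : (ST.1 ∪ ST.2).card = ST.1.card + (ST.2 \ ST.1).card := by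
      rw [← Finset.card_union_of_disjoint Finset.disjoint_sdiff, Finset.union_sdiff_self_eq_union]
    rw [e1, pow_add]
  refine (Finset.sum_le_sum h2).trans ?_
  rw [← Finset.mul_sum]
  have h3 : ∑ ST ∈ pairs, ((κ⁻¹) ^ ST.1.card * (κ⁻¹) ^ (ST.2 \ ST.1).card) ≤
      ∑ ST ∈ Mins A ×ˢ Mins B, ((κ⁻¹) ^ ST.1.card * (κ⁻¹) ^ (ST.2 \ ST.1).card) := by
    apply Finset.sum_le_sum_of_subset_of_nonneg (Finset.filter_subset _ _)
    intro _ _ _
    positivity
  have h4 : ∑ ST ∈ Mins A ×ˢ Mins B, ((κ⁻¹) ^ ST.1.card * (κ⁻¹) ^ (ST.2 \ ST.1).card) =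
      ∑ S ∈ Mins A, (κ⁻¹) ^ S.card * ∑ T ∈ Mins B, (κ⁻¹) ^ (T \ S).card := by
    rw [Finset.sum_product]
    apply Finset.sum_congr rfl
    intro S _
    rw [Finset.mul_sum]
  have h5 : ∀ S ∈ Mins A, ∑ T ∈ Mins B, (κ⁻¹) ^ (T \ S).card ≤ 2 ^ w * ((w:ℝ) + 1) := by
    intro S hS
    have hSw : S.card ≤ w := hG.card _ (hA.adm S (Finset.mem_filter.1 hS).1)
    calc ∑ T ∈ Mins B, (κ⁻¹) ^ (T \ S).card
        ≤ ∑ T ∈ Mins B, ∑ J ∈ S.powerset, if J ⊆ T then (κ⁻¹) ^ (T \ J).card else 0 := by
          apply Finset.sum_le_sum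
          intro T _
          have : (κ⁻¹) ^ (T \ S).card = (fun J => if J ⊆ T then (κ⁻¹) ^ (T \ J).card else 0)
              (S ∩ T) := by
            simp only [Finset.inter_subset_right, if_true]
            congr 2
            ext a
            simp only [Finset.mem_sdiff, Finset.mem_inter]
            tauto
          rw [this]
          apply Finset.single_le_sum (f := fun J => if J ⊆ T then (κ⁻¹) ^ (T \ J).card else 0)
          · intro J _
            split_ifs
            · positivity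
            · exact le_refl _
          · exact Finset.mem_powerset.2 Finset.inter_subset_left
      _ = ∑ J ∈ S.powerset, ∑ T ∈ (Mins B).filter (fun T => J ⊆ T), (κ⁻¹) ^ (T \ J).card := by
          rw [Finset.sum_comm]
          apply Finset.sum_congr rfl
          intro J _
          rw [Finset.sum_filter]
      _ ≤ ∑ J ∈ S.powerset, ((w:ℝ) + 1) := by
          apply Finset.sum_le_sum
          intro J _
          exact sum_mins_le' hG hκ0 hR hB J
      _ = 2 ^ S.card * ((w:ℝ) + 1) := by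
          rw [Finset.sum_const, Finset.card_powerset, nsmul_eq_mul]
          push_cast
          ring
      _ ≤ 2 ^ w * ((w:ℝ) + 1) := by
          gcongr
          norm_num
  have h6 : ∑ S ∈ Mins A, (κ⁻¹) ^ S.card ≤ (w:ℝ) + 1 := by
    have := sum_mins_le' hG hκ0 hR hA ∅
    simpa using this
  calc η * ∑ ST ∈ pairs, ((κ⁻¹) ^ ST.1.card * (κ⁻¹) ^ (ST.2 \ ST.1).card)
      ≤ η * ∑ S ∈ Mins A, (κ⁻¹) ^ S.card * ∑ T ∈ Mins B, (κ⁻¹) ^ (T \ S).card := by
        rw [← h4]
        gcongr
    _ ≤ η * ∑ S ∈ Mins A, (κ⁻¹) ^ S.card * (2 ^ w * ((w:ℝ) + 1)) := by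
        apply mul_le_mul_of_nonneg_left _ hη0
        apply Finset.sum_le_sum
        intro S hS
        exact mul_le_mul_of_nonneg_left (h5 S hS) (by positivity)
    _ = η * ((∑ S ∈ Mins A, (κ⁻¹) ^ S.card) * (2 ^ w * ((w:ℝ) + 1))) := by
        rw [Finset.sum_mul]
    _ ≤ η * (((w:ℝ) + 1) * (2 ^ w * ((w:ℝ) + 1))) := by gcongr
    _ = ((w:ℝ) + 1) ^ 2 * 2 ^ w * η := by ring

/-- A closed family without the empty set is rarely satisfied by the sparse sets `Q`. -/
theorem zeta_error' (hG : AdmPred G w) (hκ0 : 0 < κ) (hR : RSP P w ε κ)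
    {A : Finset (Finset (X × Bool))} (hA : CF P G ε A) (hne : ∅ ∉ A)
    {Q : Ω → Finset (X × Bool)} {f : ℕ → ℝ} (hf : ∀ l, 0 ≤ f l)
    (hQ : ∀ T : Finset (X × Bool), G T → T ≠ ∅ →
      pr (fun ω => T ⊆ Q ω) ≤ f T.card * (κ⁻¹) ^ T.card) :
    pr (fun ω => ∃ T ∈ A, T ⊆ Q ω) ≤ ∑ l ∈ Finset.range w, f (l + 1) := by
  classical
  have h1 : pr (fun ω => ∃ T ∈ A, T ⊆ Q ω) ≤ pr (fun ω => ∃ T ∈ Mins A, T ⊆ Q ω) := by
    apply pr_mono
    rintro ω ⟨T, hT, hTQ⟩
    obtain ⟨S, hS, hST⟩ := exists_min_subset hT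
    exact ⟨S, hS, hST.trans hTQ⟩
  refine h1.trans ((pr_exists_le _ _).trans ?_)
  have hpos : ∀ T ∈ Mins A, 1 ≤ T.card := by
    intro T hT
    rw [Nat.one_le_iff_ne_zero]
    intro h
    rw [Finset.card_eq_zero] at h
    exact hne (h ▸ (Finset.mem_filter.1 hT).1)
  have hmaps : ∀ T ∈ Mins A, T.card - 1 ∈ Finset.range w := by
    intro T hT
    have h2 := hG.card _ (hA.adm T (Finset.mem_filter.1 hT).1)
    have h3 := hpos T hT
    rw [Finset.mem_range]
    omega
  rw [← Finset.sum_fiberwise_of_maps_to hmaps]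
  apply Finset.sum_le_sum
  intro l _
  have h2 : ∀ T ∈ (Mins A).filter (fun T => T.card - 1 = l),
      pr (fun ω => T ⊆ Q ω) ≤ f (l + 1) * (κ⁻¹) ^ (l + 1) := by
    intro T hT
    rw [Finset.mem_filter] at hT
    have h4 := hpos T hT.1
    have h3 : T.card = l + 1 := by omega
    rw [← h3]
    apply hQ T (hA.adm T (Finset.mem_filter.1 hT.1).1)
    rintro rfl
    simp at h4
  refine (Finset.sum_le_sum h2).trans ?_
  rw [Finset.sum_const, nsmul_eq_mul]
  have h4 : (Mins A).filter (fun T => T.card - 1 = l) ⊆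
      (Mins A).filter (fun T => (∅ : Finset (X × Bool)) ⊆ T ∧ T.card = l + 1) := by
    intro T hT
    rw [Finset.mem_filter] at hT ⊢
    have := hpos T hT.1
    exact ⟨hT.1, Finset.empty_subset _, by omega⟩
  have h5 : (((Mins A).filter (fun T => T.card - 1 = l)).card : ℝ) ≤ κ ^ (l + 1) := by
    have h6 := card_mins_le' hG hκ0 hR hA ∅ (l + 1)
    rw [Finset.card_empty, pow_zero, mul_one] at h6
    refine le_trans ?_ h6
    exact_mod_cast Finset.card_le_card h4
  calc (((Mins A).filter (fun T => T.card - 1 = l)).card : ℝ) * (f (l + 1) * (κ⁻¹) ^ (l + 1))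
      ≤ κ ^ (l + 1) * (f (l + 1) * (κ⁻¹) ^ (l + 1)) := by
        have := hf (l + 1)
        gcongr
    _ = f (l + 1) := by
        rw [inv_pow]
        field_simp

/-- The number of sets of at most `w` literals. -/
theorem card_AdmSets_le (hG : AdmPred G w) :
    (AdmSets G).card ≤ (2 * Fintype.card X + 1) ^ w := by
  classical
  let g : (Fin w → Option (X × Bool)) → Finset (X × Bool) :=
    fun f => univ.filter (fun l => ∃ i, f i = some l)
  have hsub : AdmSets G ⊆ univ.image g := by
    intro T hT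
    rw [mem_AdmSets] at hT
    rw [Finset.mem_image]
    refine ⟨fun i => T.toList[(i : ℕ)]?, mem_univ _, ?_⟩
    ext l
    simp only [g, Finset.mem_filter, mem_univ, true_and]
    rw [← Finset.mem_toList, List.mem_iff_getElem?]
    constructor
    · rintro ⟨i, hi⟩
      exact ⟨i, hi⟩
    · rintro ⟨i, hi⟩
      refine ⟨⟨i, ?_⟩, hi⟩
      have h1 : i < T.toList.length := by
        by_contra hlen
        push Not at hlen
        rw [List.getElem?_eq_none hlen] at hi
        simp at hi
      rw [Finset.length_toList] at h1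
      exact lt_of_lt_of_le h1 (hG.card T hT)
  refine (Finset.card_le_card hsub).trans (Finset.card_image_le.trans ?_)
  rw [Finset.card_univ, Fintype.card_fun, Fintype.card_option, Fintype.card_prod,
    Fintype.card_bool, Fintype.card_fin]
  rw [Nat.mul_comm 2]

end errors

end Pool.Agent.H24
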