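import Pool.Agent.H24.Moment
import Pool.Agent.H24.Defs

/-!
A `t`-wise independent family of Boolean functions computed by circuits of size `O(t n^3)`:
one coordinate of a polynomial of degree less than `t` over the field with `2^n` elements.
-/

namespace Pool.Agent.H24

open Finset

set_option linter.unusedSectionVars false

variable {n : ℕ}

/-! ### Extending circuits -/

theorem Wire.mono {L L' : List ((Fin n → Bool) → Bool)} (h : ∀ v ∈ L, v ∈ L')
    {u : (Fin n → Bool) → Bool} (hu : Wire L u) : Wire L' u := by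
  obtain ⟨v, hv, huv⟩ := hu
  refine ⟨v, ?_, huv⟩
  rcases hv with hv | hv
  · exact Or.inl hv
  · exact Or.inr (h v hv)

theorem Wire.not {L : List ((Fin n → Bool) → Bool)} {u : (Fin n → Bool) → Bool} (hu : Wire L u) :
    Wire L (fun x => !(u x)) := by
  obtain ⟨v, hv, huv⟩ := hu
  refine ⟨v, hv, ?_⟩
  rcases huv with rfl | rfl
  · exact Or.inr rfl
  · left
    ext x
    simp

theorem wire_head {L : List ((Fin n → Bool) → Bool)} (u : (Fin n → Bool) → Bool) :
    Wire (u :: L) u := ⟨u, Or.inr (by simp), Or.inl rfl⟩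

/-- a ZMod 2 valued function is available as a wire -/
def W (L : List ((Fin n → Bool) → Bool)) (g : (Fin n → Bool) → ZMod 2) : Prop :=
  Wire L (fun x => decide (g x = 1))

/-- `Add c L G`: by adding at most `c` gates to `L` one can achieve `G`. -/
def Add (c : ℕ) (L : List ((Fin n → Bool) → Bool))
    (G : List ((Fin n → Bool) → Bool) → Prop) : Prop :=
  ∃ L', Gates L' ∧ (∀ v ∈ L, v ∈ L') ∧ L'.length ≤ L.length + c ∧ G L'

theorem Add.zero {L : List ((Fin n → Bool) → Bool)} {G : List ((Fin n → Bool) → Bool) → Prop}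
    (hL : Gates L) (h : G L) : Add 0 L G := ⟨L, hL, fun _ h => h, by simp, h⟩

theorem Add.trans {c d : ℕ} {L : List ((Fin n → Bool) → Bool)}
    {G H : List ((Fin n → Bool) → Bool) → Prop} (h : Add c L G)
    (h' : ∀ L', Gates L' → (∀ v ∈ L, v ∈ L') → G L' → Add d L' H) : Add (c + d) L H := by
  obtain ⟨L', hL', hsub, hlen, hG⟩ := h
  obtain ⟨L'', hL'', hsub', hlen', hH⟩ := h' L' hL' hsub hG
  exact ⟨L'', hL'', fun v hv => hsub' v (hsub v hv), by omega, hH⟩

theorem Add.mono {c d : ℕ} {L : List ((Fin n → Bool) → Bool)}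
    {G H : List ((Fin n → Bool) → Bool) → Prop} (h : Add c L G) (hcd : c ≤ d)
    (hGH : ∀ L', (∀ v ∈ L, v ∈ L') → G L' → H L') : Add d L H := by
  obtain ⟨L', hL', hsub, hlen, hG⟩ := h
  exact ⟨L', hL', hsub, by omega, hGH L' hsub hG⟩

theorem W.mono {L L' : List ((Fin n → Bool) → Bool)} (h : ∀ v ∈ L, v ∈ L')
    {g : (Fin n → Bool) → ZMod 2} (hg : W L g) : W L' g := Wire.mono h hg

theorem zmod2_cases (z : ZMod 2) : z = 0 ∨ z = 1 := by
  revert z
  decide

theorem W.add_one {L : List ((Fin n → Bool) → Bool)} {g : (Fin n → Bool) → ZMod 2} (hg : W L g) :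
    W L (fun x => g x + 1) := by
  have h := Wire.not hg
  unfold W
  convert h using 1
  ext x
  change decide (g x + 1 = 1) = !(decide (g x = 1))
  rcases zmod2_cases (g x) with h | h <;> rw [h] <;> decide

theorem W.add_const {L : List ((Fin n → Bool) → Bool)} {g : (Fin n → Bool) → ZMod 2} (hg : W L g)
    (c : ZMod 2) : W L (fun x => g x + c) := by
  rcases zmod2_cases c with rfl | rfl
  · simpa using hg
  · exact hg.add_one

theorem gadd_mul {L : List ((Fin n → Bool) → Bool)} (hL : Gates L)
    {g g' : (Fin n → Bool) → ZMod 2} (hg : W L g) (hg' : W L g') :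
    Add 1 L (fun L' => W L' (fun x => g x * g' x)) := by
  refine ⟨_, Gates.and hL hg hg', fun v hv => by simp [hv], by simp, ?_⟩
  have := wire_head (L := L) (fun x => decide (g x = 1) && decide (g' x = 1))
  unfold W
  convert this using 1
  ext x
  change decide (g x * g' x = 1) = (decide (g x = 1) && decide (g' x = 1))
  rcases zmod2_cases (g x) with h | h <;> rcases zmod2_cases (g' x) with h' | h' <;>
    rw [h, h'] <;> decide

theorem gadd_add {L : List ((Fin n → Bool) → Bool)} (hL : Gates L)
    {g g' : (Fin n → Bool) → ZMod 2} (hg : W L g) (hg' : W L g') :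
    Add 3 L (fun L' => W L' (fun x => g x + g' x)) := by
  -- g && !g'
  let u1 : (Fin n → Bool) → Bool := fun x => decide (g x = 1) && !(decide (g' x = 1))
  let u2 : (Fin n → Bool) → Bool := fun x => !(decide (g x = 1)) && decide (g' x = 1)
  have h1 : Gates (u1 :: L) := Gates.and hL hg hg'.not
  have hsub1 : ∀ v ∈ L, v ∈ u1 :: L := fun v hv => by simp [hv]
  have h2 : Gates (u2 :: u1 :: L) := Gates.and h1 (Wire.mono hsub1 hg.not) (Wire.mono hsub1 hg')
  have hw1 : Wire (u2 :: u1 :: L) u1 :=
    (wire_head (L := L) u1).mono (fun v hv => List.mem_cons_of_mem _ hv)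
  have hw2 : Wire (u2 :: u1 :: L) u2 := wire_head u2
  refine ⟨_, Gates.or h2 hw1 hw2, fun v hv => by simp [hv], by simp, ?_⟩
  have := wire_head (L := u2 :: u1 :: L) (fun x => u1 x || u2 x)
  unfold W
  convert this using 1
  ext x
  change decide (g x + g' x = 1) = ((decide (g x = 1) && !(decide (g' x = 1))) ||
    (!(decide (g x = 1)) && decide (g' x = 1)))
  rcases zmod2_cases (g x) with h | h <;> rcases zmod2_cases (g' x) with h' | h' <;>
    rw [h, h'] <;> decide

theorem gadd_sum {ι : Type*} [DecidableEq ι] (s : Finset ι) (f : ι → (Fin n → Bool) → ZMod 2) :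
    ∀ {L : List ((Fin n → Bool) → Bool)}, Gates L → W L (fun _ => 0) → (∀ i ∈ s, W L (f i)) →
      Add (3 * s.card) L (fun L' => W L' (fun x => ∑ i ∈ s, f i x)) := by
  induction s using Finset.induction_on with
  | empty =>
    intro L hL h0 _
    exact Add.zero hL (by simpa using h0)
  | insert a s ha ih =>
    intro L hL h0 hf
    rw [Finset.card_insert_of_notMem ha, Nat.mul_add]
    refine (ih hL h0 (fun i hi => hf i (Finset.mem_insert_of_mem hi))).trans ?_
    intro L' hL' hsub hG
    refine (gadd_add hL' ((hf a (Finset.mem_insert_self _ _)).mono hsub) hG).mono (by omega) ?_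
    intro L'' _ h
    simpa [Finset.sum_insert ha] using h

/-- Adding many things one after the other. -/
theorem gadd_all {ι : Type*} [DecidableEq ι] (s : Finset ι) (c : ℕ)
    (G : ι → List ((Fin n → Bool) → Bool) → Prop)
    (hmono : ∀ i L L', (∀ v ∈ L, v ∈ L') → G i L → G i L') :
    ∀ {L : List ((Fin n → Bool) → Bool)}, Gates L →
      (∀ i ∈ s, ∀ L', Gates L' → (∀ v ∈ L, v ∈ L') → Add c L' (G i)) →
      Add (c * s.card) L (fun L' => ∀ i ∈ s, G i L') := by
  induction s using Finset.induction_on with
  | empty =>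
    intro L hL _
    exact Add.zero hL (by simp)
  | insert a s ha ih =>
    intro L hL hstep
    rw [Finset.card_insert_of_notMem ha, Nat.mul_add, Nat.mul_one]
    refine (ih hL (fun i hi => hstep i (Finset.mem_insert_of_mem hi))).trans ?_
    intro L' hL' hsub hG
    refine (hstep a (Finset.mem_insert_self _ _) L' hL' hsub).mono le_rfl ?_
    intro L'' hsub'' h i hi
    rcases Finset.mem_insert.1 hi with rfl | hi
    · exact h
    · exact hmono i _ _ hsub'' (hG i hi)

/-- With one gate we get the constant zero. -/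
theorem gadd_zero (hn : 0 < n) : Add 1 ([] : List ((Fin n → Bool) → Bool))
    (fun L' => W L' (fun _ => 0)) := by
  let i : Fin n := ⟨0, hn⟩
  have h1 : Wire ([] : List ((Fin n → Bool) → Bool)) (fun x => x i) :=
    ⟨_, Or.inl ⟨i, rfl⟩, Or.inl rfl⟩
  refine ⟨_, Gates.and Gates.nil h1 h1.not, by simp, by simp, ?_⟩
  have := wire_head (L := []) (fun x : Fin n → Bool => x i && !(x i))
  unfold W
  convert this using 1
  ext x
  simp

/-! ### The field -/

section field

variable {F : Type} [Field F] [Fintype F] [Algebra (ZMod 2) F] (B : Module.Basis (Fin n) (ZMod 2) F)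

/-- the field element with coordinate vector `x` -/
noncomputable def elt (x : Fin n → Bool) : F := ∑ i, (if x i then (1 : ZMod 2) else 0) • B i

theorem repr_elt (x : Fin n → Bool) (i : Fin n) : B.repr (elt B x) i = if x i then 1 else 0 := by
  unfold elt
  rw [B.repr_sum_self]

theorem elt_injective : Function.Injective (elt B) := by
  intro x y hxy
  ext i
  have h1 := repr_elt B x i
  have h2 := repr_elt B y i
  rw [hxy, h2] at h1
  cases hx : x i <;> cases hy : y i <;> simp [hx, hy] at h1 <;> rfl

/-- all coordinates of an `F`-valued function are available -/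
def WF (L : List ((Fin n → Bool) → Bool)) (y : (Fin n → Bool) → F) : Prop :=
  ∀ i, W L (fun x => B.repr (y x) i)

theorem WF.mono {L L' : List ((Fin n → Bool) → Bool)} (h : ∀ v ∈ L, v ∈ L')
    {y : (Fin n → Bool) → F} (hy : WF B L y) : WF B L' y := fun i => (hy i).mono h

theorem WF.add_const {L : List ((Fin n → Bool) → Bool)}
    {y : (Fin n → Bool) → F} (hy : WF B L y) (a : F) : WF B L (fun x => y x + a) := by
  intro i
  have := (hy i).add_const (B.repr a i)
  simpa using this

theorem w_coord {L : List ((Fin n → Bool) → Bool)} (j : Fin n) :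
    W L (fun x => if x j then 1 else 0) := by
  refine ⟨fun x => x j, Or.inl ⟨j, rfl⟩, Or.inl ?_⟩
  ext x
  cases h : x j <;> simp [h]

theorem repr_mul (y z : F) (k : Fin n) :
    B.repr (y * z) k = ∑ ij : Fin n × Fin n,
      (B.repr y ij.1 * B.repr z ij.2) * B.repr (B ij.1 * B ij.2) k := by
  conv_lhs => rw [← B.sum_repr y, ← B.sum_repr z]
  rw [Finset.sum_mul_sum, Fintype.sum_prod_type]
  simp only [map_sum, Finsupp.coe_finsetSum, Finset.sum_apply]
  apply Finset.sum_congr rfl
  intro i _
  apply Finset.sum_congr rfl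
  intro j _
  rw [smul_mul_smul_comm, map_smul]
  simp [smul_eq_mul]

/-- multiplication by the input costs at most `4 n^3` gates -/
theorem gadd_mulx (hn : 0 < n) {L : List ((Fin n → Bool) → Bool)} (hL : Gates L)
    (h0 : W L (fun _ => 0)) {y : (Fin n → Bool) → F} (hy : WF B L y) :
    Add (4 * n ^ 3) L (fun L' => WF B L' (fun x => y x * elt B x)) := by
  classical
  -- products
  have h1 : Add (1 * (univ : Finset (Fin n × Fin n)).card) L
      (fun L' => ∀ ij ∈ (univ : Finset (Fin n × Fin n)),
        W L' (fun x => B.repr (y x) ij.1 * (if x ij.2 then 1 else 0))) := by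
    apply gadd_all
    · intro i L L' h hG
      exact hG.mono h
    · exact hL
    · intro ij _ L' hL' hsub
      exact gadd_mul hL' ((hy ij.1).mono hsub) (w_coord ij.2)
  rw [Finset.card_univ, Fintype.card_prod, Fintype.card_fin] at h1
  have h2 : Add (1 * (n * n) + (3 * (n * n)) * (univ : Finset (Fin n)).card) L
      (fun L' => ∀ k ∈ (univ : Finset (Fin n)), W L' (fun x => B.repr (y x * elt B x) k)) := by
    refine h1.trans ?_
    intro L' hL' hsub hG
    apply gadd_all
    · intro i L L' h hG
      exact hG.mono h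
    · exact hL'
    · intro k _ L'' hL'' hsub''
      have h3 := gadd_sum (univ.filter (fun ij : Fin n × Fin n => B.repr (B ij.1 * B ij.2) k = 1))
        (fun ij x => B.repr (y x) ij.1 * (if x ij.2 then 1 else 0)) hL''
        (h0.mono (fun v hv => hsub'' v (hsub v hv)))
        (fun ij _ => (hG ij (mem_univ _)).mono hsub'')
      refine h3.mono ?_ ?_
      · refine Nat.mul_le_mul_left _ ((Finset.card_filter_le _ _).trans ?_)
        rw [Finset.card_univ, Fintype.card_prod, Fintype.card_fin]
      · intro L₃ _ h
        convert h using 2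
        rename_i x
        rw [repr_mul, Finset.sum_filter]
        apply Finset.sum_congr rfl
        intro ij _
        rw [repr_elt]
        rcases zmod2_cases (B.repr (B ij.1 * B ij.2) k) with h | h
        · rw [h]
          simp
        · rw [h]
          simp
  refine h2.mono ?_ ?_
  · rw [Finset.card_univ, Fintype.card_fin]
    have : n * n ≤ n ^ 3 := by
      calc n * n = n ^ 2 := by ring
        _ ≤ n ^ 3 := Nat.pow_le_pow_right hn (by norm_num)
    nlinarith
  · intro L' _ h k
    exact h k (mem_univ _)

/-- evaluation of a polynomial of degree less than `t` costs at most `4 n^3 t` gates -/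
theorem gadd_poly (hn : 0 < n) : ∀ (t : ℕ) (a : ℕ → F) {L : List ((Fin n → Bool) → Bool)},
    Gates L → W L (fun _ => 0) →
    Add (4 * n ^ 3 * t) L (fun L' => WF B L' (fun x => ∑ j ∈ range t, a j * elt B x ^ j)) := by
  intro t
  induction t with
  | zero =>
    intro a L hL h0
    refine Add.zero hL ?_
    intro i
    simpa using h0
  | succ t ih =>
    intro a L hL h0
    rw [Nat.mul_add, Nat.mul_one]
    refine (ih (fun j => a (j + 1)) hL h0).trans ?_
    intro L' hL' hsub hG
    refine (gadd_mulx B hn hL' (h0.mono hsub) hG).mono le_rfl ?_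
    intro L'' _ h
    have h1 := WF.add_const B h (a 0)
    convert h1 using 2
    rename_i x
    rw [Finset.sum_range_succ', Finset.sum_mul]
    congr 1
    · apply Finset.sum_congr rfl
      intro j _
      rw [pow_succ, mul_assoc]
    · simp

/-- the family of functions -/
noncomputable def fam (i₀ : Fin n) (t : ℕ) (a : Fin t → F) (x : Fin n → Bool) : Bool :=
  decide (B.repr (∑ j : Fin t, a j * elt B x ^ (j : ℕ)) i₀ = 1)

theorem hasCircuit_fam (hn : 0 < n) (i₀ : Fin n) (t : ℕ) (a : Fin t → F) :
    HasCircuit (fam B i₀ t a) (4 * n ^ 3 * t + 1) := by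
  obtain ⟨L, hL, _, hlen, hG⟩ := (gadd_zero hn).trans (d := 4 * n ^ 3 * t)
    (H := fun L' => WF B L' (fun x => ∑ j ∈ range t,
      (fun j : ℕ => if h : j < t then a ⟨j, h⟩ else 0) j * elt B x ^ j))
    (fun L' hL' _ h0 => gadd_poly B hn t _ hL' h0)
  refine ⟨L, hL, ?_, ?_⟩
  · simp only [List.length_nil, zero_add] at hlen
    omega
  · have h1 := hG i₀
    unfold W at h1
    have h2 : fam B i₀ t a = fun x => decide (B.repr (∑ j ∈ range t,
      (fun j : ℕ => if h : j < t then a ⟨j, h⟩ else 0) j * elt B x ^ j) i₀ = 1) := by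
      funext x
      unfold fam
      have h3 : ∑ j : Fin t, a j * elt B x ^ (j : ℕ) = ∑ j ∈ range t,
          (fun j : ℕ => if h : j < t then a ⟨j, h⟩ else 0) j * elt B x ^ j := by
        rw [Finset.sum_range]
        apply Finset.sum_congr rfl
        intro j _
        simp
      rw [h3]
    rw [h2]
    exact h1

open Classical in
/-- The family is `t`-wise independent. -/
theorem fam_indep (i₀ : Fin n) (t : ℕ) {T : Finset ((Fin n → Bool) × Bool)} (hT : Cons T)
    (hcard : T.card ≤ t) :
    pr (fun a : Fin t → F => ∀ l ∈ T, fam B i₀ t a l.1 = l.2) = (1 / 2) ^ T.card := by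
  let V := vars T
  let Φ : (Fin t → F) →+ (V → ZMod 2) :=
    { toFun := fun a v => B.repr (∑ j : Fin t, a j * elt B v.1 ^ (j : ℕ)) i₀
      map_zero' := by
        ext v
        simp
      map_add' := by
        intro a b
        ext v
        change B.repr (∑ j : Fin t, (a j + b j) * elt B v.1 ^ (j : ℕ)) i₀ =
          B.repr (∑ j : Fin t, a j * elt B v.1 ^ (j : ℕ)) i₀ +
          B.repr (∑ j : Fin t, b j * elt B v.1 ^ (j : ℕ)) i₀
        simp only [_root_.add_mul, Finset.sum_add_distrib, map_add, Finsupp.add_apply] }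
  have hΦ : ∀ a v, Φ a v = B.repr (∑ j : Fin t, a j * elt B v.1 ^ (j : ℕ)) i₀ := fun _ _ => rfl
  have hVcard : V.card ≤ t := (card_vars_le T).trans hcard
  -- surjectivity by interpolation
  have hsurj : Function.Surjective Φ := by
    intro c
    let node : V → F := fun v => elt B v.1
    have hinj : Set.InjOn node ((univ : Finset V) : Set V) := by
      intro v _ v' _ h
      exact Subtype.ext (elt_injective B h)
    let Pol := Lagrange.interpolate (univ : Finset V) node (fun v => c v • B i₀)
    have hdeg : Pol.degree < (t : ℕ) := by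
      have h1 := Lagrange.degree_interpolate_lt (fun v => c v • B i₀) hinj
      refine lt_of_lt_of_le h1 ?_
      rw [Finset.card_univ, Fintype.card_coe]
      exact_mod_cast hVcard
    refine ⟨fun j => Pol.coeff j, ?_⟩
    ext v
    rw [hΦ]
    have htpos : 0 < t := lt_of_lt_of_le (Finset.card_pos.2 ⟨v.1, v.2⟩) hVcard
    have hnat : Pol.natDegree < t := by
      by_cases h0 : Pol = 0
      · rw [h0]
        simpa using htpos
      · exact (Polynomial.natDegree_lt_iff_degree_lt h0).2 hdeg
    have h2 : ∑ j : Fin t, Pol.coeff j * elt B v.1 ^ (j : ℕ) = Pol.eval (elt B v.1) := by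
      rw [Polynomial.eval_eq_sum_range' hnat, Finset.sum_range]
    rw [h2]
    have h3 : Pol.eval (elt B v.1) = c v • B i₀ :=
      Lagrange.eval_interpolate_at_node (fun v => c v • B i₀) hinj (mem_univ v)
    rw [h3]
    simp
  -- equal fibres
  have hfib : ∀ c c' : V → ZMod 2, (univ.filter (fun a => Φ a = c)).card =
      (univ.filter (fun a => Φ a = c')).card := by
    intro c c'
    exact AddMonoidHom.card_fiber_eq_of_mem_range Φ (hsurj c) (hsurj c')
  let cT : V → ZMod 2 := fun v => if (v.1, true) ∈ T then 1 else 0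
  have hev : ∀ a : Fin t → F, (∀ l ∈ T, fam B i₀ t a l.1 = l.2) ↔ Φ a = cT := by
    intro a
    constructor
    · intro h
      ext v
      rw [hΦ]
      by_cases hv : (v.1, true) ∈ T
      · have := h _ hv
        simp only [fam, decide_eq_true_eq] at this
        rw [this]
        simp [cT, hv]
      · obtain ⟨b, hb⟩ := mem_vars.1 v.2
        cases b
        · have := h _ hb
          simp only [fam, decide_eq_false_iff_not] at this
          have h0 := (zmod2_cases _).resolve_right this
          rw [h0]
          simp [cT, hv]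
        · exact absurd hb hv
    · rintro h ⟨x, b⟩ hl
      have hxV : x ∈ V := mem_vars.2 ⟨b, hl⟩
      have h1 := congrFun h ⟨x, hxV⟩
      rw [hΦ] at h1
      simp only [fam]
      rw [h1]
      cases b
      · have hnt : (x, true) ∉ T := fun h => hT x ⟨h, hl⟩
        simp [cT, hnt]
      · simp [cT, hl]
  have hsum : Fintype.card (Fin t → F) =
      2 ^ V.card * (univ.filter (fun a => Φ a = cT)).card := by
    have h1 := Finset.card_eq_sum_card_fiberwise (s := (univ : Finset (Fin t → F)))
      (t := (univ : Finset (V → ZMod 2))) (f := Φ) (fun _ _ => mem_univ _)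
    rw [Finset.card_univ] at h1
    rw [h1, Finset.sum_congr rfl (fun c _ => hfib c cT), Finset.sum_const, smul_eq_mul,
      Finset.card_univ]
    congr 1
    rw [Fintype.card_fun, ZMod.card, Fintype.card_coe]
  rw [pr_congr hev, pr_eq_card, hsum, show V.card = T.card from hT.card_vars]
  have hpos : 0 < (univ.filter (fun a => Φ a = cT)).card := by
    obtain ⟨a, ha⟩ := hsurj cT
    exact Finset.card_pos.2 ⟨a, by simp [ha]⟩
  have hpos' : (0:ℝ) < (univ.filter (fun a => Φ a = cT)).card := by exact_mod_cast hpos
  push_cast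
  rw [one_div, inv_pow]
  field_simp

end field

end Pool.Agent.H24
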