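import Pool.Agent.H24.Typed

/-!
The partial table of a system of constraints on `D`-tuples of words. A word has length `2 h` and
exactly `h` ones; the table forces this.
-/

namespace Pool.Agent.H24

open Pool.Agent.H87.PMCSP (Circuit Var exists_typed_circuit_emb)
open Finset

set_option linter.unusedSectionVars false

/-- The words. -/
abbrev Wm (h : ℕ) : Type :=
  {p : Fin (2 * h) → Bool // (univ.filter (fun i => p i = true)).card = h}

/-- The types: `D` copies of `{0,1}^k`. -/
abbrev XTd (D k : ℕ) : Type := Fin D × (Fin k → Bool)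

/-- The proper variables `y^κ_i`, and `r` further variables. -/
abbrev YTd (D h r : ℕ) : Type := (Fin D × Fin (2 * h)) ⊕ Fin r

/-- All variables. -/
abbrev VTd (D k h r : ℕ) : Type := Var (XTd D k) (YTd D h r)

section words

variable {h : ℕ}

theorem card_false (p : Fin (2 * h) → Bool) :
    (univ.filter (fun i => p i = false)).card + (univ.filter (fun i => p i = true)).card =
      2 * h := by
  have h1 := Finset.card_filter_add_card_filter_not (s := (univ : Finset (Fin (2 * h))))
    (fun i => p i = false)
  rw [Finset.card_univ, Fintype.card_fin] at h1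
  refine Eq.trans ?_ h1
  congr 2
  apply Finset.filter_congr
  intro i _
  simp

/-- the complement of a word -/
def Wm.compl (p : Wm h) : Wm h := ⟨fun i => !(p.1 i), by
  have h1 := card_false p.1
  have h2 := p.2
  have h3 : (univ.filter (fun i => (!(p.1 i)) = true)) = univ.filter (fun i => p.1 i = false) := by
    apply Finset.filter_congr
    intro i _
    simp
  rw [h3]
  omega⟩

theorem Wm.compl_ne (hh : 0 < h) (p : Wm h) : p.compl ≠ p := by
  intro h1
  have h2 : ∀ i, (!(p.1 i)) = p.1 i := fun i => congrFun (congrArg Subtype.val h1) i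
  have := h2 ⟨0, by omega⟩
  simp at this

instance : Nonempty (Wm h) := by
  refine ⟨⟨fun i => decide ((i : ℕ) < h), ?_⟩⟩
  have h1 : (univ.filter (fun i : Fin (2 * h) => decide ((i : ℕ) < h) = true)) =
      (univ : Finset (Fin h)).map (Fin.castLEEmb (by omega)) := by
    ext i
    simp only [Finset.mem_filter, mem_univ, true_and, decide_eq_true_eq, Finset.mem_map,
      Fin.castLEEmb_apply]
    constructor
    · intro hi
      exact ⟨⟨i, hi⟩, rfl⟩
    · rintro ⟨j, rfl⟩
      exact j.2
  rw [h1, Finset.card_map, Finset.card_univ, Fintype.card_fin]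

theorem card_Wm : Fintype.card (Wm h) = Nat.centralBinom h := by
  classical
  rw [Nat.centralBinom_eq_two_mul_choose, Fintype.card_subtype]
  have h1 := Finset.card_powersetCard h (univ : Finset (Fin (2 * h)))
  rw [Finset.card_univ, Fintype.card_fin] at h1
  rw [← h1]
  refine Finset.card_bij (fun p _ => univ.filter (fun i => p i = true)) ?_ ?_ ?_
  · intro p hp
    rw [Finset.mem_filter] at hp
    rw [Finset.mem_powersetCard]
    exact ⟨Finset.subset_univ _, hp.2⟩
  · intro p _ p' _ hpp
    funext i
    have h2 : i ∈ univ.filter (fun i => p i = true) ↔ i ∈ univ.filter (fun i => p' i = true) := by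
      rw [hpp]
    simp only [Finset.mem_filter, mem_univ, true_and] at h2
    rwa [Bool.eq_iff_iff]
  · intro S hS
    rw [Finset.mem_powersetCard] at hS
    refine ⟨fun i => decide (i ∈ S), ?_, ?_⟩
    · rw [Finset.mem_filter]
      refine ⟨mem_univ _, ?_⟩
      have h3 : (univ.filter (fun i => (fun i => decide (i ∈ S)) i = true)) = S := by
        ext i
        simp
      rw [h3]
      exact hS.2
    · ext i
      simp

theorem card_Wm_ge (hh : 0 < h) : 4 ^ h ≤ 2 * h * Fintype.card (Wm h) := by
  rw [card_Wm]
  exact Nat.four_pow_le_two_mul_self_mul_centralBinom h hh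

theorem card_Wm_le : Fintype.card (Wm h) ≤ 4 ^ h := by
  have h1 := Fintype.card_subtype_le
    (fun p : Fin (2 * h) → Bool => (univ.filter (fun i => p i = true)).card = h)
  refine h1.trans (le_of_eq ?_)
  rw [Fintype.card_fun, Fintype.card_bool, Fintype.card_fin, pow_mul]
  norm_num

/-- A word below another one is equal to it. -/
theorem Wm.eq_of_le {p q : Wm h} (hpq : ∀ i, p.1 i = true → q.1 i = true) : p = q := by
  have h1 : univ.filter (fun i => p.1 i = true) ⊆ univ.filter (fun i => q.1 i = true) := by
    intro i hi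
    rw [Finset.mem_filter] at hi ⊢
    exact ⟨hi.1, hpq i hi.2⟩
  have h2 := Finset.eq_of_subset_of_card_le h1 (by rw [p.2, q.2])
  apply Subtype.ext
  funext i
  have h3 : i ∈ univ.filter (fun i => p.1 i = true) ↔ i ∈ univ.filter (fun i => q.1 i = true) := by
    rw [h2]
  simp only [Finset.mem_filter, mem_univ, true_and] at h3
  rwa [Bool.eq_iff_iff]

end words

section points

variable {D k h r : ℕ}

/-- all types of copy `κ` whose coordinate `a` is `σ` -/
def coXd (κ : Fin D) (a : Fin k) (σ : Bool) : XTd D k → Bool :=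
  fun u => decide (u.1 = κ) && u.2 a == σ

/-- all types of the other copies -/
def cpXd (κ : Fin D) : XTd D k → Bool := fun u => decide (u.1 ≠ κ)

/-- the variables `y^κ_i` with `i` in the set `Y` -/
def prYd (κ : Fin D) (Y : Finset (Fin (2 * h))) : XTd D k ⊕ YTd D h r → Bool :=
  Sum.elim (fun _ => false) (Sum.elim (fun y => decide (y.1 = κ) && decide (y.2 ∈ Y))
    (fun _ => false))

/-- first part of a query point -/
def quXd (a : Fin D → Fin k) : XTd D k → Bool := fun u => u.2 (a u.1)

/-- second part of a query point -/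
def quYd (p : Fin D → Wm h) : XTd D k ⊕ YTd D h r → Bool :=
  Sum.elim (fun _ => false) (Sum.elim (fun y => !((p y.1).1 y.2)) (fun _ => false))

end points

/-- The points at which the table is `0`. -/
inductive ZerD (D k h r : ℕ) : (VTd D k h r → Bool) → Prop
  | a : ZerD D k h r (Sum.elim (fun _ => true) (fun _ => false))
  | b : ZerD D k h r (Sum.elim (fun _ => false) (fun _ => true))
  | c (u v : XTd D k) (huv : u ≠ v) :
      ZerD D k h r (Sum.elim (fun u' => decide (u' = u)) (fun e => decide (e = Sum.inl v)))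
  | d (κ : Fin D) (i : Fin (2 * h)) :
      ZerD D k h r (Sum.elim (cpXd κ) (fun e => decide (e = Sum.inr (Sum.inl (κ, i)))))

/-- The points at which the table is `1`. -/
inductive OneD (D k h r : ℕ) (bad : (Fin D → Fin k) → (Fin D → Wm h) → Prop) :
    (VTd D k h r → Bool) → Prop
  | a (u : XTd D k) : OneD D k h r bad (Sum.elim (fun v => decide (v = u)) (fun _ => true))
  | b (e : XTd D k ⊕ YTd D h r) :
      OneD D k h r bad (Sum.elim (fun _ => true) (fun e' => decide (e' = e)))
  | c (u : XTd D k) :
      OneD D k h r bad (Sum.elim (fun u' => decide (u' = u)) (fun e => decide (e = Sum.inl u)))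
  | d (κ : Fin D) (a : Fin k) (σ : Bool) (Y : Finset (Fin (2 * h))) (hY : h < Y.card) :
      OneD D k h r bad (Sum.elim (coXd κ a σ) (prYd κ Y))
  | e (a : Fin D → Fin k) (p : Fin D → Wm h) (hb : bad a p) :
      OneD D k h r bad (Sum.elim (quXd a) (quYd p))

open Classical in
/-- The partial table. -/
noncomputable def tabD (D k h r : ℕ) (bad : (Fin D → Fin k) → (Fin D → Wm h) → Prop)
    (z : VTd D k h r → Bool) : Option Bool :=
  if ZerD D k h r z then some false else if OneD D k h r bad z then some true else none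

section types

variable {D k h r : ℕ} [NeZero D]

/-- The types given by an assignment of words. -/
def typD (w : Fin D × Fin k → Wm h) : XTd D k ⊕ YTd D h r → XTd D k
  | Sum.inl u => u
  | Sum.inr (Sum.inl (κ, i)) => (κ, fun a => (w (κ, a)).1 i)
  | Sum.inr (Sum.inr _) => (0, fun _ => false)

theorem elim_eq {A B : XTd D k → Bool} {A' B' : XTd D k ⊕ YTd D h r → Bool}
    (h : (Sum.elim A A' : VTd D k h r → Bool) = Sum.elim B B') : A = B ∧ A' = B' :=
  ⟨funext fun u => congrFun h (Sum.inl u), funext fun u => congrFun h (Sum.inr u)⟩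

theorem elim_surjD (z : VTd D k h r → Bool) :
    ∃ (S : XTd D k → Bool) (S' : XTd D k ⊕ YTd D h r → Bool), z = Sum.elim S S' :=
  ⟨fun u => z (Sum.inl u), fun e => z (Sum.inr e), by funext v; cases v <;> rfl⟩

theorem typD_zer (w : Fin D × Fin k → Wm h) {S : XTd D k → Bool}
    {S' : XTd D k ⊕ YTd D h r → Bool} (hz : ZerD D k h r (Sum.elim S S')) :
    ¬ ∃ e, S' e = true ∧ S (typD w e) = true := by
  generalize hzz : (Sum.elim S S' : VTd D k h r → Bool) = z at hz
  cases hz with
  | a =>
    obtain ⟨rfl, rfl⟩ := elim_eq hzz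
    simp
  | b =>
    obtain ⟨rfl, rfl⟩ := elim_eq hzz
    simp
  | c u v huv =>
    obtain ⟨rfl, rfl⟩ := elim_eq hzz
    rintro ⟨e, h1, h2⟩
    simp only [decide_eq_true_eq] at h1
    subst h1
    simp only [typD] at h2
    exact huv (of_decide_eq_true h2).symm
  | d κ i =>
    obtain ⟨rfl, rfl⟩ := elim_eq hzz
    rintro ⟨e, h1, h2⟩
    simp only [decide_eq_true_eq] at h1
    subst h1
    simp [cpXd, typD] at h2

theorem typD_query (w : Fin D × Fin k → Wm h) (a : Fin D → Fin k) (p : Fin D → Wm h) :
    (∃ e : XTd D k ⊕ YTd D h r, quYd p e = true ∧ quXd a (typD w e) = true) ↔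
      ¬ ∀ κ, w (κ, a κ) = p κ := by
  constructor
  · rintro ⟨e, h1, h2⟩ hall
    rcases e with u | (⟨κ, i⟩ | j)
    · simp [quYd] at h1
    · simp only [quYd, Sum.elim_inr, Sum.elim_inl, quXd, typD] at h1 h2
      rw [hall κ] at h2
      rw [h2] at h1
      simp at h1
    · simp [quYd] at h1
  · intro hne
    push Not at hne
    obtain ⟨κ, hκ⟩ := hne
    by_contra hcon
    apply hκ
    apply Wm.eq_of_le
    intro i hi
    by_contra hpi
    rw [Bool.not_eq_true] at hpi
    apply hcon
    refine ⟨Sum.inr (Sum.inl (κ, i)), ?_, ?_⟩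
    · simp [quYd, hpi]
    · simp only [quXd, typD]
      exact hi

theorem typD_one {bad : (Fin D → Fin k) → (Fin D → Wm h) → Prop}
    (w : Fin D × Fin k → Wm h) {S : XTd D k → Bool}
    {S' : XTd D k ⊕ YTd D h r → Bool} (ho : OneD D k h r bad (Sum.elim S S')) :
    (∃ e, S' e = true ∧ S (typD w e) = true) ∨
      ∃ a p, bad a p ∧ (∀ κ, w (κ, a κ) = p κ) ∧ S = quXd a ∧ S' = quYd p := by
  generalize hzz : (Sum.elim S S' : VTd D k h r → Bool) = z at ho
  cases ho with
  | a u =>
    obtain ⟨rfl, rfl⟩ := elim_eq hzz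
    exact Or.inl ⟨Sum.inl u, rfl, by simp [typD]⟩
  | b e =>
    obtain ⟨rfl, rfl⟩ := elim_eq hzz
    exact Or.inl ⟨e, by simp, rfl⟩
  | c u =>
    obtain ⟨rfl, rfl⟩ := elim_eq hzz
    exact Or.inl ⟨Sum.inl u, by simp, by simp [typD]⟩
  | d κ a σ Y hY =>
    obtain ⟨rfl, rfl⟩ := elim_eq hzz
    have h1 : ∃ i ∈ Y, (w (κ, a)).1 i = σ := by
      by_contra hcon
      push Not at hcon
      have h2 : Y ⊆ univ.filter (fun i => (w (κ, a)).1 i = !σ) := by
        intro i hi
        rw [Finset.mem_filter]
        refine ⟨mem_univ _, ?_⟩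
        have := hcon i hi
        revert this
        cases (w (κ, a)).1 i <;> cases σ <;> simp
      have h3 := Finset.card_le_card h2
      have h4 : (univ.filter (fun i => (w (κ, a)).1 i = !σ)).card = h := by
        have h5 := card_false (w (κ, a)).1
        have h6 := (w (κ, a)).2
        cases σ
        · exact h6
        · have h7 : (univ.filter (fun i => (w (κ, a)).1 i = !true)).card =
            (univ.filter (fun i => (w (κ, a)).1 i = false)).card := rfl
          rw [h7]
          omega
      omega
    obtain ⟨i, hi, hσ⟩ := h1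
    refine Or.inl ⟨Sum.inr (Sum.inl (κ, i)), ?_, ?_⟩
    · simp [prYd, hi]
    · simp [coXd, typD, hσ]
  | e a p hb =>
    obtain ⟨rfl, rfl⟩ := elim_eq hzz
    by_cases hw : ∀ κ, w (κ, a κ) = p κ
    · exact Or.inr ⟨a, p, hb, hw, rfl, rfl⟩
    · exact Or.inl ((typD_query w a p).mpr hw)

theorem not_zerD_of_oneD (hh : 0 < h) {bad : (Fin D → Fin k) → (Fin D → Wm h) → Prop}
    {z : VTd D k h r → Bool} (ho : OneD D k h r bad z) : ¬ ZerD D k h r z := by
  intro h0
  obtain ⟨S, S', rfl⟩ := elim_surjD z
  by_cases hq : ∃ (a : Fin D → Fin k) (p : Fin D → Wm h), S = quXd a ∧ S' = quYd p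
  · obtain ⟨a, p, rfl, rfl⟩ := hq
    refine typD_zer (fun v => (p 0).compl) h0 ((typD_query _ a p).mpr ?_)
    intro hall
    exact Wm.compl_ne hh (p 0) (hall 0)
  · rcases typD_one (fun _ => Classical.arbitrary _) ho with h1 | ⟨a, p, -, -, h2, h3⟩
    · exact typD_zer _ h0 h1
    · exact hq ⟨a, p, h2, h3⟩

theorem tabD_zer {bad : (Fin D → Fin k) → (Fin D → Wm h) → Prop}
    {z : VTd D k h r → Bool} (hz : ZerD D k h r z) : tabD D k h r bad z = some false := by
  simp [tabD, hz]

theorem tabD_one (hh : 0 < h) {bad : (Fin D → Fin k) → (Fin D → Wm h) → Prop}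
    {z : VTd D k h r → Bool} (ho : OneD D k h r bad z) : tabD D k h r bad z = some true := by
  simp [tabD, ho, not_zerD_of_oneD hh ho]

/-- **The table of a system of constraints is consistent with a circuit with fewer gates than the
gadget has variables iff the system has a solution.** -/
theorem coreD {n : ℕ} (hh : 0 < h) (bad : (Fin D → Fin k) → (Fin D → Wm h) → Prop)
    (e : VTd D k h r ↪ Fin n) :
    (∃ c : Circuit n, c.size + 1 ≤ Fintype.card (VTd D k h r) ∧
      ∀ (x : Fin n → Bool) (b : Bool),
        tabD D k h r bad (fun v => x (e v)) = some b → c.eval x = b) ↔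
    ∃ w : Fin D × Fin k → Wm h, ∀ (a : Fin D → Fin k), ¬ bad a (fun κ => w (κ, a κ)) := by
  classical
  constructor
  · rintro ⟨c, hsize, hc⟩
    have c0 : ∀ x : Fin n → Bool, ZerD D k h r (fun v => x (e v)) → c.eval x = false :=
      fun x hx => hc x false (tabD_zer hx)
    have c1 : ∀ x : Fin n → Bool, OneD D k h r bad (fun v => x (e v)) → c.eval x = true :=
      fun x hx => hc x true (tabD_one hh hx)
    obtain ⟨g, hg, hgf⟩ := typed_of_small e c hsize
      (fun x hx => c0 x (hx ▸ ZerD.a)) (fun x hx => c0 x (hx ▸ ZerD.b))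
      (fun u x hx => c1 x (hx ▸ OneD.a u)) (fun a x hx => c1 x (hx ▸ OneD.b a))
      (fun u v x hx => by
        by_cases huv : u = v
        · subst huv
          rw [decide_eq_true rfl]
          exact c1 x (hx ▸ OneD.c u)
        · rw [decide_eq_false huv]
          exact c0 x (hx ▸ ZerD.c u v huv))
    -- extension of an assignment to all inputs
    let ext : (VTd D k h r → Bool) → (Fin n → Bool) := fun z i =>
      if h : ∃ v, e v = i then z h.choose else false
    have hext : ∀ z, (fun v => ext z (e v)) = z := by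
      intro z
      funext v
      have h : ∃ v', e v' = e v := ⟨v, rfl⟩
      simp only [ext, h, dite_true]
      rw [e.injective h.choose_spec]
    have hval : ∀ S S', c.eval (ext (Sum.elim S S')) = true ↔
        ∃ a, S' a = true ∧ S (g a) = true := fun S S' => hgf S S' _ (hext _)
    -- the copy of the type of `y^κ_i`
    have hcp : ∀ κ i, (g (Sum.inr (Sum.inl (κ, i)))).1 = κ := by
      intro κ i
      by_contra hne
      have h5 : c.eval (ext (Sum.elim (cpXd κ)
          (fun e => decide (e = Sum.inr (Sum.inl (κ, i)))))) = false :=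
        c0 _ ((hext _).symm ▸ ZerD.d κ i)
      have h6 := (hval (cpXd κ) (fun e => decide (e = Sum.inr (Sum.inl (κ, i))))).mpr
        ⟨Sum.inr (Sum.inl (κ, i)), by simp, by simp [cpXd, hne]⟩
      rw [h5] at h6
      cases h6
    -- the words
    have hw : ∀ κ a, (univ.filter
        (fun i => (g (Sum.inr (Sum.inl (κ, i)))).2 a = true)).card = h := by
      intro κ a
      have key : ∀ σ : Bool, (univ.filter
          (fun i => (g (Sum.inr (Sum.inl (κ, i)))).2 a = !σ)).card ≤ h := by
        intro σ
        by_contra hlt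
        push Not at hlt
        set Y := univ.filter (fun i => (g (Sum.inr (Sum.inl (κ, i)))).2 a = !σ) with hY
        have h5 : c.eval (ext (Sum.elim (coXd κ a σ) (prYd κ Y))) = true :=
          c1 _ ((hext _).symm ▸ OneD.d κ a σ Y hlt)
        obtain ⟨y, h6, h7⟩ := (hval _ _).mp h5
        rcases y with u | (⟨κ', i⟩ | j)
        · simp [prYd] at h6
        · simp only [prYd, Sum.elim_inr, Sum.elim_inl, Bool.and_eq_true,
            decide_eq_true_eq] at h6
          obtain ⟨rfl, h6⟩ := h6
          rw [hY, Finset.mem_filter] at h6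
          simp only [coXd, Bool.and_eq_true, beq_iff_eq, decide_eq_true_eq] at h7
          have h8 := h6.2
          rw [h7.2] at h8
          revert h8
          cases σ <;> simp
        · simp [prYd] at h6
      have k1 := key true
      have k2 := key false
      have k3 := card_false (fun i => (g (Sum.inr (Sum.inl (κ, i)))).2 a)
      simp only [Bool.not_true, Bool.not_false] at k1 k2
      omega
    refine ⟨fun v => ⟨fun i => (g (Sum.inr (Sum.inl (v.1, i)))).2 v.2, hw v.1 v.2⟩, ?_⟩
    intro a hbad
    have h1 : c.eval (ext (Sum.elim (quXd a) (quYd (fun κ =>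
        (⟨fun i => (g (Sum.inr (Sum.inl (κ, i)))).2 (a κ), hw κ (a κ)⟩ : Wm h))))) = true :=
      c1 _ ((hext _).symm ▸ OneD.e a _ hbad)
    obtain ⟨y, h5, h6⟩ := (hval _ _).mp h1
    rcases y with u | (⟨κ, i⟩ | j)
    · simp [quYd] at h5
    · simp only [quYd, Sum.elim_inr, Sum.elim_inl] at h5
      simp only [quXd] at h6
      rw [hcp κ i] at h6
      rw [h6] at h5
      simp at h5
    · simp [quYd] at h5
  · rintro ⟨w, hw⟩
    have : Nonempty (XTd D k) := ⟨(0, fun _ => false)⟩
    obtain ⟨c, hc, hev⟩ := exists_typed_circuit_emb (fun v => e v) (typD (r := r) w)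
      (fun v => rfl)
    refine ⟨c, hc.le, ?_⟩
    intro x b hb
    obtain ⟨S, S', hS⟩ := elim_surjD (fun v => x (e v))
    rw [hS] at hb
    unfold tabD at hb
    split_ifs at hb with h1 h2
    · cases hb
      cases hv : c.eval x with
      | false => rfl
      | true => exact absurd ((hev S S' x hS).mp hv) (typD_zer w h1)
    · cases hb
      rcases typD_one w h2 with h3 | ⟨a, p, hb, hp, -⟩
      · exact (hev S S' x hS).mpr h3
      · exfalso
        apply hw a
        have h4 : (fun κ => w (κ, a κ)) = p := funext hp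
        rw [h4]
        exact hb

end types

theorem card_VTd (D k h r : ℕ) :
    Fintype.card (VTd D k h r) = 2 * (D * 2 ^ k) + D * (2 * h) + r := by
  simp only [Fintype.card_fin, Fintype.card_sum, Fintype.card_prod, Fintype.card_bool,
      Fintype.card_pi, Finset.prod_const, Finset.card_univ]
  ring

end Pool.Agent.H24
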