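import Pool.Agent.H24.Moment

/-!
A robust sunflower lemma that needs only `O(w)`-wise independence: the indicator sum is split
into its homogeneous parts, and the part of degree `j` is controlled by a moment of order
about `t / j`.
-/

namespace Pool.Agent.H24

open Finset

set_option linter.unusedSectionVars false

variable {X : Type*} [DecidableEq X] {Ω : Type*} [Fintype Ω]

open Classical in
/-- centred and normalised indicator of a literal -/
noncomputable def yy (P : Ω → Finset (X × Bool)) (p : ℝ) (a : X × Bool) (ω : Ω) : ℝ :=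
  (if a ∈ P ω then p⁻¹ else 0) + (-1)

theorem prod_yy {ι : Type*} [DecidableEq ι] (P : Ω → Finset (X × Bool)) (p : ℝ)
    (D : Finset ι) (lit : ι → X × Bool) (ω : Ω) :
    ∏ d ∈ D, yy P p (lit d) ω =
      ∑ E ∈ D.powerset, (-1) ^ (D \ E).card * ((p⁻¹) ^ E.card * ind P 1 (E.image lit) ω) := by
  classical
  unfold yy
  rw [Finset.prod_add]
  apply Finset.sum_congr rfl
  intro E _
  rw [Finset.prod_const, mul_comm]
  congr 1
  unfold ind
  by_cases h : E.image lit ⊆ P ω
  · rw [if_pos h, mul_one, Finset.prod_congr rfl (g := fun _ => p⁻¹), Finset.prod_const]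
    intro d hd
    rw [if_pos (h (Finset.mem_image_of_mem _ hd))]
  · rw [if_neg h, mul_zero]
    rw [Finset.not_subset] at h
    obtain ⟨a, ha, hna⟩ := h
    obtain ⟨d, hd, rfl⟩ := Finset.mem_image.1 ha
    exact Finset.prod_eq_zero hd (if_neg hna)

theorem ex_prod_yy {ι : Type*} [DecidableEq ι] (P : Ω → Finset (X × Bool)) (p : ℝ)
    (D : Finset ι) (lit : ι → X × Bool) :
    ex (fun ω => ∏ d ∈ D, yy P p (lit d) ω) =
      ∑ E ∈ D.powerset, (-1) ^ (D \ E).card *
        ((p⁻¹) ^ E.card * pr (fun ω => E.image lit ⊆ P ω)) := by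
  simp_rw [prod_yy]
  rw [ex_sum]
  apply Finset.sum_congr rfl
  intro E _
  rw [ex_const_mul, ex_const_mul, ex_ind_one]

theorem card_sub_le {ι : Type*} [DecidableEq ι] {D E : Finset ι} (hE : E ⊆ D)
    (lit : ι → X × Bool) :
    E.card + (vars (D.image lit)).card ≤ D.card + (vars (E.image lit)).card := by
  have h1 : vars (D.image lit) = vars (E.image lit) ∪ vars ((D \ E).image lit) := by
    rw [← vars_union, ← Finset.image_union, Finset.union_sdiff_of_subset hE]
  have h2 : (vars ((D \ E).image lit)).card ≤ D.card - E.card :=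
    (card_vars_le _).trans (Finset.card_image_le.trans (Finset.card_sdiff_of_subset hE).le)
  have h3 := Finset.card_union_le (vars (E.image lit)) (vars ((D \ E).image lit))
  have h4 := Finset.card_le_card hE
  rw [h1]
  omega

/-- Bound on a mixed moment. -/
theorem abs_ex_prod_yy_le {ι : Type*} [DecidableEq ι] (P : Ω → Finset (X × Bool)) {p : ℝ}
    (hp : 0 < p) (hp1 : p ≤ 1) {m : ℕ} (hind : KInd P p m)
    (D : Finset ι) (lit : ι → X × Bool) (hD : D.card ≤ m) :
    |ex (fun ω => ∏ d ∈ D, yy P p (lit d) ω)| ≤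
      2 ^ D.card * (p⁻¹) ^ (D.card - (vars (D.image lit)).card) := by
  classical
  rw [ex_prod_yy]
  refine (Finset.abs_sum_le_sum_abs _ _).trans ?_
  have hinv : (1:ℝ) ≤ p⁻¹ := (one_le_inv₀ hp).2 hp1
  have h1 : ∀ E ∈ D.powerset, |(-1 : ℝ) ^ (D \ E).card *
        ((p⁻¹) ^ E.card * pr (fun ω => E.image lit ⊆ P ω))| ≤
        (p⁻¹) ^ (D.card - (vars (D.image lit)).card) := by
    intro E hE
    rw [Finset.mem_powerset] at hE
    rw [abs_mul, abs_pow, abs_neg, abs_one, one_pow, one_mul,
      abs_of_nonneg (mul_nonneg (by positivity) (pr_nonneg _))]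
    have hcard : (E.image lit).card ≤ m :=
      Finset.card_image_le.trans ((Finset.card_le_card hE).trans hD)
    rw [hind _ hcard]
    split_ifs with hC
    · have h2 := card_sub_le hE lit
      rw [hC.card_vars] at h2
      have h3 : E.card ≤ (D.card - (vars (D.image lit)).card) + (E.image lit).card := by omega
      calc (p⁻¹) ^ E.card * p ^ (E.image lit).card
          ≤ (p⁻¹) ^ ((D.card - (vars (D.image lit)).card) + (E.image lit).card) *
              p ^ (E.image lit).card := by gcongr
        _ = (p⁻¹) ^ (D.card - (vars (D.image lit)).card) := by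
            rw [pow_add, mul_assoc, ← mul_pow, inv_mul_cancel₀ hp.ne', one_pow, mul_one]
    · rw [mul_zero]
      positivity
  refine (Finset.sum_le_sum h1).trans ?_
  rw [Finset.sum_const, Finset.card_powerset, nsmul_eq_mul]
  push_cast
  rfl

/-- A mixed moment vanishes if some point is covered exactly once. -/
theorem ex_prod_yy_eq_zero {ι : Type*} [DecidableEq ι] (P : Ω → Finset (X × Bool)) {p : ℝ}
    (hp : 0 < p) {m : ℕ} (hind : KInd P p m)
    (D : Finset ι) (lit : ι → X × Bool) (hD : D.card ≤ m) (d₀ : ι) (hd₀ : d₀ ∈ D)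
    (hiso : ∀ d ∈ D, d ≠ d₀ → (lit d).1 ≠ (lit d₀).1) :
    ex (fun ω => ∏ d ∈ D, yy P p (lit d) ω) = 0 := by
  classical
  rw [ex_prod_yy]
  set D' := D.erase d₀ with hD'
  have hDD' : D = insert d₀ D' := (Finset.insert_erase hd₀).symm
  have hd₀' : d₀ ∉ D' := Finset.notMem_erase _ _
  rw [hDD', Finset.sum_powerset_insert hd₀', ← Finset.sum_add_distrib]
  apply Finset.sum_eq_zero
  intro E hE
  rw [Finset.mem_powerset] at hE
  have hdE : d₀ ∉ E := fun h => hd₀' (hE h)
  have hED : E ⊆ D := hE.trans (Finset.erase_subset _ _)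
  have hcard : (E.image lit).card ≤ m :=
    Finset.card_image_le.trans ((Finset.card_le_card hED).trans hD)
  have hcard' : ((insert d₀ E).image lit).card ≤ m :=
    Finset.card_image_le.trans ((Finset.card_le_card (Finset.insert_subset hd₀ hED)).trans hD)
  rw [hind _ hcard, hind _ hcard']
  have hnv : (lit d₀).1 ∉ vars (E.image lit) := by
    intro h
    obtain ⟨b, hb⟩ := mem_vars.1 h
    obtain ⟨d, hd, hdb⟩ := Finset.mem_image.1 hb
    apply hiso d (hED hd)
    · rintro rfl
      exact hdE hd
    · rw [hdb]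
  have hnl : lit d₀ ∉ E.image lit := by
    intro h
    exact hnv (mem_vars.2 ⟨(lit d₀).2, h⟩)
  have hc1 : (insert d₀ D' \ E).card = (D' \ E).card + 1 := by
    rw [Finset.insert_sdiff_of_notMem _ hdE, Finset.card_insert_of_notMem]
    intro h
    exact hd₀' (Finset.mem_sdiff.1 h).1
  have hc2 : (insert d₀ D' \ insert d₀ E) = D' \ E := by
    ext d
    simp only [Finset.mem_sdiff, Finset.mem_insert, not_or]
    constructor
    · rintro ⟨h1 | h1, h2, h3⟩
      · exact absurd h1 h2
      · exact ⟨h1, h3⟩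
    · rintro ⟨h1, h2⟩
      refine ⟨Or.inr h1, ?_, h2⟩
      rintro rfl
      exact hd₀' h1
  rw [hc1, hc2, Finset.card_insert_of_notMem hdE, Finset.image_insert,
    Finset.card_insert_of_notMem hnl]
  have hcons : Cons (insert (lit d₀) (E.image lit)) ↔ Cons (E.image lit) := by
    constructor
    · intro h
      exact h.mono (Finset.subset_insert _ _)
    · intro h
      rw [Finset.insert_eq]
      apply cons_union_of_disjoint _ h
      · rw [Finset.disjoint_left]
        intro x hx hx'
        have : x = (lit d₀).1 := by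
          obtain ⟨b, hb⟩ := mem_vars.1 hx
          rw [Finset.mem_singleton] at hb
          rw [← hb]
        rw [this] at hx'
        exact hnv hx'
      · intro x hx
        simp only [Finset.mem_singleton] at hx
        have := hx.1.trans hx.2.symm
        simp at this
  by_cases hC : Cons (E.image lit)
  · rw [if_pos hC, if_pos (hcons.2 hC), pow_succ, pow_succ, pow_succ]
    have hp0 : p ≠ 0 := hp.ne'
    field_simp
    ring
  · rw [if_neg hC, if_neg (fun h => hC (hcons.1 h))]
    simp

/-- If every point is covered at least twice, the overlap is at least half of the total. -/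
theorem sum_le_two_mul_ov' {k : ℕ} (V : Fin k → Finset X)
    (h : ∀ i, ∀ x ∈ V i, ∃ j, j ≠ i ∧ x ∈ V j) :
    ∑ i, (V i).card ≤ 2 * ov' ∅ V := by
  classical
  set U := (univ : Finset (Fin k)).biUnion V with hU
  let m : X → ℕ := fun x => (univ.filter (fun i => x ∈ V i)).card
  have hm2 : ∀ x ∈ U, 2 ≤ m x := by
    intro x hx
    rw [hU, mem_biUnion] at hx
    obtain ⟨i, _, hxi⟩ := hx
    obtain ⟨j, hji, hxj⟩ := h i x hxi
    have : ({i, j} : Finset (Fin k)) ⊆ univ.filter (fun i => x ∈ V i) := by
      intro a ha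
      simp only [mem_insert, mem_singleton] at ha
      rcases ha with rfl | rfl
      · simp [hxi]
      · simp [hxj]
    calc 2 = ({i, j} : Finset (Fin k)).card := by rw [Finset.card_pair (Ne.symm hji)]
      _ ≤ _ := Finset.card_le_card this
  have hdouble : ∑ i, (V i).card = ∑ x ∈ U, m x := by
    have h1 : ∀ i ∈ (univ : Finset (Fin k)), (V i).card = ∑ x ∈ U, if x ∈ V i then 1 else 0 := by
      intro i hi
      rw [Finset.sum_boole]
      simp only [Nat.cast_id]
      congr 1
      ext x
      simp only [mem_filter, hU, mem_biUnion]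
      exact ⟨fun hx => ⟨⟨i, hi, hx⟩, hx⟩, fun hx => hx.2⟩
    rw [Finset.sum_congr rfl h1, Finset.sum_comm]
    apply Finset.sum_congr rfl
    intro x _
    rw [Finset.sum_boole]
    simp [m]
  have h3 : 2 * U.card ≤ ∑ x ∈ U, m x := by
    rw [mul_comm, ← smul_eq_mul, ← Finset.sum_const]
    exact Finset.sum_le_sum hm2
  unfold ov'
  simp only [Finset.card_empty, zero_add, Finset.empty_union, ← hU]
  omega

/-- abstract sum over tuples -/
theorem sum_tuple_le' {ι : Type*} (𝒬 : Finset ι) (V : ι → Finset X) {c K : ℝ} (hc : 0 ≤ c)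
    (hK : 0 ≤ K) {j B : ℕ} (hV : ∀ q ∈ 𝒬, (V q).card ≤ j)
    (hone : ∀ U : Finset X, U.card ≤ B → ∑ q ∈ 𝒬, c ^ (V q ∩ U).card ≤ K) :
    ∀ (k : ℕ) (U : Finset X), U.card + k * j ≤ B →
      ∑ τ : Fin k → 𝒬, c ^ (ov' U (fun i => V (τ i))) ≤ K ^ k := by
  classical
  intro k
  induction k with
  | zero =>
    intro U _
    simp [ov'_zero]
  | succ k ih =>
    intro U hU
    have h1 : ∑ τ : Fin (k+1) → 𝒬, c ^ (ov' U (fun i => V (τ i))) =
        ∑ q : 𝒬, c ^ (V q ∩ U).card *
          ∑ τ : Fin k → 𝒬, c ^ (ov' (U ∪ V q) (fun i => V (τ i))) := by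
      rw [← (Fin.consEquiv (fun _ : Fin (k+1) => (𝒬 : Type _))).sum_comp, Fintype.sum_prod_type]
      apply Finset.sum_congr rfl
      intro q _
      rw [Finset.mul_sum]
      apply Finset.sum_congr rfl
      intro τ _
      rw [ov'_cons, pow_add]
      simp [Fin.consEquiv]
    rw [h1]
    have h2 : ∀ q : 𝒬, c ^ (V q ∩ U).card *
          ∑ τ : Fin k → 𝒬, c ^ (ov' (U ∪ V q) (fun i => V (τ i))) ≤
          c ^ (V q ∩ U).card * K ^ k := by
      intro q
      gcongr
      apply ih
      have := Finset.card_union_le U (V q)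
      have h3 := hV q q.2
      rw [Nat.succ_mul] at hU
      omega
    refine (Finset.sum_le_sum fun q _ => h2 q).trans ?_
    rw [← Finset.sum_mul]
    have h4 : ∑ q : 𝒬, c ^ (V q ∩ U).card ≤ K := by
      rw [Finset.sum_coe_sort 𝒬 (fun q => c ^ (V q ∩ U).card)]
      exact hone U (by rw [Nat.succ_mul] at hU; omega)
    calc (∑ q : 𝒬, c ^ (V q ∩ U).card) * K ^ k
        ≤ K * K ^ k := by gcongr
      _ = K ^ (k+1) := by ring

end Pool.Agent.H24
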