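import Pool.Agent.H24.Hom

/-!
The robust sunflower lemma for `O(w)`-wise independent random sets of literals.
-/

namespace Pool.Agent.H24

open Finset

set_option linter.unusedSectionVars false

variable {X : Type*} [DecidableEq X] {Ω : Type*} [Fintype Ω]

theorem Cons.pow_inter {S : Finset (X × Bool)} (hS : Cons S) (U : Finset X) (c : ℝ) :
    c ^ (vars S ∩ U).card = ∏ a ∈ S, (if a.1 ∈ U then c else 1) := by
  classical
  rw [Finset.prod_ite, Finset.prod_const, Finset.prod_const_one, mul_one]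
  congr 1
  have h1 : vars S ∩ U = (S.filter (fun a => a.1 ∈ U)).image Prod.fst := by
    ext x
    simp only [vars, mem_inter, mem_image, mem_filter]
    constructor
    · rintro ⟨⟨a, ha, rfl⟩, hU⟩
      exact ⟨a, ⟨ha, hU⟩, rfl⟩
    · rintro ⟨a, ⟨ha, hU⟩, rfl⟩
      exact ⟨⟨a, ha, rfl⟩, hU⟩
  rw [h1]
  apply Finset.card_image_of_injOn
  intro a ha b hb hab
  rw [Finset.mem_coe, Finset.mem_filter] at ha hb
  exact hS.injOn ha.1 hb.1 hab

/-- sum over the `j`-subsets of one set -/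
theorem sum_powersetCard_le {T : Finset (X × Bool)} (hT : Cons T) {r : ℕ} (hr : 1 ≤ r)
    (hcard : T.card = r) (j : ℕ) (U : Finset X) {c : ℝ} (hc : 0 ≤ c) :
    ∑ S ∈ T.powersetCard j, c ^ (vars S ∩ U).card ≤
      3 * (r:ℝ) ^ j * (1 + c / r) ^ (vars T ∩ U).card := by
  classical
  have hr0 : (0:ℝ) < r := by exact_mod_cast hr
  have h1 : ∀ S ∈ T.powersetCard j, c ^ (vars S ∩ U).card =
      (r:ℝ) ^ j * ∏ a ∈ S, ((if a.1 ∈ U then c else 1) / r) := by
    intro S hS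
    rw [Finset.mem_powersetCard] at hS
    rw [(hT.mono hS.1).pow_inter, Finset.prod_div_distrib, Finset.prod_const, hS.2, mul_comm,
      div_mul_cancel₀ _ (pow_ne_zero _ hr0.ne')]
  rw [Finset.sum_congr rfl h1, ← Finset.mul_sum]
  have h2 : ∑ S ∈ T.powersetCard j, ∏ a ∈ S, ((if a.1 ∈ U then c else 1) / (r:ℝ)) ≤
      ∑ S ∈ T.powerset, ∏ a ∈ S, ((if a.1 ∈ U then c else 1) / (r:ℝ)) := by
    apply Finset.sum_le_sum_of_subset_of_nonneg
    · intro S hS
      exact Finset.mem_powerset.2 (Finset.mem_powersetCard.1 hS).1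
    · intro S _ _
      apply Finset.prod_nonneg
      intro a _
      split_ifs <;> positivity
  have h3 : ∑ S ∈ T.powerset, ∏ a ∈ S, ((if a.1 ∈ U then c else 1) / (r:ℝ)) =
      ∏ a ∈ T, (1 + (if a.1 ∈ U then c else 1) / (r:ℝ)) := by
    rw [Finset.prod_one_add]
  have h4 : ∏ a ∈ T, (1 + (if a.1 ∈ U then c else 1) / (r:ℝ)) ≤
      3 * (1 + c / r) ^ (vars T ∩ U).card := by
    have h5 : ∀ a ∈ T, (1 + (if a.1 ∈ U then c else 1) / (r:ℝ)) ≤
        (1 + 1 / (r:ℝ)) * (if a.1 ∈ U then (1 + c / r) else 1) := by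
      intro a _
      split_ifs
      · have h6 : (0:ℝ) ≤ c / r := by positivity
        have h7 : (0:ℝ) ≤ 1 / (r:ℝ) := by positivity
        have h8 := mul_nonneg h7 h6
        have h9 : (1 + 1 / (r:ℝ)) * (1 + c / r) = 1 + c / r + 1 / r + 1 / r * (c / r) := by ring
        rw [h9]
        linarith
      · simp
    calc ∏ a ∈ T, (1 + (if a.1 ∈ U then c else 1) / (r:ℝ))
        ≤ ∏ a ∈ T, ((1 + 1 / (r:ℝ)) * (if a.1 ∈ U then (1 + c / r) else 1)) := by
          apply Finset.prod_le_prod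
          · intro a _
            split_ifs <;> positivity
          · exact h5
      _ = (1 + 1 / (r:ℝ)) ^ r * (1 + c / r) ^ (vars T ∩ U).card := by
          rw [Finset.prod_mul_distrib, Finset.prod_const, hcard, hT.pow_inter U (1 + c / r)]
      _ ≤ 3 * (1 + c / r) ^ (vars T ∩ U).card := by
          have := one_add_inv_pow_le_three r
          gcongr
  calc (r:ℝ) ^ j * ∑ S ∈ T.powersetCard j, ∏ a ∈ S, ((if a.1 ∈ U then c else 1) / (r:ℝ))
      ≤ (r:ℝ) ^ j * (3 * (1 + c / r) ^ (vars T ∩ U).card) := by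
        gcongr
        rw [h3] at h2
        exact h2.trans h4
    _ = 3 * (r:ℝ) ^ j * (1 + c / r) ^ (vars T ∩ U).card := by ring

/-- one-step sum over pairs -/
theorem sum_pairs_le (𝒯 : Finset (Finset (X × Bool))) {κ c : ℝ} (hκ : 0 < κ) (hc : 0 ≤ c)
    (hspread : ∀ J : Finset (X × Bool),
      ((𝒯.filter (fun T => J ⊆ T)).card : ℝ) * κ ^ J.card ≤ 𝒯.card)
    {r B : ℕ} (hr : 1 ≤ r) (hcard : ∀ T ∈ 𝒯, T.card = r) (hcons : ∀ T ∈ 𝒯, Cons T)
    (hB : (1 + 2 * (1 + c / r) / κ) ^ B ≤ 3) (j : ℕ) (U : Finset X) (hU : U.card ≤ B) :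
    ∑ q ∈ 𝒯.sigma (fun T => T.powersetCard j), c ^ (vars q.2 ∩ U).card ≤
      9 * 𝒯.card * (r:ℝ) ^ j := by
  classical
  have hr0 : (0:ℝ) < r := by exact_mod_cast hr
  rw [Finset.sum_sigma]
  calc ∑ T ∈ 𝒯, ∑ S ∈ T.powersetCard j, c ^ (vars S ∩ U).card
      ≤ ∑ T ∈ 𝒯, 3 * (r:ℝ) ^ j * (1 + c / r) ^ (vars T ∩ U).card := by
        apply Finset.sum_le_sum
        intro T hT
        exact sum_powersetCard_le (hcons T hT) hr (hcard T hT) j U hc
    _ = 3 * (r:ℝ) ^ j * ∑ T ∈ 𝒯, (1 + c / r) ^ (vars T ∩ U).card := by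
        rw [Finset.mul_sum]
    _ ≤ 3 * (r:ℝ) ^ j * (𝒯.card * (1 + 2 * (1 + c / r) / κ) ^ U.card) := by
        gcongr
        exact sum_pow_inter_le 𝒯 hκ (by positivity) hspread U
    _ ≤ 3 * (r:ℝ) ^ j * (𝒯.card * 3) := by
        gcongr
        refine le_trans (pow_le_pow_right₀ ?_ hU) hB
        have : (0:ℝ) ≤ 2 * (1 + c / r) / κ := by positivity
        linarith
    _ = 9 * 𝒯.card * (r:ℝ) ^ j := by ring

/-- product of centred indicators over a set -/
noncomputable def zz (P : Ω → Finset (X × Bool)) (p : ℝ) (S : Finset (X × Bool)) (ω : Ω) : ℝ :=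
  ∏ a ∈ S, yy P p a ω

theorem sum_zz (P : Ω → Finset (X × Bool)) (p : ℝ) (T : Finset (X × Bool)) (ω : Ω)
    (h : ¬ T ⊆ P ω) : ∑ S ∈ T.powerset, zz P p S ω = 0 := by
  classical
  unfold zz
  rw [← Finset.prod_one_add (f := fun a => yy P p a ω) T]
  rw [Finset.not_subset] at h
  obtain ⟨a, ha, hna⟩ := h
  apply Finset.prod_eq_zero ha
  simp [yy, hna]

/-- homogeneous part of degree `j` -/
noncomputable def hp (P : Ω → Finset (X × Bool)) (p : ℝ) (𝒯 : Finset (Finset (X × Bool)))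
    (j : ℕ) (ω : Ω) : ℝ :=
  ∑ q ∈ 𝒯.sigma (fun T => T.powersetCard j), zz P p q.2 ω

theorem sum_hp (P : Ω → Finset (X × Bool)) (p : ℝ) (𝒯 : Finset (Finset (X × Bool))) {r : ℕ}
    (hcard : ∀ T ∈ 𝒯, T.card = r) (ω : Ω) (h : ∀ T ∈ 𝒯, ¬ T ⊆ P ω) :
    (𝒯.card : ℝ) + ∑ j ∈ Finset.range r, hp P p 𝒯 (j + 1) ω = 0 := by
  classical
  have h1 : ∑ T ∈ 𝒯, ∑ S ∈ T.powerset, zz P p S ω = 0 :=
    Finset.sum_eq_zero (fun T hT => sum_zz P p T ω (h T hT))
  have h2 : ∀ T ∈ 𝒯, ∑ S ∈ T.powerset, zz P p S ω =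
      ∑ j ∈ Finset.range (r + 1), ∑ S ∈ T.powersetCard j, zz P p S ω := by
    intro T hT
    rw [Finset.sum_powerset, hcard T hT]
  rw [Finset.sum_congr rfl h2, Finset.sum_comm, Finset.sum_range_succ'] at h1
  have h3 : ∑ T ∈ 𝒯, ∑ S ∈ T.powersetCard 0, zz P p S ω = (𝒯.card : ℝ) := by
    simp [zz]
  rw [h3] at h1
  rw [← h1, add_comm]
  congr 1
  apply Finset.sum_congr rfl
  intro j _
  unfold hp
  rw [Finset.sum_sigma]

/-- mixed moment of a tuple of subsets -/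
theorem ex_prod_zz_le (P : Ω → Finset (X × Bool)) {p : ℝ}
    (hp : 0 < p) (hp1 : p ≤ 1) {m : ℕ} (hind : KInd P p m) {k' j : ℕ}
    (hm : j * (2 * k') ≤ m) (S : Fin (2 * k') → Finset (X × Bool)) (hcard : ∀ i, (S i).card = j)
    (hcons : ∀ i, Cons (S i)) {γ : ℝ} (hγ : 1 ≤ γ) :
    ex (fun ω => ∏ i, zz P p (S i) ω) ≤
      (γ⁻¹) ^ (j * k') * (4 * γ / p) ^ (ov' ∅ (fun i => vars (S i))) := by
  classical
  have hγ0 : 0 < γ := by linarith
  let D : Finset (Σ _ : Fin (2 * k'), X × Bool) := univ.sigma S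
  let lit : (Σ _ : Fin (2 * k'), X × Bool) → X × Bool := fun d => d.2
  have hDcard : D.card = 2 * (j * k') := by
    simp only [D, Finset.card_sigma]
    rw [Finset.sum_congr rfl (fun i _ => hcard i)]
    simp
    ring
  have h1 : ∀ ω, ∏ i, zz P p (S i) ω = ∏ d ∈ D, yy P p (lit d) ω := by
    intro ω
    simp only [D, lit, zz]
    rw [Finset.prod_sigma]
  simp_rw [h1]
  have hDm : D.card ≤ m := by
    rw [hDcard]
    refine le_trans (le_of_eq ?_) hm
    ring
  have hvars : vars (D.image lit) = univ.biUnion (fun i => vars (S i)) := by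
    ext x
    rw [mem_vars]
    simp only [D, lit, Finset.mem_image, Finset.mem_sigma, mem_univ, true_and, mem_biUnion]
    constructor
    · rintro ⟨b, ⟨⟨i, a⟩, hd, hab⟩⟩
      simp only at hd hab
      exact ⟨i, mem_vars.2 ⟨b, hab ▸ hd⟩⟩
    · rintro ⟨i, hi⟩
      obtain ⟨b, hb⟩ := mem_vars.1 hi
      exact ⟨b, ⟨i, (x, b)⟩, hb, rfl⟩
  have hsum : ∑ i, (vars (S i)).card = 2 * (j * k') := by
    rw [Finset.sum_congr rfl (fun i _ => (hcons i).card_vars.trans (hcard i))]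
    simp
    ring
  have hov : D.card - (vars (D.image lit)).card = ov' ∅ (fun i => vars (S i)) := by
    unfold ov'
    rw [hDcard, hvars]
    simp only [Finset.card_empty, zero_add, Finset.empty_union]
    rw [hsum]
  by_cases hiso : ∃ i₀ : Fin (2 * k'), ∃ x ∈ vars (S i₀), ∀ i, i ≠ i₀ → x ∉ vars (S i)
  · obtain ⟨i₀, x, hx, hno⟩ := hiso
    obtain ⟨b, hb⟩ := mem_vars.1 hx
    have h0 := ex_prod_yy_eq_zero P hp hind D lit hDm ⟨i₀, (x, b)⟩
      (by simp only [D, Finset.mem_sigma, mem_univ, true_and]; exact hb) (by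
        rintro ⟨i, a⟩ hd hne heq
        simp only [lit] at heq
        simp only [D, Finset.mem_sigma, mem_univ, true_and] at hd
        by_cases hi : i = i₀
        · subst hi
          apply hne
          have := (hcons i).injOn (Finset.mem_coe.2 hd) (Finset.mem_coe.2 hb) heq
          rw [this]
        · apply hno i hi
          rw [← heq]
          exact mem_vars.2 ⟨a.2, hd⟩)
    rw [h0]
    positivity
  · push Not at hiso
    have h2 := sum_le_two_mul_ov' (fun i => vars (S i)) (by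
      intro i x hx
      obtain ⟨i', hi', hxi'⟩ := hiso i x hx
      exact ⟨i', hi', hxi'⟩)
    rw [hsum] at h2
    have h3 := abs_ex_prod_yy_le P hp hp1 hind D lit hDm
    rw [hov, hDcard] at h3
    set o := ov' ∅ (fun i => vars (S i)) with ho
    have ho' : j * k' ≤ o := by omega
    refine (le_abs_self _).trans (h3.trans ?_)
    have e1 : (2:ℝ) ^ (2 * (j * k')) ≤ 4 ^ o := by
      rw [pow_mul]
      norm_num
      exact pow_le_pow_right₀ (by norm_num) ho'
    have e2 : (γ⁻¹) ^ o ≤ (γ⁻¹) ^ (j * k') :=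
      pow_le_pow_of_le_one (by positivity) (inv_le_one_of_one_le₀ hγ) ho'
    calc (2:ℝ) ^ (2 * (j * k')) * (p⁻¹) ^ o ≤ 4 ^ o * (p⁻¹) ^ o := by gcongr
      _ = (γ⁻¹) ^ o * (4 * γ / p) ^ o := by
          rw [← mul_pow, ← mul_pow]
          congr 1
          field_simp
      _ ≤ (γ⁻¹) ^ (j * k') * (4 * γ / p) ^ o := by
          gcongr

end Pool.Agent.H24
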