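import Pool.Agent.H24.Hom2

/-!
The robust sunflower lemma for `O(w)`-wise independent random sets of literals: main statement.
-/

namespace Pool.Agent.H24

open Finset

set_option linter.unusedSectionVars false

variable {X : Type*} [DecidableEq X] {Ω : Type*} [Fintype Ω]

/-- moment bound for the homogeneous part of degree `j` -/
theorem ex_hp_pow_le (P : Ω → Finset (X × Bool)) {p : ℝ}
    (hp : 0 < p) (hp1 : p ≤ 1) {t : ℕ} (ht : 0 < t) (hind : KInd P p t)
    (𝒯 : Finset (Finset (X × Bool))) {r : ℕ} (hr : 1 ≤ r)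
    (hcard : ∀ T ∈ 𝒯, T.card = r) (hcons : ∀ T ∈ 𝒯, Cons T) {κ : ℝ}
    (hκ : 4 * t ≤ κ) {γ : ℝ} (hγ : 1 ≤ γ) (hγκ : 16 * t * γ = p * r * κ)
    (hspread : ∀ J : Finset (X × Bool),
      ((𝒯.filter (fun T => J ⊆ T)).card : ℝ) * κ ^ J.card ≤ 𝒯.card)
    {j k' : ℕ} (hm : j * (2 * k') ≤ t) :
    ex (fun ω => (Pool.Agent.H24.hp P p 𝒯 j ω) ^ (2 * k')) ≤
      (γ⁻¹) ^ (j * k') * (9 * 𝒯.card * (r:ℝ) ^ j) ^ (2 * k') := by
  classical
  have htr : (0:ℝ) < t := by exact_mod_cast ht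
  have hr0 : (0:ℝ) < r := by exact_mod_cast hr
  have hκ0 : 0 < κ := lt_of_lt_of_le (by positivity) hκ
  have hγ0 : 0 < γ := by linarith
  set 𝒬 := 𝒯.sigma (fun T => T.powersetCard j) with h𝒬
  have hQ : ∀ q ∈ 𝒬, q.2.card = j ∧ Cons q.2 := by
    intro q hq
    rw [h𝒬, Finset.mem_sigma, Finset.mem_powersetCard] at hq
    exact ⟨hq.2.2, (hcons _ hq.1).mono hq.2.1⟩
  have step1 : ex (fun ω => (Pool.Agent.H24.hp P p 𝒯 j ω) ^ (2 * k')) =
      ∑ τ : Fin (2 * k') → 𝒬, ex (fun ω => ∏ i, zz P p (τ i : Σ _ : Finset (X × Bool), Finset (X × Bool)).2 ω) := by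
    have : ∀ ω, (Pool.Agent.H24.hp P p 𝒯 j ω) ^ (2 * k') =
        ∑ τ : Fin (2 * k') → 𝒬, ∏ i, zz P p (τ i : Σ _ : Finset (X × Bool), Finset (X × Bool)).2 ω := by
      intro ω
      unfold Pool.Agent.H24.hp
      rw [← h𝒬, ← Finset.sum_coe_sort 𝒬 (fun q => zz P p q.2 ω), Fintype.sum_pow]
    simp_rw [this]
    exact ex_sum _ _
  have step2 : ∀ τ : Fin (2 * k') → 𝒬,
      ex (fun ω => ∏ i, zz P p (τ i : Σ _ : Finset (X × Bool), Finset (X × Bool)).2 ω) ≤
      (γ⁻¹) ^ (j * k') * (4 * γ / p) ^ (ov' ∅ (fun i => vars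
        (τ i : Σ _ : Finset (X × Bool), Finset (X × Bool)).2)) := by
    intro τ
    exact ex_prod_zz_le P hp hp1 hind hm
      (fun i => (τ i : Σ _ : Finset (X × Bool), Finset (X × Bool)).2)
      (fun i => (hQ _ (τ i).2).1) (fun i => (hQ _ (τ i).2).2) hγ
  have step3 : ∑ τ : Fin (2 * k') → 𝒬, (4 * γ / p) ^ (ov' ∅ (fun i => vars
        (τ i : Σ _ : Finset (X × Bool), Finset (X × Bool)).2)) ≤
      (9 * 𝒯.card * (r:ℝ) ^ j) ^ (2 * k') := by
    apply sum_tuple_le' 𝒬 (fun q => vars q.2) (by positivity) (by positivity)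
      (j := j) (B := t)
    · intro q hq
      exact (card_vars_le _).trans (hQ q hq).1.le
    · intro U hU
      refine sum_pairs_le 𝒯 hκ0 (by positivity) hspread (B := t) hr hcard hcons ?_ j U hU
      refine le_trans ?_ (one_add_inv_pow_le_three t)
      have e1 : 4 * γ / p / r = κ / (4 * t) := by
        rw [div_div, div_eq_div_iff (by positivity) (by positivity)]
        linarith
      rw [e1]
      have e2 : 2 * (1 + κ / (4 * t)) / κ ≤ 1 / (t:ℝ) := by
        rw [div_le_div_iff₀ hκ0 htr]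
        have : 2 * (1 + κ / (4 * t)) * t = 2 * t + κ / 2 := by
          field_simp
          ring
        rw [this]
        linarith
      have e3 : (0:ℝ) ≤ 2 * (1 + κ / (4 * t)) / κ := by positivity
      exact pow_le_pow_left₀ (by linarith) (by linarith) _
    · rw [Finset.card_empty, zero_add]
      refine le_trans (le_of_eq ?_) hm
      ring
  rw [step1]
  refine (Finset.sum_le_sum (fun τ _ => step2 τ)).trans ?_
  rw [← Finset.mul_sum]
  gcongr

/-- **Robust sunflower lemma for linear independence.** If `P` is `4e`-wise independent with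
marginals `p`, `w ≤ e`, and `𝒯` is a `κ`-spread family of consistent sets of `r ≤ w` literals,
with `κ ≥ 20736 e w β / p`, then with probability at least `1 - w β^{-e}` the random set `P`
contains a member of `𝒯`. -/
theorem robust_sunflower_hom (P : Ω → Finset (X × Bool)) {p : ℝ} (hp : 0 < p) (hp1 : p ≤ 1)
    {w e : ℕ} (hw0 : 0 < w) (hwe : w ≤ e) (hind : KInd P p (4 * e))
    (𝒯 : Finset (Finset (X × Bool))) (hne : 𝒯.Nonempty) {r : ℕ} (hr : 1 ≤ r) (hrw : r ≤ w)
    (hcard : ∀ T ∈ 𝒯, T.card = r) (hcons : ∀ T ∈ 𝒯, Cons T) {κ β : ℝ} (hβ : 1 ≤ β)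
    (hκ : 20736 * e * w * β / p ≤ κ)
    (hspread : ∀ J : Finset (X × Bool),
      ((𝒯.filter (fun T => J ⊆ T)).card : ℝ) * κ ^ J.card ≤ 𝒯.card) :
    pr (fun ω => ∀ T ∈ 𝒯, ¬ T ⊆ P ω) ≤ w * (1 / β) ^ e := by
  classical
  have he0 : 0 < e := by omega
  have her : (0:ℝ) < e := by exact_mod_cast he0
  have hwr : (0:ℝ) < w := by exact_mod_cast hw0
  have hw1 : (1:ℝ) ≤ w := by exact_mod_cast hw0
  have hr0 : (0:ℝ) < r := by exact_mod_cast hr
  have hr1 : (1:ℝ) ≤ r := by exact_mod_cast hr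
  have hrw' : (r:ℝ) ≤ w := by exact_mod_cast hrw
  have hTpos : (0:ℝ) < 𝒯.card := by exact_mod_cast hne.card_pos
  have hβ0 : 0 < β := by linarith
  have hκ' : 20736 * e * w * β ≤ p * κ := by
    rw [div_le_iff₀ hp] at hκ
    linarith
  have hκ0 : 0 < κ := by
    have : 0 < p * κ := lt_of_lt_of_le (by positivity) hκ'
    exact (pos_iff_pos_of_mul_pos this).1 hp
  set γ : ℝ := p * r * κ / (64 * e) with hγdef
  have hγβ : 324 * (r:ℝ) ^ 2 * β ≤ γ := by
    rw [hγdef, le_div_iff₀ (by positivity)]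
    calc 324 * (r:ℝ) ^ 2 * β * (64 * e) = r * (20736 * e * r * β) := by ring
      _ ≤ r * (20736 * e * w * β) := by gcongr
      _ ≤ r * (p * κ) := by gcongr
      _ = p * r * κ := by ring
  have hγ1 : 1 ≤ γ := by
    refine le_trans ?_ hγβ
    have h1 : (1:ℝ) ≤ (r:ℝ) ^ 2 := one_le_pow₀ hr1
    nlinarith
  have hγ0 : 0 < γ := by linarith
  -- the bad event is covered by the events that some homogeneous part is large
  have hcover : pr (fun ω => ∀ T ∈ 𝒯, ¬ T ⊆ P ω) ≤
      ∑ j ∈ Finset.range r, pr (fun ω => (𝒯.card : ℝ) * (1 / 2) ^ (j + 1) ≤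
        |Pool.Agent.H24.hp P p 𝒯 (j + 1) ω|) := by
    refine le_trans (pr_mono ?_) (pr_exists_le _ _)
    intro ω hω
    by_contra hno
    push Not at hno
    have h1 := sum_hp P p 𝒯 hcard ω hω
    have h2 : |∑ j ∈ Finset.range r, Pool.Agent.H24.hp P p 𝒯 (j + 1) ω| < 𝒯.card := by
      refine lt_of_le_of_lt (Finset.abs_sum_le_sum_abs _ _) ?_
      have h3 : ∑ j ∈ Finset.range r, |Pool.Agent.H24.hp P p 𝒯 (j + 1) ω| <
          ∑ j ∈ Finset.range r, (𝒯.card : ℝ) * (1 / 2) ^ (j + 1) := by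
        apply Finset.sum_lt_sum_of_nonempty
        · exact ⟨0, Finset.mem_range.2 (by omega)⟩
        · exact hno
      refine lt_of_lt_of_le h3 ?_
      rw [← Finset.mul_sum]
      have h4 : ∑ j ∈ Finset.range r, (1 / 2 : ℝ) ^ (j + 1) ≤ 1 := by
        simp_rw [pow_succ]
        rw [← Finset.sum_mul]
        have := sum_geometric_two_le r
        linarith
      calc (𝒯.card : ℝ) * ∑ j ∈ Finset.range r, (1 / 2 : ℝ) ^ (j + 1) ≤ 𝒯.card * 1 := by gcongr
        _ = 𝒯.card := mul_one _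
    have h5 : ∑ j ∈ Finset.range r, Pool.Agent.H24.hp P p 𝒯 (j + 1) ω = -(𝒯.card : ℝ) := by
      linarith
    rw [h5, abs_neg, abs_of_pos hTpos] at h2
    exact lt_irrefl _ h2
  refine hcover.trans ?_
  have hterm : ∀ j ∈ Finset.range r, pr (fun ω => (𝒯.card : ℝ) * (1 / 2) ^ (j + 1) ≤
        |Pool.Agent.H24.hp P p 𝒯 (j + 1) ω|) ≤ (1 / β) ^ e := by
    intro j hj
    rw [Finset.mem_range] at hj
    set i := j + 1 with hi
    have hi0 : 0 < i := by omega
    have hie : i ≤ e := by omega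
    set k' := (2 * e) / i with hk'
    have hk1 : i * k' ≤ 2 * e := Nat.mul_div_le _ _
    have hk2 : e ≤ i * k' := by
      have h1 : 2 * e < i * k' + i := by
        have := Nat.lt_mul_div_succ (2 * e) hi0
        rw [← hk', Nat.mul_add, Nat.mul_one] at this
        exact this
      have h2 : i * 2 ≤ i * k' := by
        apply Nat.mul_le_mul_left
        rw [hk', Nat.le_div_iff_mul_le hi0]
        omega
      omega
    have hm : i * (2 * k') ≤ 4 * e := by
      have : i * (2 * k') = 2 * (i * k') := by ring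
      omega
    have hmom := ex_hp_pow_le P hp hp1 (t := 4 * e) (by omega) hind 𝒯 hr hcard hcons (κ := κ)
      (by
        push_cast
        have : p * κ ≤ κ := by
          nlinarith
        have h1 : (16:ℝ) * e ≤ 20736 * e * w * β := by
          have h2 : (1:ℝ) ≤ w * β := one_le_mul_of_one_le_of_one_le hw1 hβ
          nlinarith
        linarith) hγ1
      (by
        rw [hγdef]
        push_cast
        field_simp
        ring) hspread (j := i) (k' := k') hm
    set a : ℝ := (𝒯.card : ℝ) * (1 / 2) ^ i with ha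
    have ha0 : 0 < a := by positivity
    have hmarkov : pr (fun ω => a ≤ |Pool.Agent.H24.hp P p 𝒯 i ω|) * a ^ (2 * k') ≤
        ex (fun ω => (Pool.Agent.H24.hp P p 𝒯 i ω) ^ (2 * k')) := by
      rw [mul_comm]
      unfold pr
      rw [← ex_const_mul]
      apply ex_mono
      intro ω
      by_cases h : a ≤ |Pool.Agent.H24.hp P p 𝒯 i ω|
      · rw [if_pos h, mul_one]
        calc a ^ (2 * k') ≤ |Pool.Agent.H24.hp P p 𝒯 i ω| ^ (2 * k') := by gcongr
          _ = (Pool.Agent.H24.hp P p 𝒯 i ω) ^ (2 * k') := by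
              rw [pow_mul, sq_abs, ← pow_mul]
      · rw [if_neg h, mul_zero]
        exact (even_two_mul k').pow_nonneg _
    have hfin : (γ⁻¹) ^ (i * k') * (9 * 𝒯.card * (r:ℝ) ^ i) ^ (2 * k') ≤
        (1 / β) ^ e * a ^ (2 * k') := by
      have e1 : (9 * (𝒯.card : ℝ) * (r:ℝ) ^ i) ^ (2 * k') =
          ((9:ℝ) ^ (2 * k') * (2:ℝ) ^ (i * (2 * k')) * (r:ℝ) ^ (i * (2 * k'))) * a ^ (2 * k') := by
        rw [ha, mul_pow, mul_pow, mul_pow, ← pow_mul, ← pow_mul, one_div, inv_pow]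
        field_simp
      have e2 : (9:ℝ) ^ (2 * k') ≤ 9 ^ (i * (2 * k')) :=
        pow_le_pow_right₀ (by norm_num) (Nat.le_mul_of_pos_left _ hi0)
      have e3 : (9:ℝ) ^ (i * (2 * k')) * (2:ℝ) ^ (i * (2 * k')) * (r:ℝ) ^ (i * (2 * k')) =
          (324 * (r:ℝ) ^ 2) ^ (i * k') := by
        rw [← mul_pow, ← mul_pow]
        have : i * (2 * k') = 2 * (i * k') := by ring
        rw [this, pow_mul]
        congr 1
        ring
      rw [e1, ← mul_assoc]
      gcongr
      calc (γ⁻¹) ^ (i * k') * ((9:ℝ) ^ (2 * k') * (2:ℝ) ^ (i * (2 * k')) * (r:ℝ) ^ (i * (2 * k')))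
          ≤ (γ⁻¹) ^ (i * k') *
              ((9:ℝ) ^ (i * (2 * k')) * (2:ℝ) ^ (i * (2 * k')) * (r:ℝ) ^ (i * (2 * k'))) := by
            gcongr
        _ = (γ⁻¹ * (324 * (r:ℝ) ^ 2)) ^ (i * k') := by rw [e3, ← mul_pow]
        _ ≤ (1 / β) ^ (i * k') := by
            gcongr
            rw [inv_mul_le_iff₀ hγ0, mul_one_div, le_div_iff₀ hβ0]
            exact hγβ
        _ ≤ (1 / β) ^ e :=
            pow_le_pow_of_le_one (by positivity) ((div_le_one hβ0).2 hβ) hk2
    exact le_of_mul_le_mul_right (hmarkov.trans (hmom.trans hfin)) (by positivity)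
  refine (Finset.sum_le_sum hterm).trans ?_
  rw [Finset.sum_const, Finset.card_range, nsmul_eq_mul]
  gcongr

end Pool.Agent.H24
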