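import Pool.Agent.H24.Steps
import Pool.Agent.H24.Robust

/-!
The concrete nested scales: every point carries a uniformly random level and a random label.
-/

namespace Pool.Agent.H24

open Finset

set_option linter.unusedSectionVars false

variable {X : Type} [Fintype X] [DecidableEq X]

section product

variable {Y : Type*} [Fintype Y] {A : Type*} [Fintype A]

/-- probability of a product event -/
theorem pr_prod_pi [Nonempty A] [Nonempty Y] (E : A → Prop) (S : X → Y → Prop) :
    pr (fun ω : A × (X → Y) => E ω.1 ∧ ∀ x, S x (ω.2 x)) = pr E * ∏ x, pr (S x) := by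
  classical
  have h0 : ∀ x, pr (S x) = ((univ.filter (S x)).card : ℝ) / Fintype.card Y :=
    fun x => pr_eq_card (S x)
  have hprod : ∏ x, pr (S x) = ∏ x, (((univ.filter (S x)).card : ℝ) / Fintype.card Y) :=
    Finset.prod_congr rfl (fun x _ => h0 x)
  rw [hprod, pr_eq_card, pr_eq_card E]
  have h1 : (univ.filter (fun ω : A × (X → Y) => E ω.1 ∧ ∀ x, S x (ω.2 x))) =
      (univ.filter E) ×ˢ (Fintype.piFinset (fun x => univ.filter (S x))) := by
    ext ⟨a, f⟩
    simp [Fintype.mem_piFinset]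
  rw [h1, Finset.card_product, Fintype.card_piFinset, Fintype.card_prod, Fintype.card_fun,
    Finset.prod_div_distrib]
  push_cast
  rw [Finset.prod_const, Finset.card_univ]
  rw [mul_div_mul_comm]

end product

section scales

variable {A : Type*} [Fintype A] (h : A → X → Bool) (M R : ℕ)

/-- the sample space -/
abbrev Smp (A X : Type*) (M R : ℕ) := A × (X → Fin (M ^ R) × Bool)

/-- literals whose point has level at least `i`, with their random labels -/
def Qs (i : ℕ) (ω : Smp A X M R) : Finset (X × Bool) :=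
  univ.filter (fun l => ((ω.2 l.1).1 : ℕ) < M ^ (R - i) ∧ (ω.2 l.1).2 = l.2)

/-- those of them that agree with the function `h ω.1` -/
def Ps (i : ℕ) (ω : Smp A X M R) : Finset (X × Bool) :=
  (Qs M R i ω).filter (fun l => h ω.1 l.1 = l.2)

theorem mem_Qs {i : ℕ} {ω : Smp A X M R} {l : X × Bool} :
    l ∈ Qs M R i ω ↔ ((ω.2 l.1).1 : ℕ) < M ^ (R - i) ∧ (ω.2 l.1).2 = l.2 := by
  simp [Qs]

theorem Ps_sub (i : ℕ) (ω : Smp A X M R) : Ps h M R i ω ⊆ Qs M R i ω := Finset.filter_subset _ _

theorem cons_Qs (i : ℕ) (ω : Smp A X M R) : Cons (Qs M R i ω) := by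
  intro x hx
  rw [mem_Qs, mem_Qs] at hx
  have := hx.1.2.symm.trans hx.2.2
  simp at this

theorem card_level_label (hM : 0 < M) (i : ℕ) (b : Bool) :
    (univ.filter (fun y : Fin (M ^ R) × Bool => (y.1 : ℕ) < M ^ (R - i) ∧ y.2 = b)).card =
      M ^ (R - i) := by
  have h1 : (univ.filter (fun y : Fin (M ^ R) × Bool => (y.1 : ℕ) < M ^ (R - i) ∧ y.2 = b)) =
      (univ.filter (fun u : Fin (M ^ R) => (u : ℕ) < M ^ (R - i))) ×ˢ {b} := by
    ext ⟨u, c⟩
    simp only [mem_filter, mem_univ, true_and, mem_product, mem_singleton]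
  rw [h1, Finset.card_product, Finset.card_singleton, mul_one, Fin.card_filter_val_lt]
  exact min_eq_right (Nat.pow_le_pow_right hM (Nat.sub_le _ _))

theorem card_pt (M R : ℕ) : Fintype.card (Fin (M ^ R) × Bool) = M ^ R * 2 := by
  simp

/-- Probability that a consistent set of literals has level at least `i` and the right labels,
jointly with an event on the first coordinate. -/
theorem pr_Qs [Nonempty A] (hM : 0 < M) {i : ℕ} (hi : i ≤ R) (E : A → Prop)
    {T : Finset (X × Bool)} (hT : Cons T) :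
    pr (fun ω : Smp A X M R => E ω.1 ∧ T ⊆ Qs M R i ω) =
      pr E * (1 / (2 * (M:ℝ) ^ i)) ^ T.card := by
  classical
  have hMr : (0:ℝ) < M := by exact_mod_cast hM
  have : Nonempty (Fin (M ^ R) × Bool) := ⟨(⟨0, by positivity⟩, true)⟩
  have h1 : pr (fun ω : Smp A X M R => E ω.1 ∧ T ⊆ Qs M R i ω) =
      pr (fun ω : Smp A X M R => E ω.1 ∧ ∀ x, (fun (x : X) (y : Fin (M ^ R) × Bool) =>
        ∀ b, (x, b) ∈ T → ((y.1 : ℕ) < M ^ (R - i) ∧ y.2 = b)) x (ω.2 x)) := by
    apply pr_congr
    intro ω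
    refine and_congr_right (fun _ => ?_)
    constructor
    · intro hsub x b hb
      exact (mem_Qs M R).1 (hsub hb)
    · rintro hall ⟨x, b⟩ hl
      exact (mem_Qs M R).2 (hall x b hl)
  refine h1.trans ((pr_prod_pi E (fun (x : X) (y : Fin (M ^ R) × Bool) =>
        ∀ b, (x, b) ∈ T → ((y.1 : ℕ) < M ^ (R - i) ∧ y.2 = b))).trans ?_)
  congr 1
  have h2 : ∀ x, pr (fun y : Fin (M ^ R) × Bool =>
      ∀ b, (x, b) ∈ T → ((y.1 : ℕ) < M ^ (R - i) ∧ y.2 = b)) =
        if x ∈ vars T then 1 / (2 * (M:ℝ) ^ i) else 1 := by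
    intro x
    by_cases hx : x ∈ vars T
    · obtain ⟨b, hb⟩ := mem_vars.1 hx
      have hfil : pr (fun y : Fin (M ^ R) × Bool =>
          ∀ b, (x, b) ∈ T → ((y.1 : ℕ) < M ^ (R - i) ∧ y.2 = b)) =
          pr (fun y : Fin (M ^ R) × Bool => (y.1 : ℕ) < M ^ (R - i) ∧ y.2 = b) := by
        apply pr_congr
        intro y
        constructor
        · intro hall
          exact hall b hb
        · intro hy c hc
          have : b = c := by
            have := hT x
            cases b <;> cases c <;> simp_all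
          rw [← this]
          exact hy
      rw [if_pos hx, hfil, pr_eq_card, card_level_label M R hM i b, card_pt]
      have hpow : (M:ℝ) ^ R = (M:ℝ) ^ (R - i) * (M:ℝ) ^ i := by
        rw [← pow_add, Nat.sub_add_cancel hi]
      push_cast
      rw [hpow]
      field_simp
    · have hfil : pr (fun y : Fin (M ^ R) × Bool =>
          ∀ b, (x, b) ∈ T → ((y.1 : ℕ) < M ^ (R - i) ∧ y.2 = b)) =
          pr (fun _ : Fin (M ^ R) × Bool => True) := by
        apply pr_congr
        intro y
        simp only [iff_true]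
        intro b hb
        exact absurd (mem_vars.2 ⟨b, hb⟩) hx
      rw [if_neg hx, hfil, pr_true]
  refine (Finset.prod_congr rfl (fun x _ => h2 x)).trans ?_
  rw [Finset.prod_ite_mem, Finset.univ_inter, Finset.prod_const, hT.card_vars]

theorem pr_true_first [Nonempty A] (hM : 0 < M) {i : ℕ} (hi : i ≤ R)
    {T : Finset (X × Bool)} (hT : Cons T) :
    pr (fun ω : Smp A X M R => T ⊆ Qs M R i ω) = (1 / (2 * (M:ℝ) ^ i)) ^ T.card := by
  have h1 := pr_Qs (A := A) M R hM hi (fun _ => True) hT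
  rw [pr_true, one_mul] at h1
  rw [← h1]
  apply pr_congr
  simp

/-- the basic admissibility predicate -/
def GW (X : Type) (w : ℕ) : Finset (X × Bool) → Prop := fun T => T.card ≤ w ∧ Cons T

theorem admPred_GW (w : ℕ) : AdmPred (GW X w) w :=
  ⟨fun _ _ h hT => ⟨(Finset.card_le_card h).trans hT.1, hT.2.mono h⟩, fun _ h => h.2,
    fun _ h => h.1, ⟨by simp, cons_empty⟩⟩

/-- `m`-wise independence of the agreeing literals. -/
theorem kInd_Ps [Nonempty A] {m : ℕ} (hM : 0 < M) {i : ℕ} (hi : i ≤ R)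
    (hfam : ∀ T : Finset (X × Bool), T.card ≤ m → Cons T →
      pr (fun a : A => ∀ l ∈ T, h a l.1 = l.2) = (1 / 2) ^ T.card) :
    KInd (Ps h M R i) (1 / (4 * (M:ℝ) ^ i)) m := by
  have hMr : (0:ℝ) < M := by exact_mod_cast hM
  intro T hT
  split_ifs with hC
  · have h1 := pr_Qs (A := A) M R hM hi (fun a => ∀ l ∈ T, h a l.1 = l.2) hC
    rw [hfam T hT hC] at h1
    have h2 : pr (fun ω : Smp A X M R => T ⊆ Ps h M R i ω) =
        pr (fun ω : Smp A X M R => (∀ l ∈ T, h ω.1 l.1 = l.2) ∧ T ⊆ Qs M R i ω) := by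
      apply pr_congr
      intro ω
      constructor
      · intro hsub
        exact ⟨fun l hl => (Finset.mem_filter.1 (hsub hl)).2, hsub.trans (Ps_sub h M R i ω)⟩
      · rintro ⟨h3, h4⟩ l hl
        exact Finset.mem_filter.2 ⟨h4 hl, h3 l hl⟩
    rw [h2, h1, ← mul_pow]
    congr 1
    field_simp
    norm_num
  · have : pr (fun ω : Smp A X M R => T ⊆ Ps h M R i ω) ≤ pr (fun _ : Smp A X M R => False) := by
      apply pr_mono
      intro ω hsub
      exact hC ((cons_Qs M R i ω).mono (hsub.trans (Ps_sub h M R i ω)))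
    rw [pr_false] at this
    exact le_antisymm this (pr_nonneg _)

theorem pr_lit_le {P : Smp A X M R → Finset (X × Bool)} {p : ℝ} {m : ℕ} (hm : 1 ≤ m)
    (hP : KInd P p m) (v : X × Bool) : pr (fun ω => v ∈ P ω) = p := by
  have hcons : Cons ({v} : Finset (X × Bool)) := by
    intro x hx
    simp only [Finset.mem_singleton] at hx
    have := hx.1.trans hx.2.symm
    simp at this
  have := hP {v} (by simpa using hm)
  rw [if_pos hcons] at this
  simpa using this

/-- The scales built from a `4e`-wise independent family. -/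
theorem sc_Ps [Nonempty A] {w e b : ℕ} (hw0 : 0 < w) (hwe : w ≤ e)
    (hM : 82944 * e * w * 2 ^ b ≤ M)
    (hfam : ∀ T : Finset (X × Bool), T.card ≤ 4 * e → Cons T →
      pr (fun a : A => ∀ l ∈ T, h a l.1 = l.2) = (1 / 2) ^ T.card)
    {ε : ℝ} (hε : (w:ℝ) * (1 / 2 ^ b) ^ e ≤ ε) (hε1 : ε ≤ 1 / 2) :
    Sc (Ω := Smp A X M R) (Ps h M R) (Qs M R) (GW X w) w ε
      (((w:ℝ) + 1) ^ 2 * 2 ^ w * (41472 * e * w * 2 ^ b / M) ^ (w + 1))
      (2 * (41472 * e * w * 2 ^ b / M)) R := by
  have he0 : 0 < e := by omega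
  have hM0 : 0 < M := by
    have : 0 < 82944 * e * w * 2 ^ b := by positivity
    omega
  have hMr : (0:ℝ) < M := by exact_mod_cast hM0
  have hM1 : (1:ℝ) ≤ M := by exact_mod_cast hM0
  have : Nonempty (Fin (M ^ R) × Bool) := ⟨(⟨0, by positivity⟩, true)⟩
  have her : (0:ℝ) < e := by exact_mod_cast he0
  have hwr : (0:ℝ) < w := by exact_mod_cast hw0
  set β : ℝ := 41472 * e * w * 2 ^ b / M with hβ
  have hβ0 : 0 ≤ β := by positivity
  have hβ2 : β ≤ 1 / 2 := by
    rw [hβ, div_le_div_iff₀ hMr (by norm_num)]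
    have : ((82944 * e * w * 2 ^ b : ℕ) : ℝ) ≤ M := by exact_mod_cast hM
    push_cast at this
    linarith
  have hβ1 : β ≤ 1 := by linarith
  have hε0 : 0 ≤ ε := le_trans (by positivity) hε
  have hκ0 : ∀ i : ℕ, (0:ℝ) < 82944 * e * w * 2 ^ b * (M:ℝ) ^ i := fun i => by positivity
  have hkind : ∀ i, i < R → KInd (Ps h M R i) (1 / (4 * (M:ℝ) ^ i)) (4 * e) :=
    fun i hi => kInd_Ps h M R hM0 hi.le hfam
  have hpi : ∀ i : ℕ, 1 / (4 * (M:ℝ) ^ i) ≤ 1 / 4 := by
    intro i
    have : (1:ℝ) ≤ (M:ℝ) ^ i := one_le_pow₀ hM1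
    rw [div_le_div_iff₀ (by positivity) (by norm_num)]
    linarith
  have hrsp : ∀ i, i < R → RSP (Ps h M R i) w ε (82944 * e * w * 2 ^ b * (M:ℝ) ^ i) := by
    intro i hi 𝒯 hne r hr hrw hcard hcons hspread
    refine le_trans (robust_sunflower_hom (Ps h M R i) (p := 1 / (4 * (M:ℝ) ^ i)) (by positivity)
      ((hpi i).trans (by norm_num)) hw0 hwe (hkind i hi) 𝒯 hne hr hrw hcard hcons
      (β := 2 ^ b) (one_le_pow₀ (by norm_num)) ?_ hspread) hε
    apply le_of_eq
    field_simp
    ring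
  have hQT : ∀ i, i < R → ∀ T : Finset (X × Bool),
      pr (fun ω : Smp A X M R => T ⊆ Qs M R (i + 1) ω) ≤
        β ^ T.card * ((82944 * e * w * 2 ^ b * (M:ℝ) ^ i)⁻¹) ^ T.card := by
    intro i hi T
    by_cases hC : Cons T
    · rw [pr_true_first M R hM0 (by omega) hC, ← mul_pow]
      apply le_of_eq
      congr 1
      rw [hβ, pow_succ]
      field_simp
      ring
    · have : pr (fun ω : Smp A X M R => T ⊆ Qs M R (i+1) ω) ≤
          pr (fun _ : Smp A X M R => False) := by
        apply pr_mono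
        intro ω hsub
        exact hC ((cons_Qs M R (i+1) ω).mono hsub)
      rw [pr_false] at this
      exact this.trans (by positivity)
  refine ⟨admPred_GW w, Ps_sub h M R, hε0, by linarith, by positivity, by positivity, ?_, ?_, ?_, ?_⟩
  · intro i hi v
    rw [pr_compl, pr_lit_le M R (by omega) (hkind i hi) v]
    have := hpi i
    linarith
  · intro v
    left
    refine ⟨by rw [Finset.card_singleton]; exact hw0, ?_⟩
    intro x hx
    simp only [Finset.mem_singleton] at hx
    have := hx.1.trans hx.2.symm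
    simp at this
  · intro i hi A' B' hA' hB'
    refine and_error' (admPred_GW w) (hκ0 i) (hrsp i hi) hε0 hA' hB' (by positivity) ?_
    intro S T hS hT hST
    by_cases hC : Cons (S ∪ T)
    · have hcard : w + 1 ≤ (S ∪ T).card := by
        by_contra hlt
        exact hST ⟨by omega, hC⟩
      refine (hQT i hi (S ∪ T)).trans ?_
      have := hκ0 i
      exact mul_le_mul_of_nonneg_right (pow_le_pow_of_le_one hβ0 hβ1 hcard) (by positivity)
    · have h1 : pr (fun ω : Smp A X M R => S ∪ T ⊆ Qs M R (i+1) ω) ≤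
          pr (fun _ : Smp A X M R => False) := by
        apply pr_mono
        intro ω hsub
        exact hC ((cons_Qs M R (i+1) ω).mono hsub)
      rw [pr_false] at h1
      refine h1.trans ?_
      have := hκ0 i
      positivity
  · intro i hi A' hA' hne
    refine (zeta_error' (admPred_GW w) (hκ0 i) (hrsp i hi) hA' hne
      (f := fun l => β ^ l) (fun l => by positivity) (fun T _ _ => hQT i hi T)).trans ?_
    calc ∑ l ∈ Finset.range w, β ^ (l + 1) = β * ∑ l ∈ Finset.range w, β ^ l := by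
          rw [Finset.mul_sum]
          apply Finset.sum_congr rfl
          intro l _
          rw [pow_succ]
          ring
      _ ≤ β * ∑ l ∈ Finset.range w, (1 / 2 : ℝ) ^ l := by gcongr
      _ ≤ β * 2 := by
          gcongr
          exact sum_geometric_two_le w
      _ = 2 * β := by ring

/-- Probability that the labelled points of level at least `i` all agree with `f`. -/
theorem pr_agree [Nonempty A] (hM : 0 < M) {i : ℕ} (hi : i ≤ R) (f : X → Bool) :
    pr (fun ω : Smp A X M R => ∀ l ∈ Qs M R i ω, f l.1 = l.2) =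
      (1 - 1 / (2 * (M:ℝ) ^ i)) ^ Fintype.card X := by
  classical
  have hMr : (0:ℝ) < M := by exact_mod_cast hM
  have : Nonempty (Fin (M ^ R) × Bool) := ⟨(⟨0, by positivity⟩, true)⟩
  have h1 : pr (fun ω : Smp A X M R => ∀ l ∈ Qs M R i ω, f l.1 = l.2) =
      pr (fun ω : Smp A X M R => True ∧ ∀ x, (fun (x : X) (y : Fin (M ^ R) × Bool) =>
        ¬ ((y.1 : ℕ) < M ^ (R - i) ∧ y.2 = !(f x))) x (ω.2 x)) := by
    apply pr_congr
    intro ω
    rw [true_and]
    constructor
    · rintro hall x ⟨h2, h3⟩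
      have := hall (x, !(f x)) ((mem_Qs M R).2 ⟨h2, h3⟩)
      simp at this
    · rintro hall ⟨x, b⟩ hl
      rw [mem_Qs] at hl
      by_contra hne
      apply hall x
      refine ⟨hl.1, ?_⟩
      rw [hl.2]
      cases b <;> simp_all
  refine h1.trans ((pr_prod_pi (A := A) (fun _ => True) (fun (x : X) (y : Fin (M ^ R) × Bool) =>
        ¬ ((y.1 : ℕ) < M ^ (R - i) ∧ y.2 = !(f x)))).trans ?_)
  rw [pr_true, one_mul]
  have h2 : ∀ x, pr (fun y : Fin (M ^ R) × Bool =>
      ¬ ((y.1 : ℕ) < M ^ (R - i) ∧ y.2 = !(f x))) = 1 - 1 / (2 * (M:ℝ) ^ i) := by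
    intro x
    rw [pr_compl, pr_eq_card, card_level_label M R hM i, card_pt]
    have hpow : (M:ℝ) ^ R = (M:ℝ) ^ (R - i) * (M:ℝ) ^ i := by
      rw [← pow_add, Nat.sub_add_cancel hi]
    push_cast
    rw [hpow]
    field_simp
  refine (Finset.prod_congr rfl (fun x _ => h2 x)).trans ?_
  rw [Finset.prod_const, Finset.card_univ]

end scales

end Pool.Agent.H24
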