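import Mathlib

set_option autoImplicit false

/-!
# Leave one out for joins of independent samples
-/

namespace Pool.Agent.H24.Loo

open Finset

open Classical in
/-- A family without redundant members (in the joins) has at most `b` members. -/
lemma card_irredundant {L : Type*} [Lattice L] [BoundedOrder L] {ι κ : Type*} [Fintype κ]
    (j : ι → L) (b : ℕ)
    (hb : ∀ S : Finset L, (∀ a ∈ S, ∃ m, a = j m) → ∃ T ⊆ S, T.card ≤ b ∧ T.sup id = S.sup id)
    (s : κ → ι) (I : Finset κ)
    (hI : ∀ i ∈ I, ∃ v, (∀ k ∈ I, k ≠ i → j (s k) ≤ v) ∧ ¬ j (s i) ≤ v) :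
    I.card ≤ b := by
  have hinj : Set.InjOn (fun i => j (s i)) I := by
    intro i hi k hk hik
    by_contra hne
    obtain ⟨v, hv1, hv2⟩ := hI i hi
    have h2 : j (s i) = j (s k) := hik
    exact hv2 (h2 ▸ hv1 k hk fun h => hne h.symm)
  obtain ⟨T, hT, hTb, hTs⟩ := hb (I.image fun i => j (s i)) (by
    intro a ha
    obtain ⟨i, _, rfl⟩ := Finset.mem_image.1 ha
    exact ⟨s i, rfl⟩)
  have h1 : I.image (fun i => j (s i)) ⊆ T := by
    intro a ha
    obtain ⟨i, hi, rfl⟩ := Finset.mem_image.1 ha
    by_contra haT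
    obtain ⟨v, hv1, hv2⟩ := hI i hi
    refine hv2 ?_
    have h2 : j (s i) ≤ T.sup id := by
      rw [hTs]
      exact Finset.le_sup (f := id) ha
    refine h2.trans (Finset.sup_le fun a' ha' => ?_)
    obtain ⟨k, hk, hka⟩ := Finset.mem_image.1 (hT ha')
    have hki : k ≠ i := by
      rintro rfl
      exact haT (hka ▸ ha')
    rw [id, ← hka]
    exact hv1 k hk hki
  calc I.card = (I.image fun i => j (s i)).card := (Finset.card_image_of_injOn hinj).symm
    _ ≤ T.card := Finset.card_le_card h1
    _ ≤ b := hTb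

open Classical in
/-- Leave one out: for `n` independent samples `S` and a further one `m` the probability that
`j m` is below `y` but not below the join of the members `j (S i)` below `y` is at most
`b / (n + 1)`. -/
theorem loo {L : Type*} [Lattice L] [BoundedOrder L] {ι : Type*} [Fintype ι]
    (j : ι → L) (b n : ℕ)
    (hb : ∀ S : Finset L, (∀ a ∈ S, ∃ m, a = j m) → ∃ T ⊆ S, T.card ≤ b ∧ T.sup id = S.sup id)
    (ν : ι → ℝ) (hν0 : ∀ m, 0 ≤ ν m) (hν1 : ∑ m, ν m = 1) (y : L) :
    ((n : ℝ) + 1) * ∑ S : Fin n → ι, (∏ i, ν (S i)) * ∑ m, ν m *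
      (if j m ≤ y ∧ ¬ j m ≤ (univ.filter (fun i => j (S i) ≤ y)).sup (fun i => j (S i))
        then 1 else 0) ≤ b := by
  -- the members which are below `y` but not below the join of the other ones
  let good : (Fin (n + 1) → ι) → Fin (n + 1) → Prop := fun S i =>
    j (S i) ≤ y ∧ ¬ j (S i) ≤ (univ.filter (fun k => k ≠ i ∧ j (S k) ≤ y)).sup (fun k => j (S k))
  set X : ℝ := ∑ S : Fin n → ι, (∏ i, ν (S i)) * ∑ m, ν m *
      (if j m ≤ y ∧ ¬ j m ≤ (univ.filter (fun i => j (S i) ≤ y)).sup (fun i => j (S i))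
        then 1 else 0) with hX
  have h1 : ∀ i : Fin (n + 1),
      ∑ S : Fin (n + 1) → ι, (∏ k, ν (S k)) * (if good S i then 1 else 0) = X := by
    intro i
    rw [← (Fin.insertNthEquiv (fun _ => ι) i).sum_comp, Fintype.sum_prod_type_right, hX]
    refine Finset.sum_congr rfl fun S _ => ?_
    rw [Finset.mul_sum]
    refine Finset.sum_congr rfl fun m _ => ?_
    have hprod : (∏ k, ν ((Fin.insertNthEquiv (fun _ => ι) i (m, S)) k)) =
        ν m * ∏ k, ν (S k) := by
      rw [Fin.prod_univ_succAbove _ i]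
      simp [Fin.insertNthEquiv]
    have hsup : (univ.filter (fun k => k ≠ i ∧
        j ((Fin.insertNthEquiv (fun _ => ι) i (m, S)) k) ≤ y)).sup
          (fun k => j ((Fin.insertNthEquiv (fun _ => ι) i (m, S)) k)) =
        (univ.filter (fun k => j (S k) ≤ y)).sup (fun k => j (S k)) := by
      apply le_antisymm
      · refine Finset.sup_le fun k hk => ?_
        obtain ⟨_, hki, hky⟩ := Finset.mem_filter.1 hk
        obtain ⟨k', rfl⟩ := Fin.exists_succAbove_eq hki
        simp only [Fin.insertNthEquiv, Equiv.coe_fn_mk, Fin.insertNth_apply_succAbove] at hky ⊢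
        exact Finset.le_sup (f := fun k => j (S k)) (Finset.mem_filter.2 ⟨mem_univ _, hky⟩)
      · refine Finset.sup_le fun k hk => ?_
        have hky := (Finset.mem_filter.1 hk).2
        have h2 : i.succAbove k ∈ univ.filter (fun k => k ≠ i ∧
            j ((Fin.insertNthEquiv (fun _ => ι) i (m, S)) k) ≤ y) := by
          refine Finset.mem_filter.2 ⟨mem_univ _, Fin.succAbove_ne i k, ?_⟩
          simpa [Fin.insertNthEquiv] using hky
        have h3 := Finset.le_sup
          (f := fun k => j ((Fin.insertNthEquiv (fun _ => ι) i (m, S)) k)) h2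
        simpa [Fin.insertNthEquiv] using h3
    have hm : (Fin.insertNthEquiv (fun _ => ι) i (m, S)) i = m := by
      simp [Fin.insertNthEquiv]
    have hgood : good (Fin.insertNthEquiv (fun _ => ι) i (m, S)) i ↔
        (j m ≤ y ∧ ¬ j m ≤ (univ.filter (fun i => j (S i) ≤ y)).sup (fun i => j (S i))) := by
      simp only [good]
      rw [hsup, hm]
    rw [hprod, if_congr hgood rfl rfl]
    ring
  have h2 : ((n : ℝ) + 1) * X = ∑ S : Fin (n + 1) → ι, (∏ k, ν (S k)) *
      ((univ.filter (fun i => good S i)).card : ℝ) := by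
    have h3 : ∑ i : Fin (n + 1), ∑ S : Fin (n + 1) → ι, (∏ k, ν (S k)) *
        (if good S i then (1 : ℝ) else 0) = ((n : ℝ) + 1) * X := by
      rw [Finset.sum_congr rfl (fun i _ => h1 i), Finset.sum_const, card_univ, Fintype.card_fin,
        nsmul_eq_mul]
      push_cast
      rfl
    rw [← h3, Finset.sum_comm]
    refine Finset.sum_congr rfl fun S _ => ?_
    rw [← Finset.mul_sum]
    congr 1
    rw [Finset.card_filter]
    push_cast
    rfl
  rw [h2]
  have h4 : ∀ S : Fin (n + 1) → ι, ((univ.filter (fun i => good S i)).card : ℝ) ≤ b := by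
    intro S
    have h5 : (univ.filter (fun i => good S i)).card ≤ b := by
      refine card_irredundant j b hb S _ ?_
      intro i hi
      refine ⟨_, fun k hk hki => ?_, (Finset.mem_filter.1 hi).2.2⟩
      exact Finset.le_sup (f := fun k => j (S k))
        (Finset.mem_filter.2 ⟨mem_univ _, hki, (Finset.mem_filter.1 hk).2.1⟩)
    exact_mod_cast h5
  calc ∑ S : Fin (n + 1) → ι, (∏ k, ν (S k)) * ((univ.filter (fun i => good S i)).card : ℝ)
      ≤ ∑ S : Fin (n + 1) → ι, (∏ k, ν (S k)) * (b : ℝ) :=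
        Finset.sum_le_sum fun S _ =>
          mul_le_mul_of_nonneg_left (h4 S) (Finset.prod_nonneg fun k _ => hν0 _)
    _ = b := by
        rw [← Finset.sum_mul, ← Fintype.sum_pow, hν1, one_pow, one_mul]

end Pool.Agent.H24.Loo
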