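import Pool.Agent.H24.SplitTab

/-!
The lower bound for Partial MCSP against circuits with up to a constant times `n` NOT gates.
-/

namespace Pool.Agent.H24

open Finset

set_option linter.unusedSectionVars false

/-- The numerical estimate. -/
theorem numeric_many {m n w r b t : ℕ} (hw : 1 ≤ w) (hmn : m ≤ n) (hrn : r + 3 ≤ n) (hbn : b ≤ n)
    (ht : t < 2 ^ (b * w)) {e0 e1 β : ℝ}
    (he0 : e0 ≤ 2 ^ (w * (m + 2)) * (1 / 2) ^ (3 * (w * (n + 2)))) (he00 : 0 ≤ e0)
    (hβ0 : 0 ≤ β) (hβ : β ≤ 1 / (64 * (2 ^ r + 2 ^ b)))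
    (he1 : e1 = ((w:ℝ) + 1) ^ 2 * 2 ^ w * β ^ (w + 1)) :
    ¬ ((2 ^ (r + 2) : ℕ) : ℝ) ≤ (2 ^ (r + 2) : ℕ) * (1 / 8) +
      2 * 2 ^ r * (1 + (2 ^ (r + 2) : ℕ) * (t * (e0 + e1) + 2 * β)) := by
  have h2r : (0:ℝ) < 2 ^ r := by positivity
  have h2b : (0:ℝ) < 2 ^ b := by positivity
  have htr : (t:ℝ) ≤ (2 ^ b) ^ w := by
    rw [← pow_mul]
    exact_mod_cast ht.le
  have hβr : 2 ^ r * β ≤ 1 / 64 := by
    calc 2 ^ r * β ≤ 2 ^ r * (1 / (64 * (2 ^ r + 2 ^ b))) := by gcongr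
      _ ≤ 2 ^ r * (1 / (64 * 2 ^ r)) := by
          gcongr
          linarith
      _ = 1 / 64 := by field_simp
  have hβb : 2 ^ b * β ≤ 1 / 64 := by
    calc 2 ^ b * β ≤ 2 ^ b * (1 / (64 * (2 ^ r + 2 ^ b))) := by gcongr
      _ ≤ 2 ^ b * (1 / (64 * 2 ^ b)) := by
          gcongr
          linarith
      _ = 1 / 64 := by field_simp
  -- AND part
  have hC : 2 ^ r * (t * e1) ≤ 1 / 64 := by
    have hw1 : ((w:ℝ) + 1) ≤ 2 ^ w := by
      have : w + 1 ≤ 2 ^ w := Nat.lt_two_pow_self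
      exact_mod_cast this
    rw [he1]
    calc 2 ^ r * (t * (((w:ℝ) + 1) ^ 2 * 2 ^ w * β ^ (w + 1)))
        ≤ 2 ^ r * ((2 ^ b) ^ w * ((2 ^ w) ^ 2 * 2 ^ w * β ^ (w + 1))) := by gcongr
      _ = (8 * (2 ^ b * β)) ^ w * (2 ^ r * β) := by
          rw [mul_pow, mul_pow, pow_succ β w]
          have : (8:ℝ) ^ w = 2 ^ w * 2 ^ w * 2 ^ w := by
            rw [← mul_pow, ← mul_pow]; norm_num
          rw [this]
          ring
      _ ≤ 1 * (1 / 64) := by
          apply mul_le_mul _ hβr (by positivity) (by norm_num)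
          apply pow_le_one₀ (by positivity)
          linarith
      _ = 1 / 64 := by norm_num
  -- OR part
  have hB : 2 ^ r * (t * e0) ≤ 1 / 64 := by
    have h1 : (t:ℝ) ≤ 2 ^ (n * w) := by
      refine htr.trans ?_
      rw [← pow_mul]
      exact pow_le_pow_right₀ (by norm_num) (Nat.mul_le_mul_right _ hbn)
    have h2 : e0 ≤ 2 ^ (w * (n + 2)) * (1 / 2) ^ (3 * (w * (n + 2))) := by
      refine he0.trans ?_
      gcongr
      norm_num
    have h3 : (2:ℝ) ^ r ≤ 2 ^ n * (1 / 8) := by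
      have h4 : (2:ℝ) ^ (r + 3) ≤ 2 ^ n := pow_le_pow_right₀ (by norm_num) hrn
      rw [pow_add] at h4
      linarith
    have h5 : (2:ℝ) ^ n ≤ 2 ^ (n * w) :=
      pow_le_pow_right₀ (by norm_num) (Nat.le_mul_of_pos_right _ hw)
    calc 2 ^ r * (t * e0) ≤ (2 ^ n * (1 / 8)) * (2 ^ (n * w) *
          (2 ^ (w * (n + 2)) * (1 / 2) ^ (3 * (w * (n + 2))))) := by gcongr
      _ ≤ (2 ^ (n * w) * (1 / 8)) * (2 ^ (n * w) *
          (2 ^ (w * (n + 2)) * (1 / 2) ^ (3 * (w * (n + 2))))) := by gcongr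
      _ = (1 / 8) * (1 / 2) ^ (4 * w) := by
          have h6 : ((1:ℝ) / 2) ^ (3 * (w * (n + 2))) =
              (1 / 2) ^ (w * (n + 2)) * ((1 / 2) ^ (n * w) * (1 / 2) ^ (n * w)) *
                (1 / 2) ^ (4 * w) := by
            rw [← pow_add, ← pow_add, ← pow_add]
            congr 1
            ring
          rw [h6]
          have h7 : (2:ℝ) ^ (w * (n + 2)) * (1 / 2) ^ (w * (n + 2)) = 1 := by
            rw [← mul_pow]; norm_num
          have h8 : (2:ℝ) ^ (n * w) * (1 / 2) ^ (n * w) = 1 := by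
            rw [← mul_pow]; norm_num
          calc (2:ℝ) ^ (n * w) * (1 / 8) * (2 ^ (n * w) * (2 ^ (w * (n + 2)) *
                ((1 / 2) ^ (w * (n + 2)) * ((1 / 2) ^ (n * w) * (1 / 2) ^ (n * w)) *
                (1 / 2) ^ (4 * w))))
              = (1 / 8) * (2 ^ (w * (n + 2)) * (1 / 2) ^ (w * (n + 2))) *
                (2 ^ (n * w) * (1 / 2) ^ (n * w)) * (2 ^ (n * w) * (1 / 2) ^ (n * w)) *
                (1 / 2) ^ (4 * w) := by ring
            _ = (1 / 8) * (1 / 2) ^ (4 * w) := by rw [h7, h8]; ring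
      _ ≤ (1 / 8) * (1 / 2) ^ 4 := by
          gcongr (1 / 8) * ?_
          exact pow_le_pow_of_le_one (by norm_num) (by norm_num) (by omega)
      _ ≤ 1 / 64 := by norm_num
  push_cast
  rw [pow_add]
  have h9 : 2 ^ r * (t * (e0 + e1) + 2 * β) ≤ 4 / 64 := by
    calc 2 ^ r * (t * (e0 + e1) + 2 * β) = 2 ^ r * (t * e0) + 2 ^ r * (t * e1) +
          2 * (2 ^ r * β) := by ring
      _ ≤ 1 / 64 + 1 / 64 + 2 * (1 / 64) := by linarith
      _ = 4 / 64 := by norm_num
  intro h10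
  have h11 : (2:ℝ) ^ r * 2 ^ 2 ≤ 2 ^ r * 2 ^ 2 * (1 / 8) +
      2 * 2 ^ r * (1 + 2 ^ 2 * (4 / 64)) := by
    refine h10.trans ?_
    have h12 : 2 ^ r * 2 ^ 2 * (t * (e0 + e1) + 2 * β) ≤ 2 ^ 2 * (4 / 64) := by
      calc 2 ^ r * 2 ^ 2 * (t * (e0 + e1) + 2 * β) =
          2 ^ 2 * (2 ^ r * (t * (e0 + e1) + 2 * β)) := by ring
        _ ≤ 2 ^ 2 * (4 / 64) := by gcongr
    gcongr
  nlinarith

/-- **Lower bound for Partial MCSP in negation-limited circuits.** -/
theorem many_negations_core {n w r b s S : ℕ} (hn : 1 ≤ n) (hw : 1 ≤ w) (hb : 1 ≤ b)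
    (hs : 2 ^ 32 * 2 ^ r * w * n ^ 3 ≤ s * b)
    (hN : 2 ^ 32 * 2 ^ r * w ^ 2 * n ^ 2 * 2 ^ b * (2 ^ r + 2 ^ b) * (S + 1) ≤ 2 ^ n)
    {t : ℕ} {L : List (((Fin n → Bool) × Bool → Bool) → Bool)}
    {F : ((Fin n → Bool) × Bool → Bool) → Bool}
    (hL : NegCircuit t r L) (hF : Source L F)
    (hacc : ∀ T : (Fin n → Bool) → Option Bool, PartialMCSP T s → F (enc T) = true)
    (hrej : ∀ T : (Fin n → Bool) → Option Bool, ¬ PartialMCSP T S → F (enc T) = false) :
    2 ^ (b * w) ≤ t := by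
  by_contra hcon
  push Not at hcon
  have h2r : 1 ≤ 2 ^ r := Nat.one_le_two_pow
  have h2b : 1 ≤ 2 ^ b := Nat.one_le_two_pow
  -- the number of variables of a part
  have hrn : r + 3 ≤ n := by
    have h1 : 2 ^ (r + 3) ≤ 2 ^ n := by
      refine le_trans ?_ hN
      calc 2 ^ (r + 3) = 8 * 2 ^ r * 1 ^ 2 * 1 ^ 2 * 1 * 1 * 1 := by rw [pow_add]; ring
        _ ≤ 2 ^ 32 * 2 ^ r * w ^ 2 * n ^ 2 * 2 ^ b * (2 ^ r + 2 ^ b) * (S + 1) := by
            gcongr
            · norm_num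
            · omega
            · omega
    exact (Nat.pow_le_pow_iff_right (by norm_num)).1 h1
  have hbn : b ≤ n := by
    have h1 : 2 ^ b ≤ 2 ^ n := by
      refine le_trans ?_ hN
      calc 2 ^ b = 1 * 1 * 1 ^ 2 * 1 ^ 2 * 2 ^ b * 1 * 1 := by ring
        _ ≤ 2 ^ 32 * 2 ^ r * w ^ 2 * n ^ 2 * 2 ^ b * (2 ^ r + 2 ^ b) * (S + 1) := by
            gcongr
            · norm_num
            · omega
            · omega
    exact (Nat.pow_le_pow_iff_right (by norm_num)).1 h1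
  obtain ⟨m, rfl⟩ : ∃ m, n = (r + 2) + m := ⟨n - (r + 2), by omega⟩
  have hm1 : 1 ≤ m := by omega
  set n := (r + 2) + m with hndef
  have hmn : m ≤ n := by omega
  -- parameters
  set k := 3 * (w * (n + 2)) with hk
  set e := (k + w) / b + 1 + w with he
  set M := 2 ^ 25 * w ^ 2 * n * 2 ^ b * (2 ^ r + 2 ^ b) with hM
  have hMpos : 0 < M := by rw [hM]; positivity
  have hwe : w ≤ e := by
    rw [he]
    exact Nat.le_add_left _ _
  have hbe : k + w ≤ b * e := by
    have h1 : k + w < b * ((k + w) / b) + b := by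
      have := Nat.lt_mul_div_succ (k + w) hb
      rw [Nat.mul_add, Nat.mul_one] at this
      exact this
    have h2 : b * e = b * ((k + w) / b) + b + b * w := by rw [he]; ring
    omega
  have heb : e * b ≤ 12 * (w * n) := by
    have h1 : (k + w) / b * b ≤ k + w := Nat.div_mul_le_self _ _
    have h2 : e * b = (k + w) / b * b + b + w * b := by rw [he]; ring
    have h3 : k + w = 3 * (w * n) + 7 * w := by rw [hk]; ring
    have h4 : w * b ≤ w * n := Nat.mul_le_mul_left _ hbn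
    have h5 : w * 3 ≤ w * n := Nat.mul_le_mul_left _ (by omega)
    have h6 : n ≤ w * n := Nat.le_mul_of_pos_left _ hw
    omega
  have he12 : e ≤ 12 * (w * n) := by
    have : e ≤ e * b := Nat.le_mul_of_pos_right _ hb
    omega
  -- the family
  obtain ⟨A, hAfin, hAne, h, hsz, hfam⟩ := exists_family (n := m) (by omega) (4 * e)
  have hεk : (w:ℝ) * (1 / 2 ^ b) ^ e ≤ (1 / 2) ^ k := by
    have h1 : ((1:ℝ) / 2 ^ b) ^ e = (1 / 2) ^ (b * e) := by
      rw [pow_mul]
      congr 1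
      rw [one_div_pow]
    rw [h1]
    have h2 : (w:ℝ) ≤ 2 ^ w := by exact_mod_cast (Nat.lt_two_pow_self (n := w)).le
    calc (w:ℝ) * (1 / 2) ^ (b * e) ≤ 2 ^ w * (1 / 2) ^ (k + w) :=
          mul_le_mul h2 (pow_le_pow_of_le_one (by norm_num) (by norm_num) hbe) (by positivity)
            (by positivity)
      _ = (1 / 2) ^ k := by
          rw [pow_add, mul_comm ((1 / 2 : ℝ) ^ k), ← mul_assoc, ← mul_pow]
          norm_num
  have hk2 : 1 ≤ k := by
    rw [hk]
    have : 0 < w * (n + 2) := by positivity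
    omega
  have hεhalf : ((1:ℝ) / 2) ^ k ≤ 1 / 2 := by
    calc ((1:ℝ) / 2) ^ k ≤ (1 / 2) ^ 1 := pow_le_pow_of_le_one (by norm_num) (by norm_num) hk2
      _ = 1 / 2 := pow_one _
  have hM1 : 82944 * e * w * 2 ^ b ≤ M := by
    calc 82944 * e * w * 2 ^ b ≤ 82944 * (12 * (w * n)) * w * 2 ^ b := by gcongr
      _ = 995328 * w ^ 2 * n * 2 ^ b * 1 := by ring
      _ ≤ 2 ^ 25 * w ^ 2 * n * 2 ^ b * (2 ^ r + 2 ^ b) := by
          gcongr
          · norm_num
          · omega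
  have hsc := sc_Ps (X := Fin m → Bool) h M 1 (w := w) (e := e) (b := b) hw hwe hM1 hfam
    hεk hεhalf
  -- the sizes
  have hsize : 2 ^ (r + 2) * ((7 * m ^ 2 * (4 * e) + 1) + (r + 2) + 2) + 1 ≤ s := by
    have h4 : (2 ^ (r + 2) * ((7 * m ^ 2 * (4 * e) + 1) + (r + 2) + 2) + 1) * b ≤ s * b := by
      refine le_trans ?_ hs
      have h5 : b ≤ w * n ^ 3 := by
        calc b ≤ n := hbn
          _ ≤ n ^ 3 := Nat.le_self_pow (by norm_num) n
          _ ≤ w * n ^ 3 := Nat.le_mul_of_pos_left _ hw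
      have h6 : (r + 5) * b ≤ 2 * (w * n ^ 3) := by
        calc (r + 5) * b ≤ (2 * n) * n := Nat.mul_le_mul (by omega) hbn
          _ = 2 * n ^ 2 := by ring
          _ ≤ 2 * n ^ 3 := by
              gcongr
              norm_num
          _ ≤ 2 * (w * n ^ 3) := by
              gcongr
              exact Nat.le_mul_of_pos_left _ hw
      have h7 : 28 * m ^ 2 * (e * b) ≤ 336 * (w * n ^ 3) := by
        calc 28 * m ^ 2 * (e * b) ≤ 28 * n ^ 2 * (12 * (w * n)) := by gcongr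
          _ = 336 * (w * n ^ 3) := by ring
      calc (2 ^ (r + 2) * ((7 * m ^ 2 * (4 * e) + 1) + (r + 2) + 2) + 1) * b
          = 2 ^ (r + 2) * (28 * m ^ 2 * (e * b) + (r + 5) * b) + b := by ring
        _ ≤ 2 ^ (r + 2) * (336 * (w * n ^ 3) + 2 * (w * n ^ 3)) + 2 ^ r * (w * n ^ 3) := by
            gcongr
            exact h5.trans (Nat.le_mul_of_pos_left _ (by positivity))
        _ = 1353 * 2 ^ r * w * n ^ 3 := by rw [pow_add]; ring
        _ ≤ 2 ^ 32 * 2 ^ r * w * n ^ 3 := by gcongr; norm_num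
    exact Nat.le_of_mul_le_mul_right h4 hb
  -- the chain
  have hS1 : S + 1 ≤ 2 ^ n := by
    refine le_trans ?_ hN
    have : 0 < 2 ^ 32 * 2 ^ r * w ^ 2 * n ^ 2 * 2 ^ b * (2 ^ r + 2 ^ b) := by positivity
    nlinarith
  set e' := (2 * n + 5) * (S + 1) + 3 with he'
  have hMe : 2 * M * e' ≤ 2 ^ m := by
    have h5 : e' ≤ 10 * (n * (S + 1)) := by
      rw [he']
      have h6 : 1 ≤ n * (S + 1) := Nat.mul_pos hn (Nat.succ_pos S)
      have h7 : (S + 1) ≤ n * (S + 1) := Nat.le_mul_of_pos_left _ hn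
      nlinarith
    have h8 : 2 ^ (r + 2) * (2 * M * e') ≤ 2 ^ (r + 2) * 2 ^ m := by
      rw [← pow_add, ← hndef]
      refine le_trans ?_ hN
      calc 2 ^ (r + 2) * (2 * M * e') ≤ 2 ^ (r + 2) * (2 * M * (10 * (n * (S + 1)))) := by gcongr
        _ = (80 * 2 ^ 25) * 2 ^ r * w ^ 2 * n ^ 2 * 2 ^ b * (2 ^ r + 2 ^ b) * (S + 1) := by
            rw [hM, pow_add]
            ring
        _ ≤ 2 ^ 32 * 2 ^ r * w ^ 2 * n ^ 2 * 2 ^ b * (2 ^ r + 2 ^ b) * (S + 1) := by
            gcongr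
            norm_num
    exact Nat.le_of_mul_le_mul_left h8 (by positivity)
  have hmain := split_lower (R := 2 ^ (r + 2)) h M hMpos hsc
    (circuit_subst thS thS_source (circuit_dual hL))
    (source_subst thS thS_source (source_dual hF))
    (by
      intro ω i
      rw [dual_ZZ, hacc _ (mcsp_TZ h M (by omega) hsz hsize ω i)]
      rfl)
    (δ := 1 / 8)
    (by
      intro i
      refine le_trans (pr_mono ?_) (pr_TY_le h M hMpos hS1 (le_refl _) hMe i)
      intro ω hω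
      rw [dual_YY] at hω
      by_contra hno
      rw [hrej _ hno] at hω
      simp at hω)
  refine numeric_many (m := m) (n := n) (r := r) (b := b) hw hmn hrn hbn hcon ?_ ?_ ?_ ?_ rfl hmain
  · unfold etaOr
    have h1 : ((AdmSets (GW (Fin m → Bool) w)).card : ℝ) ≤ 2 ^ (w * (m + 2)) := by
      have h2 := card_AdmSets_le (admPred_GW (X := Fin m → Bool) w)
      rw [Fintype.card_fun, Fintype.card_bool, Fintype.card_fin] at h2
      have h3 : (2 * 2 ^ m + 1) ^ w ≤ 2 ^ (w * (m + 2)) := by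
        rw [mul_comm w, pow_mul]
        apply Nat.pow_le_pow_left
        have : 1 ≤ 2 ^ m := Nat.one_le_two_pow
        rw [pow_add]
        omega
      exact_mod_cast h2.trans h3
    gcongr
  · exact etaOr_nonneg _ (by positivity)
  · positivity
  · have hMr : (0:ℝ) < M := by exact_mod_cast hMpos
    rw [div_le_div_iff₀ hMr (by positivity), one_mul]
    have h1 : 41472 * e * w * 2 ^ b * (64 * (2 ^ r + 2 ^ b)) ≤ M := by
      calc 41472 * e * w * 2 ^ b * (64 * (2 ^ r + 2 ^ b))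
          ≤ 41472 * (12 * (w * n)) * w * 2 ^ b * (64 * (2 ^ r + 2 ^ b)) := by gcongr
        _ = 31850496 * w ^ 2 * n * 2 ^ b * (2 ^ r + 2 ^ b) := by ring
        _ ≤ 2 ^ 25 * w ^ 2 * n * 2 ^ b * (2 ^ r + 2 ^ b) := by gcongr; norm_num
    exact_mod_cast h1

/-- **Lower bound for Partial MCSP in negation-limited circuits.** There is a constant `C` such
that the following holds for all `1 ≤ m ≤ n`, `w, b ≥ 1` and all `r, s, S` with
`C 2^r w m³ ≤ s b` and `C 2^r w² m² 2^b (2^r + 2^b) (S + 1) ≤ 2^m`: a circuit with `r` NOT gates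
that reads a partial truth table of arity `n` through the `2^(n+1)` bits `value b is allowed at
x`, accepts every table with a consistent circuit of size at most `s` and rejects every table
without a consistent circuit of size at most `S`, has at least `2^(b w)` AND/OR gates. -/
theorem many_negations :
    ∃ C : ℕ, ∀ n m w r b s S : ℕ, 1 ≤ m → m ≤ n → 1 ≤ w → 1 ≤ b →
      C * 2 ^ r * w * m ^ 3 ≤ s * b →
      C * 2 ^ r * w ^ 2 * m ^ 2 * 2 ^ b * (2 ^ r + 2 ^ b) * (S + 1) ≤ 2 ^ m →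
      ∀ (t : ℕ) (L : List (((Fin n → Bool) × Bool → Bool) → Bool))
        (F : ((Fin n → Bool) × Bool → Bool) → Bool),
        NegCircuit t r L → Source L F →
        (∀ T : (Fin n → Bool) → Option Bool, PartialMCSP T s → F (enc T) = true) →
        (∀ T : (Fin n → Bool) → Option Bool, ¬ PartialMCSP T S → F (enc T) = false) →
        2 ^ (b * w) ≤ t := by
  refine ⟨2 ^ 32, ?_⟩
  intro n m w r b s S hm hmn hw hb hs hN t L F hL hF hacc hrej
  let σ : Fin n → Fin m := fun i => if h : (i : ℕ) < m then ⟨i, h⟩ else ⟨0, hm⟩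
  let j : Fin m → Fin n := Fin.castLE hmn
  have hσ : ∀ i, σ (j i) = i := by
    intro i
    simp [σ, j]
  refine many_negations_core hm hw hb hs hN
    (circuit_subst (padA σ j) (padA_source σ j) hL) (source_subst (padA σ j) (padA_source σ j) hF)
    ?_ ?_
  · intro T hT
    have := hacc (padT σ j T) ((padT_iff σ j hσ T s).2 hT)
    rwa [enc_padT] at this
  · intro T hT
    have := hrej (padT σ j T) (fun h => hT ((padT_iff σ j hσ T S).1 h))
    rwa [enc_padT] at this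

end Pool.Agent.H24
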