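import Pool.Agent.H24.Split
import Pool.Agent.H24.Chain2

/-!
The chain of constraint sets on disjoint parts of the domain, with the multiplicative comparison
of the sparse random constraints and the constraints of the planted function.
-/

namespace Pool.Agent.H24

open Finset

set_option linter.unusedSectionVars false

/-- Conditioning on all coordinates but one. -/
theorem pr_coord_le2 {Y : Type*} [Fintype Y] {R : ℕ} (i : Fin R)
    (E E' : Y × ({j : Fin R // j ≠ i} → Y) → Prop) {c : ℝ} (hc : 0 ≤ c)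
    (h : ∀ ρ, pr (fun y : Y => E (y, ρ)) ≤ pr (fun y : Y => E' (y, ρ)) + c) :
    pr (fun ω : Fin R → Y => E (ω i, fun j => ω j)) ≤
      pr (fun ω : Fin R → Y => E' (ω i, fun j => ω j)) + c := by
  classical
  have h1 := pr_equiv (Equiv.funSplitAt i Y) E
  have h2 := pr_equiv (Equiv.funSplitAt i Y) E'
  have h3 : pr E ≤ pr E' + c := pr_fiber_le2 hc h
  rw [← h1, ← h2] at h3
  exact h3

/-- The count of changes, with the sharper number of monotone functions. -/
theorem chain_count2 {V : Type} {Ω : Type*} [Fintype Ω] {R : ℕ} (P Q : ℕ → Ω → V → Bool)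
    (hPQ : ∀ i ω v, P i ω v = true → Q i ω v = true)
    (hPP : ∀ i ω v, P i ω v = true → P (i + 1) ω v = true) {t r : ℕ} {c : ℝ} (hc : 0 ≤ c)
    (hlev : ∀ i, i < R → ∀ (L : List ((V → Bool) → Bool)) (g : (V → Bool) → Bool),
      NegCircuit t 0 L → Source L g →
      pr (fun ω => g (P i ω) = false ∧ g (Q i ω) = true) ≤
        pr (fun ω => g (P i ω) = false ∧ g (P (i + 1) ω) = true) + c)
    {L : List ((V → Bool) → Bool)} (hL : NegCircuit t r L) {F : (V → Bool) → Bool}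
    (hF : Source L F) :
    ∑ i ∈ Finset.range R, pr (fun ω => F (P i ω) ≠ F (Q i ω)) ≤ 2 * 2 ^ r * (1 + R * c) := by
  classical
  obtain ⟨𝒢, h𝒢, hdiff⟩ := neg_family2 hL hF
  have h1 : ∀ i ∈ Finset.range R, pr (fun ω => F (P i ω) ≠ F (Q i ω)) ≤
      ∑ p ∈ Idx r, pr (fun ω => 𝒢 p (P i ω) = false ∧ 𝒢 p (Q i ω) = true) := by
    intro i _
    have h2 := pr_exists_le (Idx r)
      (fun p (ω : Ω) => 𝒢 p (P i ω) = false ∧ 𝒢 p (Q i ω) = true)
    refine le_trans (pr_mono ?_) h2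
    intro ω hω
    obtain ⟨p, hp, hpd⟩ := hdiff _ _ hω
    refine ⟨p, hp, ?_⟩
    obtain ⟨L', hL', hg'⟩ := h𝒢 p
    have hmono : 𝒢 p (P i ω) = true → 𝒢 p (Q i ω) = true :=
      fun h => mono_of_source hL' hg' (fun v hv => hPQ i ω v hv) h
    cases h3 : 𝒢 p (P i ω)
    · refine ⟨rfl, ?_⟩
      cases h4 : 𝒢 p (Q i ω)
      · rw [h3, h4] at hpd
        exact absurd rfl hpd
      · rfl
    · rw [h3, hmono h3] at hpd
      exact absurd rfl hpd
  refine (Finset.sum_le_sum h1).trans ?_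
  rw [Finset.sum_comm]
  have h2 : ∀ p ∈ Idx r, ∑ i ∈ Finset.range R,
        pr (fun ω => 𝒢 p (P i ω) = false ∧ 𝒢 p (Q i ω) = true) ≤ 1 + R * c := by
    intro p _
    obtain ⟨L', hL', hg'⟩ := h𝒢 p
    have h3 : ∀ i ∈ Finset.range R,
        pr (fun ω => 𝒢 p (P i ω) = false ∧ 𝒢 p (Q i ω) = true) ≤
          pr (fun ω => 𝒢 p (P i ω) = false ∧ 𝒢 p (P (i + 1) ω) = true) + c :=
      fun i hi => hlev i (Finset.mem_range.1 hi) L' _ hL' hg'
    refine (Finset.sum_le_sum h3).trans ?_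
    rw [Finset.sum_add_distrib, Finset.sum_const, Finset.card_range, nsmul_eq_mul]
    have h4 := (tele_le P hPP hL' hg' R).trans (pr_le_one _)
    linarith
  refine (Finset.sum_le_sum h2).trans ?_
  rw [Finset.sum_const, nsmul_eq_mul]
  apply mul_le_mul_of_nonneg_right _ (by positivity)
  exact_mod_cast card_Idx_le r

section split

variable {A : Type} [Fintype A] {X : Type} [Fintype X] [DecidableEq X] (h : A → X → Bool)
  (M : ℕ) {R : ℕ}

/-- **One part.** -/
theorem pr_part_le2 [Nonempty A] (hM : 0 < M) {G : Finset (X × Bool) → Prop} {w : ℕ} {ε η : ℝ}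
    (hS : Sc (Ω := Smp A X M 1) (Ps h M 1) (Qs M 1) G w ε η (1 / 2) 1)
    (hfin : ∀ 𝒜 : Finset (Finset (X × Bool)), CF (Ω := Smp A X M 1) (Ps h M 1 0) G ε 𝒜 →
      pr (fun ω : Smp A X M 1 => ∃ T ∈ 𝒜, T ⊆ Qs M 1 1 ω) ≤
        pr (fun ω : Smp A X M 1 => ∃ T ∈ 𝒜, T ⊆ Ps h M 1 0 ω)) {t : ℕ}
    {L : List (((Fin R × X) × Bool → Bool) → Bool)}
    (hL : NegCircuit t 0 L) {g : ((Fin R × X) × Bool → Bool) → Bool} (hg : Source L g)
    (i : Fin R) :
    pr (fun ω : OmS A X M R => g (ZZ h M ω i) = false ∧ g (YY h M ω i) = true) ≤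
      pr (fun ω : OmS A X M R => g (ZZ h M ω i) = false ∧ g (ZZ h M ω (i + 1)) = true) +
        2 * (t * (etaOr G ε + η)) := by
  classical
  have he0 := etaOr_nonneg G hS.ε0
  have hη0 := hS.η0
  have : Nonempty (Fin (M ^ 1) × Bool) := ⟨(⟨0, by positivity⟩, true)⟩
  have : Nonempty (Smp A X M 1) := inferInstance
  let θ : ({j : Fin R // j ≠ i} → Smp A X M 1) → (X × Bool → Bool) →
      ((Fin R × X) × Bool → Bool) := fun ρ a l =>
    if hl : l.1.1 = i then a (l.1.2, l.2)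
      else decide ((l.1.1 : ℕ) < i ∧ h (ρ ⟨l.1.1, hl⟩).1 l.1.2 = l.2)
  let E : Smp A X M 1 × ({j : Fin R // j ≠ i} → Smp A X M 1) → Prop := fun p =>
    g (θ p.2 (fun _ => false)) = false ∧
      g (θ p.2 (fun l => decide (l ∈ Qs M 1 1 p.1))) = true
  let E' : Smp A X M 1 × ({j : Fin R // j ≠ i} → Smp A X M 1) → Prop := fun p =>
    g (θ p.2 (fun _ => false)) = false ∧
      g (θ p.2 (fun l => decide (h p.1.1 l.1 = l.2))) = true
  have hZ : ∀ ω : OmS A X M R, ZZ h M ω i = θ (fun j => ω j) (fun _ => false) := by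
    intro ω
    funext l
    simp only [ZZ, θ]
    split_ifs with hl
    · rw [hl]
      simp
    · rfl
  have hY : ∀ ω : OmS A X M R, YY h M ω i =
      θ (fun j => ω j) (fun l => decide (l ∈ Qs M 1 1 (ω i))) := by
    intro ω
    funext l
    simp only [YY, ZZ, θ]
    split_ifs with hl
    · rw [hl]
      simp
    · have : ¬ ((l.1.1 : ℕ) = i) := fun h => hl (Fin.ext h)
      simp [this]
  have hZ' : ∀ ω : OmS A X M R, ZZ h M ω (i + 1) =
      θ (fun j => ω j) (fun l => decide (h (ω i).1 l.1 = l.2)) := by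
    intro ω
    funext l
    simp only [ZZ, θ]
    split_ifs with hl
    · rw [hl]
      simp
    · have : ¬ ((l.1.1 : ℕ) = i) := fun h => hl (Fin.ext h)
      have h4 : (l.1.1 : ℕ) < i + 1 ↔ (l.1.1 : ℕ) < i := by omega
      simp only [h4]
  have h1 : pr (fun ω : OmS A X M R => g (ZZ h M ω i) = false ∧ g (YY h M ω i) = true) =
      pr (fun ω : Fin R → Smp A X M 1 => E (ω i, fun j => ω j)) := by
    apply pr_congr
    intro ω
    rw [hZ ω, hY ω]
  have h2 : pr (fun ω : OmS A X M R => g (ZZ h M ω i) = false ∧ g (ZZ h M ω (i + 1)) = true) =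
      pr (fun ω : Fin R → Smp A X M 1 => E' (ω i, fun j => ω j)) := by
    apply pr_congr
    intro ω
    rw [hZ ω, hZ' ω]
  rw [h1, h2]
  refine pr_coord_le2 i E E' (by positivity) ?_
  intro ρ
  have hθ : ∀ l, (∃ v, (fun a => θ ρ a l) = fun a => a v) ∨
      ∃ c : Bool, (fun a => θ ρ a l) = fun _ => c := by
    intro l
    by_cases hl : l.1.1 = i
    · left
      refine ⟨(l.1.2, l.2), ?_⟩
      funext a
      simp [θ, hl]
    · right
      refine ⟨decide ((l.1.1 : ℕ) < i ∧ h (ρ ⟨l.1.1, hl⟩).1 l.1.2 = l.2), ?_⟩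
      funext a
      simp only [θ, dif_neg hl]
  by_cases hb : g (θ ρ (fun _ => false)) = false
  · have h3 := level_le hS hfin (circuit_subst (θ ρ) hθ hL) (source_subst (θ ρ) hθ hg)
    have h4 : pr (fun y : Smp A X M 1 => E (y, ρ)) ≤
        pr (fun y : Smp A X M 1 => ev (fun a => g (θ ρ a)) (Qs M 1 1 y) = true) := by
      apply pr_mono
      rintro y ⟨-, h5⟩
      exact h5
    have h5 : pr (fun y : Smp A X M 1 => ev (fun a => g (θ ρ a)) (Ps h M 1 0 y) = true) ≤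
        pr (fun y : Smp A X M 1 => E' (y, ρ)) := by
      apply pr_mono
      intro y h6
      refine ⟨hb, ?_⟩
      refine mono_of_source hL hg ?_ h6
      intro l hl
      by_cases hli : l.1.1 = i
      · simp only [θ, dif_pos hli, decide_eq_true_eq] at hl ⊢
        exact (Finset.mem_filter.1 hl).2
      · simp only [θ, dif_neg hli] at hl ⊢
        exact hl
    have h3' : pr (fun y : Smp A X M 1 => ev (fun a => g (θ ρ a)) (Qs M 1 1 y) = true) ≤
        pr (fun y : Smp A X M 1 => ev (fun a => g (θ ρ a)) (Ps h M 1 0 y) = true) +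
          2 * (t * (etaOr G ε + η)) := h3
    linarith
  · have h4 : pr (fun y : Smp A X M 1 => E (y, ρ)) ≤ pr (fun _ : Smp A X M 1 => False) := by
      apply pr_mono
      rintro y ⟨h5, -⟩
      exact hb h5
    rw [pr_false] at h4
    have h5 := pr_nonneg (fun y : Smp A X M 1 => E' (y, ρ))
    have h6 : 0 ≤ 2 * (t * (etaOr G ε + η)) := by positivity
    linarith

/-- **Lower bound along the chain.** -/
theorem split_lower2 [Nonempty A] (hM : 0 < M) {G : Finset (X × Bool) → Prop} {w : ℕ}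
    {ε η : ℝ} (hS : Sc (Ω := Smp A X M 1) (Ps h M 1) (Qs M 1) G w ε η (1 / 2) 1)
    (hfin : ∀ 𝒜 : Finset (Finset (X × Bool)), CF (Ω := Smp A X M 1) (Ps h M 1 0) G ε 𝒜 →
      pr (fun ω : Smp A X M 1 => ∃ T ∈ 𝒜, T ⊆ Qs M 1 1 ω) ≤
        pr (fun ω : Smp A X M 1 => ∃ T ∈ 𝒜, T ⊆ Ps h M 1 0 ω)) {t r : ℕ}
    {L : List (((Fin R × X) × Bool → Bool) → Bool)} (hL : NegCircuit t r L)
    {F : ((Fin R × X) × Bool → Bool) → Bool} (hF : Source L F)
    (hZ : ∀ (ω : OmS A X M R) (i : Fin R), F (ZZ h M ω i) = false) {δ : ℝ}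
    (hY : ∀ i : Fin R, pr (fun ω : OmS A X M R => F (YY h M ω i) = false) ≤ δ) :
    (R:ℝ) * (1 - δ) ≤ 2 * 2 ^ r * (1 + R * (2 * (t * (etaOr G ε + η)))) := by
  classical
  have he0 := etaOr_nonneg G hS.ε0
  have hη0 := hS.η0
  have : Nonempty (Fin (M ^ 1) × Bool) := ⟨(⟨0, by positivity⟩, true)⟩
  have : Nonempty (Smp A X M 1) := inferInstance
  have hne : Nonempty (OmS A X M R) := inferInstance
  have hcount := chain_count2 (R := R) (fun i (ω : OmS A X M R) => ZZ h M ω i)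
    (fun i ω => YY h M ω i) (fun i ω v hv => by simp only [YY, hv, Bool.true_or])
    (fun i ω v hv => ZZ_mono h M ω (Nat.le_succ i) v hv)
    (t := t) (r := r) (c := 2 * (t * (etaOr G ε + η))) (by positivity)
    (fun i hi L g hL hg => pr_part_le2 h M hM hS hfin hL hg ⟨i, hi⟩) hL hF
  refine le_trans ?_ hcount
  have h1 : ∀ i ∈ Finset.range R, 1 - δ ≤
      pr (fun ω : OmS A X M R => F (ZZ h M ω i) ≠ F (YY h M ω i)) := by
    intro i hi
    have h2 := hY ⟨i, Finset.mem_range.1 hi⟩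
    have h3 := pr_compl (fun ω : OmS A X M R => F (YY h M ω i) = false)
    have h4 : pr (fun ω : OmS A X M R => ¬ F (YY h M ω i) = false) ≤
        pr (fun ω : OmS A X M R => F (ZZ h M ω i) ≠ F (YY h M ω i)) := by
      apply pr_mono
      intro ω hω h5
      apply hω
      rw [← h5]
      exact hZ ω ⟨i, Finset.mem_range.1 hi⟩
    rw [h3] at h4
    have h2' : pr (fun ω : OmS A X M R => F (YY h M ω i) = false) ≤ δ := h2
    linarith
  have h2 := Finset.sum_le_sum h1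
  rw [Finset.sum_const, Finset.card_range, nsmul_eq_mul] at h2
  exact h2

end split

/-- The scales built from a `4e`-wise independent family, with the multiplicative comparison. -/
theorem sc_Ps2 {A : Type} [Fintype A] {X : Type} [Fintype X] [DecidableEq X] (h : A → X → Bool)
    (M : ℕ) [Nonempty A] {w e b : ℕ} (hw0 : 0 < w) (hwe : w ≤ e)
    (hM : 331776 * e * w * 2 ^ b ≤ M)
    (hfam : ∀ T : Finset (X × Bool), T.card ≤ 4 * e → Cons T →
      pr (fun a : A => ∀ l ∈ T, h a l.1 = l.2) = (1 / 2) ^ T.card)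
    {ε : ℝ} (hε : (w:ℝ) * (1 / 2 ^ b) ^ e ≤ ε) (hε1 : ε ≤ 1 / 2) :
    Sc (Ω := Smp A X M 1) (Ps h M 1) (Qs M 1) (GW X w) w ε
      (((w:ℝ) + 1) ^ 2 * 2 ^ w * (41472 * e * w * 2 ^ b / M) ^ (w + 1)) (1 / 2) 1 ∧
    ∀ 𝒜 : Finset (Finset (X × Bool)), CF (Ω := Smp A X M 1) (Ps h M 1 0) (GW X w) ε 𝒜 →
      pr (fun ω : Smp A X M 1 => ∃ T ∈ 𝒜, T ⊆ Qs M 1 1 ω) ≤
        pr (fun ω : Smp A X M 1 => ∃ T ∈ 𝒜, T ⊆ Ps h M 1 0 ω) := by
  have he0 : 0 < e := by omega
  have hM0 : 0 < M := by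
    have : 0 < 331776 * e * w * 2 ^ b := by positivity
    omega
  have hMr : (0:ℝ) < M := by exact_mod_cast hM0
  have hM' : 82944 * e * w * 2 ^ b ≤ M := by
    refine le_trans ?_ hM
    gcongr
    norm_num
  have hMR : 331776 * (e:ℝ) * w * 2 ^ b ≤ M := by exact_mod_cast hM
  have her : (0:ℝ) < e := by exact_mod_cast he0
  have her1 : (1:ℝ) ≤ e := by exact_mod_cast he0
  have hwr : (0:ℝ) < w := by exact_mod_cast hw0
  have hwr1 : (1:ℝ) ≤ w := by exact_mod_cast hw0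
  have hb1 : (1:ℝ) ≤ 2 ^ b := one_le_pow₀ (by norm_num)
  have : Nonempty (Fin (M ^ 1) × Bool) := ⟨(⟨0, by positivity⟩, true)⟩
  have hS := sc_Ps (X := X) h M 1 (w := w) (e := e) (b := b) hw0 hwe hM' hfam hε hε1
  have hζ : 2 * (41472 * (e:ℝ) * w * 2 ^ b / M) ≤ 1 / 2 := by
    rw [← mul_div_assoc, div_le_div_iff₀ hMr (by norm_num)]
    linarith
  refine ⟨⟨hS.adm, hS.sub, hS.ε0, hS.ε1, hS.η0, by norm_num, hS.lit, hS.var, hS.and_err,
    fun i hi 𝒜 h𝒜 hne => (hS.zeta i hi 𝒜 h𝒜 hne).trans hζ⟩, ?_⟩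
  intro 𝒜 h𝒜
  set κ : ℝ := 82944 * e * w * 2 ^ b with hκ
  have hκ0 : 0 < κ := by positivity
  have hkind : KInd (Ps h M 1 0) (1 / 4) (4 * e) := by
    have := kInd_Ps h M 1 (m := 4 * e) hM0 (i := 0) (by norm_num) hfam
    simpa using this
  have hrsp : RSP (Ps h M 1 0) w ε κ := by
    intro 𝒯 hne r hr hrw hcard hcons hspread
    refine le_trans (robust_sunflower_hom (Ps h M 1 0) (p := 1 / 4) (by norm_num)
      (by norm_num) hw0 hwe hkind 𝒯 hne hr hrw hcard hcons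
      (β := 2 ^ b) hb1 ?_ hspread) hε
    apply le_of_eq
    rw [hκ]
    ring
  refine planted_le_noise (Ω := Smp A X M 1) (admPred_GW w) hκ0 hrsp (p := 1 / 4) (by norm_num)
    (fun T hT => hkind T (by omega)) h𝒜 (Q := fun ω => Qs M 1 1 ω) (q := 1 / (2 * (M:ℝ)))
    (by positivity) ?_ ?_
  · intro T hT _
    have h1 := pr_true_first (A := A) M 1 hM0 (i := 1) (le_refl 1) hT.2
    refine h1.le.trans (le_of_eq ?_)
    rw [pow_one]
  · have h1 : (1:ℝ) ≤ e * w * 2 ^ b := by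
      have := one_le_mul_of_one_le_of_one_le her1 hwr1
      exact one_le_mul_of_one_le_of_one_le this hb1
    rw [hκ]
    have h2 : 4 * (1 / (2 * (M:ℝ)) * (1 + 82944 * e * w * 2 ^ b * (1 / 4))) =
        2 * (1 + 20736 * (e * w * 2 ^ b)) / M := by
      field_simp
      ring
    rw [h2, div_le_div_iff₀ hMr (by norm_num)]
    nlinarith

end Pool.Agent.H24
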