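import Pool.Agent.H24.Prob

/-!
A robust sunflower (spread) lemma for `k*w`-wise independent random sets of literals,
proved by the `k`-th central moment.
-/

namespace Pool.Agent.H24

open Finset

set_option linter.unusedSectionVars false

variable {X : Type*} [DecidableEq X]

/-- A set of literals is consistent if it does not contain both labels of a point. -/
def Cons (T : Finset (X × Bool)) : Prop := ∀ x, ¬ ((x, true) ∈ T ∧ (x, false) ∈ T)

/-- The points mentioned in a set of literals. -/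
def vars (T : Finset (X × Bool)) : Finset X := T.image Prod.fst

theorem Cons.mono {S T : Finset (X × Bool)} (h : S ⊆ T) (hT : Cons T) : Cons S :=
  fun x hx => hT x ⟨h hx.1, h hx.2⟩

theorem Cons.injOn {T : Finset (X × Bool)} (hT : Cons T) :
    Set.InjOn Prod.fst (T : Set (X × Bool)) := by
  rintro ⟨x, b⟩ hx ⟨y, c⟩ hy hxy
  simp only at hxy
  subst hxy
  have := hT x
  cases b <;> cases c <;> simp_all

theorem Cons.card_vars {T : Finset (X × Bool)} (hT : Cons T) : (vars T).card = T.card :=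
  Finset.card_image_of_injOn hT.injOn

theorem card_vars_le (T : Finset (X × Bool)) : (vars T).card ≤ T.card := Finset.card_image_le

theorem cons_empty : Cons (∅ : Finset (X × Bool)) := by simp [Cons]

theorem vars_union (S T : Finset (X × Bool)) : vars (S ∪ T) = vars S ∪ vars T :=
  Finset.image_union _ _

theorem vars_biUnion {ι : Type*} [DecidableEq ι] (s : Finset ι) (f : ι → Finset (X × Bool)) :
    vars (s.biUnion f) = s.biUnion (fun i => vars (f i)) := by
  ext x
  simp only [vars, mem_image, mem_biUnion]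
  constructor
  · rintro ⟨a, ⟨i, hi, ha⟩, rfl⟩
    exact ⟨i, hi, a, ha, rfl⟩
  · rintro ⟨i, hi, a, ha, rfl⟩
    exact ⟨a, ⟨i, hi, ha⟩, rfl⟩

theorem vars_mono {S T : Finset (X × Bool)} (h : S ⊆ T) : vars S ⊆ vars T :=
  Finset.image_subset_image h

theorem mem_vars {T : Finset (X × Bool)} {x : X} : x ∈ vars T ↔ ∃ b, (x, b) ∈ T := by
  simp only [vars, mem_image]
  constructor
  · rintro ⟨⟨y, b⟩, h, rfl⟩
    exact ⟨b, h⟩
  · rintro ⟨b, h⟩
    exact ⟨(x, b), h, rfl⟩

theorem cons_union_of_disjoint {S T : Finset (X × Bool)} (hS : Cons S) (hT : Cons T)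
    (hd : Disjoint (vars S) (vars T)) : Cons (S ∪ T) := by
  intro x hx
  rw [Finset.disjoint_left] at hd
  rcases hx with ⟨h1, h2⟩
  rcases Finset.mem_union.1 h1 with h1 | h1 <;> rcases Finset.mem_union.1 h2 with h2 | h2
  · exact hS x ⟨h1, h2⟩
  · exact hd (mem_vars.2 ⟨_, h1⟩) (mem_vars.2 ⟨_, h2⟩)
  · exact hd (mem_vars.2 ⟨_, h2⟩) (mem_vars.2 ⟨_, h1⟩)
  · exact hT x ⟨h1, h2⟩

open Classical in
/-- `m`-wise independence of a random set of literals `P` with marginal probability `p`:
every consistent set of at most `m` literals is contained in `P` with probability `p^|T|`,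
and every inconsistent one with probability zero. -/
def KInd {Ω : Type*} [Fintype Ω] (P : Ω → Finset (X × Bool)) (p : ℝ) (m : ℕ) : Prop :=
  ∀ T : Finset (X × Bool), T.card ≤ m →
    pr (fun ω => T ⊆ P ω) = if Cons T then p ^ T.card else 0

/-- the overlap of a tuple of sets of literals -/
def ov {ι : Type*} (s : Finset ι) (V : ι → Finset X) : ℕ :=
  (∑ i ∈ s, (V i).card) - (s.biUnion V).card

theorem card_biUnion_le' {ι : Type*} (s : Finset ι) (V : ι → Finset X) :
    (s.biUnion V).card ≤ ∑ i ∈ s, (V i).card := Finset.card_biUnion_le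

/-- If no index is isolated, then the overlap is at least half the number of indices. -/
theorem card_le_two_mul_ov {ι : Type*} [DecidableEq ι] (s : Finset ι) (V : ι → Finset X)
    (h : ∀ i ∈ s, ∃ j ∈ s, j ≠ i ∧ ¬ Disjoint (V i) (V j)) :
    s.card ≤ 2 * ov s V := by
  classical
  set U := s.biUnion V with hU
  -- multiplicities
  let m : X → ℕ := fun x => (s.filter (fun i => x ∈ V i)).card
  have hm1 : ∀ x ∈ U, 1 ≤ m x := by
    intro x hx
    rw [hU, mem_biUnion] at hx
    obtain ⟨i, hi, hxi⟩ := hx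
    exact Finset.card_pos.2 ⟨i, by simp [hi, hxi]⟩
  have hdouble : ∑ i ∈ s, (V i).card = ∑ x ∈ U, m x := by
    have h1 : ∀ i ∈ s, (V i).card = ∑ x ∈ U, if x ∈ V i then 1 else 0 := by
      intro i hi
      rw [Finset.sum_boole]
      simp only [Nat.cast_id]
      congr 1
      ext x
      simp only [mem_filter, hU, mem_biUnion]
      exact ⟨fun hx => ⟨⟨i, hi, hx⟩, hx⟩, fun hx => hx.2⟩
    rw [Finset.sum_congr rfl h1, Finset.sum_comm]
    apply Finset.sum_congr rfl
    intro x _
    rw [Finset.sum_boole]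
    simp [m]
  have hov : ov s V = ∑ x ∈ U, (m x - 1) := by
    unfold ov
    rw [hdouble, ← hU]
    have : ∑ x ∈ U, m x = ∑ x ∈ U, (m x - 1) + U.card := by
      rw [Finset.card_eq_sum_ones, ← Finset.sum_add_distrib]
      apply Finset.sum_congr rfl
      intro x hx
      have := hm1 x hx
      omega
    omega
  have hle : s.card ≤ ∑ x ∈ U, if 2 ≤ m x then m x else 0 := by
    calc s.card = ∑ i ∈ s, 1 := by simp
      _ ≤ ∑ i ∈ s, ∑ x ∈ U, (if x ∈ V i then (if 2 ≤ m x then 1 else 0) else 0) := by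
          apply Finset.sum_le_sum
          intro i hi
          obtain ⟨j, hj, hji, hd⟩ := h i hi
          rw [Finset.not_disjoint_iff] at hd
          obtain ⟨x, hxi, hxj⟩ := hd
          have hxU : x ∈ U := by
            rw [hU, mem_biUnion]
            exact ⟨i, hi, hxi⟩
          have h2 : 2 ≤ m x := by
            have : ({i, j} : Finset ι) ⊆ s.filter (fun i => x ∈ V i) := by
              intro a ha
              simp only [mem_insert, mem_singleton] at ha
              rcases ha with rfl | rfl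
              · simp [hi, hxi]
              · simp [hj, hxj]
            calc 2 = ({i, j} : Finset ι).card := by
                  rw [Finset.card_pair (Ne.symm hji)]
              _ ≤ _ := Finset.card_le_card this
          calc 1 = (if x ∈ V i then (if 2 ≤ m x then 1 else 0) else 0) := by simp [hxi, h2]
            _ ≤ _ := Finset.single_le_sum (f := fun x => (if x ∈ V i then (if 2 ≤ m x then 1 else 0) else 0))
                  (fun _ _ => Nat.zero_le _) hxU
      _ = ∑ x ∈ U, ∑ i ∈ s, (if x ∈ V i then (if 2 ≤ m x then 1 else 0) else 0) := Finset.sum_comm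
      _ = ∑ x ∈ U, if 2 ≤ m x then m x else 0 := by
          apply Finset.sum_congr rfl
          intro x _
          by_cases h2 : 2 ≤ m x
          · simp only [h2, if_true]
            rw [Finset.sum_boole]
            simp [m]
          · simp [h2]
  calc s.card ≤ ∑ x ∈ U, if 2 ≤ m x then m x else 0 := hle
    _ ≤ ∑ x ∈ U, 2 * (m x - 1) := by
        apply Finset.sum_le_sum
        intro x _
        split_ifs with h2 <;> omega
    _ = 2 * ov s V := by rw [hov, Finset.mul_sum]


section expect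

variable {Ω : Type*} [Fintype Ω]

open Classical in
/-- the (normalised, uncentred) indicator of `T ⊆ P ω` -/
noncomputable def ind (P : Ω → Finset (X × Bool)) (c : ℝ) (T : Finset (X × Bool)) (ω : Ω) : ℝ :=
  if T ⊆ P ω then c else 0

theorem ind_nonneg (P : Ω → Finset (X × Bool)) {c : ℝ} (hc : 0 ≤ c) (T : Finset (X × Bool))
    (ω : Ω) : 0 ≤ ind P c T ω := by
  unfold ind
  split_ifs <;> simp [hc]

theorem prod_ind {ι : Type*} [DecidableEq ι] (P : Ω → Finset (X × Bool)) (c : ℝ)
    (τ : ι → Finset (X × Bool)) (I : Finset ι) (ω : Ω) :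
    ∏ i ∈ I, ind P c (τ i) ω = c ^ I.card * ind P 1 (I.biUnion τ) ω := by
  classical
  induction I using Finset.induction_on with
  | empty => simp [ind]
  | insert a s ha ih =>
    rw [Finset.prod_insert ha, ih, Finset.card_insert_of_notMem ha, Finset.biUnion_insert]
    unfold ind
    by_cases h1 : τ a ⊆ P ω <;> by_cases h2 : s.biUnion τ ⊆ P ω
    · have h3 : τ a ∪ s.biUnion τ ⊆ P ω := Finset.union_subset h1 h2
      simp only [h1, h2, h3, if_true]
      ring
    · have h3 : ¬ (τ a ∪ s.biUnion τ ⊆ P ω) := fun h => h2 (Finset.union_subset_right h)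
      simp only [h1, h2, h3, if_true, if_false]
      ring
    · have h3 : ¬ (τ a ∪ s.biUnion τ ⊆ P ω) := fun h => h1 (Finset.union_subset_left h)
      simp only [h1, h2, h3, if_true, if_false]
      ring
    · have h3 : ¬ (τ a ∪ s.biUnion τ ⊆ P ω) := fun h => h1 (Finset.union_subset_left h)
      simp only [h1, h2, h3, if_false]
      ring

theorem ex_ind_one (P : Ω → Finset (X × Bool)) (T : Finset (X × Bool)) :
    ex (fun ω => ind P 1 T ω) = pr (fun ω => T ⊆ P ω) := by
  unfold pr ind
  congr 1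
  ext ω
  by_cases h : T ⊆ P ω <;> simp [h]

theorem ex_prod_ind {ι : Type*} [DecidableEq ι] (P : Ω → Finset (X × Bool)) (c : ℝ)
    (τ : ι → Finset (X × Bool)) (I : Finset ι) :
    ex (fun ω => ∏ i ∈ I, ind P c (τ i) ω) = c ^ I.card * pr (fun ω => I.biUnion τ ⊆ P ω) := by
  simp_rw [prod_ind, ex_const_mul, ex_ind_one]

theorem card_biUnion_tuple_le {ι : Type*} [DecidableEq ι] {τ : ι → Finset (X × Bool)}
    {s : Finset ι} {r : ℕ} (hcard : ∀ i ∈ s, (τ i).card = r) : (s.biUnion τ).card ≤ s.card * r :=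
  Finset.card_biUnion_le_card_mul _ _ _ (fun i hi => (hcard i hi).le)

/-- Bound on a mixed central moment by the overlap. -/
theorem abs_ex_prod_le {ι : Type*} [DecidableEq ι] (P : Ω → Finset (X × Bool)) {p : ℝ}
    (hp : 0 < p) (hp1 : p ≤ 1) {m : ℕ} (hind : KInd P p m) {r : ℕ}
    (τ : ι → Finset (X × Bool)) (s : Finset ι) (hcard : ∀ i ∈ s, (τ i).card = r)
    (hcons : ∀ i ∈ s, Cons (τ i)) (hsm : s.card * r ≤ m) :
    |ex (fun ω => ∏ i ∈ s, (ind P (p ^ r)⁻¹ (τ i) ω - 1))| ≤
      2 ^ s.card * (p⁻¹) ^ (ov s (fun i => vars (τ i))) := by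
  classical
  have hc : (0:ℝ) ≤ (p ^ r)⁻¹ := by positivity
  have h1 : |ex (fun ω => ∏ i ∈ s, (ind P (p ^ r)⁻¹ (τ i) ω - 1))| ≤
      ex (fun ω => ∏ i ∈ s, (ind P (p ^ r)⁻¹ (τ i) ω + 1)) := by
    refine le_trans (abs_ex_le _) (ex_mono fun ω => ?_)
    rw [Finset.abs_prod]
    apply Finset.prod_le_prod
    · intro i _; exact abs_nonneg _
    · intro i _
      have := ind_nonneg P hc (τ i) ω
      rw [abs_le]
      constructor <;> linarith
  refine le_trans h1 ?_
  have h2 : ex (fun ω => ∏ i ∈ s, (ind P (p ^ r)⁻¹ (τ i) ω + 1)) =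
      ∑ I ∈ s.powerset, ((p ^ r)⁻¹) ^ I.card * pr (fun ω => I.biUnion τ ⊆ P ω) := by
    have : ∀ ω, ∏ i ∈ s, (ind P (p ^ r)⁻¹ (τ i) ω + 1) =
        ∑ I ∈ s.powerset, ∏ i ∈ I, ind P (p ^ r)⁻¹ (τ i) ω := by
      intro ω
      rw [Finset.prod_add]
      apply Finset.sum_congr rfl
      intro I _
      simp
    simp_rw [this]
    rw [ex_sum]
    apply Finset.sum_congr rfl
    intro I _
    exact ex_prod_ind P _ τ I
  rw [h2]
  have h3 : ∀ I ∈ s.powerset, ((p ^ r)⁻¹) ^ I.card * pr (fun ω => I.biUnion τ ⊆ P ω) ≤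
      (p⁻¹) ^ (ov s (fun i => vars (τ i))) := by
    intro I hI
    rw [Finset.mem_powerset] at hI
    have hIcard : (I.biUnion τ).card ≤ m := by
      refine le_trans (card_biUnion_tuple_le (fun i hi => hcard i (hI hi))) (le_trans ?_ hsm)
      exact Nat.mul_le_mul_right _ (Finset.card_le_card hI)
    rw [hind _ hIcard]
    split_ifs with hC
    · have hle : r * I.card ≤ ov s (fun i => vars (τ i)) + (I.biUnion τ).card := by
        rw [← hC.card_vars, vars_biUnion]
        unfold ov
        have e1 : ∑ i ∈ s, (vars (τ i)).card = s.card * r := by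
          rw [Finset.sum_const_nat]
          intro i hi
          rw [(hcons i hi).card_vars, hcard i hi]
        rw [e1]
        have e2 : (s.biUnion fun i => vars (τ i)).card ≤
            (I.biUnion fun i => vars (τ i)).card + (s.card - I.card) * r := by
          have : (s.biUnion fun i => vars (τ i)) =
              (I.biUnion fun i => vars (τ i)) ∪ ((s \ I).biUnion fun i => vars (τ i)) := by
            rw [← Finset.union_biUnion, Finset.union_sdiff_of_subset hI]
          rw [this]
          refine le_trans (Finset.card_union_le _ _) ?_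
          gcongr
          rw [← Finset.card_sdiff_of_subset hI]
          apply Finset.card_biUnion_le_card_mul
          intro i hi
          rw [Finset.mem_sdiff] at hi
          exact le_trans (card_vars_le _) (hcard i hi.1).le
        have e3 : I.card ≤ s.card := Finset.card_le_card hI
        have e4 : (s.card - I.card) * r + I.card * r = s.card * r := by
          rw [← Nat.add_mul, Nat.sub_add_cancel e3]
        rw [Nat.mul_comm r]
        omega
      have hp0 : p ≠ 0 := hp.ne'
      have hinv : (1:ℝ) ≤ p⁻¹ := (one_le_inv₀ hp).2 hp1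
      calc ((p ^ r)⁻¹) ^ I.card * p ^ (I.biUnion τ).card
          = (p⁻¹) ^ (r * I.card) * p ^ (I.biUnion τ).card := by
            rw [← inv_pow, ← pow_mul]
        _ ≤ (p⁻¹) ^ (ov s (fun i => vars (τ i)) + (I.biUnion τ).card) * p ^ (I.biUnion τ).card := by
            gcongr
        _ = (p⁻¹) ^ (ov s (fun i => vars (τ i))) := by
            rw [pow_add, mul_assoc, ← mul_pow, inv_mul_cancel₀ hp0, one_pow, mul_one]
    · rw [mul_zero]
      positivity
  calc ∑ I ∈ s.powerset, ((p ^ r)⁻¹) ^ I.card * pr (fun ω => I.biUnion τ ⊆ P ω)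
      ≤ ∑ I ∈ s.powerset, (p⁻¹) ^ (ov s (fun i => vars (τ i))) := Finset.sum_le_sum h3
    _ = 2 ^ s.card * (p⁻¹) ^ (ov s (fun i => vars (τ i))) := by
        rw [Finset.sum_const, Finset.card_powerset, nsmul_eq_mul]
        push_cast
        ring

/-- A mixed central moment with an isolated index vanishes. -/
theorem ex_prod_eq_zero {ι : Type*} [DecidableEq ι] (P : Ω → Finset (X × Bool)) {p : ℝ}
    (hp : 0 < p) {m : ℕ} (hind : KInd P p m) {r : ℕ}
    (τ : ι → Finset (X × Bool)) (s : Finset ι) (hcard : ∀ i ∈ s, (τ i).card = r)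
    (hcons : ∀ i ∈ s, Cons (τ i)) (hsm : s.card * r ≤ m)
    (i₀ : ι) (hi₀ : i₀ ∈ s) (hiso : ∀ j ∈ s, j ≠ i₀ → Disjoint (vars (τ i₀)) (vars (τ j))) :
    ex (fun ω => ∏ i ∈ s, (ind P (p ^ r)⁻¹ (τ i) ω - 1)) = 0 := by
  classical
  set c := (p ^ r)⁻¹ with hcdef
  set s' := s.erase i₀ with hs'
  have hss' : s = insert i₀ s' := (Finset.insert_erase hi₀).symm
  have hi₀' : i₀ ∉ s' := Finset.notMem_erase _ _
  have h1 : ∀ ω, ∏ i ∈ s, (ind P c (τ i) ω - 1) =
      ∑ I ∈ s'.powerset, (-1) ^ (s' \ I).card *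
        (∏ i ∈ insert i₀ I, ind P c (τ i) ω - ∏ i ∈ I, ind P c (τ i) ω) := by
    intro ω
    rw [hss', Finset.prod_insert hi₀']
    have : ∏ i ∈ s', (ind P c (τ i) ω - 1) =
        ∑ I ∈ s'.powerset, (∏ i ∈ I, ind P c (τ i) ω) * (-1) ^ (s' \ I).card := by
      have h := Finset.prod_add (fun i => ind P c (τ i) ω) (fun _ => (-1:ℝ)) s'
      simp only [Finset.prod_const] at h
      rw [← h]
      simp [sub_eq_add_neg]
    rw [this, Finset.mul_sum]
    apply Finset.sum_congr rfl
    intro I hI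
    rw [Finset.mem_powerset] at hI
    have hi : i₀ ∉ I := fun h => hi₀' (hI h)
    rw [Finset.prod_insert hi]
    ring
  simp_rw [h1]
  rw [ex_sum]
  apply Finset.sum_eq_zero
  intro I hI
  rw [Finset.mem_powerset] at hI
  have hi : i₀ ∉ I := fun h => hi₀' (hI h)
  have hIs : I ⊆ s := hI.trans (Finset.erase_subset _ _)
  rw [ex_const_mul, ex_sub, ex_prod_ind, ex_prod_ind]
  have hIcard : (I.biUnion τ).card ≤ m := by
    refine le_trans (card_biUnion_tuple_le (fun i hi => hcard i (hIs hi))) (le_trans ?_ hsm)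
    exact Nat.mul_le_mul_right _ (Finset.card_le_card hIs)
  have hins : insert i₀ I ⊆ s := Finset.insert_subset hi₀ hIs
  have hIcard' : ((insert i₀ I).biUnion τ).card ≤ m := by
    refine le_trans (card_biUnion_tuple_le (fun i hi => hcard i (hins hi))) (le_trans ?_ hsm)
    exact Nat.mul_le_mul_right _ (Finset.card_le_card hins)
  rw [hind _ hIcard, hind _ hIcard', Finset.card_insert_of_notMem hi]
  have hp0 : p ≠ 0 := hp.ne'
  have hdisj : Disjoint (vars (τ i₀)) (vars (I.biUnion τ)) := by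
    rw [vars_biUnion, Finset.disjoint_biUnion_right]
    intro j hj
    apply hiso j (hIs hj)
    rintro rfl
    exact hi hj
  by_cases hC : Cons (I.biUnion τ)
  · have hC' : Cons ((insert i₀ I).biUnion τ) := by
      rw [Finset.biUnion_insert]
      exact cons_union_of_disjoint (hcons i₀ hi₀) hC hdisj
    have hcardeq : ((insert i₀ I).biUnion τ).card = r + (I.biUnion τ).card := by
      rw [← hC'.card_vars, ← hC.card_vars, Finset.biUnion_insert, vars_union,
        Finset.card_union_of_disjoint hdisj, (hcons i₀ hi₀).card_vars, hcard i₀ hi₀]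
    rw [if_pos hC, if_pos hC', hcardeq, hcdef]
    have hpr : (p ^ r) ≠ 0 := pow_ne_zero _ hp0
    rw [pow_succ, pow_add]
    field_simp
    simp
  · have hC' : ¬ Cons ((insert i₀ I).biUnion τ) := by
      rw [Finset.biUnion_insert]
      intro h
      exact hC (h.mono Finset.subset_union_right)
    rw [if_neg hC, if_neg hC']
    simp

end expect

section tuples

/-- The spread condition bounds the number of members that cover a set of points. -/
theorem card_cover_le (𝒯 : Finset (Finset (X × Bool))) {κ : ℝ} (hκ : 0 < κ)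
    (hspread : ∀ J : Finset (X × Bool),
      ((𝒯.filter (fun T => J ⊆ T)).card : ℝ) * κ ^ J.card ≤ 𝒯.card)
    (J : Finset X) :
    ((𝒯.filter (fun T => J ⊆ vars T)).card : ℝ) ≤ 𝒯.card * (2 / κ) ^ J.card := by
  classical
  -- labelled versions of `J`
  let lab : Finset X → Finset (X × Bool) := fun B => J.image (fun x => (x, decide (x ∈ B)))
  have hlab : ∀ B, (lab B).card = J.card := by
    intro B
    apply Finset.card_image_of_injOn
    intro x _ y _ hxy
    simp only [Prod.mk.injEq] at hxy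
    exact hxy.1
  have hsub : 𝒯.filter (fun T => J ⊆ vars T) ⊆
      J.powerset.biUnion (fun B => 𝒯.filter (fun T => lab B ⊆ T)) := by
    intro T hT
    rw [mem_filter] at hT
    rw [mem_biUnion]
    refine ⟨J.filter (fun x => (x, true) ∈ T), Finset.mem_powerset.2 (Finset.filter_subset _ _), ?_⟩
    rw [mem_filter]
    refine ⟨hT.1, ?_⟩
    intro y hy
    simp only [lab, mem_image] at hy
    obtain ⟨x, hx, rfl⟩ := hy
    by_cases hxt : (x, true) ∈ T
    · have : decide (x ∈ J.filter (fun x => (x, true) ∈ T)) = true := by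
        simp [hx, hxt]
      rw [this]
      exact hxt
    · have : decide (x ∈ J.filter (fun x => (x, true) ∈ T)) = false := by
        simp [hxt]
      rw [this]
      obtain ⟨b, hb⟩ := mem_vars.1 (hT.2 hx)
      cases b
      · exact hb
      · exact absurd hb hxt
  have h1 : ((𝒯.filter (fun T => J ⊆ vars T)).card : ℝ) ≤
      ∑ B ∈ J.powerset, ((𝒯.filter (fun T => lab B ⊆ T)).card : ℝ) := by
    have := (Finset.card_le_card hsub).trans Finset.card_biUnion_le
    exact_mod_cast this
  refine h1.trans ?_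
  have h2 : ∀ B ∈ J.powerset, ((𝒯.filter (fun T => lab B ⊆ T)).card : ℝ) ≤
      𝒯.card * (1 / κ) ^ J.card := by
    intro B _
    have := hspread (lab B)
    rw [hlab] at this
    rw [one_div, inv_pow, ← div_eq_mul_inv, le_div_iff₀ (by positivity)]
    exact this
  refine (Finset.sum_le_sum h2).trans ?_
  rw [Finset.sum_const, Finset.card_powerset, nsmul_eq_mul]
  push_cast
  rw [div_pow, div_pow, one_pow]
  apply le_of_eq
  ring

/-- one-step sum over a spread family -/
theorem sum_pow_inter_le (𝒯 : Finset (Finset (X × Bool))) {κ c : ℝ} (hκ : 0 < κ) (hc : 0 ≤ c)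
    (hspread : ∀ J : Finset (X × Bool),
      ((𝒯.filter (fun T => J ⊆ T)).card : ℝ) * κ ^ J.card ≤ 𝒯.card)
    (U : Finset X) :
    ∑ T ∈ 𝒯, c ^ (vars T ∩ U).card ≤ 𝒯.card * (1 + 2 * c / κ) ^ U.card := by
  classical
  have h1 : ∀ T ∈ 𝒯, c ^ (vars T ∩ U).card ≤
      ∑ J ∈ U.powerset, if J ⊆ vars T then c ^ J.card else 0 := by
    intro T _
    calc c ^ (vars T ∩ U).card ≤ ∑ J ∈ (vars T ∩ U).powerset, c ^ J.card := by
          exact Finset.single_le_sum (s := (vars T ∩ U).powerset)
            (f := fun J : Finset X => c ^ J.card) (a := vars T ∩ U)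
            (fun _ _ => by positivity) (Finset.mem_powerset_self _)
      _ ≤ ∑ J ∈ U.powerset, if J ⊆ vars T then c ^ J.card else 0 := by
          rw [← Finset.sum_filter]
          apply Finset.sum_le_sum_of_subset_of_nonneg
          · intro J hJ
            rw [mem_powerset, Finset.subset_inter_iff] at hJ
            simp [hJ.1, hJ.2]
          · intro _ _ _
            positivity
  calc ∑ T ∈ 𝒯, c ^ (vars T ∩ U).card
      ≤ ∑ T ∈ 𝒯, ∑ J ∈ U.powerset, if J ⊆ vars T then c ^ J.card else 0 := Finset.sum_le_sum h1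
    _ = ∑ J ∈ U.powerset, ((𝒯.filter (fun T => J ⊆ vars T)).card : ℝ) * c ^ J.card := by
        rw [Finset.sum_comm]
        apply Finset.sum_congr rfl
        intro J _
        rw [← Finset.sum_filter, Finset.sum_const, nsmul_eq_mul]
    _ ≤ ∑ J ∈ U.powerset, (𝒯.card * (2 / κ) ^ J.card) * c ^ J.card := by
        apply Finset.sum_le_sum
        intro J _
        gcongr
        exact card_cover_le 𝒯 hκ hspread J
    _ = 𝒯.card * ∑ J ∈ U.powerset, (2 * c / κ) ^ J.card := by
        rw [Finset.mul_sum]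
        apply Finset.sum_congr rfl
        intro J _
        rw [mul_assoc, ← mul_pow]
        congr 2
        ring
    _ = 𝒯.card * (1 + 2 * c / κ) ^ U.card := by
        congr 1
        have := Finset.sum_pow_mul_eq_add_pow (2 * c / κ) 1 U
        simp only [one_pow, mul_one] at this
        rw [this, add_comm]

/-- relative overlap -/
def ov' {j : ℕ} (U : Finset X) (V : Fin j → Finset X) : ℕ :=
  (U.card + ∑ i, (V i).card) - (U ∪ univ.biUnion V).card

theorem ov'_zero (U : Finset X) (V : Fin 0 → Finset X) : ov' U V = 0 := by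
  simp [ov']

theorem ov'_cons {j : ℕ} (U : Finset X) (V : Fin (j+1) → Finset X) :
    ov' U V = (V 0 ∩ U).card + ov' (U ∪ V 0) (fun i : Fin j => V i.succ) := by
  unfold ov'
  have h1 : (U ∪ univ.biUnion V) = ((U ∪ V 0) ∪ univ.biUnion (fun i : Fin j => V i.succ)) := by
    ext x
    simp only [mem_union, mem_biUnion, mem_univ, true_and]
    rw [Fin.exists_fin_succ]
    tauto
  rw [h1, Fin.sum_univ_succ]
  have h2 := Finset.card_union_add_card_inter U (V 0)
  have h3 : (((U ∪ V 0) ∪ univ.biUnion (fun i : Fin j => V i.succ))).card ≤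
      (U ∪ V 0).card + ∑ i : Fin j, (V i.succ).card :=
    (Finset.card_union_le _ _).trans (Nat.add_le_add_left Finset.card_biUnion_le _)
  rw [Finset.inter_comm (V 0) U]
  dsimp only
  omega

/-- sum over tuples -/
theorem sum_tuple_le (𝒯 : Finset (Finset (X × Bool))) {κ c : ℝ} (hκ : 0 < κ) (hc : 0 ≤ c)
    (hspread : ∀ J : Finset (X × Bool),
      ((𝒯.filter (fun T => J ⊆ T)).card : ℝ) * κ ^ J.card ≤ 𝒯.card)
    {r B : ℕ} (hcard : ∀ T ∈ 𝒯, T.card = r) (hB : (1 + 2 * c / κ) ^ B ≤ 3) :
    ∀ (j : ℕ) (U : Finset X), U.card + j * r ≤ B →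
      ∑ τ : Fin j → 𝒯, c ^ (ov' U (fun i => vars (τ i : Finset (X × Bool)))) ≤
        (3 * (𝒯.card : ℝ)) ^ j := by
  intro j
  induction j with
  | zero =>
    intro U _
    simp [ov'_zero]
  | succ j ih =>
    intro U hU
    have hbase : (1:ℝ) ≤ 1 + 2 * c / κ := by
      have : 0 ≤ 2 * c / κ := by positivity
      linarith
    have h1 : ∑ τ : Fin (j+1) → 𝒯, c ^ (ov' U (fun i => vars (τ i : Finset (X × Bool)))) =
        ∑ T : 𝒯, c ^ (vars (T : Finset (X × Bool)) ∩ U).card *
          ∑ τ : Fin j → 𝒯, c ^ (ov' (U ∪ vars (T : Finset (X × Bool)))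
            (fun i => vars (τ i : Finset (X × Bool)))) := by
      rw [← (Fin.consEquiv (fun _ : Fin (j+1) => (𝒯 : Type _))).sum_comp, Fintype.sum_prod_type]
      apply Finset.sum_congr rfl
      intro T _
      rw [Finset.mul_sum]
      apply Finset.sum_congr rfl
      intro τ _
      rw [ov'_cons, pow_add]
      simp [Fin.consEquiv]
    rw [h1]
    have h2 : ∀ T : 𝒯, c ^ (vars (T : Finset (X × Bool)) ∩ U).card *
          ∑ τ : Fin j → 𝒯, c ^ (ov' (U ∪ vars (T : Finset (X × Bool)))
            (fun i => vars (τ i : Finset (X × Bool)))) ≤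
          c ^ (vars (T : Finset (X × Bool)) ∩ U).card * (3 * (𝒯.card : ℝ)) ^ j := by
      intro T
      gcongr
      apply ih
      have := Finset.card_union_le U (vars (T : Finset (X × Bool)))
      have h3 := card_vars_le (T : Finset (X × Bool))
      rw [hcard T T.2] at h3
      rw [Nat.succ_mul] at hU
      omega
    refine (Finset.sum_le_sum fun T _ => h2 T).trans ?_
    rw [← Finset.sum_mul]
    have h4 : ∑ T : 𝒯, c ^ (vars (T : Finset (X × Bool)) ∩ U).card ≤ 3 * (𝒯.card : ℝ) := by
      rw [Finset.sum_coe_sort 𝒯 (fun T => c ^ (vars T ∩ U).card)]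
      refine (sum_pow_inter_le 𝒯 hκ hc hspread U).trans ?_
      have : (1 + 2 * c / κ) ^ U.card ≤ 3 := by
        refine le_trans (pow_le_pow_right₀ hbase ?_) hB
        omega
      calc (𝒯.card : ℝ) * (1 + 2 * c / κ) ^ U.card ≤ 𝒯.card * 3 := by gcongr
        _ = 3 * (𝒯.card : ℝ) := by ring
    calc (∑ T : 𝒯, c ^ (vars (T : Finset (X × Bool)) ∩ U).card) * (3 * (𝒯.card : ℝ)) ^ j
        ≤ (3 * (𝒯.card : ℝ)) * (3 * (𝒯.card : ℝ)) ^ j := by gcongr
      _ = (3 * (𝒯.card : ℝ)) ^ (j+1) := by ring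

end tuples

section main

variable {Ω : Type*} [Fintype Ω]

theorem one_add_inv_pow_le_three (B : ℕ) : (1 + 1 / (B : ℝ)) ^ B ≤ 3 := by
  rcases Nat.eq_zero_or_pos B with rfl | hB
  · norm_num
  have hB' : (0:ℝ) < B := by exact_mod_cast hB
  have h1 : (1 + 1 / (B : ℝ)) ≤ Real.exp (1 / B) := by
    rw [add_comm]
    exact Real.add_one_le_exp _
  calc (1 + 1 / (B : ℝ)) ^ B ≤ (Real.exp (1 / B)) ^ B := by gcongr
    _ = Real.exp 1 := by
        rw [← Real.exp_nat_mul]
        congr 1
        field_simp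
    _ ≤ 3 := Real.exp_one_lt_three.le

/-- **Robust sunflower lemma for bounded independence.** If `P` is `k*w`-wise independent with
marginals `p`, and `𝒯` is a `κ`-spread family of consistent sets of `r ≤ w` literals, with
`κ ≥ 288 k w / p`, then with probability at least `1 - 2^{-k}` the random set `P` contains
a member of `𝒯`. -/
theorem robust_sunflower (P : Ω → Finset (X × Bool)) {p : ℝ} (hp : 0 < p) (hp1 : p ≤ 1)
    {w k : ℕ} (hk : Even k) (hk0 : 0 < k) (hw0 : 0 < w) (hind : KInd P p (k * w))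
    (𝒯 : Finset (Finset (X × Bool))) (hne : 𝒯.Nonempty) {r : ℕ} (hr : 1 ≤ r) (hrw : r ≤ w)
    (hcard : ∀ T ∈ 𝒯, T.card = r) (hcons : ∀ T ∈ 𝒯, Cons T) {κ : ℝ}
    (hκ : 288 * k * w / p ≤ κ)
    (hspread : ∀ J : Finset (X × Bool),
      ((𝒯.filter (fun T => J ⊆ T)).card : ℝ) * κ ^ J.card ≤ 𝒯.card) :
    pr (fun ω => ∀ T ∈ 𝒯, ¬ T ⊆ P ω) ≤ (1 / 2) ^ k := by
  classical
  have hkpos : (0:ℝ) < k := by exact_mod_cast hk0
  have hwpos : (0:ℝ) < w := by exact_mod_cast hw0
  have hκ0 : 0 < κ := lt_of_lt_of_le (by positivity) hκ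
  have hTpos : (0:ℝ) < 𝒯.card := by exact_mod_cast hne.card_pos
  set ψ : Finset (X × Bool) → Ω → ℝ := fun T ω => ind P (p ^ r)⁻¹ T ω - 1 with hψ
  -- step 1: Markov
  have step1 : pr (fun ω => ∀ T ∈ 𝒯, ¬ T ⊆ P ω) * (𝒯.card : ℝ) ^ k ≤
      ex (fun ω => (∑ T ∈ 𝒯, ψ T ω) ^ k) := by
    rw [mul_comm]
    unfold pr
    rw [← ex_const_mul]
    apply ex_mono
    intro ω
    by_cases h : ∀ T ∈ 𝒯, ¬ T ⊆ P ω
    · rw [if_pos h, mul_one]
      have : ∑ T ∈ 𝒯, ψ T ω = - (𝒯.card : ℝ) := by
        rw [Finset.sum_congr rfl (g := fun _ => (-1:ℝ))]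
        · simp
        · intro T hT
          simp [hψ, ind, h T hT]
      rw [this, hk.neg_pow]
    · rw [if_neg h, mul_zero]
      exact hk.pow_nonneg _
  -- step 2: expand
  have step2 : ex (fun ω => (∑ T ∈ 𝒯, ψ T ω) ^ k) =
      ∑ τ : Fin k → 𝒯, ex (fun ω => ∏ i, ψ (τ i) ω) := by
    have : ∀ ω, (∑ T ∈ 𝒯, ψ T ω) ^ k = ∑ τ : Fin k → 𝒯, ∏ i, ψ (τ i) ω := by
      intro ω
      rw [← Finset.sum_coe_sort 𝒯 (fun T => ψ T ω), Fintype.sum_pow]
    simp_rw [this]
    exact ex_sum _ _
  -- step 3: bound each term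
  have step3 : ∀ τ : Fin k → 𝒯, ex (fun ω => ∏ i, ψ (τ i) ω) ≤
      (1 / 6) ^ k * (144 / p) ^ (ov' ∅ (fun i => vars (τ i : Finset (X × Bool)))) := by
    intro τ
    have hcard' : ∀ i ∈ (univ : Finset (Fin k)), ((τ i : Finset (X × Bool))).card = r :=
      fun i _ => hcard _ (τ i).2
    have hcons' : ∀ i ∈ (univ : Finset (Fin k)), Cons (τ i : Finset (X × Bool)) :=
      fun i _ => hcons _ (τ i).2
    have hsm : (univ : Finset (Fin k)).card * r ≤ k * w := by
      rw [Finset.card_univ, Fintype.card_fin]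
      exact Nat.mul_le_mul_left _ hrw
    have hovov : ov univ (fun i => vars (τ i : Finset (X × Bool))) =
        ov' ∅ (fun i => vars (τ i : Finset (X × Bool))) := by
      simp [ov, ov']
    by_cases hiso : ∃ i₀ : Fin k, ∀ j, j ≠ i₀ →
        Disjoint (vars (τ i₀ : Finset (X × Bool))) (vars (τ j : Finset (X × Bool)))
    · obtain ⟨i₀, h0⟩ := hiso
      have := ex_prod_eq_zero P hp hind (fun i => (τ i : Finset (X × Bool))) univ hcard' hcons' hsm
        i₀ (mem_univ _) (fun j _ hj => h0 j hj)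
      rw [hψ]
      rw [this]
      positivity
    · push Not at hiso
      have h1 := abs_ex_prod_le P hp hp1 hind (fun i => (τ i : Finset (X × Bool))) univ hcard'
        hcons' hsm
      have h2 := card_le_two_mul_ov (univ : Finset (Fin k))
        (fun i => vars (τ i : Finset (X × Bool))) (by
          intro i _
          obtain ⟨j, hj, hd⟩ := hiso i
          exact ⟨j, mem_univ _, hj, hd⟩)
      rw [Finset.card_univ, Fintype.card_fin] at h1 h2
      refine (le_abs_self _).trans (h1.trans ?_)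
      rw [hovov] at h1 h2 ⊢
      set o := ov' ∅ (fun i => vars (τ i : Finset (X × Bool))) with ho
      have e1 : (12:ℝ) ^ k ≤ 144 ^ o := by
        calc (12:ℝ) ^ k ≤ 12 ^ (2 * o) := pow_le_pow_right₀ (by norm_num) h2
          _ = 144 ^ o := by rw [pow_mul]; norm_num
      calc (2:ℝ) ^ k * (p⁻¹) ^ o = (1 / 6) ^ k * ((12:ℝ) ^ k * (p⁻¹) ^ o) := by
            rw [← mul_assoc, ← mul_pow]
            norm_num
        _ ≤ (1 / 6) ^ k * ((144:ℝ) ^ o * (p⁻¹) ^ o) := by gcongr
        _ = (1 / 6) ^ k * (144 / p) ^ o := by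
            rw [← mul_pow, div_eq_mul_inv 144 p]
  -- step 4: sum
  have step4 : ∑ τ : Fin k → 𝒯, (144 / p) ^ (ov' ∅ (fun i => vars (τ i : Finset (X × Bool)))) ≤
      (3 * (𝒯.card : ℝ)) ^ k := by
    apply sum_tuple_le 𝒯 hκ0 (by positivity) hspread hcard (B := k * w)
    · refine le_trans ?_ (one_add_inv_pow_le_three (k * w))
      have : 2 * (144 / p) / κ ≤ 1 / ((k * w : ℕ) : ℝ) := by
        rw [div_le_div_iff₀ hκ0 (by push_cast; positivity)]
        rw [div_le_iff₀ hp] at hκ
        push_cast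
        have e : 2 * (144 / p) * (↑k * ↑w) = (288 * k * w) / p := by
          field_simp
          ring
        rw [e, one_mul, div_le_iff₀ hp]
        exact hκ
      gcongr
    · simp only [Finset.card_empty, zero_add]
      exact Nat.mul_le_mul_left _ hrw
  -- conclusion
  have hfin : pr (fun ω => ∀ T ∈ 𝒯, ¬ T ⊆ P ω) * (𝒯.card : ℝ) ^ k ≤
      (1 / 2) ^ k * (𝒯.card : ℝ) ^ k := by
    refine step1.trans ?_
    rw [step2]
    refine (Finset.sum_le_sum fun τ _ => step3 τ).trans ?_
    rw [← Finset.mul_sum]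
    calc (1 / 6 : ℝ) ^ k * ∑ τ : Fin k → 𝒯,
          (144 / p) ^ (ov' ∅ (fun i => vars (τ i : Finset (X × Bool))))
        ≤ (1 / 6 : ℝ) ^ k * (3 * (𝒯.card : ℝ)) ^ k := by gcongr
      _ = (1 / 2) ^ k * (𝒯.card : ℝ) ^ k := by
          rw [← mul_pow, ← mul_pow]
          congr 1
          ring
  exact le_of_mul_le_mul_right hfin (by positivity)

end main

end Pool.Agent.H24
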