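import Pool.Agent.H24.Levels
import Pool.Agent.H24.NegMono

/-!
A closed family is satisfied by the sparse planted sets at most as often as by the noise
(second moment method).
-/

namespace Pool.Agent.H24

open Finset

set_option linter.unusedSectionVars false

section cs

variable {Ω : Type*} [Fintype Ω]

theorem ex_mul_sq_le (f g : Ω → ℝ) :
    (ex (fun ω => f ω * g ω)) ^ 2 ≤ ex (fun ω => f ω ^ 2) * ex (fun ω => g ω ^ 2) := by
  unfold ex
  rw [div_pow, div_mul_div_comm, ← sq]
  gcongr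
  exact Finset.sum_mul_sq_le_sq_mul_sq univ f g

end cs

section second_moment

variable {X : Type*} [Fintype X] [DecidableEq X] {Ω : Type*} [Fintype Ω]

/-- number of members of a family inside the random set -/
noncomputable def cnt (P : Ω → Finset (X × Bool)) (𝒯 : Finset (Finset (X × Bool))) (ω : Ω) : ℝ :=
  ∑ T ∈ 𝒯, if T ⊆ P ω then (1:ℝ) else 0

theorem ex_ite_eq_pr (E : Ω → Prop) [DecidablePred E] :
    ex (fun ω => if E ω then (1:ℝ) else 0) = pr E := by
  unfold pr
  congr 1
  funext ω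
  congr

/-- **Second moment.** -/
theorem second_moment {P : Ω → Finset (X × Bool)} {p κ : ℝ} {l w : ℕ} (hp : 0 < p)
    (hκ : 0 < κ) (hind : KInd P p (2 * w)) (hlw : l ≤ w)
    (𝒯 : Finset (Finset (X × Bool))) (hcard : ∀ T ∈ 𝒯, T.card = l)
    (hcons : ∀ T ∈ 𝒯, Cons T)
    (hlink : ∀ J : Finset (X × Bool),
      ((𝒯.filter (fun T => J ⊆ T)).card : ℝ) * κ ^ J.card ≤ κ ^ l) :
    (𝒯.card : ℝ) * p ^ l ≤
      pr (fun ω => ∃ T ∈ 𝒯, T ⊆ P ω) * (𝒯.card * p ^ l + (1 + κ * p) ^ l) := by
  classical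
  set π := pr (fun ω => ∃ T ∈ 𝒯, T ⊆ P ω) with hπ
  have hπ0 : 0 ≤ π := pr_nonneg _
  set E1 : ℝ := 𝒯.card * p ^ l with hE1
  have hB : 0 < (1 + κ * p) ^ l := by positivity
  rcases 𝒯.eq_empty_or_nonempty with hem | hne
  · have : E1 = 0 := by rw [hE1, hem]; simp
    rw [this]
    positivity
  have hE1pos : 0 < E1 := by
    have : (0:ℝ) < 𝒯.card := by exact_mod_cast hne.card_pos
    positivity
  -- the first moment
  have h1 : ex (cnt P 𝒯) = E1 := by
    unfold cnt
    rw [ex_sum]
    have : ∀ T ∈ 𝒯, ex (fun ω => if T ⊆ P ω then (1:ℝ) else 0) = p ^ l := by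
      intro T hT
      rw [ex_ite_eq_pr, hind T (by rw [hcard T hT]; omega), if_pos (hcons T hT), hcard T hT]
    rw [Finset.sum_congr rfl this, Finset.sum_const, nsmul_eq_mul]
  -- the second moment
  have h2 : ex (fun ω => cnt P 𝒯 ω ^ 2) ≤ E1 * (E1 + (1 + κ * p) ^ l) := by
    have h3 : ∀ ω, cnt P 𝒯 ω ^ 2 =
        ∑ T ∈ 𝒯, ∑ T' ∈ 𝒯, if T ∪ T' ⊆ P ω then (1:ℝ) else 0 := by
      intro ω
      unfold cnt
      rw [sq, Finset.sum_mul_sum]
      apply Finset.sum_congr rfl
      intro T _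
      apply Finset.sum_congr rfl
      intro T' _
      by_cases h : T ⊆ P ω <;> by_cases h' : T' ⊆ P ω <;> simp [h, h', Finset.union_subset_iff]
    simp_rw [h3]
    rw [ex_sum]
    have h4 : ∀ T ∈ 𝒯, ex (fun ω => ∑ T' ∈ 𝒯, if T ∪ T' ⊆ P ω then (1:ℝ) else 0) ≤
        p ^ l * (E1 + (1 + κ * p) ^ l) := by
      intro T hT
      rw [ex_sum]
      have h5 : ∀ T' ∈ 𝒯, ex (fun ω => if T ∪ T' ⊆ P ω then (1:ℝ) else 0) ≤
          p ^ l * ∑ J ∈ T.powerset, if J ⊆ T' then p ^ (l - J.card) else 0 := by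
        intro T' hT'
        have hc1 := hcard T hT
        have hc2 := hcard T' hT'
        have hle : (T ∪ T').card ≤ 2 * w := (Finset.card_union_le _ _).trans (by omega)
        rw [ex_ite_eq_pr, hind _ hle]
        have h6 : p ^ (T ∪ T').card ≤ p ^ l * ∑ J ∈ T.powerset,
            if J ⊆ T' then p ^ (l - J.card) else 0 := by
          have h7 : (T ∪ T').card = l + (l - (T ∩ T').card) := by
            have h8 := Finset.card_union_add_card_inter T T'
            have h9 : (T ∩ T').card ≤ T'.card := Finset.card_le_card Finset.inter_subset_right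
            omega
          rw [h7, pow_add]
          apply mul_le_mul_of_nonneg_left _ (by positivity)
          have h8 : p ^ (l - (T ∩ T').card) =
              (fun J => if J ⊆ T' then p ^ (l - J.card) else 0) (T ∩ T') := by
            simp only [Finset.inter_subset_right, if_true]
          rw [h8]
          apply Finset.single_le_sum (f := fun J => if J ⊆ T' then p ^ (l - J.card) else 0)
          · intro J _
            split_ifs
            · positivity
            · exact le_refl _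
          · exact Finset.mem_powerset.2 Finset.inter_subset_left
        split_ifs
        · exact h6
        · exact le_trans (by positivity) h6
      refine (Finset.sum_le_sum h5).trans ?_
      rw [← Finset.mul_sum]
      apply mul_le_mul_of_nonneg_left _ (by positivity)
      rw [Finset.sum_comm]
      have h6 : ∀ J ∈ T.powerset, (∑ T' ∈ 𝒯, if J ⊆ T' then p ^ (l - J.card) else 0) ≤
          (if J = ∅ then E1 else 0) + κ ^ (l - J.card) * p ^ (l - J.card) := by
        intro J hJ
        rw [Finset.mem_powerset] at hJ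
        rw [← Finset.sum_filter, Finset.sum_const, nsmul_eq_mul]
        split_ifs with hJe
        · subst hJe
          have : 𝒯.filter (fun T' => (∅ : Finset (X × Bool)) ⊆ T') = 𝒯 := by
            apply Finset.filter_true_of_mem
            intro _ _
            exact Finset.empty_subset _
          rw [this, Finset.card_empty, Nat.sub_zero]
          have : 0 ≤ κ ^ l * p ^ l := by positivity
          linarith
        · rw [zero_add]
          apply mul_le_mul_of_nonneg_right _ (by positivity)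
          have hJl : J.card ≤ l := by
            rw [← hcard T hT]
            exact Finset.card_le_card hJ
          have h7 := hlink J
          have h8 : κ ^ l = κ ^ (l - J.card) * κ ^ J.card := by
            rw [← pow_add]
            congr 1
            omega
          rw [h8] at h7
          exact le_of_mul_le_mul_right h7 (by positivity)
      refine (Finset.sum_le_sum h6).trans ?_
      rw [Finset.sum_add_distrib]
      apply add_le_add
      · rw [Finset.sum_ite_eq' T.powerset ∅ (fun _ => E1), if_pos (Finset.empty_mem_powerset _)]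
      · have h7 : ∑ J ∈ T.powerset, κ ^ (l - J.card) * p ^ (l - J.card) = (1 + κ * p) ^ l := by
          have h8 := Finset.sum_pow_mul_eq_add_pow (1:ℝ) (κ * p) T
          rw [hcard T hT] at h8
          rw [← h8]
          apply Finset.sum_congr rfl
          intro J _
          rw [one_pow, one_mul, mul_pow]
        exact h7.le
    refine (Finset.sum_le_sum h4).trans (le_of_eq ?_)
    rw [Finset.sum_const, nsmul_eq_mul, hE1]
    ring
  -- Cauchy-Schwarz
  have h3 := ex_mul_sq_le (fun ω => cnt P 𝒯 ω) (fun ω => if ∃ T ∈ 𝒯, T ⊆ P ω then (1:ℝ) else 0)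
  have h4 : ex (fun ω => cnt P 𝒯 ω * if ∃ T ∈ 𝒯, T ⊆ P ω then (1:ℝ) else 0) = E1 := by
    rw [← h1]
    congr 1
    funext ω
    by_cases h : ∃ T ∈ 𝒯, T ⊆ P ω
    · rw [if_pos h, mul_one]
    · rw [if_neg h, mul_zero]
      unfold cnt
      symm
      apply Finset.sum_eq_zero
      intro T hT
      rw [if_neg (fun h' => h ⟨T, hT, h'⟩)]
  have h5 : ex (fun ω => (if ∃ T ∈ 𝒯, T ⊆ P ω then (1:ℝ) else 0) ^ 2) = π := by
    rw [hπ, ← ex_ite_eq_pr]
    congr 1
    funext ω
    by_cases h : ∃ T ∈ 𝒯, T ⊆ P ω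
    · rw [if_pos h]; norm_num
    · rw [if_neg h]; norm_num
  rw [h4, h5] at h3
  have h6 : E1 ^ 2 ≤ E1 * (E1 + (1 + κ * p) ^ l) * π :=
    h3.trans (mul_le_mul_of_nonneg_right h2 hπ0)
  have h7 : E1 * E1 ≤ E1 * (π * (E1 + (1 + κ * p) ^ l)) := by
    calc E1 * E1 = E1 ^ 2 := by ring
      _ ≤ E1 * (E1 + (1 + κ * p) ^ l) * π := h6
      _ = E1 * (π * (E1 + (1 + κ * p) ^ l)) := by ring
  exact le_of_mul_le_mul_left h7 hE1pos

variable {P : Ω → Finset (X × Bool)} {G : Finset (X × Bool) → Prop} {w : ℕ} {ε κ : ℝ}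

/-- the sum over the minimal members -/
theorem pr_family_le (hG : AdmPred G w) {A : Finset (Finset (X × Bool))}
    (hadm : ∀ T ∈ A, G T) (hne : ∅ ∉ A) {Q : Ω → Finset (X × Bool)} {q : ℝ}
    (hQ : ∀ T : Finset (X × Bool), G T → T ≠ ∅ → pr (fun ω => T ⊆ Q ω) ≤ q ^ T.card) :
    pr (fun ω => ∃ T ∈ A, T ⊆ Q ω) ≤ ∑ l ∈ Finset.range w,
      (((Mins A).filter (fun T => T.card = l + 1)).card : ℝ) * q ^ (l + 1) := by
  classical
  have h1 : pr (fun ω => ∃ T ∈ A, T ⊆ Q ω) ≤ pr (fun ω => ∃ T ∈ Mins A, T ⊆ Q ω) := by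
    apply pr_mono
    rintro ω ⟨T, hT, hTQ⟩
    obtain ⟨S, hS, hST⟩ := exists_min_subset hT
    exact ⟨S, hS, hST.trans hTQ⟩
  refine h1.trans ((pr_exists_le _ _).trans ?_)
  have hpos : ∀ T ∈ Mins A, 1 ≤ T.card := by
    intro T hT
    rw [Nat.one_le_iff_ne_zero]
    intro h
    rw [Finset.card_eq_zero] at h
    exact hne (h ▸ (Finset.mem_filter.1 hT).1)
  have hmaps : ∀ T ∈ Mins A, T.card - 1 ∈ Finset.range w := by
    intro T hT
    have h2 := hG.card _ (hadm T (Finset.mem_filter.1 hT).1)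
    have h3 := hpos T hT
    rw [Finset.mem_range]
    omega
  rw [← Finset.sum_fiberwise_of_maps_to hmaps]
  apply Finset.sum_le_sum
  intro l _
  have h2 : ∀ T ∈ (Mins A).filter (fun T => T.card - 1 = l),
      pr (fun ω => T ⊆ Q ω) ≤ q ^ (l + 1) := by
    intro T hT
    rw [Finset.mem_filter] at hT
    have h4 := hpos T hT.1
    have h3 : T.card = l + 1 := by omega
    rw [← h3]
    apply hQ T (hadm T (Finset.mem_filter.1 hT.1).1)
    rintro rfl
    simp at h4
  refine (Finset.sum_le_sum h2).trans (le_of_eq ?_)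
  rw [Finset.sum_const, nsmul_eq_mul]
  congr 3
  apply Finset.filter_congr
  intro T hT
  have := hpos T hT
  omega

theorem sum_quarter_le (w : ℕ) : ∑ l ∈ Finset.range w, ((1:ℝ) / 4) ^ (l + 1) ≤ 1 / 3 := by
  have h : ∀ w : ℕ, ∑ l ∈ Finset.range w, ((1:ℝ) / 4) ^ (l + 1) = 1 / 3 - (1 / 3) * (1 / 4) ^ w := by
    intro w
    induction w with
    | zero => simp
    | succ w ih =>
      rw [Finset.sum_range_succ, ih, pow_succ]
      ring
  rw [h]
  have : (0:ℝ) < (1 / 4) ^ w := by positivity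
  linarith

theorem card_mins_pow_le (hG : AdmPred G w) (hκ0 : 0 < κ) (hR : RSP P w ε κ)
    {A : Finset (Finset (X × Bool))} (hA : CF P G ε A) {q : ℝ} (hq : 0 ≤ q)
    (hκq : κ * q ≤ 1 / 4) (l : ℕ) :
    (((Mins A).filter (fun T => T.card = l)).card : ℝ) * q ^ l ≤ (1 / 4) ^ l := by
  have h1 := card_mins_le' hG hκ0 hR hA ∅ l
  rw [Finset.card_empty, pow_zero, mul_one] at h1
  have h2 : (Mins A).filter (fun T => (∅ : Finset (X × Bool)) ⊆ T ∧ T.card = l) =
      (Mins A).filter (fun T => T.card = l) := by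
    apply Finset.filter_congr
    intro T _
    simp
  rw [h2] at h1
  calc (((Mins A).filter (fun T => T.card = l)).card : ℝ) * q ^ l ≤ κ ^ l * q ^ l := by gcongr
    _ = (κ * q) ^ l := by rw [mul_pow]
    _ ≤ (1 / 4) ^ l := by gcongr

/-- **The planted sets satisfy a closed family at most as often as the noise.** -/
theorem planted_le_noise [Nonempty Ω] (hG : AdmPred G w) (hκ0 : 0 < κ) (hR : RSP P w ε κ)
    {p : ℝ} (hp : 0 < p) (hind : KInd P p (2 * w))
    {A : Finset (Finset (X × Bool))} (hA : CF P G ε A) {Q : Ω → Finset (X × Bool)} {q : ℝ}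
    (hq : 0 ≤ q)
    (hQ : ∀ T : Finset (X × Bool), G T → T ≠ ∅ → pr (fun ω => T ⊆ Q ω) ≤ q ^ T.card)
    (hqp : 4 * (q * (1 + κ * p)) ≤ p) :
    pr (fun ω => ∃ T ∈ A, T ⊆ Q ω) ≤ pr (fun ω => ∃ T ∈ A, T ⊆ P ω) := by
  classical
  by_cases hne : ∅ ∈ A
  · have h1 : pr (fun ω => ∃ T ∈ A, T ⊆ P ω) = 1 := by
      rw [← pr_true (Ω := Ω)]
      apply pr_congr
      intro ω
      exact ⟨fun _ => trivial, fun _ => ⟨∅, hne, Finset.empty_subset _⟩⟩
    rw [h1]
    exact pr_le_one _
  set π := pr (fun ω => ∃ T ∈ A, T ⊆ P ω) with hπ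
  have hπ0 : 0 ≤ π := pr_nonneg _
  have hκq : κ * q ≤ 1 / 4 := by
    have h1 : 4 * (κ * q) * p ≤ 1 * p := by
      calc 4 * (κ * q) * p = 4 * (q * (κ * p)) := by ring
        _ ≤ 4 * (q * (1 + κ * p)) := by
            have := hq
            nlinarith
        _ ≤ p := hqp
        _ = 1 * p := by ring
    have h2 := le_of_mul_le_mul_right h1 hp
    linarith
  refine (pr_family_le hG hA.adm hne hQ).trans ?_
  have hterm : ∀ l ∈ Finset.range w,
      (((Mins A).filter (fun T => T.card = l + 1)).card : ℝ) * q ^ (l + 1) ≤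
        2 * π * (1 / 4) ^ (l + 1) := by
    intro l hl
    rw [Finset.mem_range] at hl
    by_cases hbig : 1 / 2 ≤ π
    · refine (card_mins_pow_le hG hκ0 hR hA hq hκq (l + 1)).trans ?_
      have h4 : (0:ℝ) < (1 / 4) ^ (l + 1) := by positivity
      nlinarith
    · push Not at hbig
      set 𝒯 := (Mins A).filter (fun T => T.card = l + 1) with h𝒯
      have hmem : ∀ T ∈ 𝒯, T ∈ A ∧ T.card = l + 1 := by
        intro T hT
        rw [h𝒯, Finset.mem_filter] at hT
        exact ⟨(Finset.mem_filter.1 hT.1).1, hT.2⟩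
      have h1 := second_moment (P := P) (p := p) (κ := κ) (l := l + 1) (w := w) hp hκ0 hind
        (by omega) 𝒯 (fun T hT => (hmem T hT).2) (fun T hT => hG.cons _ (hA.adm _ (hmem T hT).1))
        (by
          intro J
          have h2 := card_mins_le' hG hκ0 hR hA J (l + 1)
          refine le_trans (le_of_eq ?_) h2
          congr 3
          rw [h𝒯, Finset.filter_filter]
          apply Finset.filter_congr
          intro T _
          tauto)
      have h2 : pr (fun ω => ∃ T ∈ 𝒯, T ⊆ P ω) ≤ π := by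
        apply pr_mono
        rintro ω ⟨T, hT, hTP⟩
        exact ⟨T, (hmem T hT).1, hTP⟩
      set E1 : ℝ := 𝒯.card * p ^ (l + 1) with hE1
      set B : ℝ := (1 + κ * p) ^ (l + 1) with hB
      have hE0 : 0 ≤ E1 := by positivity
      have hB0 : 0 < B := by positivity
      have h3 : E1 ≤ π * (E1 + B) :=
        h1.trans (mul_le_mul_of_nonneg_right h2 (by positivity))
      have h4 : E1 ≤ 2 * π * B := by nlinarith
      have hpl : 0 < p ^ (l + 1) := by positivity
      have h5 : ((𝒯.card : ℝ) * q ^ (l + 1)) * p ^ (l + 1) ≤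
          (2 * π * (1 / 4) ^ (l + 1)) * p ^ (l + 1) := by
        calc ((𝒯.card : ℝ) * q ^ (l + 1)) * p ^ (l + 1) = E1 * q ^ (l + 1) := by rw [hE1]; ring
          _ ≤ 2 * π * B * q ^ (l + 1) := by gcongr
          _ = 2 * π * ((1 / 4) * (4 * (q * (1 + κ * p)))) ^ (l + 1) := by
              rw [hB, mul_assoc, ← mul_pow]
              congr 2
              ring
          _ ≤ 2 * π * ((1 / 4) * p) ^ (l + 1) := by gcongr
          _ = (2 * π * (1 / 4) ^ (l + 1)) * p ^ (l + 1) := by rw [mul_pow]; ring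
      exact le_of_mul_le_mul_right h5 hpl
  refine (Finset.sum_le_sum hterm).trans ?_
  rw [← Finset.mul_sum]
  have := sum_quarter_le w
  nlinarith

end second_moment

section level

variable {X : Type} [Fintype X] [DecidableEq X] {Ω : Type*} [Fintype Ω]

/-- **One level.** For a monotone circuit, the planted sets are accepted at most as often as the
noise, up to a small error. -/
theorem level_le [Nonempty Ω] {P Q : ℕ → Ω → Finset (X × Bool)} {G : Finset (X × Bool) → Prop}
    {w : ℕ} {ε η : ℝ} (hS : Sc P Q G w ε η (1 / 2) 1)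
    (hfin : ∀ A : Finset (Finset (X × Bool)), CF (P 0) G ε A →
      pr (fun ω => ∃ T ∈ A, T ⊆ Q 1 ω) ≤ pr (fun ω => ∃ T ∈ A, T ⊆ P 0 ω))
    {t : ℕ} {L : List ((X × Bool → Bool) → Bool)} {F : (X × Bool → Bool) → Bool}
    (hL : NegCircuit t 0 L) (hF : Source L F) :
    pr (fun ω => ev F (Q 1 ω) = true) ≤
      pr (fun ω => ev F (P 0 ω) = true) + 2 * (t * (etaOr G ε + η)) := by
  have he0 := etaOr_nonneg G hS.ε0
  have hη0 := hS.η0
  have h0 : 0 ≤ pr (fun ω => ev F (P 0 ω) = true) := pr_nonneg _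
  by_cases hbig : (1:ℝ) ≤ 2 * (t * (etaOr G ε + η))
  · have := pr_le_one (fun ω => ev F (Q 1 ω) = true)
    linarith
  push Not at hbig
  obtain ⟨a, b, Bad, hab, hbR, hlen, hpr, hrep⟩ := sc_induction hS hL 0 (le_refl 0)
    (by norm_num) (by push_cast; linarith)
  have ha : a = 0 ∧ b = 1 := by simp at hlen; omega
  obtain ⟨rfl, rfl⟩ := ha
  obtain ⟨mm, hmm, hrepF⟩ := rp_of_source hS hbR Bad hrep hF
  obtain ⟨A, hA, hAω⟩ := hrepF 0 (le_refl _) (by norm_num)
  have hpr' : pr Bad ≤ t * (etaOr G ε + η) := by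
    refine hpr.trans (le_of_eq ?_)
    push_cast
    ring
  have h1 : pr (fun ω => ev F (Q 1 ω) = true) ≤ pr Bad + pr (fun ω => ∃ T ∈ A, T ⊆ Q 1 ω) := by
    refine le_trans (pr_mono ?_) (pr_or_le _ _)
    intro ω h2
    by_cases hω : Bad ω
    · exact Or.inl hω
    · exact Or.inr ((hAω ω hω).2.2.2 h2)
  have h2 : pr (fun ω => ∃ T ∈ A, T ⊆ P 0 ω) ≤ pr Bad + pr (fun ω => ev F (P 0 ω) = true) := by
    refine le_trans (pr_mono ?_) (pr_or_le _ _)
    intro ω h2
    by_cases hω : Bad ω
    · exact Or.inl hω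
    · exact Or.inr ((hAω ω hω).2.2.1 h2)
  have h3 := hfin A hA
  linarith

end level

end Pool.Agent.H24
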