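import Pool.Agent.H24.NegMono

/-!
A sharper count of the monotone functions attached to a circuit with `r` NOT gates: the input of
the `j`-th NOT gate only depends on the outputs of the earlier ones, so that `2 ^ (r + 1) - 1`
functions suffice.
-/

namespace Pool.Agent.H24

open Finset

set_option linter.unusedSectionVars false

variable {V : Type}

theorem neg_to_mono2 {t r : ℕ} {L : List ((V → Bool) → Bool)} (h : NegCircuit t r L) :
    ∃ (L' : List ((V ⊕ Fin r → Bool) → Bool)) (h' : Fin r → (V ⊕ Fin r → Bool) → Bool),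
      NegCircuit t 0 L' ∧ (∀ j, Source L' (h' j)) ∧
      (∀ x : V → Bool, ∃ b : Fin r → Bool, ∀ j, b j = !(h' j (ext x b))) ∧
      (∀ u, Source L u → ∃ u', Source L' u' ∧
        ∀ x b, (∀ j, b j = !(h' j (ext x b))) → u x = u' (ext x b)) ∧
      (∀ (j : Fin r) (x : V → Bool) (b b' : Fin r → Bool), (∀ i, i < j → b i = b' i) →
        h' j (ext x b) = h' j (ext x b')) := by
  induction h with
  | nil =>
    refine ⟨[], fun j => Fin.elim0 j, NegCircuit.nil, fun j => Fin.elim0 j,
      fun x => ⟨fun j => Fin.elim0 j, fun j => Fin.elim0 j⟩, ?_, fun j => Fin.elim0 j⟩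
    intro u hu
    rcases hu with ⟨v, rfl⟩ | ⟨c, rfl⟩ | hu
    · exact ⟨fun a => a (Sum.inl v), Or.inl ⟨_, rfl⟩, fun x b _ => rfl⟩
    · exact ⟨fun _ => c, Or.inr (Or.inl ⟨c, rfl⟩), fun x b _ => rfl⟩
    · simp at hu
  | @and t r L u v hL hu hv ih =>
    obtain ⟨L', h', hL', hh', hex, hsrc, hdep⟩ := ih
    obtain ⟨u', hu', huu⟩ := hsrc u hu
    obtain ⟨v', hv', hvv⟩ := hsrc v hv
    refine ⟨(fun a => u' a && v' a) :: L', h', NegCircuit.and hL' hu' hv', ?_, hex, ?_, hdep⟩
    · intro j
      rcases hh' j with h | h | h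
      · exact Or.inl h
      · exact Or.inr (Or.inl h)
      · exact Or.inr (Or.inr (List.mem_cons_of_mem _ h))
    · intro g hg
      rcases hg with ⟨w, rfl⟩ | ⟨c, rfl⟩ | hg
      · exact ⟨fun a => a (Sum.inl w), Or.inl ⟨_, rfl⟩, fun x b _ => rfl⟩
      · exact ⟨fun _ => c, Or.inr (Or.inl ⟨c, rfl⟩), fun x b _ => rfl⟩
      · rw [List.mem_cons] at hg
        rcases hg with rfl | hg
        · refine ⟨fun a => u' a && v' a, Or.inr (Or.inr (by simp)), fun x b hb => ?_⟩
          simp only
          rw [huu x b hb, hvv x b hb]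
        · obtain ⟨g', hg', hgg⟩ := hsrc g (Or.inr (Or.inr hg))
          refine ⟨g', ?_, hgg⟩
          rcases hg' with h | h | h
          · exact Or.inl h
          · exact Or.inr (Or.inl h)
          · exact Or.inr (Or.inr (List.mem_cons_of_mem _ h))
  | @or t r L u v hL hu hv ih =>
    obtain ⟨L', h', hL', hh', hex, hsrc, hdep⟩ := ih
    obtain ⟨u', hu', huu⟩ := hsrc u hu
    obtain ⟨v', hv', hvv⟩ := hsrc v hv
    refine ⟨(fun a => u' a || v' a) :: L', h', NegCircuit.or hL' hu' hv', ?_, hex, ?_, hdep⟩
    · intro j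
      rcases hh' j with h | h | h
      · exact Or.inl h
      · exact Or.inr (Or.inl h)
      · exact Or.inr (Or.inr (List.mem_cons_of_mem _ h))
    · intro g hg
      rcases hg with ⟨w, rfl⟩ | ⟨c, rfl⟩ | hg
      · exact ⟨fun a => a (Sum.inl w), Or.inl ⟨_, rfl⟩, fun x b _ => rfl⟩
      · exact ⟨fun _ => c, Or.inr (Or.inl ⟨c, rfl⟩), fun x b _ => rfl⟩
      · rw [List.mem_cons] at hg
        rcases hg with rfl | hg
        · refine ⟨fun a => u' a || v' a, Or.inr (Or.inr (by simp)), fun x b hb => ?_⟩
          simp only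
          rw [huu x b hb, hvv x b hb]
        · obtain ⟨g', hg', hgg⟩ := hsrc g (Or.inr (Or.inr hg))
          refine ⟨g', ?_, hgg⟩
          rcases hg' with h | h | h
          · exact Or.inl h
          · exact Or.inr (Or.inl h)
          · exact Or.inr (Or.inr (List.mem_cons_of_mem _ h))
  | @not t r L u hL hu ih =>
    obtain ⟨L', h', hL', hh', hex, hsrc, hdep⟩ := ih
    obtain ⟨u', hu', huu⟩ := hsrc u hu
    -- forget the last additional input
    let θ : (V ⊕ Fin (r + 1) → Bool) → (V ⊕ Fin r → Bool) :=
      fun y => Sum.elim (fun v => y (Sum.inl v)) (fun j => y (Sum.inr (Fin.castSucc j)))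
    have hθ : ∀ v', (∃ v, (fun a => θ a v') = fun a => a v) ∨
        ∃ c : Bool, (fun a => θ a v') = fun _ => c := by
      intro v'
      left
      rcases v' with v | j
      · exact ⟨Sum.inl v, rfl⟩
      · exact ⟨Sum.inr (Fin.castSucc j), rfl⟩
    have hθe : ∀ (x : V → Bool) (b : Fin (r + 1) → Bool),
        θ (ext x b) = ext x (fun j => b (Fin.castSucc j)) := by
      intro x b
      funext v'
      rcases v' with v | j <;> rfl
    refine ⟨L'.map (fun g => fun a => g (θ a)),
      Fin.snoc (α := fun _ => (V ⊕ Fin (r + 1) → Bool) → Bool) (fun j a => h' j (θ a))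
        (fun a => u' (θ a)), circuit_subst θ hθ hL', ?_, ?_, ?_, ?_⟩
    · intro j
      refine Fin.lastCases ?_ (fun j => ?_) j
      · rw [Fin.snoc_last]
        exact source_subst θ hθ hu'
      · rw [Fin.snoc_castSucc]
        exact source_subst θ hθ (hh' j)
    · intro x
      obtain ⟨b, hb⟩ := hex x
      refine ⟨Fin.snoc (α := fun _ => Bool) b (!(u' (ext x b))), ?_⟩
      have e1 : θ (ext x (Fin.snoc (α := fun _ => Bool) b (!(u' (ext x b))))) = ext x b := by
        rw [hθe]
        congr 1
        funext j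
        simp
      intro j
      refine Fin.lastCases ?_ (fun j => ?_) j
      · rw [Fin.snoc_last, Fin.snoc_last, e1]
      · rw [Fin.snoc_castSucc, Fin.snoc_castSucc, e1]
        exact hb j
    · intro g hg
      have hold : ∀ x (b : Fin (r + 1) → Bool), (∀ j, b j = !((Fin.snoc
          (α := fun _ => (V ⊕ Fin (r + 1) → Bool) → Bool) (fun j a => h' j (θ a))
          (fun a => u' (θ a)) : Fin (r + 1) → _) j (ext x b))) →
          (∀ j : Fin r, b (Fin.castSucc j) = !(h' j (ext x (fun j => b (Fin.castSucc j))))) ∧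
            b (Fin.last r) = !(u' (ext x (fun j => b (Fin.castSucc j)))) := by
        intro x b hb
        constructor
        · intro j
          have := hb (Fin.castSucc j)
          rw [Fin.snoc_castSucc, hθe] at this
          exact this
        · have := hb (Fin.last r)
          rw [Fin.snoc_last, hθe] at this
          exact this
      have hlift : ∀ g, Source L g → ∃ g', Source (L'.map (fun g => fun a => g (θ a))) g' ∧
          ∀ x (b : Fin (r + 1) → Bool), (∀ j, b j = !((Fin.snoc
            (α := fun _ => (V ⊕ Fin (r + 1) → Bool) → Bool) (fun j a => h' j (θ a))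
            (fun a => u' (θ a)) : Fin (r + 1) → _) j (ext x b))) → g x = g' (ext x b) := by
        intro g hg
        obtain ⟨g', hg', hgg⟩ := hsrc g hg
        refine ⟨fun a => g' (θ a), source_subst θ hθ hg', fun x b hb => ?_⟩
        rw [hgg x _ (hold x b hb).1]
        simp only [hθe]
      rcases hg with ⟨w, rfl⟩ | ⟨c, rfl⟩ | hg
      · exact hlift _ (Or.inl ⟨w, rfl⟩)
      · exact hlift _ (Or.inr (Or.inl ⟨c, rfl⟩))
      · rw [List.mem_cons] at hg
        rcases hg with rfl | hg
        · refine ⟨fun a => a (Sum.inr (Fin.last r)), Or.inl ⟨_, rfl⟩, fun x b hb => ?_⟩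
          obtain ⟨h1, h2⟩ := hold x b hb
          simp only
          rw [huu x _ h1, ← h2]
          rfl
        · exact hlift _ (Or.inr (Or.inr hg))
    · intro j x b b'
      refine Fin.lastCases ?_ (fun j => ?_) j
      · intro hbb
        rw [Fin.snoc_last, hθe, hθe]
        have : (fun j : Fin r => b (Fin.castSucc j)) = fun j => b' (Fin.castSucc j) := by
          funext j
          exact hbb _ (Fin.castSucc_lt_last j)
        rw [this]
      · intro hbb
        rw [Fin.snoc_castSucc, hθe, hθe]
        exact hdep j x _ _ (fun i hi => hbb _ (by simpa using hi))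

/-- the indices of the monotone functions: for the `j`-th NOT gate only the bits before `j`
matter -/
def Idx (r : ℕ) : Finset ((Fin r → Bool) × Option (Fin r)) :=
  univ.filter (fun p => ∀ j, p.2 = some j → ∀ i, j ≤ i → p.1 i = false)

theorem card_prefix_le (r : ℕ) (j : Fin r) :
    (univ.filter (fun b : Fin r → Bool => ∀ i, j ≤ i → b i = false)).card ≤ 2 ^ (j : ℕ) := by
  have h1 : (univ : Finset (Fin (j : ℕ) → Bool)).card = 2 ^ (j : ℕ) := by simp
  rw [← h1]
  refine Finset.card_le_card_of_injOn (fun b i => b (Fin.castLE j.2.le i)) (fun _ _ => by simp) ?_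
  intro b hb b' hb' h
  have hb1 := (Finset.mem_filter.1 (Finset.mem_coe.1 hb)).2
  have hb1' := (Finset.mem_filter.1 (Finset.mem_coe.1 hb')).2
  funext i
  by_cases hi : j ≤ i
  · rw [hb1 i hi, hb1' i hi]
  · have hlt : (i : ℕ) < j := by
      rw [not_le] at hi
      exact hi
    have := congrFun h ⟨i, hlt⟩
    simpa using this

theorem card_Idx_le (r : ℕ) : (Idx r).card ≤ 2 * 2 ^ r := by
  classical
  have h1 : Idx r ⊆ (univ : Finset (Option (Fin r))).biUnion (fun o =>
      (univ.filter (fun b : Fin r → Bool => ∀ j, o = some j → ∀ i, j ≤ i → b i = false)).image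
        (fun b => (b, o))) := by
    rintro ⟨b, o⟩ hp
    rw [Idx, Finset.mem_filter] at hp
    rw [Finset.mem_biUnion]
    refine ⟨o, mem_univ _, Finset.mem_image.2 ⟨b, ?_, rfl⟩⟩
    rw [Finset.mem_filter]
    exact ⟨mem_univ _, hp.2⟩
  have h2 : ∀ o : Option (Fin r), ((univ.filter (fun b : Fin r → Bool =>
      ∀ j, o = some j → ∀ i, j ≤ i → b i = false)).image (fun b => (b, o))).card ≤
      (match o with | none => 2 ^ r | some j => 2 ^ (j : ℕ)) := by
    intro o
    refine Finset.card_image_le.trans ?_
    cases o with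
    | none =>
      refine (Finset.card_filter_le _ _).trans ?_
      simp
    | some j =>
      refine le_trans (Finset.card_le_card ?_) (card_prefix_le r j)
      intro b hb
      rw [Finset.mem_filter] at hb ⊢
      exact ⟨mem_univ _, hb.2 j rfl⟩
  refine (Finset.card_le_card h1).trans ((Finset.card_biUnion_le).trans
    ((Finset.sum_le_sum (fun o _ => h2 o)).trans ?_))
  rw [Fintype.sum_option]
  simp only
  rw [Fin.sum_univ_eq_sum_range (fun i => 2 ^ i) r]
  have h3 : ∑ i ∈ range r, 2 ^ i < 2 ^ r := Nat.geomSum_lt (by norm_num) (fun i hi => by simpa using hi)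
  omega

/-- The monotone functions obtained by fixing the outputs of the NOT gates: `Idx r` indexes at
most `2 * 2 ^ r` functions of monotone circuits of the same size such that at any two inputs at
which the function of the original circuit differs, one of them differs. -/
theorem neg_family2 {t r : ℕ} {L : List ((V → Bool) → Bool)} (h : NegCircuit t r L)
    {F : (V → Bool) → Bool} (hF : Source L F) :
    ∃ 𝒢 : (Fin r → Bool) × Option (Fin r) → (V → Bool) → Bool,
      (∀ p, ∃ L' : List ((V → Bool) → Bool), NegCircuit t 0 L' ∧ Source L' (𝒢 p)) ∧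
      ∀ x y : V → Bool, F x ≠ F y → ∃ p ∈ Idx r, 𝒢 p x ≠ 𝒢 p y := by
  obtain ⟨L', h', hL', hh', hex, hsrc, hdep⟩ := neg_to_mono2 h
  obtain ⟨F', hF', hFF⟩ := hsrc F hF
  have hθ : ∀ b : Fin r → Bool, ∀ v', (∃ v, (fun a : V → Bool => ext a b v') = fun a => a v) ∨
      ∃ c : Bool, (fun a : V → Bool => ext a b v') = fun _ => c := by
    intro b v'
    rcases v' with v | j
    · exact Or.inl ⟨v, rfl⟩
    · exact Or.inr ⟨b j, rfl⟩
  refine ⟨fun p x => match p.2 with
    | none => F' (ext x p.1)
    | some j => h' j (ext x p.1), ?_, ?_⟩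
  · rintro ⟨b, j⟩
    refine ⟨_, circuit_subst (fun a => ext a b) (hθ b) hL', ?_⟩
    cases j with
    | none => exact source_subst (fun a => ext a b) (hθ b) hF'
    | some j => exact source_subst (fun a => ext a b) (hθ b) (hh' j)
  · intro x y hxy
    obtain ⟨b, hb⟩ := hex x
    by_cases hall : ∀ j, h' j (ext x b) = h' j (ext y b)
    · refine ⟨(b, none), ?_, ?_⟩
      · rw [Idx, Finset.mem_filter]
        exact ⟨mem_univ _, fun j hj => by simp at hj⟩
      · have h1 := hFF x b hb
        have h2 := hFF y b (fun j => by rw [← hall j]; exact hb j)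
        simp only
        rw [← h1, ← h2]
        exact hxy
    · push Not at hall
      obtain ⟨j, hj⟩ := hall
      have hpre : ∀ i, i < j → b i = (fun i => if i < j then b i else false) i := by
        intro i hi
        simp [hi]
      refine ⟨((fun i => if i < j then b i else false), some j), ?_, ?_⟩
      · rw [Idx, Finset.mem_filter]
        refine ⟨mem_univ _, fun j' hj' i hi => ?_⟩
        simp only [Option.some.injEq] at hj'
        subst hj'
        simp [not_lt.2 hi]
      · simp only
        rw [← hdep j x b _ hpre, ← hdep j y b _ hpre]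
        exact hj

end Pool.Agent.H24
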