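import Pool.Agent.H24.TabD

/-!
Choice of the parameters.
-/

namespace Pool.Agent.H24

theorem poly_exp (c a : ℕ) : ∃ h0 : ℕ, ∀ h, h0 ≤ h → c * h ^ a ≤ 2 ^ h := by
  have h1 := tendsto_pow_const_div_const_pow_of_one_lt a (r := (2:ℝ)) (by norm_num)
  have h2 : ∀ᶠ n : ℕ in Filter.atTop, (n:ℝ) ^ a / 2 ^ n < 1 / ((c:ℝ) + 1) := by
    have h3 := h1.eventually (gt_mem_nhds (show (0:ℝ) < 1 / ((c:ℝ) + 1) by positivity))
    exact h3
  obtain ⟨h0, hh⟩ := Filter.eventually_atTop.1 h2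
  refine ⟨h0, fun h hle => ?_⟩
  have h4 := hh h hle
  rw [div_lt_div_iff₀ (by positivity) (by positivity), one_mul] at h4
  have h5 : ((c * h ^ a : ℕ) : ℝ) ≤ ((2 ^ h : ℕ) : ℝ) := by
    push_cast
    have h6 : (0:ℝ) ≤ (h:ℝ) ^ a := by positivity
    nlinarith
  exact_mod_cast h5

theorem param_exists (b : ℕ) (hb : 1 ≤ b) : ∃ N0 C1 : ℕ, ∀ V, N0 ≤ V → ∃ k h w,
    ParD (20 * b) k h w ∧ 2 * ((20 * b) * 2 ^ k) + (20 * b) * (2 * h) ≤ V ∧
      4 * b * V ≤ 4 * b * (2 * h * (20 * b - 5)) + 3 * V ∧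
      V * Nat.log 2 V ≤ C1 * (h * (w - 2 * (20 * b))) := by
  set D := 20 * b with hD
  set A := 4 * (3 * D) ^ (D + 1) with hA
  set P := 8 * b * D with hP
  have hD20 : 20 ≤ D := by omega
  have hA1 : 1 ≤ A := Nat.one_le_iff_ne_zero.2 (by positivity)
  have hP1 : 1 ≤ P := Nat.one_le_iff_ne_zero.2 (by positivity)
  obtain ⟨h1, hh1⟩ := poly_exp (82944 * (2 * D + 5) * 2 ^ (D - 2)) (D + 1)
  obtain ⟨h2, hh2⟩ := poly_exp (8 * D * D) 1
  obtain ⟨h3, hh3⟩ := poly_exp (48 * D) 1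
  -- the threshold
  refine ⟨2 ^ (2 * P + 8 * D * A + h1 + h2 + h3 + 8 * D * (h1 + h2 + 2)), 64 * A * D, ?_⟩
  intro V hV
  set ℓ := Nat.log 2 V with hℓ
  have hV0 : V ≠ 0 := by
    have : 0 < 2 ^ (2 * P + 8 * D * A + h1 + h2 + h3 + 8 * D * (h1 + h2 + 2)) := by positivity
    omega
  have hℓV : 2 ^ ℓ ≤ V := Nat.pow_log_le_self 2 hV0
  have hℓbig : 2 * P + 8 * D * A + h1 + h2 + h3 + 8 * D * (h1 + h2 + 2) ≤ ℓ :=
    (Nat.le_log_iff_pow_le (by norm_num) hV0).2 hV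
  have hℓle : ℓ ≤ V := (Nat.lt_two_pow_self (n := ℓ)).le.trans hℓV
  set k := Nat.log 2 (V / P) with hk
  set w := k / A with hw
  set h := (V - V / (4 * b)) / (2 * D) with hh
  have hDP : 0 < D * A := by positivity
  -- bounds on `k`
  have hPP : P ≤ 2 ^ P := (Nat.lt_two_pow_self (n := P)).le
  have hVP : 2 ^ (ℓ - P) ≤ V / P := by
    rw [Nat.le_div_iff_mul_le hP1]
    calc 2 ^ (ℓ - P) * P ≤ 2 ^ (ℓ - P) * 2 ^ P := Nat.mul_le_mul_left _ hPP
      _ = 2 ^ ℓ := by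
          rw [← pow_add]
          congr 1
          omega
      _ ≤ V := hℓV
  have hVP0 : V / P ≠ 0 := by
    have : 0 < 2 ^ (ℓ - P) := by positivity
    omega
  have hkℓ : ℓ - P ≤ k := (Nat.le_log_iff_pow_le (by norm_num) hVP0).2 hVP
  have hkV : 2 ^ k ≤ V / P := Nat.pow_log_le_self 2 hVP0
  have hkle : k ≤ ℓ := Nat.log_mono_right (Nat.div_le_self _ _)
  have hk2 : ℓ ≤ 2 * k := by omega
  have hkbig : 4 * D * A ≤ k := by
    have : 8 * D * A = 2 * (4 * D * A) := by ring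
    omega
  -- bounds on `w`
  have hwk : A * w ≤ k := Nat.mul_div_le _ _
  have hwk2 : k < A * (w + 1) := by
    have := Nat.lt_mul_div_succ k (show 0 < A by omega)
    exact this
  have hw4 : 4 * D ≤ w := by
    rw [hw, Nat.le_div_iff_mul_le (by omega)]
    exact hkbig
  have hwlek : w ≤ k := Nat.div_le_self _ _
  have hkw : k ≤ 4 * A * (w - 2 * D) := by
    have e1 : w + 1 ≤ 4 * (w - 2 * D) := by omega
    calc k ≤ A * (w + 1) := hwk2.le
      _ ≤ A * (4 * (w - 2 * D)) := Nat.mul_le_mul_left _ e1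
      _ = 4 * A * (w - 2 * D) := by ring
  -- bounds on `h`
  have hVb : V / (4 * b) ≤ V / 4 := Nat.div_le_div_left (by omega) (by norm_num)
  have hDh : 2 * D * h ≤ V - V / (4 * b) := Nat.mul_div_le _ _
  have hDh2 : V - V / (4 * b) < 2 * D * (h + 1) :=
    Nat.lt_mul_div_succ _ (show 0 < 2 * D by omega)
  have hVh : V ≤ 4 * D * (h + 1) := by
    have e1 : 2 * (2 * D * (h + 1)) = 4 * D * (h + 1) := by ring
    omega
  have hhbig : h1 + h2 + 1 ≤ h := by
    by_contra hlt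
    push Not at hlt
    have e1 : V < 4 * D * (h1 + h2 + 2) := by
      refine lt_of_le_of_lt hVh ?_
      apply Nat.mul_lt_mul_of_pos_left _ (by omega)
      omega
    have e2 : 4 * D * (h1 + h2 + 2) ≤ 8 * D * (h1 + h2 + 2) := by
      have : 8 * D * (h1 + h2 + 2) = 2 * (4 * D * (h1 + h2 + 2)) := by ring
      omega
    omega
  have hVh8 : V ≤ 8 * D * h := by
    have e1 : 8 * D * h = 4 * D * (h + h) := by ring
    rw [e1]
    exact hVh.trans (Nat.mul_le_mul_left _ (by omega))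
  have hwh : 3 * w ≤ h := by
    have e1 : 48 * D * ℓ ≤ V := by
      have := hh3 ℓ (by omega)
      rw [pow_one] at this
      exact this.trans hℓV
    have e2 : 8 * D * (6 * ℓ) ≤ 8 * D * h := by
      calc 8 * D * (6 * ℓ) = 48 * D * ℓ := by ring
        _ ≤ V := e1
        _ ≤ 8 * D * h := hVh8
    have e3 : 6 * ℓ ≤ h := Nat.le_of_mul_le_mul_left e2 (by omega)
    omega
  refine ⟨k, h, w, ⟨by omega, by omega, ?_, ?_, hwh, ?_, ?_⟩, ?_, ?_, ?_⟩
  · have : 0 < 4 * D * A := by positivity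
    omega
  · calc 2 * (3 * D) ^ (D + 1) * (2 * w) = A * w := by rw [hA]; ring
      _ ≤ k := hwk
  · have e1 := hh1 h (by omega)
    refine le_trans ?_ e1
    have e2 : D + 1 = 2 + 1 + (D - 2) := by omega
    calc 82944 * w ^ 2 * (h * (2 * D + 5)) * (2 * h) ^ (D - 2)
        ≤ 82944 * h ^ 2 * (h * (2 * D + 5)) * (2 * h) ^ (D - 2) := by
          gcongr
          omega
      _ = 82944 * (2 * D + 5) * 2 ^ (D - 2) * h ^ (2 + 1 + (D - 2)) := by
          rw [mul_pow, pow_add, pow_add]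
          ring
      _ = 82944 * (2 * D + 5) * 2 ^ (D - 2) * h ^ (D + 1) := by rw [← e2]
  · have e1 := hh2 h (by omega)
    rw [pow_one] at e1
    calc D * k ≤ D * (8 * D * h) := Nat.mul_le_mul_left _ (hkle.trans (hℓle.trans hVh8))
      _ = 8 * D * D * h := by ring
      _ ≤ 2 ^ h := e1
  · have e1 : 2 * (D * 2 ^ k) ≤ V / (4 * b) := by
      have e2 : V / P = V / (4 * b) / (2 * D) := by
        rw [Nat.div_div_eq_div_mul, hP]
        congr 1
        ring
      rw [e2] at hkV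
      calc 2 * (D * 2 ^ k) = 2 * D * 2 ^ k := by ring
        _ ≤ 2 * D * (V / (4 * b) / (2 * D)) := Nat.mul_le_mul_left _ hkV
        _ ≤ V / (4 * b) := Nat.mul_div_le _ _
    have e3 : D * (2 * h) = 2 * D * h := by ring
    have e4 : V / (4 * b) ≤ V := Nat.div_le_self _ _
    omega
  · -- the number of NOT gates
    have e1 : 4 * b * (V / (4 * b)) ≤ V := Nat.mul_div_le _ _
    have e2 : V / (4 * b) ≤ V := Nat.div_le_self _ _
    have e3 : V + 0 ≤ 2 * D * (h + 1) + V / (4 * b) := by omega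
    have e4 : 10 * h * (4 * b) ≤ V := by
      calc 10 * h * (4 * b) = 2 * D * h := by rw [hD]; ring
        _ ≤ V - V / (4 * b) := hDh
        _ ≤ V := Nat.sub_le _ _
    have e5 : 4 * b * (2 * h * (D - 5)) + 10 * h * (4 * b) = 4 * b * (2 * D * h) := by
      obtain ⟨d, hd⟩ : ∃ d, D = d + 5 := ⟨D - 5, by omega⟩
      have : D - 5 = d := by omega
      rw [this, hd]
      ring
    have e6 : 8 * b * D ≤ V := by
      have : P ≤ V := by omega
      rw [hP] at this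
      exact this
    have e7 : 4 * b * V ≤ 4 * b * (2 * D * (h + 1) + V / (4 * b)) :=
      Nat.mul_le_mul_left _ (by omega)
    have e8 : 4 * b * (2 * D * (h + 1) + V / (4 * b)) =
        4 * b * (2 * D * h) + 8 * b * D + 4 * b * (V / (4 * b)) := by ring
    omega
  · calc V * ℓ ≤ (8 * D * h) * (2 * (4 * A * (w - 2 * D))) :=
          Nat.mul_le_mul hVh8 (hk2.trans (Nat.mul_le_mul_left _ hkw))
      _ = 64 * A * D * (h * (w - 2 * D)) := by ring

end Pool.Agent.H24
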