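import Mathlib

/-!
Uniform probability on a finite type, used for the lower bound on Partial MCSP.
-/

namespace Pool.Agent.H24

open Finset

/-- Expectation (average) of a real function over a finite type. -/
noncomputable def ex {Ω : Type*} [Fintype Ω] (f : Ω → ℝ) : ℝ :=
  (∑ ω, f ω) / (Fintype.card Ω : ℝ)

open Classical in
/-- Probability of an event under the uniform distribution. -/
noncomputable def pr {Ω : Type*} [Fintype Ω] (E : Ω → Prop) : ℝ :=
  ex (fun ω => if E ω then (1:ℝ) else 0)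

section
variable {Ω : Type*} [Fintype Ω]

theorem ex_add (f g : Ω → ℝ) : ex (fun ω => f ω + g ω) = ex f + ex g := by
  simp [ex, Finset.sum_add_distrib, add_div]

theorem ex_sub (f g : Ω → ℝ) : ex (fun ω => f ω - g ω) = ex f - ex g := by
  simp [ex, Finset.sum_sub_distrib, sub_div]

theorem ex_const_mul (c : ℝ) (f : Ω → ℝ) : ex (fun ω => c * f ω) = c * ex f := by
  simp [ex, ← Finset.mul_sum, mul_div_assoc]

theorem ex_sum {ι : Type*} (s : Finset ι) (f : ι → Ω → ℝ) :
    ex (fun ω => ∑ i ∈ s, f i ω) = ∑ i ∈ s, ex (f i) := by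
  simp only [ex]
  rw [Finset.sum_comm, Finset.sum_div]

theorem ex_mono {f g : Ω → ℝ} (h : ∀ ω, f ω ≤ g ω) : ex f ≤ ex g := by
  unfold ex
  gcongr with i
  exact h i

theorem ex_nonneg {f : Ω → ℝ} (h : ∀ ω, 0 ≤ f ω) : 0 ≤ ex f := by
  unfold ex
  exact div_nonneg (Finset.sum_nonneg fun i _ => h i) (Nat.cast_nonneg _)

theorem ex_const [Nonempty Ω] (c : ℝ) : ex (fun _ : Ω => c) = c := by
  have hpos : (0:ℝ) < Fintype.card Ω := by exact_mod_cast Fintype.card_pos
  unfold ex
  simp only [sum_const, card_univ, nsmul_eq_mul]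
  field_simp

theorem abs_ex_le (f : Ω → ℝ) : |ex f| ≤ ex (fun ω => |f ω|) := by
  unfold ex
  rw [abs_div, Nat.abs_cast]
  gcongr
  exact Finset.abs_sum_le_sum_abs _ _

theorem pr_nonneg (E : Ω → Prop) : 0 ≤ pr E := by
  apply ex_nonneg
  intro ω
  split_ifs <;> norm_num

theorem pr_mono {E F : Ω → Prop} (h : ∀ ω, E ω → F ω) : pr E ≤ pr F := by
  apply ex_mono
  intro ω
  by_cases hE : E ω
  · simp [hE, h ω hE]
  · simp only [hE, if_false]
    split_ifs <;> norm_num

theorem pr_congr {E F : Ω → Prop} (h : ∀ ω, E ω ↔ F ω) : pr E = pr F := by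
  congr 1
  ext ω
  exact h ω

theorem pr_or_le (E F : Ω → Prop) : pr (fun ω => E ω ∨ F ω) ≤ pr E + pr F := by
  unfold pr
  rw [← ex_add]
  apply ex_mono
  intro ω
  by_cases hE : E ω <;> by_cases hF : F ω <;> simp [hE, hF]

theorem pr_false : pr (fun _ : Ω => False) = 0 := by
  simp [pr, ex]

theorem pr_true [Nonempty Ω] : pr (fun _ : Ω => True) = 1 := by
  simp [pr, ex_const]

theorem pr_le_one (E : Ω → Prop) : pr E ≤ 1 := by
  rcases isEmpty_or_nonempty Ω with h | h
  · simp [pr, ex]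
  · rw [← pr_true (Ω := Ω)]
    exact pr_mono (fun _ _ => trivial)

theorem pr_exists_le {ι : Type*} (s : Finset ι) (E : ι → Ω → Prop) :
    pr (fun ω => ∃ i ∈ s, E i ω) ≤ ∑ i ∈ s, pr (E i) := by
  classical
  induction s using Finset.induction_on with
  | empty => simp [pr_false]
  | insert a s ha ih =>
    rw [Finset.sum_insert ha]
    refine le_trans (le_trans (pr_mono (F := fun ω => E a ω ∨ ∃ i ∈ s, E i ω) ?_) (pr_or_le _ _)) ?_
    · rintro ω ⟨i, hi, h⟩
      rcases Finset.mem_insert.1 hi with rfl | hi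
      · exact Or.inl h
      · exact Or.inr ⟨i, hi, h⟩
    · linarith

theorem pr_compl [Nonempty Ω] (E : Ω → Prop) : pr (fun ω => ¬ E ω) = 1 - pr E := by
  have h1 : ex (fun _ : Ω => (1:ℝ)) = 1 := ex_const 1
  have h2 : pr (fun ω => ¬ E ω) = ex (fun _ : Ω => (1:ℝ)) - pr E := by
    unfold pr
    rw [← ex_sub]
    congr 1
    ext ω
    by_cases hE : E ω <;> simp [hE]
  rw [h2, h1]

/-- If an event has probability less than one, some outcome avoids it. -/
theorem exists_not_of_pr_lt_one [Nonempty Ω] {E : Ω → Prop} (h : pr E < 1) : ∃ ω, ¬ E ω := by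
  by_contra hcon
  have hall : ∀ ω, E ω := fun ω => by
    by_contra h'
    exact hcon ⟨ω, h'⟩
  have : pr E = 1 := by
    rw [← pr_true (Ω := Ω)]
    exact pr_congr (fun ω => by simp [hall ω])
  linarith

/-- Probability as a ratio of cardinalities. -/
theorem pr_eq_card (E : Ω → Prop) [DecidablePred E] :
    pr E = ((univ.filter E).card : ℝ) / (Fintype.card Ω : ℝ) := by
  unfold pr ex
  congr 1
  have h := Finset.sum_boole (R := ℝ) E univ
  rw [← h]
  congr!

end

end Pool.Agent.H24
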