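import Mathlib

set_option autoImplicit false

/-!
# Entropy of functions on a finite uniform space, and a two-sided Shearer inequality
-/

namespace Pool.Agent.H24.Sh

open Finset

section basic

variable {Ω : Type*} [Fintype Ω]

open Classical in
/-- The size of the fibre of `f` through `ω`. -/
noncomputable def fib {α : Type*} (f : Ω → α) (ω : Ω) : ℝ :=
  ((univ.filter (fun ω' => f ω' = f ω)).card : ℝ)

/-- `S f = ∑ log |fibre|`, so that `|Ω| H(f) = |Ω| log |Ω| - S f`. -/
noncomputable def S {α : Type*} (f : Ω → α) : ℝ := ∑ ω, Real.log (fib f ω)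

variable {α β γ : Type*}

lemma card_fib (f : Ω → α) (ω : Ω) [DecidablePred fun ω' => f ω' = f ω] :
    ((univ.filter (fun ω' => f ω' = f ω)).card : ℝ) = fib f ω := by
  unfold fib
  congr!

lemma fib_pos (f : Ω → α) (ω : Ω) : 0 < fib f ω := by
  classical
  unfold fib
  exact_mod_cast Finset.card_pos.2 ⟨ω, by simp⟩

lemma fib_mono (f : Ω → α) (g : Ω → β) (h : ∀ ω ω', f ω = f ω' → g ω = g ω') (ω : Ω) :
    fib f ω ≤ fib g ω := by
  classical
  unfold fib
  norm_cast
  refine Finset.card_le_card fun ω' hω' => ?_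
  simp only [Finset.mem_filter, Finset.mem_univ, true_and] at hω' ⊢
  exact h _ _ hω'

lemma S_mono (f : Ω → α) (g : Ω → β) (h : ∀ ω ω', f ω = f ω' → g ω = g ω') : S f ≤ S g :=
  Finset.sum_le_sum fun ω _ => Real.log_le_log (fib_pos f ω) (fib_mono f g h ω)

lemma S_congr (f : Ω → α) (g : Ω → β) (h : ∀ ω ω', f ω = f ω' ↔ g ω = g ω') : S f = S g :=
  le_antisymm (S_mono f g fun ω ω' => (h ω ω').1) (S_mono g f fun ω ω' => (h ω ω').2)

lemma fib_eq (f : Ω → α) {ω ω' : Ω} (h : f ω = f ω') : fib f ω = fib f ω' := by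
  unfold fib
  rw [h]

/-- Conditioning reduces entropy: `H(b | a') ≤ H(b | a)` if `a` is a function of `a'`. -/
lemma submod (a : Ω → α) (a' : Ω → β) (b : Ω → γ) (h : ∀ ω ω', a' ω = a' ω' → a ω = a ω') :
    S a' + S (fun ω => (a ω, b ω)) ≤ S a + S (fun ω => (a' ω, b ω)) := by
  classical
  set ab : Ω → α × γ := fun ω => (a ω, b ω) with hab
  set ab' : Ω → β × γ := fun ω => (a' ω, b ω) with hab'
  -- the ratio
  have key : ∑ ω, fib a' ω * fib ab ω / (fib ab' ω * fib a ω) ≤ (Fintype.card Ω : ℝ) := by
    have h1 : ∀ ω, fib a' ω * fib ab ω / (fib ab' ω * fib a ω) =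
        ∑ ω₁, ∑ ω₂, if a' ω₁ = a' ω ∧ ab ω₂ = ab ω then 1 / (fib ab' ω * fib a ω) else 0 := by
      intro ω
      have h2 : ∀ ω₁, (∑ ω₂, if a' ω₁ = a' ω ∧ ab ω₂ = ab ω then
          1 / (fib ab' ω * fib a ω) else 0) =
          (if a' ω₁ = a' ω then (1 : ℝ) else 0) * (fib ab ω * (1 / (fib ab' ω * fib a ω))) := by
        intro ω₁
        by_cases h3 : a' ω₁ = a' ω
        · simp only [h3, true_and, if_true, one_mul]
          rw [← Finset.sum_filter, Finset.sum_const, nsmul_eq_mul, card_fib ab ω]
        · simp [h3]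
      simp only [h2]
      rw [← Finset.sum_mul]
      have h4 : (∑ ω₁, if a' ω₁ = a' ω then (1 : ℝ) else 0) = fib a' ω := by
        rw [← Finset.sum_filter, Finset.sum_const, nsmul_eq_mul, mul_one]
        rfl
      rw [h4]
      ring
    simp only [h1]
    rw [Finset.sum_comm]
    have h5 : ∀ ω₁, (∑ ω, ∑ ω₂, if a' ω₁ = a' ω ∧ ab ω₂ = ab ω then
        1 / (fib ab' ω * fib a ω) else 0) ≤ 1 := by
      intro ω₁
      rw [Finset.sum_comm]
      have h6 : ∀ ω₂, (∑ ω, if a' ω₁ = a' ω ∧ ab ω₂ = ab ω then
          1 / (fib ab' ω * fib a ω) else 0) ≤ if a ω₂ = a ω₁ then 1 / fib a ω₁ else 0 := by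
        intro ω₂
        by_cases h7 : ∃ ω₀, a' ω₁ = a' ω₀ ∧ ab ω₂ = ab ω₀
        · obtain ⟨ω₀, h8, h9⟩ := h7
          have h10 : ∀ ω, (a' ω₁ = a' ω ∧ ab ω₂ = ab ω) ↔ ab' ω = ab' ω₀ := by
            intro ω
            simp only [hab, hab', Prod.mk.injEq] at h9 ⊢
            constructor
            · rintro ⟨h11, h12, h13⟩
              exact ⟨h11 ▸ h8, h13 ▸ h9.2⟩
            · rintro ⟨h11, h12⟩
              have h13 := h _ _ h11
              exact ⟨h11 ▸ h8, h13 ▸ h9.1, h12 ▸ h9.2⟩
          have h14 : a ω₂ = a ω₁ := by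
            simp only [hab, Prod.mk.injEq] at h9
            rw [h9.1, h _ _ h8]
          rw [if_pos h14]
          have h15 : (∑ ω, if a' ω₁ = a' ω ∧ ab ω₂ = ab ω then
              1 / (fib ab' ω * fib a ω) else 0) =
              ∑ ω, if ab' ω = ab' ω₀ then 1 / (fib ab' ω₀ * fib a ω₁) else 0 := by
            refine Finset.sum_congr rfl fun ω _ => ?_
            by_cases h16 : ab' ω = ab' ω₀
            · rw [if_pos h16, if_pos ((h10 ω).2 h16), fib_eq ab' h16]
              have h17 : a ω = a ω₁ := (h _ _ ((h10 ω).2 h16).1).symm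
              rw [fib_eq a h17]
            · rw [if_neg h16, if_neg (fun h => h16 ((h10 ω).1 h))]
          rw [h15, ← Finset.sum_filter, Finset.sum_const, nsmul_eq_mul]
          have h18 : ((univ.filter (fun ω => ab' ω = ab' ω₀)).card : ℝ) = fib ab' ω₀ :=
            card_fib ab' ω₀
          rw [h18]
          have h19 := fib_pos ab' ω₀
          have h20 := fib_pos a ω₁
          apply le_of_eq
          field_simp
        · have h8 : ∀ ω, ¬ (a' ω₁ = a' ω ∧ ab ω₂ = ab ω) := fun ω hω => h7 ⟨ω, hω⟩
          simp only [h8, if_false, Finset.sum_const_zero]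
          split_ifs
          · exact (one_div_pos.2 (fib_pos a ω₁)).le
          · exact le_rfl
      refine (Finset.sum_le_sum fun ω₂ _ => h6 ω₂).trans ?_
      rw [← Finset.sum_filter, Finset.sum_const, nsmul_eq_mul]
      have h18 : ((univ.filter (fun ω => a ω = a ω₁)).card : ℝ) = fib a ω₁ := rfl
      rw [h18, mul_one_div_cancel (fib_pos a ω₁).ne']
    calc _ ≤ ∑ _ω₁ : Ω, (1 : ℝ) := Finset.sum_le_sum fun ω₁ _ => h5 ω₁
      _ = (Fintype.card Ω : ℝ) := by simp
  have h2 : ∀ ω, 1 - fib a' ω * fib ab ω / (fib ab' ω * fib a ω) ≤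
      Real.log (fib a ω) + Real.log (fib ab' ω) - Real.log (fib a' ω) - Real.log (fib ab ω) := by
    intro ω
    have h3 := fib_pos a ω
    have h4 := fib_pos a' ω
    have h5 := fib_pos ab ω
    have h6 := fib_pos ab' ω
    have h7 := Real.log_le_sub_one_of_pos
      (show 0 < fib a' ω * fib ab ω / (fib ab' ω * fib a ω) by positivity)
    rw [Real.log_div (by positivity) (by positivity), Real.log_mul h4.ne' h5.ne',
      Real.log_mul h6.ne' h3.ne'] at h7
    linarith
  have h3 := Finset.sum_le_sum (s := (univ : Finset Ω)) fun ω _ => h2 ω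
  rw [Finset.sum_sub_distrib, Finset.sum_sub_distrib, Finset.sum_sub_distrib,
    Finset.sum_add_distrib, Finset.sum_const, Finset.card_univ, nsmul_eq_mul, mul_one] at h3
  unfold S
  linarith

end basic

section weights

variable {Ω : Type*} [Fintype Ω] {I α τ : Type*} [Fintype I] [DecidableEq I]

/-- the coordinates outside `B` are hidden -/
def mask (c : I → Ω → α) (B : Finset I) (ω : Ω) : I → Option α :=
  fun i => if i ∈ B then some (c i ω) else none

lemma mask_eq_iff (c : I → Ω → α) (B : Finset I) (ω ω' : Ω) :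
    mask c B ω = mask c B ω' ↔ ∀ i ∈ B, c i ω = c i ω' := by
  constructor
  · intro h i hi
    have := congrFun h i
    simpa [mask, hi] using this
  · intro h
    funext i
    by_cases hi : i ∈ B
    · simp [mask, hi, h i hi]
    · simp [mask, hi]

/-- Chain rule weights. -/
lemma weights (t : Ω → τ) (c : I → Ω → α) (s : Finset I) :
    ∃ w : I → ℝ, (∀ i, 0 ≤ w i) ∧ (∀ i, i ∉ s → w i = 0) ∧
      ∑ i ∈ s, w i = S t - S (fun ω => (t ω, mask c s ω)) ∧
      ∀ B ⊆ s, ∑ i ∈ B, w i ≤ S t - S (fun ω => (t ω, mask c B ω)) := by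
  induction s using Finset.induction_on with
  | empty =>
    refine ⟨fun _ => 0, fun _ => le_rfl, fun _ _ => rfl, ?_, ?_⟩
    · rw [Finset.sum_empty, S_congr (fun ω => (t ω, mask c ∅ ω)) t, sub_self]
      intro ω ω'
      rw [Prod.mk.injEq, mask_eq_iff]
      simp
    · intro B hB
      rw [Finset.subset_empty.1 hB, Finset.sum_empty,
        S_congr (fun ω => (t ω, mask c ∅ ω)) t, sub_self]
      intro ω ω'
      rw [Prod.mk.injEq, mask_eq_iff]
      simp
  | insert i s hi ih =>
    obtain ⟨w, h0, hw, hs, hB⟩ := ih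
    have hmono : S (fun ω => (t ω, mask c (insert i s) ω)) ≤ S (fun ω => (t ω, mask c s ω)) := by
      refine S_mono _ _ fun ω ω' h => ?_
      rw [Prod.mk.injEq, mask_eq_iff] at h ⊢
      exact ⟨h.1, fun k hk => h.2 k (Finset.mem_insert_of_mem hk)⟩
    refine ⟨Function.update w i (S (fun ω => (t ω, mask c s ω)) -
      S (fun ω => (t ω, mask c (insert i s) ω))), ?_, ?_, ?_, ?_⟩
    · intro k
      by_cases hk : k = i
      · subst hk
        rw [Function.update_self]
        linarith
      · rw [Function.update_of_ne hk]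
        exact h0 k
    · intro k hk
      rw [Finset.mem_insert, not_or] at hk
      rw [Function.update_of_ne hk.1]
      exact hw k hk.2
    · rw [Finset.sum_insert hi, Function.update_self]
      have : ∑ k ∈ s, Function.update w i (S (fun ω => (t ω, mask c s ω)) -
          S (fun ω => (t ω, mask c (insert i s) ω))) k = ∑ k ∈ s, w k := by
        refine Finset.sum_congr rfl fun k hk => ?_
        rw [Function.update_of_ne (by rintro rfl; exact hi hk)]
      rw [this, hs]
      ring
    · intro B hBs
      by_cases hiB : i ∈ B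
      · set B' := B.erase i with hB'
        have hB's : B' ⊆ s := by
          intro k hk
          obtain ⟨h1, h2⟩ := Finset.mem_erase.1 hk
          exact (Finset.mem_insert.1 (hBs h2)).resolve_left h1
        have hBi : B = insert i B' := (Finset.insert_erase hiB).symm
        have hiB' : i ∉ B' := Finset.notMem_erase i B
        rw [hBi, Finset.sum_insert hiB', Function.update_self]
        have h1 : ∑ k ∈ B', Function.update w i (S (fun ω => (t ω, mask c s ω)) -
            S (fun ω => (t ω, mask c (insert i s) ω))) k = ∑ k ∈ B', w k := by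
          refine Finset.sum_congr rfl fun k hk => ?_
          rw [Function.update_of_ne (by rintro rfl; exact hiB' hk)]
        rw [h1]
        have h2 := hB B' hB's
        have h3 := submod (fun ω => (t ω, mask c B' ω)) (fun ω => (t ω, mask c s ω)) (c i) (by
          intro ω ω' h
          rw [Prod.mk.injEq, mask_eq_iff] at h ⊢
          exact ⟨h.1, fun k hk => h.2 k (hB's hk)⟩)
        have h4 : ∀ D : Finset I, S (fun ω => ((t ω, mask c D ω), c i ω)) =
            S (fun ω => (t ω, mask c (insert i D) ω)) := by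
          intro D
          refine S_congr _ _ fun ω ω' => ?_
          rw [Prod.mk.injEq, Prod.mk.injEq, Prod.mk.injEq, mask_eq_iff, mask_eq_iff]
          constructor
          · rintro ⟨⟨h5, h6⟩, h7⟩
            refine ⟨h5, fun k hk => ?_⟩
            rcases Finset.mem_insert.1 hk with rfl | hk
            · exact h7
            · exact h6 k hk
          · rintro ⟨h5, h6⟩
            exact ⟨⟨h5, fun k hk => h6 k (Finset.mem_insert_of_mem hk)⟩,
              h6 i (Finset.mem_insert_self _ _)⟩
        rw [h4 B', h4 s] at h3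
        linarith
      · have hBs' : B ⊆ s := fun k hk =>
          (Finset.mem_insert.1 (hBs hk)).resolve_left (fun h => hiB (h ▸ hk))
        have h1 : ∑ k ∈ B, Function.update w i (S (fun ω => (t ω, mask c s ω)) -
            S (fun ω => (t ω, mask c (insert i s) ω))) k = ∑ k ∈ B, w k := by
          refine Finset.sum_congr rfl fun k hk => ?_
          rw [Function.update_of_ne (by rintro rfl; exact hiB hk)]
        rw [h1]
        exact hB B hBs'

end weights

end Pool.Agent.H24.Sh
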