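import Pool.Agent.H24.Levels
import Pool.Agent.H24.NegMono2
import Pool.Agent.H24.Chain

/-!
Circuits with few NOT gates on a chain of constraint sets living on disjoint parts of the domain:
part number `i` first receives sparse random constraints and then, instead of them, all
constraints of an independent member of the family.
-/

namespace Pool.Agent.H24

open Finset

set_option linter.unusedSectionVars false

/-- **Dense agreeing constraints dominate sparse random ones**, for monotone circuits. -/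
theorem dominates {X : Type} [Fintype X] [DecidableEq X] {Ω : Type*} [Fintype Ω] [Nonempty Ω]
    {P Q : ℕ → Ω → Finset (X × Bool)} {G : Finset (X × Bool) → Prop} {w : ℕ} {ε η ζ : ℝ}
    (hS : Sc P Q G w ε η ζ 1) {t : ℕ} {L : List ((X × Bool → Bool) → Bool)}
    {F : (X × Bool → Bool) → Bool} (hL : NegCircuit t 0 L) (hF : Source L F) :
    pr (fun ω => ev F (Q 1 ω) = true ∧ ev F (P 0 ω) = false) ≤
      t * (etaOr G ε + η) + ζ := by
  have he0 := etaOr_nonneg G hS.ε0
  have hη0 := hS.η0
  have hζ0 := hS.ζ0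
  by_cases hbig : (1:ℝ) ≤ t * (etaOr G ε + η) + ζ
  · exact (pr_le_one _).trans hbig
  push Not at hbig
  obtain ⟨a, b, Bad, hab, hbR, hlen, hpr, hrep⟩ := sc_induction hS hL 0 (le_refl 0)
    (by norm_num) (by push_cast; linarith)
  have ha : a = 0 ∧ b = 1 := by simp at hlen; omega
  obtain ⟨rfl, rfl⟩ := ha
  obtain ⟨mm, hmm, hrepF⟩ := rp_of_source hS hbR Bad hrep hF
  obtain ⟨A, hA, hAω⟩ := hrepF 0 (le_refl _) (by norm_num)
  have hpr' : pr Bad ≤ t * (etaOr G ε + η) := by
    refine hpr.trans (le_of_eq ?_)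
    push_cast
    ring
  by_cases hne : ∅ ∈ A
  · have h1 : pr (fun ω => ev F (Q 1 ω) = true ∧ ev F (P 0 ω) = false) ≤ pr Bad := by
      apply pr_mono
      rintro ω ⟨-, h2⟩
      by_contra hω
      have := (hAω ω hω).2.2.1 ⟨∅, hne, Finset.empty_subset _⟩
      rw [h2] at this
      exact Bool.noConfusion this
    linarith
  · have h1 : pr (fun ω => ev F (Q 1 ω) = true ∧ ev F (P 0 ω) = false) ≤
        pr (fun ω => Bad ω ∨ ∃ T ∈ A, T ⊆ Q (0 + 1) ω) := by
      apply pr_mono
      rintro ω ⟨h2, -⟩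
      by_cases hω : Bad ω
      · exact Or.inl hω
      · exact Or.inr ((hAω ω hω).2.2.2 h2)
    refine h1.trans ((pr_or_le _ _).trans ?_)
    have := hS.zeta 0 (by norm_num) A hA hne
    linarith

/-- Conditioning on all coordinates but one. -/
theorem pr_coord_le {Y : Type*} [Fintype Y] {R : ℕ} (i : Fin R)
    (E : Y × ({j : Fin R // j ≠ i} → Y) → Prop) {c : ℝ} (hc : 0 ≤ c)
    (h : ∀ ρ, pr (fun y : Y => E (y, ρ)) ≤ c) :
    pr (fun ω : Fin R → Y => E (ω i, fun j => ω j)) ≤ c := by
  classical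
  have h1 := pr_equiv (Equiv.funSplitAt i Y) E
  refine le_trans (le_of_eq ?_) ((le_of_eq h1).trans (pr_fiber_le hc h))
  rfl

/-- the indicator of a proposition -/
noncomputable def indR (E : Prop) : ℝ := open Classical in if E then (1:ℝ) else 0

theorem ex_ind {Ω : Type*} [Fintype Ω] (E : Ω → Prop) : ex (fun ω => indR (E ω)) = pr E := rfl

theorem card_filter_ind {ι : Type*} [Fintype ι] (E : ι → Prop) [DecidablePred E] :
    ((univ.filter E).card : ℝ) = ∑ i, indR (E i) := by
  classical
  have h := Finset.sum_boole (R := ℝ) E univ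
  rw [← h]
  apply Finset.sum_congr rfl
  intro i _
  unfold indR
  congr

section split

variable {A : Type} [Fintype A] {X : Type} [Fintype X] [DecidableEq X] (h : A → X → Bool)
  (M : ℕ) {R : ℕ}

/-- the sample space: one independent sample for every part -/
abbrev OmS (A X : Type) (M R : ℕ) : Type := Fin R → Smp A X M 1

/-- all constraints of the members of the family on the first `i` parts -/
def ZZ (ω : OmS A X M R) (i : ℕ) : (Fin R × X) × Bool → Bool :=
  fun l => decide ((l.1.1 : ℕ) < i ∧ h (ω l.1.1).1 l.1.2 = l.2)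

/-- in addition, sparse random constraints on part number `i` -/
def YY (ω : OmS A X M R) (i : ℕ) : (Fin R × X) × Bool → Bool :=
  fun l => ZZ h M ω i l || decide ((l.1.1 : ℕ) = i ∧ (l.1.2, l.2) ∈ Qs M 1 1 (ω l.1.1))

theorem ZZ_mono (ω : OmS A X M R) {i i' : ℕ} (hi : i ≤ i') (l : (Fin R × X) × Bool)
    (hl : ZZ h M ω i l = true) : ZZ h M ω i' l = true := by
  simp only [ZZ, decide_eq_true_eq] at hl ⊢
  exact ⟨hl.1.trans_le hi, hl.2⟩

/-- A monotone function changes its value between `ZZ i` and `YY i` at most once more often than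
the constraints fail to be dominated. -/
theorem flips_le {t : ℕ} {L : List (((Fin R × X) × Bool → Bool) → Bool)} (hL : NegCircuit t 0 L)
    {g : ((Fin R × X) × Bool → Bool) → Bool} (hg : Source L g) (ω : OmS A X M R) :
    (univ.filter (fun i : Fin R => g (ZZ h M ω i) ≠ g (YY h M ω i))).card ≤
      1 + (univ.filter (fun i : Fin R =>
        g (YY h M ω i) = true ∧ g (ZZ h M ω (i + 1)) = false)).card := by
  classical
  set S := univ.filter (fun i : Fin R => g (ZZ h M ω i) ≠ g (YY h M ω i)) with hS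
  set B := univ.filter (fun i : Fin R =>
        g (YY h M ω i) = true ∧ g (ZZ h M ω (i + 1)) = false) with hB
  have hval : ∀ i ∈ S, g (ZZ h M ω i) = false ∧ g (YY h M ω i) = true := by
    intro i hi
    have hi' := (Finset.mem_filter.1 hi).2
    have h1 : g (ZZ h M ω i) = true → g (YY h M ω i) = true := by
      apply mono_of_source hL hg
      intro e he
      simp [YY, he]
    cases h2 : g (ZZ h M ω i)
    · cases h3 : g (YY h M ω i)
      · rw [h2, h3] at hi'
        exact absurd rfl hi'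
      · exact ⟨rfl, rfl⟩
    · rw [h2, h1 h2] at hi'
      exact absurd rfl hi'
  have main : ∀ i ∈ S \ B, ∀ i' ∈ S \ B, ¬ (i : ℕ) < i' := by
    intro i hi i' hi' hlt
    rw [Finset.mem_sdiff] at hi hi'
    have h1 := hval i hi.1
    have h2 := hval i' hi'.1
    have h3 : g (ZZ h M ω (i + 1)) = true := by
      cases h4 : g (ZZ h M ω ((i : ℕ) + 1))
      · exfalso
        apply hi.2
        rw [hB, Finset.mem_filter]
        exact ⟨mem_univ _, h1.2, h4⟩
      · rfl
    have h4 : g (ZZ h M ω i') = true :=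
      mono_of_source hL hg (fun e he => ZZ_mono h M ω (show (i : ℕ) + 1 ≤ i' by omega) e he) h3
    rw [h2.1] at h4
    exact Bool.noConfusion h4
  have h1 : (S \ B).card ≤ 1 := by
    rw [Finset.card_le_one]
    intro i hi i' hi'
    by_contra hne
    rcases Nat.lt_or_gt_of_ne (fun h => hne (Fin.ext h)) with h | h
    · exact main i hi i' hi' h
    · exact main i' hi' i hi h
  have h2 : S.card ≤ (S \ B).card + B.card := by
    refine (Finset.card_le_card (?_ : S ⊆ (S \ B) ∪ B)).trans (Finset.card_union_le _ _)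
    intro i hi
    by_cases hiB : i ∈ B
    · exact Finset.mem_union_right _ hiB
    · exact Finset.mem_union_left _ (Finset.mem_sdiff.2 ⟨hi, hiB⟩)
  omega

/-- On every part, the constraints of the member of the family dominate the sparse random
constraints with high probability. -/
theorem pr_part_le [Nonempty A] (hM : 0 < M) {G : Finset (X × Bool) → Prop} {w : ℕ} {ε η ζ : ℝ}
    (hS : Sc (Ω := Smp A X M 1) (Ps h M 1) (Qs M 1) G w ε η ζ 1) {t : ℕ}
    {L : List (((Fin R × X) × Bool → Bool) → Bool)}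
    (hL : NegCircuit t 0 L) {g : ((Fin R × X) × Bool → Bool) → Bool} (hg : Source L g)
    (i : Fin R) :
    pr (fun ω : OmS A X M R => g (YY h M ω i) = true ∧ g (ZZ h M ω (i + 1)) = false) ≤
      t * (etaOr G ε + η) + ζ := by
  classical
  have he0 := etaOr_nonneg G hS.ε0
  have hη0 := hS.η0
  have hζ0 := hS.ζ0
  have : Nonempty (Fin (M ^ 1) × Bool) := ⟨(⟨0, by positivity⟩, true)⟩
  have : Nonempty (Smp A X M 1) := inferInstance
  let E : Smp A X M 1 × ({j : Fin R // j ≠ i} → Smp A X M 1) → Prop := fun p =>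
    g (fun l => if hl : l.1.1 = i then decide ((l.1.2, l.2) ∈ Qs M 1 1 p.1)
      else decide ((l.1.1 : ℕ) < i ∧ h (p.2 ⟨l.1.1, hl⟩).1 l.1.2 = l.2)) = true ∧
    g (fun l => if hl : l.1.1 = i then decide (h p.1.1 l.1.2 = l.2)
      else decide ((l.1.1 : ℕ) < i ∧ h (p.2 ⟨l.1.1, hl⟩).1 l.1.2 = l.2)) = false
  have h1 : pr (fun ω : OmS A X M R => g (YY h M ω i) = true ∧ g (ZZ h M ω (i + 1)) = false) =
      pr (fun ω : Fin R → Smp A X M 1 => E (ω i, fun j => ω j)) := by
    apply pr_congr
    intro ω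
    have h2 : YY h M ω i = fun l => if hl : l.1.1 = i then decide ((l.1.2, l.2) ∈ Qs M 1 1 (ω i))
        else decide ((l.1.1 : ℕ) < i ∧ h (ω l.1.1).1 l.1.2 = l.2) := by
      funext l
      simp only [YY, ZZ]
      split_ifs with hl
      · rw [hl]
        simp
      · have : ¬ ((l.1.1 : ℕ) = i) := fun h => hl (Fin.ext h)
        simp [this]
    have h3 : ZZ h M ω (i + 1) = fun l => if hl : l.1.1 = i then decide (h (ω i).1 l.1.2 = l.2)
        else decide ((l.1.1 : ℕ) < i ∧ h (ω l.1.1).1 l.1.2 = l.2) := by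
      funext l
      simp only [ZZ]
      split_ifs with hl
      · rw [hl]
        simp
      · have : ¬ ((l.1.1 : ℕ) = i) := fun h => hl (Fin.ext h)
        have h4 : (l.1.1 : ℕ) < i + 1 ↔ (l.1.1 : ℕ) < i := by omega
        simp only [h4]
    rw [h2, h3]
  rw [h1]
  refine pr_coord_le i E (by positivity) ?_
  intro ρ
  let θ : (X × Bool → Bool) → ((Fin R × X) × Bool → Bool) := fun a l =>
    if hl : l.1.1 = i then a (l.1.2, l.2)
      else decide ((l.1.1 : ℕ) < i ∧ h (ρ ⟨l.1.1, hl⟩).1 l.1.2 = l.2)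
  have hθ : ∀ l, (∃ v, (fun a => θ a l) = fun a => a v) ∨
      ∃ c : Bool, (fun a => θ a l) = fun _ => c := by
    intro l
    by_cases hl : l.1.1 = i
    · left
      refine ⟨(l.1.2, l.2), ?_⟩
      funext a
      simp [θ, hl]
    · right
      refine ⟨decide ((l.1.1 : ℕ) < i ∧ h (ρ ⟨l.1.1, hl⟩).1 l.1.2 = l.2), ?_⟩
      funext a
      simp only [θ, dif_neg hl]
  refine le_trans (pr_mono ?_) (dominates hS (circuit_subst θ hθ hL) (source_subst θ hθ hg))
  rintro y ⟨h4, h5⟩
  refine ⟨h4, ?_⟩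
  by_contra h6
  rw [Bool.not_eq_false] at h6
  have h7 : g (θ (fun l => decide (l ∈ Ps h M 1 0 y))) = true := h6
  have h8 : g (θ (fun l => decide (h y.1 l.1 = l.2))) = true := by
    refine mono_of_source hL hg ?_ h7
    intro l hl
    by_cases hli : l.1.1 = i
    · simp only [θ, dif_pos hli, decide_eq_true_eq] at hl ⊢
      exact (Finset.mem_filter.1 hl).2
    · simp only [θ, dif_neg hli] at hl ⊢
      exact hl
  have h9 : g (θ (fun l => decide (h y.1 l.1 = l.2))) = false := h5
  rw [h8] at h9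
  exact Bool.noConfusion h9

/-- **Lower bound along the chain.** -/
theorem split_lower [Nonempty A] (hM : 0 < M) {G : Finset (X × Bool) → Prop} {w : ℕ}
    {ε η ζ : ℝ} (hS : Sc (Ω := Smp A X M 1) (Ps h M 1) (Qs M 1) G w ε η ζ 1) {t r : ℕ}
    {L : List (((Fin R × X) × Bool → Bool) → Bool)} (hL : NegCircuit t r L)
    {F : ((Fin R × X) × Bool → Bool) → Bool} (hF : Source L F)
    (hZ : ∀ (ω : OmS A X M R) (i : Fin R), F (ZZ h M ω i) = false) {δ : ℝ}
    (hY : ∀ i : Fin R, pr (fun ω : OmS A X M R => F (YY h M ω i) = false) ≤ δ) :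
    (R:ℝ) ≤ R * δ + 2 * 2 ^ r * (1 + R * (t * (etaOr G ε + η) + ζ)) := by
  classical
  have he0 := etaOr_nonneg G hS.ε0
  have hη0 := hS.η0
  have hζ0 := hS.ζ0
  have : Nonempty (Fin (M ^ 1) × Bool) := ⟨(⟨0, by positivity⟩, true)⟩
  have : Nonempty (Smp A X M 1) := inferInstance
  have hne : Nonempty (OmS A X M R) := inferInstance
  obtain ⟨𝒢, h𝒢, hdiff⟩ := neg_family2 hL hF
  -- pointwise
  have key : ∀ ω : OmS A X M R, (R:ℝ) ≤ ∑ i : Fin R, indR (F (YY h M ω i) = false) +
      ∑ p ∈ Idx r, (1 + ∑ i : Fin R, indR (𝒢 p (YY h M ω i) = true ∧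
        𝒢 p (ZZ h M ω (i + 1)) = false)) := by
    intro ω
    have hcover : (univ : Finset (Fin R)) ⊆
        (univ.filter (fun i : Fin R => F (YY h M ω i) = false)) ∪
        (Idx r).biUnion (fun p =>
          univ.filter (fun i : Fin R => 𝒢 p (ZZ h M ω i) ≠ 𝒢 p (YY h M ω i))) := by
      intro i _
      rw [Finset.mem_union, Finset.mem_filter]
      by_cases hi : F (YY h M ω i) = false
      · exact Or.inl ⟨mem_univ _, hi⟩
      · right
        have hne' : F (ZZ h M ω i) ≠ F (YY h M ω i) := by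
          rw [hZ ω i]
          exact fun h => hi h.symm
        obtain ⟨p, hp, hpd⟩ := hdiff _ _ hne'
        rw [Finset.mem_biUnion]
        exact ⟨p, hp, by simpa using hpd⟩
    have h1 := (Finset.card_le_card hcover).trans (Finset.card_union_le _ _)
    rw [Finset.card_univ, Fintype.card_fin] at h1
    have h2 : ((Idx r).biUnion (fun p =>
          univ.filter (fun i : Fin R => 𝒢 p (ZZ h M ω i) ≠ 𝒢 p (YY h M ω i)))).card ≤
        ∑ p ∈ Idx r, (1 + (univ.filter (fun i : Fin R => 𝒢 p (YY h M ω i) = true ∧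
        𝒢 p (ZZ h M ω (i + 1)) = false)).card) := by
      refine Finset.card_biUnion_le.trans (Finset.sum_le_sum ?_)
      intro p _
      obtain ⟨L', hL', hg'⟩ := h𝒢 p
      exact flips_le h M hL' hg' ω
    have h3 : (R:ℝ) ≤ ((univ.filter (fun i : Fin R => F (YY h M ω i) = false)).card : ℝ) +
        ∑ p ∈ Idx r, (1 + ((univ.filter (fun i : Fin R => 𝒢 p (YY h M ω i) = true ∧
        𝒢 p (ZZ h M ω (i + 1)) = false)).card : ℝ)) := by
      exact_mod_cast h1.trans (Nat.add_le_add_left h2 _)
    refine h3.trans (le_of_eq ?_)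
    rw [card_filter_ind]
    congr 1
    apply Finset.sum_congr rfl
    intro p _
    rw [card_filter_ind]
  have h1 := ex_mono key
  rw [ex_const, ex_add, ex_sum, ex_sum] at h1
  refine h1.trans ?_
  have h2 : ∑ i : Fin R, ex (fun ω : OmS A X M R => indR (F (YY h M ω i) = false)) ≤ R * δ := by
    refine (Finset.sum_le_sum (fun i _ => hY i)).trans (le_of_eq ?_)
    rw [Finset.sum_const, Finset.card_univ, Fintype.card_fin, nsmul_eq_mul]
  have h3 : ∀ p ∈ Idx r, ex (fun ω : OmS A X M R => 1 + ∑ i : Fin R,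
      indR (𝒢 p (YY h M ω i) = true ∧ 𝒢 p (ZZ h M ω (i + 1)) = false)) ≤
      1 + R * (t * (etaOr G ε + η) + ζ) := by
    intro p _
    obtain ⟨L', hL', hg'⟩ := h𝒢 p
    rw [ex_add, ex_const, ex_sum]
    gcongr
    refine (Finset.sum_le_sum (fun i _ => pr_part_le h M hM hS hL' hg' i)).trans (le_of_eq ?_)
    rw [Finset.sum_const, Finset.card_univ, Fintype.card_fin, nsmul_eq_mul]
  have h4 : ∑ p ∈ Idx r, ex (fun ω : OmS A X M R => 1 + ∑ i : Fin R,
      indR (𝒢 p (YY h M ω i) = true ∧ 𝒢 p (ZZ h M ω (i + 1)) = false)) ≤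
      2 * 2 ^ r * (1 + R * (t * (etaOr G ε + η) + ζ)) := by
    refine (Finset.sum_le_sum h3).trans ?_
    rw [Finset.sum_const, nsmul_eq_mul]
    apply mul_le_mul_of_nonneg_right _ (by positivity)
    exact_mod_cast card_Idx_le r
  linarith

end split

end Pool.Agent.H24
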