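import Pool.Agent.H24.Fam
import Pool.Agent.H24.Defs

/-!
The approximation argument along a circuit with few NOT gates, over nested scales
(abstract form).
-/

namespace Pool.Agent.H24

open Finset

set_option linter.unusedSectionVars false

variable {X : Type} [Fintype X] [DecidableEq X] {Ω : Type*} [Fintype Ω]

/-- value of a function of the constraint bits on a set of literals -/
def ev (u : (X × Bool → Bool) → Bool) (S : Finset (X × Bool)) : Bool :=
  u (fun l => decide (l ∈ S))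

/-- The data of nested scales: dense random sets `P i`, sparse random sets `Q (i+1)`, the error
`η` of an AND gate and the probability `ζ` that a non-trivial closed family is satisfied on the
sparse side. -/
structure Sc (P Q : ℕ → Ω → Finset (X × Bool)) (G : Finset (X × Bool) → Prop) (w : ℕ)
    (ε η ζ : ℝ) (R : ℕ) : Prop where
  adm : AdmPred G w
  sub : ∀ i ω, P i ω ⊆ Q i ω
  ε0 : 0 ≤ ε
  ε1 : ε < 1
  η0 : 0 ≤ η
  ζ0 : 0 ≤ ζ
  lit : ∀ i, i < R → ∀ v, ε < pr (fun ω => v ∉ P i ω)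
  var : ∀ v, G {v} ∨ ∀ i, i < R → ∀ ω, v ∉ Q (i + 1) ω
  and_err : ∀ i, i < R → ∀ A B : Finset (Finset (X × Bool)), CF (P i) G ε A → CF (P i) G ε B →
    pr (fun ω => (∃ S ∈ A, S ⊆ Q (i + 1) ω) ∧ (∃ T ∈ B, T ⊆ Q (i + 1) ω) ∧
      ∀ T ∈ A ∩ B, ¬ T ⊆ Q (i + 1) ω) ≤ η
  zeta : ∀ i, i < R → ∀ A : Finset (Finset (X × Bool)), CF (P i) G ε A → ∅ ∉ A →
    pr (fun ω => ∃ T ∈ A, T ⊆ Q (i + 1) ω) ≤ ζ

/-- `u` is well approximated at all scales in `[a, b)` outside the bad event. -/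
def Rp (P Q : ℕ → Ω → Finset (X × Bool)) (G : Finset (X × Bool) → Prop) (ε : ℝ)
    (u : (X × Bool → Bool) → Bool) (a b : ℕ) (Bad : Ω → Prop) : Prop :=
  ∃ m : Finset (X × Bool) → Prop, (∀ S S', S ⊆ S' → m S → m S') ∧
    ∀ i, a ≤ i → i < b → ∃ A : Finset (Finset (X × Bool)), CF (P i) G ε A ∧
      ∀ ω, ¬ Bad ω →
        ((ev u (P i ω) = true ↔ m (P i ω)) ∧ (ev u (Q (i + 1) ω) = true ↔ m (Q (i + 1) ω)) ∧
          ((∃ T ∈ A, T ⊆ P i ω) → ev u (P i ω) = true) ∧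
          (ev u (Q (i + 1) ω) = true → ∃ T ∈ A, T ⊆ Q (i + 1) ω))

variable {P Q : ℕ → Ω → Finset (X × Bool)} {G : Finset (X × Bool) → Prop} {w : ℕ}
  {ε η ζ : ℝ} {R : ℕ}

theorem Rp.mono {u : (X × Bool → Bool) → Bool} {a b a' b' : ℕ} {Bad Bad' : Ω → Prop}
    (h : Rp P Q G ε u a b Bad) (ha : a ≤ a') (hb : b' ≤ b) (hBad : ∀ ω, Bad ω → Bad' ω) :
    Rp P Q G ε u a' b' Bad' := by
  obtain ⟨m, hm, h⟩ := h
  refine ⟨m, hm, ?_⟩
  intro i hi hi'
  obtain ⟨A, hA, hAω⟩ := h i (ha.trans hi) (lt_of_lt_of_le hi' hb)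
  exact ⟨A, hA, fun ω hω => hAω ω (fun hb => hω (hBad ω hb))⟩

theorem rp_var [Nonempty Ω] (hS : Sc P Q G w ε η ζ R) (v : X × Bool) {a b : ℕ} (hb : b ≤ R)
    (Bad : Ω → Prop) : Rp P Q G ε (fun z => z v) a b Bad := by
  refine ⟨fun S => v ∈ S, fun S S' h hv => h hv, ?_⟩
  intro i _ hi
  rcases hS.var v with hG | hno
  · refine ⟨(AdmSets G).filter (fun T => v ∈ T), cf_lit v (hS.lit i (by omega) v), ?_⟩
    intro ω _
    refine ⟨by simp [ev], by simp [ev], ?_, ?_⟩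
    · rintro ⟨T, hT, hTP⟩
      simp only [ev, decide_eq_true_eq]
      exact hTP (Finset.mem_filter.1 hT).2
    · intro h
      simp only [ev, decide_eq_true_eq] at h
      refine ⟨{v}, ?_, by simpa using h⟩
      rw [Finset.mem_filter, mem_AdmSets]
      exact ⟨hG, by simp⟩
  · refine ⟨∅, cf_empty hS.ε1, ?_⟩
    intro ω _
    refine ⟨by simp [ev], by simp [ev], by simp, ?_⟩
    intro h
    simp only [ev, decide_eq_true_eq] at h
    exact absurd h (hno i (by omega) ω)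

theorem rp_const [Nonempty Ω] (hS : Sc P Q G w ε η ζ R) (c : Bool) (a b : ℕ)
    (Bad : Ω → Prop) : Rp P Q G ε (fun _ => c) a b Bad := by
  cases c
  · refine ⟨fun _ => False, fun _ _ _ h => h, ?_⟩
    intro i _ _
    refine ⟨∅, cf_empty hS.ε1, ?_⟩
    intro ω _
    simp [ev]
  · refine ⟨fun _ => True, fun _ _ _ h => h, ?_⟩
    intro i _ _
    refine ⟨AdmSets G, cf_AdmSets, ?_⟩
    intro ω _
    refine ⟨by simp [ev], by simp [ev], by simp [ev], ?_⟩
    intro _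
    exact ⟨∅, mem_AdmSets.2 hS.adm.empty, Finset.empty_subset _⟩

theorem rp_of_source [Nonempty Ω] (hS : Sc P Q G w ε η ζ R)
    {L : List ((X × Bool → Bool) → Bool)} {a b : ℕ} (hb : b ≤ R) (Bad : Ω → Prop)
    (hL : ∀ u ∈ L, Rp P Q G ε u a b Bad) {u : (X × Bool → Bool) → Bool} (hu : Source L u) :
    Rp P Q G ε u a b Bad := by
  rcases hu with ⟨v, rfl⟩ | ⟨c, rfl⟩ | hu
  · exact rp_var hS v hb Bad
  · exact rp_const hS c a b Bad
  · exact hL u hu

/-- error probability of an OR gate at one scale -/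
noncomputable def etaOr (G : Finset (X × Bool) → Prop) (ε : ℝ) : ℝ :=
  (AdmSets G).card * ε

theorem etaOr_nonneg (G : Finset (X × Bool) → Prop) {ε : ℝ} (h : 0 ≤ ε) : 0 ≤ etaOr G ε := by
  unfold etaOr; positivity

theorem sum_Ico_const_le' {a b R : ℕ} (hb : b ≤ R) {c : ℝ} (hc : 0 ≤ c) :
    ∑ _i ∈ Finset.Ico a b, c ≤ R * c := by
  rw [Finset.sum_const, Nat.card_Ico, nsmul_eq_mul]
  have : ((b - a : ℕ) : ℝ) ≤ R := by
    exact_mod_cast (Nat.sub_le b a).trans hb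
  gcongr

theorem rp_and [Nonempty Ω] (hS : Sc P Q G w ε η ζ R) {u v : (X × Bool → Bool) → Bool}
    {a b : ℕ} (hb : b ≤ R) {Bad : Ω → Prop} (hu : Rp P Q G ε u a b Bad)
    (hv : Rp P Q G ε v a b Bad) :
    ∃ Bad' : Ω → Prop, (∀ ω, Bad ω → Bad' ω) ∧ pr Bad' ≤ pr Bad + R * η ∧
      Rp P Q G ε (fun z => u z && v z) a b Bad' := by
  obtain ⟨m, hm, hu⟩ := hu
  obtain ⟨m', hm', hv⟩ := hv
  choose! A hA hAω using hu
  choose! B hB hBω using hv
  refine ⟨fun ω => Bad ω ∨ ∃ i ∈ Finset.Ico a b, ((∃ S ∈ A i, S ⊆ Q (i + 1) ω) ∧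
    (∃ T ∈ B i, T ⊆ Q (i + 1) ω) ∧ ∀ T ∈ A i ∩ B i, ¬ T ⊆ Q (i + 1) ω), fun ω h => Or.inl h, ?_, ?_⟩
  · refine (pr_or_le _ _).trans ?_
    gcongr
    refine (pr_exists_le _ _).trans ?_
    refine le_trans (Finset.sum_le_sum (g := fun _ => η) ?_)
      (sum_Ico_const_le' hb hS.η0)
    intro i hi
    rw [Finset.mem_Ico] at hi
    exact hS.and_err i (lt_of_lt_of_le hi.2 hb) _ _ (hA i hi.1 hi.2) (hB i hi.1 hi.2)
  · refine ⟨fun S => m S ∧ m' S, fun S S' h hh => ⟨hm S S' h hh.1, hm' S S' h hh.2⟩, ?_⟩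
    intro i hi hi'
    refine ⟨A i ∩ B i, (hA i hi hi').inter (hB i hi hi'), ?_⟩
    intro ω hω
    push Not at hω
    obtain ⟨hω1, hω2⟩ := hω
    obtain ⟨h1, h2, h3, h4⟩ := hAω i hi hi' ω hω1
    obtain ⟨h1', h2', h3', h4'⟩ := hBω i hi hi' ω hω1
    have hevP : ev (fun z => u z && v z) (P i ω) = (ev u (P i ω) && ev v (P i ω)) := rfl
    have hevQ : ev (fun z => u z && v z) (Q (i+1) ω) =
      (ev u (Q (i+1) ω) && ev v (Q (i+1) ω)) := rfl
    rw [hevP, hevQ]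
    refine ⟨?_, ?_, ?_, ?_⟩
    · rw [Bool.and_eq_true, h1, h1']
    · rw [Bool.and_eq_true, h2, h2']
    · rintro ⟨T, hT, hTP⟩
      rw [Finset.mem_inter] at hT
      rw [Bool.and_eq_true]
      exact ⟨h3 ⟨T, hT.1, hTP⟩, h3' ⟨T, hT.2, hTP⟩⟩
    · intro h
      rw [Bool.and_eq_true] at h
      have := hω2 i (Finset.mem_Ico.2 ⟨hi, hi'⟩) (h4 h.1) (h4' h.2)
      exact this

theorem rp_or [Nonempty Ω] (hS : Sc P Q G w ε η ζ R) {u v : (X × Bool → Bool) → Bool}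
    {a b : ℕ} (hb : b ≤ R) {Bad : Ω → Prop} (hu : Rp P Q G ε u a b Bad)
    (hv : Rp P Q G ε v a b Bad) :
    ∃ Bad' : Ω → Prop, (∀ ω, Bad ω → Bad' ω) ∧ pr Bad' ≤ pr Bad + R * etaOr G ε ∧
      Rp P Q G ε (fun z => u z || v z) a b Bad' := by
  obtain ⟨m, hm, hu⟩ := hu
  obtain ⟨m', hm', hv⟩ := hv
  choose! A hA hAω using hu
  choose! B hB hBω using hv
  have hε0 := hS.ε0
  have hclos : ∀ i, a ≤ i → i < b → ∃ C : Finset (Finset (X × Bool)), A i ∪ B i ⊆ C ∧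
      CF (P i) G ε C ∧
      pr (fun ω => (∃ T ∈ C, T ⊆ P i ω) ∧ ∀ T ∈ A i ∪ B i, ¬ T ⊆ P i ω) ≤ etaOr G ε := by
    intro i hi hi'
    have hsub : A i ∪ B i ⊆ AdmSets G := by
      intro T hT
      rcases Finset.mem_union.1 hT with hT | hT
      · exact mem_AdmSets.2 ((hA i hi hi').adm T hT)
      · exact mem_AdmSets.2 ((hB i hi hi').adm T hT)
    obtain ⟨C, h1, h2, h3⟩ := exists_cf (P i) G hε0 _ (A i ∪ B i) hsub rfl
    refine ⟨C, h1, h2, h3.trans ?_⟩
    unfold etaOr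
    gcongr
    exact Finset.sdiff_subset
  choose! C hC1 hC2 hC3 using hclos
  refine ⟨fun ω => Bad ω ∨ ∃ i ∈ Finset.Ico a b, ((∃ T ∈ C i, T ⊆ P i ω) ∧
    ∀ T ∈ A i ∪ B i, ¬ T ⊆ P i ω), fun ω h => Or.inl h, ?_, ?_⟩
  · refine (pr_or_le _ _).trans ?_
    gcongr
    refine (pr_exists_le _ _).trans ?_
    refine le_trans (Finset.sum_le_sum (g := fun _ => etaOr G ε) ?_)
      (sum_Ico_const_le' hb (etaOr_nonneg G hε0))
    intro i hi
    rw [Finset.mem_Ico] at hi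
    exact hC3 i hi.1 hi.2
  · refine ⟨fun S => m S ∨ m' S, fun S S' h hh => hh.imp (hm S S' h) (hm' S S' h), ?_⟩
    intro i hi hi'
    refine ⟨C i, hC2 i hi hi', ?_⟩
    intro ω hω
    push Not at hω
    obtain ⟨hω1, hω2⟩ := hω
    obtain ⟨h1, h2, h3, h4⟩ := hAω i hi hi' ω hω1
    obtain ⟨h1', h2', h3', h4'⟩ := hBω i hi hi' ω hω1
    have hevP : ev (fun z => u z || v z) (P i ω) = (ev u (P i ω) || ev v (P i ω)) := rfl
    have hevQ : ev (fun z => u z || v z) (Q (i+1) ω) =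
      (ev u (Q (i+1) ω) || ev v (Q (i+1) ω)) := rfl
    rw [hevP, hevQ]
    refine ⟨?_, ?_, ?_, ?_⟩
    · rw [Bool.or_eq_true, h1, h1']
    · rw [Bool.or_eq_true, h2, h2']
    · intro hex
      obtain ⟨T, hT, hTP⟩ := hω2 i (Finset.mem_Ico.2 ⟨hi, hi'⟩) hex
      rw [Bool.or_eq_true]
      rcases Finset.mem_union.1 hT with hT | hT
      · exact Or.inl (h3 ⟨T, hT, hTP⟩)
      · exact Or.inr (h3' ⟨T, hT, hTP⟩)
    · intro h
      rw [Bool.or_eq_true] at h
      rcases h with h | h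
      · obtain ⟨T, hT, hTQ⟩ := h4 h
        exact ⟨T, hC1 i hi hi' (Finset.mem_union_left _ hT), hTQ⟩
      · obtain ⟨T, hT, hTQ⟩ := h4' h
        exact ⟨T, hC1 i hi hi' (Finset.mem_union_right _ hT), hTQ⟩

/-- A function that is false on all good samples of the range is represented by `false`. -/
theorem rp_of_false [Nonempty Ω] (hS : Sc P Q G w ε η ζ R) {g : (X × Bool → Bool) → Bool}
    {a b : ℕ} {Bad : Ω → Prop}
    (h : ∀ i, a ≤ i → i < b → ∀ ω, ¬ Bad ω → ev g (P i ω) = false ∧ ev g (Q (i+1) ω) = false) :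
    Rp P Q G ε g a b Bad := by
  refine ⟨fun _ => False, fun _ _ _ h => h, ?_⟩
  intro i hi hi'
  refine ⟨∅, cf_empty hS.ε1, ?_⟩
  intro ω hω
  obtain ⟨h1, h2⟩ := h i hi hi' ω hω
  rw [h1, h2]
  simp

/-- A function that is true on all good samples of the range is represented by `true`. -/
theorem rp_of_true (hG : G ∅) {g : (X × Bool → Bool) → Bool}
    {a b : ℕ} {Bad : Ω → Prop}
    (h : ∀ i, a ≤ i → i < b → ∀ ω, ¬ Bad ω → ev g (P i ω) = true ∧ ev g (Q (i+1) ω) = true) :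
    Rp P Q G ε g a b Bad := by
  refine ⟨fun _ => True, fun _ _ _ h => h, ?_⟩
  intro i hi hi'
  refine ⟨AdmSets G, cf_AdmSets, ?_⟩
  intro ω hω
  obtain ⟨h1, h2⟩ := h i hi hi' ω hω
  rw [h1, h2]
  refine ⟨by simp, by simp, by simp, ?_⟩
  intro _
  exact ⟨∅, mem_AdmSets.2 hG, Finset.empty_subset _⟩

/-- The NOT gate: on one of two subranges (losing two scales) the gate is constant. -/
theorem rp_not [Nonempty Ω] (hS : Sc P Q G w ε η ζ R) {u : (X × Bool → Bool) → Bool}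
    {a b : ℕ} (hb : b ≤ R) (hab : a + 2 ≤ b) {Bad : Ω → Prop} (hu : Rp P Q G ε u a b Bad)
    (htot : pr Bad + ζ < 1) :
    ∃ (c : ℕ) (Bad' : Ω → Prop), a ≤ c ∧ c ≤ b ∧ (∀ ω, Bad ω → Bad' ω) ∧
      pr Bad' ≤ pr Bad + R * ζ ∧
      (Rp P Q G ε (fun z => !(u z)) a (c - 1) Bad) ∧
      (Rp P Q G ε (fun z => !(u z)) (c + 1) b Bad') := by
  classical
  obtain ⟨m, hm, hu⟩ := hu
  choose! A hA hAω using hu
  have hzeta : ∀ i, a ≤ i → i < b → ∅ ∉ A i →
      pr (fun ω => ∃ T ∈ A i, T ⊆ Q (i+1) ω) ≤ ζ := by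
    intro i hi hi' hne
    exact hS.zeta i (lt_of_lt_of_le hi' hb) _ (hA i hi hi') hne
  -- types are monotone
  have hmono : ∀ i, a ≤ i → i + 1 < b → ∅ ∈ A (i+1) → ∅ ∈ A i := by
    intro i hi hi' hmem
    by_contra hne
    have h1 : pr (fun ω => Bad ω ∨ ∃ T ∈ A i, T ⊆ Q (i+1) ω) < 1 := by
      refine lt_of_le_of_lt (pr_or_le _ _) ?_
      have := hzeta i hi (by omega) hne
      linarith
    obtain ⟨ω, hω⟩ := exists_not_of_pr_lt_one h1
    push Not at hω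
    obtain ⟨hω1, hω2⟩ := hω
    obtain ⟨h2, _, h4, _⟩ := hAω (i+1) (by omega) hi' ω hω1
    obtain ⟨_, h2', _, h4'⟩ := hAω i hi (by omega) ω hω1
    have h5 : ev u (P (i+1) ω) = true := h4 ⟨∅, hmem, Finset.empty_subset _⟩
    have h6 := hm _ _ (hS.sub (i+1) ω) (h2.1 h5)
    obtain ⟨T, hT, hTQ⟩ := h4' (h2'.2 h6)
    exact hω2 T hT hTQ
  -- threshold
  have hex : ∃ c, a ≤ c ∧ (c = b ∨ (c < b ∧ ∅ ∉ A c)) := ⟨b, by omega, Or.inl rfl⟩
  let c := Nat.find hex
  have hc := Nat.find_spec hex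
  have hcmin : ∀ i, a ≤ i → i < c → i < b → ∅ ∈ A i := by
    intro i hi hic hib
    by_contra hne
    exact Nat.find_min hex hic ⟨hi, Or.inr ⟨hib, hne⟩⟩
  have hcb : c ≤ b := by
    rcases hc.2 with h | h
    · exact le_of_eq h
    · exact h.1.le
  have hcmax : ∀ i, c ≤ i → i < b → ∅ ∉ A i := by
    intro i hci
    induction i, hci using Nat.le_induction with
    | base =>
      intro hcb'
      rcases hc.2 with h | h
      · exact absurd h (by omega)
      · exact h.2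
    | succ i hci ih =>
      intro hib hmem
      exact ih (by omega) (hmono i (hc.1.trans hci) hib hmem)
  refine ⟨c, fun ω => Bad ω ∨ ∃ i ∈ Finset.Ico c b, ∃ T ∈ A i, T ⊆ Q (i+1) ω, hc.1, hcb,
    fun ω h => Or.inl h, ?_, ?_, ?_⟩
  · refine (pr_or_le _ _).trans ?_
    gcongr
    refine (pr_exists_le _ _).trans ?_
    refine le_trans (Finset.sum_le_sum (g := fun _ => ζ) ?_)
      (sum_Ico_const_le' hb hS.ζ0)
    intro i hi
    rw [Finset.mem_Ico] at hi
    exact hzeta i (hc.1.trans hi.1) hi.2 (hcmax i hi.1 hi.2)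
  · apply rp_of_false hS
    intro i hi hi' ω hω
    have hevP : ev (fun z => !(u z)) (P i ω) = !(ev u (P i ω)) := rfl
    have hevQ : ev (fun z => !(u z)) (Q (i+1) ω) = !(ev u (Q (i+1) ω)) := rfl
    rw [hevP, hevQ]
    have hic : i + 1 < c := by omega
    obtain ⟨h1, h2, h3, h4⟩ := hAω i hi (by omega) ω hω
    obtain ⟨h1', h2', h3', h4'⟩ := hAω (i+1) (by omega) (by omega) ω hω
    have e1 : ev u (P i ω) = true :=
      h3 ⟨∅, hcmin i hi (by omega) (by omega), Finset.empty_subset _⟩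
    have e2 : ev u (P (i+1) ω) = true :=
      h3' ⟨∅, hcmin (i+1) (by omega) (by omega) (by omega), Finset.empty_subset _⟩
    have e3 : ev u (Q (i+1) ω) = true := h2.2 (hm _ _ (hS.sub (i+1) ω) (h1'.1 e2))
    rw [e1, e3]
    simp
  · apply rp_of_true hS.adm.empty
    intro i hi hi' ω hω
    have hevP : ev (fun z => !(u z)) (P i ω) = !(ev u (P i ω)) := rfl
    have hevQ : ev (fun z => !(u z)) (Q (i+1) ω) = !(ev u (Q (i+1) ω)) := rfl
    rw [hevP, hevQ]
    push Not at hω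
    obtain ⟨hω1, hω2⟩ := hω
    obtain ⟨j, rfl⟩ : ∃ j, i = j + 1 := ⟨i - 1, by omega⟩
    have hcj : c ≤ j := by omega
    obtain ⟨h1, h2, h3, h4⟩ := hAω (j+1) (by omega) hi' ω hω1
    obtain ⟨h1', h2', h3', h4'⟩ := hAω j (by omega) (by omega) ω hω1
    have e1 : ev u (Q (j+1+1) ω) = false := by
      rw [Bool.eq_false_iff]
      intro h
      obtain ⟨T, hT, hTQ⟩ := h4 h
      exact hω2 (j+1) (Finset.mem_Ico.2 ⟨by omega, hi'⟩) T hT hTQ
    have e2 : ev u (P (j+1) ω) = false := by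
      rw [Bool.eq_false_iff]
      intro h
      have h5 := h2'.2 (hm _ _ (hS.sub (j+1) ω) (h1.1 h))
      obtain ⟨T, hT, hTQ⟩ := h4' h5
      exact hω2 j (Finset.mem_Ico.2 ⟨hcj, by omega⟩) T hT hTQ
    rw [e1, e2]
    simp

/-- Main induction along the circuit. -/
theorem sc_induction [Nonempty Ω] (hS : Sc P Q G w ε η ζ R) {t r : ℕ}
    {L : List ((X × Bool → Bool) → Bool)} (hL : NegCircuit t r L) :
    ∀ rmax, r ≤ rmax → 3 * 2 ^ rmax ≤ R + 2 →
      t * (R * (etaOr G ε + η)) + (r + 1) * (R * ζ) < 1 →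
      ∃ (a b : ℕ) (Bad : Ω → Prop), a ≤ b ∧ b ≤ R ∧ 3 * 2 ^ (rmax - r) ≤ (b - a) + 2 ∧
        pr Bad ≤ t * (R * (etaOr G ε + η)) + r * (R * ζ) ∧
        ∀ u ∈ L, Rp P Q G ε u a b Bad := by
  have he0 := etaOr_nonneg G hS.ε0
  have he1 := hS.η0
  have hζ0 := hS.ζ0
  have hRR : (0:ℝ) ≤ R := Nat.cast_nonneg _
  induction hL with
  | nil =>
    intro rmax _ hR _
    refine ⟨0, R, fun _ => False, Nat.zero_le _, le_refl _, by simpa using hR, ?_, ?_⟩
    · rw [pr_false]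
      simp
    · intro u hu
      simp at hu
  | @and t r L u v hL hu hv ih =>
    intro rmax hr hR htot
    have hstep : (t:ℝ) * (R * (etaOr G ε + η)) ≤
        ((t + 1 : ℕ) : ℝ) * (R * (etaOr G ε + η)) := by
      gcongr
      norm_num
    obtain ⟨a, b, Bad, hab, hbR, hlen, hpr, hrep⟩ := ih rmax hr hR (by linarith)
    obtain ⟨Bad', hBB, hpr', hrep'⟩ := rp_and hS hbR (rp_of_source hS hbR Bad hrep hu)
      (rp_of_source hS hbR Bad hrep hv)
    refine ⟨a, b, Bad', hab, hbR, hlen, ?_, ?_⟩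
    · push_cast
      have : (R:ℝ) * η ≤ R * (etaOr G ε + η) := by gcongr; linarith
      linarith
    · intro g hg
      rcases List.mem_cons.1 hg with rfl | hg
      · exact hrep'
      · exact (hrep g hg).mono (le_refl _) (le_refl _) hBB
  | @or t r L u v hL hu hv ih =>
    intro rmax hr hR htot
    have hstep : (t:ℝ) * (R * (etaOr G ε + η)) ≤
        ((t + 1 : ℕ) : ℝ) * (R * (etaOr G ε + η)) := by
      gcongr
      norm_num
    obtain ⟨a, b, Bad, hab, hbR, hlen, hpr, hrep⟩ := ih rmax hr hR (by linarith)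
    obtain ⟨Bad', hBB, hpr', hrep'⟩ := rp_or hS hbR (rp_of_source hS hbR Bad hrep hu)
      (rp_of_source hS hbR Bad hrep hv)
    refine ⟨a, b, Bad', hab, hbR, hlen, ?_, ?_⟩
    · push_cast
      have : (R:ℝ) * etaOr G ε ≤ R * (etaOr G ε + η) := by gcongr; linarith
      linarith
    · intro g hg
      rcases List.mem_cons.1 hg with rfl | hg
      · exact hrep'
      · exact (hrep g hg).mono (le_refl _) (le_refl _) hBB
  | @not t r L u hL hu ih =>
    intro rmax hr hR htot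
    push_cast at htot
    have h2β : (0:ℝ) ≤ R * ζ := by positivity
    obtain ⟨a, b, Bad, hab, hbR, hlen, hpr, hrep⟩ := ih rmax (by omega) hR (by linarith)
    have hpow : 2 ^ (rmax - r) = 2 * 2 ^ (rmax - (r + 1)) := by
      rw [← pow_succ']
      congr 1
      omega
    have hpos : 0 < 2 ^ (rmax - (r + 1)) := by positivity
    have hab2 : a + 2 ≤ b := by omega
    have hR1 : (1:ℝ) ≤ R := by
      have : 1 ≤ R := by omega
      exact_mod_cast this
    have htot' : pr Bad + ζ < 1 := by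
      have : ζ ≤ R * ζ := by nlinarith
      linarith
    obtain ⟨c, Bad', hac, hcb, hBB, hpr', hrep1, hrep2⟩ :=
      rp_not hS hbR hab2 (rp_of_source hS hbR Bad hrep hu) htot'
    have hprt : pr Bad' ≤ t * (R * (etaOr G ε + η)) + ((r:ℝ) + 1) * (R * ζ) := by
      linarith
    by_cases hcase : 3 * 2 ^ (rmax - (r + 1)) ≤ (c - 1 - a) + 2
    · refine ⟨a, c - 1, Bad', by omega, by omega, hcase, ?_, ?_⟩
      · push_cast
        exact hprt
      · intro g hg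
        rcases List.mem_cons.1 hg with rfl | hg
        · exact hrep1.mono (le_refl _) (le_refl _) hBB
        · exact (hrep g hg).mono (le_refl _) (by omega) hBB
    · refine ⟨c + 1, b, Bad', by omega, hbR, by omega, ?_, ?_⟩
      · push_cast
        exact hprt
      · intro g hg
        rcases List.mem_cons.1 hg with rfl | hg
        · exact hrep2
        · exact (hrep g hg).mono (by omega) (le_refl _) hBB

/-- **Abstract lower bound.** A circuit with at most `rmax` NOT gates and `t` AND/OR gates cannot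
reject the `P i ω` with probability at least `3/4` while accepting the `Q (i+1) ω` with
probability at least `1/2`. -/
theorem abstract_lower [Nonempty Ω] (hS : Sc P Q G w ε η ζ R) {t r : ℕ}
    {L : List ((X × Bool → Bool) → Bool)} (hL : NegCircuit t r L)
    {F : (X × Bool → Bool) → Bool} (hF : Source L F) {rmax : ℕ} (hr : r ≤ rmax)
    (hR : 3 * 2 ^ rmax ≤ R + 2)
    (hFP : ∀ i, i < R → pr (fun ω => ev F (P i ω) = true) ≤ 1 / 2)
    (hFQ : ∀ i, i < R → pr (fun ω => ev F (Q (i+1) ω) = false) ≤ 1 / 2) :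
    1 / 2 ≤ t * (R * (etaOr G ε + η)) + (rmax + 1) * (R * ζ) := by
  by_contra hcon
  push Not at hcon
  have hζ0 := hS.ζ0
  have hRR : (0:ℝ) ≤ R := Nat.cast_nonneg _
  have h2β : (0:ℝ) ≤ R * ζ := by positivity
  have hrr : (r:ℝ) ≤ rmax := by exact_mod_cast hr
  have h1 : ((r:ℝ) + 1) * (R * ζ) ≤ (rmax + 1) * (R * ζ) := by gcongr
  obtain ⟨a, b, Bad, hab, hbR, hlen, hpr, hrep⟩ := sc_induction hS hL rmax hr hR (by linarith)
  have hpos : 0 < 2 ^ (rmax - r) := by positivity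
  have hab1 : a < b := by omega
  have hR1 : (1:ℝ) ≤ R := by
    have : 1 ≤ R := by omega
    exact_mod_cast this
  have h2 : ζ ≤ R * ζ := by nlinarith
  have h3 : ((r:ℝ) + 1) * (R * ζ) = r * (R * ζ) + R * ζ := by ring
  obtain ⟨m, hm, hrepF⟩ := rp_of_source hS hbR Bad hrep hF
  obtain ⟨A, hA, hAω⟩ := hrepF a (le_refl _) hab1
  have haR : a < R := lt_of_lt_of_le hab1 hbR
  by_cases hne : ∅ ∈ A
  · have h4 : pr (fun ω => Bad ω ∨ ev F (P a ω) = true) < 1 := by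
      refine lt_of_le_of_lt (pr_or_le _ _) ?_
      have := hFP a haR
      linarith
    obtain ⟨ω, hω⟩ := exists_not_of_pr_lt_one h4
    push Not at hω
    exact hω.2 ((hAω ω hω.1).2.2.1 ⟨∅, hne, Finset.empty_subset _⟩)
  · have hz : pr (fun ω => ∃ T ∈ A, T ⊆ Q (a+1) ω) ≤ ζ := hS.zeta a haR A hA hne
    have h4 : pr (fun ω => Bad ω ∨ ((∃ T ∈ A, T ⊆ Q (a+1) ω) ∨ ev F (Q (a+1) ω) = false)) < 1 := by
      refine lt_of_le_of_lt (pr_or_le _ _) ?_
      have h5 := pr_or_le (fun ω => ∃ T ∈ A, T ⊆ Q (a+1) ω) (fun ω => ev F (Q (a+1) ω) = false)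
      have h6 := hFQ a haR
      linarith
    obtain ⟨ω, hω⟩ := exists_not_of_pr_lt_one h4
    push Not at hω
    obtain ⟨hω1, hω2, hω3⟩ := hω
    have h7 : ev F (Q (a+1) ω) = true := by
      rcases Bool.eq_false_or_eq_true (ev F (Q (a+1) ω)) with h | h
      · exact h
      · exact absurd h hω3
    obtain ⟨T, hT, hTQ⟩ := (hAω ω hω1).2.2.2 h7
    exact hω2 T hT hTQ

end Pool.Agent.H24
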