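import Pool.Agent.H24.TabSubst
import Pool.Agent.H24.Count

/-!
The monotone complexity of the slices of Partial MCSP with size parameter `s < n`.
-/

namespace Pool.Agent.H24

open Finset

/-! ### The upper bound -/

theorem exists_and_circuit {V : Type} {t : ℕ} {L : List ((V → Bool) → Bool)}
    (h : NegCircuit t 0 L) : ∀ vs : List V,
    ∃ L' : List ((V → Bool) → Bool), NegCircuit (t + vs.length) 0 L' ∧ (∀ u ∈ L, u ∈ L') ∧
      Source L' (fun a => vs.all (fun v => a v))
  | [] => ⟨L, h, fun u hu => hu, Or.inr (Or.inl ⟨true, by funext a; simp⟩)⟩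
  | v :: vs => by
    obtain ⟨L', h1, h2, h3⟩ := exists_and_circuit h vs
    refine ⟨(fun a => a v && vs.all (fun v => a v)) :: L',
      NegCircuit.and h1 (Or.inl ⟨v, rfl⟩) h3, fun u hu => List.mem_cons_of_mem _ (h2 u hu),
      Or.inr (Or.inr ?_)⟩
    simp

theorem exists_or_circuit {V : Type} (K : ℕ) : ∀ fs : List (List V),
    (∀ f ∈ fs, f.length ≤ K) →
    ∃ (t : ℕ) (L : List ((V → Bool) → Bool)), NegCircuit t 0 L ∧ t ≤ fs.length * (K + 1) ∧
      Source L (fun a => fs.any (fun f => f.all (fun v => a v)))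
  | [], _ => ⟨0, [], NegCircuit.nil, by simp, Or.inr (Or.inl ⟨false, by funext a; simp⟩)⟩
  | f :: fs, hK => by
    obtain ⟨t, L, h1, h2, h3⟩ := exists_or_circuit K fs
      (fun f hf => hK f (List.mem_cons_of_mem _ hf))
    obtain ⟨L', h4, h5, h6⟩ := exists_and_circuit h1 f
    have h7 : Source L' (fun a => fs.any (fun f => f.all (fun v => a v))) := by
      rcases h3 with h | h | h
      · exact Or.inl h
      · exact Or.inr (Or.inl h)
      · exact Or.inr (Or.inr (h5 _ h))
    refine ⟨t + f.length + 1, (fun a => f.all (fun v => a v) ||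
      fs.any (fun f => f.all (fun v => a v))) :: L', NegCircuit.or h4 h6 h7, ?_,
      Or.inr (Or.inr (by simp))⟩
    have h8 := hK f (by simp)
    rw [List.length_cons, Nat.add_mul, Nat.one_mul]
    omega

theorem exists_decider (n s : ℕ) :
    ∃ (t : ℕ) (L : List (((Fin n → Bool) × Bool → Bool) → Bool))
      (F : ((Fin n → Bool) × Bool → Bool) → Bool), NegCircuit t 0 L ∧ Source L F ∧
      t ≤ (smallFns n s).card * (2 ^ n + 1) ∧
      ∀ T : (Fin n → Bool) → Option Bool, F (enc T) = true ↔ PartialMCSP T s := by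
  classical
  obtain ⟨t, L, h1, h2, h3⟩ := exists_or_circuit (V := (Fin n → Bool) × Bool) (2 ^ n)
    ((smallFns n s).toList.map
      (fun f => (univ : Finset (Fin n → Bool)).toList.map (fun x => (x, f x)))) (by
      intro f hf
      rw [List.mem_map] at hf
      obtain ⟨g, -, rfl⟩ := hf
      rw [List.length_map, Finset.length_toList]
      simp)
  refine ⟨t, L, _, h1, h3, ?_, ?_⟩
  · rw [List.length_map, Finset.length_toList] at h2
    exact h2
  · intro T
    rw [List.any_eq_true]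
    constructor
    · rintro ⟨f, hf, hall⟩
      rw [List.mem_map] at hf
      obtain ⟨g, hg, rfl⟩ := hf
      rw [Finset.mem_toList, mem_smallFns] at hg
      refine ⟨g, hg, ?_⟩
      intro x b hxb
      rw [List.all_eq_true] at hall
      have h4 := hall (x, g x) (List.mem_map.2 ⟨x, by simp, rfl⟩)
      simp only [enc, hxb, Bool.not_eq_true', decide_eq_false_iff_not, Option.some.injEq] at h4
      revert h4
      cases b <;> cases g x <;> simp
    · rintro ⟨g, hg, hT⟩
      refine ⟨(univ : Finset (Fin n → Bool)).toList.map (fun x => (x, g x)),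
        List.mem_map.2 ⟨g, ?_, rfl⟩, ?_⟩
      · rw [Finset.mem_toList, mem_smallFns]
        exact hg
      · rw [List.all_eq_true]
        intro l hl
        rw [List.mem_map] at hl
        obtain ⟨x, -, rfl⟩ := hl
        simp only [enc, Bool.not_eq_true', decide_eq_false_iff_not]
        intro h
        have := hT x _ h
        revert this
        cases g x <;> simp

theorem tight_upper {n s : ℕ} (hs : 1 ≤ s) (hsn : s < n) :
    ∃ (t : ℕ) (L : List (((Fin n → Bool) × Bool → Bool) → Bool))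
      (F : ((Fin n → Bool) × Bool → Bool) → Bool), NegCircuit t 0 L ∧ Source L F ∧
      t ≤ 2 ^ (9 * (n + s * Nat.log 2 n)) ∧
      ∀ T : (Fin n → Bool) → Option Bool, F (enc T) = true ↔ PartialMCSP T s := by
  obtain ⟨t, L, F, h1, h2, h3, h4⟩ := exists_decider n s
  refine ⟨t, L, F, h1, h2, h3.trans ?_, h4⟩
  set ℓ := Nat.log 2 n with hℓ
  have hn : n < 2 ^ (ℓ + 1) := Nat.lt_pow_succ_log_self (by norm_num) n
  have hℓ1 : 1 ≤ ℓ := by
    rw [hℓ]
    exact Nat.log_pos (by norm_num) (by omega)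
  have hnn : n ≤ 2 ^ n := (Nat.lt_two_pow_self (n := n)).le
  have h5 : 8 * (n + s) ^ 2 ≤ 2 ^ (9 * ℓ) := by
    calc 8 * (n + s) ^ 2 ≤ 8 * (2 ^ (ℓ + 1) + 2 ^ (ℓ + 1)) ^ 2 := by (gcongr; omega)
      _ = 2 ^ (2 * ℓ + 7) := by
          rw [← two_mul, ← pow_succ', ← pow_mul, show (8:ℕ) = 2 ^ 3 by norm_num, ← pow_add]
          congr 1
          ring
      _ ≤ 2 ^ (9 * ℓ) := Nat.pow_le_pow_right (by norm_num) (by omega)
  have h6 : 2 * (n + s) ≤ 2 ^ (n + 2) := by
    rw [pow_add]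
    omega
  have h7 : 2 ^ n + 1 ≤ 2 ^ (n + 1) := by
    have : 1 ≤ 2 ^ n := Nat.one_le_two_pow
    rw [pow_succ]
    omega
  calc (smallFns n s).card * (2 ^ n + 1)
      ≤ ((s + 1) * ((8 * (n + s) ^ 2) ^ s * (2 * (n + s)))) * (2 ^ n + 1) :=
        Nat.mul_le_mul_right _ (card_smallFns_le s)
    _ ≤ (2 ^ n * ((2 ^ (9 * ℓ)) ^ s * 2 ^ (n + 2))) * 2 ^ (n + 1) := by
        gcongr
        omega
    _ = 2 ^ (n + (9 * ℓ * s + (n + 2)) + (n + 1)) := by
        rw [← pow_mul, ← pow_add, ← pow_add, ← pow_add]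
    _ ≤ 2 ^ (9 * (n + s * ℓ)) := by
        apply Nat.pow_le_pow_right (by norm_num)
        have : 9 * ℓ * s = 9 * (s * ℓ) := by ring
        rw [this]
        omega

/-! ### The lower bound -/

theorem tight_lower {n s : ℕ} (hs : 1 ≤ s) (hsn : s < n) {t : ℕ}
    {L : List (((Fin n → Bool) × Bool → Bool) → Bool)}
    {F : ((Fin n → Bool) × Bool → Bool) → Bool}
    (hL : NegCircuit t 0 L) (hF : Source L F)
    (hFT : ∀ T : (Fin n → Bool) → Option Bool, F (enc T) = true ↔ PartialMCSP T s) :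
    2 ^ (n + s * Nat.log 2 n) ≤ (t + 2) ^ (2 ^ 250) := by
  set ℓ := Nat.log 2 n with hℓ
  have hacc : ∀ T : (Fin n → Bool) → Option Bool, PartialMCSP T s → F (enc T) = true :=
    fun T h => (hFT T).2 h
  have hrej : ∀ T : (Fin n → Bool) → Option Bool, ¬ PartialMCSP T s → F (enc T) = false := by
    intro T h
    rw [← Bool.not_eq_true]
    exact fun h' => h ((hFT T).1 h')
  have hn : n < 2 ^ (ℓ + 1) := Nat.lt_pow_succ_log_self (by norm_num) n
  have hn' : 2 ^ ℓ ≤ n := Nat.pow_log_le_self 2 (by omega)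
  by_cases hsmall : ℓ < 200
  · -- few inputs
    have h1 : n < 2 ^ 200 := hn.trans_le (Nat.pow_le_pow_right (by norm_num) (by omega))
    have h2 : s * ℓ ≤ 2 ^ 200 * 200 := Nat.mul_le_mul (by omega) (by omega)
    have h3 : n + s * ℓ ≤ 2 ^ 250 := by
      have h4 : (2:ℕ) ^ 200 + 2 ^ 200 * 200 ≤ 2 ^ 250 := by norm_num
      generalize s * ℓ = y at h2 ⊢
      omega
    exact (Nat.pow_le_pow_right (by norm_num) h3).trans (Nat.pow_le_pow_left (by omega) _)
  push Not at hsmall
  by_cases hlow : s * ℓ < n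
  · -- the trivial bound
    have h1 : s * 2 ≤ s * ℓ := Nat.mul_le_mul_left _ (by omega)
    have h2 := tight_lower_trivial (by omega) (by omega) hL hF hacc hrej
    have h3 : 2 ^ n ≤ (t + 2) ^ 2 := h2.trans (by nlinarith)
    calc 2 ^ (n + s * ℓ) ≤ 2 ^ (n * 2) := Nat.pow_le_pow_right (by norm_num) (by omega)
      _ = (2 ^ n) ^ 2 := by rw [pow_mul]
      _ ≤ ((t + 2) ^ 2) ^ 2 := Nat.pow_le_pow_left h3 2
      _ = (t + 2) ^ 4 := by rw [← pow_mul]
      _ ≤ (t + 2) ^ (2 ^ 250) := Nat.pow_le_pow_right (by omega) (by norm_num)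
  · push Not at hlow
    obtain ⟨h, hh⟩ : ∃ h, h = ℓ / 2 := ⟨_, rfl⟩
    have hh1 : 2 * h ≤ ℓ := by omega
    have hh2 : ℓ ≤ 2 * h + 1 := by omega
    have hh100 : 100 ≤ h := by omega
    have hpow : ∀ x : ℕ, 100 ≤ x → 32 * (2 * x + 1) ≤ 2 ^ x := by
      intro x hx
      induction x, hx using Nat.le_induction with
      | base => norm_num
      | succ x hx ih =>
        rw [pow_succ]
        omega
    have h1 : 2 ^ h * 32 ≤ s := by
      have h2 : 2 ^ h * 2 ^ h ≤ n := by
        rw [← pow_add]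
        exact (Nat.pow_le_pow_right (by norm_num) (by omega)).trans hn'
      have h3 : 32 * ℓ ≤ 2 ^ h := (by omega : 32 * ℓ ≤ 32 * (2 * h + 1)).trans (hpow h hh100)
      have h4 : (2 ^ h * 32) * 2 ^ h ≤ s * 2 ^ h := by
        calc (2 ^ h * 32) * 2 ^ h = (2 ^ h * 2 ^ h) * 32 := by ring
          _ ≤ n * 32 := Nat.mul_le_mul_right _ h2
          _ ≤ (s * ℓ) * 32 := Nat.mul_le_mul_right _ hlow
          _ = s * (32 * ℓ) := by ring
          _ ≤ s * 2 ^ h := Nat.mul_le_mul_left _ h3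
      exact Nat.le_of_mul_le_mul_right h4 (by positivity)
    set m := (s + 1) / 8 with hm
    set k := Nat.log 2 m with hk
    have hm1 : 2 ^ h ≤ m := by
      rw [hm, Nat.le_div_iff_mul_le (by norm_num)]
      omega
    have hm0 : m ≠ 0 := by
      have : 0 < 2 ^ h := by positivity
      omega
    have hkh : h ≤ k := (Nat.le_log_iff_pow_le (by norm_num) hm0).2 hm1
    have hkm : 2 ^ k ≤ m := Nat.pow_log_le_self 2 hm0
    have h2 := tight_lower_large (k := k) (m := m) (by omega) hkm (by omega) hsn hL hF hacc hrej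
    have hmbig : 64 ≤ m := by
      have : 2 ^ 6 ≤ 2 ^ h := Nat.pow_le_pow_right (by norm_num) (by omega)
      omega
    have h3 : s ≤ 48 * (m / 2) := by omega
    have h4 : ℓ ≤ 96 * (k / 16 - 1) := by omega
    have h5 : s * ℓ ≤ 4608 * (m / 2 * (k / 16 - 1)) := by
      calc s * ℓ ≤ (48 * (m / 2)) * (96 * (k / 16 - 1)) := Nat.mul_le_mul h3 h4
        _ = 4608 * (m / 2 * (k / 16 - 1)) := by ring
    calc 2 ^ (n + s * ℓ) ≤ 2 ^ (m / 2 * (k / 16 - 1) * 9216) := by
          apply Nat.pow_le_pow_right (by norm_num)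
          omega
      _ = (2 ^ (m / 2 * (k / 16 - 1))) ^ 9216 := by rw [pow_mul]
      _ ≤ (t + 2) ^ 9216 := Nat.pow_le_pow_left (h2.trans (by omega)) _
      _ ≤ (t + 2) ^ (2 ^ 250) := Nat.pow_le_pow_right (by omega) (by norm_num)

/-- Both bounds. -/
theorem monotone_tight :
    ∃ C : ℕ, ∀ n s : ℕ, 1 ≤ s → s < n →
      (∃ (t : ℕ) (L : List (((Fin n → Bool) × Bool → Bool) → Bool))
        (F : ((Fin n → Bool) × Bool → Bool) → Bool), NegCircuit t 0 L ∧ Source L F ∧
        (∀ T : (Fin n → Bool) → Option Bool, F (enc T) = true ↔ PartialMCSP T s) ∧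
        t ≤ 2 ^ (C * (n + s * Nat.log 2 n))) ∧
      (∀ (t : ℕ) (L : List (((Fin n → Bool) × Bool → Bool) → Bool))
        (F : ((Fin n → Bool) × Bool → Bool) → Bool), NegCircuit t 0 L → Source L F →
        (∀ T : (Fin n → Bool) → Option Bool, F (enc T) = true ↔ PartialMCSP T s) →
        2 ^ (n + s * Nat.log 2 n) ≤ (t + 2) ^ C) := by
  refine ⟨2 ^ 250, fun n s hs hsn => ⟨?_, ?_⟩⟩
  · obtain ⟨t, L, F, h1, h2, h3, h4⟩ := tight_upper hs hsn
    refine ⟨t, L, F, h1, h2, h4, h3.trans (Nat.pow_le_pow_right (by norm_num) ?_)⟩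
    exact Nat.mul_le_mul_right _ (by norm_num)
  · intro t L F hL hF hFT
    exact tight_lower hs hsn hL hF hFT

end Pool.Agent.H24
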