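import Pool.Agent.H24.CspNeg
import Pool.Agent.H24.Tight

/-!
The slices of Partial MCSP with size parameter `s < n` against circuits with at most `s / C` NOT
gates.
-/

namespace Pool.Agent.H24

open Finset

/-- make all pairs outside `H` allowed -/
def mask {k m : ℕ} (H : Finset (Fin k × Fin k)) (A : Ed k m → Bool) : Ed k m → Bool :=
  fun e => if (e.1.1, e.2.1) ∈ H then A e else true

theorem mask_source {k m : ℕ} (H : Finset (Fin k × Fin k)) (e : Ed k m) :
    (∃ v, (fun A : Ed k m → Bool => mask H A e) = fun A => A v) ∨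
      ∃ c : Bool, (fun A : Ed k m → Bool => mask H A e) = fun _ => c := by
  by_cases h : (e.1.1, e.2.1) ∈ H
  · left
    refine ⟨e, ?_⟩
    funext A
    simp [mask, h]
  · right
    refine ⟨true, ?_⟩
    funext A
    simp [mask, h]

theorem sol_mask {k m : ℕ} (H : Finset (Fin k × Fin k)) (A : Ed k m → Bool) :
    Sol (mask H A) ↔ SolH H A := by
  constructor
  · rintro ⟨w, hw⟩
    refine ⟨w, ?_⟩
    rintro ⟨⟨i, p⟩, ⟨j, q⟩⟩ he
    rw [plH, Finset.mem_filter, mem_planted] at he
    simp only at he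
    obtain ⟨⟨h1, h2, -⟩, h3⟩ := he
    have := hw i j
    rw [h1, h2] at this
    simpa [mask, h3] using this
  · rintro ⟨w, hw⟩
    refine ⟨w, fun i j => ?_⟩
    unfold mask
    split_ifs with h
    · apply hw
      rw [plH, Finset.mem_filter, mem_planted]
      exact ⟨⟨rfl, rfl, rfl⟩, h⟩
    · rfl

theorem tight_neg_large {q m n s : ℕ} (hq : 3000 ≤ q) (hqm : 2 ^ (16 * q) ≤ m)
    (hms : 8 * m ≤ s + 1) (hsn : s < n) {t r : ℕ} (hr : 64 * r ≤ m)
    {L : List (((Fin n → Bool) × Bool → Bool) → Bool)}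
    {F : ((Fin n → Bool) × Bool → Bool) → Bool}
    (hL : NegCircuit t r L) (hF : Source L F)
    (hacc : ∀ T : (Fin n → Bool) → Option Bool, PartialMCSP T s → F (enc T) = true)
    (hrej : ∀ T : (Fin n → Bool) → Option Bool, ¬ PartialMCSP T s → F (enc T) = false) :
    2 ^ (m / 4 * (q / 1000 - 2)) ≤ t := by
  obtain ⟨ρ, hρ⟩ : ∃ ρ, s + 1 = 4 * (2 ^ (16 * q) + m) + ρ :=
    ⟨s + 1 - 4 * (2 ^ (16 * q) + m), by omega⟩
  have hm : 0 < m := lt_of_lt_of_le (by positivity) hqm
  have hcard : Fintype.card (H87.PMCSP.VT (16 * q) m ρ) ≤ Fintype.card (Fin n) := by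
    rw [H87.PMCSP.card_VT, Fintype.card_fin]
    omega
  obtain ⟨e⟩ := Function.Embedding.nonempty_of_card_le hcard
  obtain ⟨H, hH⟩ := csp_neg_lower hq hqm
  have hL1 := circuit_subst (fun A => enc (tabA e A)) (tabA_source e) hL
  have hF1 := source_subst (fun A => enc (tabA e A)) (tabA_source e) hF
  have hL2 := circuit_subst (mask H) (mask_source H) hL1
  have hF2 := source_subst (mask H) (mask_source H) hF1
  refine hH t r _ _ hr hL2 hF2 ?_ ?_
  · intro A hA
    exact hacc _ ((sol_iff hm e _ hρ).2 ((sol_mask H A).2 hA))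
  · intro A hA
    exact hrej _ (fun h => hA ((sol_mask H A).1 ((sol_iff hm e _ hρ).1 h)))

/-! ### The trivial bound with NOT gates -/

theorem neg_support {V : Type} {t r : ℕ} {L : List ((V → Bool) → Bool)}
    (h : NegCircuit t r L) :
    ∃ D : Finset V, D.card ≤ 2 * t ∧ ∀ u, Source L u → ∃ E : Finset V, E.card ≤ 1 ∧
      ∀ a a' : V → Bool, (∀ v ∈ D, a v = a' v) → (∀ v ∈ E, a v = a' v) → u a = u a' := by
  classical
  have step : ∀ {L : List ((V → Bool) → Bool)} {t : ℕ} {u v : (V → Bool) → Bool}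
      (op : Bool → Bool → Bool), Source L u → Source L v →
      (∃ D : Finset V, D.card ≤ 2 * t ∧ ∀ u, Source L u → ∃ E : Finset V, E.card ≤ 1 ∧
        ∀ a a' : V → Bool, (∀ v ∈ D, a v = a' v) → (∀ v ∈ E, a v = a' v) → u a = u a') →
      ∃ D : Finset V, D.card ≤ 2 * (t + 1) ∧ ∀ w, Source ((fun a => op (u a) (v a)) :: L) w →
        ∃ E : Finset V, E.card ≤ 1 ∧
        ∀ a a' : V → Bool, (∀ v ∈ D, a v = a' v) → (∀ v ∈ E, a v = a' v) → w a = w a' := by
    intro L t u v op hu hv h
    obtain ⟨D, hD, hDL⟩ := h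
    obtain ⟨E, hE, hE'⟩ := hDL u hu
    obtain ⟨E2, hE2, hE2'⟩ := hDL v hv
    refine ⟨D ∪ (E ∪ E2), ?_, ?_⟩
    · have h1 := Finset.card_union_le D (E ∪ E2)
      have h2 := Finset.card_union_le E E2
      omega
    · intro w hw
      have hold : ∀ w, Source L w → ∃ E3 : Finset V, E3.card ≤ 1 ∧
          ∀ a a' : V → Bool, (∀ v ∈ D ∪ (E ∪ E2), a v = a' v) → (∀ v ∈ E3, a v = a' v) →
            w a = w a' := by
        intro w hw
        obtain ⟨E3, hE3, hE3'⟩ := hDL w hw
        exact ⟨E3, hE3, fun a a' h1 h2 =>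
          hE3' a a' (fun v hv => h1 v (Finset.mem_union_left _ hv)) h2⟩
      rcases hw with h | h | h
      · exact hold w (Or.inl h)
      · exact hold w (Or.inr (Or.inl h))
      · rw [List.mem_cons] at h
        rcases h with rfl | h
        · refine ⟨∅, by simp, fun a a' h1 _ => ?_⟩
          have h2 : u a = u a' := hE' a a' (fun v hv => h1 v (Finset.mem_union_left _ hv))
            (fun v hv => h1 v (Finset.mem_union_right _ (Finset.mem_union_left _ hv)))
          have h3 : v a = v a' := hE2' a a' (fun v hv => h1 v (Finset.mem_union_left _ hv))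
            (fun v hv => h1 v (Finset.mem_union_right _ (Finset.mem_union_right _ hv)))
          simp only [h2, h3]
        · exact hold w (Or.inr (Or.inr h))
  induction h with
  | nil =>
    refine ⟨∅, by simp, ?_⟩
    intro u hu
    rcases hu with ⟨v, rfl⟩ | ⟨c, rfl⟩ | hu
    · exact ⟨{v}, by simp, fun a a' _ h => h v (by simp)⟩
    · exact ⟨∅, by simp, fun a a' _ _ => rfl⟩
    · simp at hu
  | and _ hu hv ih => exact step (fun a b => a && b) hu hv ih
  | or _ hu hv ih => exact step (fun a b => a || b) hu hv ih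
  | @not t r L u _ hu ih =>
    obtain ⟨D, hD, hDL⟩ := ih
    refine ⟨D, hD, ?_⟩
    intro w hw
    rcases hw with h | h | h
    · exact hDL w (Or.inl h)
    · exact hDL w (Or.inr (Or.inl h))
    · rw [List.mem_cons] at h
      rcases h with rfl | h
      · obtain ⟨E, hE, hE'⟩ := hDL u hu
        refine ⟨E, hE, fun a a' h1 h2 => ?_⟩
        simp only [hE' a a' h1 h2]
      · exact hDL w (Or.inr (Or.inr h))

/-- Every circuit reads many input bits. -/
theorem neg_lower_trivial {n s : ℕ} (hs : 0 < s) (hsn : s + 1 < n) {t r : ℕ}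
    {L : List (((Fin n → Bool) × Bool → Bool) → Bool)}
    {F : ((Fin n → Bool) × Bool → Bool) → Bool}
    (hL : NegCircuit t r L) (hF : Source L F)
    (hacc : ∀ T : (Fin n → Bool) → Option Bool, PartialMCSP T s → F (enc T) = true)
    (hrej : ∀ T : (Fin n → Bool) → Option Bool, ¬ PartialMCSP T s → F (enc T) = false) :
    2 ^ n ≤ 2 * t + 1 := by
  classical
  obtain ⟨D0, hD0, hD0L⟩ := neg_support hL
  obtain ⟨E0, hE0, hE0F⟩ := hD0L F hF
  set D := D0 ∪ E0 with hDdef
  have hD : D.card ≤ 2 * t + 1 := (Finset.card_union_le _ _).trans (by omega)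
  have hDF : ∀ a a' : (Fin n → Bool) × Bool → Bool, (∀ v ∈ D, a v = a' v) → F a = F a' :=
    fun a a' h => hE0F a a' (fun v hv => h v (Finset.mem_union_left _ hv))
      (fun v hv => h v (Finset.mem_union_right _ hv))
  refine le_trans ?_ hD
  have h1 : (Finset.univ : Finset (Fin n → Bool)).card = 2 ^ n := by simp
  rw [← h1]
  refine Finset.card_le_card_of_injOn (fun x => (x, false)) ?_ ?_
  · intro x0 _
    by_contra hx0
    let T : (Fin n → Bool) → Option Bool := fun x => some (decide (x = x0))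
    let T' : (Fin n → Bool) → Option Bool := fun x => if x = x0 then none else some false
    have h2 : F (enc T) = false := by
      apply hrej
      rintro ⟨f, hf, hT⟩
      exact point_hard hsn x0 (fun x => hT x _ rfl) hf
    have h3 : F (enc T') = true := by
      apply hacc
      refine ⟨_, const_easy (by omega) hs, ?_⟩
      intro x b hxb
      simp only [T'] at hxb
      split_ifs at hxb
      simpa using hxb
    have h4 : F (enc T) = F (enc T') := by
      apply hDF
      rintro ⟨x, c⟩ hx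
      simp only [enc, T, T']
      by_cases h : x = x0
      · subst h
        cases c
        · exact absurd hx hx0
        · simp
      · simp [h]
    rw [h2, h3] at h4
    exact Bool.noConfusion h4
  · intro x _ y _ h
    exact (Prod.mk.inj h).1

/-! ### The lower bound for all slices -/

theorem neg_tight_lower {N : ℕ} (hN : 250000 ≤ N) {n s : ℕ} (hs : 1 ≤ s) (hsn : s < n) {t r : ℕ}
    (hr : 2 ^ (N + N) * r ≤ s) {L : List (((Fin n → Bool) × Bool → Bool) → Bool)}
    {F : ((Fin n → Bool) × Bool → Bool) → Bool}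
    (hL : NegCircuit t r L) (hF : Source L F)
    (hFT : ∀ T : (Fin n → Bool) → Option Bool, F (enc T) = true ↔ PartialMCSP T s) :
    2 ^ (n + s * Nat.log 2 n) ≤ (t + 2) ^ (2 ^ (N + N)) := by
  set ℓ := Nat.log 2 n with hℓ
  have hacc : ∀ T : (Fin n → Bool) → Option Bool, PartialMCSP T s → F (enc T) = true :=
    fun T h => (hFT T).2 h
  have hrej : ∀ T : (Fin n → Bool) → Option Bool, ¬ PartialMCSP T s → F (enc T) = false := by
    intro T h
    rw [← Bool.not_eq_true]
    exact fun h' => h ((hFT T).1 h')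
  have hNN : N + 1 ≤ 2 ^ N := Nat.lt_two_pow_self
  have hn : n < 2 ^ (ℓ + 1) := Nat.lt_pow_succ_log_self (by norm_num) n
  have hn' : 2 ^ ℓ ≤ n := Nat.pow_log_le_self 2 (by omega)
  have hCbig : 2 ^ 64 ≤ 2 ^ (N + N) := Nat.pow_le_pow_right (by norm_num) (by omega)
  have hC : 20000000 ≤ 2 ^ (N + N) := le_trans (by norm_num) hCbig
  by_cases hsmall : ℓ < N
  · -- few inputs
    have h1 : n ≤ 2 ^ N := hn.le.trans (Nat.pow_le_pow_right (by norm_num) (by omega))
    have h2 : n + s * ℓ ≤ 2 ^ (N + N) := by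
      calc n + s * ℓ ≤ 2 ^ N + 2 ^ N * ℓ := by
            apply Nat.add_le_add h1
            exact Nat.mul_le_mul_right _ (by omega)
        _ = 2 ^ N * (ℓ + 1) := by ring
        _ ≤ 2 ^ N * 2 ^ N := Nat.mul_le_mul_left _ (by omega)
        _ = 2 ^ (N + N) := by rw [pow_add]
    exact (Nat.pow_le_pow_right (by norm_num) h2).trans (Nat.pow_le_pow_left (by omega) _)
  push Not at hsmall
  by_cases hlow : s * ℓ < n
  · -- the trivial bound
    have h1 : s * 2 ≤ s * ℓ := Nat.mul_le_mul_left _ (by omega)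
    have h2 := neg_lower_trivial (by omega) (by omega) hL hF hacc hrej
    have h3 : 2 ^ n ≤ (t + 2) ^ 2 := h2.trans (by nlinarith)
    calc 2 ^ (n + s * ℓ) ≤ 2 ^ (n * 2) := Nat.pow_le_pow_right (by norm_num) (by omega)
      _ = (2 ^ n) ^ 2 := by rw [pow_mul]
      _ ≤ ((t + 2) ^ 2) ^ 2 := Nat.pow_le_pow_left h3 2
      _ = (t + 2) ^ 4 := by rw [← pow_mul]
      _ ≤ (t + 2) ^ (2 ^ (N + N)) := Nat.pow_le_pow_right (by omega) (by omega)
  · push Not at hlow
    obtain ⟨h, hh⟩ : ∃ h, h = ℓ / 2 := ⟨_, rfl⟩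
    have hh1 : 2 * h ≤ ℓ := by omega
    have hh2 : ℓ ≤ 2 * h + 1 := by omega
    have hh100 : 120000 ≤ h := by omega
    have hpow : ∀ x : ℕ, 100 ≤ x → 32 * (2 * x + 1) ≤ 2 ^ x := by
      intro x hx
      induction x, hx using Nat.le_induction with
      | base => norm_num
      | succ x hx ih =>
        rw [pow_succ]
        omega
    have h1 : 2 ^ h * 32 ≤ s := by
      have h2 : 2 ^ h * 2 ^ h ≤ n := by
        rw [← pow_add]
        exact (Nat.pow_le_pow_right (by norm_num) (by omega)).trans hn'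
      have h3 : 32 * ℓ ≤ 2 ^ h :=
        (by omega : 32 * ℓ ≤ 32 * (2 * h + 1)).trans (hpow h (by omega))
      have h4 : (2 ^ h * 32) * 2 ^ h ≤ s * 2 ^ h := by
        calc (2 ^ h * 32) * 2 ^ h = (2 ^ h * 2 ^ h) * 32 := by ring
          _ ≤ n * 32 := Nat.mul_le_mul_right _ h2
          _ ≤ (s * ℓ) * 32 := Nat.mul_le_mul_right _ hlow
          _ = s * (32 * ℓ) := by ring
          _ ≤ s * 2 ^ h := Nat.mul_le_mul_left _ h3
      exact Nat.le_of_mul_le_mul_right h4 (by positivity)
    set m := (s + 1) / 8 with hm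
    set k := Nat.log 2 m with hk
    have hm1 : 2 ^ h ≤ m := by
      rw [hm, Nat.le_div_iff_mul_le (by norm_num)]
      omega
    have hm0 : m ≠ 0 := by
      have : 0 < 2 ^ h := by positivity
      omega
    have hkh : h ≤ k := (Nat.le_log_iff_pow_le (by norm_num) hm0).2 hm1
    have hkm : 2 ^ k ≤ m := Nat.pow_log_le_self 2 hm0
    have hmbig : 64 ≤ m := by
      have : 2 ^ 6 ≤ 2 ^ h := Nat.pow_le_pow_right (by norm_num) (by omega)
      omega
    set q := k / 16 with hq
    have hqk : 16 * q ≤ k := Nat.mul_div_le _ _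
    have hqm : 2 ^ (16 * q) ≤ m := (Nat.pow_le_pow_right (by norm_num) hqk).trans hkm
    have hrm : 64 * r ≤ m := by
      have h3 : 20000000 * r ≤ s := (Nat.mul_le_mul_right _ hC).trans hr
      omega
    have h2 := tight_neg_large (q := q) (m := m) (by omega) hqm (by omega) hsn hrm hL hF hacc hrej
    have h3 : s ≤ 80 * (m / 4) := by omega
    have h4 : ℓ ≤ 80040 * (q / 1000 - 2) := by omega
    have h5 : s * ℓ ≤ 6403200 * (m / 4 * (q / 1000 - 2)) := by
      calc s * ℓ ≤ (80 * (m / 4)) * (80040 * (q / 1000 - 2)) := Nat.mul_le_mul h3 h4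
        _ = 6403200 * (m / 4 * (q / 1000 - 2)) := by ring
    calc 2 ^ (n + s * ℓ) ≤ 2 ^ (m / 4 * (q / 1000 - 2) * 20000000) := by
          apply Nat.pow_le_pow_right (by norm_num)
          omega
      _ = (2 ^ (m / 4 * (q / 1000 - 2))) ^ 20000000 := by rw [pow_mul]
      _ ≤ (t + 2) ^ 20000000 := Nat.pow_le_pow_left (h2.trans (by omega)) _
      _ ≤ (t + 2) ^ (2 ^ (N + N)) := Nat.pow_le_pow_right (by omega) hC

/-- Both bounds. -/
theorem neg_tight :
    ∃ C : ℕ, ∀ n s : ℕ, 1 ≤ s → s < n →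
      (∃ (t : ℕ) (L : List (((Fin n → Bool) × Bool → Bool) → Bool))
        (F : ((Fin n → Bool) × Bool → Bool) → Bool), NegCircuit t 0 L ∧ Source L F ∧
        (∀ T : (Fin n → Bool) → Option Bool, F (enc T) = true ↔ PartialMCSP T s) ∧
        t ≤ 2 ^ (C * (n + s * Nat.log 2 n))) ∧
      (∀ (t r : ℕ) (L : List (((Fin n → Bool) × Bool → Bool) → Bool))
        (F : ((Fin n → Bool) × Bool → Bool) → Bool), C * r ≤ s → NegCircuit t r L → Source L F →
        (∀ T : (Fin n → Bool) → Option Bool, F (enc T) = true ↔ PartialMCSP T s) →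
        2 ^ (n + s * Nat.log 2 n) ≤ (t + 2) ^ C) := by
  obtain ⟨N, hN⟩ : ∃ N : ℕ, 250000 ≤ N := ⟨_, le_refl _⟩
  refine ⟨2 ^ (N + N), fun n s hs hsn => ⟨?_, ?_⟩⟩
  · obtain ⟨t, L, F, h1, h2, h3, h4⟩ := tight_upper hs hsn
    refine ⟨t, L, F, h1, h2, h4, h3.trans (Nat.pow_le_pow_right (by norm_num) ?_)⟩
    apply Nat.mul_le_mul_right
    have : 2 ^ 4 ≤ 2 ^ (N + N) := Nat.pow_le_pow_right (by norm_num) (by omega)
    omega
  · intro t r L F hr hL hF hFT
    exact neg_tight_lower hN hs hsn hr hL hF hFT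

end Pool.Agent.H24
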