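import Pool.Agent.H24.CspD
import Pool.Agent.H24.GadgetD
import Pool.Agent.H24.TightNeg
import Pool.Agent.H24.BaseTab

/-!
Systems of constraints on a sparse hypergraph are projections of the slices of Partial MCSP.
-/

namespace Pool.Agent.H24

open Pool.Agent.H87.PMCSP (Circuit)
open Finset

set_option linter.unusedSectionVars false

section

variable {D k h ρ : ℕ} [NeZero D]

/-- the forbidden tuples of a system of allowed tuples -/
def badD (f : Fin (D * k) × Fin D → Fin k) (A : XD D (D * k) (Wm h) → Bool) :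
    (Fin D → Fin k) → (Fin D → Wm h) → Prop :=
  fun a p => ∃ j, (∀ κ, f (j, κ) = a κ) ∧ A (j, p) = false

theorem oneD_iff (bad : (Fin D → Fin k) → (Fin D → Wm h) → Prop) (z : VTd D k h ρ → Bool) :
    OneD D k h ρ bad z ↔ OneD D k h ρ (fun _ _ => False) z ∨
      ∃ a p, bad a p ∧ z = Sum.elim (quXd a) (quYd p) := by
  constructor
  · intro h
    cases h with
    | a u => exact Or.inl (OneD.a u)
    | b e => exact Or.inl (OneD.b e)
    | c u => exact Or.inl (OneD.c u)
    | d κ a σ Y hY => exact Or.inl (OneD.d κ a σ Y hY)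
    | e a p h => exact Or.inr ⟨a, p, h, rfl⟩
  · rintro (h | ⟨a, p, h, rfl⟩)
    · cases h with
      | a u => exact OneD.a u
      | b e => exact OneD.b e
      | c u => exact OneD.c u
      | d κ a σ Y hY => exact OneD.d κ a σ Y hY
      | e a p h => exact h.elim
    · exact OneD.e a p h

theorem quD_inj {a a' : Fin D → Fin k} {p p' : Fin D → Wm h}
    (hq : (Sum.elim (quXd a) (quYd p) : VTd D k h ρ → Bool) =
      Sum.elim (quXd a') (quYd p')) : a = a' ∧ p = p' := by
  have h1 := elim_eq hq
  refine ⟨?_, ?_⟩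
  · funext κ
    have h2 := congrFun h1.1 (κ, fun i => decide (i = a κ))
    simp only [quXd, decide_true] at h2
    exact (of_decide_eq_true h2.symm).symm
  · funext κ
    apply Subtype.ext
    funext i
    have h2 := congrFun h1.2 (Sum.inr (Sum.inl (κ, i)))
    simpa [quYd] using h2

/-- the table of a system of allowed tuples, in arity `n` -/
noncomputable def tabAD {n : ℕ} (f : Fin (D * k) × Fin D → Fin k) (e : VTd D k h ρ ↪ Fin n)
    (A : XD D (D * k) (Wm h) → Bool) : (Fin n → Bool) → Option Bool :=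
  fun x => tabD D k h ρ (badD f A) (fun v => x (e v))

theorem tabAD_source {n : ℕ} (f : Fin (D * k) × Fin D → Fin k)
    (hinj : ∀ j j', (∀ κ, f (j, κ) = f (j', κ)) → j = j') (e : VTd D k h ρ ↪ Fin n)
    (l : (Fin n → Bool) × Bool) :
    (∃ v, (fun A : XD D (D * k) (Wm h) → Bool => enc (tabAD f e A) l) = fun A => A v) ∨
      ∃ c : Bool, (fun A : XD D (D * k) (Wm h) → Bool => enc (tabAD f e A) l) = fun _ => c := by
  obtain ⟨x, c⟩ := l
  set z : VTd D k h ρ → Bool := fun v => x (e v) with hz
  have hT : ∀ A, tabAD f e A x = tabD D k h ρ (badD f A) z := fun A => rfl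
  by_cases h0 : ZerD D k h ρ z
  · right
    refine ⟨!decide (some false = some (!c)), ?_⟩
    funext A
    simp only [enc, hT, tabD, h0, if_true]
  by_cases h1 : OneD D k h ρ (fun _ _ => False) z
  · right
    refine ⟨!decide (some true = some (!c)), ?_⟩
    funext A
    have h2 : OneD D k h ρ (badD f A) z := (oneD_iff _ _).2 (Or.inl h1)
    simp only [enc, hT, tabD, h0, h2, if_true, if_false]
  by_cases h2 : ∃ j p, z = Sum.elim (quXd (fun κ => f (j, κ))) (quYd p)
  · obtain ⟨j, p, hq⟩ := h2
    have h3 : ∀ A, OneD D k h ρ (badD f A) z ↔ A (j, p) = false := by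
      intro A
      rw [oneD_iff]
      constructor
      · rintro (h | ⟨a', p', ⟨j', hj', hA⟩, h'⟩)
        · exact absurd h h1
        · rw [hq] at h'
          obtain ⟨rfl, rfl⟩ := quD_inj h'
          have := hinj j' j hj'
          rw [← this]
          exact hA
      · intro h
        exact Or.inr ⟨_, p, ⟨j, fun _ => rfl, h⟩, hq⟩
    cases c
    · left
      refine ⟨(j, p), ?_⟩
      funext A
      simp only [enc, hT, tabD, h0, if_false]
      by_cases h : A (j, p) = false
      · rw [if_pos ((h3 A).2 h), h]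
        rfl
      · rw [if_neg (fun h' => h ((h3 A).1 h'))]
        simpa using h
    · right
      refine ⟨true, ?_⟩
      funext A
      simp only [enc, hT, tabD, h0, if_false]
      split_ifs <;> rfl
  · right
    refine ⟨true, ?_⟩
    funext A
    have h3 : ¬ OneD D k h ρ (badD f A) z := by
      rw [oneD_iff]
      rintro (h | ⟨a, p, ⟨j, hj, -⟩, h⟩)
      · exact h1 h
      · apply h2
        refine ⟨j, p, ?_⟩
        have : (fun κ => f (j, κ)) = a := funext hj
        rw [this]
        exact h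
    simp only [enc, hT, tabD, h0, h3, if_false]
    rfl

theorem sol_iffD {n : ℕ} (hh : 0 < h) (f : Fin (D * k) × Fin D → Fin k)
    (e : VTd D k h ρ ↪ Fin n) (A : XD D (D * k) (Wm h) → Bool) {s : ℕ}
    (hs : s + 1 = Fintype.card (VTd D k h ρ)) :
    PartialMCSP (tabAD f e A) s ↔ ∃ w : Fin D × Fin k → Wm h, ∀ v ∈ plD f w, A v = true := by
  rw [partialMCSP_iff]
  have h1 := coreD (n := n) hh (badD f A) e
  rw [← hs] at h1
  have h2 : (∃ c : Circuit n, c.size ≤ s ∧ ∀ x b, tabAD f e A x = some b → c.eval x = b) ↔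
      ∃ w : Fin D × Fin k → Wm h, ∀ (a : Fin D → Fin k),
        ¬ badD f A a (fun κ => w (κ, a κ)) := by
    rw [← h1]
    constructor
    · rintro ⟨c, hc, hT⟩
      exact ⟨c, by omega, hT⟩
    · rintro ⟨c, hc, hT⟩
      exact ⟨c, by omega, hT⟩
  rw [h2]
  refine exists_congr fun w => ?_
  constructor
  · intro hw v hv
    rw [mem_plD] at hv
    by_contra hA
    rw [Bool.not_eq_true] at hA
    apply hw (fun κ => f (v.1, κ))
    refine ⟨v.1, fun _ => rfl, ?_⟩
    have : (v.1, fun κ => w (κ, f (v.1, κ))) = v := Prod.ext rfl (funext hv)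
    rw [this]
    exact hA
  · rintro hw a ⟨j, hj, hA⟩
    have h3 := hw (j, fun κ => w (κ, a κ)) (by
      rw [mem_plD]
      intro κ
      simp only
      rw [hj κ])
    rw [hA] at h3
    exact Bool.noConfusion h3

theorem tabAD_pos {nx : ℕ} (hh : 0 < h) (f : Fin (D * k) × Fin D → Fin k)
    (e : VTd D k h ρ ↪ Fin nx)
    (hcard : Fintype.card (VTd D k h ρ) = nx) (A : XD D (D * k) (Wm h) → Bool) (i : Fin nx) :
    ∃ x : Fin nx → Bool, x i = false ∧ tabAD f e A x = some false ∧
      tabAD f e A (Function.update x i true) = some true := by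
  classical
  have hbij : Function.Bijective e :=
    (Fintype.bijective_iff_injective_and_card e).2 ⟨e.injective, by rw [hcard, Fintype.card_fin]⟩
  let E : VTd D k h ρ ≃ Fin nx := Equiv.ofBijective e hbij
  obtain ⟨v, rfl⟩ := hbij.2 i
  have hE : ∀ v', E.symm (e v') = v' := fun v' => E.symm_apply_apply v'
  have key : ∀ z z' : VTd D k h ρ → Bool, z v = false → ZerD D k h ρ z →
      OneD D k h ρ (badD f A) z' →
      (∀ v', v' ≠ v → z' v' = z v') → z' v = true →
      ∃ x : Fin nx → Bool, x (e v) = false ∧ tabAD f e A x = some false ∧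
        tabAD f e A (Function.update x (e v) true) = some true := by
    intro z z' h0 h1 h2 h3 h4
    refine ⟨fun j => z (E.symm j), ?_, ?_, ?_⟩
    · change z (E.symm (e v)) = false
      rw [hE]
      exact h0
    · unfold tabAD
      have h5 : (fun v' : VTd D k h ρ => z (E.symm (e v'))) = z := by
        funext v'
        rw [hE]
      change tabD D k h ρ (badD f A) (fun v' : VTd D k h ρ => z (E.symm (e v'))) = some false
      rw [h5]
      exact tabD_zer h1
    · unfold tabAD
      have h5 : (fun v' : VTd D k h ρ =>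
          Function.update (fun j => z (E.symm j)) (e v) true (e v')) = z' := by
        funext v'
        by_cases hv : v' = v
        · subst hv
          rw [Function.update_self, h4]
        · rw [Function.update_of_ne (fun h => hv (e.injective h)), hE, h3 v' hv]
      rw [h5]
      exact tabD_one hh h2
  rcases v with u | a
  · refine key _ _ ?_ ZerD.b (OneD.a u) ?_ ?_
    · rfl
    · rintro (v | v) hv
      · simp only [Sum.elim_inl, decide_eq_false_iff_not]
        rintro rfl
        exact hv rfl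
      · rfl
    · simp
  · refine key _ _ ?_ ZerD.a (OneD.b a) ?_ ?_
    · rfl
    · rintro (v | v) hv
      · rfl
      · simp only [Sum.elim_inr, decide_eq_false_iff_not]
        rintro rfl
        exact hv rfl
    · simp

theorem baseTD_source {nx ny : ℕ} (f : Fin (D * k) × Fin D → Fin k)
    (hinj : ∀ j j', (∀ κ, f (j, κ) = f (j', κ)) → j = j')
    (e : VTd D k h ρ ↪ Fin nx) (g : (Fin ny → Bool) → Bool)
    (l : (Fin (nx + ny) → Bool) × Bool) :
    (∃ v, (fun A : XD D (D * k) (Wm h) → Bool => enc (baseT g (tabAD f e A)) l) =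
      fun A => A v) ∨
      ∃ c : Bool, (fun A : XD D (D * k) (Wm h) → Bool => enc (baseT g (tabAD f e A)) l) =
        fun _ => c := by
  by_cases h1 : g (l.1 ∘ Fin.natAdd nx) = true
  · have h2 : (fun A : XD D (D * k) (Wm h) → Bool => enc (baseT g (tabAD f e A)) l) =
        fun A => enc (tabAD f e A) (l.1 ∘ Fin.castAdd ny, l.2) := by
      funext A
      rw [enc_baseT, if_pos h1]
    rw [h2]
    exact tabAD_source f hinj e _
  · right
    refine ⟨l.2 == false, ?_⟩
    funext A
    rw [enc_baseT, if_neg h1]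

end

/-- different hyperedges of a sparse hypergraph have different vertices -/
theorem hyper_inj {D k w : ℕ} (hD : 6 ≤ D) (hw : 1 ≤ w) (f : Fin (D * k) × Fin D → Fin k)
    (hf : ∀ S : Finset (Fin (D * k)), S.card ≤ 2 * w → (D - 2) * S.card ≤ (verts f S).card)
    (j j' : Fin (D * k)) (hj : ∀ κ, f (j, κ) = f (j', κ)) : j = j' := by
  classical
  by_contra hne
  have h1 : ({j, j'} : Finset (Fin (D * k))).card = 2 := Finset.card_pair hne
  have h2 := hf {j, j'} (by rw [h1]; omega)
  rw [h1] at h2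
  have h3 : verts f {j, j'} ⊆ (univ : Finset (Fin D)).image (fun κ => (κ, f (j, κ))) := by
    intro v hv
    rw [verts, Finset.mem_image] at hv
    obtain ⟨⟨i, κ⟩, hi, rfl⟩ := hv
    rw [Finset.mem_product, Finset.mem_insert, Finset.mem_singleton] at hi
    rw [Finset.mem_image]
    refine ⟨κ, mem_univ _, ?_⟩
    rcases hi.1 with h4 | h4
    · simp only at h4 ⊢
      rw [h4]
    · simp only at h4 ⊢
      rw [h4, hj]
  have h4 := (Finset.card_le_card h3).trans Finset.card_image_le
  rw [Finset.card_univ, Fintype.card_fin] at h4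
  omega

/-- The parameters of the construction. -/
structure ParD (D k h w : ℕ) : Prop where
  D6 : 6 ≤ D
  w1 : 1 ≤ w
  k0 : 0 < k
  hyp : 2 * (3 * D) ^ (D + 1) * (2 * w) ≤ k
  w3 : 3 * w ≤ h
  big : 82944 * w ^ 2 * (h * (2 * D + 5)) * (2 * h) ^ (D - 2) ≤ 2 ^ h
  Dk : D * k ≤ 2 ^ h

/-- Size parameter below the number of inputs. -/
theorem negD_large {D k h w n s : ℕ} (hP : ParD D k h w)
    (hms : 2 * (D * 2 ^ k) + D * (2 * h) ≤ s + 1) (hsn : s < n) {t r : ℕ}
    (hr : r ≤ 2 * h * (D - 5))
    {L : List (((Fin n → Bool) × Bool → Bool) → Bool)}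
    {F : ((Fin n → Bool) × Bool → Bool) → Bool}
    (hL : NegCircuit t r L) (hF : Source L F)
    (hFT : ∀ T : (Fin n → Bool) → Option Bool, F (enc T) = true ↔ PartialMCSP T s) :
    2 ^ (h * (w - 2 * D)) ≤ t := by
  obtain ⟨hD, hw, hk, hhyp, h3w, hbig, hDk⟩ := hP
  have hD0 : NeZero D := ⟨by omega⟩
  have hh : 0 < h := by omega
  obtain ⟨f, hf⟩ := exists_hyper (D := D) (k := k) (s0 := 2 * w) (by omega) hk hhyp
  have hinj := hyper_inj hD hw f hf
  obtain ⟨ρ, hρ⟩ : ∃ ρ, s + 1 = 2 * (D * 2 ^ k) + D * (2 * h) + ρ :=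
    ⟨s + 1 - (2 * (D * 2 ^ k) + D * (2 * h)), by omega⟩
  have hcard : Fintype.card (VTd D k h ρ) = s + 1 := by
    rw [card_VTd, hρ]
  obtain ⟨e⟩ : Nonempty (VTd D k h ρ ↪ Fin n) :=
    Function.Embedding.nonempty_of_card_le (by rw [hcard, Fintype.card_fin]; omega)
  have key : ∀ A : XD D (D * k) (Wm h) → Bool,
      F (enc (tabAD f e A)) = true ↔ ∃ w : Fin D × Fin k → Wm h, ∀ v ∈ plD f w, A v = true := by
    intro A
    rw [hFT, sol_iffD hh f e A hcard.symm]
  have hL1 := circuit_subst (fun A => enc (tabAD f e A)) (tabAD_source f hinj e) hL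
  have hF1 := source_subst (fun A => enc (tabAD f e A)) (tabAD_source f hinj e) hF
  refine cspD_neg_lower hD hw hk (card_Wm_ge hh) card_Wm_le h3w hbig hDk f hf hr hL1 hF1 ?_ ?_
  · intro a x hx
    exact (key x).2 ⟨a, hx⟩
  · intro x hx
    rw [← Bool.not_eq_true]
    exact fun h' => hx ((key x).1 h')

/-- Size parameter at least the number of inputs. -/
theorem baseD_large {D k h w nx ny c : ℕ} (hP : ParD D k h w)
    (hms : 2 * (D * 2 ^ k) + D * (2 * h) ≤ nx) {g : (Fin ny → Bool) → Bool} (hC : Cx g c)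
    (hnc : ¬ ∃ b, ∀ y, g y = b) {t r : ℕ} (hr : r ≤ 2 * h * (D - 5))
    {L : List (((Fin (nx + ny) → Bool) × Bool → Bool) → Bool)}
    {F : ((Fin (nx + ny) → Bool) × Bool → Bool) → Bool}
    (hL : NegCircuit t r L) (hF : Source L F)
    (hFT : ∀ T : (Fin (nx + ny) → Bool) → Option Bool,
      F (enc T) = true ↔ PartialMCSP T (c + nx)) :
    2 ^ (h * (w - 2 * D)) ≤ t := by
  obtain ⟨hD, hw, hk, hhyp, h3w, hbig, hDk⟩ := hP
  have hD0 : NeZero D := ⟨by omega⟩
  have hh : 0 < h := by omega
  obtain ⟨f, hf⟩ := exists_hyper (D := D) (k := k) (s0 := 2 * w) (by omega) hk hhyp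
  have hinj := hyper_inj hD hw f hf
  obtain ⟨ρ, hρ⟩ : ∃ ρ, nx = 2 * (D * 2 ^ k) + D * (2 * h) + ρ :=
    ⟨nx - (2 * (D * 2 ^ k) + D * (2 * h)), by omega⟩
  have hcard : Fintype.card (VTd D k h ρ) = nx := by
    rw [card_VTd, hρ]
  have hnx : 0 < nx := by
    have : 0 < D * 2 ^ k := Nat.mul_pos (by omega) (by positivity)
    omega
  obtain ⟨e⟩ : Nonempty (VTd D k h ρ ↪ Fin nx) :=
    Function.Embedding.nonempty_of_card_le (by rw [hcard, Fintype.card_fin])
  have key : ∀ A : XD D (D * k) (Wm h) → Bool, F (enc (baseT g (tabAD f e A))) = true ↔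
      ∃ w : Fin D × Fin k → Wm h, ∀ v ∈ plD f w, A v = true := by
    intro A
    rw [hFT, base_iff hC hnc hnx (fun i => tabAD_pos hh f e hcard _ i),
      sol_iffD hh f e A (s := nx - 1) (by omega)]
  have hL1 := circuit_subst (fun A => enc (baseT g (tabAD f e A)))
    (baseTD_source f hinj e g) hL
  have hF1 := source_subst (fun A => enc (baseT g (tabAD f e A)))
    (baseTD_source f hinj e g) hF
  refine cspD_neg_lower hD hw hk (card_Wm_ge hh) card_Wm_le h3w hbig hDk f hf hr hL1 hF1 ?_ ?_
  · intro a x hx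
    exact (key x).2 ⟨a, hx⟩
  · intro x hx
    rw [← Bool.not_eq_true]
    exact fun h' => hx ((key x).1 h')

end Pool.Agent.H24
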