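import Pool.Agent.H24.Bridge
import Pool.Agent.H24.CspLower
import Pool.Agent.H24.Pad2

/-!
Systems of pair constraints are projections of the arity-`n` slice of Partial MCSP with size
parameter `s < n`.
-/

namespace Pool.Agent.H24

open Pool.Agent.H87.PMCSP

/-- the bad pairs of a system of allowed pairs -/
def badOf {k m : ℕ} (A : Ed k m → Bool) :
    Fin k → (Fin m → Bool) → Fin k → (Fin m → Bool) → Prop :=
  fun a p b q => A ((a, p), (b, q)) = false

theorem one_iff {k m r : ℕ} (bad : Fin k → (Fin m → Bool) → Fin k → (Fin m → Bool) → Prop)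
    (z : VT k m r → Bool) :
    One k m r bad z ↔ One k m r (fun _ _ _ _ => False) z ∨
      ∃ a b p q, bad a p b q ∧ z = Sum.elim (quX a b) (quY p q) := by
  constructor
  · intro h
    cases h with
    | a u => exact Or.inl (One.a u)
    | b e => exact Or.inl (One.b e)
    | c u => exact Or.inl (One.c u)
    | d κ a σ i => exact Or.inl (One.d κ a σ i)
    | e a b p q h => exact Or.inr ⟨a, b, p, q, h, rfl⟩
  · rintro (h | ⟨a, b, p, q, h, rfl⟩)
    · cases h with
      | a u => exact One.a u
      | b e => exact One.b e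
      | c u => exact One.c u
      | d κ a σ i => exact One.d κ a σ i
      | e a b p q h => exact h.elim
    · exact One.e a b p q h

theorem qu_inj {k m r : ℕ} {a b a' b' : Fin k} {p q p' q' : Fin m → Bool}
    (h : (Sum.elim (quX a b) (quY p q) : VT k m r → Bool) = Sum.elim (quX a' b') (quY p' q')) :
    a = a' ∧ b = b' ∧ p = p' ∧ q = q' := by
  have h1 : ∀ u : XT k, quX a b u = quX a' b' u := fun u => congrFun h (Sum.inl u)
  have h2 : ∀ y, (quY p q : XT k ⊕ YT m r → Bool) y = quY p' q' y :=
    fun y => congrFun h (Sum.inr y)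
  refine ⟨?_, ?_, ?_, ?_⟩
  · have := h1 (false, fun i => decide (i = a))
    simp only [quX, cond_false, decide_true] at this
    exact (of_decide_eq_true this.symm).symm
  · have := h1 (true, fun i => decide (i = b))
    simp only [quX, cond_true, decide_true] at this
    exact (of_decide_eq_true this.symm).symm
  · funext i
    have := h2 (Sum.inr (Sum.inl (false, i, false)))
    simpa [quY] using this
  · funext i
    have := h2 (Sum.inr (Sum.inl (true, i, false)))
    simpa [quY] using this

/-- the table of a system of allowed pairs, in arity `n` -/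
noncomputable def tabA {k m r n : ℕ} (e : VT k m r ↪ Fin n) (A : Ed k m → Bool) :
    (Fin n → Bool) → Option Bool :=
  fun x => H87.PMCSP.tab k m r (badOf A) (fun v => x (e v))

theorem tabA_source {k m r n : ℕ} (e : VT k m r ↪ Fin n) (l : (Fin n → Bool) × Bool) :
    (∃ v, (fun A : Ed k m → Bool => enc (tabA e A) l) = fun A => A v) ∨
      ∃ c : Bool, (fun A : Ed k m → Bool => enc (tabA e A) l) = fun _ => c := by
  obtain ⟨x, c⟩ := l
  set z : VT k m r → Bool := fun v => x (e v) with hz
  have hT : ∀ A, tabA e A x = H87.PMCSP.tab k m r (badOf A) z := fun A => rfl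
  by_cases h0 : Zer k m r z
  · right
    refine ⟨!decide (some false = some (!c)), ?_⟩
    funext A
    simp only [enc, hT, H87.PMCSP.tab, h0, if_true]
  by_cases h1 : One k m r (fun _ _ _ _ => False) z
  · right
    refine ⟨!decide (some true = some (!c)), ?_⟩
    funext A
    have h2 : One k m r (badOf A) z := (one_iff _ _).2 (Or.inl h1)
    simp only [enc, hT, H87.PMCSP.tab, h0, h2, if_true, if_false]
  by_cases h2 : ∃ a b p q, z = Sum.elim (quX a b) (quY p q)
  · obtain ⟨a, b, p, q, hq⟩ := h2
    have h3 : ∀ A, One k m r (badOf A) z ↔ A ((a, p), (b, q)) = false := by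
      intro A
      rw [one_iff]
      constructor
      · rintro (h | ⟨a', b', p', q', h, h'⟩)
        · exact absurd h h1
        · rw [hq] at h'
          obtain ⟨rfl, rfl, rfl, rfl⟩ := qu_inj h'
          exact h
      · intro h
        exact Or.inr ⟨a, b, p, q, h, hq⟩
    cases c
    · left
      refine ⟨((a, p), (b, q)), ?_⟩
      funext A
      simp only [enc, hT, H87.PMCSP.tab, h0, if_false]
      by_cases h : A ((a, p), (b, q)) = false
      · rw [if_pos ((h3 A).2 h), h]
        rfl
      · rw [if_neg (fun h' => h ((h3 A).1 h'))]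
        simpa using h
    · right
      refine ⟨true, ?_⟩
      funext A
      simp only [enc, hT, H87.PMCSP.tab, h0, if_false]
      split_ifs <;> rfl
  · right
    refine ⟨true, ?_⟩
    funext A
    have h3 : ¬ One k m r (badOf A) z := by
      rw [one_iff]
      rintro (h | ⟨a, b, p, q, -, h⟩)
      · exact h1 h
      · exact h2 ⟨a, b, p, q, h⟩
    simp only [enc, hT, H87.PMCSP.tab, h0, h3, if_false]
    rfl

theorem sol_iff {k m r n : ℕ} (hm : 0 < m) (e : VT k m r ↪ Fin n) (A : Ed k m → Bool) {s : ℕ}
    (hs : s + 1 = 4 * (2 ^ k + m) + r) :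
    PartialMCSP (tabA e A) s ↔ Sol A := by
  rw [partialMCSP_iff]
  have h := core_emb (n := n) hm (badOf A) e
  rw [card_VT, ← hs] at h
  have h1 : (∃ c : Circuit n, c.size ≤ s ∧ ∀ x b, tabA e A x = some b → c.eval x = b) ↔
      ∃ w0 w1 : Fin k → Fin m → Bool, ∀ a b, ¬ badOf A a (w0 a) b (w1 b) := by
    rw [← h]
    constructor
    · rintro ⟨c, hc, hT⟩
      exact ⟨c, by omega, hT⟩
    · rintro ⟨c, hc, hT⟩
      exact ⟨c, by omega, hT⟩
  rw [h1]
  constructor
  · rintro ⟨w0, w1, hw⟩
    refine ⟨fun x => bif x.1 then w1 x.2 else w0 x.2, fun i j => ?_⟩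
    have := hw i j
    simpa [badOf] using this
  · rintro ⟨w, hw⟩
    refine ⟨fun i => w (false, i), fun j => w (true, j), fun i j => ?_⟩
    have := hw i j
    simpa [badOf] using this

/-- **Monotone lower bound, size parameter below the number of inputs.** -/
theorem tight_lower_large {k m n s : ℕ} (hk : 64 ≤ k) (hkm : 2 ^ k ≤ m) (hms : 8 * m ≤ s + 1)
    (hsn : s < n) {t : ℕ} {L : List (((Fin n → Bool) × Bool → Bool) → Bool)}
    {F : ((Fin n → Bool) × Bool → Bool) → Bool}
    (hL : NegCircuit t 0 L) (hF : Source L F)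
    (hacc : ∀ T : (Fin n → Bool) → Option Bool, PartialMCSP T s → F (enc T) = true)
    (hrej : ∀ T : (Fin n → Bool) → Option Bool, ¬ PartialMCSP T s → F (enc T) = false) :
    2 ^ (m / 2 * (k / 16 - 1)) ≤ t := by
  obtain ⟨r, hr⟩ : ∃ r, s + 1 = 4 * (2 ^ k + m) + r := ⟨s + 1 - 4 * (2 ^ k + m), by omega⟩
  have hm : 0 < m := lt_of_lt_of_le (by positivity) hkm
  have hcard : Fintype.card (VT k m r) ≤ Fintype.card (Fin n) := by
    rw [card_VT, Fintype.card_fin]
    omega
  obtain ⟨e⟩ := Function.Embedding.nonempty_of_card_le hcard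
  refine csp_lower (k := k) (m := m) hk hkm (circuit_subst (fun A => enc (tabA e A))
    (tabA_source e) hL) (source_subst (fun A => enc (tabA e A)) (tabA_source e) hF) ?_ ?_
  · intro A hA
    exact hacc _ ((sol_iff hm e A hr).2 hA)
  · intro A hA
    exact hrej _ (fun h => hA ((sol_iff hm e A hr).1 h))

/-! ### The trivial bound -/

theorem circuit_support {V : Type} {t : ℕ} {L : List ((V → Bool) → Bool)}
    (h : NegCircuit t 0 L) :
    ∃ D : Finset V, D.card ≤ 2 * t ∧ ∀ u ∈ L, ∀ a a' : V → Bool, (∀ v ∈ D, a v = a' v) →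
      u a = u a' := by
  classical
  generalize hr : 0 = r at h
  have src : ∀ {L : List ((V → Bool) → Bool)} {D : Finset V} {u : (V → Bool) → Bool},
      (∀ u ∈ L, ∀ a a' : V → Bool, (∀ v ∈ D, a v = a' v) → u a = u a') → Source L u →
      ∃ E : Finset V, E.card ≤ 1 ∧ ∀ a a' : V → Bool, (∀ v ∈ D ∪ E, a v = a' v) →
        u a = u a' := by
    intro L D u hD hu
    rcases hu with ⟨v, rfl⟩ | ⟨c, rfl⟩ | hu
    · exact ⟨{v}, by simp, fun a a' h => h v (by simp)⟩
    · exact ⟨∅, by simp, fun a a' h => rfl⟩
    · exact ⟨∅, by simp, fun a a' h => hD u hu a a' (by simpa using h)⟩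
  have step : ∀ {L : List ((V → Bool) → Bool)} {t : ℕ} {u v : (V → Bool) → Bool}
      (op : Bool → Bool → Bool), Source L u → Source L v →
      (∃ D : Finset V, D.card ≤ 2 * t ∧ ∀ u ∈ L, ∀ a a' : V → Bool, (∀ v ∈ D, a v = a' v) →
        u a = u a') →
      ∃ D : Finset V, D.card ≤ 2 * (t + 1) ∧ ∀ w ∈ (fun a => op (u a) (v a)) :: L,
        ∀ a a' : V → Bool, (∀ v ∈ D, a v = a' v) → w a = w a' := by
    intro L t u v op hu hv h
    obtain ⟨D, hD, hDL⟩ := h
    obtain ⟨E, hE, hE'⟩ := src hDL hu
    obtain ⟨E2, hE2, hE2'⟩ := src hDL hv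
    refine ⟨D ∪ (E ∪ E2), ?_, ?_⟩
    · have h1 := Finset.card_union_le D (E ∪ E2)
      have h2 := Finset.card_union_le E E2
      omega
    · intro w hw a a' haa
      rw [List.mem_cons] at hw
      rcases hw with rfl | hw
      · have h1 : u a = u a' := hE' a a' (fun v hv => haa v (by
          rw [Finset.mem_union] at hv ⊢
          rcases hv with hv | hv
          · exact Or.inl hv
          · exact Or.inr (Finset.mem_union_left _ hv)))
        have h2 : v a = v a' := hE2' a a' (fun v hv => haa v (by
          rw [Finset.mem_union] at hv ⊢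
          rcases hv with hv | hv
          · exact Or.inl hv
          · exact Or.inr (Finset.mem_union_right _ hv)))
        simp only [h1, h2]
      · exact hDL w hw a a' (fun v hv => haa v (Finset.mem_union_left _ hv))
  induction h with
  | nil => exact ⟨∅, by simp, by simp⟩
  | and _ hu hv ih => exact step (fun a b => a && b) hu hv (ih hr)
  | or _ hu hv ih => exact step (fun a b => a || b) hu hv (ih hr)
  | not _ hu ih => omega

theorem source_support {V : Type} {t : ℕ} {L : List ((V → Bool) → Bool)}
    {F : (V → Bool) → Bool} (h : NegCircuit t 0 L) (hF : Source L F) :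
    ∃ D : Finset V, D.card ≤ 2 * t + 1 ∧ ∀ a a' : V → Bool, (∀ v ∈ D, a v = a' v) →
      F a = F a' := by
  classical
  obtain ⟨D, hD, hDL⟩ := circuit_support h
  rcases hF with ⟨v, rfl⟩ | ⟨c, rfl⟩ | hF
  · refine ⟨insert v D, ?_, fun a a' h => h v (by simp)⟩
    exact (Finset.card_insert_le _ _).trans (by omega)
  · exact ⟨∅, by simp, fun a a' h => rfl⟩
  · exact ⟨D, by omega, hDL F hF⟩

/-- the point function needs many gates -/
theorem point_hard {n s : ℕ} (hsn : s + 1 < n) (x0 : Fin n → Bool)
    {f : (Fin n → Bool) → Bool} (hf : ∀ x, f x = decide (x = x0)) : ¬ HasCircuit f s := by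
  intro h
  obtain ⟨c, hc, hcf⟩ := (hasCircuit_iff f s).1 h
  have h1 := (circuit_dep c Finset.univ (by
    intro v _
    refine ⟨x0, ?_⟩
    rw [hcf, hf, hf]
    have h2 : Function.update x0 v (!x0 v) ≠ x0 := by
      intro h
      have := congrFun h v
      simp at this
    simp [h2])).1
  rw [Finset.card_univ, Fintype.card_fin] at h1
  omega

theorem const_easy {n s : ℕ} (hn : 0 < n) (hs : 0 < s) :
    HasCircuit (fun _ : Fin n → Bool => false) s := by
  refine ⟨[fun x => x ⟨0, hn⟩ && !(x ⟨0, hn⟩)], ?_, hs, ?_⟩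
  · exact Gates.and Gates.nil ⟨fun x => x ⟨0, hn⟩, Or.inl ⟨⟨0, hn⟩, rfl⟩, Or.inl rfl⟩
      ⟨fun x => x ⟨0, hn⟩, Or.inl ⟨⟨0, hn⟩, rfl⟩, Or.inr rfl⟩
  · refine ⟨fun x => x ⟨0, hn⟩ && !(x ⟨0, hn⟩), Or.inr (by simp), Or.inl ?_⟩
    funext x
    simp

/-- Every circuit reads many input bits. -/
theorem tight_lower_trivial {n s : ℕ} (hs : 0 < s) (hsn : s + 1 < n) {t : ℕ}
    {L : List (((Fin n → Bool) × Bool → Bool) → Bool)}
    {F : ((Fin n → Bool) × Bool → Bool) → Bool}
    (hL : NegCircuit t 0 L) (hF : Source L F)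
    (hacc : ∀ T : (Fin n → Bool) → Option Bool, PartialMCSP T s → F (enc T) = true)
    (hrej : ∀ T : (Fin n → Bool) → Option Bool, ¬ PartialMCSP T s → F (enc T) = false) :
    2 ^ n ≤ 2 * t + 1 := by
  classical
  obtain ⟨D, hD, hDF⟩ := source_support hL hF
  refine le_trans ?_ hD
  have h1 : (Finset.univ : Finset (Fin n → Bool)).card = 2 ^ n := by simp
  rw [← h1]
  refine Finset.card_le_card_of_injOn (fun x => (x, false)) ?_ ?_
  · intro x0 _
    by_contra hx0
    -- the table of the point function, and the same table without the point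
    let T : (Fin n → Bool) → Option Bool := fun x => some (decide (x = x0))
    let T' : (Fin n → Bool) → Option Bool := fun x => if x = x0 then none else some false
    have h2 : F (enc T) = false := by
      apply hrej
      rintro ⟨f, hf, hT⟩
      exact point_hard hsn x0 (fun x => hT x _ rfl) hf
    have h3 : F (enc T') = true := by
      apply hacc
      refine ⟨_, const_easy (by omega) hs, ?_⟩
      intro x b hxb
      simp only [T'] at hxb
      split_ifs at hxb
      simpa using hxb
    have h4 : F (enc T) = F (enc T') := by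
      apply hDF
      rintro ⟨x, c⟩ hx
      simp only [enc, T, T']
      by_cases h : x = x0
      · subst h
        cases c
        · exact absurd hx hx0
        · simp
      · simp [h]
    rw [h2, h3] at h4
    exact Bool.noConfusion h4
  · intro x _ y _ h
    exact (Prod.mk.inj h).1

end Pool.Agent.H24
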