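import Mathlib

/-!
# The trace of a difference of two sums of squares

If a real symmetric matrix `P` is the sum of `K` matrices `a aᵀ` minus a sum of matrices `b bᵀ`, and
its trace is not negative, then `(tr P)² ≤ K ∑ P(x,y)²`: only the positive part of `P` matters, and
it has rank at most `K`.
-/

namespace Pool.Agent.H24.Tr

open Finset

theorem sum_sq_expand {ι μ : Type*} [Fintype ι] [Fintype μ] (g : ι → ℝ) (c : μ → ι → ℝ) :
    ∑ k, (∑ x, g x * c k x) ^ 2 = ∑ x, ∑ y, g x * g y * ∑ k, c k x * c k y := by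
  have e1 : ∀ k, (∑ x, g x * c k x) ^ 2 = ∑ x, ∑ y, g x * g y * (c k x * c k y) := by
    intro k
    rw [sq, Finset.sum_mul_sum]
    refine Finset.sum_congr rfl fun x _ => Finset.sum_congr rfl fun y _ => ?_
    ring
  simp_rw [e1, Finset.mul_sum]
  rw [Finset.sum_comm]
  refine Finset.sum_congr rfl fun x _ => ?_
  rw [Finset.sum_comm]

/-- If `P = ∑ a_k a_kᵀ - ∑ b_l b_lᵀ` with `K` vectors `a_k` and `tr P ≥ 0`, then
`(tr P)² ≤ K ∑ P(x,y)²`. -/
theorem trace_sq_le {ι κ lam : Type*} [Fintype ι] [Fintype κ] [Fintype lam]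
    (P : ι → ι → ℝ) (a : κ → ι → ℝ) (b : lam → ι → ℝ)
    (hP : ∀ x y, P x y = ∑ k, a k x * a k y - ∑ l, b l x * b l y)
    (h0 : 0 ≤ ∑ x, P x x) :
    (∑ x, P x x) ^ 2 ≤ (Fintype.card κ : ℝ) * ∑ x, ∑ y, P x y ^ 2 := by
  classical
  let A : κ → EuclideanSpace ℝ ι := fun k => WithLp.toLp 2 (a k)
  let B : lam → EuclideanSpace ℝ ι := fun l => WithLp.toLp 2 (b l)
  let V : Submodule ℝ (EuclideanSpace ℝ ι) := Submodule.span ℝ (Set.range A)
  let e := stdOrthonormalBasis ℝ V
  let n := Module.finrank ℝ V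
  let f : Fin n → EuclideanSpace ℝ ι := fun i => (e i : EuclideanSpace ℝ ι)
  have hf : Orthonormal ℝ f := by
    have := e.orthonormal
    exact this.comp_linearIsometry V.subtypeₗᵢ
  have hn : (n : ℝ) ≤ Fintype.card κ := by
    have h1 : n ≤ Fintype.card κ := by
      have := finrank_range_le_card (R := ℝ) A
      exact this
    exact_mod_cast h1
  have hAV : ∀ k, ∑ x, a k x * a k x = ∑ i, (∑ x, f i x * a k x) ^ 2 := by
    intro k
    have hk : A k ∈ V := Submodule.subset_span ⟨k, rfl⟩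
    have h1 := e.sum_sq_norm_inner_right ⟨A k, hk⟩
    have h2 : ‖(⟨A k, hk⟩ : V)‖ ^ 2 = ∑ x, a k x * a k x := by
      show ‖A k‖ ^ 2 = _
      rw [EuclideanSpace.norm_sq_eq]
      refine Finset.sum_congr rfl fun x _ => ?_
      rw [Real.norm_eq_abs, sq_abs, sq]
    rw [← h2, ← h1]
    refine Finset.sum_congr rfl fun i _ => ?_
    rw [Real.norm_eq_abs, sq_abs, Submodule.coe_inner]
    congr 1
    rw [PiLp.inner_apply]
    refine Finset.sum_congr rfl fun x _ => ?_
    simp [f, A, mul_comm]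
  have hBV : ∀ l, ∑ i, (∑ x, f i x * b l x) ^ 2 ≤ ∑ x, b l x * b l x := by
    intro l
    have h1 := hf.sum_inner_products_le (B l) (s := Finset.univ)
    have h2 : ‖B l‖ ^ 2 = ∑ x, b l x * b l x := by
      rw [EuclideanSpace.norm_sq_eq]
      refine Finset.sum_congr rfl fun x _ => ?_
      rw [Real.norm_eq_abs, sq_abs, sq]
    rw [← h2]
    refine le_trans (le_of_eq ?_) h1
    refine Finset.sum_congr rfl fun i _ => ?_
    rw [Real.norm_eq_abs, sq_abs]
    congr 1
    rw [PiLp.inner_apply]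
    refine Finset.sum_congr rfl fun x _ => ?_
    simp [f, B, mul_comm]
  let q : Fin n → ℝ := fun i => ∑ x, ∑ y, f i x * f i y * P x y
  have hqi : ∀ i, q i = ∑ k, (∑ x, f i x * a k x) ^ 2 - ∑ l, (∑ x, f i x * b l x) ^ 2 := by
    intro i
    rw [sum_sq_expand (fun x => f i x) a, sum_sq_expand (fun x => f i x) b,
      ← Finset.sum_sub_distrib]
    refine Finset.sum_congr rfl fun x _ => ?_
    rw [← Finset.sum_sub_distrib]
    refine Finset.sum_congr rfl fun y _ => ?_
    rw [hP, mul_sub]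
  have htr : ∑ x, P x x ≤ ∑ i, q i := by
    have h1 : ∑ x, P x x = ∑ k, ∑ x, a k x * a k x - ∑ l, ∑ x, b l x * b l x := by
      simp_rw [hP, Finset.sum_sub_distrib]
      congr 1
      · exact Finset.sum_comm
      · exact Finset.sum_comm
    have h2 : ∑ i, q i = ∑ k, ∑ i, (∑ x, f i x * a k x) ^ 2 -
        ∑ l, ∑ i, (∑ x, f i x * b l x) ^ 2 := by
      simp_rw [hqi, Finset.sum_sub_distrib]
      congr 1
      · exact Finset.sum_comm
      · exact Finset.sum_comm
    rw [h1, h2]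
    refine sub_le_sub (le_of_eq (Finset.sum_congr rfl fun k _ => hAV k)) ?_
    exact Finset.sum_le_sum fun l _ => hBV l
  -- Bessel for the functions `f i x * f i y` on `ι × ι`
  let F : Fin n → EuclideanSpace ℝ (ι × ι) := fun i => WithLp.toLp 2 fun z => f i z.1 * f i z.2
  let PP : EuclideanSpace ℝ (ι × ι) := WithLp.toLp 2 fun z => P z.1 z.2
  have hinn : ∀ i j, inner ℝ (F i) (F j) = (inner ℝ (f i) (f j) : ℝ) * inner ℝ (f i) (f j) := by
    intro i j
    rw [PiLp.inner_apply, PiLp.inner_apply, Fintype.sum_prod_type, Finset.sum_mul_sum]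
    refine Finset.sum_congr rfl fun x _ => Finset.sum_congr rfl fun y _ => ?_
    simp [F]
    ring
  have hF : Orthonormal ℝ F := by
    rw [orthonormal_iff_ite]
    intro i j
    rw [hinn, orthonormal_iff_ite.mp hf i j]
    split_ifs <;> simp
  have hq2 : ∑ i, q i ^ 2 ≤ ∑ x, ∑ y, P x y ^ 2 := by
    have h1 := hF.sum_inner_products_le PP (s := Finset.univ)
    have h2 : ‖PP‖ ^ 2 = ∑ x, ∑ y, P x y ^ 2 := by
      rw [EuclideanSpace.norm_sq_eq, Fintype.sum_prod_type]
      refine Finset.sum_congr rfl fun x _ => Finset.sum_congr rfl fun y _ => ?_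
      rw [Real.norm_eq_abs, sq_abs]
    rw [← h2]
    refine le_trans (le_of_eq ?_) h1
    refine Finset.sum_congr rfl fun i _ => ?_
    rw [Real.norm_eq_abs, sq_abs]
    congr 1
    rw [PiLp.inner_apply, Fintype.sum_prod_type]
    refine Finset.sum_congr rfl fun x _ => Finset.sum_congr rfl fun y _ => ?_
    simp [F, PP, mul_comm]
  have hcs : (∑ i, q i) ^ 2 ≤ (n : ℝ) * ∑ i, q i ^ 2 := by
    have := sq_sum_le_card_mul_sum_sq (s := (Finset.univ : Finset (Fin n))) (f := q)
    simpa using this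
  have hSn : 0 ≤ ∑ i, q i ^ 2 := Finset.sum_nonneg fun i _ => sq_nonneg _
  calc (∑ x, P x x) ^ 2 ≤ (∑ i, q i) ^ 2 := by
        exact pow_le_pow_left₀ h0 htr 2
    _ ≤ (n : ℝ) * ∑ i, q i ^ 2 := hcs
    _ ≤ (Fintype.card κ : ℝ) * ∑ i, q i ^ 2 := by gcongr
    _ ≤ (Fintype.card κ : ℝ) * ∑ x, ∑ y, P x y ^ 2 := by gcongr

end Pool.Agent.H24.Tr
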