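import Mathlib
import Pool.Agent.H24.Sh

set_option autoImplicit false

/-!
# The two-sided Shearer step
-/

namespace Pool.Agent.H24.Sh

open Finset

variable {Ω I α β τ : Type*} [Fintype Ω] [Fintype I] [DecidableEq I]

lemma fib_prod {α' β' γ' : Type*} (f : Ω × Ω → γ') (x y : Ω) (g : Ω → α') (h : Ω → β')
    (hf : ∀ x' y', f (x', y') = f (x, y) ↔ g x' = g x ∧ h y' = h y) :
    fib f (x, y) = fib g x * fib h y := by
  classical
  unfold fib
  rw [← Nat.cast_mul, ← Finset.card_product]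
  congr 2
  ext ⟨x', y'⟩
  simp [hf]

/-- The two-sided Shearer step. -/
theorem two_step (mt : Ω → Ω → Ω) (F : Ω → β) (t : Ω → τ) (c : I → Ω → α) (B : τ → Finset I)
    (b : ℝ) (hb : 0 ≤ b)
    (hFt : ∀ z z', F z = F z' → t z = t z')
    (hcF : ∀ z z', t z = t z' → (∀ i, c i z = c i z') → F z = F z')
    (htt : ∀ x x' y y', t x = t x' → t y = t y' → t (mt x y) = t (mt x' y'))
    (h1 : ∀ x x' y y', t x = t x' → t y = t y' → F (mt x y) = F (mt x' y') →
      ∀ i ∈ B (t y), c i x = c i x')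
    (h2 : ∀ x x' y y', t x = t x' → t y = t y' → F (mt x y) = F (mt x' y') →
      ∀ i ∈ B (t x), c i y = c i y')
    (hB : ∀ i, b * (Fintype.card Ω : ℝ) ≤ ((univ.filter fun y => i ∈ B (t y)).card : ℝ)) :
    S (fun p : Ω × Ω => F (mt p.1 p.2)) + 2 * b * (Fintype.card Ω : ℝ) * (S t - S F) ≤
      S (fun p : Ω × Ω => t (mt p.1 p.2)) := by
  classical
  set φ : Ω × Ω → β := fun p => F (mt p.1 p.2) with hφ
  set ψ : Ω × Ω → τ := fun p => t (mt p.1 p.2) with hψ
  set tt : Ω × Ω → τ × τ := fun p => (t p.1, t p.2) with htt'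
  have e1 := submod ψ tt φ (by
    rintro ⟨x, y⟩ ⟨x', y'⟩ h
    simp only [htt', Prod.mk.injEq] at h
    exact htt x x' y y' h.1 h.2)
  have e2 : S (fun p => (ψ p, φ p)) = S φ := by
    refine S_congr _ _ fun p q => ?_
    simp only [Prod.mk.injEq]
    exact ⟨fun h => h.2, fun h => ⟨hFt _ _ h, h⟩⟩
  have e3 : S tt = 2 * (Fintype.card Ω : ℝ) * S t := by
    have h3 : ∀ p : Ω × Ω, Real.log (fib tt p) = Real.log (fib t p.1) + Real.log (fib t p.2) := by
      rintro ⟨x, y⟩
      rw [fib_prod tt x y t t (by intro x' y'; simp [htt']),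
        Real.log_mul (fib_pos t x).ne' (fib_pos t y).ne']
    unfold S
    simp only [h3]
    rw [Finset.sum_add_distrib, Fintype.sum_prod_type, Fintype.sum_prod_type]
    simp only [Finset.sum_const, Finset.card_univ, nsmul_eq_mul]
    rw [← Finset.mul_sum]
    ring
  -- the refined partition
  set G : Ω × Ω → (τ × τ) × ((I → Option α) × (I → Option α)) := fun p =>
    ((t p.1, t p.2), (mask c (B (t p.2)) p.1, mask c (B (t p.1)) p.2)) with hG
  have e4 : S (fun p => (tt p, φ p)) ≤ S G := by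
    refine S_mono _ _ ?_
    rintro ⟨x, y⟩ ⟨x', y'⟩ h
    simp only [htt', hφ, Prod.mk.injEq] at h
    obtain ⟨⟨h3, h4⟩, h5⟩ := h
    simp only [hG, Prod.mk.injEq]
    refine ⟨⟨h3, h4⟩, ?_, ?_⟩
    · rw [← h4, mask_eq_iff]
      exact h1 x x' y y' h3 h4 h5
    · rw [← h3, mask_eq_iff]
      exact h2 x x' y y' h3 h4 h5
  have e5 : S G = 2 * ∑ y, S (fun x => (t x, mask c (B (t y)) x)) := by
    have h3 : ∀ p : Ω × Ω, Real.log (fib G p) =
        Real.log (fib (fun x => (t x, mask c (B (t p.2)) x)) p.1) +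
        Real.log (fib (fun y => (t y, mask c (B (t p.1)) y)) p.2) := by
      rintro ⟨x, y⟩
      rw [fib_prod G x y (fun x' => (t x', mask c (B (t y)) x'))
        (fun y' => (t y', mask c (B (t x)) y')) ?_,
        Real.log_mul (fib_pos _ x).ne' (fib_pos _ y).ne']
      intro x' y'
      simp only [hG, Prod.mk.injEq]
      constructor
      · rintro ⟨⟨h4, h5⟩, h6, h7⟩
        rw [h5] at h6
        rw [h4] at h7
        exact ⟨⟨h4, h6⟩, h5, h7⟩
      · rintro ⟨⟨h4, h6⟩, h5, h7⟩
        rw [h5, h4]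
        exact ⟨⟨rfl, rfl⟩, h6, h7⟩
    unfold S
    simp only [h3]
    rw [Finset.sum_add_distrib, Fintype.sum_prod_type_right, Fintype.sum_prod_type]
    ring
  obtain ⟨w, hw0, -, hws, hwB⟩ := weights t c (univ : Finset I)
  have e6 : ∑ y, S (fun x => (t x, mask c (B (t y)) x)) ≤
      (Fintype.card Ω : ℝ) * S t - b * (Fintype.card Ω : ℝ) * (S t - S F) := by
    have h3 : ∀ y, S (fun x => (t x, mask c (B (t y)) x)) ≤ S t - ∑ i ∈ B (t y), w i := by
      intro y
      have := hwB (B (t y)) (Finset.subset_univ _)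
      linarith
    have h4 : ∑ y, ∑ i ∈ B (t y), w i =
        ∑ i, w i * ((univ.filter fun y => i ∈ B (t y)).card : ℝ) := by
      have h5 : ∀ y, ∑ i ∈ B (t y), w i = ∑ i, if i ∈ B (t y) then w i else 0 := by
        intro y
        rw [Finset.sum_ite_mem, Finset.univ_inter]
      simp only [h5]
      rw [Finset.sum_comm]
      refine Finset.sum_congr rfl fun i _ => ?_
      rw [← Finset.sum_filter, Finset.sum_const, nsmul_eq_mul, mul_comm]
    have h5 : b * (Fintype.card Ω : ℝ) * ∑ i, w i ≤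
        ∑ i, w i * ((univ.filter fun y => i ∈ B (t y)).card : ℝ) := by
      rw [Finset.mul_sum]
      refine Finset.sum_le_sum fun i _ => ?_
      rw [mul_comm]
      exact mul_le_mul_of_nonneg_left (hB i) (hw0 i)
    have h6 : S (fun ω => (t ω, mask c univ ω)) ≤ S F := by
      refine S_mono _ _ fun z z' h => ?_
      rw [Prod.mk.injEq, mask_eq_iff] at h
      exact hcF z z' h.1 fun i => h.2 i (Finset.mem_univ i)
    have h7 := Finset.sum_le_sum (s := (univ : Finset Ω)) fun y _ => h3 y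
    rw [Finset.sum_sub_distrib, Finset.sum_const, Finset.card_univ, nsmul_eq_mul, h4] at h7
    have h8 : b * (Fintype.card Ω : ℝ) * (S t - S F) ≤ b * (Fintype.card Ω : ℝ) * ∑ i, w i := by
      refine mul_le_mul_of_nonneg_left ?_ (by positivity)
      rw [hws]
      linarith
    linarith
  rw [e2] at e1
  linarith

end Pool.Agent.H24.Sh
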