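import Pool.Agent.H87.PMCSP.Emb

/-!
A circuit with fewer gates than the gadget has variables, with prescribed values at a few points,
is given by an assignment of types (general form of the structure theorem).
-/

namespace Pool.Agent.H24

open Pool.Agent.H87.PMCSP (Circuit Var REx RO MRO Dep circuit_dep rigid)

theorem typed_of_small {X Y : Type} [DecidableEq X] [DecidableEq Y] [Fintype X] [Fintype Y]
    {n : ℕ} (e : Var X Y ↪ Fin n) (c : Circuit n)
    (hsize : c.size + 1 ≤ Fintype.card (Var X Y))
    (hA0 : ∀ x : Fin n → Bool, (fun v => x (e v)) =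
      (Sum.elim (fun _ => true) (fun _ => false) : Var X Y → Bool) → c.eval x = false)
    (hB0 : ∀ x : Fin n → Bool, (fun v => x (e v)) =
      (Sum.elim (fun _ => false) (fun _ => true) : Var X Y → Bool) → c.eval x = false)
    (hA1 : ∀ (u : X) (x : Fin n → Bool), (fun v => x (e v)) =
      (Sum.elim (fun v => decide (v = u)) (fun _ => true) : Var X Y → Bool) → c.eval x = true)
    (hB1 : ∀ (a : X ⊕ Y) (x : Fin n → Bool), (fun v => x (e v)) =
      (Sum.elim (fun _ => true) (fun a' => decide (a' = a)) : Var X Y → Bool) → c.eval x = true)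
    (hC : ∀ (u v : X) (x : Fin n → Bool), (fun v => x (e v)) =
      (Sum.elim (fun u' => decide (u' = u)) (fun a => decide (a = Sum.inl v)) : Var X Y → Bool) →
        c.eval x = decide (u = v)) :
    ∃ g : X ⊕ Y → X, (∀ v, g (Sum.inl v) = v) ∧
      ∀ (S : X → Bool) (S' : X ⊕ Y → Bool) (x : Fin n → Bool),
        (fun v => x (e v)) = (Sum.elim S S' : Var X Y → Bool) →
        (c.eval x = true ↔ ∃ a, S' a = true ∧ S (g a) = true) := by
  classical
  -- extension of an assignment to all inputs
  let ext : (Var X Y → Bool) → (Fin n → Bool) := fun z i =>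
    if h : ∃ v, e v = i then z h.choose else false
  have hext : ∀ z v, ext z (e v) = z v := by
    intro z v
    have h : ∃ v', e v' = e v := ⟨v, rfl⟩
    simp only [ext, h, dite_true]
    rw [e.injective h.choose_spec]
  have hext' : ∀ z j, (¬ ∃ v, e v = j) → ext z j = false := fun z j h => dif_neg h
  have hextf : ∀ z, (fun v => ext z (e v)) = z := fun z => funext (hext z)
  set f : (Var X Y → Bool) → Bool := fun z => c.eval (ext z) with hf
  -- positive dependence on all variables
  have hpos : ∀ v : Var X Y, ∃ z : Var X Y → Bool, z v = false ∧ f z = false ∧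
      f (Function.update z v true) = true := by
    rintro (u | a)
    · refine ⟨_, rfl, hB0 _ (hextf _), ?_⟩
      refine Eq.trans (congrArg f ?_) (hA1 u _ (hextf _))
      funext v
      rcases v with v | v
      · by_cases h : v = u
        · subst h; simp
        · rw [Function.update_of_ne (by simpa using h)]
          simp [h]
      · rw [Function.update_of_ne (by simp)]
        simp
    · refine ⟨_, rfl, hA0 _ (hextf _), ?_⟩
      refine Eq.trans (congrArg f ?_) (hB1 a _ (hextf _))
      funext v
      rcases v with v | v
      · rw [Function.update_of_ne (by simp)]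
        simp
      · by_cases h : v = a
        · subst h; simp
        · rw [Function.update_of_ne (by simpa using h)]
          simp [h]
  have hdep : ∀ v : Var X Y, Dep c.eval (e v) := by
    intro v
    obtain ⟨z, h1, h2, h3⟩ := hpos v
    refine ⟨ext z, ?_⟩
    have h4 : Function.update (ext z) (e v) (!(ext z (e v))) =
        ext (Function.update z v true) := by
      funext j
      by_cases h : ∃ v', e v' = j
      · obtain ⟨v', rfl⟩ := h
        by_cases hv : v' = v
        · subst hv
          rw [Function.update_self, hext, hext, Function.update_self, h1]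
          rfl
        · rw [Function.update_of_ne (fun h => hv (e.injective h)), hext, hext,
            Function.update_of_ne hv]
      · rw [Function.update_of_ne (fun h' => h ⟨v, h'.symm⟩), hext' _ _ h, hext' _ _ h]
    rw [h4]
    simp only [hf] at h2 h3
    rw [h2, h3]
    simp
  obtain ⟨h1, h2⟩ := circuit_dep c (Finset.univ.map e) (by
    intro i hi
    obtain ⟨v, -, rfl⟩ := Finset.mem_map.mp hi
    exact hdep v)
  rw [Finset.card_map, Finset.card_univ] at h1 h2
  obtain ⟨r0, hr⟩ := h2 (by omega)
  have hloc : ∀ x y : Fin n → Bool, (∀ v, x (e v) = y (e v)) → c.eval x = c.eval y := by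
    intro x y hxy
    refine hr.local' fun i hi => ?_
    obtain ⟨v, -, rfl⟩ := Finset.mem_map.mp hi
    exact hxy v
  have h3 := REx.subst hr
    (fun i => if h : ∃ v, e v = i then ({h.choose} : Finset (Var X Y)) else ∅)
    (fun i z => ext z i)
    (by
      intro i hi
      obtain ⟨v, -, rfl⟩ := Finset.mem_map.mp hi
      have h : ∃ v', e v' = e v := ⟨v, rfl⟩
      simp only [h, dite_true, hext]
      rw [e.injective h.choose_spec]
      have := REx.lit v false
      convert this using 2 with z
      simp) (by
      intro i hi j hj hij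
      obtain ⟨v, -, rfl⟩ := Finset.mem_map.mp hi
      obtain ⟨v', -, rfl⟩ := Finset.mem_map.mp hj
      have h : ∃ v', e v' = e v := ⟨v, rfl⟩
      have h' : ∃ v'', e v'' = e v' := ⟨v', rfl⟩
      simp only [h, h', dite_true]
      rw [e.injective h.choose_spec, e.injective h'.choose_spec, Finset.disjoint_singleton]
      exact fun h => hij (by rw [h]))
  have h4 : (Finset.univ.map e).biUnion
      (fun i => if h : ∃ v, e v = i then ({h.choose} : Finset (Var X Y)) else ∅) =
        Finset.univ := by
    ext v
    simp only [Finset.mem_biUnion, Finset.mem_univ, iff_true]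
    refine ⟨e v, Finset.mem_map.mpr ⟨v, Finset.mem_univ v, rfl⟩, ?_⟩
    have h : ∃ v', e v' = e v := ⟨v, rfl⟩
    simp only [h, dite_true, Finset.mem_singleton]
    exact (e.injective h.choose_spec).symm
  rw [h4] at h3
  obtain ⟨r', hr'⟩ := h3
  have hM : MRO Finset.univ f := MRO.of_sign hr' hpos
  obtain ⟨g, hg, hgf⟩ := rigid hM (hA0 _ (hextf _)) (hB0 _ (hextf _)) (fun u => hA1 u _ (hextf _))
    (fun a => hB1 a _ (hextf _)) (fun u v => hC u v _ (hextf _))
  refine ⟨g, hg, fun S S' x hx => ?_⟩
  rw [← hgf S S']
  have h7 : c.eval x = f (Sum.elim S S') := by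
    rw [← hx]
    exact hloc _ _ fun v => (hext (fun v => x (e v)) v).symm
  rw [h7]

end Pool.Agent.H24
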