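import Pool.Agent.H24.AllNeg

/-!
The monotone upper bound for all size parameters, and both bounds together.
-/

namespace Pool.Agent.H24

open Finset

theorem upper_all {n s : ℕ} (hn : 1 ≤ n) (hs : 1 ≤ s) :
    ∃ (t : ℕ) (L : List (((Fin n → Bool) × Bool → Bool) → Bool))
      (F : ((Fin n → Bool) × Bool → Bool) → Bool), NegCircuit t 0 L ∧ Source L F ∧
      t ≤ 2 ^ (12 * (n + s * Nat.log 2 (n + s))) ∧
      ∀ T : (Fin n → Bool) → Option Bool, F (enc T) = true ↔ PartialMCSP T s := by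
  obtain ⟨t, L, F, h1, h2, h3, h4⟩ := exists_decider n s
  refine ⟨t, L, F, h1, h2, h3.trans ?_, h4⟩
  set ℓ := Nat.log 2 (n + s) with hℓ
  have hn' : n + s < 2 ^ (ℓ + 1) := Nat.lt_pow_succ_log_self (by norm_num) (n + s)
  have hℓ1 : 1 ≤ ℓ := by
    rw [hℓ]
    exact Nat.log_pos (by norm_num) (by omega)
  have h5 : 8 * (n + s) ^ 2 ≤ 2 ^ (7 * ℓ) := by
    calc 8 * (n + s) ^ 2 ≤ 8 * (2 ^ (ℓ + 1)) ^ 2 := by gcongr
      _ = 2 ^ (2 * ℓ + 5) := by
          rw [← pow_mul, show (8:ℕ) = 2 ^ 3 by norm_num, ← pow_add]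
          congr 1
          ring
      _ ≤ 2 ^ (7 * ℓ) := Nat.pow_le_pow_right (by norm_num) (by omega)
  have hsℓ : s ≤ s * ℓ := Nat.le_mul_of_pos_right _ hℓ1
  have hℓs : ℓ ≤ s * ℓ := Nat.le_mul_of_pos_left _ hs
  have h6 : 2 * (n + s) ≤ 2 ^ (3 * (s * ℓ)) := by
    calc 2 * (n + s) ≤ 2 * 2 ^ (ℓ + 1) := Nat.mul_le_mul_left _ hn'.le
      _ = 2 ^ (ℓ + 2) := by rw [pow_succ 2 (ℓ + 1)]; ring
      _ ≤ 2 ^ (3 * (s * ℓ)) := Nat.pow_le_pow_right (by norm_num) (by omega)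
  have h7 : 2 ^ n + 1 ≤ 2 ^ (n + 1) := by
    have : 1 ≤ 2 ^ n := Nat.one_le_two_pow
    rw [pow_succ]
    omega
  have h8 : s + 1 ≤ 2 ^ (s * ℓ) := by
    have : s + 1 ≤ 2 ^ s := Nat.lt_two_pow_self
    exact this.trans (Nat.pow_le_pow_right (by norm_num) hsℓ)
  calc (smallFns n s).card * (2 ^ n + 1)
      ≤ ((s + 1) * ((8 * (n + s) ^ 2) ^ s * (2 * (n + s)))) * (2 ^ n + 1) :=
        Nat.mul_le_mul_right _ (card_smallFns_le s)
    _ ≤ (2 ^ (s * ℓ) * ((2 ^ (7 * ℓ)) ^ s * 2 ^ (3 * (s * ℓ)))) * 2 ^ (n + 1) := by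
        gcongr
    _ = 2 ^ (s * ℓ + (7 * ℓ * s + 3 * (s * ℓ)) + (n + 1)) := by
        rw [← pow_mul, ← pow_add, ← pow_add, ← pow_add]
    _ ≤ 2 ^ (12 * (n + s * ℓ)) := by
        apply Nat.pow_le_pow_right (by norm_num)
        have : 7 * ℓ * s = 7 * (s * ℓ) := by ring
        rw [this]
        omega

/-- **Both bounds.** -/
theorem neg_all (ε : ℝ) (hε : 0 < ε) : ∃ C : ℕ, 1 ≤ C ∧ ∀ n s : ℕ, 1 ≤ n → 1 ≤ s →
    (∃ (t : ℕ) (L : List (((Fin n → Bool) × Bool → Bool) → Bool))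
      (F : ((Fin n → Bool) × Bool → Bool) → Bool), NegCircuit t 0 L ∧ Source L F ∧
      (∀ T : (Fin n → Bool) → Option Bool, F (enc T) = true ↔ PartialMCSP T s) ∧
      t ≤ 2 ^ (C * (n + s * Nat.log 2 (n + s)))) ∧
    (s ≤ 2 ^ (n / C) → ∀ (t r : ℕ) (L : List (((Fin n → Bool) × Bool → Bool) → Bool))
      (F : ((Fin n → Bool) × Bool → Bool) → Bool), (r:ℝ) ≤ (1 - ε) * (min s n : ℕ) →
      NegCircuit t r L → Source L F →
      (∀ T : (Fin n → Bool) → Option Bool, F (enc T) = true ↔ PartialMCSP T s) →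
      2 ^ (n + min s n * Nat.log 2 n) ≤ (t + 2) ^ C) := by
  obtain ⟨b, hb⟩ := exists_nat_ge (1 / ε)
  obtain ⟨C, hC1, hC⟩ := neg_all_lower b
  refine ⟨12 * C, by omega, fun n s hn hs => ⟨?_, ?_⟩⟩
  · obtain ⟨t, L, F, h1, h2, h3, h4⟩ := upper_all hn hs
    refine ⟨t, L, F, h1, h2, h4, h3.trans (Nat.pow_le_pow_right (by norm_num) ?_)⟩
    apply Nat.mul_le_mul_right
    omega
  · intro hs2 t r L F hr hL hF hFT
    have h1 : s ≤ 2 ^ (n / C) := by
      refine hs2.trans (Nat.pow_le_pow_right (by norm_num) ?_)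
      exact Nat.div_le_div_left (by omega) (by omega)
    have h2 : (b + 1) * r ≤ b * min s n := by
      have h3 : ((b + 1) * r : ℝ) ≤ b * (min s n : ℕ) := by
        have hm : (0:ℝ) ≤ (min s n : ℕ) := Nat.cast_nonneg _
        have hb0 : (0:ℝ) ≤ b := Nat.cast_nonneg _
        have h4 : 1 ≤ ε * (b + 1) := by
          rw [div_le_iff₀ hε] at hb
          nlinarith
        calc ((b + 1) * r : ℝ) ≤ (b + 1) * ((1 - ε) * (min s n : ℕ)) := by gcongr
          _ = ((b + 1) - ε * (b + 1)) * (min s n : ℕ) := by ring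
          _ ≤ b * (min s n : ℕ) := by
              apply mul_le_mul_of_nonneg_right _ hm
              linarith
      exact_mod_cast h3
    refine (hC n s hs h1 t r L F h2 hL hF hFT).trans ?_
    exact Nat.pow_le_pow_right (by omega) (by omega)

end Pool.Agent.H24
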