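import Mathlib
import Pool.Agent.H24.Ts

set_option autoImplicit false

/-!
# The core inequality of the exact theorem for bounded breadth
-/

namespace Pool.Agent.H24.Sh

open Finset

section

variable {Ω α : Type*} [Fintype Ω]

lemma fib_le_card (f : Ω → α) (ω : Ω) : fib f ω ≤ (Fintype.card Ω : ℝ) := by
  classical
  unfold fib
  exact_mod_cast Finset.card_le_univ _

lemma S_le (f : Ω → α) : S f ≤ (Fintype.card Ω : ℝ) * Real.log (Fintype.card Ω : ℝ) := by
  unfold S
  calc ∑ ω, Real.log (fib f ω) ≤ ∑ _ω : Ω, Real.log (Fintype.card Ω : ℝ) :=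
        Finset.sum_le_sum fun ω _ => Real.log_le_log (fib_pos f ω) (fib_le_card f ω)
    _ = _ := by rw [Finset.sum_const, Finset.card_univ, nsmul_eq_mul]

open Classical in
/-- Gibbs' inequality. -/
lemma gibbs (f : Ω → α) (ρ : α → ℝ) (hρ : ∀ z, 0 < ρ z)
    (hs : ∑ z ∈ univ.image f, ρ z ≤ 1) :
    ∑ ω, Real.log ((Fintype.card Ω : ℝ) * ρ (f ω)) ≤ S f := by
  rcases isEmpty_or_nonempty Ω with hE | hne
  · simp [S]
  have hN : (0 : ℝ) < (Fintype.card Ω : ℝ) := by exact_mod_cast Fintype.card_pos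
  have h1 : ∑ ω, ρ (f ω) / fib f ω = ∑ z ∈ univ.image f, ρ z := by
    rw [← Finset.sum_fiberwise_of_maps_to (s := (univ : Finset Ω)) (t := univ.image f)
      (g := f) (fun ω _ => Finset.mem_image_of_mem f (Finset.mem_univ ω))]
    refine Finset.sum_congr rfl fun z hz => ?_
    obtain ⟨ω₀, _, rfl⟩ := Finset.mem_image.1 hz
    have h2 : ∀ ω ∈ univ.filter (fun ω => f ω = f ω₀), ρ (f ω) / fib f ω =
        ρ (f ω₀) / fib f ω₀ := by
      intro ω hω
      have h3 := (Finset.mem_filter.1 hω).2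
      rw [h3, fib_eq f h3]
    rw [Finset.sum_congr rfl h2, Finset.sum_const, nsmul_eq_mul]
    have h3 : ((univ.filter (fun ω => f ω = f ω₀)).card : ℝ) = fib f ω₀ := card_fib f ω₀
    rw [h3]
    have := (fib_pos f ω₀).ne'
    field_simp
  have h2 : ∀ ω, Real.log ((Fintype.card Ω : ℝ) * ρ (f ω)) - Real.log (fib f ω) ≤
      (Fintype.card Ω : ℝ) * (ρ (f ω) / fib f ω) - 1 := by
    intro ω
    have h3 := fib_pos f ω
    have h4 := hρ (f ω)
    have h5 := Real.log_le_sub_one_of_pos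
      (show 0 < (Fintype.card Ω : ℝ) * ρ (f ω) / fib f ω by positivity)
    rw [Real.log_div (by positivity) h3.ne'] at h5
    rw [mul_div_assoc] at h5
    exact h5
  have h3 := Finset.sum_le_sum (s := (univ : Finset Ω)) fun ω _ => h2 ω
  rw [Finset.sum_sub_distrib, Finset.sum_sub_distrib, ← Finset.mul_sum, h1, Finset.sum_const,
    Finset.card_univ, nsmul_eq_mul, mul_one] at h3
  have h4 : (Fintype.card Ω : ℝ) * ∑ z ∈ univ.image f, ρ z ≤ (Fintype.card Ω : ℝ) * 1 :=
    mul_le_mul_of_nonneg_left hs hN.le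
  unfold S
  linarith

open Classical in
/-- At most `K` values: `H(f) ≤ log K`. -/
lemma S_ge [Nonempty Ω] (f : Ω → α) (K : ℝ) (hK : ((univ.image f).card : ℝ) ≤ K) :
    (Fintype.card Ω : ℝ) * (Real.log (Fintype.card Ω : ℝ) - Real.log K) ≤ S f := by
  have hN : (0 : ℝ) < (Fintype.card Ω : ℝ) := by exact_mod_cast Fintype.card_pos
  have hK0 : 0 < K := lt_of_lt_of_le (by
    exact_mod_cast Finset.card_pos.2 (Finset.univ_nonempty.image f)) hK
  have h1 := gibbs f (fun _ => 1 / K) (fun _ => by positivity) (by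
    rw [Finset.sum_const, nsmul_eq_mul, mul_one_div, div_le_one hK0]
    exact hK)
  rw [Finset.sum_const, Finset.card_univ, nsmul_eq_mul, Real.log_mul hN.ne' (by positivity),
    Real.log_div one_ne_zero hK0.ne', Real.log_one, zero_sub] at h1
  linarith

end

open Classical in
/-- The law of `φ` on `L × L` gives mass at least `1 / 4` to a set `E` with `q N` elements. -/
lemma kl {L : Type*} [Fintype L] [Nonempty L] (φ : L × L → L) (E : Finset L) (η : ℝ)
    (hE : (E.card : ℝ) ≤ η * (Fintype.card L : ℝ))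
    (hE4 : (Fintype.card L : ℝ) ^ 2 / 4 ≤ ((univ.filter fun p => φ p ∈ E).card : ℝ)) :
    (Fintype.card L : ℝ) ^ 2 * (Real.log (Fintype.card L : ℝ) - Real.log 2 +
      1 / 4 * Real.log (1 / η)) ≤ S φ ∨ 1 ≤ η := by
  by_cases hη1 : 1 ≤ η
  · exact Or.inr hη1
  left
  have hN : (0 : ℝ) < (Fintype.card L : ℝ) := by exact_mod_cast Fintype.card_pos
  have hEpos : (0 : ℝ) < (E.card : ℝ) := by
    rcases Finset.eq_empty_or_nonempty E with h | h
    · rw [h] at hE4
      simp at hE4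
      nlinarith [sq_nonneg (Fintype.card L : ℝ), pow_pos hN 2]
    · exact_mod_cast h.card_pos
  have hη0 : 0 < η := by
    by_contra h
    nlinarith
  have hlogη : 0 ≤ Real.log (1 / η) :=
    Real.log_nonneg (by rw [le_div_iff₀ hη0]; linarith)
  set ρ : L → ℝ := fun z => 1 / (2 * (Fintype.card L : ℝ)) +
    if z ∈ E then 1 / (2 * (E.card : ℝ)) else 0 with hρ
  have h0 : ∀ z, 0 < ρ z := by
    intro z
    simp only [hρ]
    split_ifs <;> positivity
  have h1 := gibbs φ ρ h0 (by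
    calc ∑ z ∈ univ.image φ, ρ z ≤ ∑ z, ρ z :=
          Finset.sum_le_sum_of_subset_of_nonneg (Finset.subset_univ _) fun z _ _ => (h0 z).le
      _ = 1 := by
          simp only [hρ]
          rw [Finset.sum_add_distrib, Finset.sum_const, Finset.card_univ, nsmul_eq_mul,
            ← Finset.sum_filter, Finset.sum_const, nsmul_eq_mul]
          have : (univ.filter fun z => z ∈ E) = E := by ext; simp
          rw [this]
          field_simp
          norm_num)
  have hcard : (Fintype.card (L × L) : ℝ) = (Fintype.card L : ℝ) ^ 2 := by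
    rw [Fintype.card_prod]
    push_cast
    ring
  rw [hcard] at h1
  have h2 : ∀ p, Real.log (Fintype.card L : ℝ) - Real.log 2 +
      (if φ p ∈ E then Real.log (1 / η) else 0) ≤
      Real.log ((Fintype.card L : ℝ) ^ 2 * ρ (φ p)) := by
    intro p
    by_cases hp : φ p ∈ E
    · rw [if_pos hp]
      have h3 : (Fintype.card L : ℝ) / 2 * (1 / η) ≤ (Fintype.card L : ℝ) ^ 2 * ρ (φ p) := by
        have h4 : 1 / (2 * (E.card : ℝ)) ≤ ρ (φ p) := by
          simp only [hρ, if_pos hp]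
          have : 0 ≤ 1 / (2 * (Fintype.card L : ℝ)) := by positivity
          linarith
        have h5 : 1 / (2 * (η * (Fintype.card L : ℝ))) ≤ 1 / (2 * (E.card : ℝ)) := by
          apply one_div_le_one_div_of_le (by positivity)
          linarith
        have h6 := mul_le_mul_of_nonneg_left (h5.trans h4) (sq_nonneg (Fintype.card L : ℝ))
        refine le_trans (le_of_eq ?_) h6
        field_simp
      have h4 := Real.log_le_log (by positivity) h3
      rw [Real.log_mul (by positivity) (by positivity),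
        Real.log_div hN.ne' (by norm_num)] at h4
      exact h4
    · rw [if_neg hp, add_zero]
      have h3 : (Fintype.card L : ℝ) / 2 ≤ (Fintype.card L : ℝ) ^ 2 * ρ (φ p) := by
        simp only [hρ, if_neg hp, add_zero]
        apply le_of_eq
        field_simp
      have h4 := Real.log_le_log (by positivity) h3
      rwa [Real.log_div hN.ne' (by norm_num)] at h4
  have h3 := Finset.sum_le_sum (s := (univ : Finset (L × L))) fun p _ => h2 p
  rw [Finset.sum_add_distrib, Finset.sum_const, Finset.card_univ, nsmul_eq_mul, hcard,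
    ← Finset.sum_filter, Finset.sum_const, nsmul_eq_mul] at h3
  have h4 := mul_le_mul_of_nonneg_right hE4 hlogη
  have h5 := h3.trans h1
  nlinarith

open Classical in
/-- The core inequality. -/
theorem core {L : Type*} [Lattice L] [Fintype L] [Nonempty L] (M : Finset L) (g g1 : L → L)
    (hinj : ∀ x y : L, (∀ m ∈ M, x ⊓ m = y ⊓ m) → x = y)
    (hmg : ∀ m ∈ M, m ≤ g m) (hgg : ∀ m ∈ M, g m ≤ g1 m) (ε ε1 K K1 η : ℝ)
    (hε1 : 0 ≤ ε1) (hb : 0 ≤ 1 / 2 - ε - ε1)
    (hu : ∀ m ∈ M, (1 / 2 - ε) * (Fintype.card L : ℝ) ≤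
      ((univ.filter fun y => g m ≤ y).card : ℝ))
    (hu1 : ∀ m ∈ M, (1 / 2 - ε - ε1) * (Fintype.card L : ℝ) ≤
      ((univ.filter fun y => g1 m ≤ y).card : ℝ))
    (hK : (((univ : Finset L).image fun x => M.filter fun m => g m ≤ x).card : ℝ) ≤ K)
    (hK1 : (((univ : Finset L).image fun x => M.filter fun m => g1 m ≤ x).card : ℝ) ≤ K1)
    (hnest : ∀ x x' : L, (∀ m ∈ M, g m ≤ x ↔ g m ≤ x') → ∀ m ∈ M, g1 m ≤ x ↔ g1 m ≤ x')
    (E : Finset L) (hE : (E.card : ℝ) ≤ η * (Fintype.card L : ℝ))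
    (hE4 : (Fintype.card L : ℝ) ^ 2 / 4 ≤
      ((univ.filter fun p : L × L => p.1 ⊓ p.2 ∈ E).card : ℝ)) (hη1 : η < 1) (hε : 0 ≤ ε)
    (hK1' : 0 ≤ Real.log K1) :
    1 / 4 * Real.log (1 / η) ≤
      Real.log 2 + 2 * ε * Real.log (Fintype.card L : ℝ) + 2 * ε1 * Real.log K + Real.log K1 := by
  have hN : (0 : ℝ) < (Fintype.card L : ℝ) := by exact_mod_cast Fintype.card_pos
  set F : L → Finset L := fun x => M.filter fun m => g m ≤ x with hF
  set F1 : L → Finset L := fun x => M.filter fun m => g1 m ≤ x with hF1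
  have memF : ∀ x m, m ∈ F x ↔ m ∈ M ∧ g m ≤ x := fun x m => Finset.mem_filter
  have memF1 : ∀ x m, m ∈ F1 x ↔ m ∈ M ∧ g1 m ≤ x := fun x m => Finset.mem_filter
  have F_inf : ∀ x y, F (x ⊓ y) = F x ∩ F y := by
    intro x y
    ext m
    simp only [Finset.mem_inter, memF, le_inf_iff]
    tauto
  have F1_inf : ∀ x y, F1 (x ⊓ y) = F1 x ∩ F1 y := by
    intro x y
    ext m
    simp only [Finset.mem_inter, memF1, le_inf_iff]
    tauto
  have F_F1 : ∀ z z', F z = F z' → F1 z = F1 z' := by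
    intro z z' h
    have h1 := hnest z z' (fun m hm => by
      have := Finset.ext_iff.1 h m
      simp only [memF, hm, true_and] at this
      exact this)
    ext m
    simp only [memF1]
    exact ⟨fun h2 => ⟨h2.1, (h1 m h2.1).1 h2.2⟩, fun h2 => ⟨h2.1, (h1 m h2.1).2 h2.2⟩⟩
  -- step A
  have hA := two_step (Ω := L) (I := {m // m ∈ M}) (fun x y => x ⊓ y) (fun x => x) F
    (fun m x => x ⊓ m.1) (fun T => univ.filter fun m : {m // m ∈ M} => m.1 ∈ T) (1 / 2 - ε)
    (by linarith) (fun z z' h => by rw [h])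
    (fun z z' _ h => hinj z z' fun m hm => h ⟨m, hm⟩)
    (fun x x' y y' h h' => by rw [F_inf, F_inf, h, h'])
    (fun x x' y y' h h' h'' m hm => by
      have h1 : m.1 ∈ F y := (Finset.mem_filter.1 hm).2
      have h2 : m.1 ≤ y := (hmg _ m.2).trans ((memF y m.1).1 h1).2
      have h3 : m.1 ≤ y' := by
        rw [h'] at h1
        exact (hmg _ m.2).trans ((memF y' m.1).1 h1).2
      have h4 : x ⊓ y = x' ⊓ y' := h''
      calc x ⊓ m.1 = x ⊓ y ⊓ m.1 := by rw [inf_assoc, inf_eq_right.2 h2]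
        _ = x' ⊓ y' ⊓ m.1 := by rw [h4]
        _ = x' ⊓ m.1 := by rw [inf_assoc, inf_eq_right.2 h3])
    (fun x x' y y' h h' h'' m hm => by
      have h1 : m.1 ∈ F x := (Finset.mem_filter.1 hm).2
      have h2 : m.1 ≤ x := (hmg _ m.2).trans ((memF x m.1).1 h1).2
      have h3 : m.1 ≤ x' := by
        rw [h] at h1
        exact (hmg _ m.2).trans ((memF x' m.1).1 h1).2
      have h4 : x ⊓ y = x' ⊓ y' := h''
      calc y ⊓ m.1 = x ⊓ y ⊓ m.1 := by rw [inf_comm x y, inf_assoc, inf_eq_right.2 h2]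
        _ = x' ⊓ y' ⊓ m.1 := by rw [h4]
        _ = y' ⊓ m.1 := by rw [inf_comm x' y', inf_assoc, inf_eq_right.2 h3])
    (fun m => by
      refine (hu m.1 m.2).trans (le_of_eq ?_)
      congr 2
      ext y
      simp [memF, m.2])
  -- step B
  have hB := two_step (Ω := L) (I := {m // m ∈ M}) (fun x y => x ⊓ y) F F1
    (fun m x => m.1 ∈ F x) (fun T => univ.filter fun m : {m // m ∈ M} => m.1 ∈ T)
    (1 / 2 - ε - ε1) hb F_F1
    (fun z z' _ h => by
      ext m
      by_cases hm : m ∈ M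
      · have := h ⟨m, hm⟩
        simp only [eq_iff_iff] at this
        exact this
      · simp [memF, hm])
    (fun x x' y y' h h' => by rw [F1_inf, F1_inf, h, h'])
    (fun x x' y y' h h' h'' m hm => by
      have h1 : m.1 ∈ F1 y := (Finset.mem_filter.1 hm).2
      have h2 : m.1 ∈ F y := (memF y m.1).2 ⟨m.2, (hgg _ m.2).trans ((memF1 y m.1).1 h1).2⟩
      have h3 : m.1 ∈ F y' := by
        rw [h'] at h1
        exact (memF y' m.1).2 ⟨m.2, (hgg _ m.2).trans ((memF1 y' m.1).1 h1).2⟩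
      have h4 : F (x ⊓ y) = F (x' ⊓ y') := h''
      rw [F_inf, F_inf] at h4
      have h5 := Finset.ext_iff.1 h4 m.1
      simp only [Finset.mem_inter, h2, h3, and_true] at h5
      exact propext h5)
    (fun x x' y y' h h' h'' m hm => by
      have h1 : m.1 ∈ F1 x := (Finset.mem_filter.1 hm).2
      have h2 : m.1 ∈ F x := (memF x m.1).2 ⟨m.2, (hgg _ m.2).trans ((memF1 x m.1).1 h1).2⟩
      have h3 : m.1 ∈ F x' := by
        rw [h] at h1
        exact (memF x' m.1).2 ⟨m.2, (hgg _ m.2).trans ((memF1 x' m.1).1 h1).2⟩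
      have h4 : F (x ⊓ y) = F (x' ⊓ y') := h''
      rw [F_inf, F_inf] at h4
      have h5 := Finset.ext_iff.1 h4 m.1
      simp only [Finset.mem_inter, h2, h3, true_and] at h5
      exact propext h5)
    (fun m => by
      refine (hu1 m.1 m.2).trans (le_of_eq ?_)
      congr 2
      ext y
      simp [memF1, m.2])
  have hS0 : S (fun x : L => x) = 0 := by
    unfold S
    refine Finset.sum_eq_zero fun x _ => ?_
    have : fib (fun x : L => x) x = 1 := by
      unfold fib
      rw [Finset.filter_eq' univ x, if_pos (Finset.mem_univ _)]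
      simp
    rw [this, Real.log_one]
  have hSF := S_ge F K (by convert hK)
  have hSF1 := S_ge F1 K1 (by convert hK1)
  have hψ := S_le (fun p : L × L => F1 (p.1 ⊓ p.2))
  have hcard : (Fintype.card (L × L) : ℝ) = (Fintype.card L : ℝ) ^ 2 := by
    rw [Fintype.card_prod]
    push_cast
    ring
  rw [hcard, Real.log_pow] at hψ
  rcases kl (fun p : L × L => p.1 ⊓ p.2) E η hE hE4 with h | h
  swap
  · exact absurd h (not_le.2 hη1)
  rw [hS0, sub_zero] at hA
  set N : ℝ := (Fintype.card L : ℝ) with hNdef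
  set Λ : ℝ := Real.log N with hΛ
  set X : ℝ := Real.log (1 / η) with hX
  have h1 : N ^ 2 * (Λ - Real.log 2 + 1 / 4 * X) + 2 * (1 / 2 - ε) * N * S F +
      2 * (1 / 2 - ε - ε1) * N * (S F1 - S F) ≤ N ^ 2 * ((2 : ℕ) * Λ) := by
    have h2 : S (fun p : L × L => p.1 ⊓ p.2) + 2 * (1 / 2 - ε) * N * S F ≤
        S (fun p : L × L => F (p.1 ⊓ p.2)) := hA
    have h3 : S (fun p : L × L => F (p.1 ⊓ p.2)) + 2 * (1 / 2 - ε - ε1) * N * (S F1 - S F) ≤
        S (fun p : L × L => F1 (p.1 ⊓ p.2)) := hB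
    have h4 : N ^ 2 * (Λ - Real.log 2 + 1 / 4 * X) ≤ S (fun p : L × L => p.1 ⊓ p.2) := h
    have h5 := h4
    calc N ^ 2 * (Λ - Real.log 2 + 1 / 4 * X) + 2 * (1 / 2 - ε) * N * S F +
        2 * (1 / 2 - ε - ε1) * N * (S F1 - S F)
        ≤ S (fun p : L × L => p.1 ⊓ p.2) + 2 * (1 / 2 - ε) * N * S F +
        2 * (1 / 2 - ε - ε1) * N * (S F1 - S F) := by
          exact add_le_add_left (add_le_add_left h4 _) _
      _ ≤ S (fun p : L × L => F (p.1 ⊓ p.2)) + 2 * (1 / 2 - ε - ε1) * N * (S F1 - S F) := by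
          exact add_le_add_left h2 _
      _ ≤ S (fun p : L × L => F1 (p.1 ⊓ p.2)) := h3
      _ ≤ _ := hψ
  have h2 : 2 * ε1 * N * (N * (Λ - Real.log K)) ≤ 2 * ε1 * N * S F :=
    mul_le_mul_of_nonneg_left hSF (by positivity)
  have h3 : 2 * (1 / 2 - ε - ε1) * N * (N * (Λ - Real.log K1)) ≤
      2 * (1 / 2 - ε - ε1) * N * S F1 :=
    mul_le_mul_of_nonneg_left hSF1 (by positivity)
  have h4 : N ^ 2 * (1 / 4 * X) ≤ N ^ 2 * (Real.log 2 + 2 * ε * Λ + 2 * ε1 * Real.log K +
      Real.log K1) := by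
    have h5 : 0 ≤ N ^ 2 * ((2 * ε + 2 * ε1) * Real.log K1) := by positivity
    push_cast at h1
    nlinarith
  exact le_of_mul_le_mul_left h4 (by positivity)

end Pool.Agent.H24.Sh
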