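import Mathlib
import Pool.Agent.H24.Vc
import Pool.Agent.H34.VC.TwoLev
import Pool.Agent.H75.VC.Numbers
import Pool.Agent.H31.LB.ESet

set_option autoImplicit false

/-!
# The exact theorem for bounded breadth: assembly
-/

namespace Pool.Agent.H24.VcMain

open Finset

universe u

/-- In a finite lattice `z ≤ w` holds as soon as every join-irreducible below `z` is below `w`. -/
lemma le_of_forall_supIrred {L : Type*} [Lattice L] [Finite L] {z w : L}
    (h : ∀ c : L, SupIrred c → c ≤ z → c ≤ w) : z ≤ w := by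
  by_contra hzw
  obtain ⟨c, hc⟩ := (Set.toFinite {c : L | c ≤ z ∧ ¬ c ≤ w}).exists_minimal ⟨z, le_rfl, hzw⟩
  have hbelow : ∀ e : L, e < c → e ≤ w := by
    intro e he
    by_contra hew
    exact absurd (hc.le_of_le ⟨he.le.trans hc.prop.1, hew⟩ he.le) (not_le_of_gt he)
  refine hc.prop.2 (h c ⟨fun hmin => hc.prop.2 ((hmin inf_le_left).trans inf_le_right), ?_⟩
    hc.prop.1)
  intro b e hbe
  by_contra hne
  have hb : b < c := lt_of_le_of_ne (hbe ▸ le_sup_left) (fun h' => hne (Or.inl h'))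
  have he : e < c := lt_of_le_of_ne (hbe ▸ le_sup_right) (fun h' => hne (Or.inr h'))
  exact hc.prop.2 (hbe ▸ sup_le (hbelow b hb) (hbelow e he))

/-- For every `b` there is a `C` such that every finite lattice with more than `C` elements, in
which every join of maximal join-irreducibles is a join of at most `b` of them, has a maximal
join-irreducible which lies under less than half of the elements. -/
theorem main (b : ℕ) : ∃ C : ℕ, ∀ (L : Type u) [Lattice L] [BoundedOrder L] [Finite L],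
    (∀ A : Finset L, (∀ a ∈ A, Maximal SupIrred a) →
      ∃ B ⊆ A, B.card ≤ b ∧ B.sup id = A.sup id) →
    C < Nat.card L → ∃ a : L, Maximal SupIrred a ∧
      2 * Nat.card {x : L // a ≤ x} < Nat.card L := by
  classical
  obtain ⟨Λ0, hΛ0, hnum⟩ := Pool.Agent.H75.VC.numbers b
  obtain ⟨C, hC⟩ := exists_nat_gt (Real.exp Λ0)
  refine ⟨C, fun L _ _ _ hb hCN => ?_⟩
  by_contra hno
  push Not at hno
  have iF := Fintype.ofFinite L
  rw [Nat.card_eq_fintype_card] at hCN
  have hCN' : Real.exp Λ0 < (Fintype.card L : ℝ) := hC.trans (by exact_mod_cast hCN)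
  set Λ : ℝ := Real.log (Fintype.card L : ℝ) with hΛ
  have hN : (0 : ℝ) < (Fintype.card L : ℝ) := (Real.exp_pos _).trans hCN'
  have hΛ1 : Λ0 ≤ Λ := by
    rw [hΛ, Real.le_log_iff_exp_le hN]
    exact hCN'.le
  have hΛ3 : 3 ≤ Λ := hΛ0.trans hΛ1
  have hN2 : 2 ≤ Fintype.card L := by
    by_contra hlt
    have h1 : (Fintype.card L : ℝ) ≤ 1 := by
      have : Fintype.card L ≤ 1 := by omega
      exact_mod_cast this
    have h2 : Λ ≤ 0 := Real.log_nonpos hN.le h1
    linarith
  set M : Finset L := univ.filter (fun a => Maximal SupIrred a) with hM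
  set t : ℕ := ⌈2 * Λ ^ 2⌉₊ + 1 with ht
  set K : ℕ := ((t + 1) ^ b + 1) ^ b with hK
  set e : ℝ := 1 / Λ with he
  set e1 : ℝ := 1 / (96 * ((b : ℝ) ^ 2 + 1)) with he1
  set t1 : ℕ := ⌈2 * Real.log (K : ℝ) / e1⌉₊ + 1 with ht1
  set K1 : ℕ := ((t1 + 1) ^ b + 1) ^ b with hK1
  obtain ⟨hn1, hn2⟩ := hnum Λ hΛ1 t t1 (K : ℝ) (K1 : ℝ) e e1 (e + Real.log (K : ℝ) / (2 * Λ)) ht
    (by rw [hK]; push_cast; rfl) he he1 ht1 (by rw [hK1]; push_cast; rfl) rfl
  have he0 : 0 < e := by rw [he]; positivity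
  have he10 : 0 < e1 := by rw [he1]; positivity
  have hKpos : 1 ≤ K := Nat.one_le_pow _ _ (by positivity)
  have hK1pos : 1 ≤ K1 := Nat.one_le_pow _ _ (by positivity)
  have hlogK : 0 ≤ Real.log (K : ℝ) := Real.log_nonneg (by exact_mod_cast hKpos)
  have hlogK1 : 0 ≤ Real.log (K1 : ℝ) := Real.log_nonneg (by exact_mod_cast hK1pos)
  obtain ⟨g, g1, h1, h2, h3, h4, h5, h6, h7⟩ := Pool.Agent.H34.VC.TwoLev.two_levels b M
    (fun A hA => hb A fun a ha => (Finset.mem_filter.1 (hA ha)).2) e e1 t t1 K K1 hK hK1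
    (by
      have h1 : 2 * Λ ^ 2 < (t : ℝ) := by
        rw [ht]
        push_cast
        have := Nat.le_ceil (2 * Λ ^ 2)
        linarith
      have h2 : e * (2 * Λ ^ 2) = 2 * Λ := by
        rw [he]
        field_simp
      have h3 := mul_lt_mul_of_pos_left h1 he0
      linarith)
    (by
      have h1 : 2 * Real.log (K : ℝ) / e1 < (t1 : ℝ) := by
        rw [ht1]
        push_cast
        have := Nat.le_ceil (2 * Real.log (K : ℝ) / e1)
        linarith
      rw [div_lt_iff₀ he10] at h1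
      linarith)
  -- all members of `M` are frequent
  have hup : ∀ m : L, Nat.card {x : L // m ≤ x} = (Finset.univ.filter fun x : L => m ≤ x).card := by
    intro m
    rw [Nat.card_eq_fintype_card, Fintype.card_subtype]
  have hfreq : ∀ m ∈ M, (Fintype.card L : ℝ) ≤
      2 * ((Finset.univ.filter fun x : L => m ≤ x).card : ℝ) := by
    intro m hm
    have h8 := hno m (Finset.mem_filter.1 hm).2
    rw [hup, Nat.card_eq_fintype_card] at h8
    exact_mod_cast h8
  have hu : ∀ m ∈ M, (1 / 2 - e) * (Fintype.card L : ℝ) ≤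
      ((univ.filter fun y => g m ≤ y).card : ℝ) := by
    intro m hm
    have h8 := hfreq m hm
    have h9 := h3 m hm
    linarith
  have hu1 : ∀ m ∈ M, (1 / 2 - e - e1) * (Fintype.card L : ℝ) ≤
      ((univ.filter fun y => g1 m ≤ y).card : ℝ) := by
    intro m hm
    have h8 := hu m hm
    have h9 := h4 m hm
    linarith
  have hdom : ∀ a : L, SupIrred a → ∃ m ∈ M, a ≤ m := by
    intro a ha
    obtain ⟨c, hac, hc⟩ := (Set.toFinite {x : L | SupIrred x}).exists_le_maximal ha
    exact ⟨c, Finset.mem_filter.2 ⟨Finset.mem_univ _, hc⟩, hac⟩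
  have hle : ∀ x y : L, (∀ m ∈ M, x ⊓ m = y ⊓ m) → x ≤ y := by
    intro x y h
    refine le_of_forall_supIrred fun c hc hcx => ?_
    obtain ⟨m, hm, hcm⟩ := hdom c hc
    have h8 : c ≤ x ⊓ m := le_inf hcx hcm
    rw [h m hm] at h8
    exact h8.trans inf_le_left
  have hinj : ∀ x y : L, (∀ m ∈ M, x ⊓ m = y ⊓ m) → x = y := fun x y h =>
    le_antisymm (hle x y h) (hle y x fun m hm => (h m hm).symm)
  -- the set `E`
  let j : Fin M.card → L := fun m => (M.equivFin.symm m : L)
  have hj : ∀ m, j m ∈ M := fun m => (M.equivFin.symm m).2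
  have hjs : ∀ a ∈ M, ∃ m, j m = a := fun a ha => ⟨M.equivFin ⟨a, ha⟩, by simp [j]⟩
  obtain ⟨E, hE1, hE2⟩ := Pool.Agent.H31.LB.eset j (fun m => g (j m)) (fun m => h1 _ (hj m))
    (fun x y h => hinj x y fun a ha => by
      obtain ⟨m, rfl⟩ := hjs a ha
      exact h m)
    (fun x => M.filter fun m => g m ≤ x)
    (fun x y h m => by
      have h8 := Finset.ext_iff.1 h (j m)
      simp only [Finset.mem_filter, hj m, true_and] at h8
      exact h8)
    (K : ℝ) (by
      refine le_trans (le_of_eq ?_) (Nat.cast_le.2 h5)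
      congr!) e he0.le hN2 (fun m => by
      refine (hu _ (hj m)).trans (le_of_eq ?_)
      congr!) (by rw [← hΛ]; exact hn1)
  rw [← hΛ] at hE1
  set η : ℝ := e + Real.log (K : ℝ) / (2 * Λ) with hη
  have hη0 : 0 < η := by
    have : 0 ≤ Real.log (K : ℝ) / (2 * Λ) := by positivity
    linarith
  have hb2 : e ≤ 1 / 3 := by
    rw [he]
    exact one_div_le_one_div_of_le (by norm_num) hΛ3
  have hb3 : e1 ≤ 1 / 96 := by
    rw [he1]
    apply one_div_le_one_div_of_le (by norm_num)
    nlinarith [sq_nonneg (b : ℝ)]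
  have hcore := Pool.Agent.H24.Sh.core M g g1 hinj h1 h2 e e1 (K : ℝ) (K1 : ℝ) (16 * η) he10.le
    (by linarith) (fun m hm => by
      refine (hu m hm).trans (le_of_eq ?_)
      congr!) (fun m hm => by
      refine (hu1 m hm).trans (le_of_eq ?_)
      congr!)
    (by
      refine le_trans (le_of_eq ?_) (Nat.cast_le.2 h5)
      congr!)
    (by
      refine le_trans (le_of_eq ?_) (Nat.cast_le.2 h6)
      congr!) h7 E hE1 (by
      refine hE2.trans (le_of_eq ?_)
      congr!) (by linarith) he0.le hlogK1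
  rw [← hΛ] at hcore
  have h8 : Real.log (1 / (48 * η)) ≤ Real.log (1 / (16 * η)) := by
    apply Real.log_le_log (by positivity)
    apply one_div_le_one_div_of_le (by positivity)
    linarith
  have h9 : 0 ≤ 2 * e * Real.log (K : ℝ) := by positivity
  linarith

end Pool.Agent.H24.VcMain
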